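import Pool.Agent.FWar.Defs
import Pool.Agent.MWg.Tools

/-!
# FWar.AeC: from averages to almost every parameter (Borel-Cantelli)

PROOF. Let `f_r(x) = cn (S r) (fun i => |G i x| ≤ M)` for `x ∈ [a,b]`. For `r ≥ r0` (where `h`, `hY`
hold) `∫_[a,b] f_r = ∑_{i ∈ S r} vol {x ∈ [a,b] : |G i x| ≤ M} ≤ (XX r)^δ Y r` (measurability: `G i`
is continuous on `[a,b]`). By Markov's inequality the set `E_r` of the `x ∈ [a,b]` with
`f_r(x) > (XX r)^(2δ) Y r` has measure at most `(XX r)^(-δ) = 2^(-δ r)`, which is summable.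
By Borel-Cantelli (`measure_limsup_atTop_eq_zero` or `ae_eventually_notMem`) almost every `x ∈ [a,b]`
is in `E_r` for only finitely many `r`. (One can avoid the integral of `f_r`: work with the
`lintegral` of `∑ i ∈ S r, indicator`.)
-/

namespace FWar

open MWg Finset MeasureTheory Filter Topology

theorem ae_of_avg {ι : Type*} {S : ℕ → Finset ι} {G : ι → ℝ → ℝ} {a b M δ : ℝ} {Y : ℕ → ℝ}
    (hδ : 0 < δ) (hY : ∀ᶠ r : ℕ in atTop, 0 < Y r)
    (hG : ∀ r, ∀ i ∈ S r, ContinuousOn (G i) (Set.Icc a b))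
    (h : ∀ᶠ r : ℕ in atTop,
      ∑ i ∈ S r, (volume {x | x ∈ Set.Icc a b ∧ |G i x| ≤ M}).toReal ≤ (XX r) ^ δ * Y r) :
    ∀ᵐ x : ℝ, x ∈ Set.Icc a b → ∀ᶠ r : ℕ in atTop,
      cn (S r) (fun i => |G i x| ≤ M) ≤ (XX r) ^ (2 * δ) * Y r := by
  classical
  obtain ⟨r0, hr0⟩ := eventually_atTop.1 (hY.and h)
  have hXX : ∀ r, 0 < XX r := fun r => by unfold XX; positivity
  -- the sets
  set A : ι → Set ℝ := fun i => {x | x ∈ Set.Icc a b ∧ |G i x| ≤ M} with hA
  have hAm : ∀ r, ∀ i ∈ S r, MeasurableSet (A i) := by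
    intro r i hi
    have h1 : A i = Set.Icc a b ∩ (G i) ⁻¹' (Set.Icc (-M) M) := by
      ext x
      simp only [hA, Set.mem_setOf_eq, Set.mem_inter_iff, Set.mem_preimage, Set.mem_Icc, abs_le]
    rw [h1]
    exact ((hG r i hi).preimage_isClosed_of_isClosed isClosed_Icc isClosed_Icc).measurableSet
  have hAf : ∀ i, volume (A i) ≠ ⊤ := by
    intro i
    refine ne_top_of_le_ne_top (b := volume (Set.Icc a b)) ?_ (measure_mono fun x hx => hx.1)
    rw [Real.volume_Icc]
    exact ENNReal.ofReal_ne_top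
  set F : ℕ → ℝ → ENNReal := fun r x => ∑ i ∈ S r, (A i).indicator 1 x with hF
  have hFint : ∀ r, r0 ≤ r → ∫⁻ x, F r x ≤ ENNReal.ofReal ((XX r) ^ δ * Y r) := by
    intro r hr
    have h1 : ∫⁻ x, F r x = ∑ i ∈ S r, volume (A i) := by
      simp only [hF]
      rw [lintegral_finset_sum' _ (fun i hi => (measurable_one.indicator (hAm r i hi)).aemeasurable)]
      refine Finset.sum_congr rfl fun i hi => ?_
      rw [lintegral_indicator_one (hAm r i hi)]
    have h2 : ∑ i ∈ S r, volume (A i) = ENNReal.ofReal (∑ i ∈ S r, (volume (A i)).toReal) := by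
      rw [ENNReal.ofReal_sum_of_nonneg (fun i _ => ENNReal.toReal_nonneg)]
      refine Finset.sum_congr rfl fun i _ => ?_
      rw [ENNReal.ofReal_toReal (hAf i)]
    rw [h1, h2]
    exact ENNReal.ofReal_le_ofReal (hr0 r hr).2
  have hFm : ∀ r, AEMeasurable (F r) volume := by
    intro r
    refine Finset.aemeasurable_fun_sum _ fun i hi => ?_
    exact (measurable_one.indicator (hAm r i hi)).aemeasurable
  -- the exceptional sets
  set E : ℕ → Set ℝ := fun r =>
    if r0 ≤ r then {x | ENNReal.ofReal ((XX r) ^ (2 * δ) * Y r) ≤ F r x} else ∅ with hE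
  set q : ℝ := (2 : ℝ) ^ (-δ) with hq
  have hq0 : 0 < q := by rw [hq]; positivity
  have hq1 : q < 1 := by
    rw [hq]
    exact Real.rpow_lt_one_of_one_lt_of_neg (by norm_num) (by linarith)
  have hEr : ∀ r, volume (E r) ≤ ENNReal.ofReal (q ^ r) := by
    intro r
    by_cases hr : r0 ≤ r
    · have hYr := (hr0 r hr).1
      have h1 : E r = {x | ENNReal.ofReal ((XX r) ^ (2 * δ) * Y r) ≤ F r x} := by
        simp only [hE, if_pos hr]
      have h2 := (mul_meas_ge_le_lintegral₀ (hFm r)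
        (ENNReal.ofReal ((XX r) ^ (2 * δ) * Y r))).trans (hFint r hr)
      have hp1 : 0 < (XX r) ^ (2 * δ) * Y r := mul_pos (Real.rpow_pos_of_pos (hXX r) _) hYr
      have h3 : ENNReal.ofReal ((XX r) ^ δ * Y r) =
          ENNReal.ofReal ((XX r) ^ (2 * δ) * Y r) * ENNReal.ofReal (q ^ r) := by
        rw [← ENNReal.ofReal_mul hp1.le]
        congr 1
        have h4 : q ^ r = (XX r) ^ (-δ) := by
          rw [hq]
          unfold XX
          rw [← Real.rpow_natCast, ← Real.rpow_mul (by norm_num), ← Real.rpow_natCast,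
            ← Real.rpow_mul (by norm_num)]
          congr 1
          ring
        rw [h4]
        have h5 : (XX r) ^ (2 * δ) * (XX r) ^ (-δ) = (XX r) ^ δ := by
          rw [← Real.rpow_add (hXX r)]
          congr 1
          ring
        calc (XX r) ^ δ * Y r = ((XX r) ^ (2 * δ) * (XX r) ^ (-δ)) * Y r := by rw [h5]
          _ = _ := by ring
      rw [h3] at h2
      rw [h1]
      exact (ENNReal.mul_le_mul_iff_right (by simpa using hp1) ENNReal.ofReal_ne_top).1 h2
    · have h1 : E r = ∅ := by simp only [hE, if_neg hr]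
      rw [h1, measure_empty]
      exact bot_le
  have hsum : ∑' r, volume (E r) ≠ ⊤ := by
    refine ne_top_of_le_ne_top (b := ∑' r : ℕ, ENNReal.ofReal (q ^ r)) ?_
      (ENNReal.tsum_le_tsum hEr)
    rw [← ENNReal.ofReal_tsum_of_nonneg (fun r => by positivity)
      (summable_geometric_of_lt_one hq0.le hq1)]
    exact ENNReal.ofReal_ne_top
  filter_upwards [ae_eventually_notMem hsum] with x hx hxI
  filter_upwards [hx, eventually_ge_atTop r0] with r hr hrr
  have h1 : F r x < ENNReal.ofReal ((XX r) ^ (2 * δ) * Y r) := by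
    simp only [hE, if_pos hrr, Set.mem_setOf_eq, not_le] at hr
    exact hr
  have h2 : F r x = ENNReal.ofReal (cn (S r) (fun i => |G i x| ≤ M)) := by
    simp only [hF, cn]
    rw [ENNReal.ofReal_natCast, Finset.card_filter]
    push_cast
    refine Finset.sum_congr rfl fun i _ => ?_
    by_cases hi : |G i x| ≤ M
    · rw [if_pos hi, Set.indicator_of_mem (show x ∈ A i from ⟨hxI, hi⟩)]
      rfl
    · rw [if_neg hi, Set.indicator_of_notMem (fun hm : x ∈ A i => hi hm.2)]
  rw [h2] at h1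
  have h3 : 0 < (XX r) ^ (2 * δ) * Y r :=
    mul_pos (Real.rpow_pos_of_pos (hXX r) _) (hr0 r hrr).1
  exact ((ENNReal.ofReal_lt_ofReal_iff h3).1 h1).le

end FWar
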