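import Pool.Agent.FWar.MixB

/-!
# FWar.AeEAux: auxiliary lemmas for FWar.AeE

The scales `x ^ λ`, the size of the letters, derivatives and the Lipschitz constants of the sums of
a word with respect to the exponent.
-/

namespace FWar

open MWg Finset MeasureTheory Filter Topology

theorem aeE_iter {lam : ℝ} {P : ℝ} (hP : 1 ≤ P) (i : ℕ) :
    (fun x : ℝ => x ^ lam)^[i] P = P ^ (lam ^ i) := by
  induction i with
  | zero => simp
  | succ i ih =>
    rw [Function.iterate_succ_apply', ih]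
    show (P ^ (lam ^ i)) ^ lam = P ^ (lam ^ (i + 1))
    rw [← Real.rpow_mul (by linarith), pow_succ]

theorem aeE_lam {κ1 : ℝ} (h1 : 1 < κ1) : 0 < 1 - 1 / κ1 ∧ 1 - 1 / κ1 < 1 := by
  have h2 : 1 / κ1 < 1 := by
    rw [div_lt_one (by linarith)]
    exact h1
  have h3 : 0 < 1 / κ1 := by positivity
  constructor <;> linarith

theorem aeE_letters {lam : ℝ} (h0 : 0 ≤ lam) (h1 : lam ≤ 1) {s q : ℕ} {P : ℝ} (hP : 1 ≤ P) :
    ∀ w ∈ mix (fun x => x ^ lam) s q P, ∀ n ∈ w, (n : ℝ) ≤ 16 * P := by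
  refine mix_le q P P fun i _ => ?_
  rw [aeE_iter hP i]
  have h2 : lam ^ i ≤ 1 := pow_le_one₀ h0 h1
  refine ⟨Real.rpow_nonneg (by linarith) _, ?_⟩
  calc P ^ (lam ^ i) ≤ P ^ (1 : ℝ) := Real.rpow_le_rpow_of_exponent_le hP h2
    _ = P := Real.rpow_one P

theorem aeE_card_pos {lam : ℝ} (h0 : 0 < lam) (h1 : lam ≤ 1) (s q : ℕ) :
    ∀ᶠ r : ℕ in atTop, 0 < ((mix (fun x => x ^ lam) s q (XX r)).card : ℝ) := by
  have h2 : Tendsto (fun r : ℕ => XX r ^ (lam ^ q)) atTop atTop :=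
    (tendsto_rpow_atTop (pow_pos h0 q)).comp XX_tendsto
  filter_upwards [h2.eventually_ge_atTop 16] with r hr
  refine mix_card_pos q (XX r) fun i hi => ?_
  rw [aeE_iter (XX_ge_one r) i]
  refine hr.trans (Real.rpow_le_rpow_of_exponent_le (XX_ge_one r) ?_)
  exact pow_le_pow_of_le_one h0.le h1 hi

/-- Derivative of the sum of a word with respect to the exponent. -/
theorem aeE_deriv (w : List ℕ) (hw : ∀ n ∈ w, 1 ≤ n) (κ : ℝ) :
    HasDerivAt (fun κ : ℝ => rs (fun x => (x : ℝ) ^ κ) w)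
      (rs (fun x => (x : ℝ) ^ κ * Real.log x) w) κ := by
  induction w with
  | nil =>
    simp only [rs, List.map_nil, List.sum_nil]
    exact hasDerivAt_const _ _
  | cons a l ih =>
    have h1 : 1 ≤ a := hw a List.mem_cons_self
    have h2 : (0 : ℝ) < (a : ℝ) := by exact_mod_cast h1
    have h3 : HasDerivAt (fun κ : ℝ => (a : ℝ) ^ κ) ((a : ℝ) ^ κ * Real.log a) κ := by
      have h4 := Real.hasStrictDerivAt_const_rpow h2 κ
      exact h4.hasDerivAt
    have h5 := ih fun n hn => hw n (List.mem_cons_of_mem a hn)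
    have h6 := h3.add h5
    simp only [rs_cons]
    exact h6

/-- One letter: Lipschitz constant of `x ^ κ log x`. -/
theorem aeE_lip1 {x R κ1 κ2 : ℝ} (hx : 1 ≤ x) (hxR : x ≤ R) (h0 : 0 ≤ κ1) :
    ∀ κ ∈ Set.Icc κ1 κ2, ∀ κ' ∈ Set.Icc κ1 κ2,
      |x ^ κ * Real.log x - x ^ κ' * Real.log x| ≤ R ^ κ2 * Real.log R ^ 2 * |κ - κ'| := by
  intro κ hκ κ' hκ'
  have hx0 : 0 < x := by linarith
  have hlog0 : 0 ≤ Real.log x := Real.log_nonneg hx
  have hlog : Real.log x ≤ Real.log R := Real.log_le_log hx0 hxR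
  have h1 : ∀ t ∈ Set.Icc κ1 κ2, HasDerivWithinAt (fun t : ℝ => x ^ t * Real.log x)
      (x ^ t * Real.log x * Real.log x) (Set.Icc κ1 κ2) t := by
    intro t _
    have h4 := (Real.hasStrictDerivAt_const_rpow hx0 t).hasDerivAt
    exact (h4.mul_const (Real.log x)).hasDerivWithinAt
  have h2 : ∀ t ∈ Set.Icc κ1 κ2, ‖x ^ t * Real.log x * Real.log x‖ ≤ R ^ κ2 * Real.log R ^ 2 := by
    intro t ht
    rw [Real.norm_eq_abs, abs_of_nonneg (by positivity)]
    have h5 : x ^ t ≤ R ^ κ2 := by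
      calc x ^ t ≤ R ^ t := Real.rpow_le_rpow hx0.le hxR (h0.trans ht.1)
        _ ≤ R ^ κ2 := Real.rpow_le_rpow_of_exponent_le (hx.trans hxR) ht.2
    have h6 : Real.log x * Real.log x ≤ Real.log R ^ 2 := by
      rw [sq]
      exact mul_le_mul hlog hlog hlog0 (hlog0.trans hlog)
    calc x ^ t * Real.log x * Real.log x = x ^ t * (Real.log x * Real.log x) := by ring
      _ ≤ R ^ κ2 * Real.log R ^ 2 :=
        mul_le_mul h5 h6 (by positivity) (Real.rpow_nonneg (by linarith) _)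
  have h3 := Convex.norm_image_sub_le_of_norm_hasDerivWithin_le h1 h2 (convex_Icc κ1 κ2) hκ' hκ
  simpa [Real.norm_eq_abs] using h3

theorem aeE_lip {R κ1 κ2 : ℝ} (h0 : 0 ≤ κ1) (w : List ℕ) (hw : ∀ n ∈ w, 1 ≤ n)
    (hR : ∀ n ∈ w, (n : ℝ) ≤ R) : ∀ κ ∈ Set.Icc κ1 κ2, ∀ κ' ∈ Set.Icc κ1 κ2,
      |rs (fun x => (x : ℝ) ^ κ * Real.log x) w - rs (fun x => (x : ℝ) ^ κ' * Real.log x) w| ≤
        w.length * (R ^ κ2 * Real.log R ^ 2) * |κ - κ'| := by
  intro κ hκ κ' hκ'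
  induction w with
  | nil => simp [rs]
  | cons a l ih =>
    have h1 : (1 : ℝ) ≤ (a : ℝ) := by exact_mod_cast hw a List.mem_cons_self
    have h2 := aeE_lip1 h1 (hR a List.mem_cons_self) h0 κ hκ κ' hκ'
    have h3 := ih (fun n hn => hw n (List.mem_cons_of_mem a hn))
      (fun n hn => hR n (List.mem_cons_of_mem a hn))
    rw [rs_cons, rs_cons, List.length_cons]
    push_cast
    have h4 : (a : ℝ) ^ κ * Real.log a + rs (fun x => (x : ℝ) ^ κ * Real.log x) l -
        ((a : ℝ) ^ κ' * Real.log a + rs (fun x => (x : ℝ) ^ κ' * Real.log x) l) =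
        ((a : ℝ) ^ κ * Real.log a - (a : ℝ) ^ κ' * Real.log a) +
        (rs (fun x => (x : ℝ) ^ κ * Real.log x) l - rs (fun x => (x : ℝ) ^ κ' * Real.log x) l) := by
      ring
    rw [h4]
    refine (abs_add_le _ _).trans ?_
    calc _ ≤ R ^ κ2 * Real.log R ^ 2 * |κ - κ'| +
          l.length * (R ^ κ2 * Real.log R ^ 2) * |κ - κ'| := add_le_add h2 h3
      _ = _ := by ring

/-- A power of `log (16 P)` is small. -/
theorem aeE_log {a b : ℝ} (hab : a < b) (C : ℝ) (k : ℕ) :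
    ∀ᶠ r : ℕ in atTop, C * ((XX r) ^ a * Real.log (16 * XX r) ^ k) ≤ (XX r) ^ b := by
  set ε : ℝ := (b - a) / 2 with hε
  have hε0 : 0 < ε := by rw [hε]; linarith
  have h1 : Tendsto (fun r : ℕ => 16 * XX r) atTop atTop :=
    XX_tendsto.const_mul_atTop (by norm_num)
  have h2 : (fun x : ℝ => Real.log x ^ k) =o[atTop] fun x : ℝ => x ^ ε := by
    have h20 := isLittleO_log_rpow_rpow_atTop (k : ℝ) hε0
    simpa only [Real.rpow_natCast] using h20
  have h3 := h2.def (by norm_num : (0 : ℝ) < 1)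
  have h4 := h1.eventually h3
  have h5 := eventually_rpow_le (C := |C| * 16 ^ ε) (A := a + ε) (B := b) (by rw [hε]; linarith)
  filter_upwards [h4, h5] with r hr1 hr2
  have hX := XX_pos r
  have hX1 := XX_ge_one r
  have hlog : 0 ≤ Real.log (16 * XX r) := Real.log_nonneg (by linarith)
  rw [Real.norm_eq_abs, Real.norm_eq_abs, one_mul, abs_of_nonneg (pow_nonneg hlog k),
    abs_of_nonneg (Real.rpow_nonneg (by positivity) _), Real.mul_rpow (by norm_num) hX.le] at hr1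
  calc C * ((XX r) ^ a * Real.log (16 * XX r) ^ k)
      ≤ |C| * ((XX r) ^ a * (16 ^ ε * XX r ^ ε)) := by
        have h6 : (XX r) ^ a * Real.log (16 * XX r) ^ k ≤ (XX r) ^ a * (16 ^ ε * XX r ^ ε) :=
          mul_le_mul_of_nonneg_left hr1 (Real.rpow_nonneg hX.le _)
        have h7 : 0 ≤ (XX r) ^ a * Real.log (16 * XX r) ^ k := by positivity
        calc C * ((XX r) ^ a * Real.log (16 * XX r) ^ k)
            ≤ |C| * ((XX r) ^ a * Real.log (16 * XX r) ^ k) :=
              mul_le_mul_of_nonneg_right (le_abs_self C) h7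
          _ ≤ _ := mul_le_mul_of_nonneg_left h6 (abs_nonneg C)
    _ = |C| * 16 ^ ε * XX r ^ (a + ε) := by
        rw [Real.rpow_add hX]
        ring
    _ ≤ XX r ^ b := hr2

end FWar
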