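import Pool.Agent.FWar.Defs

/-!
# FWar.AvgN: average over a parameter of the number of small values

`S` a finite index set, `G i` functions on `[a, b]` with derivative `G' i`, Lipschitz with constant
`L` and bounded by `L`.

PROOF. For `j < I` put `B = B_j = 2^j B0`. A point `x ∈ [a,b]` has either `|G' i x| ≤ B0` or
`B_j < |G' i x| ≤ 2 B_j` for some `j < I` with `B_j ≤ L` (as `|G' i x| ≤ L ≤ 2^I B0`). So the left
side is at most `T_0 + ∑_{j<I, B_j ≤ L} T_j'`, where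
`T_0 = ∑_i vol {x : |G i x| ≤ M, |G' i x| ≤ B0}`,
`T_j' = ∑_i vol {x : |G i x| ≤ M, B_j < |G' i x| ≤ 2 B_j}`.
(`vol` of subsets of `[a,b]`; all functions are continuous on `[a,b]`, the sets are measurable; outer
measure is enough for the upper bounds except for `T_0`, where one exchanges sum and integral.)
* `T_0 = ∫_a^b cn S (|G i x| ≤ M, |G' i x| ≤ B0) dx ≤ (b-a) K B0²` by `hN` with `B = B0`.
* `T_j'`: divide `[a,b]` in `n = ⌊(b-a) 2L/B⌋ + 1` closed cells of equal length `(b-a)/n ≤ B/(2L)`.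
  Let `J` be a cell with left end point `x_J` and suppose that some `x ∈ J` has `|G i x| ≤ M` and
  `B < |G' i x| ≤ 2B`. By the Lipschitz condition `|G' i y - G' i x| ≤ B/2` for all `y ∈ J`, so
  `B/2 ≤ |G' i y| ≤ 5B/2` on `J` and `G' i` has constant sign on `J`. Hence
  `|G' i x_J| ≤ 3B`, `|G i x_J| ≤ M + (5B/2)(B/(2L)) ≤ M + 2B²/L` (mean value theorem): the number of
  such `i` is at most `K B²` by `hN`. For such an `i` and `y, y' ∈ J` with `|G i y|, |G i y'| ≤ M` the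
  mean value theorem gives `(B/2)|y - y'| ≤ 2M`, so `vol {y ∈ J : |G i y| ≤ M} ≤ 4M/B`. Therefore
  `T_j' ≤ n K B² 4M/B = 4 M K B n ≤ 4MKB ((b-a) 2L/B + 1) ≤ 8MKL (b-a) + 4MKL ≤ 8KLM(1 + (b-a))`.
-/

namespace FWar

open MWg Finset MeasureTheory

theorem avg_cn_eq {ι : Type*} (W : Finset ι) (p : ι → Prop) [DecidablePred p] :
    cn W p = ((W.filter p).card : ℝ) := by
  unfold cn
  congr

theorem avg_one {g g' : ℝ → ℝ} {a b L M B c h : ℝ}
    (hM : 0 ≤ M) (hB : 0 < B) (hBL : B ≤ L) (hca : a ≤ c) (hch : c + h ≤ b)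
    (hhB : h * (2 * L) ≤ B)
    (hG : ∀ x ∈ Set.Icc a b, HasDerivAt g (g' x) x)
    (hLip : ∀ x ∈ Set.Icc a b, ∀ y ∈ Set.Icc a b, |g' x - g' y| ≤ L * |x - y|)
    (hne : ∃ x ∈ Set.Icc c (c + h), |g x| ≤ M ∧ B < |g' x| ∧ |g' x| ≤ 2 * B) :
    (|g c| ≤ M + 2 * B ^ 2 / L ∧ |g' c| ≤ 3 * B) ∧
      (volume {x | x ∈ Set.Icc c (c + h) ∧ |g x| ≤ M ∧ B < |g' x| ∧ |g' x| ≤ 2 * B}).toReal
        ≤ 4 * M / B := by
  obtain ⟨x, hx, hgx, hBx, hx2⟩ := hne
  have hL : 0 < L := lt_of_lt_of_le hB hBL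
  have hh : 0 ≤ h := by
    have h1 := hx.1
    have h2 := hx.2
    linarith
  have sub : Set.Icc c (c + h) ⊆ Set.Icc a b := Set.Icc_subset_Icc hca hch
  have hLh : L * h ≤ B / 2 := by nlinarith
  have key : ∀ y ∈ Set.Icc c (c + h), B / 2 ≤ |g' y| ∧ |g' y| ≤ 5 / 2 * B := by
    intro y hy
    have h1 := hLip y (sub hy) x (sub hx)
    have h2 : |y - x| ≤ h := by
      rw [abs_le]
      constructor <;> linarith [hy.1, hy.2, hx.1, hx.2]
    have h3 : |g' y - g' x| ≤ B / 2 :=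
      h1.trans ((mul_le_mul_of_nonneg_left h2 hL.le).trans hLh)
    have h4 : |g' x| - |g' y| ≤ |g' x - g' y| := abs_sub_abs_le_abs_sub _ _
    have h5 : |g' y| - |g' x| ≤ |g' y - g' x| := abs_sub_abs_le_abs_sub _ _
    rw [abs_sub_comm] at h4
    constructor <;> linarith
  have mvt : ∀ y ∈ Set.Icc c (c + h), ∀ z ∈ Set.Icc c (c + h), y < z →
      ∃ w ∈ Set.Icc c (c + h), g z - g y = g' w * (z - y) := by
    intro y hy z hz hyz
    have subyz : Set.Icc y z ⊆ Set.Icc c (c + h) := Set.Icc_subset_Icc hy.1 hz.2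
    obtain ⟨w, hw, hw2⟩ := exists_hasDerivAt_eq_slope g g' hyz
      (fun u hu => (hG u (sub (subyz hu))).continuousAt.continuousWithinAt)
      (fun u hu => hG u (sub (subyz (Set.Ioo_subset_Icc_self hu))))
    refine ⟨w, subyz (Set.Ioo_subset_Icc_self hw), ?_⟩
    rw [hw2]
    have : z - y ≠ 0 := by
      have : 0 < z - y := by linarith
      exact this.ne'
    field_simp
  have hcm : c ∈ Set.Icc c (c + h) := ⟨le_refl _, by linarith⟩
  refine ⟨⟨?_, ?_⟩, ?_⟩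
  · rcases eq_or_lt_of_le hx.1 with h0 | h0
    · rw [h0]
      have : 0 ≤ 2 * B ^ 2 / L := by positivity
      linarith
    · obtain ⟨w, hw, hw2⟩ := mvt c hcm x hx h0
      have h1 : |g c| ≤ |g x| + |g x - g c| := by
        have := abs_sub_abs_le_abs_sub (g c) (g x)
        rw [abs_sub_comm] at this
        linarith
      have h2 : |g x - g c| ≤ 5 / 2 * B * h := by
        rw [hw2, abs_mul, abs_of_pos (by linarith : (0 : ℝ) < x - c)]
        exact mul_le_mul (key w hw).2 (by linarith [hx.2]) (by linarith) (by positivity)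
      have h3 : 5 / 2 * B * h ≤ 2 * B ^ 2 / L := by
        rw [le_div_iff₀ hL]
        nlinarith
      linarith
  · linarith [(key c hcm).2]
  · have hd : ∀ y ∈ {x | x ∈ Set.Icc c (c + h) ∧ |g x| ≤ M ∧ B < |g' x| ∧ |g' x| ≤ 2 * B},
        ∀ z ∈ {x | x ∈ Set.Icc c (c + h) ∧ |g x| ≤ M ∧ B < |g' x| ∧ |g' x| ≤ 2 * B},
        y < z → z - y ≤ 4 * M / B := by
      intro y hy z hz hyz
      obtain ⟨w, hw, hw2⟩ := mvt y hy.1 z hz.1 hyz
      have h1 : |g z - g y| ≤ 2 * M := by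
        have h11 := abs_le.mp hy.2.1
        have h12 := abs_le.mp hz.2.1
        rw [abs_le]
        constructor <;> linarith [h11.1, h11.2, h12.1, h12.2]
      rw [hw2, abs_mul, abs_of_pos (by linarith : (0 : ℝ) < z - y)] at h1
      have h2 : B / 2 * (z - y) ≤ 2 * M :=
        (mul_le_mul_of_nonneg_right (key w hw).1 (by linarith)).trans h1
      rw [le_div_iff₀ hB]
      nlinarith
    have hpos : 0 ≤ 4 * M / B := by positivity
    have hdiam : volume {x | x ∈ Set.Icc c (c + h) ∧ |g x| ≤ M ∧ B < |g' x| ∧ |g' x| ≤ 2 * B} ≤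
        ENNReal.ofReal (4 * M / B) := by
      refine (Real.volume_le_diam _).trans ?_
      refine Metric.ediam_le ?_
      intro y hy z hz
      rw [edist_dist, Real.dist_eq]
      apply ENNReal.ofReal_le_ofReal
      rcases lt_trichotomy y z with h1 | h1 | h1
      · rw [abs_sub_comm, abs_of_pos (by linarith)]
        exact hd y hy z hz h1
      · rw [h1]
        simpa using hpos
      · rw [abs_of_pos (by linarith)]
        exact hd z hz y hy h1
    exact ENNReal.toReal_le_of_le_ofReal hpos hdiam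

open Classical in
theorem avg_cell {ι : Type*} {S : Finset ι} {G G' : ι → ℝ → ℝ} {a b L K M B c h : ℝ}
    (hM : 0 ≤ M) (hB : 0 < B) (hBL : B ≤ L) (hca : a ≤ c) (hch : c + h ≤ b)
    (hhB : h * (2 * L) ≤ B)
    (hG : ∀ i ∈ S, ∀ x ∈ Set.Icc a b, HasDerivAt (G i) (G' i x) x)
    (hLip : ∀ i ∈ S, ∀ x ∈ Set.Icc a b, ∀ y ∈ Set.Icc a b, |G' i x - G' i y| ≤ L * |x - y|)
    (hcn : cn S (fun i => |G i c| ≤ M + 2 * B ^ 2 / L ∧ |G' i c| ≤ 3 * B) ≤ K * B ^ 2) :
    ∑ i ∈ S, (volume {x | x ∈ Set.Icc c (c + h) ∧ |G i x| ≤ M ∧ B < |G' i x| ∧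
      |G' i x| ≤ 2 * B}).toReal ≤ 4 * M * K * B := by
  have h1 : ∑ i ∈ S, (volume {x | x ∈ Set.Icc c (c + h) ∧ |G i x| ≤ M ∧ B < |G' i x| ∧
      |G' i x| ≤ 2 * B}).toReal ≤
      ∑ i ∈ S, if (|G i c| ≤ M + 2 * B ^ 2 / L ∧ |G' i c| ≤ 3 * B) then 4 * M / B else 0 := by
    refine Finset.sum_le_sum fun i hi => ?_
    by_cases hne : ∃ x ∈ Set.Icc c (c + h), |G i x| ≤ M ∧ B < |G' i x| ∧ |G' i x| ≤ 2 * B
    · obtain ⟨h1, h2⟩ := avg_one hM hB hBL hca hch hhB (hG i hi) (hLip i hi) hne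
      rw [if_pos h1]
      exact h2
    · have : {x | x ∈ Set.Icc c (c + h) ∧ |G i x| ≤ M ∧ B < |G' i x| ∧
          |G' i x| ≤ 2 * B} = ∅ := by
        ext x
        simp only [Set.mem_ofPred_eq, Set.mem_empty_iff_false, iff_false]
        intro hx
        exact hne ⟨x, hx.1, hx.2⟩
      rw [this]
      simp only [measure_empty, ENNReal.toReal_zero]
      split_ifs
      · positivity
      · exact le_refl _
  refine h1.trans ?_
  rw [← Finset.sum_filter, Finset.sum_const, nsmul_eq_mul]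
  rw [avg_cn_eq] at hcn
  have h2 : ((#{i ∈ S | |G i c| ≤ M + 2 * B ^ 2 / L ∧ |G' i c| ≤ 3 * B} : ℕ) : ℝ) * (4 * M / B) ≤
      K * B ^ 2 * (4 * M / B) := by
    exact mul_le_mul_of_nonneg_right hcn (by positivity)
  refine h2.trans (le_of_eq ?_)
  field_simp

theorem avg_band {ι : Type*} {S : Finset ι} {G G' : ι → ℝ → ℝ} {a b L K M B : ℝ}
    (hab : a ≤ b) (hM : 0 ≤ M) (hB : 0 < B) (hBL : B ≤ L) (hK : 0 ≤ K)
    (hG : ∀ i ∈ S, ∀ x ∈ Set.Icc a b, HasDerivAt (G i) (G' i x) x)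
    (hLip : ∀ i ∈ S, ∀ x ∈ Set.Icc a b, ∀ y ∈ Set.Icc a b, |G' i x - G' i y| ≤ L * |x - y|)
    (hN : ∀ x ∈ Set.Icc a b,
      cn S (fun i => |G i x| ≤ M + 2 * B ^ 2 / L ∧ |G' i x| ≤ 3 * B) ≤ K * B ^ 2) :
    ∑ i ∈ S, (volume {x | x ∈ Set.Icc a b ∧ |G i x| ≤ M ∧ B < |G' i x| ∧
      |G' i x| ≤ 2 * B}).toReal ≤ 8 * K * L * M * (1 + (b - a)) := by
  have hL : 0 < L := lt_of_lt_of_le hB hBL
  set n : ℕ := ⌊(b - a) * (2 * L) / B⌋₊ + 1 with hn
  have hn0 : (0 : ℝ) < n := by rw [hn]; push_cast; positivity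
  have hn1 : (b - a) * (2 * L) / B < n := by
    rw [hn]; push_cast; exact Nat.lt_floor_add_one _
  have hn2 : (n : ℝ) ≤ (b - a) * (2 * L) / B + 1 := by
    rw [hn]; push_cast
    have h0 : 0 ≤ (b - a) * (2 * L) / B := by
      have : 0 ≤ b - a := by linarith
      positivity
    linarith [Nat.floor_le h0]
  set h : ℝ := (b - a) / n with hh
  have hh0 : 0 ≤ h := div_nonneg (by linarith) hn0.le
  have hnh : n * h = b - a := by rw [hh]; field_simp
  have hhB : h * (2 * L) ≤ B := by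
    rw [hh, div_mul_eq_mul_div, div_le_iff₀ hn0]
    rw [div_lt_iff₀ hB] at hn1
    linarith
  -- cover
  have hcover : ∀ i, {x | x ∈ Set.Icc a b ∧ |G i x| ≤ M ∧ B < |G' i x| ∧ |G' i x| ≤ 2 * B} ⊆
      ⋃ k ∈ Finset.range n, {x | x ∈ Set.Icc (a + k * h) (a + k * h + h) ∧ |G i x| ≤ M ∧
        B < |G' i x| ∧ |G' i x| ≤ 2 * B} := by
    intro i x hx
    have hx1 := hx.1
    simp only [Set.mem_iUnion, exists_prop, Finset.mem_range]
    rcases eq_or_lt_of_le hh0 with h0 | h0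
    · refine ⟨0, by omega, ?_, hx.2⟩
      rw [← h0, mul_zero] at hnh
      rw [← h0]
      constructor
      · simp; exact hx1.1
      · simp; linarith [hx1.2]
    · rcases eq_or_lt_of_le hx1.2 with h1 | h1
      · refine ⟨n - 1, by omega, ?_, hx.2⟩
        have h2 : ((n - 1 : ℕ) : ℝ) = (n : ℝ) - 1 := by
          rw [Nat.cast_sub (by omega)]; simp
        rw [h2]
        constructor
        · nlinarith
        · nlinarith
      · refine ⟨⌊(x - a) / h⌋₊, ?_, ?_, hx.2⟩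
        · rw [Nat.floor_lt (div_nonneg (by linarith [hx1.1]) h0.le), div_lt_iff₀ h0]
          linarith
        · have h2 : (⌊(x - a) / h⌋₊ : ℝ) ≤ (x - a) / h :=
            Nat.floor_le (div_nonneg (by linarith [hx1.1]) h0.le)
          have h3 : (x - a) / h < (⌊(x - a) / h⌋₊ : ℝ) + 1 := Nat.lt_floor_add_one _
          rw [le_div_iff₀ h0] at h2
          rw [div_lt_iff₀ h0] at h3
          constructor
          · linarith
          · linarith
  have hsum : ∀ i, (volume {x | x ∈ Set.Icc a b ∧ |G i x| ≤ M ∧ B < |G' i x| ∧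
      |G' i x| ≤ 2 * B}).toReal ≤ ∑ k ∈ Finset.range n,
      (volume {x | x ∈ Set.Icc (a + k * h) (a + k * h + h) ∧ |G i x| ≤ M ∧
        B < |G' i x| ∧ |G' i x| ≤ 2 * B}).toReal := by
    intro i
    have hfin : ∀ k ∈ Finset.range n, volume {x | x ∈ Set.Icc (a + k * h) (a + k * h + h) ∧
        |G i x| ≤ M ∧ B < |G' i x| ∧ |G' i x| ≤ 2 * B} ≠ ⊤ := by
      intro k _
      refine ne_top_of_le_ne_top ?_ (measure_mono (fun x hx => hx.1))
      simp
    rw [← ENNReal.toReal_sum hfin]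
    refine ENNReal.toReal_mono ?_ ?_
    · exact (ENNReal.sum_lt_top.mpr fun k hk => (hfin k hk).lt_top).ne
    · exact (measure_mono (hcover i)).trans (measure_biUnion_finset_le _ _)
  have hcell : ∀ k ∈ Finset.range n, ∑ i ∈ S,
      (volume {x | x ∈ Set.Icc (a + k * h) (a + k * h + h) ∧ |G i x| ≤ M ∧
        B < |G' i x| ∧ |G' i x| ≤ 2 * B}).toReal ≤ 4 * M * K * B := by
    intro k hk
    rw [Finset.mem_range] at hk
    have hk1 : (k : ℝ) + 1 ≤ n := by exact_mod_cast hk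
    have hk2 : (0 : ℝ) ≤ k := by positivity
    have e1 : a ≤ a + k * h := by nlinarith
    have e2 : a + k * h + h ≤ b := by nlinarith
    exact avg_cell hM hB hBL e1 e2 hhB hG hLip (hN _ ⟨e1, by linarith⟩)
  calc ∑ i ∈ S, (volume {x | x ∈ Set.Icc a b ∧ |G i x| ≤ M ∧ B < |G' i x| ∧
      |G' i x| ≤ 2 * B}).toReal
      ≤ ∑ i ∈ S, ∑ k ∈ Finset.range n,
      (volume {x | x ∈ Set.Icc (a + k * h) (a + k * h + h) ∧ |G i x| ≤ M ∧
        B < |G' i x| ∧ |G' i x| ≤ 2 * B}).toReal := Finset.sum_le_sum fun i _ => hsum i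
    _ = ∑ k ∈ Finset.range n, ∑ i ∈ S,
      (volume {x | x ∈ Set.Icc (a + k * h) (a + k * h + h) ∧ |G i x| ≤ M ∧
        B < |G' i x| ∧ |G' i x| ≤ 2 * B}).toReal := Finset.sum_comm
    _ ≤ ∑ k ∈ Finset.range n, 4 * M * K * B := Finset.sum_le_sum hcell
    _ = n * (4 * M * K * B) := by rw [Finset.sum_const, nsmul_eq_mul, Finset.card_range]
    _ ≤ ((b - a) * (2 * L) / B + 1) * (4 * M * K * B) :=
        mul_le_mul_of_nonneg_right hn2 (by positivity)
    _ = 8 * K * L * M * (b - a) + 4 * M * K * B := by field_simp; ring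
    _ ≤ 8 * K * L * M * (b - a) + 4 * M * K * L := by
        have : 4 * M * K * B ≤ 4 * M * K * L := mul_le_mul_of_nonneg_left hBL (by positivity)
        linarith
    _ ≤ 8 * K * L * M * (1 + (b - a)) := by
        have : 0 ≤ M * K * L := by positivity
        nlinarith

theorem avg_low {ι : Type*} {S : Finset ι} {G G' : ι → ℝ → ℝ} {a b L B0 K M : ℝ}
    (hab : a ≤ b) (hK : 0 ≤ K) (hL : 0 ≤ L)
    (hG : ∀ i ∈ S, ∀ x ∈ Set.Icc a b, HasDerivAt (G i) (G' i x) x)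
    (hLip : ∀ i ∈ S, ∀ x ∈ Set.Icc a b, ∀ y ∈ Set.Icc a b, |G' i x - G' i y| ≤ L * |x - y|)
    (hN : ∀ x ∈ Set.Icc a b,
      cn S (fun i => |G i x| ≤ M ∧ |G' i x| ≤ B0) ≤ K * B0 ^ 2) :
    ∑ i ∈ S, (volume {x | x ∈ Set.Icc a b ∧ |G i x| ≤ M ∧ |G' i x| ≤ B0}).toReal ≤
      (b - a) * K * B0 ^ 2 := by
  classical
  have hmeas : ∀ i ∈ S, MeasurableSet {x | x ∈ Set.Icc a b ∧ |G i x| ≤ M ∧ |G' i x| ≤ B0} := by
    intro i hi
    have c1 : ContinuousOn (G i) (Set.Icc a b) := fun x hx =>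
      (hG i hi x hx).continuousAt.continuousWithinAt
    have c2 : ContinuousOn (G' i) (Set.Icc a b) := by
      have : LipschitzOnWith ⟨L, hL⟩ (G' i) (Set.Icc a b) := by
        refine LipschitzOnWith.of_dist_le_mul fun x hx y hy => ?_
        rw [Real.dist_eq, Real.dist_eq]
        exact hLip i hi x hx y hy
      exact this.continuousOn
    have s1 : IsClosed (Set.Icc a b ∩ (G i) ⁻¹' (Set.Icc (-M) M)) :=
      c1.preimage_isClosed_of_isClosed isClosed_Icc isClosed_Icc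
    have s2 : IsClosed (Set.Icc a b ∩ (G' i) ⁻¹' (Set.Icc (-B0) B0)) :=
      c2.preimage_isClosed_of_isClosed isClosed_Icc isClosed_Icc
    have : {x | x ∈ Set.Icc a b ∧ |G i x| ≤ M ∧ |G' i x| ≤ B0} =
        (Set.Icc a b ∩ (G i) ⁻¹' (Set.Icc (-M) M)) ∩
        (Set.Icc a b ∩ (G' i) ⁻¹' (Set.Icc (-B0) B0)) := by
      ext x
      simp only [Set.mem_ofPred_eq, Set.mem_inter_iff, Set.mem_preimage, Set.mem_Icc, abs_le]
      tauto
    rw [this]
    exact (s1.inter s2).measurableSet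
  have hfin : ∀ i ∈ S, volume {x | x ∈ Set.Icc a b ∧ |G i x| ≤ M ∧ |G' i x| ≤ B0} ≠ ⊤ := by
    intro i _
    refine ne_top_of_le_ne_top ?_ (measure_mono (fun x hx => hx.1))
    simp
  rw [← ENNReal.toReal_sum hfin]
  refine ENNReal.toReal_le_of_le_ofReal ?_ ?_
  · have : 0 ≤ b - a := by linarith
    positivity
  have h1 : ∑ i ∈ S, volume {x | x ∈ Set.Icc a b ∧ |G i x| ≤ M ∧ |G' i x| ≤ B0} =
      ∫⁻ x, ∑ i ∈ S, Set.indicator {x | x ∈ Set.Icc a b ∧ |G i x| ≤ M ∧ |G' i x| ≤ B0}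
        (fun _ => (1 : ENNReal)) x := by
    rw [lintegral_finsetSum' _ (fun i hi => (measurable_const.indicator (hmeas i hi)).aemeasurable)]
    refine Finset.sum_congr rfl fun i hi => ?_
    rw [lintegral_indicator (hmeas i hi)]
    simp
  rw [h1]
  have h2 : ∫⁻ x, ∑ i ∈ S, Set.indicator {x | x ∈ Set.Icc a b ∧ |G i x| ≤ M ∧ |G' i x| ≤ B0}
        (fun _ => (1 : ENNReal)) x ≤
      ∫⁻ x, Set.indicator (Set.Icc a b) (fun _ => ENNReal.ofReal (K * B0 ^ 2)) x := by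
    refine lintegral_mono fun x => ?_
    by_cases hx : x ∈ Set.Icc a b
    · rw [Set.indicator_of_mem hx]
      have h3 : ∑ i ∈ S, Set.indicator {x | x ∈ Set.Icc a b ∧ |G i x| ≤ M ∧ |G' i x| ≤ B0}
          (fun _ => (1 : ENNReal)) x =
          ((S.filter (fun i => |G i x| ≤ M ∧ |G' i x| ≤ B0)).card : ENNReal) := by
        rw [Finset.card_filter]
        push_cast
        refine Finset.sum_congr rfl fun i _ => ?_
        by_cases hi : |G i x| ≤ M ∧ |G' i x| ≤ B0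
        · rw [if_pos hi, Set.indicator_of_mem]
          exact ⟨hx, hi⟩
        · rw [if_neg hi, Set.indicator_of_notMem]
          intro h
          exact hi h.2
      show ∑ i ∈ S, Set.indicator {x | x ∈ Set.Icc a b ∧ |G i x| ≤ M ∧ |G' i x| ≤ B0}
          (fun _ => (1 : ENNReal)) x ≤ _
      rw [h3, ← ENNReal.ofReal_natCast]
      apply ENNReal.ofReal_le_ofReal
      have := hN x hx
      rw [avg_cn_eq] at this
      exact this
    · rw [Set.indicator_of_notMem hx]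
      have h3 : ∑ i ∈ S, Set.indicator {x | x ∈ Set.Icc a b ∧ |G i x| ≤ M ∧ |G' i x| ≤ B0}
          (fun _ => (1 : ENNReal)) x = 0 := by
        refine Finset.sum_eq_zero fun i _ => ?_
        rw [Set.indicator_of_notMem]
        intro h
        exact hx h.1
      exact h3.le
  refine h2.trans ?_
  rw [lintegral_indicator measurableSet_Icc]
  simp only [lintegral_const, Measure.restrict_apply, MeasurableSet.univ, Set.univ_inter,
    Real.volume_Icc]
  rw [← ENNReal.ofReal_mul (by positivity)]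
  apply ENNReal.ofReal_le_ofReal
  linarith

theorem avg_nl {ι : Type*} {S : Finset ι} {G G' : ι → ℝ → ℝ} {a b L B0 K M : ℝ} {I : ℕ}
    (hab : a ≤ b) (hM : 0 ≤ M) (hB0 : 1 ≤ B0) (hL : B0 ≤ L) (hI : L ≤ 2 ^ I * B0) (hK : 0 ≤ K)
    (hG : ∀ i ∈ S, ∀ x ∈ Set.Icc a b, HasDerivAt (G i) (G' i x) x)
    (hLip : ∀ i ∈ S, ∀ x ∈ Set.Icc a b, ∀ y ∈ Set.Icc a b, |G' i x - G' i y| ≤ L * |x - y|)
    (hbd : ∀ i ∈ S, ∀ x ∈ Set.Icc a b, |G' i x| ≤ L)
    (hN : ∀ x ∈ Set.Icc a b, ∀ B : ℝ, B0 ≤ B → B ≤ L →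
      cn S (fun i => |G i x| ≤ M + 2 * B ^ 2 / L ∧ |G' i x| ≤ 3 * B) ≤ K * B ^ 2) :
    ∑ i ∈ S, (volume {x | x ∈ Set.Icc a b ∧ |G i x| ≤ M}).toReal ≤
      (b - a) * K * B0 ^ 2 + 8 * I * K * L * M * (1 + (b - a)) := by
  classical
  have hB00 : 0 < B0 := by linarith
  have hL0 : 0 < L := by linarith
  have hlow : ∑ i ∈ S, (volume {x | x ∈ Set.Icc a b ∧ |G i x| ≤ M ∧ |G' i x| ≤ B0}).toReal ≤
      (b - a) * K * B0 ^ 2 := by
    refine avg_low hab hK hL0.le hG hLip fun x hx => ?_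
    refine le_trans ?_ (hN x hx B0 le_rfl hL)
    rw [avg_cn_eq, avg_cn_eq]
    have : S.filter (fun i => |G i x| ≤ M ∧ |G' i x| ≤ B0) ⊆
        S.filter (fun i => |G i x| ≤ M + 2 * B0 ^ 2 / L ∧ |G' i x| ≤ 3 * B0) := by
      intro i hi
      rw [Finset.mem_filter] at hi ⊢
      have : 0 ≤ 2 * B0 ^ 2 / L := by positivity
      exact ⟨hi.1, by linarith [hi.2.1], by linarith [hi.2.2]⟩
    exact_mod_cast Finset.card_le_card this
  have hband : ∀ j ∈ Finset.range I, (∑ i ∈ S, if 2 ^ j * B0 ≤ L then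
      (volume {x | x ∈ Set.Icc a b ∧ |G i x| ≤ M ∧
      2 ^ j * B0 < |G' i x| ∧ |G' i x| ≤ 2 * (2 ^ j * B0)}).toReal else 0) ≤
      8 * K * L * M * (1 + (b - a)) := by
    intro j _
    by_cases hj : 2 ^ j * B0 ≤ L
    · simp only [if_pos hj]
      refine avg_band hab hM (by positivity) hj hK hG hLip fun x hx => hN x hx _ ?_ hj
      have : (1 : ℝ) ≤ 2 ^ j := one_le_pow₀ (by norm_num)
      nlinarith
    · simp only [if_neg hj, Finset.sum_const_zero]
      have : 0 ≤ b - a := by linarith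
      positivity
  have hone : ∀ i ∈ S, (volume {x | x ∈ Set.Icc a b ∧ |G i x| ≤ M}).toReal ≤
      (volume {x | x ∈ Set.Icc a b ∧ |G i x| ≤ M ∧ |G' i x| ≤ B0}).toReal +
      ∑ j ∈ Finset.range I, if 2 ^ j * B0 ≤ L then
      (volume {x | x ∈ Set.Icc a b ∧ |G i x| ≤ M ∧
      2 ^ j * B0 < |G' i x| ∧ |G' i x| ≤ 2 * (2 ^ j * B0)}).toReal else 0 := by
    intro i hi
    have f0 : volume {x | x ∈ Set.Icc a b ∧ |G i x| ≤ M ∧ |G' i x| ≤ B0} ≠ ⊤ := by
      refine ne_top_of_le_ne_top ?_ (measure_mono (fun x hx => hx.1))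
      simp
    have f1 : ∀ j, volume {x | x ∈ Set.Icc a b ∧ |G i x| ≤ M ∧
      2 ^ j * B0 < |G' i x| ∧ |G' i x| ≤ 2 * (2 ^ j * B0)} ≠ ⊤ := by
      intro j
      refine ne_top_of_le_ne_top ?_ (measure_mono (fun x hx => hx.1))
      simp
    rw [← Finset.sum_filter, ← ENNReal.toReal_sum (fun j _ => f1 j), ← ENNReal.toReal_add f0
      (ENNReal.sum_lt_top.mpr fun k _ => (f1 k).lt_top).ne]
    refine ENNReal.toReal_mono (ENNReal.add_lt_top.mpr ⟨f0.lt_top,
      (ENNReal.sum_lt_top.mpr fun k _ => (f1 k).lt_top)⟩).ne ?_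
    have hsub : {x | x ∈ Set.Icc a b ∧ |G i x| ≤ M} ⊆
        {x | x ∈ Set.Icc a b ∧ |G i x| ≤ M ∧ |G' i x| ≤ B0} ∪
        ⋃ j ∈ (Finset.range I).filter (fun j => 2 ^ j * B0 ≤ L),
          {x | x ∈ Set.Icc a b ∧ |G i x| ≤ M ∧
            2 ^ j * B0 < |G' i x| ∧ |G' i x| ≤ 2 * (2 ^ j * B0)} := by
      intro x hx
      by_cases h0 : |G' i x| ≤ B0
      · exact Or.inl ⟨hx.1, hx.2, h0⟩
      · right
        push Not at h0
        have hex : ∃ j : ℕ, |G' i x| ≤ 2 ^ j * B0 := ⟨I, (hbd i hi x hx.1).trans hI⟩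
        have hj1 := Nat.find_spec hex
        have hj2 : Nat.find hex ≤ I := Nat.find_min' hex ((hbd i hi x hx.1).trans hI)
        have hj3 : Nat.find hex ≠ 0 := by
          intro h
          rw [h] at hj1
          simp at hj1
          linarith
        obtain ⟨j, hj⟩ := Nat.exists_eq_succ_of_ne_zero hj3
        have hj4 : ¬ |G' i x| ≤ 2 ^ j * B0 := Nat.find_min hex (by omega)
        push Not at hj4
        rw [hj, pow_succ] at hj1
        simp only [Set.mem_iUnion, exists_prop, Finset.mem_filter, Finset.mem_range]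
        refine ⟨j, ⟨by omega, ?_⟩, hx.1, hx.2, hj4, by linarith⟩
        exact hj4.le.trans (hbd i hi x hx.1)
    exact (measure_mono hsub).trans ((measure_union_le _ _).trans
      (add_le_add le_rfl (measure_biUnion_finset_le _ _)))
  calc ∑ i ∈ S, (volume {x | x ∈ Set.Icc a b ∧ |G i x| ≤ M}).toReal
      ≤ ∑ i ∈ S, ((volume {x | x ∈ Set.Icc a b ∧ |G i x| ≤ M ∧ |G' i x| ≤ B0}).toReal +
      ∑ j ∈ Finset.range I, if 2 ^ j * B0 ≤ L then
      (volume {x | x ∈ Set.Icc a b ∧ |G i x| ≤ M ∧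
      2 ^ j * B0 < |G' i x| ∧ |G' i x| ≤ 2 * (2 ^ j * B0)}).toReal else 0) :=
        Finset.sum_le_sum hone
    _ = ∑ i ∈ S, (volume {x | x ∈ Set.Icc a b ∧ |G i x| ≤ M ∧ |G' i x| ≤ B0}).toReal +
      ∑ j ∈ Finset.range I, ∑ i ∈ S, (if 2 ^ j * B0 ≤ L then
      (volume {x | x ∈ Set.Icc a b ∧ |G i x| ≤ M ∧
      2 ^ j * B0 < |G' i x| ∧ |G' i x| ≤ 2 * (2 ^ j * B0)}).toReal else 0) := by
        rw [Finset.sum_add_distrib, Finset.sum_comm (s := S)]
    _ ≤ (b - a) * K * B0 ^ 2 + ∑ j ∈ Finset.range I, 8 * K * L * M * (1 + (b - a)) :=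
        add_le_add hlow (Finset.sum_le_sum hband)
    _ = (b - a) * K * B0 ^ 2 + 8 * I * K * L * M * (1 + (b - a)) := by
        rw [Finset.sum_const, nsmul_eq_mul, Finset.card_range]
        ring

end FWar
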