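import Pool.Agent.FWar.MixE
import Pool.Agent.FWar.AvgN
import Pool.Agent.FWar.AeC
import Pool.Agent.FWar.AeEAux

/-!
# FWar.AeE: few near coincidences for almost every exponent

`P = XX r`, `nx x = x^λ`, `λ = 1 - 1/κ1`, `W_r = mix nx s q P`, `m_r = |W_r|`,
`pw x = x^κ`, `lg x = x^κ log x`.

PROOF. It is enough to treat one natural number `M` (countable intersection, monotone in `M`).
Index set `S_r = W_r × W_r`, `G (w,w') κ = rs pw w - rs pw w'`, `G' (w,w') κ = rs lg w - rs lg w'`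
(all letters are `≥ 1`, `mix_pos`, so `x^κ` is smooth in `κ` with derivative `x^κ log x` and second
derivative `x^κ (log x)²`).
* `L := P^(κ2+η)`. For large `P` it bounds `|G'|` on `[κ1, κ2]` (`mixE_bound`: `≤ 2 C P^κ log P`) and the
  Lipschitz constant of `G'`: letters are `≤ 16 P`, so the second derivative is at most
  `2 (2q+s) (16P)^κ2 (log (16P))²`.
* `B0 := P^((κ1+η)/2)`, `1 ≤ B0 ≤ L`. `K := (12 + M) P^(4η(q+1)) m_r² P^(-2κ1)`.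
* `hN`: let `κ ∈ [κ1,κ2]`, `B0 ≤ B ≤ L`; put `A := M + 2B²/L ≤ M + 2B ≤ 3B` (for large `P`, as
  `B ≥ B0 ≥ M`). By `pairs_le_of`/`pairs_eq_cn` and `mixE` (with `3B` for `B`) the number of pairs with
  `|G| ≤ A`, `|G'| ≤ 3B` is at most
  `m_r P^(4η(q+1)) m_r P^(-2κ) (9B² + P'^(2κ-s) + s P'^κ (M + 2B²/L))`, `P' = P^(λ^q)`. Now
  `P^(-2κ) ≤ P^(-2κ1)`; `P'^(2κ-s) = P^(λ^q (2κ-s)) ≤ P^(λ^q (2κ2-s)) ≤ P^(κ1+η) ≤ B²` by `hc`;
  `P'^κ ≤ P'^(2κ2-s) ≤ B²` too (as `κ ≤ 2κ2 - s`, `κ2 ≥ 1`), and `P'^κ · 2B²/L ≤ 2B²` since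
  `P'^κ ≤ P^κ2 ≤ L`. Sum: `≤ (9 + 1 + M + 2) B²`.
* `avg_nl` with a natural number `I = O(r)` such that `L ≤ 2^I B0` gives
  `∑ vol ≤ (κ2-κ1) K B0² + 8 I K L M (1 + κ2 - κ1)`; `K B0² = (12+M) P^(4η(q+1)) m_r² P^(-κ1+η)` and
  `K L = (12+M) P^(4η(q+1)) m_r² P^(-2κ1+κ2+η) ≤ (12+M) P^(4η(q+1)) m_r² P^(-κ1+2η)`. For large `r` the
  sum is `≤ P^δ Y r` with `δ = (4q+7) η`, `Y r = m_r² P^(-κ1)`.
* `ae_of_avg`: for almost every `κ ∈ [κ1,κ2]`, for large `r`, the number of pairs is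
  `≤ P^(2δ) m_r² P^(-κ1) ≤ P^(2δ+η) m_r² P^(-κ)` and `2δ + η = (8q+15) η ≤ 16 (q+1) η`.
-/

namespace FWar

open MWg Finset MeasureTheory Filter Topology

/-- The count needed for `avg_nl`. -/
theorem aeE_hN {κ1 κ2 η : ℝ} (h1 : 1 < κ1) (h12 : κ1 ≤ κ2) (hη : 0 < η)
    {s : ℕ} (hs : s ≤ 1) (q : ℕ)
    (hc : (1 - 1 / κ1) ^ q * (2 * κ2 - s) ≤ κ1 + η) {M P : ℝ} (hM : 0 ≤ M) (hP : 1 ≤ P)
    {W : Finset (List ℕ)}
    (hMB : M ≤ P ^ ((κ1 + η) / 2))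
    (hmix : ∀ κ : ℝ, κ1 ≤ κ → κ ≤ κ2 → ∀ α β A B : ℝ, 0 ≤ A → A ≤ B →
      cn W (fun w =>
        |rs (fun x => (x : ℝ) ^ κ) w - α| ≤ A ∧
        |rs (fun x => (x : ℝ) ^ κ * Real.log x) w - β| ≤ B) ≤
      P ^ (4 * η * (q + 1)) * (W.card : ℝ) * P ^ (-(2 * κ)) *
        (B ^ 2 + (P ^ ((1 - 1 / κ1) ^ q)) ^ (2 * κ - s) +
          s * (P ^ ((1 - 1 / κ1) ^ q)) ^ κ * A)) :
    ∀ κ ∈ Set.Icc κ1 κ2, ∀ B : ℝ, P ^ ((κ1 + η) / 2) ≤ B → B ≤ P ^ (κ2 + η) →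
      cn (W ×ˢ W) (fun i : List ℕ × List ℕ =>
        |rs (fun x => (x : ℝ) ^ κ) i.1 - rs (fun x => (x : ℝ) ^ κ) i.2| ≤
          M + 2 * B ^ 2 / P ^ (κ2 + η) ∧
        |rs (fun x => (x : ℝ) ^ κ * Real.log x) i.1 -
          rs (fun x => (x : ℝ) ^ κ * Real.log x) i.2| ≤ 3 * B) ≤
      ((12 + M) * P ^ (4 * η * (q + 1)) * (W.card : ℝ) ^ 2 * P ^ (-(2 * κ1))) * B ^ 2 := by
  intro κ hκ B hB0 hBL
  obtain ⟨hk1, hk2⟩ := hκ
  obtain ⟨hl0, hl1⟩ := aeE_lam h1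
  have hP0 : 0 < P := by linarith
  set L : ℝ := P ^ (κ2 + η) with hL
  have hL0 : 0 < L := Real.rpow_pos_of_pos hP0 _
  have hB01 : 1 ≤ P ^ ((κ1 + η) / 2) := Real.one_le_rpow hP (by linarith)
  have hBp : 0 < B := by linarith
  set A : ℝ := M + 2 * B ^ 2 / L with hA
  have hA1 : 2 * B ^ 2 / L ≤ 2 * B := by
    rw [div_le_iff₀ hL0]
    nlinarith
  have hA10 : 0 ≤ 2 * B ^ 2 / L := by positivity
  have hA0 : 0 ≤ A := by rw [hA]; linarith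
  have hA3 : A ≤ 3 * B := by rw [hA]; linarith
  set P' : ℝ := P ^ ((1 - 1 / κ1) ^ q) with hP'
  have hlq0 : 0 ≤ (1 - 1 / κ1) ^ q := pow_nonneg hl0.le q
  have hlq1 : (1 - 1 / κ1) ^ q ≤ 1 := pow_le_one₀ hl0.le hl1.le
  have hP'1 : 1 ≤ P' := Real.one_le_rpow hP hlq0
  have hsR : (s : ℝ) ≤ 1 := by exact_mod_cast hs
  have hs0 : (0 : ℝ) ≤ (s : ℝ) := Nat.cast_nonneg s
  have hB2 : P ^ (κ1 + η) ≤ B ^ 2 := by
    have h3 : P ^ (κ1 + η) = (P ^ ((κ1 + η) / 2)) ^ 2 := by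
      rw [← Real.rpow_natCast, ← Real.rpow_mul hP0.le]
      congr 1
      push_cast
      ring
    rw [h3]
    exact pow_le_pow_left₀ (by linarith) hB0 2
  have hbig : ∀ t : ℝ, t ≤ 2 * κ2 - s → P' ^ t ≤ B ^ 2 := by
    intro t ht
    refine le_trans ?_ hB2
    rw [hP', ← Real.rpow_mul hP0.le]
    refine Real.rpow_le_rpow_of_exponent_le hP ?_
    refine le_trans ?_ hc
    exact mul_le_mul_of_nonneg_left ht hlq0
  have e1 : P' ^ (2 * κ - s) ≤ B ^ 2 := hbig _ (by linarith)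
  have e2 : P' ^ κ ≤ B ^ 2 := hbig _ (by linarith)
  have e3 : P' ^ κ ≤ L := by
    rw [hP', ← Real.rpow_mul hP0.le, hL]
    refine Real.rpow_le_rpow_of_exponent_le hP ?_
    calc (1 - 1 / κ1) ^ q * κ ≤ 1 * κ := mul_le_mul_of_nonneg_right hlq1 (by linarith)
      _ ≤ κ2 + η := by linarith
  have e30 : 0 ≤ P' ^ κ := Real.rpow_nonneg (by linarith) _
  have e4 : s * P' ^ κ * A ≤ (M + 2) * B ^ 2 := by
    have h5 : s * P' ^ κ * A ≤ P' ^ κ * A := by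
      refine mul_le_mul_of_nonneg_right ?_ hA0
      calc (s : ℝ) * P' ^ κ ≤ 1 * P' ^ κ := mul_le_mul_of_nonneg_right hsR e30
        _ = P' ^ κ := one_mul _
    have h6 : P' ^ κ * A = P' ^ κ * M + P' ^ κ * (2 * B ^ 2 / L) := by rw [hA]; ring
    have h7 : P' ^ κ * M ≤ B ^ 2 * M := mul_le_mul_of_nonneg_right e2 hM
    have h8 : P' ^ κ * (2 * B ^ 2 / L) ≤ L * (2 * B ^ 2 / L) :=
      mul_le_mul_of_nonneg_right e3 hA10
    have h9 : L * (2 * B ^ 2 / L) = 2 * B ^ 2 := by field_simp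
    linarith
  have e5 : (3 * B) ^ 2 + P' ^ (2 * κ - s) + s * P' ^ κ * A ≤ (12 + M) * B ^ 2 := by nlinarith
  have e6 : P ^ (-(2 * κ)) ≤ P ^ (-(2 * κ1)) :=
    Real.rpow_le_rpow_of_exponent_le hP (by linarith)
  have hq0 : 0 ≤ P ^ (4 * η * (q + 1)) := Real.rpow_nonneg hP0.le _
  have hcard : (0 : ℝ) ≤ (W.card : ℝ) := Nat.cast_nonneg _
  have key : ∀ w ∈ W, cn W (fun w' =>
      |rs (fun x => (x : ℝ) ^ κ) w - rs (fun x => (x : ℝ) ^ κ) w'| ≤ A ∧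
      |rs (fun x => (x : ℝ) ^ κ * Real.log x) w - rs (fun x => (x : ℝ) ^ κ * Real.log x) w'| ≤
        3 * B) ≤
      P ^ (4 * η * (q + 1)) * (W.card : ℝ) * P ^ (-(2 * κ1)) * ((12 + M) * B ^ 2) := by
    intro w _
    have h5 := hmix κ hk1 hk2 (rs (fun x => (x : ℝ) ^ κ) w)
      (rs (fun x => (x : ℝ) ^ κ * Real.log x) w) A (3 * B) hA0 hA3
    have h6 : cn W (fun w' =>
      |rs (fun x => (x : ℝ) ^ κ) w - rs (fun x => (x : ℝ) ^ κ) w'| ≤ A ∧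
      |rs (fun x => (x : ℝ) ^ κ * Real.log x) w - rs (fun x => (x : ℝ) ^ κ * Real.log x) w'| ≤
        3 * B) ≤ cn W (fun w' =>
        |rs (fun x => (x : ℝ) ^ κ) w' - rs (fun x => (x : ℝ) ^ κ) w| ≤ A ∧
        |rs (fun x => (x : ℝ) ^ κ * Real.log x) w' -
          rs (fun x => (x : ℝ) ^ κ * Real.log x) w| ≤ 3 * B) := by
      refine cn_mono fun w' _ h => ?_
      rw [abs_sub_comm, abs_sub_comm (rs (fun x => (x : ℝ) ^ κ * Real.log x) w')]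
      exact h
    refine h6.trans (h5.trans ?_)
    have h7 : 0 ≤ (3 * B) ^ 2 + P' ^ (2 * κ - s) + s * P' ^ κ * A := by
      have : 0 ≤ P' ^ (2 * κ - s) := Real.rpow_nonneg (by linarith) _
      positivity
    refine mul_le_mul ?_ e5 h7 (by positivity)
    exact mul_le_mul_of_nonneg_left e6 (by positivity)
  have h8 := pairs_le_of (W := W) (R := fun w w' =>
    |rs (fun x => (x : ℝ) ^ κ) w - rs (fun x => (x : ℝ) ^ κ) w'| ≤ A ∧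
      |rs (fun x => (x : ℝ) ^ κ * Real.log x) w - rs (fun x => (x : ℝ) ^ κ * Real.log x) w'| ≤
        3 * B) key
  rw [pairs_eq_cn] at h8
  refine h8.trans (le_of_eq ?_)
  ring

/-- The numerical inequality for the average. -/
theorem aeE_num {κ1 κ2 η : ℝ} (h1 : 1 < κ1) (h12 : κ1 ≤ κ2) (hη : 0 < η) (hκη : κ2 - κ1 ≤ η)
    (q : ℕ) {M : ℝ} (hM : 0 ≤ M) :
    ∀ᶠ r : ℕ in atTop, ∀ m : ℝ, 0 ≤ m →
      (κ2 - κ1) * ((12 + M) * XX r ^ (4 * η * (q + 1)) * m ^ 2 * XX r ^ (-(2 * κ1))) *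
        (XX r ^ ((κ1 + η) / 2)) ^ 2 +
      8 * (⌈(r : ℝ) * (κ2 + η)⌉₊ : ℕ) *
        ((12 + M) * XX r ^ (4 * η * (q + 1)) * m ^ 2 * XX r ^ (-(2 * κ1))) *
        XX r ^ (κ2 + η) * M * (1 + (κ2 - κ1)) ≤
      XX r ^ ((4 * q + 7) * η) * (m ^ 2 * XX r ^ (-κ1)) := by
  have hlog : ∀ r : ℕ, (r : ℝ) ≤ 2 * Real.log (16 * XX r) ^ 1 := by
    intro r
    have h3 : Real.log (16 * XX r) = Real.log 16 + r * Real.log 2 := by
      rw [Real.log_mul (by norm_num) (XX_pos r).ne']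
      congr 1
      unfold XX
      rw [Real.log_pow]
    have h4 : (0 : ℝ) ≤ Real.log 16 := Real.log_nonneg (by norm_num)
    have h5 : (0.6931471803 : ℝ) < Real.log 2 := Real.log_two_gt_d9
    have h6 : (0 : ℝ) ≤ (r : ℝ) := Nat.cast_nonneg r
    rw [pow_one, h3]
    nlinarith
  have hlog1 : ∀ r : ℕ, 1 ≤ Real.log (16 * XX r) ^ 1 := by
    intro r
    rw [pow_one, Real.le_log_iff_exp_le (by linarith [XX_pos r])]
    have h7 := Real.exp_one_lt_d9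
    have h8 := XX_ge_one r
    linarith
  have e1 := aeE_log (a := (4 * q + 5) * η) (b := (4 * q + 7) * η)
    (by nlinarith) (2 * ((κ2 - κ1) * (12 + M))) 0
  have e2 := aeE_log (a := (4 * q + 6) * η) (b := (4 * q + 7) * η)
    (by nlinarith) (2 * (8 * (2 * (κ2 + η) + 1) * (12 + M) * M * (1 + (κ2 - κ1)))) 1
  filter_upwards [e1, e2] with r hr1 hr2 m hm
  have hX := XX_pos r
  have hX1 := XX_ge_one r
  set X : ℝ := XX r with hXdef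
  have hceil : ((⌈(r : ℝ) * (κ2 + η)⌉₊ : ℕ) : ℝ) ≤
      (2 * (κ2 + η) + 1) * Real.log (16 * X) ^ 1 := by
    have h6 : (0 : ℝ) ≤ (r : ℝ) := Nat.cast_nonneg r
    have h7 := (Nat.ceil_lt_add_one (a := (r : ℝ) * (κ2 + η)) (by nlinarith)).le
    have h8 := hlog r
    have h9 := hlog1 r
    nlinarith
  have f1 : X ^ (4 * η * (q + 1)) * X ^ (-(2 * κ1)) * (X ^ ((κ1 + η) / 2)) ^ 2 =
      X ^ ((4 * q + 5) * η) * X ^ (-κ1) := by
    rw [← Real.rpow_natCast (X ^ ((κ1 + η) / 2)), ← Real.rpow_mul hX.le, ← Real.rpow_add hX,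
      ← Real.rpow_add hX, ← Real.rpow_add hX]
    congr 1
    push_cast
    ring
  have f2 : X ^ (4 * η * (q + 1)) * X ^ (-(2 * κ1)) * X ^ (κ2 + η) ≤
      X ^ ((4 * q + 6) * η) * X ^ (-κ1) := by
    rw [← Real.rpow_add hX, ← Real.rpow_add hX, ← Real.rpow_add hX]
    refine Real.rpow_le_rpow_of_exponent_le hX1 ?_
    nlinarith
  have hY : 0 ≤ m ^ 2 * X ^ (-κ1) := mul_nonneg (sq_nonneg m) (Real.rpow_nonneg hX.le _)
  rw [pow_zero, mul_one] at hr1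
  have g1 : (κ2 - κ1) * ((12 + M) * X ^ (4 * η * (q + 1)) * m ^ 2 * X ^ (-(2 * κ1))) *
        (X ^ ((κ1 + η) / 2)) ^ 2 ≤ X ^ ((4 * q + 7) * η) / 2 * (m ^ 2 * X ^ (-κ1)) := by
    calc _ = (κ2 - κ1) * (12 + M) * m ^ 2 *
          (X ^ (4 * η * (q + 1)) * X ^ (-(2 * κ1)) * (X ^ ((κ1 + η) / 2)) ^ 2) := by ring
      _ = ((κ2 - κ1) * (12 + M) * X ^ ((4 * q + 5) * η)) * (m ^ 2 * X ^ (-κ1)) := by
          rw [f1]
          ring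
      _ ≤ X ^ ((4 * q + 7) * η) / 2 * (m ^ 2 * X ^ (-κ1)) := by
          refine mul_le_mul_of_nonneg_right ?_ hY
          linarith
  have g2 : 8 * ((⌈(r : ℝ) * (κ2 + η)⌉₊ : ℕ) : ℝ) *
        ((12 + M) * X ^ (4 * η * (q + 1)) * m ^ 2 * X ^ (-(2 * κ1))) *
        X ^ (κ2 + η) * M * (1 + (κ2 - κ1)) ≤ X ^ ((4 * q + 7) * η) / 2 * (m ^ 2 * X ^ (-κ1)) := by
    have hk : 0 ≤ 1 + (κ2 - κ1) := by linarith
    have h12M : 0 ≤ 12 + M := by linarith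
    calc _ = ((⌈(r : ℝ) * (κ2 + η)⌉₊ : ℕ) : ℝ) * (8 * (12 + M) * M * (1 + (κ2 - κ1)) * m ^ 2) *
          (X ^ (4 * η * (q + 1)) * X ^ (-(2 * κ1)) * X ^ (κ2 + η)) := by ring
      _ ≤ ((2 * (κ2 + η) + 1) * Real.log (16 * X) ^ 1) *
          (8 * (12 + M) * M * (1 + (κ2 - κ1)) * m ^ 2) *
          (X ^ ((4 * q + 6) * η) * X ^ (-κ1)) := by
          refine mul_le_mul ?_ f2 (by positivity) ?_
          · exact mul_le_mul_of_nonneg_right hceil (by positivity)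
          · have : 0 ≤ 2 * (κ2 + η) + 1 := by linarith
            have h9 := hlog1 r
            have h10 : 0 ≤ Real.log (16 * X) ^ 1 := by linarith
            positivity
      _ = (8 * (2 * (κ2 + η) + 1) * (12 + M) * M * (1 + (κ2 - κ1)) *
          (X ^ ((4 * q + 6) * η) * Real.log (16 * X) ^ 1)) * (m ^ 2 * X ^ (-κ1)) := by ring
      _ ≤ X ^ ((4 * q + 7) * η) / 2 * (m ^ 2 * X ^ (-κ1)) := by
          refine mul_le_mul_of_nonneg_right ?_ hY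
          linarith
  calc _ ≤ X ^ ((4 * q + 7) * η) / 2 * (m ^ 2 * X ^ (-κ1)) +
        X ^ ((4 * q + 7) * η) / 2 * (m ^ 2 * X ^ (-κ1)) := add_le_add g1 g2
    _ = _ := by ring

/-- Comparison of the bound of the average with the final one. -/
theorem aeE_cmp {κ1 κ2 η κ : ℝ} (hη : 0 < η) (hκη : κ2 - κ1 ≤ η) (q : ℕ) (hκ : κ ≤ κ2)
    (m : ℝ) (r : ℕ) :
    XX r ^ (2 * ((4 * (q : ℝ) + 7) * η)) * (m ^ 2 * XX r ^ (-κ1)) ≤
      (XX r) ^ (16 * (q + 1) * η) * m ^ 2 / (XX r) ^ κ := by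
  have hX := XX_pos r
  have hX1 := XX_ge_one r
  have h3 : XX r ^ (2 * ((4 * (q : ℝ) + 7) * η)) * XX r ^ (-κ1) ≤
      XX r ^ (16 * (q + 1) * η) * XX r ^ (-κ) := by
    rw [← Real.rpow_add hX, ← Real.rpow_add hX]
    refine Real.rpow_le_rpow_of_exponent_le hX1 ?_
    nlinarith
  calc XX r ^ (2 * ((4 * (q : ℝ) + 7) * η)) * (m ^ 2 * XX r ^ (-κ1))
      = m ^ 2 * (XX r ^ (2 * ((4 * (q : ℝ) + 7) * η)) * XX r ^ (-κ1)) := by ring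
    _ ≤ m ^ 2 * (XX r ^ (16 * (q + 1) * η) * XX r ^ (-κ)) :=
        mul_le_mul_of_nonneg_left h3 (sq_nonneg m)
    _ = XX r ^ (16 * (q + 1) * η) * m ^ 2 / XX r ^ κ := by
        rw [Real.rpow_neg hX.le]
        field_simp

/-- The derivative with respect to the exponent is bounded by `P ^ (κ2 + η)`. -/
theorem aeE_bd {κ1 κ2 η : ℝ} (h1 : 1 < κ1) (h12 : κ1 ≤ κ2) (hη : 0 < η)
    {s : ℕ} (hs : s ≤ 1) (q : ℕ) :
    ∀ᶠ r : ℕ in atTop, ∀ i ∈ mix (fun x => x ^ (1 - 1 / κ1)) s q (XX r) ×ˢ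
        mix (fun x => x ^ (1 - 1 / κ1)) s q (XX r), ∀ x ∈ Set.Icc κ1 κ2,
      |rs (fun z => (z : ℝ) ^ x * Real.log z) i.1 -
        rs (fun z => (z : ℝ) ^ x * Real.log z) i.2| ≤ XX r ^ (κ2 + η) := by
  obtain ⟨C, hC, hbound⟩ := mixE_bound h1 h12 hs q
  have e1 := XX_tendsto.eventually_ge_atTop 16
  have e4 := aeE_log (a := κ2) (b := κ2 + η) (by linarith) (2 * C) 1
  filter_upwards [e1, e4] with r hX16 hr4 i hi x hx
  have hX := XX_pos r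
  have hX1 := XX_ge_one r
  have hlogmono : Real.log (XX r) ≤ Real.log (16 * XX r) :=
    Real.log_le_log hX (by linarith)
  have hlog0 : 0 ≤ Real.log (XX r) := Real.log_nonneg hX1
  obtain ⟨hi1, hi2⟩ := Finset.mem_product.1 hi
  have h3 := (hbound (XX r) hX16 x hx.1 hx.2 i.1 hi1).2
  have h4 := (hbound (XX r) hX16 x hx.1 hx.2 i.2 hi2).2
  have h5 : XX r ^ x * Real.log (XX r) ≤ XX r ^ κ2 * Real.log (16 * XX r) ^ 1 := by
    rw [pow_one]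
    exact mul_le_mul (Real.rpow_le_rpow_of_exponent_le hX1 hx.2) hlogmono hlog0
      (Real.rpow_nonneg hX.le _)
  calc _ ≤ |rs (fun z => (z : ℝ) ^ x * Real.log z) i.1| +
      |rs (fun z => (z : ℝ) ^ x * Real.log z) i.2| := abs_sub _ _
    _ ≤ C * (XX r ^ x * Real.log (XX r)) + C * (XX r ^ x * Real.log (XX r)) :=
        add_le_add h3 h4
    _ = 2 * C * (XX r ^ x * Real.log (XX r)) := by ring
    _ ≤ 2 * C * (XX r ^ κ2 * Real.log (16 * XX r) ^ 1) :=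
        mul_le_mul_of_nonneg_left h5 (by positivity)
    _ ≤ _ := hr4

/-- The average over the exponent. -/
theorem aeE_avg {κ1 κ2 η : ℝ} (h1 : 1 < κ1) (h12 : κ1 ≤ κ2) (hη : 0 < η) (hκη : κ2 - κ1 ≤ η)
    {s : ℕ} (hs : s ≤ 1) (q : ℕ)
    (hc : (1 - 1 / κ1) ^ q * (2 * κ2 - s) ≤ κ1 + η) {M : ℝ} (hM : 0 ≤ M) :
    ∀ᶠ r : ℕ in atTop,
      ∑ i ∈ mix (fun x => x ^ (1 - 1 / κ1)) s q (XX r) ×ˢ
          mix (fun x => x ^ (1 - 1 / κ1)) s q (XX r),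
        (volume {κ | κ ∈ Set.Icc κ1 κ2 ∧
          |rs (fun x => (x : ℝ) ^ κ) i.1 - rs (fun x => (x : ℝ) ^ κ) i.2| ≤ M}).toReal ≤
        XX r ^ ((4 * (q : ℝ) + 7) * η) *
          (((mix (fun x => x ^ (1 - 1 / κ1)) s q (XX r)).card : ℝ) ^ 2 * XX r ^ (-κ1)) := by
  obtain ⟨hl0, hl1⟩ := aeE_lam h1
  set W : ℕ → Finset (List ℕ) := fun r => mix (fun x => x ^ (1 - 1 / κ1)) s q (XX r) with hW
  set G : List ℕ × List ℕ → ℝ → ℝ := fun i κ =>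
    rs (fun x => (x : ℝ) ^ κ) i.1 - rs (fun x => (x : ℝ) ^ κ) i.2 with hG
  set G' : List ℕ × List ℕ → ℝ → ℝ := fun i κ =>
    rs (fun x => (x : ℝ) ^ κ * Real.log x) i.1 - rs (fun x => (x : ℝ) ^ κ * Real.log x) i.2
    with hG'
  obtain ⟨P0, hP016, hmix⟩ := mixE h1 h12 hη hκη hs q
  have e1 := XX_tendsto.eventually_ge_atTop P0
  have e2 := aeE_num h1 h12 hη hκη q hM
  have e3 : ∀ᶠ r : ℕ in atTop, M ≤ XX r ^ ((κ1 + η) / 2) := by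
    have h3 : Tendsto (fun r : ℕ => XX r ^ ((κ1 + η) / 2)) atTop atTop :=
      (tendsto_rpow_atTop (by linarith)).comp XX_tendsto
    exact h3.eventually_ge_atTop M
  have e5 := aeE_log (a := κ2) (b := κ2 + η) (by linarith)
    (2 * (2 * q + s) * (16 : ℝ) ^ κ2) 2
  have e6 := aeE_bd (κ1 := κ1) (κ2 := κ2) (η := η) h1 h12 hη hs q
  filter_upwards [e1, e2, e3, e5, e6] with r hr1 hr2 hr3 hr5 hr6
  have hX := XX_pos r
  have hX1 := XX_ge_one r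
  have hlet : ∀ w ∈ W r, ∀ n ∈ w, (n : ℝ) ≤ 16 * XX r :=
    aeE_letters hl0.le hl1.le hX1
  have hlen : ∀ w ∈ W r, w.length = 2 * q + s := mix_len hs q (XX r)
  have hpos : ∀ i ∈ W r ×ˢ W r, (∀ n ∈ i.1, 1 ≤ n) ∧ (∀ n ∈ i.2, 1 ≤ n) := by
    intro i hi
    obtain ⟨hi1, hi2⟩ := Finset.mem_product.1 hi
    exact ⟨mix_pos q (XX r) _ hi1, mix_pos q (XX r) _ hi2⟩
  refine (avg_nl (S := W r ×ˢ W r) (G := G) (G' := G') (a := κ1) (b := κ2)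
    (L := XX r ^ (κ2 + η)) (B0 := XX r ^ ((κ1 + η) / 2)) (M := M)
    (K := (12 + M) * XX r ^ (4 * η * (q + 1)) * ((W r).card : ℝ) ^ 2 * XX r ^ (-(2 * κ1)))
    (I := ⌈(r : ℝ) * (κ2 + η)⌉₊) h12 hM
    (Real.one_le_rpow hX1 (by linarith))
    (Real.rpow_le_rpow_of_exponent_le hX1 (by linarith)) ?_ ?_ ?_ ?_ ?_ ?_).trans ?_
  · -- L ≤ 2 ^ I * B0
    have h3 : (1 : ℝ) ≤ XX r ^ ((κ1 + η) / 2) := Real.one_le_rpow hX1 (by linarith)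
    have h4 : XX r ^ (κ2 + η) ≤ (2 : ℝ) ^ ⌈(r : ℝ) * (κ2 + η)⌉₊ := by
      have h5 : XX r ^ (κ2 + η) = (2 : ℝ) ^ ((r : ℝ) * (κ2 + η)) := by
        unfold XX
        rw [← Real.rpow_natCast, ← Real.rpow_mul (by norm_num)]
      rw [h5, ← Real.rpow_natCast]
      exact Real.rpow_le_rpow_of_exponent_le (by norm_num) (Nat.le_ceil _)
    have h6 : (0 : ℝ) ≤ (2 : ℝ) ^ ⌈(r : ℝ) * (κ2 + η)⌉₊ := by positivity
    calc XX r ^ (κ2 + η) ≤ (2 : ℝ) ^ ⌈(r : ℝ) * (κ2 + η)⌉₊ * 1 := by rw [mul_one]; exact h4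
      _ ≤ _ := mul_le_mul_of_nonneg_left h3 h6
  · have h3 : 0 ≤ XX r ^ (4 * η * (q + 1)) := Real.rpow_nonneg hX.le _
    have h4 : 0 ≤ XX r ^ (-(2 * κ1)) := Real.rpow_nonneg hX.le _
    positivity
  · intro i hi x _
    obtain ⟨hi1, hi2⟩ := hpos i hi
    exact (aeE_deriv i.1 hi1 x).sub (aeE_deriv i.2 hi2 x)
  · intro i hi x hx y hy
    obtain ⟨hi1, hi2⟩ := Finset.mem_product.1 hi
    obtain ⟨hp1, hp2⟩ := hpos i hi
    have h3 := aeE_lip (κ1 := κ1) (κ2 := κ2) (by linarith) i.1 hp1 (hlet _ hi1) x hx y hy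
    have h4 := aeE_lip (κ1 := κ1) (κ2 := κ2) (by linarith) i.2 hp2 (hlet _ hi2) x hx y hy
    rw [hlen _ hi1] at h3
    rw [hlen _ hi2] at h4
    push_cast at h3 h4
    have h5 : G' i x - G' i y =
        (rs (fun z => (z : ℝ) ^ x * Real.log z) i.1 -
          rs (fun z => (z : ℝ) ^ y * Real.log z) i.1) -
        (rs (fun z => (z : ℝ) ^ x * Real.log z) i.2 -
          rs (fun z => (z : ℝ) ^ y * Real.log z) i.2) := by
      rw [hG']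
      ring
    rw [h5]
    have h6 : (16 * XX r) ^ κ2 = 16 ^ κ2 * XX r ^ κ2 := Real.mul_rpow (by norm_num) hX.le
    calc _ ≤ |rs (fun z => (z : ℝ) ^ x * Real.log z) i.1 -
          rs (fun z => (z : ℝ) ^ y * Real.log z) i.1| +
        |rs (fun z => (z : ℝ) ^ x * Real.log z) i.2 -
          rs (fun z => (z : ℝ) ^ y * Real.log z) i.2| := abs_sub _ _
      _ ≤ (2 * q + s) * ((16 * XX r) ^ κ2 * Real.log (16 * XX r) ^ 2) * |x - y| +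
        (2 * q + s) * ((16 * XX r) ^ κ2 * Real.log (16 * XX r) ^ 2) * |x - y| :=
          add_le_add h3 h4
      _ = (2 * (2 * q + s) * (16 : ℝ) ^ κ2 * (XX r ^ κ2 * Real.log (16 * XX r) ^ 2)) *
          |x - y| := by
          rw [h6]
          ring
      _ ≤ XX r ^ (κ2 + η) * |x - y| := mul_le_mul_of_nonneg_right hr5 (abs_nonneg _)
  · intro i hi x hx
    exact hr6 i hi x hx
  · exact aeE_hN h1 h12 hη hs q hc hM hX1 hr3 (hmix (XX r) hr1)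
  · exact hr2 ((W r).card : ℝ) (Nat.cast_nonneg _)

/-- The statement for one `M`. -/
theorem aeE_fixed {κ1 κ2 η : ℝ} (h1 : 1 < κ1) (h12 : κ1 ≤ κ2) (hη : 0 < η) (hκη : κ2 - κ1 ≤ η)
    {s : ℕ} (hs : s ≤ 1) (q : ℕ)
    (hc : (1 - 1 / κ1) ^ q * (2 * κ2 - s) ≤ κ1 + η) {M : ℝ} (hM : 0 ≤ M) :
    ∀ᵐ κ : ℝ, κ ∈ Set.Icc κ1 κ2 → ∀ᶠ r : ℕ in atTop,
      pairs (mix (fun x => x ^ (1 - 1 / κ1)) s q (XX r)) (fun p =>
        |rs (fun x => (x : ℝ) ^ κ) p.1 - rs (fun x => (x : ℝ) ^ κ) p.2| ≤ M) ≤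
      (XX r) ^ (16 * (q + 1) * η) *
        ((mix (fun x => x ^ (1 - 1 / κ1)) s q (XX r)).card : ℝ) ^ 2 / (XX r) ^ κ := by
  obtain ⟨hl0, hl1⟩ := aeE_lam h1
  set W : ℕ → Finset (List ℕ) := fun r => mix (fun x => x ^ (1 - 1 / κ1)) s q (XX r) with hW
  set G : List ℕ × List ℕ → ℝ → ℝ := fun i κ =>
    rs (fun x => (x : ℝ) ^ κ) i.1 - rs (fun x => (x : ℝ) ^ κ) i.2 with hG
  set Y : ℕ → ℝ := fun r => ((W r).card : ℝ) ^ 2 * XX r ^ (-κ1) with hYdef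
  have hδ : 0 < (4 * (q : ℝ) + 7) * η := by positivity
  have hcard := aeE_card_pos hl0 hl1.le s q
  have hY : ∀ᶠ r : ℕ in atTop, 0 < Y r := by
    filter_upwards [hcard] with r hr
    have h3 : 0 < XX r ^ (-κ1) := Real.rpow_pos_of_pos (XX_pos r) _
    have h4 : (0 : ℝ) < ((W r).card : ℝ) := hr
    rw [hYdef]
    positivity
  have havg := aeE_avg h1 h12 hη hκη hs q hc hM
  have hae := ae_of_avg (S := fun r => W r ×ˢ W r) (G := G) (a := κ1) (b := κ2) (M := M)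
    (δ := (4 * (q : ℝ) + 7) * η) (Y := Y) hδ hY ?_ havg
  · filter_upwards [hae] with κ hκ hκI
    filter_upwards [hκ hκI] with r hr
    rw [pairs_eq_cn]
    exact hr.trans (aeE_cmp hη hκη q hκI.2 _ r)
  · intro r i hi x _
    obtain ⟨hi1, hi2⟩ := Finset.mem_product.1 hi
    exact ((aeE_deriv i.1 (mix_pos q (XX r) _ hi1) x).sub
      (aeE_deriv i.2 (mix_pos q (XX r) _ hi2) x)).continuousAt.continuousWithinAt

theorem aeE {κ1 κ2 η : ℝ} (h1 : 1 < κ1) (h12 : κ1 ≤ κ2) (hη : 0 < η) (hκη : κ2 - κ1 ≤ η)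
    {s : ℕ} (hs : s ≤ 1) (q : ℕ)
    (hc : (1 - 1 / κ1) ^ q * (2 * κ2 - s) ≤ κ1 + η) :
    ∀ᵐ κ : ℝ, κ ∈ Set.Icc κ1 κ2 → ∀ M : ℝ, ∀ᶠ r : ℕ in atTop,
      pairs (mix (fun x => x ^ (1 - 1 / κ1)) s q (XX r)) (fun p =>
        |rs (fun x => (x : ℝ) ^ κ) p.1 - rs (fun x => (x : ℝ) ^ κ) p.2| ≤ M) ≤
      (XX r) ^ (16 * (q + 1) * η) *
        ((mix (fun x => x ^ (1 - 1 / κ1)) s q (XX r)).card : ℝ) ^ 2 / (XX r) ^ κ := by
  have h := fun n : ℕ => aeE_fixed h1 h12 hη hκη hs q hc (M := (n : ℝ)) (Nat.cast_nonneg n)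
  rw [← ae_all_iff] at h
  filter_upwards [h] with κ hκ hκI M
  obtain ⟨n, hn⟩ := exists_nat_ge M
  filter_upwards [hκ n hκI] with r hr
  refine le_trans (pairs_mono _ fun w _ w' _ hw => ?_) hr
  exact le_trans hw hn

end FWar
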