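import Pool.Agent.FWar.Defs
import Pool.Agent.MWg.Chain
import Pool.Agent.MWg.Tools

/-!
# FWar.MixB: combinatorics of the words `mix`

All statements are elementary (inductions on `q` with `P` generalised; the map
`((u,v),w) ↦ u :: v :: w` is injective). In `mix_le` the hypothesis says that all scales
`nx^[i] P`, `i ≤ q`, are in `[0, P]`; letters are at most `16 nx^[i] P`. `mix_rs_le`: a sum of
`2q + s` terms each at most `B` in absolute value. `mix_card_pos`: `mainI x` and `J1 x` are nonempty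
for `x ≥ 16` (`card_mainI_ge`, `card_J1_ge`).
-/

namespace FWar

open MWg Finset Filter Topology

private theorem cons2_inj :
    Function.Injective (fun p : (ℕ × ℕ) × List ℕ => p.1.1 :: p.1.2 :: p.2) := by
  rintro ⟨⟨a, b⟩, c⟩ ⟨⟨d, e⟩, f⟩ h
  simp only [List.cons.injEq] at h
  obtain ⟨h1, h2, h3⟩ := h
  subst h1
  subst h2
  subst h3
  rfl

private theorem cons1_inj :
    Function.Injective (fun p : ℕ × List ℕ => p.1 :: p.2) := by
  rintro ⟨a, c⟩ ⟨d, f⟩ h
  simp only [List.cons.injEq] at h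
  obtain ⟨h1, h3⟩ := h
  subst h1
  subst h3
  rfl

private theorem sing_inj : Function.Injective (fun x : ℕ => [x]) := by
  intro a b h
  simpa using h

private theorem mem_mix_zero {nx : ℝ → ℝ} {s : ℕ} {P : ℝ} {w : List ℕ}
    (hw : w ∈ mix nx s 0 P) : (s = 0 ∧ w = []) ∨ (s ≠ 0 ∧ ∃ x ∈ mainI P, w = [x]) := by
  unfold mix at hw
  split_ifs at hw with h0
  · exact Or.inl ⟨h0, Finset.mem_singleton.1 hw⟩
  · obtain ⟨x, hx, rfl⟩ := Finset.mem_image.1 hw
    exact Or.inr ⟨h0, x, hx, rfl⟩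

private theorem mainI_pos {P : ℝ} {u : ℕ} (hu : u ∈ mainI P) : 1 ≤ u := by
  unfold mainI at hu
  have := (Finset.mem_Ioc.1 hu).1
  omega

private theorem J1_pos {P : ℝ} {u : ℕ} (hu : u ∈ J1 P) : 1 ≤ u := by
  unfold J1 at hu
  have := (Finset.mem_Ioc.1 hu).1
  omega

private theorem abs_rs_le (g : ℕ → ℝ) (B : ℝ) (l : List ℕ) (h : ∀ n ∈ l, |g n| ≤ B) :
    |rs g l| ≤ (l.length : ℝ) * B := by
  induction l with
  | nil => simp [rs]
  | cons a l ih =>
    have h1 : rs g (a :: l) = g a + rs g l := by simp [rs]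
    rw [h1]
    have h2 := ih fun n hn => h n (List.mem_cons_of_mem a hn)
    have h3 := h a (List.mem_cons_self)
    have h4 := abs_add_le (g a) (rs g l)
    rw [List.length_cons]
    push_cast
    linarith

private theorem cn_eq {ι : Type*} (W : Finset ι) (p : ι → Prop) [DecidablePred p] :
    cn W p = ((W.filter p).card : ℝ) := by
  unfold cn
  congr

private theorem pairs_eq {ι : Type*} (W : Finset ι) (p : ι × ι → Prop) [DecidablePred p] :
    pairs W p = (((W ×ˢ W).filter p).card : ℝ) := by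
  unfold pairs
  congr

theorem mem_mix_succ {nx : ℝ → ℝ} {s q : ℕ} {P : ℝ} {l : List ℕ} :
    l ∈ mix nx s (q + 1) P ↔ ∃ u ∈ mainI P, ∃ v ∈ J1 P, ∃ w ∈ mix nx s q (nx P),
      l = u :: v :: w := by
  rw [mix]
  simp only [Finset.mem_image, Finset.mem_product, Prod.exists]
  constructor
  · rintro ⟨u, v, w, ⟨⟨hu, hv⟩, hw⟩, rfl⟩
    exact ⟨u, hu, v, hv, w, hw, rfl⟩
  · rintro ⟨u, hu, v, hv, w, hw, rfl⟩
    exact ⟨u, v, w, ⟨⟨hu, hv⟩, hw⟩, rfl⟩

theorem mix_len {nx : ℝ → ℝ} {s : ℕ} (hs : s ≤ 1) (q : ℕ) :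
    ∀ P, ∀ w ∈ mix nx s q P, w.length = 2 * q + s := by
  induction q with
  | zero =>
    intro P w hw
    rcases mem_mix_zero hw with ⟨h0, rfl⟩ | ⟨h0, x, _, rfl⟩
    · simp [h0]
    · have h1 : s = 1 := by omega
      simp [h1]
  | succ q ih =>
    intro P w hw
    obtain ⟨u, _, v, _, w', hw', rfl⟩ := mem_mix_succ.1 hw
    have := ih (nx P) w' hw'
    simp only [List.length_cons]
    omega

theorem mix_pos {nx : ℝ → ℝ} {s : ℕ} (q : ℕ) : ∀ P, ∀ w ∈ mix nx s q P, ∀ n ∈ w, 1 ≤ n := by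
  induction q with
  | zero =>
    intro P w hw n hn
    rcases mem_mix_zero hw with ⟨h0, rfl⟩ | ⟨h0, x, hx, rfl⟩
    · simp at hn
    · rw [List.mem_singleton] at hn
      rw [hn]
      exact mainI_pos hx
  | succ q ih =>
    intro P w hw n hn
    obtain ⟨u, hu, v, hv, w', hw', rfl⟩ := mem_mix_succ.1 hw
    rcases List.mem_cons.1 hn with rfl | hn
    · exact mainI_pos hu
    rcases List.mem_cons.1 hn with rfl | hn
    · exact J1_pos hv
    · exact ih (nx P) w' hw' n hn

theorem mix_le {nx : ℝ → ℝ} {s : ℕ} (q : ℕ) : ∀ P R : ℝ,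
    (∀ i ≤ q, 0 ≤ nx^[i] P ∧ nx^[i] P ≤ R) → ∀ w ∈ mix nx s q P, ∀ n ∈ w, (n : ℝ) ≤ 16 * R := by
  induction q with
  | zero =>
    intro P R h w hw n hn
    have h0 := h 0 le_rfl
    simp only [Function.iterate_zero, id_eq] at h0
    rcases mem_mix_zero hw with ⟨_, rfl⟩ | ⟨_, x, hx, rfl⟩
    · simp at hn
    · rw [List.mem_singleton] at hn
      rw [hn]
      have := ((mem_mainI h0.1).1 hx).2
      linarith [h0.2]
  | succ q ih =>
    intro P R h w hw n hn
    have h0 := h 0 (Nat.zero_le _)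
    simp only [Function.iterate_zero, id_eq] at h0
    obtain ⟨u, hu, v, hv, w', hw', rfl⟩ := mem_mix_succ.1 hw
    rcases List.mem_cons.1 hn with rfl | hn
    · have := ((mem_mainI h0.1).1 hu).2
      linarith [h0.2]
    rcases List.mem_cons.1 hn with rfl | hn
    · have := ((mem_J1 h0.1).1 hv).2
      linarith [h0.1, h0.2]
    · refine ih (nx P) R (fun i hi => ?_) w' hw' n hn
      have := h (i + 1) (by omega)
      rw [Function.iterate_succ_apply] at this
      exact this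

theorem mix_rs_le {nx : ℝ → ℝ} {s : ℕ} (hs : s ≤ 1) (q : ℕ) (g : ℕ → ℝ) (P B : ℝ)
    (hB : ∀ w ∈ mix nx s q P, ∀ n ∈ w, |g n| ≤ B) :
    ∀ w ∈ mix nx s q P, |rs g w| ≤ (2 * q + s) * B := by
  intro w hw
  have h1 := abs_rs_le g B w (hB w hw)
  rw [mix_len hs q P w hw] at h1
  push_cast at h1
  exact h1

theorem card_mix_zero (nx : ℝ → ℝ) (P : ℝ) : (mix nx 0 0 P).card = 1 := by
  simp [mix]

theorem card_mix_zero_one (nx : ℝ → ℝ) (P : ℝ) : (mix nx 1 0 P).card = (mainI P).card := by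
  unfold mix
  rw [if_neg one_ne_zero, Finset.card_image_of_injective _ sing_inj]

theorem card_mix_succ (nx : ℝ → ℝ) (s q : ℕ) (P : ℝ) :
    (mix nx s (q + 1) P).card = (mainI P).card * (J1 P).card * (mix nx s q (nx P)).card := by
  rw [mix, Finset.card_image_of_injective _ cons2_inj, Finset.card_product, Finset.card_product]

theorem mix_card_pos {nx : ℝ → ℝ} {s : ℕ} (q : ℕ) : ∀ P : ℝ, (∀ i ≤ q, 16 ≤ nx^[i] P) →
    0 < ((mix nx s q P).card : ℝ) := by
  induction q with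
  | zero =>
    intro P h
    have h0 := h 0 le_rfl
    simp only [Function.iterate_zero, id_eq] at h0
    by_cases hs : s = 0
    · have : (mix nx s 0 P) = {[]} := by
        unfold mix
        rw [if_pos hs]
      rw [this]
      simp
    · have : (mix nx s 0 P) = (mainI P).image (fun x => [x]) := by
        unfold mix
        rw [if_neg hs]
      rw [this, Finset.card_image_of_injective _ sing_inj]
      have := card_mainI_ge (show (1 : ℝ) ≤ P by linarith)
      linarith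
  | succ q ih =>
    intro P h
    have h0 := h 0 (Nat.zero_le _)
    simp only [Function.iterate_zero, id_eq] at h0
    have h1 : 0 < ((mix nx s q (nx P)).card : ℝ) := by
      refine ih (nx P) (fun i hi => ?_)
      have := h (i + 1) (by omega)
      rw [Function.iterate_succ_apply] at this
      exact this
    have h2 := card_mainI_ge (show (1 : ℝ) ≤ P by linarith)
    have h3 := card_J1_ge h0
    have h4 : (0 : ℝ) < ((mainI P).card : ℝ) := by linarith
    have h5 : (0 : ℝ) < ((J1 P).card : ℝ) := by linarith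
    rw [card_mix_succ]
    push_cast
    positivity

theorem cn_mix_zero_one (nx : ℝ → ℝ) (P : ℝ) (p : List ℕ → Prop) :
    cn (mix nx 1 0 P) p = cn (mainI P) (fun x => p [x]) := by
  classical
  rw [cn_eq, cn_eq]
  have h1 : mix nx 1 0 P = (mainI P).image (fun x => [x]) := by
    unfold mix
    rw [if_neg one_ne_zero]
  rw [h1, Finset.filter_image, Finset.card_image_of_injective _ sing_inj]

theorem cn_mix_succ (nx : ℝ → ℝ) (s q : ℕ) (P : ℝ) (p : List ℕ → Prop) :
    cn (mix nx s (q + 1) P) p =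
      ∑ u ∈ mainI P, ∑ v ∈ J1 P, cn (mix nx s q (nx P)) (fun w => p (u :: v :: w)) := by
  classical
  have h1 : cn (mix nx s (q + 1) P) p =
      ((((mainI P ×ˢ J1 P) ×ˢ mix nx s q (nx P)).filter
        (fun z : (ℕ × ℕ) × List ℕ => p (z.1.1 :: z.1.2 :: z.2))).card : ℝ) := by
    rw [cn_eq, mix, Finset.filter_image, Finset.card_image_of_injective _ cons2_inj]
  rw [h1, Finset.card_filter]
  push_cast
  rw [Finset.sum_product, Finset.sum_product]
  refine Finset.sum_congr rfl fun u _ => Finset.sum_congr rfl fun v _ => ?_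
  rw [cn_eq, Finset.card_filter]
  push_cast
  rfl

theorem cn_nonneg {ι : Type*} (W : Finset ι) (p : ι → Prop) : 0 ≤ cn W p := by
  unfold cn
  exact Nat.cast_nonneg _

theorem cn_mono {ι : Type*} {W : Finset ι} {p p' : ι → Prop} (h : ∀ w ∈ W, p w → p' w) :
    cn W p ≤ cn W p' := by
  classical
  rw [cn_eq, cn_eq]
  have : W.filter p ⊆ W.filter p' := by
    intro w hw
    rw [Finset.mem_filter] at hw ⊢
    exact ⟨hw.1, h w hw.1 hw.2⟩
  exact_mod_cast Finset.card_le_card this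

theorem cn_le_card {ι : Type*} (W : Finset ι) (p : ι → Prop) : cn W p ≤ (W.card : ℝ) := by
  classical
  rw [cn_eq]
  exact_mod_cast Finset.card_filter_le _ _

theorem cn_zero {ι : Type*} {W : Finset ι} {p : ι → Prop} (h : ∀ w ∈ W, ¬ p w) :
    cn W p = 0 := by
  classical
  rw [cn_eq]
  have : W.filter p = ∅ := by
    rw [Finset.filter_eq_empty_iff]
    exact fun w hw => h w hw
  rw [this]
  simp

/-- The number of pairs is at most `|W|` times the largest number of partners. -/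
theorem pairs_le_of {ι : Type*} {W : Finset ι} {R : ι → ι → Prop} {B : ℝ}
    (h : ∀ w ∈ W, cn W (fun w' => R w w') ≤ B) :
    pairs W (fun p => R p.1 p.2) ≤ (W.card : ℝ) * B := by
  classical
  rw [pairs_eq, Finset.card_filter, Finset.sum_product]
  push_cast
  calc ∑ w ∈ W, ∑ w' ∈ W, (if R w w' then (1 : ℝ) else 0) ≤ ∑ w ∈ W, B := by
        refine Finset.sum_le_sum fun w hw => ?_
        have h1 := h w hw
        rw [cn_eq, Finset.card_filter] at h1
        push_cast at h1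
        exact h1
    _ = (W.card : ℝ) * B := by
        rw [Finset.sum_const, nsmul_eq_mul]

/-- `pairs` is a `cn`. -/
theorem pairs_eq_cn {ι : Type*} (W : Finset ι) (p : ι × ι → Prop) :
    pairs W p = cn (W ×ˢ W) p := by
  classical
  rw [pairs_eq, cn_eq]

theorem rs_cons (f : ℕ → ℝ) (u : ℕ) (l : List ℕ) : rs f (u :: l) = f u + rs f l := by
  simp [rs]

theorem rs_lin (f g : ℕ → ℝ) (c t : ℝ) (l : List ℕ) :
    rs (fun x => c * (f x + t * g x)) l = c * (rs f l + t * rs g l) := by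
  induction l with
  | nil => simp [rs]
  | cons a l ih =>
    rw [rs_cons, rs_cons, rs_cons, ih]
    ring

theorem rs_sub_fs (f : ℕ → ℝ) (l : List ℕ) :
    0 ≤ rs f l - (fs f l : ℝ) ∧ rs f l - (fs f l : ℝ) ≤ l.length := by
  induction l with
  | nil => simp [rs, fs]
  | cons a l ih =>
    have h1 : fs f (a :: l) = ⌊f a⌋ + fs f l := by simp [fs]
    rw [rs_cons, h1, List.length_cons]
    push_cast
    have h2 := Int.floor_le (f a)
    have h3 := Int.lt_floor_add_one (f a)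
    constructor
    · linarith [ih.1]
    · linarith [ih.2]

theorem tl_len {nx : ℝ → ℝ} {s : ℕ} (hs : s ≤ 1) (q : ℕ) (P : ℝ) :
    ∀ w ∈ tl nx s q P, w.length = 2 * q + s + 1 := by
  intro w hw
  unfold tl at hw
  obtain ⟨⟨v, w'⟩, h1, rfl⟩ := Finset.mem_image.1 hw
  have h2 := mix_len hs q (nx P) w' (Finset.mem_product.1 h1).2
  simp only [List.length_cons]
  omega

theorem tl_pos {nx : ℝ → ℝ} {s : ℕ} (q : ℕ) (P : ℝ) : ∀ w ∈ tl nx s q P, ∀ n ∈ w, 1 ≤ n := by
  intro w hw n hn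
  unfold tl at hw
  obtain ⟨⟨v, w'⟩, h1, rfl⟩ := Finset.mem_image.1 hw
  have h2 := Finset.mem_product.1 h1
  rcases List.mem_cons.1 hn with rfl | hn
  · exact J1_pos h2.1
  · exact mix_pos q (nx P) w' h2.2 n hn

theorem tl_nonempty {nx : ℝ → ℝ} {s : ℕ} (q : ℕ) (P : ℝ) (hP : 16 ≤ P)
    (h : ∀ i ≤ q, 16 ≤ nx^[i] (nx P)) : (tl nx s q P).Nonempty := by
  have h1 := mix_card_pos (nx := nx) (s := s) q (nx P) h
  have h2 : (mix nx s q (nx P)).Nonempty := by
    rw [← Finset.card_pos]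
    exact_mod_cast h1
  have h3 := card_J1_ge hP
  have h4 : (J1 P).Nonempty := by
    rw [← Finset.card_pos]
    have : (0 : ℝ) < ((J1 P).card : ℝ) := by linarith
    exact_mod_cast this
  unfold tl
  exact (h4.product h2).image _

theorem card_tl (nx : ℝ → ℝ) (s q : ℕ) (P : ℝ) :
    (mainI P ×ˢ tl nx s q P).card = (mix nx s (q + 1) P).card := by
  rw [card_mix_succ, Finset.card_product, tl, Finset.card_image_of_injective _ cons1_inj,
    Finset.card_product]
  ring

theorem pairs_tl (nx : ℝ → ℝ) (s q : ℕ) (P : ℝ) (R : List ℕ → List ℕ → Prop) :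
    pairs (mainI P ×ˢ tl nx s q P) (fun p => R (p.1.1 :: p.1.2) (p.2.1 :: p.2.2)) =
      pairs (mix nx s (q + 1) P) (fun p => R p.1 p.2) := by
  classical
  have himg : mix nx s (q + 1) P =
      (mainI P ×ˢ tl nx s q P).image (fun p : ℕ × List ℕ => p.1 :: p.2) := by
    ext l
    rw [mem_mix_succ]
    simp only [tl, Finset.mem_image, Finset.mem_product, Prod.exists]
    constructor
    · rintro ⟨u, hu, v, hv, w, hw, rfl⟩
      exact ⟨u, v :: w, ⟨hu, v, w, ⟨hv, hw⟩, rfl⟩, rfl⟩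
    · rintro ⟨u, t, ⟨hu, v, w, ⟨hv, hw⟩, rfl⟩, rfl⟩
      exact ⟨u, hu, v, hv, w, hw, rfl⟩
  rw [pairs_eq, pairs_eq, himg]
  have h2 : (((mainI P ×ˢ tl nx s q P).image (fun p : ℕ × List ℕ => p.1 :: p.2)) ×ˢ
      ((mainI P ×ˢ tl nx s q P).image (fun p : ℕ × List ℕ => p.1 :: p.2))).filter
        (fun p => R p.1 p.2) =
      (((mainI P ×ˢ tl nx s q P) ×ˢ (mainI P ×ˢ tl nx s q P)).filter
        (fun p => R (p.1.1 :: p.1.2) (p.2.1 :: p.2.2))).image
          (fun z : (ℕ × List ℕ) × (ℕ × List ℕ) => (z.1.1 :: z.1.2, z.2.1 :: z.2.2)) := by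
    ext ⟨l, l'⟩
    simp only [Finset.mem_filter, Finset.mem_product, Finset.mem_image, Prod.exists,
      Prod.mk.injEq]
    constructor
    · rintro ⟨⟨⟨u, t, ⟨hu, ht⟩, rfl⟩, ⟨u', t', ⟨hu', ht'⟩, rfl⟩⟩, hR⟩
      exact ⟨u, t, u', t', ⟨⟨⟨hu, ht⟩, hu', ht'⟩, hR⟩, rfl, rfl⟩
    · rintro ⟨u, t, u', t', ⟨⟨⟨hu, ht⟩, hu', ht'⟩, hR⟩, rfl, rfl⟩
      exact ⟨⟨⟨u, t, ⟨hu, ht⟩, rfl⟩, ⟨u', t', ⟨hu', ht'⟩, rfl⟩⟩, hR⟩
  rw [h2, Finset.card_image_of_injective]
  rintro ⟨a, b⟩ ⟨c, d⟩ h
  simp only [Prod.mk.injEq] at h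
  have h3 := cons1_inj (a₁ := a) (a₂ := c) h.1
  have h4 := cons1_inj (a₁ := b) (a₂ := d) h.2
  rw [h3, h4]

end FWar
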