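import Pool.Agent.FWar.Defs

/-!
# FWar.Slab: volume of a slab in a cube, and Borel-Cantelli for several parameters

PROOF of `slab`. `n ≥ 1` since there is `j : Fin n`. Split off the coordinate `j`
(`MeasureTheory.volume_preserving_piFinSuccAbove`): for fixed other coordinates (in the cube
`[-T,T]^(n-1)`, volume `(2T)^(n-1)`) the set of `c j` with `|a' + b_j c_j| ≤ M` is an interval of
length `2M/|b_j|`.

PROOF of `ae_of_avg_pi`: the same as `FWar.ae_of_avg` (`Pool/Agent/FWar/AeC.lean`): the function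
`F_r(c) = cn (S r) (|G i c| ≤ M)` on the cube `Q` has integral
`∑_{i ∈ S r} vol {c ∈ Q : |G i c| ≤ M} ≤ (XX r)^δ Y r`; by Markov
`vol {c ∈ Q : F_r(c) > (XX r)^(2δ) Y r} ≤ (XX r)^(-δ)`, summable; Borel-Cantelli.
-/

namespace FWar

open MWg Finset MeasureTheory Filter Topology

private lemma slab_line (b a' M : ℝ) (hb : b ≠ 0) :
    volume {x : ℝ | |a' + b * x| ≤ M} ≤ ENNReal.ofReal (2 * M / |b|) := by
  have hb' : 0 < |b| := abs_pos.2 hb
  have h1 : {x : ℝ | |a' + b * x| ≤ M} ⊆ Metric.closedBall (-a' / b) (M / |b|) := by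
    intro x hx
    rw [Metric.mem_closedBall, Real.dist_eq, le_div_iff₀ hb', ← abs_mul]
    have h2 : (x - -a' / b) * b = a' + b * x := by
      field_simp
      ring
    rw [h2]
    exact hx
  refine (measure_mono h1).trans ?_
  rw [Real.volume_closedBall]
  apply le_of_eq
  congr 1
  ring

private lemma slab_cube (k : ℕ) (T : ℝ) (hT : 0 ≤ T) :
    volume {c : Fin k → ℝ | ∀ i, |c i| ≤ T} = ENNReal.ofReal ((2 * T) ^ k) := by
  have h1 : {c : Fin k → ℝ | ∀ i, |c i| ≤ T} = Set.Icc (fun _ => -T) (fun _ => T) := by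
    ext c
    simp only [Set.mem_ofPred_eq, Set.mem_Icc, Pi.le_def, abs_le]
    exact forall_and
  rw [h1, Real.volume_Icc_pi]
  simp only [sub_neg_eq_add, Finset.prod_const, Finset.card_univ, Fintype.card_fin]
  rw [← ENNReal.ofReal_pow (by linarith), two_mul]

private lemma slab_meas {n : ℕ} (T M : ℝ) {g : (Fin n → ℝ) → ℝ} (hg : Continuous g) :
    MeasurableSet {c : Fin n → ℝ | (∀ i, |c i| ≤ T) ∧ |g c| ≤ M} := by
  have h1 : IsClosed {c : Fin n → ℝ | (∀ i, |c i| ≤ T) ∧ |g c| ≤ M} := by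
    rw [Set.ofPred_and, Set.ofPred_forall]
    apply IsClosed.inter
    · apply isClosed_iInter
      intro i
      exact isClosed_le (continuous_abs.comp (continuous_apply i)) continuous_const
    · exact isClosed_le (continuous_abs.comp hg) continuous_const
  exact h1.measurableSet

theorem slab {n : ℕ} (b : Fin n → ℝ) (a T M : ℝ) (j : Fin n) (hT : 0 ≤ T) (hM : 0 ≤ M)
    (hb : b j ≠ 0) :
    (volume {c : Fin n → ℝ | (∀ i, |c i| ≤ T) ∧ |a + ∑ i, b i * c i| ≤ M}).toReal ≤
      2 * M / |b j| * (2 * T) ^ (n - 1) := by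
  obtain ⟨k, rfl⟩ : ∃ k, n = k + 1 := ⟨n - 1, by have := j.pos; omega⟩
  have hbj : 0 < |b j| := abs_pos.2 hb
  set s : Set (Fin (k + 1) → ℝ) := {c | (∀ i, |c i| ≤ T) ∧ |a + ∑ i, b i * c i| ≤ M} with hs
  have hsm : MeasurableSet s := by
    rw [hs]
    apply slab_meas T M (g := fun c => a + ∑ i, b i * c i)
    fun_prop
  have hmp := volume_preserving_piFinSuccAbove (fun _ : Fin (k + 1) => ℝ) j
  have h1 : volume s = (volume : Measure (ℝ × (Fin k → ℝ)))
      ((MeasurableEquiv.piFinSuccAbove (fun _ : Fin (k + 1) => ℝ) j).symm ⁻¹' s) :=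
    (hmp.symm.measure_preimage hsm.nullMeasurableSet).symm
  have hs' : MeasurableSet
      ((MeasurableEquiv.piFinSuccAbove (fun _ : Fin (k + 1) => ℝ) j).symm ⁻¹' s) :=
    (MeasurableEquiv.measurable _) hsm
  have h2 : volume s ≤ ENNReal.ofReal (2 * M / |b j| * (2 * T) ^ k) := by
    rw [h1, Measure.volume_eq_prod, Measure.prod_apply_symm hs']
    have hC : MeasurableSet {y : Fin k → ℝ | ∀ i, |y i| ≤ T} := by
      have := slab_meas (n := k) T 1 (g := fun _ => 0) continuous_const
      simpa using this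
    calc ∫⁻ y : Fin k → ℝ, volume ((fun x => (x, y)) ⁻¹'
          ((MeasurableEquiv.piFinSuccAbove (fun _ : Fin (k + 1) => ℝ) j).symm ⁻¹' s))
        ≤ ∫⁻ y : Fin k → ℝ, Set.indicator {y : Fin k → ℝ | ∀ i, |y i| ≤ T}
            (fun _ => ENNReal.ofReal (2 * M / |b j|)) y := by
          apply lintegral_mono
          intro y
          by_cases hy : ∀ i, |y i| ≤ T
          · rw [Set.indicator_of_mem (show y ∈ {y : Fin k → ℝ | ∀ i, |y i| ≤ T} from hy)]
            refine (measure_mono ?_).trans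
              (slab_line (b j) (a + ∑ i, b (j.succAbove i) * y i) M hb)
            intro x hx
            have hx2 : |a + ∑ i, b i * (j.insertNth x y : Fin (k + 1) → ℝ) i| ≤ M := hx.2
            rw [Fin.sum_univ_succAbove _ j] at hx2
            simp only [Fin.insertNth_apply_same, Fin.insertNth_apply_succAbove] at hx2
            show |a + ∑ i, b (j.succAbove i) * y i + b j * x| ≤ M
            have e : a + ∑ i, b (j.succAbove i) * y i + b j * x =
                a + (b j * x + ∑ i, b (j.succAbove i) * y i) := by ring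
            rw [e]
            exact hx2
          · rw [Set.indicator_of_notMem (show y ∉ {y : Fin k → ℝ | ∀ i, |y i| ≤ T} from hy)]
            apply le_of_eq
            rw [measure_eq_zero_iff_ae_notMem]
            apply Filter.Eventually.of_forall
            intro x hx
            apply hy
            intro i
            have hx1 : |(j.insertNth x y : Fin (k + 1) → ℝ) (j.succAbove i)| ≤ T :=
              hx.1 (j.succAbove i)
            rw [Fin.insertNth_apply_succAbove] at hx1
            exact hx1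
      _ = ENNReal.ofReal (2 * M / |b j|) * volume {y : Fin k → ℝ | ∀ i, |y i| ≤ T} := by
          rw [lintegral_indicator hC, lintegral_const, Measure.restrict_apply_univ]
      _ = ENNReal.ofReal (2 * M / |b j| * (2 * T) ^ k) := by
          rw [slab_cube k T hT, ← ENNReal.ofReal_mul (by positivity)]
  have h3 : 0 ≤ 2 * M / |b j| * (2 * T) ^ k := by positivity
  exact ENNReal.toReal_le_of_le_ofReal h3 h2

theorem ae_of_avg_pi {n : ℕ} {ι : Type*} {S : ℕ → Finset ι} {G : ι → (Fin n → ℝ) → ℝ} {T M δ : ℝ}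
    {Y : ℕ → ℝ} (hδ : 0 < δ) (hY : ∀ᶠ r : ℕ in atTop, 0 < Y r) (hG : ∀ i, Continuous (G i))
    (h : ∀ᶠ r : ℕ in atTop,
      ∑ i ∈ S r, (volume {c : Fin n → ℝ | (∀ l, |c l| ≤ T) ∧ |G i c| ≤ M}).toReal ≤
        (XX r) ^ δ * Y r) :
    ∀ᵐ c : Fin n → ℝ, (∀ l, |c l| ≤ T) → ∀ᶠ r : ℕ in atTop,
      cn (S r) (fun i => |G i c| ≤ M) ≤ (XX r) ^ (2 * δ) * Y r := by
  classical
  obtain ⟨r0, hr0⟩ := eventually_atTop.1 (hY.and h)
  have hXX : ∀ r, 0 < XX r := fun r => by unfold XX; positivity
  -- the sets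
  set A : ι → Set (Fin n → ℝ) := fun i => {c | (∀ l, |c l| ≤ T) ∧ |G i c| ≤ M} with hA
  have hAm : ∀ i, MeasurableSet (A i) := fun i => slab_meas T M (hG i)
  have hAf : ∀ i, volume (A i) ≠ ⊤ := by
    intro i
    refine ne_top_of_le_ne_top
      (b := volume (Set.Icc (fun _ : Fin n => -T) (fun _ : Fin n => T))) ?_
      (measure_mono fun x hx => ⟨fun l => (abs_le.1 (hx.1 l)).1, fun l => (abs_le.1 (hx.1 l)).2⟩)
    exact isCompact_Icc.measure_ne_top
  set F : ℕ → (Fin n → ℝ) → ENNReal := fun r x => ∑ i ∈ S r, (A i).indicator 1 x with hF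
  have hFint : ∀ r, r0 ≤ r → ∫⁻ x, F r x ≤ ENNReal.ofReal ((XX r) ^ δ * Y r) := by
    intro r hr
    have h1 : ∫⁻ x, F r x = ∑ i ∈ S r, volume (A i) := by
      simp only [hF]
      rw [lintegral_finsetSum' _ (fun i _ => (measurable_one.indicator (hAm i)).aemeasurable)]
      refine Finset.sum_congr rfl fun i _ => ?_
      rw [lintegral_indicator_one (hAm i)]
    have h2 : ∑ i ∈ S r, volume (A i) = ENNReal.ofReal (∑ i ∈ S r, (volume (A i)).toReal) := by
      rw [ENNReal.ofReal_sum_of_nonneg (fun i _ => ENNReal.toReal_nonneg)]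
      refine Finset.sum_congr rfl fun i _ => ?_
      rw [ENNReal.ofReal_toReal (hAf i)]
    rw [h1, h2]
    exact ENNReal.ofReal_le_ofReal (hr0 r hr).2
  have hFm : ∀ r, AEMeasurable (F r) volume := by
    intro r
    refine Finset.aemeasurable_fun_sum _ fun i _ => ?_
    exact (measurable_one.indicator (hAm i)).aemeasurable
  -- the exceptional sets
  set E : ℕ → Set (Fin n → ℝ) := fun r =>
    if r0 ≤ r then {x | ENNReal.ofReal ((XX r) ^ (2 * δ) * Y r) ≤ F r x} else ∅ with hE
  set q : ℝ := (2 : ℝ) ^ (-δ) with hq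
  have hq0 : 0 < q := by rw [hq]; positivity
  have hq1 : q < 1 := by
    rw [hq]
    exact Real.rpow_lt_one_of_one_lt_of_neg (by norm_num) (by linarith)
  have hEr : ∀ r, volume (E r) ≤ ENNReal.ofReal (q ^ r) := by
    intro r
    by_cases hr : r0 ≤ r
    · have hYr := (hr0 r hr).1
      have h1 : E r = {x | ENNReal.ofReal ((XX r) ^ (2 * δ) * Y r) ≤ F r x} := by
        simp only [hE, if_pos hr]
      have h2 := (mul_meas_ge_le_lintegral₀ (hFm r)
        (ENNReal.ofReal ((XX r) ^ (2 * δ) * Y r))).trans (hFint r hr)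
      have hp1 : 0 < (XX r) ^ (2 * δ) * Y r := mul_pos (Real.rpow_pos_of_pos (hXX r) _) hYr
      have h3 : ENNReal.ofReal ((XX r) ^ δ * Y r) =
          ENNReal.ofReal ((XX r) ^ (2 * δ) * Y r) * ENNReal.ofReal (q ^ r) := by
        rw [← ENNReal.ofReal_mul hp1.le]
        congr 1
        have h4 : q ^ r = (XX r) ^ (-δ) := by
          rw [hq]
          unfold XX
          rw [← Real.rpow_natCast, ← Real.rpow_mul (by norm_num), ← Real.rpow_natCast,
            ← Real.rpow_mul (by norm_num)]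
          congr 1
          ring
        rw [h4]
        have h5 : (XX r) ^ (2 * δ) * (XX r) ^ (-δ) = (XX r) ^ δ := by
          rw [← Real.rpow_add (hXX r)]
          congr 1
          ring
        calc (XX r) ^ δ * Y r = ((XX r) ^ (2 * δ) * (XX r) ^ (-δ)) * Y r := by rw [h5]
          _ = _ := by ring
      rw [h3] at h2
      rw [h1]
      exact (ENNReal.mul_le_mul_iff_right (by simpa using hp1) ENNReal.ofReal_ne_top).1 h2
    · have h1 : E r = ∅ := by simp only [hE, if_neg hr]
      rw [h1, measure_empty]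
      exact bot_le
  have hsum : ∑' r, volume (E r) ≠ ⊤ := by
    refine ne_top_of_le_ne_top (b := ∑' r : ℕ, ENNReal.ofReal (q ^ r)) ?_
      (ENNReal.tsum_le_tsum hEr)
    rw [← ENNReal.ofReal_tsum_of_nonneg (fun r => by positivity)
      (summable_geometric_of_lt_one hq0.le hq1)]
    exact ENNReal.ofReal_ne_top
  filter_upwards [ae_eventually_notMem hsum] with x hx hxI
  filter_upwards [hx, eventually_ge_atTop r0] with r hr hrr
  have h1 : F r x < ENNReal.ofReal ((XX r) ^ (2 * δ) * Y r) := by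
    simp only [hE, if_pos hrr, Set.mem_ofPred_eq, not_le] at hr
    exact hr
  have h2 : F r x = ENNReal.ofReal (cn (S r) (fun i => |G i x| ≤ M)) := by
    simp only [hF, cn]
    rw [ENNReal.ofReal_natCast, Finset.card_filter]
    push_cast
    refine Finset.sum_congr rfl fun i _ => ?_
    by_cases hi : |G i x| ≤ M
    · rw [if_pos hi, Set.indicator_of_mem (show x ∈ A i from ⟨hxI, hi⟩)]
      rfl
    · rw [if_neg hi, Set.indicator_of_notMem (fun hm : x ∈ A i => hi hm.2)]
  rw [h2] at h1
  have h3 : 0 < (XX r) ^ (2 * δ) * Y r :=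
    mul_pos (Real.rpow_pos_of_pos (hXX r) _) (hr0 r hrr).1
  exact ((ENNReal.ofReal_lt_ofReal_iff h3).1 h1).le

end FWar
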