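import Pool.Agent.FWar.CountK
import Pool.Agent.FWar.Slab
import Pool.Agent.FWar.MixB

/-!
# FWar.AeK: few near coincidences for almost every coefficient vector

`k = n + 1`, `P = XX r`, `𝒲 = Wk n P`, `|𝒲| ≥ c P^k` for large `r` (`card_Wk_ge`).
For `p = (x, y) ∈ 𝒲²` put `Δ_j = pws j x - pws j y` (integers; `Δ_0 = 0`), and
`G_p(c) = ∑ i, hc c (x i) - ∑ i, hc c (y i) = Δ_k + ∑_{j : Fin k} Δ_j c_j` (continuous in `c`).

`avgK`: PROOF. `T ≥ 1`, `M ≥ 1` w.l.o.g. (the left side is monotone in `M`, `T`; replace `M` by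
`max M 1`, ...). Put `Q = {c : |c j| ≤ T}`, `vol Q = (2T)^k`. Let `D_p = max_{1 ≤ j ≤ n} |Δ_j|`
(an integer, `≤ C P^n`). If some `c ∈ Q` has `|G_p(c)| ≤ M` then `|Δ_k| ≤ M + k T D_p`.
* Pairs with `D_p = 0`: `|Δ_j| ≤ M` for all `1 ≤ j ≤ k`; by `countC` (with `β j = pws j x`) and
  `pairs_le_of` there are at most `|𝒲| C M` of them, each with volume at most `(2T)^k`.
* Pairs with `2^i ≤ D_p < 2^(i+1)`, `i < I := n r + O(1)`: `|Δ_j| ≤ B_i := (M + kT + 1) 2^(i+1)` for all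
  `1 ≤ j ≤ k`; at most `|𝒲| C B_i` pairs by `countC`; each has volume at most
  `2M/D_p (2T)^(k-1) ≤ 2M (2T)^(k-1)/2^i` by `slab` (with the `j` for which `|Δ_j| = D_p`).
  Contribution `≤ |𝒲| C (M+kT+1) 4 M (2T)^(k-1)`.
Total `≤ C' (1 + r) |𝒲| ≤ C'' (1 + r) |𝒲|²/P^k` since `|𝒲| ≥ c P^k`.

`aeK`: enough for natural `M = T`, `ε = 1/(T+1)` and `|c j| ≤ T` (countable intersection, monotone in
`M`, `ε`); `1 + r ≤ P^(ε/4)` for large `r`; `ae_of_avg_pi` with `S r = 𝒲 ×ˢ 𝒲`, `δ = ε/2` (or smaller),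
`Y r = |𝒲|²/P^k`.
-/

namespace FWar

open MWg Finset MeasureTheory Filter Topology

private theorem XX_rpow (r : ℕ) (δ : ℝ) : (XX r) ^ δ = ((2 : ℝ) ^ δ) ^ r := by
  unfold XX
  rw [← Real.rpow_natCast, ← Real.rpow_natCast, ← Real.rpow_mul (by norm_num),
    ← Real.rpow_mul (by norm_num), mul_comm]

private theorem lin_le (C : ℝ) (hC : 0 < C) {δ : ℝ} (hδ : 0 < δ) :
    ∀ᶠ r : ℕ in atTop, C * ((r : ℝ) + 1) ≤ (XX r) ^ δ := by
  have hb : (1 : ℝ) < (2 : ℝ) ^ δ := Real.one_lt_rpow (by norm_num) hδ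
  have h1 := tendsto_pow_const_div_const_pow_of_one_lt 1 hb
  have h2 : ∀ᶠ n : ℕ in atTop, (n : ℝ) ^ 1 / ((2 : ℝ) ^ δ) ^ n < 1 / (2 * C) :=
    h1.eventually_lt_const (by positivity)
  filter_upwards [h2, eventually_ge_atTop 1] with r hr hr1
  rw [XX_rpow]
  have hr2 : (1 : ℝ) ≤ r := by exact_mod_cast hr1
  have hp : 0 < ((2 : ℝ) ^ δ) ^ r := by positivity
  rw [pow_one, div_lt_div_iff₀ hp (by positivity)] at hr
  nlinarith

private theorem one_le_XX (r : ℕ) : 1 ≤ XX r := by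
  unfold XX
  exact one_le_pow₀ (by norm_num)

private theorem cube_vol (k : ℕ) {T : ℝ} (hT : 0 ≤ T) :
    volume {c : Fin k → ℝ | ∀ l, |c l| ≤ T} = ENNReal.ofReal ((2 * T) ^ k) := by
  have h1 : {c : Fin k → ℝ | ∀ l, |c l| ≤ T} = Metric.closedBall 0 T := by
    ext c
    simp [pi_norm_le_iff_of_nonneg hT]
  rw [h1, Real.volume_pi_closedBall _ hT, Fintype.card_fin]

private theorem vol_mono {k : ℕ} {A B : Set (Fin k → ℝ)} {T : ℝ} (hT : 0 ≤ T) (hAB : A ⊆ B)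
    (hB : B ⊆ {c : Fin k → ℝ | ∀ l, |c l| ≤ T}) : (volume A).toReal ≤ (volume B).toReal := by
  refine ENNReal.toReal_mono ?_ (measure_mono hAB)
  refine ((measure_mono hB).trans_lt ?_).ne
  rw [cube_vol k hT]
  exact ENNReal.ofReal_lt_top

private theorem hc_sum {n : ℕ} (c : Fin (n + 1) → ℝ) (x : Fin (n + 1) → ℕ) :
    ∑ i, hc c (x i) = pws (n + 1) x + ∑ l : Fin (n + 1), pws (l : ℕ) x * c l := by
  unfold hc pws
  rw [Finset.sum_add_distrib, Finset.sum_comm]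
  congr 1
  refine Finset.sum_congr rfl fun l _ => ?_
  rw [Finset.sum_mul]
  exact Finset.sum_congr rfl fun i _ => mul_comm _ _

private theorem hc_sub {n : ℕ} (c : Fin (n + 1) → ℝ) (x y : Fin (n + 1) → ℕ) :
    ∑ i, hc c (x i) - ∑ i, hc c (y i) = (pws (n + 1) x - pws (n + 1) y) +
      ∑ l : Fin (n + 1), (pws (l : ℕ) x - pws (l : ℕ) y) * c l := by
  rw [hc_sum, hc_sum]
  have : ∑ l : Fin (n + 1), (pws (l : ℕ) x - pws (l : ℕ) y) * c l =
      ∑ l : Fin (n + 1), pws (l : ℕ) x * c l - ∑ l : Fin (n + 1), pws (l : ℕ) y * c l := by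
    rw [← Finset.sum_sub_distrib]
    exact Finset.sum_congr rfl fun l _ => by ring
  rw [this]
  ring

private theorem pws_bound {n r : ℕ} {x : Fin (n + 1) → ℕ} (hx : x ∈ Wk n (XX r)) {j : ℕ}
    (hj : j ≤ n) : 0 ≤ pws j x ∧ pws j x ≤ (2 : ℝ) ^ (r * n + 5 * n + 1) := by
  unfold pws
  refine ⟨Finset.sum_nonneg fun i _ => by positivity, ?_⟩
  have hP := one_le_XX r
  have h1 : ∀ i ∈ (Finset.univ : Finset (Fin (n + 1))), (x i : ℝ) ^ j ≤ (16 * XX r) ^ n := by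
    intro i _
    have h2 := (Wk_le hP hx i).2
    calc (x i : ℝ) ^ j ≤ (16 * XX r) ^ j := pow_le_pow_left₀ (Nat.cast_nonneg _) h2 _
      _ ≤ (16 * XX r) ^ n := pow_le_pow_right₀ (by linarith) hj
  refine (Finset.sum_le_sum h1).trans ?_
  rw [Finset.sum_const, Finset.card_univ, Fintype.card_fin, nsmul_eq_mul]
  have h3 : ((n + 1 : ℕ) : ℝ) ≤ 2 ^ (n + 1) := by
    exact_mod_cast (Nat.lt_two_pow_self (n := n + 1)).le
  have h4 : (16 * XX r) ^ n = (2 : ℝ) ^ (r * n + 4 * n) := by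
    unfold XX
    rw [mul_pow, ← pow_mul, pow_add, pow_mul 2 4 n, mul_comm]
    norm_num
  rw [h4]
  calc ((n + 1 : ℕ) : ℝ) * 2 ^ (r * n + 4 * n) ≤ 2 ^ (n + 1) * 2 ^ (r * n + 4 * n) :=
        mul_le_mul_of_nonneg_right h3 (by positivity)
    _ = _ := by
        rw [← pow_add]
        congr 1
        ring

private theorem vol_pair {n r : ℕ} {T M : ℝ} (hT : 1 ≤ T) (hM : 1 ≤ M)
    {x y : Fin (n + 1) → ℕ} (hx : x ∈ Wk n (XX r)) (hy : y ∈ Wk n (XX r)) :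
    ∃ i < r * n + 5 * n + 2,
      (volume {c : Fin (n + 1) → ℝ | (∀ l, |c l| ≤ T) ∧
        |∑ i, hc c (x i) - ∑ i, hc c (y i)| ≤ M}).toReal ≤
        (2 * T) ^ (n + 1) * (1 + 2 * M) / 2 ^ i ∧
      (0 < (volume {c : Fin (n + 1) → ℝ | (∀ l, |c l| ≤ T) ∧
        |∑ i, hc c (x i) - ∑ i, hc c (y i)| ≤ M}).toReal →
        ∀ j ∈ Finset.Icc 1 (n + 1),
          |pws j y - pws j x| ≤ (M + (n + 1) * T + 1) * 2 ^ (i + 1)) := by
  obtain ⟨a, ha⟩ : ∃ a : ℝ, a = pws (n + 1) x - pws (n + 1) y := ⟨_, rfl⟩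
  obtain ⟨b, hb⟩ : ∃ b : Fin (n + 1) → ℝ, b = fun l : Fin (n + 1) =>
    pws (l : ℕ) x - pws (l : ℕ) y := ⟨_, rfl⟩
  have hset : {c : Fin (n + 1) → ℝ | (∀ l, |c l| ≤ T) ∧
        |∑ i, hc c (x i) - ∑ i, hc c (y i)| ≤ M} =
      {c : Fin (n + 1) → ℝ | (∀ l, |c l| ≤ T) ∧ |a + ∑ l, b l * c l| ≤ M} := by
    ext c
    simp only [Set.mem_ofPred_eq, hc_sub, ha, hb]
  rw [hset]
  obtain ⟨l0, -, hl0⟩ := Finset.exists_max_image (Finset.univ : Finset (Fin (n + 1)))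
    (fun l => |b l|) Finset.univ_nonempty
  obtain ⟨D, hD⟩ : ∃ D : ℝ, D = |b l0| := ⟨_, rfl⟩
  have hD0 : 0 ≤ D := by rw [hD]; exact abs_nonneg _
  have hbD : ∀ l, |b l| ≤ D := fun l => by rw [hD]; exact hl0 l (Finset.mem_univ _)
  have hn0 : (0 : ℝ) ≤ n := Nat.cast_nonneg n
  -- if the set has positive volume, `|a| ≤ M + (n+1) T D`
  have hkey : 0 < (volume {c : Fin (n + 1) → ℝ | (∀ l, |c l| ≤ T) ∧
      |a + ∑ l, b l * c l| ≤ M}).toReal → |a| ≤ M + (n + 1) * T * D := by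
    intro hpos
    have hne : ({c : Fin (n + 1) → ℝ | (∀ l, |c l| ≤ T) ∧
        |a + ∑ l, b l * c l| ≤ M}).Nonempty := by
      rw [Set.nonempty_iff_ne_empty]
      intro h0
      rw [h0, measure_empty] at hpos
      simp at hpos
    obtain ⟨c, hc1, hc2⟩ := hne
    have h1 : |∑ l, b l * c l| ≤ (n + 1) * T * D := by
      refine (Finset.abs_sum_le_sum_abs _ _).trans ?_
      have h2 : ∀ l ∈ (Finset.univ : Finset (Fin (n + 1))), |b l * c l| ≤ D * T := by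
        intro l _
        rw [abs_mul]
        exact mul_le_mul (hbD l) (hc1 l) (abs_nonneg _) hD0
      refine (Finset.sum_le_sum h2).trans (le_of_eq ?_)
      rw [Finset.sum_const, Finset.card_univ, Fintype.card_fin, nsmul_eq_mul]
      push_cast
      ring
    have h3 : a = (a + ∑ l, b l * c l) - ∑ l, b l * c l := by ring
    rw [h3]
    refine (abs_sub _ _).trans ?_
    linarith
  -- consequence for a level `i` with `D ≤ 2^(i+1)`
  have hlev : ∀ i : ℕ, D ≤ 2 ^ (i + 1) →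
      (0 < (volume {c : Fin (n + 1) → ℝ | (∀ l, |c l| ≤ T) ∧
      |a + ∑ l, b l * c l| ≤ M}).toReal → ∀ j ∈ Finset.Icc 1 (n + 1),
          |pws j y - pws j x| ≤ (M + (n + 1) * T + 1) * 2 ^ (i + 1)) := by
    intro i hi hpos j hj
    rw [Finset.mem_Icc] at hj
    have h2i : (1 : ℝ) ≤ 2 ^ (i + 1) := one_le_pow₀ (by norm_num)
    have hTn : 0 ≤ ((n : ℝ) + 1) * T := by positivity
    rw [abs_sub_comm]
    rcases Nat.lt_or_ge j (n + 1) with hjn | hjn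
    · have h1 := hbD ⟨j, hjn⟩
      simp only [hb] at h1
      refine h1.trans ?_
      nlinarith
    · have hj1 : j = n + 1 := by omega
      subst hj1
      rw [← ha]
      refine (hkey hpos).trans ?_
      have h3 : ((n : ℝ) + 1) * T * D ≤ ((n : ℝ) + 1) * T * 2 ^ (i + 1) :=
        mul_le_mul_of_nonneg_left hi hTn
      nlinarith
  rcases lt_or_ge D 1 with hD1 | hD1
  · refine ⟨0, by omega, ?_, hlev 0 (by norm_num; linarith)⟩
    have h1 : (volume {c : Fin (n + 1) → ℝ | (∀ l, |c l| ≤ T) ∧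
        |a + ∑ l, b l * c l| ≤ M}).toReal ≤
        (volume {c : Fin (n + 1) → ℝ | ∀ l, |c l| ≤ T}).toReal :=
      vol_mono (T := T) (by linarith) (fun c hc => hc.1) (fun c hc => hc)
    refine h1.trans ?_
    rw [cube_vol _ (by linarith), ENNReal.toReal_ofReal (by positivity), pow_zero, div_one]
    have h2 : (0 : ℝ) ≤ (2 * T) ^ (n + 1) := by positivity
    nlinarith
  · obtain ⟨i, hi1, hi2⟩ := exists_nat_pow_near hD1 (show (1 : ℝ) < 2 by norm_num)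
    refine ⟨i, ?_, ?_, hlev i hi2.le⟩
    · have h1 : D ≤ 2 ^ (r * n + 5 * n + 1) := by
        have hx1 := pws_bound hx (j := (l0 : ℕ)) (by have := l0.2; omega)
        have hy1 := pws_bound hy (j := (l0 : ℕ)) (by have := l0.2; omega)
        rw [hD, hb, abs_le]
        constructor
        · show _ ≤ pws (l0 : ℕ) x - pws (l0 : ℕ) y
          linarith [hx1.1, hy1.2]
        · show pws (l0 : ℕ) x - pws (l0 : ℕ) y ≤ _
          linarith [hx1.2, hy1.1]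
      have h2 : (2 : ℝ) ^ i ≤ 2 ^ (r * n + 5 * n + 1) := hi1.trans h1
      have h3 := (pow_le_pow_iff_right₀ (show (1 : ℝ) < 2 by norm_num)).1 h2
      omega
    · have hb0 : b l0 ≠ 0 := by
        intro h
        rw [h, abs_zero] at hD
        linarith
      have h1 := slab b a T M l0 (by linarith) (by linarith) hb0
      refine h1.trans ?_
      rw [← hD, Nat.add_sub_cancel]
      have h2 : 2 * M / D ≤ 2 * M / 2 ^ i :=
        div_le_div_of_nonneg_left (by linarith) (by positivity) hi1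
      have h3 : (2 * T) ^ n ≤ (2 * T) ^ (n + 1) := pow_le_pow_right₀ (by linarith) (by omega)
      calc 2 * M / D * (2 * T) ^ n ≤ 2 * M / 2 ^ i * (2 * T) ^ (n + 1) :=
            mul_le_mul h2 h3 (by positivity) (by positivity)
        _ = (2 * T) ^ (n + 1) * (2 * M) / 2 ^ i := by ring
        _ ≤ _ := by
            refine div_le_div_of_nonneg_right ?_ (by positivity)
            exact mul_le_mul_of_nonneg_left (by linarith) (by positivity)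

private theorem sum_bound {n r : ℕ} {T M C : ℝ} (hT : 1 ≤ T) (hM : 1 ≤ M)
    (hC : 0 < C) (hcount : ∀ P : ℝ, 1 ≤ P → ∀ B : ℝ, 1 ≤ B → ∀ β : ℕ → ℝ,
    cn (Wk n P) (fun x => ∀ j ∈ Finset.Icc 1 (n + 1), |pws j x - β j| ≤ B) ≤ C * B) :
    ∑ p ∈ Wk n (XX r) ×ˢ Wk n (XX r), (volume {c : Fin (n + 1) → ℝ | (∀ l, |c l| ≤ T) ∧
      |∑ i, hc c (p.1 i) - ∑ i, hc c (p.2 i)| ≤ M}).toReal ≤
      ((r * n + 5 * n + 2 : ℕ) : ℝ) * ((2 * T) ^ (n + 1) * (1 + 2 * M) *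
        (2 * C * (M + (n + 1) * T + 1))) * ((Wk n (XX r)).card : ℝ) := by
  classical
  obtain ⟨W, hW⟩ : ∃ W, W = Wk n (XX r) := ⟨_, rfl⟩
  obtain ⟨Q, hQ⟩ : ∃ Q : ℝ, Q = M + (n + 1) * T + 1 := ⟨_, rfl⟩
  obtain ⟨K, hK⟩ : ∃ K : ℝ, K = (2 * T) ^ (n + 1) * (1 + 2 * M) := ⟨_, rfl⟩
  have hn0 : (0 : ℝ) ≤ n := Nat.cast_nonneg n
  have hQ1 : 1 ≤ Q := by
    rw [hQ]
    have : 0 ≤ ((n : ℝ) + 1) * T := by positivity
    linarith
  have hK0 : 0 ≤ K := by rw [hK]; positivity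
  rw [← hK, ← hQ]
  have hpt : ∀ p ∈ Wk n (XX r) ×ˢ Wk n (XX r), (volume {c : Fin (n + 1) → ℝ |
      (∀ l, |c l| ≤ T) ∧ |∑ i, hc c (p.1 i) - ∑ i, hc c (p.2 i)| ≤ M}).toReal ≤
      ∑ i ∈ Finset.range (r * n + 5 * n + 2), K / 2 ^ i *
        (if (∀ j ∈ Finset.Icc 1 (n + 1), |pws j p.2 - pws j p.1| ≤ Q * 2 ^ (i + 1))
          then 1 else 0) := by
    intro p hp
    rw [Finset.mem_product] at hp
    obtain ⟨i, hi, h1, h2⟩ := vol_pair hT hM hp.1 hp.2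
    have hnn : ∀ i' ∈ Finset.range (r * n + 5 * n + 2), 0 ≤ K / 2 ^ i' *
        (if (∀ j ∈ Finset.Icc 1 (n + 1), |pws j p.2 - pws j p.1| ≤ Q * 2 ^ (i' + 1))
          then (1 : ℝ) else 0) := by
      intro i' _
      split_ifs
      · positivity
      · simp
    rcases (ENNReal.toReal_nonneg (a := volume {c : Fin (n + 1) → ℝ |
      (∀ l, |c l| ≤ T) ∧ |∑ i, hc c (p.1 i) - ∑ i, hc c (p.2 i)| ≤ M})).eq_or_lt with h3 | h3
    · rw [← h3]
      exact Finset.sum_nonneg hnn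
    · have h4 := h2 h3
      rw [← hQ] at h4
      rw [← hK] at h1
      refine h1.trans ?_
      have h5 := Finset.single_le_sum hnn (Finset.mem_range.2 hi)
      rw [if_pos h4, mul_one] at h5
      exact h5
  refine (Finset.sum_le_sum hpt).trans ?_
  rw [Finset.sum_comm]
  have hlev : ∀ i ∈ Finset.range (r * n + 5 * n + 2),
      ∑ p ∈ Wk n (XX r) ×ˢ Wk n (XX r), K / 2 ^ i *
        (if (∀ j ∈ Finset.Icc 1 (n + 1), |pws j p.2 - pws j p.1| ≤ Q * 2 ^ (i + 1))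
          then (1 : ℝ) else 0) ≤ K * (2 * C * Q) * ((Wk n (XX r)).card : ℝ) := by
    intro i _
    rw [← Finset.mul_sum]
    have h2i : (1 : ℝ) ≤ 2 ^ (i + 1) := one_le_pow₀ (by norm_num)
    have h1 : ∑ p ∈ Wk n (XX r) ×ˢ Wk n (XX r),
        (if (∀ j ∈ Finset.Icc 1 (n + 1), |pws j p.2 - pws j p.1| ≤ Q * 2 ^ (i + 1))
          then (1 : ℝ) else 0) ≤ ((Wk n (XX r)).card : ℝ) * (C * (Q * 2 ^ (i + 1))) := by
      have h2 := pairs_le_of (W := Wk n (XX r))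
        (R := fun w w' => ∀ j ∈ Finset.Icc 1 (n + 1), |pws j w' - pws j w| ≤ Q * 2 ^ (i + 1))
        (B := C * (Q * 2 ^ (i + 1))) (fun w _ =>
          hcount (XX r) (one_le_XX r) (Q * 2 ^ (i + 1)) (by nlinarith) (fun j => pws j w))
      refine le_trans (le_of_eq ?_) h2
      rw [pairs, Finset.card_filter, Nat.cast_sum]
      refine Finset.sum_congr rfl fun p _ => ?_
      by_cases hp : ∀ j ∈ Finset.Icc 1 (n + 1), |pws j p.2 - pws j p.1| ≤ Q * 2 ^ (i + 1)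
      · rw [if_pos hp, if_pos hp, Nat.cast_one]
      · rw [if_neg hp, if_neg hp, Nat.cast_zero]
    calc K / 2 ^ i * _ ≤ K / 2 ^ i * (((Wk n (XX r)).card : ℝ) * (C * (Q * 2 ^ (i + 1)))) :=
          mul_le_mul_of_nonneg_left h1 (by positivity)
      _ = _ := by
          rw [pow_succ]
          field_simp
  refine (Finset.sum_le_sum hlev).trans (le_of_eq ?_)
  rw [Finset.sum_const, Finset.card_range, nsmul_eq_mul]
  ring

theorem avgK (n : ℕ) (T M : ℝ) : ∃ C : ℝ, 0 < C ∧ ∀ᶠ r : ℕ in atTop,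
    ∑ p ∈ Wk n (XX r) ×ˢ Wk n (XX r), (volume {c : Fin (n + 1) → ℝ | (∀ l, |c l| ≤ T) ∧
      |∑ i, hc c (p.1 i) - ∑ i, hc c (p.2 i)| ≤ M}).toReal ≤
      C * (1 + r) * ((Wk n (XX r)).card : ℝ) ^ 2 / (XX r) ^ (n + 1) := by
  obtain ⟨C1, hC1, hcount⟩ := countC n
  obtain ⟨c, hc0, P0, hP0, hcard⟩ := card_Wk_ge n
  obtain ⟨T1, hT1d⟩ : ∃ T1 : ℝ, T1 = max T 1 := ⟨_, rfl⟩
  obtain ⟨M1, hM1d⟩ : ∃ M1 : ℝ, M1 = max M 1 := ⟨_, rfl⟩
  have hT1 : 1 ≤ T1 := by rw [hT1d]; exact le_max_right _ _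
  have hM1 : 1 ≤ M1 := by rw [hM1d]; exact le_max_right _ _
  have hTT : T ≤ T1 := by rw [hT1d]; exact le_max_left _ _
  have hMM : M ≤ M1 := by rw [hM1d]; exact le_max_left _ _
  have hn0 : (0 : ℝ) ≤ n := Nat.cast_nonneg n
  obtain ⟨E, hE⟩ : ∃ E : ℝ, E = (2 * T1) ^ (n + 1) * (1 + 2 * M1) *
        (2 * C1 * (M1 + (n + 1) * T1 + 1)) := ⟨_, rfl⟩
  have hE0 : 0 < E := by
    rw [hE]
    have : 0 ≤ ((n : ℝ) + 1) * T1 := by positivity
    have h2 : 0 < M1 + (n + 1) * T1 + 1 := by linarith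
    positivity
  refine ⟨(5 * n + 2) * E / c, by positivity, ?_⟩
  filter_upwards [XX_tendsto.eventually_ge_atTop P0] with r hr
  have h1 : ∑ p ∈ Wk n (XX r) ×ˢ Wk n (XX r), (volume {c : Fin (n + 1) → ℝ |
      (∀ l, |c l| ≤ T) ∧ |∑ i, hc c (p.1 i) - ∑ i, hc c (p.2 i)| ≤ M}).toReal ≤
      ∑ p ∈ Wk n (XX r) ×ˢ Wk n (XX r), (volume {c : Fin (n + 1) → ℝ |
      (∀ l, |c l| ≤ T1) ∧ |∑ i, hc c (p.1 i) - ∑ i, hc c (p.2 i)| ≤ M1}).toReal := by
    refine Finset.sum_le_sum fun p _ => ?_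
    exact vol_mono (T := T1) (by linarith)
      (fun c hc => ⟨fun l => (hc.1 l).trans hTT, hc.2.trans hMM⟩) (fun c hc => hc.1)
  have h2 := sum_bound (r := r) hT1 hM1 hC1 hcount
  rw [← hE] at h2
  refine (h1.trans h2).trans ?_
  have h3 := hcard (XX r) hr
  have hP0' := XX_pos r
  obtain ⟨m, hm⟩ : ∃ m : ℝ, m = ((Wk n (XX r)).card : ℝ) := ⟨_, rfl⟩
  rw [← hm] at h3 ⊢
  have hPk : 0 < (XX r) ^ (n + 1) := by positivity
  have hm0 : 0 ≤ m := le_trans (by positivity) h3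
  have hr0 : (0 : ℝ) ≤ r := Nat.cast_nonneg r
  have hI : ((r * n + 5 * n + 2 : ℕ) : ℝ) ≤ (5 * n + 2) * (1 + r) := by
    push_cast
    nlinarith [mul_nonneg hr0 hn0]
  rw [le_div_iff₀ hPk]
  have e1 : (5 * n + 2) * E / c * (1 + r) * m ^ 2 =
      ((5 * n + 2) * (1 + r)) * (E * m) * (m / c) := by
    field_simp
  rw [e1]
  have e2 : (XX r) ^ (n + 1) ≤ m / c := by
    rw [le_div_iff₀ hc0]
    linarith
  have e3 : ((r * n + 5 * n + 2 : ℕ) : ℝ) * E * m ≤ ((5 * n + 2) * (1 + r)) * (E * m) := by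
    rw [mul_assoc]
    exact mul_le_mul_of_nonneg_right hI (by positivity)
  exact mul_le_mul e3 e2 hPk.le (by positivity)

theorem aeK (n : ℕ) : ∀ᵐ c : Fin (n + 1) → ℝ, ∀ M ε : ℝ, 0 < ε → ∀ᶠ r : ℕ in atTop,
    pairs (Wk n (XX r)) (fun p => |∑ i, hc c (p.1 i) - ∑ i, hc c (p.2 i)| ≤ M) ≤
      (XX r) ^ ε * ((Wk n (XX r)).card : ℝ) ^ 2 / (XX r) ^ (n + 1) := by
  have h1 : ∀ m : ℕ, ∀ᵐ c : Fin (n + 1) → ℝ, (∀ l, |c l| ≤ (m : ℝ) + 1) →
      ∀ᶠ r : ℕ in atTop,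
        cn (Wk n (XX r) ×ˢ Wk n (XX r)) (fun p : (Fin (n + 1) → ℕ) × (Fin (n + 1) → ℕ) =>
          |∑ i, hc c (p.1 i) - ∑ i, hc c (p.2 i)| ≤ (m : ℝ) + 1) ≤
        (XX r) ^ (2 * (1 / (2 * ((m : ℝ) + 1)))) *
          (((Wk n (XX r)).card : ℝ) ^ 2 / (XX r) ^ (n + 1)) := by
    intro m
    have hm : (0 : ℝ) ≤ m := Nat.cast_nonneg m
    refine ae_of_avg_pi (ι := (Fin (n + 1) → ℕ) × (Fin (n + 1) → ℕ))
      (S := fun r => Wk n (XX r) ×ˢ Wk n (XX r))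
      (G := fun p c => ∑ i, hc c (p.1 i) - ∑ i, hc c (p.2 i))
      (T := (m : ℝ) + 1) (M := (m : ℝ) + 1)
      (Y := fun r => ((Wk n (XX r)).card : ℝ) ^ 2 / (XX r) ^ (n + 1))
      (by positivity) ?_ ?_ ?_
    · obtain ⟨c, hc0, P0, hP0, hcard⟩ := card_Wk_ge n
      filter_upwards [XX_tendsto.eventually_ge_atTop P0] with r hr
      have h2 := XX_pos r
      have h3 : 0 < ((Wk n (XX r)).card : ℝ) :=
        lt_of_lt_of_le (by positivity) (hcard (XX r) hr)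
      positivity
    · intro p
      unfold hc
      fun_prop
    · obtain ⟨C, hC, h2⟩ := avgK n ((m : ℝ) + 1) ((m : ℝ) + 1)
      have hδ : (0 : ℝ) < 1 / (2 * ((m : ℝ) + 1)) := by positivity
      filter_upwards [h2, lin_le C hC hδ] with r hr1 hr2
      refine hr1.trans ?_
      rw [mul_div_assoc]
      have hP0 := XX_pos r
      refine mul_le_mul_of_nonneg_right ?_ (by positivity)
      linarith
  have h2 := ae_all_iff.2 h1
  filter_upwards [h2] with c hcc M ε hε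
  obtain ⟨B, hB⟩ : ∃ B : ℝ, ∀ l, |c l| ≤ B := by
    refine ⟨∑ l, |c l|, fun l => ?_⟩
    exact Finset.single_le_sum (f := fun l => |c l|) (fun i _ => abs_nonneg _) (Finset.mem_univ l)
  obtain ⟨m, hm⟩ := exists_nat_ge (max (max B M) (1 / ε))
  have hm1 : B ≤ m := ((le_max_left _ _).trans (le_max_left _ _)).trans hm
  have hm2 : M ≤ m := ((le_max_right _ _).trans (le_max_left _ _)).trans hm
  have hm3 : 1 / ε ≤ m := (le_max_right _ _).trans hm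
  have hm0 : (0 : ℝ) ≤ m := Nat.cast_nonneg m
  filter_upwards [hcc m (fun l => by linarith [hB l])] with r hr
  rw [pairs_eq_cn]
  refine (cn_mono fun w _ hw => ?_).trans (hr.trans ?_)
  · exact hw.trans (by linarith)
  · have hP := one_le_XX r
    have hP0 := XX_pos r
    rw [mul_div_assoc]
    refine mul_le_mul_of_nonneg_right ?_ (by positivity)
    refine Real.rpow_le_rpow_of_exponent_le hP ?_
    have e1 : 2 * (1 / (2 * ((m : ℝ) + 1))) = 1 / ((m : ℝ) + 1) := by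
      field_simp
    rw [e1, div_le_iff₀ (by linarith)]
    rw [div_le_iff₀ hε] at hm3
    nlinarith

end FWar
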