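import Pool.Agent.FWar.Defs
import Pool.Agent.PolyMax.Basic

/-!
# FWar.LetV: a letter with Fejer weights, the integer part is harmless

PROOF. `y z = f z - 1/2`; `D z = ∑_{m < K} e(m y z)`; `om z = |D z|²/K ≥ 0`.
Expanding the square, `om z = ∑_{|m| < K} (1 - |m|/K) e(m y z)` (number of pairs `(a,b)` in `[0,K)²`
with `a - b = m` is `K - |m|`); one can also keep the double sum
`om z = (1/K) ∑_{a < K} ∑_{b < K} e((a - b) y z)`.

(1) `∑_z om z - |Z| = (1/K) ∑_{a ≠ b} ∑_z e((a-b) y z)`; there are at most `K²` pairs, and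
`|∑_z e((a-b) y z)| = |∑_z e((a-b) f z)| ≤ U` for `a ≠ b`, since `Θ ≤ 1/2 ≤ |a-b| ≤ K`
(`e((a-b)(f z - 1/2)) = e(-(a-b)/2) e((a-b) f z)`). So `|∑ om z - |Z|| ≤ K U`.

(2) For `Θ ≤ |θ| ≤ 1/2`:
`∑_z om z e(θ y z) = (1/K) ∑_{a,b} e(-(θ+a-b)/2) ∑_z e((θ + a - b) f z)` and
`Θ ≤ |θ + a - b| ≤ K` (for `a = b` it is `|θ|`; for `a ≠ b` it is between `1/2` and `K - 1 + 1/2`),
so `|∑_z om z e(θ y z)| ≤ K U`.

(3) `|e(θ ⌊f z⌋) - e(θ y z)| ≤ 2π |θ| |f z - 1/2 - ⌊f z⌋| ≤ π δ`, where `δ = |fract (f z) - 1/2|`.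
`|D z| ≤ 1/(2 dist(y z, ℤ))` and `dist(y z, ℤ) = δ` since `y z = ⌊f z⌋ + (fract (f z) - 1/2)`,
`|fract - 1/2| ≤ 1/2`; more precisely `|D z| δ ≤ 1/2`: `|D z| |e(y z) - 1| = |e(K y z) - 1| ≤ 2` and
`|e(y z) - 1| = 2 |sin (π (y z))| = 2 sin (π δ) ≥ 4 δ`. Hence `om z δ² ≤ 1/(4K)`.
By Cauchy-Schwarz
`∑_z om z δ ≤ (∑ om z)^(1/2) (∑ om z δ²)^(1/2) ≤ (∑ om z)^(1/2) (|Z|/(4K))^(1/2)`.
So `|∑ om z e(θ ⌊f z⌋) - ∑ om z e(θ y z)| ≤ π ∑ om z δ ≤ (π/2) sqrt((∑ om z) |Z|/K)`.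
(`geom_bound` in `Pool/Agent/PolyMax/Geo.lean` or `Basic.lean` may help for `|D z| dz ≤ 1/2`.)
-/

namespace FWar

open MWg Finset
open Pool.PolyMax (e dz)

private lemma LetV_sq (K : ℕ) (y : ℝ) :
    (((‖∑ m ∈ range K, e ((m : ℝ) * y)‖ ^ 2 : ℝ)) : ℂ) =
      ∑ a ∈ range K, ∑ b ∈ range K, e (((a : ℝ) - b) * y) := by
  have h1 : (((‖∑ m ∈ range K, e ((m : ℝ) * y)‖ ^ 2 : ℝ)) : ℂ) =
      (∑ m ∈ range K, e ((m : ℝ) * y)) * (starRingEnd ℂ) (∑ m ∈ range K, e ((m : ℝ) * y)) := by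
    rw [Complex.mul_conj, Complex.normSq_eq_norm_sq]
  rw [h1, map_sum, Finset.sum_mul]
  refine Finset.sum_congr rfl fun a _ => ?_
  rw [Finset.mul_sum]
  refine Finset.sum_congr rfl fun b _ => ?_
  rw [← Pool.PolyMax.e_neg, ← Pool.PolyMax.e_add]
  congr 1
  ring

/-- The weighted exponential sum, expanded. -/
private lemma LetV_expand (f : ℕ → ℝ) (Z : Finset ℕ) {K : ℕ} (hK : 1 ≤ K) (t : ℝ) :
    ∑ z ∈ Z, (((‖∑ m ∈ range K, e ((m : ℝ) * (f z - 1 / 2))‖ ^ 2 / (K : ℝ) : ℝ)) : ℂ) *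
        e (t * (f z - 1 / 2)) =
      (∑ a ∈ range K, ∑ b ∈ range K, e (-((t + ((a : ℝ) - b)) / 2)) *
        ∑ z ∈ Z, e ((t + ((a : ℝ) - b)) * f z)) / (K : ℂ) := by
  have hK0 : (K : ℂ) ≠ 0 := by
    have : K ≠ 0 := by omega
    exact_mod_cast this
  rw [eq_div_iff hK0, Finset.sum_mul]
  have h1 : ∀ z ∈ Z, (((‖∑ m ∈ range K, e ((m : ℝ) * (f z - 1 / 2))‖ ^ 2 / (K : ℝ) : ℝ)) : ℂ) *
        e (t * (f z - 1 / 2)) * (K : ℂ) =
      ∑ a ∈ range K, ∑ b ∈ range K, e (-((t + ((a : ℝ) - b)) / 2)) *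
        e ((t + ((a : ℝ) - b)) * f z) := by
    intro z _
    have h2 : (((‖∑ m ∈ range K, e ((m : ℝ) * (f z - 1 / 2))‖ ^ 2 / (K : ℝ) : ℝ)) : ℂ) =
        (∑ a ∈ range K, ∑ b ∈ range K, e (((a : ℝ) - b) * (f z - 1 / 2))) / (K : ℂ) := by
      rw [Complex.ofReal_div, LetV_sq]
      simp
    rw [h2, div_mul_eq_mul_div, div_mul_cancel₀ _ hK0, Finset.sum_mul]
    refine Finset.sum_congr rfl fun a _ => ?_
    rw [Finset.sum_mul]
    refine Finset.sum_congr rfl fun b _ => ?_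
    rw [← Pool.PolyMax.e_add, ← Pool.PolyMax.e_add]
    congr 1
    ring
  rw [Finset.sum_congr rfl h1, Finset.sum_comm]
  refine Finset.sum_congr rfl fun a _ => ?_
  rw [Finset.sum_comm]
  refine Finset.sum_congr rfl fun b _ => ?_
  rw [Finset.mul_sum]

private lemma LetV_diff {K : ℕ} {a b : ℕ} (ha : a ∈ range K) (hb : b ∈ range K) :
    |(a : ℝ) - b| ≤ (K : ℝ) - 1 := by
  rw [mem_range] at ha hb
  have h1 : (a : ℝ) + 1 ≤ K := by exact_mod_cast ha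
  have h2 : (b : ℝ) + 1 ≤ K := by exact_mod_cast hb
  have h3 : (0 : ℝ) ≤ a := Nat.cast_nonneg a
  have h4 : (0 : ℝ) ≤ b := Nat.cast_nonneg b
  rw [abs_le]
  constructor <;> linarith

private lemma LetV_diff_ge {a b : ℕ} (hab : a ≠ b) : 1 ≤ |(a : ℝ) - b| := by
  have h : (1 : ℤ) ≤ |(a : ℤ) - b| := Int.one_le_abs (by omega)
  have h2 : ((1 : ℤ) : ℝ) ≤ ((|(a : ℤ) - b| : ℤ) : ℝ) := by exact_mod_cast h
  rw [Int.cast_abs] at h2
  push_cast at h2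
  exact h2

private lemma LetV_term {f : ℕ → ℝ} {Z : Finset ℕ} {K : ℕ} {U Θ : ℝ} (hK : 1 ≤ K)
    (hΘ : Θ ≤ 1 / 2)
    (hU : ∀ θ : ℝ, Θ ≤ |θ| → |θ| ≤ K → ‖∑ z ∈ Z, e (θ * f z)‖ ≤ U)
    {t : ℝ} (ht : |t| ≤ 1 / 2) {a b : ℕ} (ha : a ∈ range K) (hb : b ∈ range K)
    (hab : a ≠ b ∨ Θ ≤ |t|) :
    ‖e (-((t + ((a : ℝ) - b)) / 2)) * ∑ z ∈ Z, e ((t + ((a : ℝ) - b)) * f z)‖ ≤ U := by
  rw [norm_mul, Pool.PolyMax.norm_e, one_mul]
  have hKr : (1 : ℝ) ≤ K := by exact_mod_cast hK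
  have h1 := LetV_diff ha hb
  apply hU
  · by_cases h : a = b
    · subst h
      rcases hab with hab | hab
      · exact absurd rfl hab
      · simpa using hab
    · have h2 := LetV_diff_ge h
      have h3 : |(a : ℝ) - b| ≤ |t + ((a : ℝ) - b)| + |t| := by
        have h4 : (a : ℝ) - b = (t + ((a : ℝ) - b)) - t := by ring
        calc |(a : ℝ) - b| = |(t + ((a : ℝ) - b)) - t| := by rw [← h4]
          _ ≤ _ := abs_sub _ _
      linarith
  · have h3 : |t + ((a : ℝ) - b)| ≤ |t| + |(a : ℝ) - b| := abs_add_le _ _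
    linarith

private lemma LetV_delta (x : ℝ) : |x - 1 / 2 - ((⌊x⌋ : ℤ) : ℝ)| = dz (x - 1 / 2) := by
  have h1 : x - 1 / 2 - ((⌊x⌋ : ℤ) : ℝ) = Int.fract x - 1 / 2 := by
    unfold Int.fract
    ring
  have h2 : dz (x - 1 / 2) = dz (Int.fract x - 1 / 2) := by
    apply Pool.PolyMax.dz_congr (k := ⌊x⌋)
    unfold Int.fract
    ring
  have h3 : |Int.fract x - 1 / 2| ≤ 1 / 2 := by
    have h4 := Int.fract_nonneg x
    have h5 := (Int.fract_lt_one x).le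
    rw [abs_le]
    constructor <;> linarith
  rw [h2, Pool.PolyMax.dz_eq_abs h3, h1]

theorem letV {f : ℕ → ℝ} {Z : Finset ℕ} {K : ℕ} {U Θ : ℝ} (hK : 1 ≤ K) (hU0 : 0 ≤ U)
    (hΘ : Θ ≤ 1 / 2)
    (hU : ∀ θ : ℝ, Θ ≤ |θ| → |θ| ≤ K → ‖∑ z ∈ Z, e (θ * f z)‖ ≤ U) :
    ∃ om : ℕ → ℝ, (∀ z, 0 ≤ om z) ∧ |(∑ z ∈ Z, om z) - (Z.card : ℝ)| ≤ K * U ∧
      ∀ θ : ℝ, Θ ≤ |θ| → |θ| ≤ 1 / 2 →
        ‖∑ z ∈ Z, (om z : ℂ) * e (θ * ((⌊f z⌋ : ℤ) : ℝ))‖ ≤
          K * U + 2 * Real.sqrt ((∑ z ∈ Z, om z) * (Z.card : ℝ) / K) := by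
  classical
  have hKr : (1 : ℝ) ≤ K := by exact_mod_cast hK
  have hK0 : (0 : ℝ) < K := by linarith
  have hKc : ‖(K : ℂ)‖ = (K : ℝ) := by simp
  set om : ℕ → ℝ := fun z => ‖∑ m ∈ range K, e ((m : ℝ) * (f z - 1 / 2))‖ ^ 2 / (K : ℝ) with hom
  have hom0 : ∀ z, 0 ≤ om z := fun z => by
    simp only [hom]
    positivity
  have hcard : ((range K).card : ℝ) = K := by simp
  refine ⟨om, hom0, ?_, ?_⟩
  · -- the total weight
    have h1 := LetV_expand f Z hK 0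
    have h2 : ((((∑ z ∈ Z, om z) - (Z.card : ℝ) : ℝ)) : ℂ) =
        (∑ a ∈ range K, ∑ b ∈ range K, (if a = b then 0 else e (-((0 + ((a : ℝ) - b)) / 2)) *
          ∑ z ∈ Z, e ((0 + ((a : ℝ) - b)) * f z))) / (K : ℂ) := by
      have h3 : ∑ z ∈ Z, ((om z : ℝ) : ℂ) = (∑ a ∈ range K, ∑ b ∈ range K,
          e (-((0 + ((a : ℝ) - b)) / 2)) * ∑ z ∈ Z, e ((0 + ((a : ℝ) - b)) * f z)) / (K : ℂ) := by
        rw [← h1]
        refine Finset.sum_congr rfl fun z _ => ?_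
        rw [zero_mul, Pool.PolyMax.e_zero, mul_one]
      have h4 : ∑ a ∈ range K, ∑ b ∈ range K, e (-((0 + ((a : ℝ) - b)) / 2)) *
            ∑ z ∈ Z, e ((0 + ((a : ℝ) - b)) * f z) =
          (∑ a ∈ range K, ∑ b ∈ range K, (if a = b then 0 else e (-((0 + ((a : ℝ) - b)) / 2)) *
            ∑ z ∈ Z, e ((0 + ((a : ℝ) - b)) * f z))) + (K : ℂ) * (Z.card : ℂ) := by
        have h5 : (K : ℂ) * (Z.card : ℂ) = ∑ a ∈ range K, ∑ b ∈ range K,
            (if a = b then (Z.card : ℂ) else 0) := by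
          have h6 : ∀ a ∈ range K, ∑ b ∈ range K, (if a = b then (Z.card : ℂ) else 0) =
              (Z.card : ℂ) := by
            intro a ha
            rw [Finset.sum_ite_eq, if_pos ha]
          rw [Finset.sum_congr rfl h6, Finset.sum_const, card_range, nsmul_eq_mul]
        rw [h5, ← Finset.sum_add_distrib]
        refine Finset.sum_congr rfl fun a _ => ?_
        rw [← Finset.sum_add_distrib]
        refine Finset.sum_congr rfl fun b _ => ?_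
        by_cases hab : a = b
        · subst hab
          simp [Pool.PolyMax.e_zero]
        · simp [hab]
      have hKc0 : (K : ℂ) ≠ 0 := by
        have : K ≠ 0 := by omega
        exact_mod_cast this
      rw [Complex.ofReal_sub, Complex.ofReal_sum, h3, h4, add_div, mul_div_cancel_left₀ _ hKc0]
      simp
    have h3 : |(∑ z ∈ Z, om z) - (Z.card : ℝ)| =
        ‖((((∑ z ∈ Z, om z) - (Z.card : ℝ) : ℝ)) : ℂ)‖ := by
      rw [Complex.norm_real, Real.norm_eq_abs]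
    rw [h3, h2, norm_div, hKc, div_le_iff₀ hK0]
    calc ‖∑ a ∈ range K, ∑ b ∈ range K, (if a = b then 0 else e (-((0 + ((a : ℝ) - b)) / 2)) *
          ∑ z ∈ Z, e ((0 + ((a : ℝ) - b)) * f z))‖
        ≤ ∑ a ∈ range K, ∑ b ∈ range K, U := by
          refine (norm_sum_le _ _).trans (Finset.sum_le_sum fun a ha => ?_)
          refine (norm_sum_le _ _).trans (Finset.sum_le_sum fun b hb => ?_)
          by_cases hab : a = b
          · simp [hab, hU0]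
          · rw [if_neg hab]
            exact LetV_term hK hΘ hU (by simp) ha hb (Or.inl hab)
      _ = K * U * K := by
          simp only [Finset.sum_const, card_range, nsmul_eq_mul]
          ring
  · intro θ hθ1 hθ2
    have h1 := LetV_expand f Z hK θ
    have h2 : ‖∑ z ∈ Z, (om z : ℂ) * e (θ * (f z - 1 / 2))‖ ≤ K * U := by
      have h3 : ∑ z ∈ Z, (om z : ℂ) * e (θ * (f z - 1 / 2)) = _ := h1
      rw [h3, norm_div, hKc, div_le_iff₀ hK0]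
      calc ‖∑ a ∈ range K, ∑ b ∈ range K, e (-((θ + ((a : ℝ) - b)) / 2)) *
            ∑ z ∈ Z, e ((θ + ((a : ℝ) - b)) * f z)‖
          ≤ ∑ a ∈ range K, ∑ b ∈ range K, U := by
            refine (norm_sum_le _ _).trans (Finset.sum_le_sum fun a ha => ?_)
            refine (norm_sum_le _ _).trans (Finset.sum_le_sum fun b hb => ?_)
            exact LetV_term hK hΘ hU hθ2 ha hb (Or.inr hθ1)
        _ = K * U * K := by
            simp only [Finset.sum_const, card_range, nsmul_eq_mul]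
            ring
    -- the integer part
    have h3 : ‖∑ z ∈ Z, (om z : ℂ) * e (θ * ((⌊f z⌋ : ℤ) : ℝ)) -
        ∑ z ∈ Z, (om z : ℂ) * e (θ * (f z - 1 / 2))‖ ≤
        ∑ z ∈ Z, Real.pi * (om z * dz (f z - 1 / 2)) := by
      rw [← Finset.sum_sub_distrib]
      refine (norm_sum_le _ _).trans (Finset.sum_le_sum fun z _ => ?_)
      rw [← mul_sub, norm_mul, Complex.norm_real, Real.norm_eq_abs, abs_of_nonneg (hom0 z)]
      have h4 := Pool.PolyMax.norm_e_sub_e_le (θ * ((⌊f z⌋ : ℤ) : ℝ)) (θ * (f z - 1 / 2))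
      have h5 : |θ * ((⌊f z⌋ : ℤ) : ℝ) - θ * (f z - 1 / 2)| = |θ| * dz (f z - 1 / 2) := by
        rw [← mul_sub, abs_mul, ← LetV_delta (f z), abs_sub_comm]
      rw [h5] at h4
      have h6 : 2 * Real.pi * (|θ| * dz (f z - 1 / 2)) ≤ Real.pi * dz (f z - 1 / 2) := by
        have h7 := Pool.PolyMax.dz_nonneg (f z - 1 / 2)
        have h8 : |θ| * dz (f z - 1 / 2) ≤ 1 / 2 * dz (f z - 1 / 2) :=
          mul_le_mul_of_nonneg_right hθ2 h7
        nlinarith [Real.pi_pos]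
      calc om z * ‖e (θ * ((⌊f z⌋ : ℤ) : ℝ)) - e (θ * (f z - 1 / 2))‖
          ≤ om z * (Real.pi * dz (f z - 1 / 2)) :=
            mul_le_mul_of_nonneg_left (h4.trans h6) (hom0 z)
        _ = Real.pi * (om z * dz (f z - 1 / 2)) := by ring
    have h4 : ∀ z, om z * dz (f z - 1 / 2) ^ 2 ≤ 1 / (4 * K) := by
      intro z
      have h5 := Pool.PolyMax.geom_bound (f z - 1 / 2) K
      have h6 := Pool.PolyMax.dz_nonneg (f z - 1 / 2)
      have h7 : 0 ≤ ‖∑ m ∈ range K, e ((m : ℝ) * (f z - 1 / 2))‖ := norm_nonneg _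
      have h8 : (‖∑ m ∈ range K, e ((m : ℝ) * (f z - 1 / 2))‖ * (2 * dz (f z - 1 / 2))) ^ 2 ≤ 1 := by
        have h9 : 0 ≤ ‖∑ m ∈ range K, e ((m : ℝ) * (f z - 1 / 2))‖ * (2 * dz (f z - 1 / 2)) := by
          positivity
        nlinarith
      have h10 : om z * dz (f z - 1 / 2) ^ 2 =
          (‖∑ m ∈ range K, e ((m : ℝ) * (f z - 1 / 2))‖ * (2 * dz (f z - 1 / 2))) ^ 2 /
            (4 * K) := by
        have h11 : ∀ N d : ℝ, N ^ 2 / (K : ℝ) * d ^ 2 = (N * (2 * d)) ^ 2 / (4 * K) := by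
          intro N d
          have hK1 : (K : ℝ) ≠ 0 := hK0.ne'
          rw [div_mul_eq_mul_div, div_eq_div_iff hK1 (by positivity)]
          ring
        exact h11 _ _
      rw [h10]
      exact div_le_div_of_nonneg_right h8 (by positivity)
    have h5 : (∑ z ∈ Z, om z * dz (f z - 1 / 2)) ^ 2 ≤
        (∑ z ∈ Z, om z) * ((Z.card : ℝ) * (1 / (4 * K))) := by
      have h6 := Finset.sum_mul_sq_le_sq_mul_sq Z (fun z => Real.sqrt (om z))
        (fun z => Real.sqrt (om z) * dz (f z - 1 / 2))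
      have h7 : ∀ z, Real.sqrt (om z) * (Real.sqrt (om z) * dz (f z - 1 / 2)) =
          om z * dz (f z - 1 / 2) := by
        intro z
        rw [← mul_assoc, Real.mul_self_sqrt (hom0 z)]
      have h8 : ∀ z, Real.sqrt (om z) ^ 2 = om z := fun z => Real.sq_sqrt (hom0 z)
      have h9 : ∀ z, (Real.sqrt (om z) * dz (f z - 1 / 2)) ^ 2 = om z * dz (f z - 1 / 2) ^ 2 := by
        intro z
        rw [mul_pow, h8]
      simp only [h7, h8, h9] at h6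
      refine h6.trans (mul_le_mul_of_nonneg_left ?_ (Finset.sum_nonneg fun z _ => hom0 z))
      calc ∑ z ∈ Z, om z * dz (f z - 1 / 2) ^ 2 ≤ ∑ z ∈ Z, 1 / (4 * (K : ℝ)) :=
            Finset.sum_le_sum fun z _ => h4 z
        _ = (Z.card : ℝ) * (1 / (4 * K)) := by rw [Finset.sum_const, nsmul_eq_mul]
    have hS0 : 0 ≤ ∑ z ∈ Z, om z * dz (f z - 1 / 2) :=
      Finset.sum_nonneg fun z _ => mul_nonneg (hom0 z) (Pool.PolyMax.dz_nonneg _)
    have h6 : ∑ z ∈ Z, om z * dz (f z - 1 / 2) ≤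
        1 / 2 * Real.sqrt ((∑ z ∈ Z, om z) * (Z.card : ℝ) / K) := by
      have h7 : 0 ≤ (∑ z ∈ Z, om z) * (Z.card : ℝ) / K :=
        div_nonneg (mul_nonneg (Finset.sum_nonneg fun z _ => hom0 z) (Nat.cast_nonneg _)) hK0.le
      apply le_of_sq_le_sq _ (by positivity)
      rw [mul_pow, Real.sq_sqrt h7]
      refine h5.trans (le_of_eq ?_)
      field_simp
      ring
    have h7 : ∑ z ∈ Z, Real.pi * (om z * dz (f z - 1 / 2)) ≤
        2 * Real.sqrt ((∑ z ∈ Z, om z) * (Z.card : ℝ) / K) := by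
      rw [← Finset.mul_sum]
      have h8 := Real.pi_lt_four
      have h9 : 0 ≤ Real.sqrt ((∑ z ∈ Z, om z) * (Z.card : ℝ) / K) := Real.sqrt_nonneg _
      calc Real.pi * ∑ z ∈ Z, om z * dz (f z - 1 / 2)
          ≤ 4 * ∑ z ∈ Z, om z * dz (f z - 1 / 2) := mul_le_mul_of_nonneg_right h8.le hS0
        _ ≤ 2 * Real.sqrt ((∑ z ∈ Z, om z) * (Z.card : ℝ) / K) := by linarith
    have h8 : ∑ z ∈ Z, (om z : ℂ) * e (θ * ((⌊f z⌋ : ℤ) : ℝ)) =
        (∑ z ∈ Z, (om z : ℂ) * e (θ * (f z - 1 / 2))) +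
        (∑ z ∈ Z, (om z : ℂ) * e (θ * ((⌊f z⌋ : ℤ) : ℝ)) -
          ∑ z ∈ Z, (om z : ℂ) * e (θ * (f z - 1 / 2))) := by ring
    rw [h8]
    refine (norm_add_le _ _).trans ?_
    exact add_le_add h2 (h3.trans h7)

end FWar
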