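import Pool.Agent.FWar.Defs
import Pool.Agent.MWg.Tools

/-!
# FWar.MainT: the main term on a long window

`P = XX r = 2^r`. PROOF. Let `C`, `x0` be such that `0 ≤ f(x+1) - f x ≤ C x^(κ-1)` for `x ≥ x0`
(`C > 0` w.l.o.g.). All inequalities below hold for `r` large.
* letters `x ∈ (P/8, P/4]`: `0 ≤ f x ≤ 2 α x^κ ≤ 2 α P^κ 4^(-κ) ≤ α P^κ/4` (as `4^κ ≥ 8`);
* `ũ ∈ (P, 2P]`: `0 ≤ f ũ ≤ (5/4) α 2^κ P^κ`;
* `|rs f w| ≤ α P^κ/4` and `|rs f w - fs f w| ≤ d` for `w ∈ W r`.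
Fix `z, z' ∈ J1 P`, `w, w̃ ∈ W r`, `ũ ∈ (P, 2P]` and put
`y = N - (fs w + ⌊f z⌋ + ⌊f ũ⌋ + fs w̃ + ⌊f z'⌋) ∈ ℤ`. Then
`y ≥ α P^κ (4^κ - (5/4) 2^κ - 1) - 2d ≥ (5/4) α P^κ + H + 1` and
`y ≤ α P^κ (8^κ + 1/2) + 2d + 3 ≤ (3/4) α 16^κ P^κ - H - 1` for large `P`
(for `κ ≥ 3/2`, `t = 2^κ ≥ 2.8`: `t² - (5/4) t - 1 ≥ 3.3` and `(3/4) t⁴ ≥ t³ + 2`;
`H ≤ P^(κ-1/2) = o(P^κ)`). Hence `f(P+1) ≤ y` and `f(16P) > y + H`.
CLAIM: the number of `u ∈ mainI P = (P, 16P]` with `|⌊f u⌋ - y| ≤ H` is at least `H/(2 s)`, where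
`s = C 16^|κ-1| P^(κ-1)` bounds the increments of `f` on `[P, 16P]`. Indeed let `u0` be the largest
`u ∈ [P+1, 16P]` with `f u ≤ y`. By monotonicity (for `x ≥ P ≥ x0`) `f u > y` for `u0 < u ≤ 16P`.
Let `m = ⌊(H-1)/s⌋`. For `1 ≤ i ≤ m`: by induction `u0 + i ≤ 16P` and
`f(u0+i) ≤ f u0 + i s ≤ y + H - 1 < f(16P)`, so `u0 + i < 16P`. So the `m` numbers `u0 + 1, ..., u0 + m`
are in `mainI P` and `y < f(u0+i) ≤ y + H - 1`, hence `y ≤ ⌊f(u0+i)⌋ ≤ y + H`. Since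
`H/s ≥ P^(1/4)/C' → ∞`, `m ≥ (H-1)/s - 1 ≥ H/(2s)`.
SUMMATION: for fixed `z, z'` the number of pairs is at least
`∑_{w, w̃ ∈ W r} ∑_{ũ ∈ (P,2P]} H/(2s) = |W r|² P H/(2s)` (there are exactly `P = 2^r` naturals `ũ` in
`(P, 2P]`, they are in `mainI P`). As `|mainI P| = 15 P`, `2H + 1 ≤ 3H`, `s = C'' P^(κ-1)`, this is
`≥ c (2H+1) (15 P)² |W r|²/P^κ` with `c = 1/(2 C'' · 3 · 225)`. Multiply with `om z om z' ≥ 0` and
sum.
-/

namespace FWar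

open MWg Finset Filter Topology

private theorem count_lemma (f : ℕ → ℝ) (P : ℕ) (s : ℝ) (hs : 0 < s) (hP : 0 < P)
    (hinc : ∀ x, P ≤ x → x < 16 * P → 0 ≤ f (x + 1) - f x ∧ f (x + 1) - f x ≤ s) (y : ℤ) (H : ℕ)
    (h1 : f P ≤ y) (h2 : (y : ℝ) + H < f (16 * P)) (hH : 2 * s ≤ H) :
    (H : ℝ) / (2 * s) ≤
      (((Finset.Ioc P (16 * P)).filter fun u => |⌊f u⌋ - y| ≤ (H : ℤ)).card : ℝ) := by
  classical
  have hex1 : ∃ u, P < u ∧ (y : ℝ) + H < f u := ⟨16 * P, by omega, h2⟩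
  have hHnn : (0 : ℝ) ≤ H := Nat.cast_nonneg H
  have hex0 : ∃ u, P < u ∧ (y : ℝ) ≤ f u := ⟨16 * P, by omega, by linarith⟩
  obtain ⟨hu1a, hu1b⟩ := Nat.find_spec hex1
  obtain ⟨hu0a, hu0b⟩ := Nat.find_spec hex0
  have hmin1 : ∀ u, P < u → u < Nat.find hex1 → f u ≤ (y : ℝ) + H := by
    intro u hu hlt
    by_contra hc
    exact Nat.find_min hex1 hlt ⟨hu, lt_of_not_ge hc⟩
  have hmin0 : ∀ u, P < u → u < Nat.find hex0 → f u < (y : ℝ) := by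
    intro u hu hlt
    by_contra hc
    exact Nat.find_min hex0 hlt ⟨hu, le_of_not_gt hc⟩
  have hle1 : Nat.find hex1 ≤ 16 * P := Nat.find_min' hex1 ⟨by omega, h2⟩
  have h01 : Nat.find hex0 ≤ Nat.find hex1 :=
    Nat.find_min' hex0 ⟨hu1a, by linarith⟩
  set u0 := Nat.find hex0 with hu0
  set u1 := Nat.find hex1 with hu1
  have hf0 : f u0 ≤ y + s := by
    obtain ⟨v, hv⟩ : ∃ v, u0 = v + 1 := ⟨u0 - 1, by omega⟩
    have hPv : P ≤ v := by omega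
    have hfv : f v ≤ y := by
      rcases Nat.eq_or_lt_of_le hPv with h | h
      · rw [← h]; exact h1
      · exact (hmin0 v h (by omega)).le
    have := (hinc v hPv (by omega)).2
    rw [hv]
    linarith
  have hstep : ∀ k, u0 + k ≤ 16 * P → f u0 ≤ f (u0 + k) ∧ f (u0 + k) ≤ f u0 + k * s := by
    intro k
    induction k with
    | zero => intro _; simp
    | succ k ih =>
      intro hk
      have h3 := ih (by omega)
      have h4 := hinc (u0 + k) (by omega) (by omega)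
      rw [show u0 + (k + 1) = u0 + k + 1 by ring]
      push_cast
      constructor
      · linarith [h3.1, h4.1]
      · linarith [h3.2, h4.2]
  have hlen : (H : ℝ) / s - 1 ≤ ((u1 - u0 : ℕ) : ℝ) := by
    have h3 := (hstep (u1 - u0) (by omega)).2
    rw [show u0 + (u1 - u0) = u1 by omega] at h3
    have h5 : (H : ℝ) ≤ (((u1 - u0 : ℕ) : ℝ) + 1) * s := by linarith
    have h6 : (H : ℝ) / s ≤ ((u1 - u0 : ℕ) : ℝ) + 1 := by
      rw [div_le_iff₀ hs]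
      exact h5
    linarith
  have hsub : Finset.Ico u0 u1 ⊆
      (Finset.Ioc P (16 * P)).filter fun u => |⌊f u⌋ - y| ≤ (H : ℤ) := by
    intro u hu
    rw [Finset.mem_Ico] at hu
    rw [Finset.mem_filter, Finset.mem_Ioc]
    refine ⟨⟨by omega, by omega⟩, ?_⟩
    have h3 : (y : ℝ) ≤ f u := by
      have := (hstep (u - u0) (by omega)).1
      rw [show u0 + (u - u0) = u by omega] at this
      linarith
    have h4 : f u ≤ (y : ℝ) + H := hmin1 u (by omega) hu.2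
    have h5 : y ≤ ⌊f u⌋ := Int.le_floor.2 h3
    have h6 : ⌊f u⌋ ≤ y + H := by
      have : ((⌊f u⌋ : ℤ) : ℝ) ≤ ((y + (H : ℤ) : ℤ) : ℝ) := by
        push_cast
        exact (Int.floor_le _).trans h4
      exact_mod_cast this
    rw [abs_le]
    constructor <;> omega
  have hcard := Finset.card_le_card hsub
  rw [Nat.card_Ico] at hcard
  have hcard' : ((u1 - u0 : ℕ) : ℝ) ≤
      (((Finset.Ioc P (16 * P)).filter fun u => |⌊f u⌋ - y| ≤ (H : ℤ)).card : ℝ) := by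
    exact_mod_cast hcard
  have h7 : (H : ℝ) / (2 * s) = (H : ℝ) / s / 2 := by
    rw [mul_comm, div_div]
  have h8 : 2 ≤ (H : ℝ) / s := by
    rw [le_div_iff₀ hs]
    exact hH
  rw [h7]
  linarith

private theorem fs_bounds (f : ℕ → ℝ) (l : List ℕ) :
    (fs f l : ℝ) ≤ rs f l ∧ rs f l - l.length ≤ (fs f l : ℝ) := by
  induction l with
  | nil => simp [fs, rs]
  | cons a l ih =>
    simp only [fs, rs, List.map_cons, List.sum_cons, List.length_cons] at ih ⊢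
    rw [Int.cast_add, Nat.cast_add, Nat.cast_one]
    have h1 := Int.floor_le (f a)
    have h2 := Int.lt_floor_add_one (f a)
    constructor
    · linarith [ih.1]
    · linarith [ih.2]

private theorem card_le_open {ι : Type*} (s t : Finset ι) (p q : ι → Prop) [DecidablePred p]
    (hst : s = t) (h : ∀ x ∈ s, p x → q x) :
    ((s.filter p).card : ℝ) ≤ ((open Classical in (t.filter q).card : ℕ) : ℝ) := by
  classical
  subst hst
  refine Nat.cast_le.2 (Finset.card_le_card ?_)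
  intro x hx
  simp only [Finset.mem_filter] at hx ⊢
  exact ⟨hx.1, h x hx.1 hx.2⟩

private theorem frac_aux (H P w S K Q : ℝ) (hK : 0 < K) (hQ : 0 < Q) (hP : 0 < P) (hH : 1 ≤ H) :
    1 / (3 * 225 * (2 * K)) * (2 * H + 1) * (15 * P * w) ^ 2 * S ^ 2 / Q ≤
      S ^ 2 * (P * w ^ 2 * (H / (2 * (K * (Q / P))))) := by
  have e1 : 1 / (3 * 225 * (2 * K)) * (2 * H + 1) * (15 * P * w) ^ 2 * S ^ 2 / Q =
      (S ^ 2 * P ^ 2 * w ^ 2) * ((2 * H + 1) / 3) / (2 * K * Q) := by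
    field_simp
    ring
  have e2 : S ^ 2 * (P * w ^ 2 * (H / (2 * (K * (Q / P))))) =
      (S ^ 2 * P ^ 2 * w ^ 2) * H / (2 * K * Q) := by
    field_simp
  rw [e1, e2]
  refine div_le_div_of_nonneg_right ?_ (by positivity)
  refine mul_le_mul_of_nonneg_left (by linarith) (by positivity)

private theorem main_aux {κ : ℝ} (hκ : 3 / 2 ≤ κ) :
    5 / 4 ≤ (4 : ℝ) ^ κ - 5 / 4 * (2 : ℝ) ^ κ - 1 ∧
    (8 : ℝ) ^ κ + 5 / 2 < 3 / 4 * (16 : ℝ) ^ κ ∧ 8 ≤ (4 : ℝ) ^ κ := by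
  have h2 : (0 : ℝ) ≤ 2 := by norm_num
  have ht : (14 / 5 : ℝ) ≤ (2 : ℝ) ^ κ := by
    have h1 : (2 : ℝ) ^ (3 / 2 : ℝ) ≤ (2 : ℝ) ^ κ :=
      Real.rpow_le_rpow_of_exponent_le (by norm_num) hκ
    refine le_trans ?_ h1
    have h3 : ((2 : ℝ) ^ (3 / 2 : ℝ)) ^ 2 = 8 := by
      rw [← Real.rpow_natCast, ← Real.rpow_mul h2]
      norm_num
    have h4 : 0 ≤ (2 : ℝ) ^ (3 / 2 : ℝ) := Real.rpow_nonneg h2 _
    nlinarith
  have e4 : (4 : ℝ) ^ κ = ((2 : ℝ) ^ κ) ^ 2 := by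
    rw [show (4 : ℝ) = 2 ^ 2 by norm_num, ← Real.rpow_natCast, ← Real.rpow_natCast,
      ← Real.rpow_mul h2, ← Real.rpow_mul h2, mul_comm]
  have e8 : (8 : ℝ) ^ κ = ((2 : ℝ) ^ κ) ^ 3 := by
    rw [show (8 : ℝ) = 2 ^ 3 by norm_num, ← Real.rpow_natCast, ← Real.rpow_natCast,
      ← Real.rpow_mul h2, ← Real.rpow_mul h2, mul_comm]
  have e16 : (16 : ℝ) ^ κ = ((2 : ℝ) ^ κ) ^ 4 := by
    rw [show (16 : ℝ) = 2 ^ 4 by norm_num, ← Real.rpow_natCast, ← Real.rpow_natCast,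
      ← Real.rpow_mul h2, ← Real.rpow_mul h2, mul_comm]
  have h8 : 8 ≤ (4 : ℝ) ^ κ := by
    have h1 : (4 : ℝ) ^ (3 / 2 : ℝ) ≤ (4 : ℝ) ^ κ :=
      Real.rpow_le_rpow_of_exponent_le (by norm_num) hκ
    refine le_trans (le_of_eq ?_) h1
    rw [show (4 : ℝ) = 2 ^ 2 by norm_num, ← Real.rpow_natCast (2 : ℝ) 2, ← Real.rpow_mul h2]
    norm_num
  refine ⟨?_, ?_, h8⟩
  · rw [e4]
    nlinarith
  · rw [e8, e16]
    set t := (2 : ℝ) ^ κ
    have h3 : (14 / 5 : ℝ) ^ 3 ≤ t ^ 3 := pow_le_pow_left₀ (by norm_num) ht 3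
    nlinarith [mul_le_mul_of_nonneg_left ht (pow_nonneg (by linarith : (0 : ℝ) ≤ t) 3)]

theorem main_term {κ α : ℝ} {f : ℕ → ℝ} {d : ℕ} {W : ℕ → Finset (List ℕ)} (hκ : 3 / 2 ≤ κ)
    (hf : Grow κ α f) (hlen : ∀ r, ∀ w ∈ W r, w.length = d)
    (hS : ∀ᶠ r : ℕ in atTop, ∀ w ∈ W r, |rs f w| ≤ α * (XX r) ^ κ / 4) :
    ∃ c : ℝ, 0 < c ∧ ∀ᶠ r : ℕ in atTop, ∀ om : ℕ → ℝ, (∀ z, 0 ≤ om z) → ∀ H : ℕ,
      (XX r) ^ (κ - 3 / 4) ≤ (H : ℝ) → (H : ℝ) ≤ (XX r) ^ (κ - 1 / 2) → ∀ N : ℤ,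
      α * 4 ^ κ * (XX r) ^ κ ≤ (N : ℝ) → (N : ℝ) ≤ α * 8 ^ κ * (XX r) ^ κ →
      c * (2 * H + 1) * ((mainI (XX r) ×ˢ W r).card : ℝ) ^ 2 * (∑ z ∈ J1 (XX r), om z) ^ 2 /
        (XX r) ^ κ ≤
      ∑ z ∈ J1 (XX r), ∑ z' ∈ J1 (XX r), om z * om z' *
        pairs (mainI (XX r) ×ˢ W r) (fun p =>
          |(⌊f p.1.1⌋ + fs f p.1.2) + ⌊f z⌋ + (⌊f p.2.1⌋ + fs f p.2.2) + ⌊f z'⌋ - N| ≤ (H : ℤ)) := by
  classical
  obtain ⟨C0, hC0⟩ := hf.inc
  obtain ⟨C, hC, hCC⟩ : ∃ C : ℝ, 0 < C ∧ C0 ≤ C := ⟨max C0 1, by positivity, le_max_left _ _⟩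
  have hα := hf.pos
  obtain ⟨hk1, hk2, hk3⟩ := main_aux hκ
  -- eventual bounds for `f`
  have hev1 : ∀ᶠ x : ℕ in atTop, 0 ≤ f (x + 1) - f x ∧ f (x + 1) - f x ≤ C * (x : ℝ) ^ (κ - 1) := by
    filter_upwards [hC0] with x hx
    refine ⟨hx.1, hx.2.trans ?_⟩
    exact mul_le_mul_of_nonneg_right hCC (Real.rpow_nonneg (Nat.cast_nonneg x) _)
  have hev2 : ∀ᶠ x : ℕ in atTop, 3 / 4 * α * (x : ℝ) ^ κ ≤ f x ∧ f x ≤ 5 / 4 * α * (x : ℝ) ^ κ := by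
    have h1 := hf.lim.eventually (Ioo_mem_nhds (show 3 / 4 * α < α by linarith)
      (show α < 5 / 4 * α by linarith))
    filter_upwards [h1, eventually_gt_atTop 0] with x hx hx0
    have hxp : (0 : ℝ) < (x : ℝ) ^ κ := Real.rpow_pos_of_pos (by exact_mod_cast hx0) _
    constructor
    · have := hx.1.le
      rwa [le_div_iff₀ hxp] at this
    · have := hx.2.le
      rwa [div_le_iff₀ hxp] at this
  obtain ⟨x1, hx1⟩ := eventually_atTop.1 hev1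
  obtain ⟨x2, hx2⟩ := eventually_atTop.1 hev2
  have hcpos : 0 < 1 / (3 * 225 * (2 * (C * 16 ^ (κ - 1)))) := by positivity
  refine ⟨1 / (3 * 225 * (2 * (C * 16 ^ (κ - 1)))), hcpos, ?_⟩
  have hevX : ∀ M : ℝ, ∀ᶠ r : ℕ in atTop, M ≤ XX r := fun M => XX_tendsto.eventually_ge_atTop M
  have hevH : ∀ᶠ r : ℕ in atTop, 1 / α * XX r ^ (κ - 1 / 2) ≤ XX r ^ κ :=
    eventually_rpow_le (by linarith)
  have hevd : ∀ᶠ r : ℕ in atTop, 2 * (d : ℝ) / α * XX r ^ (0 : ℝ) ≤ XX r ^ κ :=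
    eventually_rpow_le (by linarith)
  have hevs : ∀ᶠ r : ℕ in atTop, 2 * (C * 16 ^ (κ - 1)) * XX r ^ (κ - 1) ≤ XX r ^ (κ - 3 / 4) :=
    eventually_rpow_le (by linarith)
  filter_upwards [hS, hevX (8 * (x1 + x2 + 1)), hevH, hevd, hevs] with r hSr hXr hHr hdr hsr
  intro om hom H hH1 hH2 N hN1 hN2
  set P : ℝ := XX r with hPdef
  have hPnat : P = ((2 ^ r : ℕ) : ℝ) := by
    rw [hPdef]; unfold XX; push_cast; rfl
  set Pn : ℕ := 2 ^ r with hPn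
  have hPn0 : 0 < Pn := by positivity
  have hP1 : 1 ≤ P := XX_ge_one r
  have hP0 : 0 < P := XX_pos r
  have hPκ : 0 < P ^ κ := Real.rpow_pos_of_pos hP0 _
  have hmain : mainI P = Finset.Ioc Pn (16 * Pn) := by
    unfold mainI
    rw [hPnat]
    have e1 : ⌊((Pn : ℕ) : ℝ)⌋₊ = Pn := Nat.floor_natCast Pn
    have e2 : ⌊16 * ((Pn : ℕ) : ℝ)⌋₊ = 16 * Pn := by
      have : 16 * ((Pn : ℕ) : ℝ) = ((16 * Pn : ℕ) : ℝ) := by push_cast; ring
      rw [this, Nat.floor_natCast]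
    rw [e1, e2]
  have hx1P : (x1 : ℝ) ≤ P / 8 := by
    have : (0 : ℝ) ≤ x2 := Nat.cast_nonneg _
    linarith
  have hx2P : (x2 : ℝ) ≤ P / 8 := by
    have : (0 : ℝ) ≤ x1 := Nat.cast_nonneg _
    linarith
  have hx1n : x1 ≤ Pn := by
    have : (x1 : ℝ) ≤ (Pn : ℝ) := by rw [← hPnat]; linarith
    exact_mod_cast this
  have hx2n : x2 ≤ Pn := by
    have : (x2 : ℝ) ≤ (Pn : ℝ) := by rw [← hPnat]; linarith
    exact_mod_cast this
  set T : ℝ := α * P ^ κ with hT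
  have hTpos : 0 < T := by positivity
  have hHT : (H : ℝ) ≤ T := by
    have h1 : P ^ (κ - 1 / 2) ≤ α * P ^ κ := by
      have := mul_le_mul_of_nonneg_left hHr hα.le
      rwa [← mul_assoc, mul_one_div_cancel hα.ne', one_mul] at this
    exact hH2.trans h1
  have hdT : 2 * (d : ℝ) ≤ T := by
    have := mul_le_mul_of_nonneg_left hdr hα.le
    rw [Real.rpow_zero, mul_one] at this
    rwa [mul_div_cancel₀ _ hα.ne'] at this
  set s : ℝ := C * 16 ^ (κ - 1) * P ^ (κ - 1) with hs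
  have hs0 : 0 < s := by positivity
  have hsH : 2 * s ≤ H := by
    refine le_trans (le_of_eq ?_) (hsr.trans hH1)
    rw [hs]; ring
  have hH1' : (1 : ℝ) ≤ H := by
    refine le_trans ?_ hH1
    exact Real.one_le_rpow hP1 (by linarith)
  -- letters
  have hz : ∀ z ∈ J1 P, 0 ≤ f z ∧ f z ≤ T / 4 := by
    intro z hz
    unfold J1 at hz
    rw [Finset.mem_Ioc] at hz
    have h1 : P / 8 < z := by
      have := Nat.lt_of_floor_lt hz.1
      exact this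
    have h2 : (z : ℝ) ≤ P / 4 := by
      exact (Nat.cast_le.2 hz.2).trans (Nat.floor_le (by positivity))
    have h3 : x2 ≤ z := by
      have : (x2 : ℝ) ≤ z := by linarith
      exact_mod_cast this
    have h4 := hx2 z h3
    have h5 : (0 : ℝ) ≤ (z : ℝ) ^ κ := Real.rpow_nonneg (Nat.cast_nonneg z) _
    constructor
    · refine le_trans ?_ h4.1
      positivity
    · have h6 : (z : ℝ) ^ κ ≤ (P / 4) ^ κ :=
        Real.rpow_le_rpow (Nat.cast_nonneg z) h2 (by linarith)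
      have h7 : (P / 4) ^ κ = P ^ κ / 4 ^ κ := Real.div_rpow hP0.le (by norm_num) κ
      have h8 : P ^ κ / 4 ^ κ ≤ P ^ κ / 8 := div_le_div_of_nonneg_left hPκ.le (by norm_num) hk3
      calc f z ≤ 5 / 4 * α * (z : ℝ) ^ κ := h4.2
        _ ≤ 5 / 4 * α * (P ^ κ / 8) := by
            refine mul_le_mul_of_nonneg_left ?_ (by positivity)
            rw [h7] at h6
            exact h6.trans h8
        _ ≤ T / 4 := by rw [hT]; nlinarith
  have hw : ∀ w ∈ W r, (fs f w : ℝ) ≤ T / 4 ∧ -(T / 4) - d ≤ (fs f w : ℝ) := by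
    intro w hw
    have h1 := abs_le.1 (hSr w hw)
    have h2 := fs_bounds f w
    rw [hlen r w hw] at h2
    have e : α * P ^ κ / 4 = T / 4 := by rw [hT]
    rw [e] at h1
    constructor
    · linarith [h2.1, h1.2]
    · linarith [h2.2, h1.1]
  have hincs : ∀ x, Pn ≤ x → x < 16 * Pn → 0 ≤ f (x + 1) - f x ∧ f (x + 1) - f x ≤ s := by
    intro x hx hx'
    have h1 := hx1 x (by omega)
    refine ⟨h1.1, h1.2.trans ?_⟩
    have h2 : (x : ℝ) ≤ 16 * P := by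
      rw [hPnat]
      exact_mod_cast hx'.le
    have h3 : (x : ℝ) ^ (κ - 1) ≤ (16 * P) ^ (κ - 1) :=
      Real.rpow_le_rpow (Nat.cast_nonneg x) h2 (by linarith)
    have h4 : (16 * P) ^ (κ - 1) = 16 ^ (κ - 1) * P ^ (κ - 1) :=
      Real.mul_rpow (by norm_num) hP0.le
    rw [h4] at h3
    rw [hs, mul_assoc]
    exact mul_le_mul_of_nonneg_left h3 hC.le
  have hfP : f Pn ≤ 5 / 4 * T := by
    have := (hx2 Pn hx2n).2
    rw [← hPnat] at this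
    rw [hT]
    linarith
  have hf16 : 3 / 4 * 16 ^ κ * T ≤ f (16 * Pn) := by
    have h1 := (hx2 (16 * Pn) (by omega)).1
    have h2 : (((16 * Pn : ℕ) : ℝ)) ^ κ = 16 ^ κ * P ^ κ := by
      push_cast
      rw [← hPnat, Real.mul_rpow (by norm_num) hP0.le]
    rw [h2] at h1
    refine le_trans (le_of_eq ?_) h1
    rw [hT]; ring
  have hu : ∀ u ∈ mainI P, (u : ℝ) ≤ 2 * P → 0 ≤ f u ∧ f u ≤ 5 / 4 * 2 ^ κ * T := by
    intro u hu hu2
    rw [hmain, Finset.mem_Ioc] at hu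
    have h4 := hx2 u (by omega)
    have h5 : (0 : ℝ) ≤ (u : ℝ) ^ κ := Real.rpow_nonneg (Nat.cast_nonneg u) _
    constructor
    · refine le_trans ?_ h4.1
      positivity
    · have h6 : (u : ℝ) ^ κ ≤ (2 * P) ^ κ :=
        Real.rpow_le_rpow (Nat.cast_nonneg u) hu2 (by linarith)
      have h7 : (2 * P) ^ κ = 2 ^ κ * P ^ κ := Real.mul_rpow (by norm_num) hP0.le
      rw [h7] at h6
      calc f u ≤ 5 / 4 * α * (u : ℝ) ^ κ := h4.2
        _ ≤ 5 / 4 * α * (2 ^ κ * P ^ κ) := mul_le_mul_of_nonneg_left h6 (by positivity)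
        _ = 5 / 4 * 2 ^ κ * T := by rw [hT]; ring
  -- the pair counts
  have hpairs : ∀ z ∈ J1 P, ∀ z' ∈ J1 P,
      P * ((W r).card : ℝ) ^ 2 * ((H : ℝ) / (2 * s)) ≤ pairs (mainI P ×ˢ W r) (fun p =>
          |(⌊f p.1.1⌋ + fs f p.1.2) + ⌊f z⌋ + (⌊f p.2.1⌋ + fs f p.2.2) + ⌊f z'⌋ - N| ≤ (H : ℤ)) := by
    intro z hz1 z' hz1'
    refine pairs_prod_ge (mainI P) (W r) _ (fun u : ℕ => (u : ℝ) ≤ 2 * P) _ _ (by positivity) ?_ ?_
    · have h1 : Finset.Ioc Pn (2 * Pn) ⊆ (mainI P).filter fun u : ℕ => (u : ℝ) ≤ 2 * P := by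
        intro u hu
        rw [Finset.mem_Ioc] at hu
        rw [Finset.mem_filter, hmain, Finset.mem_Ioc]
        refine ⟨⟨hu.1, by omega⟩, ?_⟩
        rw [hPnat]
        exact_mod_cast hu.2
      have h2 := Finset.card_le_card h1
      rw [Nat.card_Ioc] at h2
      have h3 : Pn ≤ ((mainI P).filter fun u : ℕ => (u : ℝ) ≤ 2 * P).card := by omega
      have h4 : P ≤ ((((mainI P).filter fun u : ℕ => (u : ℝ) ≤ 2 * P).card : ℕ) : ℝ) :=
        hPnat.le.trans (Nat.cast_le.2 h3)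
      convert h4
    · intro u' hu' hGu w hw1 w' hw1'
      have hmem' := hu u' hu' hGu
      obtain ⟨ha, hb⟩ := hw w hw1
      obtain ⟨ha', hb'⟩ := hw w' hw1'
      obtain ⟨hc, hd⟩ := hz z hz1
      obtain ⟨hc', hd'⟩ := hz z' hz1'
      set y : ℤ := N - (fs f w + ⌊f z⌋ + ⌊f u'⌋ + fs f w' + ⌊f z'⌋) with hy
      have hyr : (y : ℝ) = N - (fs f w + ⌊f z⌋ + ⌊f u'⌋ + fs f w' + ⌊f z'⌋) := by
        rw [hy]; push_cast; ring
      have g1 : (⌊f z⌋ : ℝ) ≤ T / 4 := (Int.floor_le _).trans hd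
      have g1' : (⌊f z'⌋ : ℝ) ≤ T / 4 := (Int.floor_le _).trans hd'
      have g2 : (0 : ℝ) ≤ ⌊f z⌋ := by exact_mod_cast Int.floor_nonneg.2 hc
      have g2' : (0 : ℝ) ≤ ⌊f z'⌋ := by exact_mod_cast Int.floor_nonneg.2 hc'
      have g3 : (⌊f u'⌋ : ℝ) ≤ 5 / 4 * 2 ^ κ * T := (Int.floor_le _).trans hmem'.2
      have g4 : (0 : ℝ) ≤ ⌊f u'⌋ := by exact_mod_cast Int.floor_nonneg.2 hmem'.1
      have hN1' : 4 ^ κ * T ≤ (N : ℝ) := by
        refine le_trans (le_of_eq ?_) hN1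
        rw [hT]; ring
      have hN2' : (N : ℝ) ≤ 8 ^ κ * T := by
        refine hN2.trans (le_of_eq ?_)
        rw [hT]; ring
      have hylow : f Pn ≤ y := by
        rw [hyr]
        have : 5 / 4 * T ≤ (4 ^ κ - 5 / 4 * 2 ^ κ - 1) * T :=
          mul_le_mul_of_nonneg_right hk1 hTpos.le
        nlinarith
      have hyup : (y : ℝ) + H < f (16 * Pn) := by
        rw [hyr]
        have : (8 ^ κ + 5 / 2) * T < 3 / 4 * 16 ^ κ * T :=
          mul_lt_mul_of_pos_right hk2 hTpos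
        nlinarith
      have hcount := count_lemma f Pn s hs0 hPn0 hincs y H hylow hyup hsH
      refine hcount.trans (card_le_open _ _ _ _ hmain.symm ?_)
      intro u hu1 hu2
      have : (⌊f u⌋ + fs f w) + ⌊f z⌋ + (⌊f u'⌋ + fs f w') + ⌊f z'⌋ - N = ⌊f u⌋ - y := by
        rw [hy]; ring
      change |(⌊f u⌋ + fs f w) + ⌊f z⌋ + (⌊f u'⌋ + fs f w') + ⌊f z'⌋ - N| ≤ (H : ℤ)
      rw [this]
      exact hu2
  -- summation
  have hsum : (∑ z ∈ J1 P, om z) ^ 2 * (P * ((W r).card : ℝ) ^ 2 * ((H : ℝ) / (2 * s))) ≤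
      ∑ z ∈ J1 P, ∑ z' ∈ J1 P, om z * om z' * pairs (mainI P ×ˢ W r) (fun p =>
          |(⌊f p.1.1⌋ + fs f p.1.2) + ⌊f z⌋ + (⌊f p.2.1⌋ + fs f p.2.2) + ⌊f z'⌋ - N| ≤
            (H : ℤ)) := by
    rw [sq, Finset.sum_mul_sum, Finset.sum_mul]
    refine Finset.sum_le_sum fun z hz1 => ?_
    rw [Finset.sum_mul]
    refine Finset.sum_le_sum fun z' hz1' => ?_
    exact mul_le_mul_of_nonneg_left (hpairs z hz1 z' hz1') (mul_nonneg (hom z) (hom z'))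
  refine le_trans ?_ hsum
  have hcardA : ((mainI P ×ˢ W r).card : ℝ) = 15 * P * ((W r).card : ℝ) := by
    rw [Finset.card_product, hmain, Nat.card_Ioc, hPnat]
    have : 16 * Pn - Pn = 15 * Pn := by omega
    rw [this]
    push_cast
    ring
  rw [hcardA]
  have hPk : P ^ (κ - 1) = P ^ κ / P := by
    rw [Real.rpow_sub hP0, Real.rpow_one]
  have h16 : (0 : ℝ) < (16 : ℝ) ^ (κ - 1) := Real.rpow_pos_of_pos (by norm_num) _
  rw [hs, hPk]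
  exact frac_aux (H : ℝ) P ((W r).card : ℝ) _ _ _ (mul_pos hC h16) hPκ hP0 hH1'

end FWar
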