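import Pool.Agent.FWar.Core
import Pool.Agent.FWar.LetV
import Pool.Agent.FWar.MainT

/-!
# FWar.Asm: the abstract theorem on sums of integer parts

`P = XX r = 2^r`, `κ ≥ 3/2`. PROOF. Let `c > 0` be the constant of `main_term`. Put
`Θ = P^(1/4-κ)`, `K = ⌈P^(σ/2)⌉`, `U = P^(1-σ)`, `H = ⌊P^(κ-5/8)⌋`, `Z = J1 P`, `Q = P^κ`,
`A = P^(σ/4)`. For `r` large: `Θ ≤ 1/2`, `K ≤ P^σ`, `K ≤ 2 P^(σ/2)`, so `letV` (with `hU`) gives
weights `om` with `|Ω - |Z|| ≤ K U ≤ 2 P^(1-σ/2)`, `Ω = ∑ om`; as `P/16 ≤ |Z| ≤ P/4`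
(`card_J1_ge`, `card_J1_le`) we get `P/32 ≤ Ω ≤ P/2` for large `P`, and for `Θ ≤ |θ| ≤ 1/2`
`|∑ om z e(θ ⌊f z⌋)| ≤ K U + 2 sqrt(Ω |Z|/K) ≤ 2 P^(1-σ/2) + P^(1-σ/4) ≤ 3 P^(1-σ/4) ≤ β Ω`,
`β = 96 P^(-σ/4)` (`Ω |Z|/K ≤ (P/2)(P/4)/P^(σ/2)`).
Apply `core` with the word set `mainI P ×ˢ W r`, `s (u,w) = ⌊f u⌋ + fs f w`, `v z = ⌊f z⌋`:
* `ha`: if `s p.1 = s p.2` then the real sums `f u + rs f w` of the two words differ by at most `d + 1`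
  (real sum minus integer sum is a sum of `d + 1` fractional parts, so it is in `[0, d+1]`), so
  `pairs (s = s) ≤ pairs (|..| ≤ d + 1) ≤ A card²/Q` by `hN`.
* `hc`: `main_term` (`P^(κ-3/4) ≤ H ≤ P^(κ-1/2)` for large `P`).
* `hd`: multiply by `Q = P^κ`: `2π H Θ² Q ≤ 2π P^(κ-5/8+1/2-2κ+κ) = 2π P^(-1/8) → 0` and
  `2β² A = 2 · 96² P^(-σ/2+σ/4) → 0`; so it holds for `r` large.
Given a large integer `N` choose `r` with `α 4^κ 2^(rκ) ≤ N < α 4^κ 2^((r+1)κ) = α 8^κ 2^(rκ)`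
(the largest `r` with the first inequality); `r ≥ R` as soon as `N ≥ α 4^κ 2^(Rκ)`.
The solution `(u,w), z, (ũ,w̃), z'` gives the list `(u :: w) ++ (z :: ((ũ :: w̃) ++ [z']))`, of length
`2(d+2)`, all entries are `≥ 1` (`mainI P`, `J1 P` are subsets of `Ioc a b`).
-/

namespace FWar

open MWg Finset Filter Topology
open Pool.PolyMax (e)

theorem rs_fs_bd (f : ℕ → ℝ) (l : List ℕ) :
    (fs f l : ℝ) ≤ rs f l ∧ rs f l ≤ (fs f l : ℝ) + l.length := by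
  induction l with
  | nil => simp [fs, rs]
  | cons a l ih =>
    obtain ⟨h1, h2⟩ := ih
    have e1 : (fs f (a :: l) : ℝ) = (⌊f a⌋ : ℝ) + (fs f l : ℝ) := by
      simp [fs]
    have e2 : rs f (a :: l) = f a + rs f l := by
      simp [rs]
    have h3 := Int.floor_le (f a)
    have h4 := (Int.lt_floor_add_one (f a)).le
    rw [e1, e2, List.length_cons]
    push_cast
    constructor
    · linarith
    · linarith

theorem exists_last {p : ℕ → Prop} {R : ℕ} (hR : p R) (hb : ∃ M : ℕ, ∀ r, M ≤ r → ¬ p r) :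
    ∃ r, R ≤ r ∧ p r ∧ ¬ p (r + 1) := by
  by_contra hcon
  push Not at hcon
  have h1 : ∀ j : ℕ, p (R + j) := by
    intro j
    induction j with
    | zero => simpa using hR
    | succ j ih => exact hcon (R + j) (by omega) ih
  obtain ⟨M, hM⟩ := hb
  exact hM (R + M) (by omega) (h1 M)

theorem floor_basis_aux {κ α σ c : ℝ} {f : ℕ → ℝ} {d : ℕ} {W : ℕ → Finset (List ℕ)}
    (hκ : 3 / 2 ≤ κ) (hσ : 0 < σ) (hc0 : 0 < c)
    (hU : ∀ᶠ r : ℕ in atTop, ∀ θ : ℝ, (XX r) ^ (1 / 4 - κ) ≤ |θ| → |θ| ≤ (XX r) ^ σ →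
      ‖∑ z ∈ J1 (XX r), e (θ * f z)‖ ≤ (XX r) ^ (1 - σ))
    (hlen : ∀ r, ∀ w ∈ W r, w.length = d)
    (hpos : ∀ r, ∀ w ∈ W r, ∀ n ∈ w, 1 ≤ n)
    (hne : ∀ᶠ r : ℕ in atTop, (W r).Nonempty)
    (hN : ∀ᶠ r : ℕ in atTop, pairs (mainI (XX r) ×ˢ W r) (fun p =>
        |(f p.1.1 + rs f p.1.2) - (f p.2.1 + rs f p.2.2)| ≤ (d : ℝ) + 1) ≤
      (XX r) ^ (σ / 4) * ((mainI (XX r) ×ˢ W r).card : ℝ) ^ 2 / (XX r) ^ κ)
    (hmain : ∀ᶠ r : ℕ in atTop, ∀ om : ℕ → ℝ, (∀ z, 0 ≤ om z) → ∀ H : ℕ,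
      (XX r) ^ (κ - 3 / 4) ≤ (H : ℝ) → (H : ℝ) ≤ (XX r) ^ (κ - 1 / 2) → ∀ N : ℤ,
      α * 4 ^ κ * (XX r) ^ κ ≤ (N : ℝ) → (N : ℝ) ≤ α * 8 ^ κ * (XX r) ^ κ →
      c * (2 * H + 1) * ((mainI (XX r) ×ˢ W r).card : ℝ) ^ 2 * (∑ z ∈ J1 (XX r), om z) ^ 2 /
        (XX r) ^ κ ≤
      ∑ z ∈ J1 (XX r), ∑ z' ∈ J1 (XX r), om z * om z' *
        pairs (mainI (XX r) ×ˢ W r) (fun p =>
          |(⌊f p.1.1⌋ + fs f p.1.2) + ⌊f z⌋ + (⌊f p.2.1⌋ + fs f p.2.2) + ⌊f z'⌋ - N| ≤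
            (H : ℤ))) :
    ∀ᶠ r : ℕ in atTop, ∀ N : ℤ, α * 4 ^ κ * (XX r) ^ κ ≤ (N : ℝ) →
      (N : ℝ) ≤ α * 8 ^ κ * (XX r) ^ κ →
      ∃ l : List ℕ, l.length = 2 * (d + 2) ∧ (∀ n ∈ l, 1 ≤ n) ∧ fs f l = N := by
  have hE1 := eventually_rpow_le (C := 2) (A := 1 / 4 - κ) (B := 0) (by linarith)
  have hE2 := eventually_rpow_le (C := 64) (A := 1 - σ / 2) (B := 1) (by linarith)
  have hE3 := eventually_rpow_le (C := 2) (A := σ / 2) (B := σ) (by linarith)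
  have hE4 := XX_tendsto.eventually_ge_atTop 16
  have hE5 := eventually_rpow_le (C := 2) (A := κ - 3 / 4) (B := κ - 5 / 8) (by linarith)
  have hE7 := eventually_rpow_le (C := 8 * Real.pi / c) (A := -(1 / 8)) (B := 0) (by norm_num)
  have hE8 := eventually_rpow_le (C := 73728 / c) (A := -(σ / 4)) (B := 0) (by linarith)
  filter_upwards [hE1, hE2, hE3, hE4, hE5, hE7, hE8, hU, hne, hN, hmain] with r h1 h2 h3 h4 h5 h7
    h8 hU hne hN hmain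
  intro N hNl hNu
  have hP1 : 1 ≤ XX r := XX_ge_one r
  have hP0 : 0 < XX r := XX_pos r
  set P : ℝ := XX r with hPdef
  rw [Real.rpow_zero] at h1 h7 h8
  rw [Real.rpow_one] at h2
  -- the parameter K
  set K : ℕ := ⌈P ^ (σ / 2)⌉₊ with hKdef
  have hPs1 : 1 ≤ P ^ (σ / 2) := Real.one_le_rpow hP1 (by linarith)
  have hKlo : P ^ (σ / 2) ≤ (K : ℝ) := Nat.le_ceil _
  have hKhi : (K : ℝ) ≤ 2 * P ^ (σ / 2) := by
    have := (Nat.ceil_lt_add_one (show (0 : ℝ) ≤ P ^ (σ / 2) by linarith)).le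
    linarith
  have hKs : (K : ℝ) ≤ P ^ σ := hKhi.trans h3
  have hK1 : 1 ≤ K := by
    have : (1 : ℝ) ≤ (K : ℝ) := hPs1.trans hKlo
    exact_mod_cast this
  have hΘ : P ^ (1 / 4 - κ) ≤ 1 / 2 := by linarith
  have hU0 : 0 ≤ P ^ (1 - σ) := Real.rpow_nonneg hP0.le _
  obtain ⟨om, hom, hom1, hom2⟩ := letV (f := f) (Z := J1 P) (K := K) (U := P ^ (1 - σ))
    (Θ := P ^ (1 / 4 - κ)) hK1 hU0 hΘ (fun θ ha hb => hU θ ha (hb.trans hKs))
  set Om : ℝ := ∑ z ∈ J1 P, om z with hOmdef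
  have hKU : (K : ℝ) * P ^ (1 - σ) ≤ 2 * P ^ (1 - σ / 2) := by
    calc (K : ℝ) * P ^ (1 - σ) ≤ (2 * P ^ (σ / 2)) * P ^ (1 - σ) :=
          mul_le_mul_of_nonneg_right hKhi hU0
      _ = 2 * P ^ (1 - σ / 2) := by
          rw [mul_assoc, ← Real.rpow_add hP0]
          congr 2
          ring
  have hZ1 := card_J1_ge h4
  have hZ2 := card_J1_le h4
  have habs := abs_le.1 hom1
  have hOm1 : P / 32 ≤ Om := by linarith [habs.1]
  have hOm2 : Om ≤ P / 2 := by linarith [habs.2]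
  have hOm0 : 0 < Om := by linarith
  -- the bound on the weighted sum
  have hsq : 2 * Real.sqrt (Om * ((J1 P).card : ℝ) / K) ≤ P ^ (1 - σ / 4) := by
    have e1 : Om * ((J1 P).card : ℝ) / K ≤ (P ^ (1 - σ / 4) / 2) ^ 2 := by
      have e2 : (P ^ (1 - σ / 4) / 2) ^ 2 = P ^ (2 - σ / 2) / 4 := by
        rw [div_pow, ← Real.rpow_natCast (P ^ (1 - σ / 4)) 2, ← Real.rpow_mul hP0.le]
        norm_num
        congr 1
        ring
      have e3 : Om * ((J1 P).card : ℝ) ≤ P ^ 2 / 8 := by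
        calc Om * ((J1 P).card : ℝ) ≤ (P / 2) * (P / 4) :=
              mul_le_mul hOm2 hZ2 (Nat.cast_nonneg _) (by positivity)
          _ = P ^ 2 / 8 := by ring
      have hK0 : (0 : ℝ) < K := by exact_mod_cast hK1
      rw [e2, div_le_iff₀ hK0]
      have e4 : P ^ (2 - σ / 2) * P ^ (σ / 2) = P ^ 2 := by
        rw [← Real.rpow_add hP0, ← Real.rpow_natCast P 2]
        congr 1
        push_cast
        ring
      have e5 : P ^ (2 - σ / 2) * P ^ (σ / 2) ≤ P ^ (2 - σ / 2) * K :=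
        mul_le_mul_of_nonneg_left hKlo (Real.rpow_nonneg hP0.le _)
      have e6 : 0 ≤ P ^ 2 := by positivity
      nlinarith [e3, e4, e5, e6]
    have e7 : Real.sqrt (Om * ((J1 P).card : ℝ) / K) ≤ P ^ (1 - σ / 4) / 2 :=
      Real.sqrt_le_iff.2 ⟨by positivity, e1⟩
    linarith
  have hb : ∀ θ : ℝ, P ^ (1 / 4 - κ) ≤ |θ| → |θ| ≤ 1 / 2 →
      ‖∑ z ∈ J1 P, (om z : ℂ) * e (θ * ((⌊f z⌋ : ℤ) : ℝ))‖ ≤ 96 * P ^ (-(σ / 4)) * Om := by
    intro θ ht1 ht2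
    refine (hom2 θ ht1 ht2).trans ?_
    have g1 : P ^ (1 - σ / 2) ≤ P ^ (1 - σ / 4) :=
      Real.rpow_le_rpow_of_exponent_le hP1 (by linarith)
    have g2 : P ^ (-(σ / 4)) * P = P ^ (1 - σ / 4) := by
      nth_rewrite 2 [← Real.rpow_one P]
      rw [← Real.rpow_add hP0]
      congr 1
      ring
    have g3 : 0 ≤ P ^ (-(σ / 4)) := Real.rpow_nonneg hP0.le _
    have g4 : P ^ (-(σ / 4)) * (P / 32) ≤ P ^ (-(σ / 4)) * Om :=
      mul_le_mul_of_nonneg_left hOm1 g3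
    have g5 : P ^ (-(σ / 4)) * (P / 32) = P ^ (1 - σ / 4) / 32 := by
      rw [← g2]
      ring
    linarith
  -- the parameter H
  set H : ℕ := ⌊P ^ (κ - 5 / 8)⌋₊ with hHdef
  have hH1 : (H : ℝ) ≤ P ^ (κ - 5 / 8) := Nat.floor_le (Real.rpow_nonneg hP0.le _)
  have hH2 : P ^ (κ - 3 / 4) ≤ (H : ℝ) := by
    have := (Nat.lt_floor_add_one (P ^ (κ - 5 / 8))).le
    have h6 : 1 ≤ P ^ (κ - 3 / 4) := Real.one_le_rpow hP1 (by linarith)
    linarith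
  have hH3 : (H : ℝ) ≤ P ^ (κ - 1 / 2) :=
    hH1.trans (Real.rpow_le_rpow_of_exponent_le hP1 (by linarith))
  have hmain' := hmain om hom H hH2 hH3 N hNl hNu
  have hQ : 0 < P ^ κ := Real.rpow_pos_of_pos hP0 _
  -- ha
  have ha : pairs (mainI P ×ˢ W r) (fun p => (⌊f p.1.1⌋ + fs f p.1.2) =
      (⌊f p.2.1⌋ + fs f p.2.2)) ≤
      P ^ (σ / 4) * ((mainI P ×ˢ W r).card : ℝ) ^ 2 / P ^ κ := by
    refine (pairs_mono _ ?_).trans hN
    rintro ⟨u, w⟩ hw ⟨u', w'⟩ hw' hs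
    simp only at hs ⊢
    have l1 := hlen r w (Finset.mem_product.1 hw).2
    have l2 := hlen r w' (Finset.mem_product.1 hw').2
    have b1 := rs_fs_bd f w
    have b2 := rs_fs_bd f w'
    rw [l1] at b1
    rw [l2] at b2
    have f1 := Int.floor_le (f u)
    have f2 := (Int.lt_floor_add_one (f u)).le
    have f3 := Int.floor_le (f u')
    have f4 := (Int.lt_floor_add_one (f u')).le
    have hs' : (⌊f u⌋ : ℝ) + (fs f w : ℝ) = (⌊f u'⌋ : ℝ) + (fs f w' : ℝ) := by exact_mod_cast hs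
    rw [abs_le]
    constructor
    · linarith [b1.1, b1.2, b2.1, b2.2]
    · linarith [b1.1, b1.2, b2.1, b2.2]
  -- hd
  have hΘ0 : 0 ≤ P ^ (1 / 4 - κ) := Real.rpow_nonneg hP0.le _
  have hβ0 : 0 ≤ 96 * P ^ (-(σ / 4)) := by positivity
  have hd : 2 * Real.pi * H * (P ^ (1 / 4 - κ)) ^ 2 +
      2 * (96 * P ^ (-(σ / 4))) ^ 2 * P ^ (σ / 4) / P ^ κ < c / P ^ κ := by
    have k1 : (P ^ (1 / 4 - κ)) ^ 2 = P ^ (1 / 2 - 2 * κ) := by
      rw [← Real.rpow_natCast (P ^ (1 / 4 - κ)) 2, ← Real.rpow_mul hP0.le]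
      congr 1
      push_cast
      ring
    have k2 : (P ^ (-(σ / 4))) ^ 2 * P ^ (σ / 4) = P ^ (-(σ / 4)) := by
      rw [← Real.rpow_natCast (P ^ (-(σ / 4))) 2, ← Real.rpow_mul hP0.le, ← Real.rpow_add hP0]
      congr 1
      push_cast
      ring
    have k3 : 2 * Real.pi * H * (P ^ (1 / 4 - κ)) ^ 2 * P ^ κ ≤ 2 * Real.pi * P ^ (-(1 / 8 : ℝ)) := by
      rw [k1]
      have k4 : P ^ (κ - 5 / 8) * P ^ (1 / 2 - 2 * κ) * P ^ κ = P ^ (-(1 / 8 : ℝ)) := by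
        rw [← Real.rpow_add hP0, ← Real.rpow_add hP0]
        congr 1
        ring
      have k5 : (H : ℝ) * P ^ (1 / 2 - 2 * κ) * P ^ κ ≤
          P ^ (κ - 5 / 8) * P ^ (1 / 2 - 2 * κ) * P ^ κ := by
        gcongr
      have hpi := Real.pi_pos
      calc 2 * Real.pi * H * P ^ (1 / 2 - 2 * κ) * P ^ κ
          = 2 * Real.pi * ((H : ℝ) * P ^ (1 / 2 - 2 * κ) * P ^ κ) := by ring
        _ ≤ 2 * Real.pi * (P ^ (κ - 5 / 8) * P ^ (1 / 2 - 2 * κ) * P ^ κ) :=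
            mul_le_mul_of_nonneg_left k5 (by positivity)
        _ = 2 * Real.pi * P ^ (-(1 / 8 : ℝ)) := by rw [k4]
    have k6 : 2 * Real.pi * P ^ (-(1 / 8 : ℝ)) ≤ c / 4 := by
      rw [div_mul_eq_mul_div, div_le_iff₀ hc0] at h7
      linarith
    have k7 : 18432 * P ^ (-(σ / 4)) ≤ c / 4 := by
      rw [div_mul_eq_mul_div, div_le_iff₀ hc0] at h8
      linarith
    have k8 : 2 * (96 * P ^ (-(σ / 4))) ^ 2 * P ^ (σ / 4) = 18432 * P ^ (-(σ / 4)) := by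
      rw [mul_pow]
      calc 2 * (96 ^ 2 * (P ^ (-(σ / 4))) ^ 2) * P ^ (σ / 4)
          = 18432 * ((P ^ (-(σ / 4))) ^ 2 * P ^ (σ / 4)) := by ring
        _ = _ := by rw [k2]
    rw [k8, lt_div_iff₀ hQ, add_mul, div_mul_cancel₀ _ hQ.ne']
    linarith
  have hWne : (mainI P ×ˢ W r).Nonempty := by
    refine Finset.Nonempty.product ?_ hne
    rw [← Finset.card_pos]
    have := card_mainI_ge hP1
    have h9 : (0 : ℝ) < ((mainI P).card : ℝ) := by linarith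
    exact_mod_cast h9
  obtain ⟨w, hw, w', hw', z, hz, z', hz', heq⟩ := core (W := mainI P ×ˢ W r)
    (s := fun p => ⌊f p.1⌋ + fs f p.2) (Z := J1 P) (v := fun z => ⌊f z⌋) (om := om)
    (Q := P ^ κ) (A := P ^ (σ / 4)) (c := c) (β := 96 * P ^ (-(σ / 4))) (Θ := P ^ (1 / 4 - κ))
    (H := H) (N := N) hQ (fun z _ => hom z) hOm0 hWne hΘ0 hβ0 ha hb hmain' hd
  obtain ⟨u, w⟩ := w
  obtain ⟨u', w'⟩ := w'
  rw [Finset.mem_product] at hw hw'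
  refine ⟨(u :: w) ++ (z :: ((u' :: w') ++ [z'])), ?_, ?_, ?_⟩
  · have l1 := hlen r w hw.2
    have l2 := hlen r w' hw'.2
    simp only [List.length_append, List.length_cons, List.length_nil]
    rw [l1, l2]
    ring
  · have q1 : ∀ x ∈ mainI P, 1 ≤ x := by
      intro x hx
      have := ((mem_mainI hP0.le).1 hx).1
      have : (1 : ℝ) < (x : ℝ) := lt_of_le_of_lt hP1 this
      have : 1 < x := by exact_mod_cast this
      omega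
    have q2 : ∀ x ∈ J1 P, 1 ≤ x := by
      intro x hx
      have := ((mem_J1 hP0.le).1 hx).1
      have : (0 : ℝ) < (x : ℝ) := by linarith
      have : 0 < x := by exact_mod_cast this
      omega
    intro n hn
    simp only [List.mem_append, List.mem_cons, List.not_mem_nil, or_false] at hn
    rcases hn with (rfl | hn) | rfl | (rfl | hn) | rfl
    · exact q1 _ hw.1
    · exact hpos r w hw.2 n hn
    · exact q2 _ hz
    · exact q1 _ hw'.1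
    · exact hpos r w' hw'.2 n hn
    · exact q2 _ hz'
  · simp only at heq
    rw [← heq]
    simp only [fs, List.map_append, List.map_cons, List.map_nil, List.sum_append, List.sum_cons,
      List.sum_nil]
    ring

theorem floor_basis {κ α σ : ℝ} {f : ℕ → ℝ} {d : ℕ} {W : ℕ → Finset (List ℕ)} (hκ : 3 / 2 ≤ κ)
    (hσ : 0 < σ) (hf : Grow κ α f)
    (hU : ∀ᶠ r : ℕ in atTop, ∀ θ : ℝ, (XX r) ^ (1 / 4 - κ) ≤ |θ| → |θ| ≤ (XX r) ^ σ →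
      ‖∑ z ∈ J1 (XX r), e (θ * f z)‖ ≤ (XX r) ^ (1 - σ))
    (hlen : ∀ r, ∀ w ∈ W r, w.length = d)
    (hpos : ∀ r, ∀ w ∈ W r, ∀ n ∈ w, 1 ≤ n)
    (hne : ∀ᶠ r : ℕ in atTop, (W r).Nonempty)
    (hS : ∀ᶠ r : ℕ in atTop, ∀ w ∈ W r, |rs f w| ≤ α * (XX r) ^ κ / 4)
    (hN : ∀ᶠ r : ℕ in atTop, pairs (mainI (XX r) ×ˢ W r) (fun p =>
        |(f p.1.1 + rs f p.1.2) - (f p.2.1 + rs f p.2.2)| ≤ (d : ℝ) + 1) ≤
      (XX r) ^ (σ / 4) * ((mainI (XX r) ×ˢ W r).card : ℝ) ^ 2 / (XX r) ^ κ) :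
    ∃ N0 : ℤ, ∀ N : ℤ, N0 ≤ N → ∃ l : List ℕ, l.length = 2 * (d + 2) ∧ (∀ n ∈ l, 1 ≤ n) ∧
      fs f l = N := by
  obtain ⟨c, hc0, hmain⟩ := main_term hκ hf hlen hS
  have hev := floor_basis_aux hκ hσ hc0 hU hlen hpos hne hN hmain
  obtain ⟨R, hR⟩ := Filter.eventually_atTop.1 hev
  have hα := hf.pos
  have h4 : (0 : ℝ) < 4 ^ κ := Real.rpow_pos_of_pos (by norm_num) _
  refine ⟨⌈α * 4 ^ κ * (XX R) ^ κ⌉, fun N hN0 => ?_⟩
  have hN1 : α * 4 ^ κ * (XX R) ^ κ ≤ (N : ℝ) := Int.ceil_le.1 hN0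
  have hbd : ∃ M : ℕ, ∀ r, M ≤ r → ¬ (α * 4 ^ κ * (XX r) ^ κ ≤ (N : ℝ)) := by
    have ht : Tendsto (fun r : ℕ => α * 4 ^ κ * (XX r) ^ κ) atTop atTop :=
      Tendsto.const_mul_atTop (by positivity)
        ((tendsto_rpow_atTop (by linarith : (0 : ℝ) < κ)).comp XX_tendsto)
    obtain ⟨M, hM⟩ := Filter.eventually_atTop.1 (ht.eventually_gt_atTop (N : ℝ))
    exact ⟨M, fun r hr => not_le.2 (hM r hr)⟩
  obtain ⟨r, hRr, hr1, hr2⟩ := exists_last (p := fun r => α * 4 ^ κ * (XX r) ^ κ ≤ (N : ℝ))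
    hN1 hbd
  refine hR r hRr N hr1 ?_
  have h5 := (not_le.1 hr2).le
  refine h5.trans (le_of_eq ?_)
  have e1 : XX (r + 1) = 2 * XX r := by
    unfold XX
    rw [pow_succ]
    ring
  have e2 : (8 : ℝ) ^ κ = 4 ^ κ * 2 ^ κ := by
    rw [← Real.mul_rpow (by norm_num) (by norm_num)]
    norm_num
  rw [e1, Real.mul_rpow (by norm_num) (XX_pos r).le, e2]
  ring

end FWar
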