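import Pool.Agent.FWar.Core1
import Pool.Agent.FWar.LetV
import Pool.Agent.FWar.MainT1

/-!
# FWar.Asm1: the abstract theorem on sums of integer parts, one spare letter, `κ ≥ 5/4`

The same as `FWar.Asm` (adapt `Pool/Agent/FWar/Asm.lean`), but with `core1`, `main_term1` and
exponent `σ/8` in `hN`; the number of terms is `2 d + 3`. `P = XX r = 2^r`.

PROOF. Let `c > 0` be the constant of `main_term1`. `Θ = P^(1/4-κ)`, `K = ⌈P^(σ/2)⌉`, `U = P^(1-σ)`,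
`H = ⌊P^(κ-5/8)⌋`, `Z = J1 P`, `Q = P^κ`, `A = P^(σ/8)`. For large `r` (as in `FWar.Asm`) `letV` gives
weights with `P/32 ≤ Ω ≤ P/2` and `|∑ om z e(θ ⌊f z⌋)| ≤ 3 P^(1-σ/4) ≤ β Ω`, `β = 96 P^(-σ/4)`, for
`Θ ≤ |θ| ≤ 1/2`. `core1` with the words `mainI P ×ˢ W r`: `hd`: `2π H Θ² Q ≤ 2π P^(-1/8) → 0` and
`2 β A = 192 P^(-σ/8) → 0`. The solution `(u,w), (ũ,w̃), z` gives the list
`(u :: w) ++ ((ũ :: w̃) ++ [z])` of length `2(d+1) + 1 = 2d + 3`.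
-/

namespace FWar

open MWg Finset Filter Topology
open Pool.PolyMax (e)

theorem rs_fs_bd1 (f : ℕ → ℝ) (l : List ℕ) :
    (fs f l : ℝ) ≤ rs f l ∧ rs f l ≤ (fs f l : ℝ) + l.length := by
  induction l with
  | nil => simp [fs, rs]
  | cons a l ih =>
    obtain ⟨h1, h2⟩ := ih
    have e1 : (fs f (a :: l) : ℝ) = (⌊f a⌋ : ℝ) + (fs f l : ℝ) := by
      simp [fs]
    have e2 : rs f (a :: l) = f a + rs f l := by
      simp [rs]
    have h3 := Int.floor_le (f a)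
    have h4 := (Int.lt_floor_add_one (f a)).le
    rw [e1, e2, List.length_cons]
    push_cast
    constructor
    · linarith
    · linarith

theorem exists_last1 {p : ℕ → Prop} {R : ℕ} (hR : p R) (hb : ∃ M : ℕ, ∀ r, M ≤ r → ¬ p r) :
    ∃ r, R ≤ r ∧ p r ∧ ¬ p (r + 1) := by
  by_contra hcon
  push Not at hcon
  have h1 : ∀ j : ℕ, p (R + j) := by
    intro j
    induction j with
    | zero => simpa using hR
    | succ j ih => exact hcon (R + j) (by omega) ih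
  obtain ⟨M, hM⟩ := hb
  exact hM (R + M) (by omega) (h1 M)

theorem floor_basis1_aux {κ α σ c : ℝ} {f : ℕ → ℝ} {d : ℕ} {W : ℕ → Finset (List ℕ)}
    (hκ : 5 / 4 ≤ κ) (hσ : 0 < σ) (hc0 : 0 < c)
    (hU : ∀ᶠ r : ℕ in atTop, ∀ θ : ℝ, (XX r) ^ (1 / 4 - κ) ≤ |θ| → |θ| ≤ (XX r) ^ σ →
      ‖∑ z ∈ J1 (XX r), e (θ * f z)‖ ≤ (XX r) ^ (1 - σ))
    (hlen : ∀ r, ∀ w ∈ W r, w.length = d)
    (hpos : ∀ r, ∀ w ∈ W r, ∀ n ∈ w, 1 ≤ n)
    (hne : ∀ᶠ r : ℕ in atTop, (W r).Nonempty)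
    (hN : ∀ᶠ r : ℕ in atTop, pairs (mainI (XX r) ×ˢ W r) (fun p =>
        |(f p.1.1 + rs f p.1.2) - (f p.2.1 + rs f p.2.2)| ≤ (d : ℝ) + 1) ≤
      (XX r) ^ (σ / 8) * ((mainI (XX r) ×ˢ W r).card : ℝ) ^ 2 / (XX r) ^ κ)
    (hmain : ∀ᶠ r : ℕ in atTop, ∀ om : ℕ → ℝ, (∀ z, 0 ≤ om z) → ∀ H : ℕ,
      (XX r) ^ (κ - 3 / 4) ≤ (H : ℝ) → (H : ℝ) ≤ (XX r) ^ (κ - 1 / 2) → ∀ N : ℤ,
      α * 4 ^ κ * (XX r) ^ κ ≤ (N : ℝ) → (N : ℝ) ≤ α * 8 ^ κ * (XX r) ^ κ →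
      c * (2 * H + 1) * ((mainI (XX r) ×ˢ W r).card : ℝ) ^ 2 * (∑ z ∈ J1 (XX r), om z) /
        (XX r) ^ κ ≤
      ∑ z ∈ J1 (XX r), om z *
        pairs (mainI (XX r) ×ˢ W r) (fun p =>
          |(⌊f p.1.1⌋ + fs f p.1.2) + (⌊f p.2.1⌋ + fs f p.2.2) + ⌊f z⌋ - N| ≤ (H : ℤ))) :
    ∀ᶠ r : ℕ in atTop, ∀ N : ℤ, α * 4 ^ κ * (XX r) ^ κ ≤ (N : ℝ) →
      (N : ℝ) ≤ α * 8 ^ κ * (XX r) ^ κ →
      ∃ l : List ℕ, l.length = 2 * d + 3 ∧ (∀ n ∈ l, 1 ≤ n) ∧ fs f l = N := by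
  have hE1 := eventually_rpow_le (C := 2) (A := 1 / 4 - κ) (B := 0) (by linarith)
  have hE2 := eventually_rpow_le (C := 64) (A := 1 - σ / 2) (B := 1) (by linarith)
  have hE3 := eventually_rpow_le (C := 2) (A := σ / 2) (B := σ) (by linarith)
  have hE4 := XX_tendsto.eventually_ge_atTop 16
  have hE5 := eventually_rpow_le (C := 2) (A := κ - 3 / 4) (B := κ - 5 / 8) (by linarith)
  have hE7 := eventually_rpow_le (C := 8 * Real.pi / c) (A := -(1 / 8)) (B := 0) (by norm_num)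
  have hE8 := eventually_rpow_le (C := 768 / c) (A := -(σ / 8)) (B := 0) (by linarith)
  filter_upwards [hE1, hE2, hE3, hE4, hE5, hE7, hE8, hU, hne, hN, hmain] with r h1 h2 h3 h4 h5 h7
    h8 hU hne hN hmain
  intro N hNl hNu
  have hP1 : 1 ≤ XX r := XX_ge_one r
  have hP0 : 0 < XX r := XX_pos r
  set P : ℝ := XX r with hPdef
  rw [Real.rpow_zero] at h1 h7 h8
  rw [Real.rpow_one] at h2
  -- the parameter K
  set K : ℕ := ⌈P ^ (σ / 2)⌉₊ with hKdef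
  have hPs1 : 1 ≤ P ^ (σ / 2) := Real.one_le_rpow hP1 (by linarith)
  have hKlo : P ^ (σ / 2) ≤ (K : ℝ) := Nat.le_ceil _
  have hKhi : (K : ℝ) ≤ 2 * P ^ (σ / 2) := by
    have := (Nat.ceil_lt_add_one (show (0 : ℝ) ≤ P ^ (σ / 2) by linarith)).le
    linarith
  have hKs : (K : ℝ) ≤ P ^ σ := hKhi.trans h3
  have hK1 : 1 ≤ K := by
    have : (1 : ℝ) ≤ (K : ℝ) := hPs1.trans hKlo
    exact_mod_cast this
  have hΘ : P ^ (1 / 4 - κ) ≤ 1 / 2 := by linarith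
  have hU0 : 0 ≤ P ^ (1 - σ) := Real.rpow_nonneg hP0.le _
  obtain ⟨om, hom, hom1, hom2⟩ := letV (f := f) (Z := J1 P) (K := K) (U := P ^ (1 - σ))
    (Θ := P ^ (1 / 4 - κ)) hK1 hU0 hΘ (fun θ ha hb => hU θ ha (hb.trans hKs))
  set Om : ℝ := ∑ z ∈ J1 P, om z with hOmdef
  have hKU : (K : ℝ) * P ^ (1 - σ) ≤ 2 * P ^ (1 - σ / 2) := by
    calc (K : ℝ) * P ^ (1 - σ) ≤ (2 * P ^ (σ / 2)) * P ^ (1 - σ) :=
          mul_le_mul_of_nonneg_right hKhi hU0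
      _ = 2 * P ^ (1 - σ / 2) := by
          rw [mul_assoc, ← Real.rpow_add hP0]
          congr 2
          ring
  have hZ1 := card_J1_ge h4
  have hZ2 := card_J1_le h4
  have habs := abs_le.1 hom1
  have hOm1 : P / 32 ≤ Om := by linarith [habs.1]
  have hOm2 : Om ≤ P / 2 := by linarith [habs.2]
  have hOm0 : 0 < Om := by linarith
  -- the bound on the weighted sum
  have hsq : 2 * Real.sqrt (Om * ((J1 P).card : ℝ) / K) ≤ P ^ (1 - σ / 4) := by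
    have e1 : Om * ((J1 P).card : ℝ) / K ≤ (P ^ (1 - σ / 4) / 2) ^ 2 := by
      have e2 : (P ^ (1 - σ / 4) / 2) ^ 2 = P ^ (2 - σ / 2) / 4 := by
        rw [div_pow, ← Real.rpow_natCast (P ^ (1 - σ / 4)) 2, ← Real.rpow_mul hP0.le]
        norm_num
        congr 1
        ring
      have e3 : Om * ((J1 P).card : ℝ) ≤ P ^ 2 / 8 := by
        calc Om * ((J1 P).card : ℝ) ≤ (P / 2) * (P / 4) :=
              mul_le_mul hOm2 hZ2 (Nat.cast_nonneg _) (by positivity)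
          _ = P ^ 2 / 8 := by ring
      have hK0 : (0 : ℝ) < K := by exact_mod_cast hK1
      rw [e2, div_le_iff₀ hK0]
      have e4 : P ^ (2 - σ / 2) * P ^ (σ / 2) = P ^ 2 := by
        rw [← Real.rpow_add hP0, ← Real.rpow_natCast P 2]
        congr 1
        push_cast
        ring
      have e5 : P ^ (2 - σ / 2) * P ^ (σ / 2) ≤ P ^ (2 - σ / 2) * K :=
        mul_le_mul_of_nonneg_left hKlo (Real.rpow_nonneg hP0.le _)
      have e6 : 0 ≤ P ^ 2 := by positivity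
      nlinarith [e3, e4, e5, e6]
    have e7 : Real.sqrt (Om * ((J1 P).card : ℝ) / K) ≤ P ^ (1 - σ / 4) / 2 :=
      Real.sqrt_le_iff.2 ⟨by positivity, e1⟩
    linarith
  have hb : ∀ θ : ℝ, P ^ (1 / 4 - κ) ≤ |θ| → |θ| ≤ 1 / 2 →
      ‖∑ z ∈ J1 P, (om z : ℂ) * e (θ * ((⌊f z⌋ : ℤ) : ℝ))‖ ≤ 96 * P ^ (-(σ / 4)) * Om := by
    intro θ ht1 ht2
    refine (hom2 θ ht1 ht2).trans ?_
    have g1 : P ^ (1 - σ / 2) ≤ P ^ (1 - σ / 4) :=
      Real.rpow_le_rpow_of_exponent_le hP1 (by linarith)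
    have g2 : P ^ (-(σ / 4)) * P = P ^ (1 - σ / 4) := by
      nth_rewrite 2 [← Real.rpow_one P]
      rw [← Real.rpow_add hP0]
      congr 1
      ring
    have g3 : 0 ≤ P ^ (-(σ / 4)) := Real.rpow_nonneg hP0.le _
    have g4 : P ^ (-(σ / 4)) * (P / 32) ≤ P ^ (-(σ / 4)) * Om :=
      mul_le_mul_of_nonneg_left hOm1 g3
    have g5 : P ^ (-(σ / 4)) * (P / 32) = P ^ (1 - σ / 4) / 32 := by
      rw [← g2]
      ring
    linarith
  -- the parameter H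
  set H : ℕ := ⌊P ^ (κ - 5 / 8)⌋₊ with hHdef
  have hH1 : (H : ℝ) ≤ P ^ (κ - 5 / 8) := Nat.floor_le (Real.rpow_nonneg hP0.le _)
  have hH2 : P ^ (κ - 3 / 4) ≤ (H : ℝ) := by
    have := (Nat.lt_floor_add_one (P ^ (κ - 5 / 8))).le
    have h6 : 1 ≤ P ^ (κ - 3 / 4) := Real.one_le_rpow hP1 (by linarith)
    linarith
  have hH3 : (H : ℝ) ≤ P ^ (κ - 1 / 2) :=
    hH1.trans (Real.rpow_le_rpow_of_exponent_le hP1 (by linarith))
  have hmain' := hmain om hom H hH2 hH3 N hNl hNu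
  have hQ : 0 < P ^ κ := Real.rpow_pos_of_pos hP0 _
  -- ha
  have ha : pairs (mainI P ×ˢ W r) (fun p => (⌊f p.1.1⌋ + fs f p.1.2) =
      (⌊f p.2.1⌋ + fs f p.2.2)) ≤
      P ^ (σ / 8) * ((mainI P ×ˢ W r).card : ℝ) ^ 2 / P ^ κ := by
    refine (pairs_mono _ ?_).trans hN
    rintro ⟨u, w⟩ hw ⟨u', w'⟩ hw' hs
    simp only at hs ⊢
    have l1 := hlen r w (Finset.mem_product.1 hw).2
    have l2 := hlen r w' (Finset.mem_product.1 hw').2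
    have b1 := rs_fs_bd1 f w
    have b2 := rs_fs_bd1 f w'
    rw [l1] at b1
    rw [l2] at b2
    have f1 := Int.floor_le (f u)
    have f2 := (Int.lt_floor_add_one (f u)).le
    have f3 := Int.floor_le (f u')
    have f4 := (Int.lt_floor_add_one (f u')).le
    have hs' : (⌊f u⌋ : ℝ) + (fs f w : ℝ) = (⌊f u'⌋ : ℝ) + (fs f w' : ℝ) := by exact_mod_cast hs
    rw [abs_le]
    constructor
    · linarith [b1.1, b1.2, b2.1, b2.2]
    · linarith [b1.1, b1.2, b2.1, b2.2]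
  -- hd
  have hΘ0 : 0 ≤ P ^ (1 / 4 - κ) := Real.rpow_nonneg hP0.le _
  have hβ0 : 0 ≤ 96 * P ^ (-(σ / 4)) := by positivity
  have hd : 2 * Real.pi * H * (P ^ (1 / 4 - κ)) ^ 2 +
      2 * (96 * P ^ (-(σ / 4))) * P ^ (σ / 8) / P ^ κ < c / P ^ κ := by
    have k1 : (P ^ (1 / 4 - κ)) ^ 2 = P ^ (1 / 2 - 2 * κ) := by
      rw [← Real.rpow_natCast (P ^ (1 / 4 - κ)) 2, ← Real.rpow_mul hP0.le]
      congr 1
      push_cast
      ring
    have k2 : P ^ (-(σ / 4)) * P ^ (σ / 8) = P ^ (-(σ / 8)) := by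
      rw [← Real.rpow_add hP0]
      congr 1
      ring
    have k3 : 2 * Real.pi * H * (P ^ (1 / 4 - κ)) ^ 2 * P ^ κ ≤ 2 * Real.pi * P ^ (-(1 / 8 : ℝ)) := by
      rw [k1]
      have k4 : P ^ (κ - 5 / 8) * P ^ (1 / 2 - 2 * κ) * P ^ κ = P ^ (-(1 / 8 : ℝ)) := by
        rw [← Real.rpow_add hP0, ← Real.rpow_add hP0]
        congr 1
        ring
      have k5 : (H : ℝ) * P ^ (1 / 2 - 2 * κ) * P ^ κ ≤
          P ^ (κ - 5 / 8) * P ^ (1 / 2 - 2 * κ) * P ^ κ := by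
        gcongr
      have hpi := Real.pi_pos
      calc 2 * Real.pi * H * P ^ (1 / 2 - 2 * κ) * P ^ κ
          = 2 * Real.pi * ((H : ℝ) * P ^ (1 / 2 - 2 * κ) * P ^ κ) := by ring
        _ ≤ 2 * Real.pi * (P ^ (κ - 5 / 8) * P ^ (1 / 2 - 2 * κ) * P ^ κ) :=
            mul_le_mul_of_nonneg_left k5 (by positivity)
        _ = 2 * Real.pi * P ^ (-(1 / 8 : ℝ)) := by rw [k4]
    have k6 : 2 * Real.pi * P ^ (-(1 / 8 : ℝ)) ≤ c / 4 := by
      rw [div_mul_eq_mul_div, div_le_iff₀ hc0] at h7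
      linarith
    have k7 : 192 * P ^ (-(σ / 8)) ≤ c / 4 := by
      rw [div_mul_eq_mul_div, div_le_iff₀ hc0] at h8
      linarith
    have k8 : 2 * (96 * P ^ (-(σ / 4))) * P ^ (σ / 8) = 192 * P ^ (-(σ / 8)) := by
      rw [← k2]
      ring
    rw [k8, lt_div_iff₀ hQ, add_mul, div_mul_cancel₀ _ hQ.ne']
    linarith
  have hWne : (mainI P ×ˢ W r).Nonempty := by
    refine Finset.Nonempty.product ?_ hne
    rw [← Finset.card_pos]
    have := card_mainI_ge hP1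
    have h9 : (0 : ℝ) < ((mainI P).card : ℝ) := by linarith
    exact_mod_cast h9
  obtain ⟨w, hw, w', hw', z, hz, heq⟩ := core1 (W := mainI P ×ˢ W r)
    (s := fun p => ⌊f p.1⌋ + fs f p.2) (Z := J1 P) (v := fun z => ⌊f z⌋) (om := om)
    (Q := P ^ κ) (A := P ^ (σ / 8)) (c := c) (β := 96 * P ^ (-(σ / 4))) (Θ := P ^ (1 / 4 - κ))
    (H := H) (N := N) hQ (fun z _ => hom z) hOm0 hWne hΘ0 hβ0 ha hb hmain' hd
  obtain ⟨u, w⟩ := w
  obtain ⟨u', w'⟩ := w'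
  rw [Finset.mem_product] at hw hw'
  refine ⟨(u :: w) ++ ((u' :: w') ++ [z]), ?_, ?_, ?_⟩
  · have l1 := hlen r w hw.2
    have l2 := hlen r w' hw'.2
    simp only [List.length_append, List.length_cons, List.length_nil]
    rw [l1, l2]
    ring
  · have q1 : ∀ x ∈ mainI P, 1 ≤ x := by
      intro x hx
      have := ((mem_mainI hP0.le).1 hx).1
      have : (1 : ℝ) < (x : ℝ) := lt_of_le_of_lt hP1 this
      have : 1 < x := by exact_mod_cast this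
      omega
    have q2 : ∀ x ∈ J1 P, 1 ≤ x := by
      intro x hx
      have := ((mem_J1 hP0.le).1 hx).1
      have : (0 : ℝ) < (x : ℝ) := by linarith
      have : 0 < x := by exact_mod_cast this
      omega
    intro n hn
    simp only [List.mem_append, List.mem_cons, List.not_mem_nil, or_false] at hn
    rcases hn with (rfl | hn) | (rfl | hn) | rfl
    · exact q1 _ hw.1
    · exact hpos r w hw.2 n hn
    · exact q1 _ hw'.1
    · exact hpos r w' hw'.2 n hn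
    · exact q2 _ hz
  · simp only at heq
    rw [← heq]
    simp only [fs, List.map_append, List.map_cons, List.map_nil, List.sum_append, List.sum_cons,
      List.sum_nil]
    ring

theorem floor_basis1 {κ α σ : ℝ} {f : ℕ → ℝ} {d : ℕ} {W : ℕ → Finset (List ℕ)} (hκ : 5 / 4 ≤ κ)
    (hσ : 0 < σ) (hf : Grow κ α f)
    (hU : ∀ᶠ r : ℕ in atTop, ∀ θ : ℝ, (XX r) ^ (1 / 4 - κ) ≤ |θ| → |θ| ≤ (XX r) ^ σ →
      ‖∑ z ∈ J1 (XX r), e (θ * f z)‖ ≤ (XX r) ^ (1 - σ))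
    (hlen : ∀ r, ∀ w ∈ W r, w.length = d)
    (hpos : ∀ r, ∀ w ∈ W r, ∀ n ∈ w, 1 ≤ n)
    (hne : ∀ᶠ r : ℕ in atTop, (W r).Nonempty)
    (hS : ∀ᶠ r : ℕ in atTop, ∀ w ∈ W r, |rs f w| ≤ α * (XX r) ^ κ / 4)
    (hN : ∀ᶠ r : ℕ in atTop, pairs (mainI (XX r) ×ˢ W r) (fun p =>
        |(f p.1.1 + rs f p.1.2) - (f p.2.1 + rs f p.2.2)| ≤ (d : ℝ) + 1) ≤
      (XX r) ^ (σ / 8) * ((mainI (XX r) ×ˢ W r).card : ℝ) ^ 2 / (XX r) ^ κ) :
    ∃ N0 : ℤ, ∀ N : ℤ, N0 ≤ N → ∃ l : List ℕ, l.length = 2 * d + 3 ∧ (∀ n ∈ l, 1 ≤ n) ∧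
      fs f l = N := by
  obtain ⟨c, hc0, hmain⟩ := main_term1 hκ hf hlen hS
  have hev := floor_basis1_aux hκ hσ hc0 hU hlen hpos hne hN hmain
  obtain ⟨R, hR⟩ := Filter.eventually_atTop.1 hev
  have hα := hf.pos
  have h4 : (0 : ℝ) < 4 ^ κ := Real.rpow_pos_of_pos (by norm_num) _
  refine ⟨⌈α * 4 ^ κ * (XX R) ^ κ⌉, fun N hN0 => ?_⟩
  have hN1 : α * 4 ^ κ * (XX R) ^ κ ≤ (N : ℝ) := Int.ceil_le.1 hN0
  have hbd : ∃ M : ℕ, ∀ r, M ≤ r → ¬ (α * 4 ^ κ * (XX r) ^ κ ≤ (N : ℝ)) := by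
    have ht : Tendsto (fun r : ℕ => α * 4 ^ κ * (XX r) ^ κ) atTop atTop :=
      Tendsto.const_mul_atTop (by positivity)
        ((tendsto_rpow_atTop (by linarith : (0 : ℝ) < κ)).comp XX_tendsto)
    obtain ⟨M, hM⟩ := Filter.eventually_atTop.1 (ht.eventually_gt_atTop (N : ℝ))
    exact ⟨M, fun r hr => not_le.2 (hM r hr)⟩
  obtain ⟨r, hRr, hr1, hr2⟩ := exists_last1 (p := fun r => α * 4 ^ κ * (XX r) ^ κ ≤ (N : ℝ))
    hN1 hbd
  refine hR r hRr N hr1 ?_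
  have h5 := (not_le.1 hr2).le
  refine h5.trans (le_of_eq ?_)
  have e1 : XX (r + 1) = 2 * XX r := by
    unfold XX
    rw [pow_succ]
    ring
  have e2 : (8 : ℝ) ^ κ = 4 ^ κ * 2 ^ κ := by
    rw [← Real.mul_rpow (by norm_num) (by norm_num)]
    norm_num
  rw [e1, Real.mul_rpow (by norm_num) (XX_pos r).le, e2]
  ring

end FWar
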