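import Pool.Agent.FWar.Core2
import Pool.Agent.FWar.LetV
import Pool.Agent.FWar.MainT2

/-!
# FWar.Asm2: almost all integers are sums of `d + 2` integer parts

Compare `Pool/Agent/FWar/Asm1.lean`. `P = XX r = 2^r`, `σ ≤ 1`.

PROOF. Let `c > 0` be the constant of `main_term2`. `Θ = P^(1/4-κ)`, `K = ⌈P^(σ/2)⌉`, `U = P^(1-σ)`,
`H = ⌊P^(κ-5/8)⌋`, `Z = J1 P`, `Q = P^κ`, `A = P^(σ/8)`, and weights with `P/32 ≤ Ω ≤ P/2`,
`|∑ om z e(θ ⌊f z⌋)| ≤ 3 P^(1-σ/4) ≤ β Ω`, `β = 96 P^(-σ/4)` for `Θ ≤ |θ| ≤ 1/2`, exactly as in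
`FWar.Asm1`, for `r ≥ r0`. Let `E_r` be the set of the integers `N` in
`[α 4^κ P^κ, α 8^κ P^κ]` which are not sums of `d + 2` terms `⌊f n⌋` with `n ≥ 1`; then `core2` gives
`|E_r| (c/Q)² ≤ 27 H² Θ³ + 4 β² A/Q`, and `H² Θ³ ≤ P^(2κ-5/4+3/4-3κ) = P^(-κ-1/2)`,
`β² A/Q = 96² P^(-κ-3σ/8)`. So `|E_r| ≤ C P^(κ-1/2) + C P^(κ-3σ/8) ≤ C P^(κ-σ/4)` (`σ ≤ 1`).
The positive integers up to `X` are covered by the ranges with `r0 ≤ r`, `α 4^κ 2^(rκ) ≤ X`, and the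
finitely many integers below `α 4^κ 2^(r0 κ)`; so the number of exceptions up to `X` is at most
`C' + ∑_{r : α 4^κ 2^(rκ) ≤ X} C 2^(r(κ-σ/4)) ≤ C'' X^(1-σ/(4κ))` (geometric sum; `σ/4 < κ`).
Take `δ = σ/(4κ)`.
-/

namespace FWar

open MWg Finset Filter Topology
open Pool.PolyMax (e)

private theorem rs_fs_bd2 (f : ℕ → ℝ) (l : List ℕ) :
    (fs f l : ℝ) ≤ rs f l ∧ rs f l ≤ (fs f l : ℝ) + l.length := by
  induction l with
  | nil => simp [fs, rs]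
  | cons a l ih =>
    obtain ⟨h1, h2⟩ := ih
    have e1 : (fs f (a :: l) : ℝ) = (⌊f a⌋ : ℝ) + (fs f l : ℝ) := by
      simp [fs]
    have e2 : rs f (a :: l) = f a + rs f l := by
      simp [rs]
    have h3 := Int.floor_le (f a)
    have h4 := (Int.lt_floor_add_one (f a)).le
    rw [e1, e2, List.length_cons]
    push_cast
    constructor
    · linarith
    · linarith

private theorem exists_last2 {p : ℕ → Prop} {R : ℕ} (hR : p R) (hb : ∃ M : ℕ, ∀ r, M ≤ r → ¬ p r) :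
    ∃ r, R ≤ r ∧ p r ∧ ¬ p (r + 1) := by
  by_contra hcon
  push Not at hcon
  have h1 : ∀ j : ℕ, p (R + j) := by
    intro j
    induction j with
    | zero => simpa using hR
    | succ j ih => exact hcon (R + j) (by omega) ih
  obtain ⟨M, hM⟩ := hb
  exact hM (R + M) (by omega) (h1 M)

private theorem asm2_key {κ α σ c : ℝ} {f : ℕ → ℝ} {d : ℕ} {W : ℕ → Finset (List ℕ)}
    (hκ : 5 / 4 ≤ κ) (hσ : 0 < σ) (hσ1 : σ ≤ 1) (hc0 : 0 < c)
    (hU : ∀ᶠ r : ℕ in atTop, ∀ θ : ℝ, (XX r) ^ (1 / 4 - κ) ≤ |θ| → |θ| ≤ (XX r) ^ σ →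
      ‖∑ z ∈ J1 (XX r), e (θ * f z)‖ ≤ (XX r) ^ (1 - σ))
    (hlen : ∀ r, ∀ w ∈ W r, w.length = d)
    (hpos : ∀ r, ∀ w ∈ W r, ∀ n ∈ w, 1 ≤ n)
    (hne : ∀ᶠ r : ℕ in atTop, (W r).Nonempty)
    (hN : ∀ᶠ r : ℕ in atTop, pairs (mainI (XX r) ×ˢ W r) (fun p =>
        |(f p.1.1 + rs f p.1.2) - (f p.2.1 + rs f p.2.2)| ≤ (d : ℝ) + 1) ≤
      (XX r) ^ (σ / 8) * ((mainI (XX r) ×ˢ W r).card : ℝ) ^ 2 / (XX r) ^ κ)
    (hmain : ∀ᶠ r : ℕ in atTop, ∀ om : ℕ → ℝ, (∀ z, 0 ≤ om z) → ∀ H : ℕ,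
      (XX r) ^ (κ - 3 / 4) ≤ (H : ℝ) → (H : ℝ) ≤ (XX r) ^ (κ - 1 / 2) → ∀ N : ℤ,
      α * 4 ^ κ * (XX r) ^ κ ≤ (N : ℝ) → (N : ℝ) ≤ α * 8 ^ κ * (XX r) ^ κ →
      c * (2 * H + 1) * ((mainI (XX r) ×ˢ W r).card : ℝ) * (∑ z ∈ J1 (XX r), om z) /
        (XX r) ^ κ ≤
      ∑ z ∈ J1 (XX r), om z *
        cn (mainI (XX r) ×ˢ W r) (fun p => |(⌊f p.1⌋ + fs f p.2) + ⌊f z⌋ - N| ≤ (H : ℤ))) :
    ∀ᶠ r : ℕ in atTop, ∀ E : Finset ℤ, (∀ N ∈ E, α * 4 ^ κ * (XX r) ^ κ ≤ (N : ℝ) ∧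
      (N : ℝ) ≤ α * 8 ^ κ * (XX r) ^ κ ∧
      ¬ ∃ l : List ℕ, l.length = d + 2 ∧ (∀ n ∈ l, 1 ≤ n) ∧ fs f l = N) →
      (E.card : ℝ) ≤ 36891 / c ^ 2 * (XX r) ^ (κ - σ / 4) := by
  have hE1 := eventually_rpow_le (C := 2) (A := 1 / 4 - κ) (B := 0) (by linarith)
  have hE2 := eventually_rpow_le (C := 64) (A := 1 - σ / 2) (B := 1) (by linarith)
  have hE3 := eventually_rpow_le (C := 2) (A := σ / 2) (B := σ) (by linarith)
  have hE4 := XX_tendsto.eventually_ge_atTop 16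
  have hE5 := eventually_rpow_le (C := 2) (A := κ - 3 / 4) (B := κ - 5 / 8) (by linarith)
  filter_upwards [hE1, hE2, hE3, hE4, hE5, hU, hne, hN, hmain] with r h1 h2 h3 h4 h5 hU hne hN hmain
  intro E hEE
  have hP1 : 1 ≤ XX r := XX_ge_one r
  have hP0 : 0 < XX r := XX_pos r
  set P : ℝ := XX r with hPdef
  rw [Real.rpow_zero] at h1
  rw [Real.rpow_one] at h2
  -- the parameter K
  set K : ℕ := ⌈P ^ (σ / 2)⌉₊ with hKdef
  have hPs1 : 1 ≤ P ^ (σ / 2) := Real.one_le_rpow hP1 (by linarith)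
  have hKlo : P ^ (σ / 2) ≤ (K : ℝ) := Nat.le_ceil _
  have hKhi : (K : ℝ) ≤ 2 * P ^ (σ / 2) := by
    have := (Nat.ceil_lt_add_one (show (0 : ℝ) ≤ P ^ (σ / 2) by linarith)).le
    linarith
  have hKs : (K : ℝ) ≤ P ^ σ := hKhi.trans h3
  have hK1 : 1 ≤ K := by
    have : (1 : ℝ) ≤ (K : ℝ) := hPs1.trans hKlo
    exact_mod_cast this
  have hΘ : P ^ (1 / 4 - κ) ≤ 1 / 2 := by linarith
  have hU0 : 0 ≤ P ^ (1 - σ) := Real.rpow_nonneg hP0.le _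
  obtain ⟨om, hom, hom1, hom2⟩ := letV (f := f) (Z := J1 P) (K := K) (U := P ^ (1 - σ))
    (Θ := P ^ (1 / 4 - κ)) hK1 hU0 hΘ (fun θ ha hb => hU θ ha (hb.trans hKs))
  set Om : ℝ := ∑ z ∈ J1 P, om z with hOmdef
  have hKU : (K : ℝ) * P ^ (1 - σ) ≤ 2 * P ^ (1 - σ / 2) := by
    calc (K : ℝ) * P ^ (1 - σ) ≤ (2 * P ^ (σ / 2)) * P ^ (1 - σ) :=
          mul_le_mul_of_nonneg_right hKhi hU0
      _ = 2 * P ^ (1 - σ / 2) := by
          rw [mul_assoc, ← Real.rpow_add hP0]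
          congr 2
          ring
  have hZ1 := card_J1_ge h4
  have hZ2 := card_J1_le h4
  have habs := abs_le.1 hom1
  have hOm1 : P / 32 ≤ Om := by linarith [habs.1]
  have hOm2 : Om ≤ P / 2 := by linarith [habs.2]
  have hOm0 : 0 < Om := by linarith
  -- the bound on the weighted sum
  have hsq : 2 * Real.sqrt (Om * ((J1 P).card : ℝ) / K) ≤ P ^ (1 - σ / 4) := by
    have e1 : Om * ((J1 P).card : ℝ) / K ≤ (P ^ (1 - σ / 4) / 2) ^ 2 := by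
      have e2 : (P ^ (1 - σ / 4) / 2) ^ 2 = P ^ (2 - σ / 2) / 4 := by
        rw [div_pow, ← Real.rpow_natCast (P ^ (1 - σ / 4)) 2, ← Real.rpow_mul hP0.le]
        norm_num
        congr 1
        ring
      have e3 : Om * ((J1 P).card : ℝ) ≤ P ^ 2 / 8 := by
        calc Om * ((J1 P).card : ℝ) ≤ (P / 2) * (P / 4) :=
              mul_le_mul hOm2 hZ2 (Nat.cast_nonneg _) (by positivity)
          _ = P ^ 2 / 8 := by ring
      have hK0 : (0 : ℝ) < K := by exact_mod_cast hK1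
      rw [e2, div_le_iff₀ hK0]
      have e4 : P ^ (2 - σ / 2) * P ^ (σ / 2) = P ^ 2 := by
        rw [← Real.rpow_add hP0, ← Real.rpow_natCast P 2]
        congr 1
        push_cast
        ring
      have e5 : P ^ (2 - σ / 2) * P ^ (σ / 2) ≤ P ^ (2 - σ / 2) * K :=
        mul_le_mul_of_nonneg_left hKlo (Real.rpow_nonneg hP0.le _)
      have e6 : 0 ≤ P ^ 2 := by positivity
      nlinarith [e3, e4, e5, e6]
    have e7 : Real.sqrt (Om * ((J1 P).card : ℝ) / K) ≤ P ^ (1 - σ / 4) / 2 :=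
      Real.sqrt_le_iff.2 ⟨by positivity, e1⟩
    linarith
  have hb : ∀ θ : ℝ, P ^ (1 / 4 - κ) ≤ |θ| → |θ| ≤ 1 / 2 →
      ‖∑ z ∈ J1 P, (om z : ℂ) * e (θ * ((⌊f z⌋ : ℤ) : ℝ))‖ ≤ 96 * P ^ (-(σ / 4)) * Om := by
    intro θ ht1 ht2
    refine (hom2 θ ht1 ht2).trans ?_
    have g1 : P ^ (1 - σ / 2) ≤ P ^ (1 - σ / 4) :=
      Real.rpow_le_rpow_of_exponent_le hP1 (by linarith)
    have g2 : P ^ (-(σ / 4)) * P = P ^ (1 - σ / 4) := by
      nth_rewrite 2 [← Real.rpow_one P]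
      rw [← Real.rpow_add hP0]
      congr 1
      ring
    have g3 : 0 ≤ P ^ (-(σ / 4)) := Real.rpow_nonneg hP0.le _
    have g4 : P ^ (-(σ / 4)) * (P / 32) ≤ P ^ (-(σ / 4)) * Om :=
      mul_le_mul_of_nonneg_left hOm1 g3
    have g5 : P ^ (-(σ / 4)) * (P / 32) = P ^ (1 - σ / 4) / 32 := by
      rw [← g2]
      ring
    linarith
  -- the parameter H
  set H : ℕ := ⌊P ^ (κ - 5 / 8)⌋₊ with hHdef
  have hH1 : (H : ℝ) ≤ P ^ (κ - 5 / 8) := Nat.floor_le (Real.rpow_nonneg hP0.le _)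
  have hH2 : P ^ (κ - 3 / 4) ≤ (H : ℝ) := by
    have := (Nat.lt_floor_add_one (P ^ (κ - 5 / 8))).le
    have h6 : 1 ≤ P ^ (κ - 3 / 4) := Real.one_le_rpow hP1 (by linarith)
    linarith
  have hH3 : (H : ℝ) ≤ P ^ (κ - 1 / 2) :=
    hH1.trans (Real.rpow_le_rpow_of_exponent_le hP1 (by linarith))
  have hQ : 0 < P ^ κ := Real.rpow_pos_of_pos hP0 _
  -- ha
  have ha : pairs (mainI P ×ˢ W r) (fun p => (⌊f p.1.1⌋ + fs f p.1.2) =
      (⌊f p.2.1⌋ + fs f p.2.2)) ≤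
      P ^ (σ / 8) * ((mainI P ×ˢ W r).card : ℝ) ^ 2 / P ^ κ := by
    refine (pairs_mono _ ?_).trans hN
    rintro ⟨u, w⟩ hw ⟨u', w'⟩ hw' hs
    simp only at hs ⊢
    have l1 := hlen r w (Finset.mem_product.1 hw).2
    have l2 := hlen r w' (Finset.mem_product.1 hw').2
    have b1 := rs_fs_bd2 f w
    have b2 := rs_fs_bd2 f w'
    rw [l1] at b1
    rw [l2] at b2
    have f1 := Int.floor_le (f u)
    have f2 := (Int.lt_floor_add_one (f u)).le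
    have f3 := Int.floor_le (f u')
    have f4 := (Int.lt_floor_add_one (f u')).le
    have hs' : (⌊f u⌋ : ℝ) + (fs f w : ℝ) = (⌊f u'⌋ : ℝ) + (fs f w' : ℝ) := by exact_mod_cast hs
    rw [abs_le]
    constructor
    · linarith [b1.1, b1.2, b2.1, b2.2]
    · linarith [b1.1, b1.2, b2.1, b2.2]
  have hΘ0 : 0 ≤ P ^ (1 / 4 - κ) := Real.rpow_nonneg hP0.le _
  have hβ0 : 0 ≤ 96 * P ^ (-(σ / 4)) := by positivity
  have hWne : (mainI P ×ˢ W r).Nonempty := by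
    refine Finset.Nonempty.product ?_ hne
    rw [← Finset.card_pos]
    have := card_mainI_ge hP1
    have h9 : (0 : ℝ) < ((mainI P).card : ℝ) := by linarith
    exact_mod_cast h9
  have hcore := core2 (W := mainI P ×ˢ W r)
    (s := fun p => ⌊f p.1⌋ + fs f p.2) (Z := J1 P) (v := fun z => ⌊f z⌋) (om := om)
    (Q := P ^ κ) (A := P ^ (σ / 8)) (c := c) (β := 96 * P ^ (-(σ / 4))) (Θ := P ^ (1 / 4 - κ))
    (H := H) (E := E) hQ hc0.le (fun z _ => hom z) hOm0 hWne hΘ0 hβ0 ha hb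
    (fun N hN => hmain om hom H hH2 hH3 N (hEE N hN).1 (hEE N hN).2.1)
    (by
      rintro N hN ⟨u, w⟩ hw z hz heq
      rw [Finset.mem_product] at hw
      refine (hEE N hN).2.2 ⟨(u :: w) ++ [z], ?_, ?_, ?_⟩
      · have l1 := hlen r w hw.2
        simp only [List.length_append, List.length_cons, List.length_nil]
        rw [l1]
      · have q1 : ∀ x ∈ mainI P, 1 ≤ x := by
          intro x hx
          have := ((mem_mainI hP0.le).1 hx).1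
          have : (1 : ℝ) < (x : ℝ) := lt_of_le_of_lt hP1 this
          have : 1 < x := by exact_mod_cast this
          omega
        have q2 : ∀ x ∈ J1 P, 1 ≤ x := by
          intro x hx
          have := ((mem_J1 hP0.le).1 hx).1
          have : (0 : ℝ) < (x : ℝ) := by linarith
          have : 0 < x := by exact_mod_cast this
          omega
        intro n hn
        simp only [List.mem_append, List.mem_cons, List.not_mem_nil, or_false] at hn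
        rcases hn with (rfl | hn) | rfl
        · exact q1 _ hw.1
        · exact hpos r w hw.2 n hn
        · exact q2 _ hz
      · simp only at heq
        rw [← heq]
        simp only [fs, List.map_append, List.map_cons, List.map_nil, List.sum_append,
          List.sum_cons, List.sum_nil]
        ring)
  -- conclusion
  have k1 : (H : ℝ) ^ 2 * (P ^ (1 / 4 - κ)) ^ 3 ≤ P ^ (-κ - 1 / 2) := by
    have e1 : (P ^ (κ - 5 / 8)) ^ 2 * (P ^ (1 / 4 - κ)) ^ 3 = P ^ (-κ - 1 / 2) := by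
      rw [← Real.rpow_natCast (P ^ (κ - 5 / 8)) 2, ← Real.rpow_mul hP0.le,
        ← Real.rpow_natCast (P ^ (1 / 4 - κ)) 3, ← Real.rpow_mul hP0.le, ← Real.rpow_add hP0]
      congr 1
      push_cast
      ring
    rw [← e1]
    gcongr
  have k2 : (96 * P ^ (-(σ / 4))) ^ 2 * P ^ (σ / 8) / P ^ κ = 9216 * P ^ (-κ - 3 * σ / 8) := by
    rw [mul_pow, ← Real.rpow_natCast (P ^ (-(σ / 4))) 2, ← Real.rpow_mul hP0.le,
      div_eq_mul_inv, ← Real.rpow_neg hP0.le, mul_assoc, mul_assoc, ← Real.rpow_add hP0,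
      ← Real.rpow_add hP0]
    norm_num
    congr 1
    ring
  have k3 : P ^ (-κ - 1 / 2) ≤ P ^ (-κ - σ / 4) :=
    Real.rpow_le_rpow_of_exponent_le hP1 (by linarith)
  have k4 : P ^ (-κ - 3 * σ / 8) ≤ P ^ (-κ - σ / 4) :=
    Real.rpow_le_rpow_of_exponent_le hP1 (by linarith)
  have k5 : (E.card : ℝ) * (c / P ^ κ) ^ 2 ≤ 36891 * P ^ (-κ - σ / 4) := by
    have e1 : 4 * (96 * P ^ (-(σ / 4))) ^ 2 * P ^ (σ / 8) / P ^ κ =
        4 * ((96 * P ^ (-(σ / 4))) ^ 2 * P ^ (σ / 8) / P ^ κ) := by ring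
    have e2 : 27 * (H : ℝ) ^ 2 * (P ^ (1 / 4 - κ)) ^ 3 =
        27 * ((H : ℝ) ^ 2 * (P ^ (1 / 4 - κ)) ^ 3) := by ring
    rw [e1, e2, k2] at hcore
    linarith
  have k6 : P ^ (-κ - σ / 4) * (P ^ κ) ^ 2 = P ^ (κ - σ / 4) := by
    rw [← Real.rpow_natCast (P ^ κ) 2, ← Real.rpow_mul hP0.le, ← Real.rpow_add hP0]
    congr 1
    push_cast
    ring
  have k7 : (E.card : ℝ) * c ^ 2 ≤ 36891 * P ^ (κ - σ / 4) := by
    have e1 : (E.card : ℝ) * c ^ 2 = (E.card : ℝ) * (c / P ^ κ) ^ 2 * (P ^ κ) ^ 2 := by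
      field_simp
    rw [e1, ← k6, ← mul_assoc]
    exact mul_le_mul_of_nonneg_right k5 (by positivity)
  have hc2 : 0 < c ^ 2 := by positivity
  rw [div_mul_eq_mul_div, le_div_iff₀ hc2]
  exact k7

theorem floor_almost {κ α σ : ℝ} {f : ℕ → ℝ} {d : ℕ} {W : ℕ → Finset (List ℕ)} (hκ : 5 / 4 ≤ κ)
    (hσ : 0 < σ) (hσ1 : σ ≤ 1) (hf : Grow κ α f)
    (hU : ∀ᶠ r : ℕ in atTop, ∀ θ : ℝ, (XX r) ^ (1 / 4 - κ) ≤ |θ| → |θ| ≤ (XX r) ^ σ →
      ‖∑ z ∈ J1 (XX r), e (θ * f z)‖ ≤ (XX r) ^ (1 - σ))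
    (hlen : ∀ r, ∀ w ∈ W r, w.length = d)
    (hpos : ∀ r, ∀ w ∈ W r, ∀ n ∈ w, 1 ≤ n)
    (hne : ∀ᶠ r : ℕ in atTop, (W r).Nonempty)
    (hS : ∀ᶠ r : ℕ in atTop, ∀ w ∈ W r, |rs f w| ≤ α * (XX r) ^ κ / 4)
    (hN : ∀ᶠ r : ℕ in atTop, pairs (mainI (XX r) ×ˢ W r) (fun p =>
        |(f p.1.1 + rs f p.1.2) - (f p.2.1 + rs f p.2.2)| ≤ (d : ℝ) + 1) ≤
      (XX r) ^ (σ / 8) * ((mainI (XX r) ×ˢ W r).card : ℝ) ^ 2 / (XX r) ^ κ) :
    ∃ δ : ℝ, 0 < δ ∧ ∃ C : ℝ, ∀ X : ℕ, 1 ≤ X →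
      cn (Finset.Icc 1 X) (fun N => ¬ ∃ l : List ℕ, l.length = d + 2 ∧ (∀ n ∈ l, 1 ≤ n) ∧
        fs f l = (N : ℤ)) ≤ C * (X : ℝ) ^ (1 - δ) := by
  obtain ⟨c, hc0, hmain⟩ := main_term2 hκ hf hlen hS
  have hev := asm2_key hκ hσ hσ1 hc0 hU hlen hpos hne hN hmain
  obtain ⟨R, hR⟩ := Filter.eventually_atTop.1 hev
  have hα := hf.pos
  have hκ0 : 0 < κ := by linarith
  have h4 : (0 : ℝ) < 4 ^ κ := Real.rpow_pos_of_pos (by norm_num) _
  set ρ : ℝ := κ - σ / 4 with hρ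
  have hρ0 : 0 < ρ := by linarith
  set bad : ℕ → Prop := fun N => ¬ ∃ l : List ℕ, l.length = d + 2 ∧ (∀ n ∈ l, 1 ≤ n) ∧
        fs f l = (N : ℤ) with hbad
  set B : ℕ → ℝ := fun r => α * 4 ^ κ * (XX r) ^ κ with hB
  have hB0 : ∀ r, 0 ≤ B r := fun r => by
    have := Real.rpow_nonneg (XX_pos r).le κ
    positivity
  set G : ℕ → ℝ := fun r => cn (Finset.Icc 1 ⌊B r⌋₊) bad with hG
  set C1 : ℝ := 36891 / c ^ 2 with hC1
  have hC10 : 0 < C1 := by positivity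
  have hXX : ∀ r, XX (r + 1) = 2 * XX r := fun r => by
    unfold XX
    rw [pow_succ]
    ring
  have hBs : ∀ r, B (r + 1) = α * 8 ^ κ * (XX r) ^ κ := fun r => by
    have e2 : (8 : ℝ) ^ κ = 4 ^ κ * 2 ^ κ := by
      rw [← Real.mul_rpow (by norm_num) (by norm_num)]
      norm_num
    simp only [hB]
    rw [hXX, Real.mul_rpow (by norm_num) (XX_pos r).le, e2]
    ring
  have hstep : ∀ r, R ≤ r → G (r + 1) ≤ G r + C1 * (XX r) ^ ρ := by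
    classical
    intro r hr
    set F : Finset ℕ := (Finset.Icc 1 ⌊B (r + 1)⌋₊).filter (fun N => ⌊B r⌋₊ < N ∧ bad N) with hF
    have hFc : (F.card : ℝ) ≤ C1 * (XX r) ^ ρ := by
      have h1 := hR r hr (F.image (fun n : ℕ => (n : ℤ))) (by
        intro N hN
        rw [Finset.mem_image] at hN
        obtain ⟨n, hn, rfl⟩ := hN
        rw [hF, Finset.mem_filter, Finset.mem_Icc] at hn
        refine ⟨?_, ?_, hn.2.2⟩
        · have h2 := (Nat.lt_floor_add_one (B r)).le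
          have h3 : ((⌊B r⌋₊ + 1 : ℕ) : ℝ) ≤ (n : ℝ) := by exact_mod_cast hn.2.1
          push_cast at h3 ⊢
          exact h2.trans h3
        · have h2 := (Nat.le_floor_iff (hB0 (r + 1))).1 hn.1.2
          rw [hBs] at h2
          push_cast
          exact h2)
      rwa [Finset.card_image_of_injective _ Nat.cast_injective] at h1
    have h1 : (Finset.Icc 1 ⌊B (r + 1)⌋₊).filter bad ⊆
        (Finset.Icc 1 ⌊B r⌋₊).filter bad ∪ F := by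
      intro N hN
      rw [Finset.mem_filter, Finset.mem_Icc] at hN
      rw [Finset.mem_union, hF, Finset.mem_filter, Finset.mem_filter, Finset.mem_Icc,
        Finset.mem_Icc]
      rcases le_or_gt N ⌊B r⌋₊ with h | h
      · exact Or.inl ⟨⟨hN.1.1, h⟩, hN.2⟩
      · exact Or.inr ⟨hN.1, h, hN.2⟩
    have h2 := (Finset.card_le_card h1).trans (Finset.card_union_le _ _)
    have h3 : G (r + 1) = (((Finset.Icc 1 ⌊B (r + 1)⌋₊).filter bad).card : ℝ) := by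
      simp only [hG, cn]
      congr
    have h4 : G r = (((Finset.Icc 1 ⌊B r⌋₊).filter bad).card : ℝ) := by
      simp only [hG, cn]
      congr
    have h5 : (((Finset.Icc 1 ⌊B (r + 1)⌋₊).filter bad).card : ℝ) ≤
        (((Finset.Icc 1 ⌊B r⌋₊).filter bad).card : ℝ) + (F.card : ℝ) := by exact_mod_cast h2
    rw [h3, h4]
    linarith
  have h2ρ : (1 : ℝ) < 2 ^ ρ := Real.one_lt_rpow (by norm_num) hρ0
  set C2 : ℝ := C1 / (2 ^ ρ - 1) with hC2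
  have hC20 : 0 < C2 := div_pos hC10 (by linarith)
  have hC2e : C2 * (2 ^ ρ - 1) = C1 := div_mul_cancel₀ _ (by linarith)
  have hXρ : ∀ r, (XX (r + 1)) ^ ρ = 2 ^ ρ * (XX r) ^ ρ := fun r => by
    rw [hXX, Real.mul_rpow (by norm_num) (XX_pos r).le]
  have hind : ∀ r, R ≤ r → G r ≤ G R + C2 * (XX r) ^ ρ := by
    intro r hr
    induction r, hr using Nat.le_induction with
    | base =>
      have : 0 ≤ C2 * (XX R) ^ ρ := mul_nonneg hC20.le (Real.rpow_nonneg (XX_pos R).le _)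
      linarith
    | succ r hr ih =>
      have h1 := hstep r hr
      have h2 : C2 * (XX (r + 1)) ^ ρ = C2 * (XX r) ^ ρ + C1 * (XX r) ^ ρ := by
        rw [hXρ, ← hC2e]
        ring
      rw [h2]
      linarith
  have hcn : ∀ X r : ℕ, (X : ℝ) ≤ B r → cn (Finset.Icc 1 X) bad ≤ G r := by
    classical
    intro X r hX
    have h1 : X ≤ ⌊B r⌋₊ := Nat.le_floor hX
    have h3 : G r = (((Finset.Icc 1 ⌊B r⌋₊).filter bad).card : ℝ) := by
      simp only [hG, cn]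
      congr
    have h4 : cn (Finset.Icc 1 X) bad = (((Finset.Icc 1 X).filter bad).card : ℝ) := by
      simp only [cn]
      congr
    rw [h3, h4]
    have h5 : (Finset.Icc 1 X).filter bad ⊆ (Finset.Icc 1 ⌊B r⌋₊).filter bad :=
      Finset.filter_subset_filter _ (Finset.Icc_subset_Icc le_rfl h1)
    exact_mod_cast Finset.card_le_card h5
  have hG0 : 0 ≤ G R := cn_nonneg _ _
  have hδ : ρ / κ = 1 - σ / (4 * κ) := by
    rw [hρ]
    field_simp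
  refine ⟨σ / (4 * κ), by positivity,
    G R + C2 * 2 ^ ρ * (1 / (α * 4 ^ κ)) ^ (ρ / κ), fun X hX => ?_⟩
  rw [← hδ]
  have hX1 : (1 : ℝ) ≤ (X : ℝ) := by exact_mod_cast hX
  have hXp : 1 ≤ (X : ℝ) ^ (ρ / κ) := Real.one_le_rpow hX1 (by positivity)
  have hrest : 0 ≤ C2 * 2 ^ ρ * (1 / (α * 4 ^ κ)) ^ (ρ / κ) := by positivity
  have hGX : G R ≤ G R * (X : ℝ) ^ (ρ / κ) := le_mul_of_one_le_right hG0 hXp
  rcases le_or_gt (X : ℝ) (B R) with h | h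
  · have h1 := hcn X R h
    have h2 : 0 ≤ C2 * 2 ^ ρ * (1 / (α * 4 ^ κ)) ^ (ρ / κ) * (X : ℝ) ^ (ρ / κ) := by positivity
    calc cn (Finset.Icc 1 X) bad ≤ G R := h1
      _ ≤ G R * (X : ℝ) ^ (ρ / κ) := hGX
      _ ≤ (G R + C2 * 2 ^ ρ * (1 / (α * 4 ^ κ)) ^ (ρ / κ)) * (X : ℝ) ^ (ρ / κ) := by
          rw [add_mul]
          linarith
  · have hbd : ∃ M : ℕ, ∀ r, M ≤ r → ¬ (B r ≤ (X : ℝ)) := by
      have ht : Tendsto B atTop atTop :=
        Tendsto.const_mul_atTop (by positivity)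
          ((tendsto_rpow_atTop hκ0).comp XX_tendsto)
      obtain ⟨M, hM⟩ := Filter.eventually_atTop.1 (ht.eventually_gt_atTop (X : ℝ))
      exact ⟨M, fun r hr => not_le.2 (hM r hr)⟩
    obtain ⟨r, hRr, hr1, hr2⟩ := exists_last2 (p := fun r => B r ≤ (X : ℝ)) h.le hbd
    have h1 := hcn X (r + 1) (not_le.1 hr2).le
    have h2 := hind (r + 1) (by omega)
    have h3 : (XX r) ^ κ ≤ 1 / (α * 4 ^ κ) * (X : ℝ) := by
      rw [div_mul_eq_mul_div, one_mul, le_div_iff₀ (by positivity)]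
      simp only [hB] at hr1
      linarith
    have h5 : (XX r) ^ ρ ≤ (1 / (α * 4 ^ κ)) ^ (ρ / κ) * (X : ℝ) ^ (ρ / κ) := by
      have e1 : (XX r) ^ ρ = ((XX r) ^ κ) ^ (ρ / κ) := by
        rw [← Real.rpow_mul (XX_pos r).le]
        congr 1
        field_simp
      rw [e1, ← Real.mul_rpow (by positivity) (by positivity)]
      exact Real.rpow_le_rpow (Real.rpow_nonneg (XX_pos r).le _) h3 (by positivity)
    have h6 : C2 * (XX (r + 1)) ^ ρ ≤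
        C2 * 2 ^ ρ * (1 / (α * 4 ^ κ)) ^ (ρ / κ) * (X : ℝ) ^ (ρ / κ) := by
      rw [hXρ]
      calc C2 * (2 ^ ρ * (XX r) ^ ρ) = (C2 * 2 ^ ρ) * (XX r) ^ ρ := by ring
        _ ≤ (C2 * 2 ^ ρ) * ((1 / (α * 4 ^ κ)) ^ (ρ / κ) * (X : ℝ) ^ (ρ / κ)) :=
            mul_le_mul_of_nonneg_left h5 (by positivity)
        _ = _ := by ring
    calc cn (Finset.Icc 1 X) bad ≤ G (r + 1) := h1
      _ ≤ G R + C2 * (XX (r + 1)) ^ ρ := h2
      _ ≤ G R * (X : ℝ) ^ (ρ / κ) +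
          C2 * 2 ^ ρ * (1 / (α * 4 ^ κ)) ^ (ρ / κ) * (X : ℝ) ^ (ρ / κ) := by linarith
      _ = (G R + C2 * 2 ^ ρ * (1 / (α * 4 ^ κ)) ^ (ρ / κ)) * (X : ℝ) ^ (ρ / κ) := by ring

end FWar
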