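import Pool.Agent.FWar.TayE
import Pool.Agent.MWg.Tools
import Pool.Agent.PolyMax.InvWeyl

/-!
# FWar.BlockE: exponential sums of n^κ over blocks

`P = XX r = 2^r`, `1 < κ ≤ K`, `κ` not an integer. `J1 P = (2^(r-3), 2^(r-2)]`.

CHOICES: `D := ⌈16 (K + 2)⌉₊ + 20` (so `(D+1)/16 ≥ K + 2`, `D ≥ K + 4`), `C ≥ 1` the constant of
`Pool.PolyMax.inverse_weyl` for this `D`, `σ' := 1/(64 (C+1))`, `σ := σ'/2`. Below `c, c', ...` are
positive constants depending on `κ, α, K` only, and `r` is large.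

BLOCKS (`blockE`). Let `M = ⌊P^(15/16)⌋₊`, `N` a natural number, `P/8 ≤ N ≤ P/4`,
`P^(1/4-κ) ≤ |θ| ≤ P^σ`. CLAIM: `|∑_{m<M} e(θ α (N+m)^κ)| ≤ P^(-σ') M`.
Suppose not. `tayE` (`M ≤ N`): with `g = ∑_{i≤D} θ α bc κ i N^(κ-i) X^i`,
`|θ α (N+m)^κ - g(m)| ≤ c |θ| N^(κ-D-1) M^(D+1) ≤ c' P^(σ + κ - (D+1)/16) ≤ c' P^(σ + K - K - 2) ≤ c' P^(-1)`,
so `|∑_{m<M} e(g m)| ≥ P^(-σ') M - 2π c' P^(-1) M ≥ λ M`, `λ = P^(-σ')/2`. By `inverse_weyl` there is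
`1 ≤ q ≤ C (2P^σ')^C` with `dz (q g_i) ≤ C (2 P^σ')^C / M^i` for all `i ≥ 1`, `g_i = θ α bc κ i N^(κ-i)`
for `1 ≤ i ≤ D`. Put `|θ| = P^(τ-κ)`, so `1/4 ≤ τ ≤ κ + σ`. Choose the natural number `i ≥ 1` with
`τ + 1/16 ≤ i ≤ τ + 1 + 1/16` (for example `i = ⌈τ + 1/16⌉`); `i ≤ K + 3 ≤ D`. Then
`c P^(τ-i) ≤ |g_i| ≤ c' P^(τ-i)` (`bc κ i ≠ 0`), `τ - i ≤ -1/16`, hence
`|q g_i| ≤ C (2P^σ')^C c' P^(-1/16) ≤ 1/2` for large `r` (`C σ' < 1/32`) and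
`dz (q g_i) = |q g_i| ≥ |g_i| ≥ c P^(τ-i)`. So
`c P^(τ-i) ≤ C (2P^σ')^C/M^i ≤ c'' P^(Cσ' - 15 i/16)` (`M ≥ P^(15/16)/2`), that is
`P^(τ - i/16 - Cσ') ≤ c'''`. But `i/16 ≤ (τ + 17/16)/16 ≤ τ/16 + 17/256`, and with `τ ≥ 1/4`:
`τ - i/16 - Cσ' ≥ (15/16) τ - 17/256 - 1/64 ≥ 60/256 - 17/256 - 4/256 > 0.15`: contradiction for
large `r`.
-/

namespace FWar

open MWg Finset Filter Topology
open Pool.PolyMax (e dz)

/-- Powers of numbers between `P / 8` and `P`. -/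
private theorem pow_nu {P N s S : ℝ} (hP : 0 < P) (h1 : P / 8 ≤ N) (h2 : N ≤ P) (hs : |s| ≤ S) :
    (8 : ℝ) ^ (-S) * P ^ s ≤ N ^ s ∧ N ^ s ≤ (8 : ℝ) ^ S * P ^ s := by
  have hN : 0 < N := by linarith
  obtain ⟨x, hx⟩ : ∃ x : ℝ, x = P / N := ⟨_, rfl⟩
  have hx1 : 1 ≤ x := by
    rw [hx, le_div_iff₀ hN]
    linarith
  have hx8 : x ≤ 8 := by
    rw [hx, div_le_iff₀ hN]
    linarith
  have hx0 : 0 < x := by linarith
  have hNx : N = P * x⁻¹ := by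
    rw [hx, inv_div]
    field_simp
  have hNs : N ^ s = x ^ (-s) * P ^ s := by
    rw [hNx, Real.mul_rpow hP.le (inv_nonneg.2 hx0.le), Real.inv_rpow hx0.le,
      Real.rpow_neg hx0.le]
    ring
  have hPs : 0 < P ^ s := Real.rpow_pos_of_pos hP s
  have hS : |(-s)| ≤ S := by rwa [abs_neg]
  have hup : ∀ t : ℝ, |t| ≤ S → x ^ t ≤ (8 : ℝ) ^ S := by
    intro t ht
    calc x ^ t ≤ x ^ |t| := Real.rpow_le_rpow_of_exponent_le hx1 (le_abs_self t)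
      _ ≤ (8 : ℝ) ^ |t| := Real.rpow_le_rpow hx0.le hx8 (abs_nonneg t)
      _ ≤ (8 : ℝ) ^ S := Real.rpow_le_rpow_of_exponent_le (by norm_num) ht
  constructor
  · rw [hNs]
    apply mul_le_mul_of_nonneg_right _ hPs.le
    rw [Real.rpow_neg hx0.le, Real.rpow_neg (by norm_num)]
    exact inv_anti₀ (Real.rpow_pos_of_pos hx0 s) (hup s hs)
  · rw [hNs]
    exact mul_le_mul_of_nonneg_right (hup (-s) hS) hPs.le

/-- Bounds for the binomial coefficients `bc κ i`, `i ≤ D`. -/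
private theorem bc_bounds {κ : ℝ} (h : ∀ n : ℕ, κ ≠ n) (D : ℕ) :
    ∃ b B : ℝ, 0 < b ∧ 0 < B ∧ ∀ i ≤ D, b ≤ |bc κ i| ∧ |bc κ i| ≤ B := by
  induction D with
  | zero =>
    refine ⟨|bc κ 0|, |bc κ 0|, abs_pos.2 (bc_ne h 0), abs_pos.2 (bc_ne h 0), fun i hi => ?_⟩
    have : i = 0 := by omega
    rw [this]
    exact ⟨le_rfl, le_rfl⟩
  | succ D ih =>
    obtain ⟨b, B, hb, hB, hh⟩ := ih
    refine ⟨min b |bc κ (D + 1)|, max B |bc κ (D + 1)|, lt_min hb (abs_pos.2 (bc_ne h _)),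
      lt_max_of_lt_left hB, fun i hi => ?_⟩
    rcases Nat.lt_or_ge D i with h1 | h1
    · have : i = D + 1 := by omega
      rw [this]
      exact ⟨min_le_right _ _, le_max_right _ _⟩
    · exact ⟨(min_le_left _ _).trans (hh i h1).1, (hh i h1).2.trans (le_max_left _ _)⟩

private theorem block_core {K κ α σ' : ℝ} {D C : ℕ} (hD : 16 * (K + 2) + 20 ≤ D) (hC : 1 ≤ C)
    (hW : ∀ (g : Polynomial ℝ) (N : ℕ) (lam : ℝ), g.natDegree ≤ D → 1 ≤ N → 0 < lam → lam ≤ 1 →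
      lam * N ≤ ‖∑ n ∈ range N, e (g.eval (n : ℝ))‖ →
      ∃ q : ℕ, 1 ≤ q ∧ (q : ℝ) ≤ C * (1 / lam) ^ C ∧
        ∀ i : ℕ, 1 ≤ i → dz ((q : ℝ) * g.coeff i) ≤ C * (1 / lam) ^ C / (N : ℝ) ^ i)
    (hσ : σ' = 1 / (64 * ((C : ℝ) + 1))) (h1 : 1 < κ) (hK : κ ≤ K) (hα : 0 < α)
    {CT b B : ℝ} (hCT : 0 < CT)
    (hT : ∀ N M : ℝ, 1 ≤ N → 0 ≤ M → M ≤ N → ∀ x : ℝ, 0 ≤ x → x ≤ M →
      |(N + x) ^ κ - ∑ i ∈ range (D + 1), bc κ i * N ^ (κ - (i : ℝ)) * x ^ i| ≤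
        CT * N ^ (κ - (D : ℝ) - 1) * M ^ (D + 1))
    (hb : 0 < b) (hB : 0 < B) (hbc : ∀ i ≤ D, b ≤ |bc κ i| ∧ |bc κ i| ≤ B)
    {P : ℝ} (hP8 : 8 ≤ P) (hE2 : 8 ≤ P ^ (1 / 16 : ℝ)) (hE3 : 2 ≤ P ^ (15 / 16 : ℝ))
    (hE4 : 4 * Real.pi * (α * CT * (8 : ℝ) ^ (K + (D + 1))) ≤ P ^ (1 / 2 : ℝ))
    (hE5 : 4 * (C * 2 ^ C * (α * B * (8 : ℝ) ^ (K + (D + 1)))) ≤ P ^ (3 / 64 : ℝ))
    (hE6 : (C : ℝ) * 2 ^ (C + D) * ((8 : ℝ) ^ (K + (D + 1)) / (α * b)) < P ^ (1 / 8 : ℝ))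
    (θ : ℝ) (hθ1 : P ^ (1 / 4 - κ) ≤ |θ|) (hθ2 : |θ| ≤ P ^ (σ' / 2)) (N : ℕ)
    (hN1 : P / 8 ≤ N) (hN2 : (N : ℝ) ≤ P / 4) :
    ‖∑ m ∈ range ⌊P ^ (15 / 16 : ℝ)⌋₊, e (θ * (α * ((N : ℝ) + (m : ℝ)) ^ κ))‖ ≤
      P ^ (-σ') * (⌊P ^ (15 / 16 : ℝ)⌋₊ : ℝ) := by
  have hP0 : 0 < P := by linarith
  have hP1 : 1 ≤ P := by linarith
  have hC0 : (0 : ℝ) ≤ C := Nat.cast_nonneg _
  have hC1 : (1 : ℝ) ≤ C := by exact_mod_cast hC
  have hD0 : (0 : ℝ) ≤ D := Nat.cast_nonneg _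
  have hσ0 : 0 < σ' := by rw [hσ]; positivity
  have hσ1 : σ' ≤ 1 / 64 := by
    rw [hσ]
    apply div_le_div_of_nonneg_left (by norm_num) (by norm_num)
    linarith
  have hCσ : C * σ' ≤ 1 / 64 := by
    rw [hσ, mul_one_div, div_le_div_iff₀ (by positivity) (by norm_num)]
    linarith
  set S : ℝ := K + (D + 1) with hS
  have hS0 : 0 ≤ S := by linarith
  have hNP : (N : ℝ) ≤ P := by linarith
  have hN0 : (0 : ℝ) < N := by linarith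
  have hNr1 : (1 : ℝ) ≤ N := by linarith
  set M : ℕ := ⌊P ^ (15 / 16 : ℝ)⌋₊ with hM
  have hMle : (M : ℝ) ≤ P ^ (15 / 16 : ℝ) := Nat.floor_le (by positivity)
  have hMge : P ^ (15 / 16 : ℝ) / 2 ≤ M := by
    have := Nat.lt_floor_add_one (P ^ (15 / 16 : ℝ))
    rw [← hM] at this
    linarith
  have hM1 : (1 : ℝ) ≤ M := by linarith
  have hM1' : 1 ≤ M := by exact_mod_cast hM1
  have hMN : (M : ℝ) ≤ N := by
    refine hMle.trans (le_trans ?_ hN1)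
    have e1 : P ^ (1 / 16 : ℝ) * P ^ (15 / 16 : ℝ) = P := by
      rw [← Real.rpow_add hP0]
      norm_num
    have e2 : 0 < P ^ (15 / 16 : ℝ) := by positivity
    rw [le_div_iff₀ (by norm_num)]
    nlinarith
  by_contra hcon
  push Not at hcon
  -- the polynomial
  obtain ⟨g, hg⟩ : ∃ g : Polynomial ℝ, g = ∑ i ∈ range (D + 1),
      Polynomial.C (θ * (α * (bc κ i * (N : ℝ) ^ (κ - (i : ℝ))))) * Polynomial.X ^ i := ⟨_, rfl⟩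
  have hgdeg : g.natDegree ≤ D := by
    rw [hg]
    apply Polynomial.natDegree_sum_le_of_forall_le
    intro i hi
    refine (Polynomial.natDegree_C_mul_X_pow_le _ _).trans ?_
    have := Finset.mem_range.1 hi
    omega
  have hgeval : ∀ x : ℝ, g.eval x =
      θ * (α * ∑ i ∈ range (D + 1), bc κ i * (N : ℝ) ^ (κ - (i : ℝ)) * x ^ i) := by
    intro x
    rw [hg, Polynomial.eval_finsetSum, Finset.mul_sum, Finset.mul_sum]
    refine Finset.sum_congr rfl fun i _ => ?_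
    rw [Polynomial.eval_mul, Polynomial.eval_C, Polynomial.eval_pow, Polynomial.eval_X]
    ring
  have hgcoeff : ∀ i ≤ D, g.coeff i = θ * (α * (bc κ i * (N : ℝ) ^ (κ - (i : ℝ)))) := by
    intro i hi
    rw [hg, Polynomial.finsetSum_coeff]
    rw [Finset.sum_eq_single i]
    · rw [Polynomial.coeff_C_mul, Polynomial.coeff_X_pow, if_pos rfl, mul_one]
    · intro j _ hj
      rw [Polynomial.coeff_C_mul, Polynomial.coeff_X_pow, if_neg (Ne.symm hj), mul_zero]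
    · intro h
      exact absurd (Finset.mem_range.2 (by omega)) h
  -- the error of the Taylor expansion
  have herr : ∀ m ∈ range M,
      ‖e (θ * (α * ((N : ℝ) + (m : ℝ)) ^ κ)) - e (g.eval (m : ℝ))‖ ≤ P ^ (-σ') / 2 := by
    intro m hm
    have hmM : (m : ℝ) ≤ M := by
      have := Finset.mem_range.1 hm
      exact_mod_cast this.le
    refine (Pool.PolyMax.norm_e_sub_e_le _ _).trans ?_
    rw [hgeval]
    have e1 := hT N M hNr1 (by linarith) hMN m (Nat.cast_nonneg _) hmM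
    have e2 : θ * (α * ((N : ℝ) + (m : ℝ)) ^ κ) -
        θ * (α * ∑ i ∈ range (D + 1), bc κ i * (N : ℝ) ^ (κ - (i : ℝ)) * (m : ℝ) ^ i) =
        θ * (α * (((N : ℝ) + (m : ℝ)) ^ κ -
          ∑ i ∈ range (D + 1), bc κ i * (N : ℝ) ^ (κ - (i : ℝ)) * (m : ℝ) ^ i)) := by ring
    rw [e2, abs_mul, abs_mul, abs_of_pos hα]
    have e3 : (N : ℝ) ^ (κ - (D : ℝ) - 1) ≤ (8 : ℝ) ^ S * P ^ (κ - (D : ℝ) - 1) := by
      refine (pow_nu hP0 hN1 hNP ?_).2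
      rw [abs_le]
      constructor <;> linarith
    have e4 : (M : ℝ) ^ (D + 1) ≤ P ^ (15 / 16 * ((D : ℝ) + 1)) := by
      calc (M : ℝ) ^ (D + 1) ≤ (P ^ (15 / 16 : ℝ)) ^ (D + 1) :=
            pow_le_pow_left₀ (Nat.cast_nonneg _) hMle _
        _ = P ^ (15 / 16 * ((D : ℝ) + 1)) := by
            rw [← Real.rpow_natCast, ← Real.rpow_mul hP0.le]
            push_cast
            rfl
    have e5 : |((N : ℝ) + (m : ℝ)) ^ κ -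
          ∑ i ∈ range (D + 1), bc κ i * (N : ℝ) ^ (κ - (i : ℝ)) * (m : ℝ) ^ i| ≤
        CT * ((8 : ℝ) ^ S * P ^ (κ - (D : ℝ) - 1)) * P ^ (15 / 16 * ((D : ℝ) + 1)) := by
      refine e1.trans ?_
      have h8 : (0 : ℝ) < (8 : ℝ) ^ S := by positivity
      exact mul_le_mul (mul_le_mul_of_nonneg_left e3 hCT.le) e4 (by positivity) (by positivity)
    have e6 : |θ| * (α * |((N : ℝ) + (m : ℝ)) ^ κ -
          ∑ i ∈ range (D + 1), bc κ i * (N : ℝ) ^ (κ - (i : ℝ)) * (m : ℝ) ^ i|) ≤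
        P ^ (σ' / 2) * (α * (CT * ((8 : ℝ) ^ S * P ^ (κ - (D : ℝ) - 1)) *
          P ^ (15 / 16 * ((D : ℝ) + 1)))) := by
      apply mul_le_mul hθ2 (mul_le_mul_of_nonneg_left e5 hα.le) (by positivity) (by positivity)
    have e7 : P ^ (σ' / 2) * (α * (CT * ((8 : ℝ) ^ S * P ^ (κ - (D : ℝ) - 1)) *
          P ^ (15 / 16 * ((D : ℝ) + 1)))) =
        (α * CT * (8 : ℝ) ^ S) * P ^ (σ' / 2 + (κ - (D : ℝ) - 1) + 15 / 16 * ((D : ℝ) + 1)) := by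
      rw [Real.rpow_add hP0, Real.rpow_add hP0]
      ring
    have e8 : P ^ (σ' / 2 + (κ - (D : ℝ) - 1) + 15 / 16 * ((D : ℝ) + 1)) ≤ P ^ (-1 : ℝ) := by
      apply Real.rpow_le_rpow_of_exponent_le hP1
      linarith
    have h8 : (0 : ℝ) < (8 : ℝ) ^ S := by positivity
    have e9 : |θ| * (α * |((N : ℝ) + (m : ℝ)) ^ κ -
          ∑ i ∈ range (D + 1), bc κ i * (N : ℝ) ^ (κ - (i : ℝ)) * (m : ℝ) ^ i|) ≤
        (α * CT * (8 : ℝ) ^ S) * P ^ (-1 : ℝ) := by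
      refine e6.trans ?_
      rw [e7]
      exact mul_le_mul_of_nonneg_left e8 (by positivity)
    have e10 : 2 * Real.pi * ((α * CT * (8 : ℝ) ^ S) * P ^ (-1 : ℝ)) ≤ P ^ (-σ') / 2 := by
      have f1 : P ^ (1 / 2 : ℝ) * P ^ (-1 : ℝ) ≤ P ^ (-σ') := by
        rw [← Real.rpow_add hP0]
        apply Real.rpow_le_rpow_of_exponent_le hP1
        linarith
      have f2 : 0 < P ^ (-1 : ℝ) := by positivity
      have f3 := mul_le_mul_of_nonneg_right hE4 f2.le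
      linarith
    calc _ ≤ 2 * Real.pi * ((α * CT * (8 : ℝ) ^ S) * P ^ (-1 : ℝ)) :=
          mul_le_mul_of_nonneg_left e9 (by positivity)
      _ ≤ _ := e10
  have hsum : P ^ (-σ') / 2 * M ≤ ‖∑ m ∈ range M, e (g.eval (m : ℝ))‖ := by
    have e1 : ‖∑ m ∈ range M, e (θ * (α * ((N : ℝ) + (m : ℝ)) ^ κ)) -
        ∑ m ∈ range M, e (g.eval (m : ℝ))‖ ≤ M * (P ^ (-σ') / 2) := by
      rw [← Finset.sum_sub_distrib]
      refine (norm_sum_le _ _).trans ((Finset.sum_le_sum herr).trans (le_of_eq ?_))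
      rw [Finset.sum_const, Finset.card_range, nsmul_eq_mul]
    have e2 := norm_sub_norm_le (∑ m ∈ range M, e (θ * (α * ((N : ℝ) + (m : ℝ)) ^ κ)))
      (∑ m ∈ range M, e (g.eval (m : ℝ)))
    linarith
  have hlam0 : 0 < P ^ (-σ') / 2 := by positivity
  have hlam1 : P ^ (-σ') / 2 ≤ 1 := by
    have : P ^ (-σ') ≤ P ^ (0 : ℝ) := Real.rpow_le_rpow_of_exponent_le hP1 (by linarith)
    rw [Real.rpow_zero] at this
    linarith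
  obtain ⟨q, hq1, hq2, hq3⟩ := hW g M (P ^ (-σ') / 2) hgdeg hM1' hlam0 hlam1 hsum
  have hlamC : (1 / (P ^ (-σ') / 2)) ^ C = 2 ^ C * P ^ (C * σ') := by
    have f1 : 1 / (P ^ (-σ') / 2) = 2 * P ^ σ' := by
      rw [Real.rpow_neg hP0.le]
      have : 0 < P ^ σ' := by positivity
      field_simp
    rw [f1, mul_pow]
    congr 1
    rw [← Real.rpow_natCast, ← Real.rpow_mul hP0.le, mul_comm]
  rw [hlamC] at hq2 hq3
  -- the exponent of `|θ|`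
  have hPne : P ≠ 1 := by linarith
  have hθpos : 0 < |θ| := lt_of_lt_of_le (by positivity) hθ1
  obtain ⟨τ, hτ⟩ : ∃ τ : ℝ, τ = κ + Real.logb P |θ| := ⟨_, rfl⟩
  have hθτ : |θ| = P ^ (τ - κ) := by
    rw [hτ, add_sub_cancel_left, Real.rpow_logb hP0 hPne hθpos]
  have hPgt1 : 1 < P := by linarith
  have hτ1 : 1 / 4 ≤ τ := by
    rw [hθτ] at hθ1
    have := (Real.rpow_le_rpow_left_iff hPgt1).1 hθ1
    linarith
  have hτ2 : τ ≤ κ + σ' / 2 := by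
    rw [hθτ] at hθ2
    have := (Real.rpow_le_rpow_left_iff hPgt1).1 hθ2
    linarith
  obtain ⟨i, hi⟩ : ∃ i : ℕ, i = ⌈τ + 1 / 16⌉₊ := ⟨_, rfl⟩
  have hi1 : τ + 1 / 16 ≤ i := by
    rw [hi]
    exact Nat.le_ceil _
  have hi2 : (i : ℝ) < τ + 1 / 16 + 1 := by
    rw [hi]
    exact Nat.ceil_lt_add_one (by linarith)
  have hi0 : 1 ≤ i := by
    have : (0 : ℝ) < i := by linarith
    exact_mod_cast this
  have hiD : i ≤ D := by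
    have : (i : ℝ) ≤ D := by linarith
    exact_mod_cast this
  have hiDr : (i : ℝ) ≤ D := by exact_mod_cast hiD
  have hi0r : (1 : ℝ) ≤ i := by exact_mod_cast hi0
  have hnu := pow_nu (s := κ - (i : ℝ)) (S := S) hP0 hN1 hNP (by
    rw [abs_le]
    constructor <;> linarith)
  have h8 : (0 : ℝ) < (8 : ℝ) ^ S := by positivity
  have hgabs : |g.coeff i| = P ^ (τ - κ) * (α * (|bc κ i| * (N : ℝ) ^ (κ - (i : ℝ)))) := by
    rw [hgcoeff i hiD, abs_mul, abs_mul, abs_mul, abs_of_pos hα, ← hθτ,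
      abs_of_pos (Real.rpow_pos_of_pos hN0 _)]
  have hPP : P ^ (τ - κ) * P ^ (κ - (i : ℝ)) = P ^ (τ - i) := by
    rw [← Real.rpow_add hP0]
    congr 1
    ring
  have hPτκ : 0 < P ^ (τ - κ) := by positivity
  have hPκi : 0 < P ^ (κ - (i : ℝ)) := by positivity
  have hPτi : 0 < P ^ (τ - (i : ℝ)) := by positivity
  have hgup : |g.coeff i| ≤ (α * B * (8 : ℝ) ^ S) * P ^ (τ - i) := by
    rw [hgabs, ← hPP]
    have f1 : |bc κ i| * (N : ℝ) ^ (κ - (i : ℝ)) ≤ B * ((8 : ℝ) ^ S * P ^ (κ - (i : ℝ))) :=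
      mul_le_mul (hbc i hiD).2 hnu.2 (by positivity) hB.le
    calc P ^ (τ - κ) * (α * (|bc κ i| * (N : ℝ) ^ (κ - (i : ℝ))))
        ≤ P ^ (τ - κ) * (α * (B * ((8 : ℝ) ^ S * P ^ (κ - (i : ℝ))))) :=
          mul_le_mul_of_nonneg_left (mul_le_mul_of_nonneg_left f1 hα.le) hPτκ.le
      _ = _ := by ring
  have hglow : (α * b / (8 : ℝ) ^ S) * P ^ (τ - i) ≤ |g.coeff i| := by
    rw [hgabs, ← hPP]
    have f0 : (8 : ℝ) ^ (-S) = 1 / (8 : ℝ) ^ S := by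
      rw [Real.rpow_neg (by norm_num), one_div]
    have f1 : b * (1 / (8 : ℝ) ^ S * P ^ (κ - (i : ℝ))) ≤ |bc κ i| * (N : ℝ) ^ (κ - (i : ℝ)) := by
      rw [← f0]
      exact mul_le_mul (hbc i hiD).1 hnu.1 (by positivity) (abs_nonneg _)
    calc (α * b / (8 : ℝ) ^ S) * (P ^ (τ - κ) * P ^ (κ - (i : ℝ)))
        = P ^ (τ - κ) * (α * (b * (1 / (8 : ℝ) ^ S * P ^ (κ - (i : ℝ))))) := by ring
      _ ≤ _ := mul_le_mul_of_nonneg_left (mul_le_mul_of_nonneg_left f1 hα.le) hPτκ.le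
  -- `q g_i` is small
  have hqg : |(q : ℝ) * g.coeff i| ≤ 1 / 2 := by
    rw [abs_mul, Nat.abs_cast]
    have f1 : (q : ℝ) * |g.coeff i| ≤
        (C * (2 ^ C * P ^ (C * σ'))) * ((α * B * (8 : ℝ) ^ S) * P ^ (τ - i)) :=
      mul_le_mul hq2 hgup (abs_nonneg _) (by positivity)
    have f2 : (C * (2 ^ C * P ^ (C * σ'))) * ((α * B * (8 : ℝ) ^ S) * P ^ (τ - i)) =
        (C * 2 ^ C * (α * B * (8 : ℝ) ^ S)) * P ^ (C * σ' + (τ - i)) := by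
      rw [Real.rpow_add hP0]
      ring
    have f3 : P ^ (C * σ' + (τ - i)) ≤ P ^ (-(3 / 64) : ℝ) := by
      apply Real.rpow_le_rpow_of_exponent_le hP1
      linarith
    have f4 : P ^ (3 / 64 : ℝ) * P ^ (-(3 / 64) : ℝ) = 1 := by
      rw [← Real.rpow_add hP0]
      norm_num
    have f5 : 0 < P ^ (-(3 / 64) : ℝ) := by positivity
    have f6 := mul_le_mul_of_nonneg_right hE5 f5.le
    rw [f4] at f6
    have f7 : (C * 2 ^ C * (α * B * (8 : ℝ) ^ S)) * P ^ (C * σ' + (τ - i)) ≤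
        (C * 2 ^ C * (α * B * (8 : ℝ) ^ S)) * P ^ (-(3 / 64) : ℝ) :=
      mul_le_mul_of_nonneg_left f3 (by positivity)
    linarith
  have hdz := hq3 i hi0
  rw [Pool.PolyMax.dz_eq_abs hqg, abs_mul, Nat.abs_cast] at hdz
  have hq1r : (1 : ℝ) ≤ q := by exact_mod_cast hq1
  have hle : |g.coeff i| ≤ C * (2 ^ C * P ^ (C * σ')) / (M : ℝ) ^ i := by
    refine le_trans ?_ hdz
    exact le_mul_of_one_le_left (abs_nonneg _) hq1r
  have hMi : P ^ (15 / 16 * (i : ℝ)) / 2 ^ D ≤ (M : ℝ) ^ i := by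
    have f1 : (P ^ (15 / 16 : ℝ) / 2) ^ i ≤ (M : ℝ) ^ i :=
      pow_le_pow_left₀ (by positivity) hMge _
    have f2 : (P ^ (15 / 16 : ℝ) / 2) ^ i = P ^ (15 / 16 * (i : ℝ)) / 2 ^ i := by
      rw [div_pow, ← Real.rpow_natCast (P ^ (15 / 16 : ℝ)) i, ← Real.rpow_mul hP0.le]
    rw [f2] at f1
    refine le_trans ?_ f1
    apply div_le_div_of_nonneg_left (by positivity) (by positivity)
    exact pow_le_pow_right₀ (by norm_num) hiD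
  have hfin1 : |g.coeff i| * (P ^ (15 / 16 * (i : ℝ)) / 2 ^ D) ≤ C * (2 ^ C * P ^ (C * σ')) := by
    have hMi0 : 0 < (M : ℝ) ^ i := by positivity
    rw [le_div_iff₀ hMi0] at hle
    exact (mul_le_mul_of_nonneg_left hMi (abs_nonneg _)).trans hle
  have hfin2 : (α * b / (8 : ℝ) ^ S) * P ^ (τ - i) * (P ^ (15 / 16 * (i : ℝ)) / 2 ^ D) ≤
      C * (2 ^ C * P ^ (C * σ')) :=
    (mul_le_mul_of_nonneg_right hglow (by positivity)).trans hfin1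
  -- the final contradiction
  have hx1 : P ^ (τ - i) * P ^ (15 / 16 * (i : ℝ)) =
      P ^ (C * σ') * P ^ (τ - i + 15 / 16 * i - C * σ') := by
    rw [← Real.rpow_add hP0, ← Real.rpow_add hP0]
    congr 1
    ring
  have hx2 : P ^ (1 / 8 : ℝ) ≤ P ^ (τ - i + 15 / 16 * i - C * σ') := by
    apply Real.rpow_le_rpow_of_exponent_le hP1
    linarith
  have hx3 : 0 < P ^ (C * σ') := by positivity
  have hx4 : (α * b / (8 : ℝ) ^ S) * P ^ (τ - i) * (P ^ (15 / 16 * (i : ℝ)) / 2 ^ D) =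
      (α * b / ((8 : ℝ) ^ S * 2 ^ D)) * (P ^ (τ - i) * P ^ (15 / 16 * (i : ℝ))) := by
    field_simp
  rw [hx4, hx1] at hfin2
  have hx5 : (α * b / ((8 : ℝ) ^ S * 2 ^ D)) * P ^ (τ - i + 15 / 16 * i - C * σ') ≤ C * 2 ^ C := by
    have : P ^ (C * σ') * ((α * b / ((8 : ℝ) ^ S * 2 ^ D)) *
        P ^ (τ - i + 15 / 16 * i - C * σ')) ≤ P ^ (C * σ') * (C * 2 ^ C) := by
      linarith
    exact le_of_mul_le_mul_left this hx3
  have hcoef : 0 < α * b / ((8 : ℝ) ^ S * 2 ^ D) := by positivity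
  have hx6 : (α * b / ((8 : ℝ) ^ S * 2 ^ D)) *
      ((C : ℝ) * 2 ^ (C + D) * ((8 : ℝ) ^ S / (α * b))) = C * 2 ^ C := by
    rw [pow_add]
    field_simp
  have hx7 := mul_lt_mul_of_pos_left (hE6.trans_le hx2) hcoef
  rw [hx6] at hx7
  linarith

/-- Block bound. -/
theorem blockE (K : ℝ) : ∃ σ' : ℝ, 0 < σ' ∧ σ' ≤ 1 / 32 ∧ ∀ κ : ℝ, 1 < κ → κ ≤ K →
    (∀ n : ℕ, κ ≠ n) → ∀ α : ℝ, 0 < α →
    ∀ᶠ r : ℕ in atTop, ∀ θ : ℝ, (XX r) ^ (1 / 4 - κ) ≤ |θ| → |θ| ≤ (XX r) ^ (σ' / 2) →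
      ∀ N : ℕ, XX r / 8 ≤ N → (N : ℝ) ≤ XX r / 4 →
        ‖∑ m ∈ range ⌊(XX r) ^ (15 / 16 : ℝ)⌋₊, e (θ * (α * ((N : ℝ) + (m : ℝ)) ^ κ))‖ ≤
          (XX r) ^ (-σ') * (⌊(XX r) ^ (15 / 16 : ℝ)⌋₊ : ℝ) := by
  obtain ⟨D, hD⟩ : ∃ D : ℕ, D = ⌈16 * (K + 2)⌉₊ + 20 := ⟨_, rfl⟩
  have hD' : 16 * (K + 2) + 20 ≤ D := by
    rw [hD]
    push_cast
    have := Nat.le_ceil (16 * (K + 2))
    linarith
  obtain ⟨C, hC, hW⟩ := Pool.PolyMax.inverse_weyl D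
  have hC1 : (1 : ℝ) ≤ C := by exact_mod_cast hC
  refine ⟨1 / (64 * ((C : ℝ) + 1)), by positivity, ?_, ?_⟩
  · apply div_le_div_of_nonneg_left (by norm_num) (by norm_num)
    linarith
  · intro κ h1 hK hκ α hα
    obtain ⟨CT, hCT, hT⟩ := tayE κ D
    obtain ⟨b, B, hb, hB, hbc⟩ := bc_bounds hκ D
    have hev : ∀ y : ℝ, 0 < y → ∀ c : ℝ, ∀ᶠ P : ℝ in atTop, c < P ^ y := fun y hy c =>
      (tendsto_rpow_atTop hy).eventually_gt_atTop c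
    have hall : ∀ᶠ P : ℝ in atTop, ∀ θ : ℝ, P ^ (1 / 4 - κ) ≤ |θ| →
        |θ| ≤ P ^ ((1 / (64 * ((C : ℝ) + 1))) / 2) →
        ∀ N : ℕ, P / 8 ≤ N → (N : ℝ) ≤ P / 4 →
        ‖∑ m ∈ range ⌊P ^ (15 / 16 : ℝ)⌋₊, e (θ * (α * ((N : ℝ) + (m : ℝ)) ^ κ))‖ ≤
          P ^ (-(1 / (64 * ((C : ℝ) + 1)))) * (⌊P ^ (15 / 16 : ℝ)⌋₊ : ℝ) := by
      filter_upwards [eventually_ge_atTop (8 : ℝ), hev (1 / 16) (by norm_num) 8,
        hev (15 / 16) (by norm_num) 2,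
        hev (1 / 2) (by norm_num) (4 * Real.pi * (α * CT * (8 : ℝ) ^ (K + (D + 1)))),
        hev (3 / 64) (by norm_num) (4 * (C * 2 ^ C * (α * B * (8 : ℝ) ^ (K + (D + 1))))),
        hev (1 / 8) (by norm_num) ((C : ℝ) * 2 ^ (C + D) * ((8 : ℝ) ^ (K + (D + 1)) / (α * b)))]
        with P hP8 hE2 hE3 hE4 hE5 hE6 θ hθ1 hθ2 N hN1 hN2
      exact block_core hD' hC hW rfl h1 hK hα hCT hT hb hB hbc hP8 hE2.le hE3.le hE4.le hE5.le hE6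
        θ hθ1 hθ2 N hN1 hN2
    exact XX_tendsto.eventually hall

end FWar
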