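import Pool.Agent.FWar.Defs
import Pool.Agent.PolyMax.Basic

/-!
# FWar.Core: the circle method inequality

`W` a finite set of words with integer values `s w`, `Z` a finite set of letters with integer values
`v z` and weights `om z ≥ 0`. `Ω = ∑ om z`.

PROOF. Put `C(θ) = ∑_{w ∈ W} e(θ s w)`, `V(θ) = ∑_{z ∈ Z} om z e(θ v z)`, `F = C V`, and for an
integer `n`
`R(n) = ∑_{z,z'} om z om z' #{(w,w') : s w + v z + s w' + v z' = n} = ∫_{-1/2}^{1/2} F(θ)² e(-nθ) dθ`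
(`∫_{-1/2}^{1/2} e(m θ) dθ = 1` if `m = 0`, `= 0` for the other integers `m`). Suppose that there is no
solution of `s w + v z + s w' + v z' = N`; then `R(N) = 0` and, with
`S := ∑_{|m| ≤ H} R(N + m) = ∑_{z,z'} om z om z' #{(w,w') : |s w + v z + s w' + v z' - N| ≤ H}`,
`S = ∑_{|m| ≤ H} (R(N+m) - R(N)) = ∫ F(θ)² e(-Nθ) ∑_{|m| ≤ H} (e(-mθ) - 1) dθ`.
Now `|e(-mθ) - 1| ≤ min (2, 2π|m||θ|) ≤ min (2, 2π H |θ|)`, so
`|∑_{|m| ≤ H} (e(-mθ) - 1)| ≤ (2H+1) min (2, 2π H |θ|)` and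
`S ≤ (2H+1) [ ∫_{|θ| ≤ Θ} 2π H |θ| |F(θ)|² dθ + 2 ∫_{Θ ≤ |θ| ≤ 1/2} |F(θ)|² dθ ]`.
For `|θ| ≤ Θ` use `|F| ≤ |W| Ω`: the first integral is at most `2π H Θ² |W|² Ω²`. For
`Θ ≤ |θ| ≤ 1/2` use `|V| ≤ β Ω` and `∫_{-1/2}^{1/2} |C|² = #{(w,w') : s w = s w'} ≤ A |W|²/Q`.
So `S ≤ (2H+1) |W|² Ω² (2π H Θ² + 2 β² A/Q) < (2H+1) |W|² Ω² c/Q`, a contradiction to `hc`.
(Simplest for Lean: bound the integrand pointwise on `[-1/2, 1/2]` by
`(2H+1) (2π H |θ| 1_{|θ| ≤ Θ} (|W| Ω)² + 2 β² Ω² |C(θ)|²)`, or even split the interval integral; the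
function `2π H |θ|` on `|θ| ≤ Θ` has integral `2π H Θ²`. If `Θ > 1/2` is inconvenient: then the whole
interval is in the first case and the bound still holds.)
-/

namespace FWar

open MWg Finset
open Pool.PolyMax (e)

open MeasureTheory

private lemma int_e1 (k : ℤ) :
    ∫ θ in (-(1 / 2) : ℝ)..(1 / 2), e (θ * (k : ℝ)) = if k = 0 then 1 else 0 := by
  split_ifs with hk
  · subst hk
    simp [Pool.PolyMax.e_zero]
    norm_num
  · have hk' : (k : ℂ) ≠ 0 := by exact_mod_cast hk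
    have hc : (2 * Real.pi * (k : ℂ) * Complex.I : ℂ) ≠ 0 := by
      refine mul_ne_zero (mul_ne_zero (mul_ne_zero two_ne_zero ?_) hk') Complex.I_ne_zero
      exact_mod_cast Real.pi_ne_zero
    have h1 : (fun θ : ℝ => e (θ * (k : ℝ))) =
        fun θ : ℝ => Complex.exp ((2 * Real.pi * (k : ℂ) * Complex.I) * θ) := by
      funext θ
      unfold Pool.PolyMax.e
      congr 1
      push_cast
      ring
    rw [h1, integral_exp_mul_complex hc]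
    have h2 : Complex.exp ((2 * Real.pi * (k : ℂ) * Complex.I) * ((1 / 2 : ℝ) : ℂ)) =
        Complex.exp ((2 * Real.pi * (k : ℂ) * Complex.I) * ((-(1 / 2) : ℝ) : ℂ)) := by
      have h3 : ((2 * Real.pi * (k : ℂ) * Complex.I) * ((1 / 2 : ℝ) : ℂ) : ℂ) =
          (2 * Real.pi * (k : ℂ) * Complex.I) * ((-(1 / 2) : ℝ) : ℂ) + (k : ℂ) * (2 * Real.pi * Complex.I) := by
        push_cast
        ring
      rw [h3, Complex.exp_add, Complex.exp_int_mul_two_pi_mul_I, mul_one]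
    rw [h2, sub_self, zero_div]

private lemma cont_e : Continuous e := by
  unfold Pool.PolyMax.e
  fun_prop

private lemma cont_ek (x : ℝ) : Continuous fun θ : ℝ => e (θ * x) :=
  cont_e.comp (by fun_prop)

/-- the kernel. -/
private noncomputable def ker (H : ℕ) (θ : ℝ) : ℂ :=
  ∑ m ∈ Finset.Icc (-(H : ℤ)) H, (e (-(θ * (m : ℝ))) - 1)

private lemma cont_ker (H : ℕ) : Continuous (ker H) := by
  unfold ker
  refine continuous_finsetSum _ fun m _ => ?_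
  exact (cont_e.comp (by fun_prop)).sub continuous_const

private lemma ker_le (H : ℕ) (θ : ℝ) :
    ‖ker H θ‖ ≤ (2 * H + 1) * (2 * Real.pi * H * |θ|) ∧ ‖ker H θ‖ ≤ (2 * H + 1) * 2 := by
  have hcard : ((Finset.Icc (-(H : ℤ)) H).card : ℝ) = 2 * H + 1 := by
    rw [Int.card_Icc]
    have : ((H : ℤ) + 1 - -(H : ℤ)).toNat = 2 * H + 1 := by omega
    rw [this]
    push_cast
    ring
  constructor
  · unfold ker
    refine (norm_sum_le _ _).trans ?_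
    rw [← hcard, ← nsmul_eq_mul]
    refine Finset.sum_le_card_nsmul _ _ _ fun m hm => ?_
    rw [Finset.mem_Icc] at hm
    refine (Pool.PolyMax.norm_e_sub_one_le _).trans ?_
    rw [abs_neg, abs_mul]
    have hm' : |(m : ℝ)| ≤ H := by
      rw [abs_le]
      constructor
      · exact_mod_cast hm.1
      · exact_mod_cast hm.2
    have : |θ| * |(m : ℝ)| ≤ |θ| * H := mul_le_mul_of_nonneg_left hm' (abs_nonneg _)
    have hpi := Real.pi_pos
    nlinarith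
  · unfold ker
    refine (norm_sum_le _ _).trans ?_
    rw [← hcard, ← nsmul_eq_mul]
    refine Finset.sum_le_card_nsmul _ _ _ fun m hm => ?_
    refine (norm_sub_le _ _).trans ?_
    rw [Pool.PolyMax.norm_e, norm_one]
    norm_num

private lemma gen {κ : Type*} (I : Finset κ) (f : κ → ℤ) (a : κ → ℝ) (H : ℕ) (N : ℤ)
    (hno : ∀ i ∈ I, f i ≠ N) :
    ∑ i ∈ I, a i * (if |f i - N| ≤ (H : ℤ) then (1 : ℝ) else 0) ≤
      ∫ θ in (-(1 / 2) : ℝ)..(1 / 2), ‖∑ i ∈ I, (a i : ℂ) * e (θ * (f i : ℝ))‖ * ‖ker H θ‖ := by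
  have h1 : ∀ i ∈ I, ∫ θ in (-(1 / 2) : ℝ)..(1 / 2), (a i : ℂ) * e (θ * (f i : ℝ)) * e (θ * ((-N : ℤ) : ℝ)) * ker H θ
      = ((a i * (if |f i - N| ≤ (H : ℤ) then (1 : ℝ) else 0) : ℝ) : ℂ) := by
    intro i hi
    have h2 : ∀ θ : ℝ, (a i : ℂ) * e (θ * (f i : ℝ)) * e (θ * ((-N : ℤ) : ℝ)) * ker H θ =
        ∑ m ∈ Finset.Icc (-(H : ℤ)) H, (a i : ℂ) * (e (θ * ((f i - N - m : ℤ) : ℝ)) - e (θ * ((f i - N : ℤ) : ℝ))) := by
      intro θ
      unfold ker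
      rw [Finset.mul_sum]
      refine Finset.sum_congr rfl fun m _ => ?_
      have e1 : e (θ * ((f i - N - m : ℤ) : ℝ)) = e (θ * (f i : ℝ)) * e (θ * ((-N : ℤ) : ℝ)) * e (-(θ * (m : ℝ))) := by
        rw [← Pool.PolyMax.e_add, ← Pool.PolyMax.e_add]
        congr 1
        push_cast
        ring
      have e2 : e (θ * ((f i - N : ℤ) : ℝ)) = e (θ * (f i : ℝ)) * e (θ * ((-N : ℤ) : ℝ)) := by
        rw [← Pool.PolyMax.e_add]
        congr 1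
        push_cast
        ring
      rw [e1, e2]
      ring
    rw [intervalIntegral.integral_congr (g := fun θ => ∑ m ∈ Finset.Icc (-(H : ℤ)) H,
      (a i : ℂ) * (e (θ * ((f i - N - m : ℤ) : ℝ)) - e (θ * ((f i - N : ℤ) : ℝ)))) (fun θ _ => h2 θ)]
    rw [intervalIntegral.integral_finsetSum]
    · have h3 : ∀ m ∈ Finset.Icc (-(H : ℤ)) H, ∫ θ in (-(1 / 2) : ℝ)..(1 / 2),
          (a i : ℂ) * (e (θ * ((f i - N - m : ℤ) : ℝ)) - e (θ * ((f i - N : ℤ) : ℝ))) =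
          (a i : ℂ) * (if m = f i - N then 1 else 0) := by
        intro m _
        rw [intervalIntegral.integral_const_mul, intervalIntegral.integral_sub
          ((cont_ek _).intervalIntegrable _ _) ((cont_ek _).intervalIntegrable _ _), int_e1, int_e1,
          if_neg (sub_ne_zero.2 (hno i hi)), sub_zero]
        congr 1
        by_cases hm : m = f i - N
        · rw [if_pos hm, if_pos (by omega)]
        · rw [if_neg hm, if_neg (by omega)]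
      rw [Finset.sum_congr rfl h3, ← Finset.mul_sum, Finset.sum_ite_eq']
      have h4 : (f i - N ∈ Finset.Icc (-(H : ℤ)) H) ↔ |f i - N| ≤ (H : ℤ) := by
        rw [Finset.mem_Icc, abs_le]
      by_cases hh : |f i - N| ≤ (H : ℤ)
      · rw [if_pos (h4.2 hh), if_pos hh]
        push_cast
        ring
      · rw [if_neg (fun h => hh (h4.1 h)), if_neg hh]
        push_cast
        ring
    · intro m _
      refine Continuous.intervalIntegrable ?_ _ _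
      exact continuous_const.mul ((cont_ek _).sub (cont_ek _))
  have h5 : ((∑ i ∈ I, a i * (if |f i - N| ≤ (H : ℤ) then (1 : ℝ) else 0) : ℝ) : ℂ) =
      ∫ θ in (-(1 / 2) : ℝ)..(1 / 2), (∑ i ∈ I, (a i : ℂ) * e (θ * (f i : ℝ))) * e (θ * ((-N : ℤ) : ℝ)) * ker H θ := by
    have h6 : ∀ θ : ℝ, (∑ i ∈ I, (a i : ℂ) * e (θ * (f i : ℝ))) * e (θ * ((-N : ℤ) : ℝ)) * ker H θ =
        ∑ i ∈ I, (a i : ℂ) * e (θ * (f i : ℝ)) * e (θ * ((-N : ℤ) : ℝ)) * ker H θ := by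
      intro θ
      rw [Finset.sum_mul, Finset.sum_mul]
    rw [intervalIntegral.integral_congr (g := fun θ => ∑ i ∈ I, (a i : ℂ) * e (θ * (f i : ℝ)) *
      e (θ * ((-N : ℤ) : ℝ)) * ker H θ) (fun θ _ => h6 θ)]
    rw [intervalIntegral.integral_finsetSum]
    · rw [Finset.sum_congr rfl h1, Complex.ofReal_sum]
    · intro i _
      refine Continuous.intervalIntegrable ?_ _ _
      exact ((continuous_const.mul (cont_ek _)).mul (cont_ek _)).mul (cont_ker H)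
  have h7 : ∑ i ∈ I, a i * (if |f i - N| ≤ (H : ℤ) then (1 : ℝ) else 0) ≤
      ‖((∑ i ∈ I, a i * (if |f i - N| ≤ (H : ℤ) then (1 : ℝ) else 0) : ℝ) : ℂ)‖ := by
    rw [Complex.norm_real]
    exact le_abs_self _
  refine h7.trans ?_
  rw [h5]
  refine (intervalIntegral.norm_integral_le_integral_norm (by norm_num)).trans (le_of_eq ?_)
  refine intervalIntegral.integral_congr fun θ _ => ?_
  simp only [norm_mul, Pool.PolyMax.norm_e, mul_one]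

private lemma int_abs (Θ : ℝ) (hΘ : 0 ≤ Θ) :
    IntegrableOn (fun θ : ℝ => Set.indicator (Set.Icc (-Θ) Θ) (fun x => |x|) θ) (Set.Ioc (-(1 / 2)) (1 / 2)) ∧
    ∫ θ in (-(1 / 2) : ℝ)..(1 / 2), Set.indicator (Set.Icc (-Θ) Θ) (fun x => |x|) θ ≤ Θ ^ 2 := by
  have hi : Integrable (fun θ : ℝ => Set.indicator (Set.Icc (-Θ) Θ) (fun x => |x|) θ) := by
    refine IntegrableOn.integrable_indicator ?_ measurableSet_Icc
    exact (continuous_abs.continuousOn).integrableOn_Icc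
  refine ⟨hi.integrableOn, ?_⟩
  rw [intervalIntegral.integral_of_le (by norm_num)]
  refine (setIntegral_le_integral hi (Filter.Eventually.of_forall fun x => ?_)).trans ?_
  · exact Set.indicator_nonneg (fun y _ => abs_nonneg y) x
  · rw [integral_indicator measurableSet_Icc, integral_Icc_eq_integral_Ioc,
      ← intervalIntegral.integral_of_le (by linarith)]
    have h1 : ∫ x in (-Θ)..Θ, |x| = (∫ x in (-Θ)..0, |x|) + ∫ x in (0:ℝ)..Θ, |x| := by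
      rw [intervalIntegral.integral_add_adjacent_intervals] <;>
        exact continuous_abs.intervalIntegrable _ _
    have h2 : ∫ x in (-Θ)..0, |x| = ∫ x in (-Θ)..0, -x := by
      refine intervalIntegral.integral_congr fun x hx => ?_
      rw [Set.uIcc_of_le (by linarith)] at hx
      exact abs_of_nonpos hx.2
    have h3 : ∫ x in (0:ℝ)..Θ, |x| = ∫ x in (0:ℝ)..Θ, x := by
      refine intervalIntegral.integral_congr fun x hx => ?_
      rw [Set.uIcc_of_le hΘ] at hx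
      exact abs_of_nonneg hx.1
    rw [h1, h2, h3, intervalIntegral.integral_neg, integral_id, integral_id]
    apply le_of_eq
    ring

private lemma sq_int {ι : Type*} (W : Finset ι) (s : ι → ℤ) :
    ∫ θ in (-(1 / 2) : ℝ)..(1 / 2), ‖∑ w ∈ W, e (θ * (s w : ℝ))‖ ^ 2 =
      pairs W (fun p => s p.1 = s p.2) := by
  classical
  have h1 : ∀ θ : ℝ, (((‖∑ w ∈ W, e (θ * (s w : ℝ))‖ ^ 2 : ℝ)) : ℂ) =
      ∑ p ∈ W ×ˢ W, e (θ * ((s p.1 - s p.2 : ℤ) : ℝ)) := by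
    intro θ
    have h2 : (((‖∑ w ∈ W, e (θ * (s w : ℝ))‖ ^ 2 : ℝ)) : ℂ) =
        (∑ w ∈ W, e (θ * (s w : ℝ))) * (starRingEnd ℂ) (∑ w ∈ W, e (θ * (s w : ℝ))) := by
      rw [Complex.mul_conj, Complex.normSq_eq_norm_sq]
    rw [h2, map_sum, Finset.sum_mul_sum, Finset.sum_product]
    refine Finset.sum_congr rfl fun w _ => Finset.sum_congr rfl fun w' _ => ?_
    rw [← Pool.PolyMax.e_neg, ← Pool.PolyMax.e_add]
    congr 1
    push_cast
    ring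
  have h3 : ((∫ θ in (-(1 / 2) : ℝ)..(1 / 2), ‖∑ w ∈ W, e (θ * (s w : ℝ))‖ ^ 2 : ℝ) : ℂ) =
      ((pairs W (fun p => s p.1 = s p.2) : ℝ) : ℂ) := by
    rw [← intervalIntegral.integral_ofReal]
    rw [intervalIntegral.integral_congr (g := fun θ => ∑ p ∈ W ×ˢ W, e (θ * ((s p.1 - s p.2 : ℤ) : ℝ)))
      (fun θ _ => h1 θ)]
    rw [intervalIntegral.integral_finsetSum]
    · have h4 : ∀ p ∈ W ×ˢ W, ∫ θ in (-(1 / 2) : ℝ)..(1 / 2), e (θ * ((s p.1 - s p.2 : ℤ) : ℝ)) =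
          if s p.1 = s p.2 then 1 else 0 := by
        intro p _
        rw [int_e1]
        by_cases hp : s p.1 = s p.2
        · rw [if_pos (by omega), if_pos hp]
        · rw [if_neg (by omega), if_neg hp]
      rw [Finset.sum_congr rfl h4, Finset.sum_boole]
      unfold pairs
      push_cast
      congr 2
      ext p
      simp
    · intro p _
      exact (cont_ek _).intervalIntegrable _ _
  exact_mod_cast h3

theorem core {ι : Type*} {W : Finset ι} {s : ι → ℤ} {Z : Finset ℕ} {v : ℕ → ℤ} {om : ℕ → ℝ}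
    {Q A c β Θ : ℝ} {H : ℕ} {N : ℤ} (hQ : 0 < Q) (hom : ∀ z ∈ Z, 0 ≤ om z)
    (hom0 : 0 < ∑ z ∈ Z, om z) (hW : W.Nonempty) (hΘ : 0 ≤ Θ) (hβ : 0 ≤ β)
    (ha : pairs W (fun p => s p.1 = s p.2) ≤ A * (W.card : ℝ) ^ 2 / Q)
    (hb : ∀ θ : ℝ, Θ ≤ |θ| → |θ| ≤ 1 / 2 →
      ‖∑ z ∈ Z, (om z : ℂ) * e (θ * (v z : ℝ))‖ ≤ β * ∑ z ∈ Z, om z)
    (hc : c * (2 * H + 1) * (W.card : ℝ) ^ 2 * (∑ z ∈ Z, om z) ^ 2 / Q ≤
      ∑ z ∈ Z, ∑ z' ∈ Z, om z * om z' *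
        pairs W (fun p => |s p.1 + v z + s p.2 + v z' - N| ≤ (H : ℤ)))
    (hd : 2 * Real.pi * H * Θ ^ 2 + 2 * β ^ 2 * A / Q < c / Q) :
    ∃ w ∈ W, ∃ w' ∈ W, ∃ z ∈ Z, ∃ z' ∈ Z, s w + v z + s w' + v z' = N := by
  classical
  by_contra hno
  push Not at hno
  set Om : ℝ := ∑ z ∈ Z, om z with hOm
  have hcard : 0 < (W.card : ℝ) := by
    have := Finset.card_pos.2 hW
    exact_mod_cast this
  -- apply the general inequality
  have h1 := gen ((Z ×ˢ Z) ×ˢ (W ×ˢ W)) (fun q => s q.2.1 + v q.1.1 + s q.2.2 + v q.1.2)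
    (fun q => om q.1.1 * om q.1.2) H N
    (by
      intro q hq
      rw [Finset.mem_product, Finset.mem_product, Finset.mem_product] at hq
      exact hno q.2.1 hq.2.1 q.2.2 hq.2.2 q.1.1 hq.1.1 q.1.2 hq.1.2)
  have h2 : ∑ q ∈ (Z ×ˢ Z) ×ˢ (W ×ˢ W), om q.1.1 * om q.1.2 *
      (if |s q.2.1 + v q.1.1 + s q.2.2 + v q.1.2 - N| ≤ (H : ℤ) then (1 : ℝ) else 0) =
      ∑ z ∈ Z, ∑ z' ∈ Z, om z * om z' *
        pairs W (fun p => |s p.1 + v z + s p.2 + v z' - N| ≤ (H : ℤ)) := by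
    rw [Finset.sum_product, Finset.sum_product]
    refine Finset.sum_congr rfl fun z _ => Finset.sum_congr rfl fun z' _ => ?_
    show ∑ y ∈ W ×ˢ W, om z * om z' *
      (if |s y.1 + v z + s y.2 + v z' - N| ≤ (H : ℤ) then (1 : ℝ) else 0) = _
    rw [← Finset.mul_sum, Finset.sum_boole]
    unfold pairs
    congr 3
    ext p
    simp
  have h3 : ∀ θ : ℝ, ∑ q ∈ (Z ×ˢ Z) ×ˢ (W ×ˢ W), ((om q.1.1 * om q.1.2 : ℝ) : ℂ) *
        e (θ * ((s q.2.1 + v q.1.1 + s q.2.2 + v q.1.2 : ℤ) : ℝ)) =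
      (∑ w ∈ W, e (θ * (s w : ℝ))) ^ 2 * (∑ z ∈ Z, (om z : ℂ) * e (θ * (v z : ℝ))) ^ 2 := by
    intro θ
    rw [Finset.sum_product, Finset.sum_product, sq (∑ z ∈ Z, (om z : ℂ) * e (θ * (v z : ℝ))),
      Finset.sum_mul_sum, Finset.mul_sum]
    refine Finset.sum_congr rfl fun z _ => ?_
    rw [Finset.mul_sum]
    refine Finset.sum_congr rfl fun z' _ => ?_
    rw [Finset.sum_product, sq, Finset.sum_mul_sum, Finset.sum_mul]
    refine Finset.sum_congr rfl fun w _ => ?_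
    rw [Finset.sum_mul]
    refine Finset.sum_congr rfl fun w' _ => ?_
    have : e (θ * ((s w + v z + s w' + v z' : ℤ) : ℝ)) =
        e (θ * (s w : ℝ)) * e (θ * (v z : ℝ)) * (e (θ * (s w' : ℝ)) * e (θ * (v z' : ℝ))) := by
      rw [← Pool.PolyMax.e_add, ← Pool.PolyMax.e_add, ← Pool.PolyMax.e_add]
      congr 1
      push_cast
      ring
    rw [this]
    push_cast
    ring
  have hCle : ∀ θ : ℝ, ‖∑ w ∈ W, e (θ * (s w : ℝ))‖ ≤ W.card := by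
    intro θ
    refine (norm_sum_le _ _).trans (le_of_eq ?_)
    simp [Pool.PolyMax.norm_e]
  have hVle : ∀ θ : ℝ, ‖∑ z ∈ Z, (om z : ℂ) * e (θ * (v z : ℝ))‖ ≤ Om := by
    intro θ
    refine (norm_sum_le _ _).trans (le_of_eq ?_)
    refine Finset.sum_congr rfl fun z hz => ?_
    rw [norm_mul, Pool.PolyMax.norm_e, mul_one, Complex.norm_real, Real.norm_eq_abs, abs_of_nonneg (hom z hz)]
  have hpi := Real.pi_pos
  have hHn : (0 : ℝ) ≤ H := Nat.cast_nonneg H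
  -- pointwise bound
  have h4 : ∀ θ ∈ Set.Icc (-(1 / 2) : ℝ) (1 / 2),
      ‖∑ q ∈ (Z ×ˢ Z) ×ˢ (W ×ˢ W), ((om q.1.1 * om q.1.2 : ℝ) : ℂ) *
        e (θ * ((s q.2.1 + v q.1.1 + s q.2.2 + v q.1.2 : ℤ) : ℝ))‖ * ‖ker H θ‖ ≤
      (2 * H + 1) * (2 * Real.pi * H * ((W.card : ℝ) ^ 2 * Om ^ 2)) *
        Set.indicator (Set.Icc (-Θ) Θ) (fun x => |x|) θ +
      (2 * H + 1) * (2 * (β * Om) ^ 2) * ‖∑ w ∈ W, e (θ * (s w : ℝ))‖ ^ 2 := by
    intro θ hθ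
    rw [h3, norm_mul, norm_pow, norm_pow]
    obtain ⟨hk1, hk2⟩ := ker_le H θ
    have hC0 := norm_nonneg (∑ w ∈ W, e (θ * (s w : ℝ)))
    have hV0 := norm_nonneg (∑ z ∈ Z, (om z : ℂ) * e (θ * (v z : ℝ)))
    have hC1 : ‖∑ w ∈ W, e (θ * (s w : ℝ))‖ ^ 2 ≤ (W.card : ℝ) ^ 2 := pow_le_pow_left₀ hC0 (hCle θ) 2
    have hV1 : ‖∑ z ∈ Z, (om z : ℂ) * e (θ * (v z : ℝ))‖ ^ 2 ≤ Om ^ 2 := pow_le_pow_left₀ hV0 (hVle θ) 2
    by_cases hθ' : |θ| ≤ Θ
    · have hmem : θ ∈ Set.Icc (-Θ) Θ := by rw [Set.mem_Icc]; exact abs_le.1 hθ'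
      rw [Set.indicator_of_mem hmem]
      have e1 : ‖∑ w ∈ W, e (θ * (s w : ℝ))‖ ^ 2 * ‖∑ z ∈ Z, (om z : ℂ) * e (θ * (v z : ℝ))‖ ^ 2 ≤
          (W.card : ℝ) ^ 2 * Om ^ 2 := mul_le_mul hC1 hV1 (by positivity) (by positivity)
      have e2 : ‖∑ w ∈ W, e (θ * (s w : ℝ))‖ ^ 2 * ‖∑ z ∈ Z, (om z : ℂ) * e (θ * (v z : ℝ))‖ ^ 2 * ‖ker H θ‖ ≤
          ((W.card : ℝ) ^ 2 * Om ^ 2) * ((2 * H + 1) * (2 * Real.pi * H * |θ|)) :=
        mul_le_mul e1 hk1 (norm_nonneg _) (by positivity)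
      have e3 : 0 ≤ (2 * (H : ℝ) + 1) * (2 * (β * Om) ^ 2) * ‖∑ w ∈ W, e (θ * (s w : ℝ))‖ ^ 2 := by positivity
      calc _ ≤ ((W.card : ℝ) ^ 2 * Om ^ 2) * ((2 * H + 1) * (2 * Real.pi * H * |θ|)) := e2
        _ = (2 * H + 1) * (2 * Real.pi * H * ((W.card : ℝ) ^ 2 * Om ^ 2)) * |θ| := by ring
        _ ≤ _ := by linarith
    · have hge : Θ ≤ |θ| := (not_le.1 hθ').le
      have hle : |θ| ≤ 1 / 2 := abs_le.2 ⟨by linarith [hθ.1], hθ.2⟩
      have hnm : θ ∉ Set.Icc (-Θ) Θ := by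
        rw [Set.mem_Icc]; exact fun h => hθ' (abs_le.2 h)
      rw [Set.indicator_of_notMem hnm, mul_zero, zero_add]
      have e1 : ‖∑ z ∈ Z, (om z : ℂ) * e (θ * (v z : ℝ))‖ ^ 2 ≤ (β * Om) ^ 2 :=
        pow_le_pow_left₀ hV0 (hb θ hge hle) 2
      have e2 : ‖∑ w ∈ W, e (θ * (s w : ℝ))‖ ^ 2 * ‖∑ z ∈ Z, (om z : ℂ) * e (θ * (v z : ℝ))‖ ^ 2 ≤
          ‖∑ w ∈ W, e (θ * (s w : ℝ))‖ ^ 2 * (β * Om) ^ 2 := mul_le_mul_of_nonneg_left e1 (by positivity)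
      have e3 : ‖∑ w ∈ W, e (θ * (s w : ℝ))‖ ^ 2 * ‖∑ z ∈ Z, (om z : ℂ) * e (θ * (v z : ℝ))‖ ^ 2 * ‖ker H θ‖ ≤
          (‖∑ w ∈ W, e (θ * (s w : ℝ))‖ ^ 2 * (β * Om) ^ 2) * ((2 * H + 1) * 2) :=
        mul_le_mul e2 hk2 (norm_nonneg _) (by positivity)
      calc _ ≤ (‖∑ w ∈ W, e (θ * (s w : ℝ))‖ ^ 2 * (β * Om) ^ 2) * ((2 * H + 1) * 2) := e3
        _ = _ := by ring
  -- integrate
  obtain ⟨hi1, hi2⟩ := int_abs Θ hΘ
  have hcontC : Continuous fun θ : ℝ => ‖∑ w ∈ W, e (θ * (s w : ℝ))‖ ^ 2 :=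
    (continuous_finsetSum _ fun w _ => cont_ek _).norm.pow 2
  have hint1 : IntervalIntegrable (fun θ => (2 * (H : ℝ) + 1) * (2 * Real.pi * H * ((W.card : ℝ) ^ 2 * Om ^ 2)) *
        Set.indicator (Set.Icc (-Θ) Θ) (fun x => |x|) θ) volume (-(1 / 2)) (1 / 2) := by
    refine IntervalIntegrable.const_mul ?_ _
    rw [intervalIntegrable_iff_integrableOn_Ioc_of_le (by norm_num)]
    exact hi1
  have hint2 : IntervalIntegrable (fun θ => (2 * (H : ℝ) + 1) * (2 * (β * Om) ^ 2) *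
      ‖∑ w ∈ W, e (θ * (s w : ℝ))‖ ^ 2) volume (-(1 / 2)) (1 / 2) :=
    (continuous_const.mul hcontC).intervalIntegrable _ _
  have h5 : ∫ θ in (-(1 / 2) : ℝ)..(1 / 2),
      ‖∑ q ∈ (Z ×ˢ Z) ×ˢ (W ×ˢ W), ((om q.1.1 * om q.1.2 : ℝ) : ℂ) *
        e (θ * ((s q.2.1 + v q.1.1 + s q.2.2 + v q.1.2 : ℤ) : ℝ))‖ * ‖ker H θ‖ ≤
      (2 * H + 1) * (2 * Real.pi * H * ((W.card : ℝ) ^ 2 * Om ^ 2)) * Θ ^ 2 +
      (2 * H + 1) * (2 * (β * Om) ^ 2) * (A * (W.card : ℝ) ^ 2 / Q) := by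
    refine (intervalIntegral.integral_mono_on (by norm_num) ?_ (hint1.add hint2) h4).trans ?_
    · refine Continuous.intervalIntegrable ?_ _ _
      refine Continuous.mul (Continuous.norm ?_) (cont_ker H).norm
      exact continuous_finsetSum _ fun q _ => continuous_const.mul (cont_ek _)
    · rw [intervalIntegral.integral_add hint1 hint2, intervalIntegral.integral_const_mul,
        intervalIntegral.integral_const_mul, sq_int]
      refine add_le_add (mul_le_mul_of_nonneg_left hi2 (by positivity))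
        (mul_le_mul_of_nonneg_left ha (by positivity))
  rw [h2] at h1
  have h6 : c * (2 * H + 1) * (W.card : ℝ) ^ 2 * Om ^ 2 / Q ≤
      (2 * H + 1) * (2 * Real.pi * H * ((W.card : ℝ) ^ 2 * Om ^ 2)) * Θ ^ 2 +
      (2 * H + 1) * (2 * (β * Om) ^ 2) * (A * (W.card : ℝ) ^ 2 / Q) := hc.trans (h1.trans h5)
  have h7 : 0 < (2 * (H : ℝ) + 1) * (W.card : ℝ) ^ 2 * Om ^ 2 := by positivity
  have h8 := mul_lt_mul_of_pos_left hd h7
  have h9 : (2 * (H : ℝ) + 1) * (W.card : ℝ) ^ 2 * Om ^ 2 * (c / Q) =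
      c * (2 * H + 1) * (W.card : ℝ) ^ 2 * Om ^ 2 / Q := by
    ring
  have h10 : (2 * (H : ℝ) + 1) * (W.card : ℝ) ^ 2 * Om ^ 2 *
      (2 * Real.pi * H * Θ ^ 2 + 2 * β ^ 2 * A / Q) =
      (2 * H + 1) * (2 * Real.pi * H * ((W.card : ℝ) ^ 2 * Om ^ 2)) * Θ ^ 2 +
      (2 * H + 1) * (2 * (β * Om) ^ 2) * (A * (W.card : ℝ) ^ 2 / Q) := by
    ring
  rw [h9, h10] at h8
  linarith

end FWar
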