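import Pool.Agent.FWar.Defs
import Pool.Agent.PolyMax.Basic

/-!
# FWar.Core2: mean square inequality for almost all integers (Bessel)

`W` words with integer values `s w`, one weighted letter `z ∈ Z` with values `v z`; `E` a finite set of
integers which are not of the form `s w + v z`.

PROOF (compare `FWar.Core1`). `C(θ) = ∑_{w ∈ W} e(θ s w)`, `V(θ) = ∑_{z ∈ Z} om z e(θ v z)`,
`Ω = ∑ om z`, `R(n) = ∑_z om z #{w : s w + v z = n} = ∫_{-1/2}^{1/2} C V e(-nθ) dθ`.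
For `N ∈ E`: `R(N) = 0`, so
`T(N) := (2H+1)^{-1} ∑_{|m| ≤ H} R(N+m) = ∫ C V κ(θ) e(-Nθ) dθ`,
`κ(θ) = (2H+1)^{-1} ∑_{|m| ≤ H} (e(-mθ) - 1)`, `|κ(θ)| ≤ min (2, 2π H |θ|)`.
So `T(N)` is the `N`-th Fourier coefficient of the trigonometric polynomial `g = C V κ`, and
`∑_{N ∈ E} |T(N)|² ≤ ∫_{-1/2}^{1/2} |g|²` (the integral is the sum of the squares of all the
coefficients). Now `∫ |g|² ≤ ∫_{|θ| ≤ Θ} (|W| Ω)² (2π H |θ|)² dθ + 4 β² Ω² ∫ |C|²
≤ (|W| Ω)² (4π² H² (2/3) Θ³ + 4 β² A/Q)`, `8π²/3 ≤ 27`, while `T(N) ≥ c |W| Ω/Q` for `N ∈ E` by `hc`.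
-/

namespace FWar

open MWg Finset
open Pool.PolyMax (e)
open MeasureTheory

private lemma int_e1 (k : ℤ) :
    ∫ θ in (-(1 / 2) : ℝ)..(1 / 2), e (θ * (k : ℝ)) = if k = 0 then 1 else 0 := by
  split_ifs with hk
  · subst hk
    simp [Pool.PolyMax.e_zero]
    norm_num
  · have hk' : (k : ℂ) ≠ 0 := by exact_mod_cast hk
    have hc : (2 * Real.pi * (k : ℂ) * Complex.I : ℂ) ≠ 0 := by
      refine mul_ne_zero (mul_ne_zero (mul_ne_zero two_ne_zero ?_) hk') Complex.I_ne_zero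
      exact_mod_cast Real.pi_ne_zero
    have h1 : (fun θ : ℝ => e (θ * (k : ℝ))) =
        fun θ : ℝ => Complex.exp ((2 * Real.pi * (k : ℂ) * Complex.I) * θ) := by
      funext θ
      unfold Pool.PolyMax.e
      congr 1
      push_cast
      ring
    rw [h1, integral_exp_mul_complex hc]
    have h2 : Complex.exp ((2 * Real.pi * (k : ℂ) * Complex.I) * ((1 / 2 : ℝ) : ℂ)) =
        Complex.exp ((2 * Real.pi * (k : ℂ) * Complex.I) * ((-(1 / 2) : ℝ) : ℂ)) := by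
      have h3 : ((2 * Real.pi * (k : ℂ) * Complex.I) * ((1 / 2 : ℝ) : ℂ) : ℂ) =
          (2 * Real.pi * (k : ℂ) * Complex.I) * ((-(1 / 2) : ℝ) : ℂ) + (k : ℂ) * (2 * Real.pi * Complex.I) := by
        push_cast
        ring
      rw [h3, Complex.exp_add, Complex.exp_int_mul_two_pi_mul_I, mul_one]
    rw [h2, sub_self, zero_div]

private lemma cont_e : Continuous e := by
  unfold Pool.PolyMax.e
  fun_prop

private lemma cont_ek (x : ℝ) : Continuous fun θ : ℝ => e (θ * x) :=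
  cont_e.comp (by fun_prop)

/-- the kernel. -/
private noncomputable def ker (H : ℕ) (θ : ℝ) : ℂ :=
  ∑ m ∈ Finset.Icc (-(H : ℤ)) H, (e (-(θ * (m : ℝ))) - 1)

private lemma cont_ker (H : ℕ) : Continuous (ker H) := by
  unfold ker
  refine continuous_finsetSum _ fun m _ => ?_
  exact (cont_e.comp (by fun_prop)).sub continuous_const

private lemma ker_le (H : ℕ) (θ : ℝ) :
    ‖ker H θ‖ ≤ (2 * H + 1) * (2 * Real.pi * H * |θ|) ∧ ‖ker H θ‖ ≤ (2 * H + 1) * 2 := by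
  have hcard : ((Finset.Icc (-(H : ℤ)) H).card : ℝ) = 2 * H + 1 := by
    rw [Int.card_Icc]
    have : ((H : ℤ) + 1 - -(H : ℤ)).toNat = 2 * H + 1 := by omega
    rw [this]
    push_cast
    ring
  constructor
  · unfold ker
    refine (norm_sum_le _ _).trans ?_
    rw [← hcard, ← nsmul_eq_mul]
    refine Finset.sum_le_card_nsmul _ _ _ fun m hm => ?_
    rw [Finset.mem_Icc] at hm
    refine (Pool.PolyMax.norm_e_sub_one_le _).trans ?_
    rw [abs_neg, abs_mul]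
    have hm' : |(m : ℝ)| ≤ H := by
      rw [abs_le]
      constructor
      · exact_mod_cast hm.1
      · exact_mod_cast hm.2
    have : |θ| * |(m : ℝ)| ≤ |θ| * H := mul_le_mul_of_nonneg_left hm' (abs_nonneg _)
    have hpi := Real.pi_pos
    nlinarith
  · unfold ker
    refine (norm_sum_le _ _).trans ?_
    rw [← hcard, ← nsmul_eq_mul]
    refine Finset.sum_le_card_nsmul _ _ _ fun m hm => ?_
    refine (norm_sub_le _ _).trans ?_
    rw [Pool.PolyMax.norm_e, norm_one]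
    norm_num

private lemma fc {κ : Type*} (I : Finset κ) (f : κ → ℤ) (a : κ → ℝ) (H : ℕ) (N : ℤ)
    (hno : ∀ i ∈ I, f i ≠ N) :
    ((∑ i ∈ I, a i * (if |f i - N| ≤ (H : ℤ) then (1 : ℝ) else 0) : ℝ) : ℂ) =
      ∫ θ in (-(1 / 2) : ℝ)..(1 / 2),
        (∑ i ∈ I, (a i : ℂ) * e (θ * (f i : ℝ))) * e (θ * ((-N : ℤ) : ℝ)) * ker H θ := by
  have h1 : ∀ i ∈ I, ∫ θ in (-(1 / 2) : ℝ)..(1 / 2), (a i : ℂ) * e (θ * (f i : ℝ)) * e (θ * ((-N : ℤ) : ℝ)) * ker H θ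
      = ((a i * (if |f i - N| ≤ (H : ℤ) then (1 : ℝ) else 0) : ℝ) : ℂ) := by
    intro i hi
    have h2 : ∀ θ : ℝ, (a i : ℂ) * e (θ * (f i : ℝ)) * e (θ * ((-N : ℤ) : ℝ)) * ker H θ =
        ∑ m ∈ Finset.Icc (-(H : ℤ)) H, (a i : ℂ) * (e (θ * ((f i - N - m : ℤ) : ℝ)) - e (θ * ((f i - N : ℤ) : ℝ))) := by
      intro θ
      unfold ker
      rw [Finset.mul_sum]
      refine Finset.sum_congr rfl fun m _ => ?_
      have e1 : e (θ * ((f i - N - m : ℤ) : ℝ)) = e (θ * (f i : ℝ)) * e (θ * ((-N : ℤ) : ℝ)) * e (-(θ * (m : ℝ))) := by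
        rw [← Pool.PolyMax.e_add, ← Pool.PolyMax.e_add]
        congr 1
        push_cast
        ring
      have e2 : e (θ * ((f i - N : ℤ) : ℝ)) = e (θ * (f i : ℝ)) * e (θ * ((-N : ℤ) : ℝ)) := by
        rw [← Pool.PolyMax.e_add]
        congr 1
        push_cast
        ring
      rw [e1, e2]
      ring
    rw [intervalIntegral.integral_congr (g := fun θ => ∑ m ∈ Finset.Icc (-(H : ℤ)) H,
      (a i : ℂ) * (e (θ * ((f i - N - m : ℤ) : ℝ)) - e (θ * ((f i - N : ℤ) : ℝ)))) (fun θ _ => h2 θ)]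
    rw [intervalIntegral.integral_finsetSum]
    · have h3 : ∀ m ∈ Finset.Icc (-(H : ℤ)) H, ∫ θ in (-(1 / 2) : ℝ)..(1 / 2),
          (a i : ℂ) * (e (θ * ((f i - N - m : ℤ) : ℝ)) - e (θ * ((f i - N : ℤ) : ℝ))) =
          (a i : ℂ) * (if m = f i - N then 1 else 0) := by
        intro m _
        rw [intervalIntegral.integral_const_mul, intervalIntegral.integral_sub
          ((cont_ek _).intervalIntegrable _ _) ((cont_ek _).intervalIntegrable _ _), int_e1, int_e1,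
          if_neg (sub_ne_zero.2 (hno i hi)), sub_zero]
        congr 1
        by_cases hm : m = f i - N
        · rw [if_pos hm, if_pos (by omega)]
        · rw [if_neg hm, if_neg (by omega)]
      rw [Finset.sum_congr rfl h3, ← Finset.mul_sum, Finset.sum_ite_eq']
      have h4 : (f i - N ∈ Finset.Icc (-(H : ℤ)) H) ↔ |f i - N| ≤ (H : ℤ) := by
        rw [Finset.mem_Icc, abs_le]
      by_cases hh : |f i - N| ≤ (H : ℤ)
      · rw [if_pos (h4.2 hh), if_pos hh]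
        push_cast
        ring
      · rw [if_neg (fun h => hh (h4.1 h)), if_neg hh]
        push_cast
        ring
    · intro m _
      refine Continuous.intervalIntegrable ?_ _ _
      exact continuous_const.mul ((cont_ek _).sub (cont_ek _))
  have h6 : ∀ θ : ℝ, (∑ i ∈ I, (a i : ℂ) * e (θ * (f i : ℝ))) * e (θ * ((-N : ℤ) : ℝ)) * ker H θ =
      ∑ i ∈ I, (a i : ℂ) * e (θ * (f i : ℝ)) * e (θ * ((-N : ℤ) : ℝ)) * ker H θ := by
    intro θ
    rw [Finset.sum_mul, Finset.sum_mul]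
  rw [intervalIntegral.integral_congr (g := fun θ => ∑ i ∈ I, (a i : ℂ) * e (θ * (f i : ℝ)) *
    e (θ * ((-N : ℤ) : ℝ)) * ker H θ) (fun θ _ => h6 θ)]
  rw [intervalIntegral.integral_finsetSum]
  · rw [Finset.sum_congr rfl h1, Complex.ofReal_sum]
  · intro i _
    refine Continuous.intervalIntegrable ?_ _ _
    exact ((continuous_const.mul (cont_ek _)).mul (cont_ek _)).mul (cont_ker H)

/-- Bessel inequality. -/
private lemma bessel (E : Finset ℤ) (t : ℤ → ℝ) (G : ℝ → ℂ) (hG : Continuous G)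
    (h : ∀ N ∈ E, ((t N : ℝ) : ℂ) = ∫ θ in (-(1 / 2) : ℝ)..(1 / 2), G θ * e (θ * ((-N : ℤ) : ℝ))) :
    ∑ N ∈ E, t N ^ 2 ≤ ∫ θ in (-(1 / 2) : ℝ)..(1 / 2), ‖G θ‖ ^ 2 := by
  classical
  set P : ℝ → ℂ := fun θ => ∑ N ∈ E, (t N : ℂ) * e (θ * (N : ℝ)) with hP
  have hPc : Continuous P := continuous_finsetSum _ fun N _ => continuous_const.mul (cont_ek _)
  have hconj : ∀ θ, (starRingEnd ℂ) (P θ) = ∑ N ∈ E, (t N : ℂ) * e (θ * ((-N : ℤ) : ℝ)) := by
    intro θ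
    rw [hP]
    simp only [map_sum, map_mul, Complex.conj_ofReal]
    refine Finset.sum_congr rfl fun N _ => ?_
    rw [← Pool.PolyMax.e_neg]
    congr 2
    push_cast
    ring
  have hconjc : Continuous fun θ => (starRingEnd ℂ) (P θ) := Complex.continuous_conj.comp hPc
  -- integral of G * conj P
  have hGP : ∫ θ in (-(1 / 2) : ℝ)..(1 / 2), G θ * (starRingEnd ℂ) (P θ) =
      ((∑ N ∈ E, t N ^ 2 : ℝ) : ℂ) := by
    have h1 : ∀ θ : ℝ, G θ * (starRingEnd ℂ) (P θ) =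
        ∑ N ∈ E, (t N : ℂ) * (G θ * e (θ * ((-N : ℤ) : ℝ))) := by
      intro θ
      rw [hconj, Finset.mul_sum]
      refine Finset.sum_congr rfl fun N _ => by ring
    rw [intervalIntegral.integral_congr (g := fun θ => ∑ N ∈ E, (t N : ℂ) *
      (G θ * e (θ * ((-N : ℤ) : ℝ)))) (fun θ _ => h1 θ), intervalIntegral.integral_finsetSum]
    · rw [Complex.ofReal_sum]
      refine Finset.sum_congr rfl fun N hN => ?_
      rw [intervalIntegral.integral_const_mul, ← h N hN]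
      push_cast
      ring
    · intro N _
      exact (continuous_const.mul (hG.mul (cont_ek _))).intervalIntegrable _ _
  have hPP : ∫ θ in (-(1 / 2) : ℝ)..(1 / 2), P θ * (starRingEnd ℂ) (P θ) =
      ((∑ N ∈ E, t N ^ 2 : ℝ) : ℂ) := by
    have h1 : ∀ θ : ℝ, P θ * (starRingEnd ℂ) (P θ) =
        ∑ N ∈ E, ∑ M ∈ E, ((t N : ℂ) * (t M : ℂ)) * e (θ * ((N - M : ℤ) : ℝ)) := by
      intro θ
      rw [hconj, hP]
      simp only
      rw [Finset.sum_mul_sum]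
      refine Finset.sum_congr rfl fun N _ => Finset.sum_congr rfl fun M _ => ?_
      have : e (θ * ((N - M : ℤ) : ℝ)) = e (θ * (N : ℝ)) * e (θ * ((-M : ℤ) : ℝ)) := by
        rw [← Pool.PolyMax.e_add]
        congr 1
        push_cast
        ring
      rw [this]
      ring
    rw [intervalIntegral.integral_congr (g := fun θ => ∑ N ∈ E, ∑ M ∈ E, ((t N : ℂ) * (t M : ℂ)) *
      e (θ * ((N - M : ℤ) : ℝ))) (fun θ _ => h1 θ), intervalIntegral.integral_finsetSum]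
    · rw [Complex.ofReal_sum]
      refine Finset.sum_congr rfl fun N hN => ?_
      rw [intervalIntegral.integral_finsetSum]
      · rw [Finset.sum_eq_single_of_mem N hN]
        · rw [intervalIntegral.integral_const_mul, int_e1, if_pos (sub_self N)]
          push_cast
          ring
        · intro M _ hM
          rw [intervalIntegral.integral_const_mul, int_e1, if_neg, mul_zero]
          intro h0
          exact hM (by omega)
      · intro M _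
        exact (continuous_const.mul (cont_ek _)).intervalIntegrable _ _
    · intro N _
      refine Continuous.intervalIntegrable ?_ _ _
      exact continuous_finsetSum _ fun M _ => continuous_const.mul (cont_ek _)
  have hre : ∀ F : ℝ → ℂ, Continuous F → ∫ θ in (-(1 / 2) : ℝ)..(1 / 2), (F θ).re =
      (∫ θ in (-(1 / 2) : ℝ)..(1 / 2), F θ).re := by
    intro F hF
    have := Complex.reCLM.intervalIntegral_comp_comm (hF.intervalIntegrable (μ := volume)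
      (-(1 / 2) : ℝ) (1 / 2))
    simpa using this
  have hGP' : ∫ θ in (-(1 / 2) : ℝ)..(1 / 2), (G θ * (starRingEnd ℂ) (P θ)).re =
      ∑ N ∈ E, t N ^ 2 := by
    rw [hre (fun θ => G θ * (starRingEnd ℂ) (P θ)) (hG.mul hconjc), hGP, Complex.ofReal_re]
  have hPP' : ∫ θ in (-(1 / 2) : ℝ)..(1 / 2), ‖P θ‖ ^ 2 = ∑ N ∈ E, t N ^ 2 := by
    have : ∀ θ, ‖P θ‖ ^ 2 = (P θ * (starRingEnd ℂ) (P θ)).re := by
      intro θ
      rw [Complex.mul_conj, Complex.normSq_eq_norm_sq, Complex.ofReal_re]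
    rw [intervalIntegral.integral_congr (g := fun θ => (P θ * (starRingEnd ℂ) (P θ)).re)
      (fun θ _ => this θ), hre (fun θ => P θ * (starRingEnd ℂ) (P θ)) (hPc.mul hconjc), hPP,
      Complex.ofReal_re]
  have hpt : ∀ θ, ‖G θ - P θ‖ ^ 2 =
      ‖G θ‖ ^ 2 - 2 * (G θ * (starRingEnd ℂ) (P θ)).re + ‖P θ‖ ^ 2 := by
    intro θ
    rw [← Complex.normSq_eq_norm_sq, ← Complex.normSq_eq_norm_sq, ← Complex.normSq_eq_norm_sq,
      Complex.normSq_sub]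
    ring
  have h0 : 0 ≤ ∫ θ in (-(1 / 2) : ℝ)..(1 / 2), ‖G θ - P θ‖ ^ 2 :=
    intervalIntegral.integral_nonneg (by norm_num) fun θ _ => by positivity
  have hc1 : Continuous fun θ => ‖G θ‖ ^ 2 := hG.norm.pow 2
  have hc2 : Continuous fun θ => 2 * (G θ * (starRingEnd ℂ) (P θ)).re :=
    continuous_const.mul (Complex.continuous_re.comp (hG.mul hconjc))
  have hc3 : Continuous fun θ => ‖P θ‖ ^ 2 := hPc.norm.pow 2
  have hs1 : ∫ θ in (-(1 / 2) : ℝ)..(1 / 2), ‖G θ - P θ‖ ^ 2 =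
      ∫ θ in (-(1 / 2) : ℝ)..(1 / 2), ((‖G θ‖ ^ 2 -
      2 * (G θ * (starRingEnd ℂ) (P θ)).re) + ‖P θ‖ ^ 2) :=
    intervalIntegral.integral_congr (fun θ _ => hpt θ)
  have hc12 : Continuous fun θ => ‖G θ‖ ^ 2 - 2 * (G θ * (starRingEnd ℂ) (P θ)).re := hc1.sub hc2
  have hs2 : ∫ θ in (-(1 / 2) : ℝ)..(1 / 2), ((‖G θ‖ ^ 2 -
      2 * (G θ * (starRingEnd ℂ) (P θ)).re) + ‖P θ‖ ^ 2) =
      (∫ θ in (-(1 / 2) : ℝ)..(1 / 2), (‖G θ‖ ^ 2 - 2 * (G θ * (starRingEnd ℂ) (P θ)).re)) +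
      ∫ θ in (-(1 / 2) : ℝ)..(1 / 2), ‖P θ‖ ^ 2 :=
    intervalIntegral.integral_add (hc12.intervalIntegrable _ _) (hc3.intervalIntegrable _ _)
  have hs3 : ∫ θ in (-(1 / 2) : ℝ)..(1 / 2), (‖G θ‖ ^ 2 - 2 * (G θ * (starRingEnd ℂ) (P θ)).re) =
      (∫ θ in (-(1 / 2) : ℝ)..(1 / 2), ‖G θ‖ ^ 2) -
      ∫ θ in (-(1 / 2) : ℝ)..(1 / 2), 2 * (G θ * (starRingEnd ℂ) (P θ)).re :=
    intervalIntegral.integral_sub (hc1.intervalIntegrable _ _) (hc2.intervalIntegrable _ _)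
  rw [hs1, hs2, hs3, intervalIntegral.integral_const_mul, hGP', hPP'] at h0
  linarith

private lemma int_sq (Θ : ℝ) (hΘ : 0 ≤ Θ) :
    IntegrableOn (fun θ : ℝ => Set.indicator (Set.Icc (-Θ) Θ) (fun x => x ^ 2) θ) (Set.Ioc (-(1 / 2)) (1 / 2)) ∧
    ∫ θ in (-(1 / 2) : ℝ)..(1 / 2), Set.indicator (Set.Icc (-Θ) Θ) (fun x => x ^ 2) θ ≤
      2 / 3 * Θ ^ 3 := by
  have hi : Integrable (fun θ : ℝ => Set.indicator (Set.Icc (-Θ) Θ) (fun x => x ^ 2) θ) := by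
    refine IntegrableOn.integrable_indicator ?_ measurableSet_Icc
    exact ((continuous_pow 2).continuousOn).integrableOn_Icc
  refine ⟨hi.integrableOn, ?_⟩
  rw [intervalIntegral.integral_of_le (by norm_num)]
  refine (setIntegral_le_integral hi (Filter.Eventually.of_forall fun x => ?_)).trans ?_
  · exact Set.indicator_nonneg (fun y _ => sq_nonneg y) x
  · rw [integral_indicator measurableSet_Icc, integral_Icc_eq_integral_Ioc,
      ← intervalIntegral.integral_of_le (by linarith), integral_pow]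
    apply le_of_eq
    push_cast
    ring

private lemma sq_int {ι : Type*} (W : Finset ι) (s : ι → ℤ) :
    ∫ θ in (-(1 / 2) : ℝ)..(1 / 2), ‖∑ w ∈ W, e (θ * (s w : ℝ))‖ ^ 2 =
      pairs W (fun p => s p.1 = s p.2) := by
  classical
  have h1 : ∀ θ : ℝ, (((‖∑ w ∈ W, e (θ * (s w : ℝ))‖ ^ 2 : ℝ)) : ℂ) =
      ∑ p ∈ W ×ˢ W, e (θ * ((s p.1 - s p.2 : ℤ) : ℝ)) := by
    intro θ
    have h2 : (((‖∑ w ∈ W, e (θ * (s w : ℝ))‖ ^ 2 : ℝ)) : ℂ) =
        (∑ w ∈ W, e (θ * (s w : ℝ))) * (starRingEnd ℂ) (∑ w ∈ W, e (θ * (s w : ℝ))) := by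
      rw [Complex.mul_conj, Complex.normSq_eq_norm_sq]
    rw [h2, map_sum, Finset.sum_mul_sum, Finset.sum_product]
    refine Finset.sum_congr rfl fun w _ => Finset.sum_congr rfl fun w' _ => ?_
    rw [← Pool.PolyMax.e_neg, ← Pool.PolyMax.e_add]
    congr 1
    push_cast
    ring
  have h3 : ((∫ θ in (-(1 / 2) : ℝ)..(1 / 2), ‖∑ w ∈ W, e (θ * (s w : ℝ))‖ ^ 2 : ℝ) : ℂ) =
      ((pairs W (fun p => s p.1 = s p.2) : ℝ) : ℂ) := by
    rw [← intervalIntegral.integral_ofReal]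
    rw [intervalIntegral.integral_congr (g := fun θ => ∑ p ∈ W ×ˢ W, e (θ * ((s p.1 - s p.2 : ℤ) : ℝ)))
      (fun θ _ => h1 θ)]
    rw [intervalIntegral.integral_finsetSum]
    · have h4 : ∀ p ∈ W ×ˢ W, ∫ θ in (-(1 / 2) : ℝ)..(1 / 2), e (θ * ((s p.1 - s p.2 : ℤ) : ℝ)) =
          if s p.1 = s p.2 then 1 else 0 := by
        intro p _
        rw [int_e1]
        by_cases hp : s p.1 = s p.2
        · rw [if_pos (by omega), if_pos hp]
        · rw [if_neg (by omega), if_neg hp]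
      rw [Finset.sum_congr rfl h4, Finset.sum_boole]
      unfold pairs
      push_cast
      congr 2
      ext p
      simp
    · intro p _
      exact (cont_ek _).intervalIntegrable _ _
  exact_mod_cast h3

theorem core2 {ι : Type*} {W : Finset ι} {s : ι → ℤ} {Z : Finset ℕ} {v : ℕ → ℤ} {om : ℕ → ℝ}
    {Q A c β Θ : ℝ} {H : ℕ} {E : Finset ℤ} (hQ : 0 < Q) (hc0 : 0 ≤ c) (hom : ∀ z ∈ Z, 0 ≤ om z)
    (hom0 : 0 < ∑ z ∈ Z, om z) (hW : W.Nonempty) (hΘ : 0 ≤ Θ) (hβ : 0 ≤ β)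
    (ha : pairs W (fun p => s p.1 = s p.2) ≤ A * (W.card : ℝ) ^ 2 / Q)
    (hb : ∀ θ : ℝ, Θ ≤ |θ| → |θ| ≤ 1 / 2 →
      ‖∑ z ∈ Z, (om z : ℂ) * e (θ * (v z : ℝ))‖ ≤ β * ∑ z ∈ Z, om z)
    (hc : ∀ N ∈ E, c * (2 * H + 1) * (W.card : ℝ) * (∑ z ∈ Z, om z) / Q ≤
      ∑ z ∈ Z, om z * cn W (fun w => |s w + v z - N| ≤ (H : ℤ)))
    (hE : ∀ N ∈ E, ∀ w ∈ W, ∀ z ∈ Z, s w + v z ≠ N) :
    (E.card : ℝ) * (c / Q) ^ 2 ≤ 27 * (H : ℝ) ^ 2 * Θ ^ 3 + 4 * β ^ 2 * A / Q := by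
  classical
  set Om : ℝ := ∑ z ∈ Z, om z with hOm
  have hcard : 0 < (W.card : ℝ) := by
    have := Finset.card_pos.2 hW
    exact_mod_cast this
  have hpi := Real.pi_pos
  have hHn : (0 : ℝ) ≤ H := Nat.cast_nonneg H
  set t : ℤ → ℝ := fun N => ∑ z ∈ Z, om z * cn W (fun w => |s w + v z - N| ≤ (H : ℤ)) with ht
  set G : ℝ → ℂ := fun θ => ((∑ w ∈ W, e (θ * (s w : ℝ))) *
    ∑ z ∈ Z, (om z : ℂ) * e (θ * (v z : ℝ))) * ker H θ with hGdef
  have hCc : Continuous fun θ : ℝ => ∑ w ∈ W, e (θ * (s w : ℝ)) :=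
    continuous_finsetSum _ fun w _ => cont_ek _
  have hVc : Continuous fun θ : ℝ => ∑ z ∈ Z, (om z : ℂ) * e (θ * (v z : ℝ)) :=
    continuous_finsetSum _ fun z _ => continuous_const.mul (cont_ek _)
  have hGc : Continuous G := (hCc.mul hVc).mul (cont_ker H)
  have hco : ∀ N ∈ E, ((t N : ℝ) : ℂ) =
      ∫ θ in (-(1 / 2) : ℝ)..(1 / 2), G θ * e (θ * ((-N : ℤ) : ℝ)) := by
    intro N hN
    have h1 := fc (Z ×ˢ W) (fun q => s q.2 + v q.1) (fun q => om q.1) H N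
      (by
        intro q hq
        rw [Finset.mem_product] at hq
        exact hE N hN q.2 hq.2 q.1 hq.1)
    have h2 : ∑ q ∈ Z ×ˢ W, om q.1 * (if |s q.2 + v q.1 - N| ≤ (H : ℤ) then (1 : ℝ) else 0) =
        t N := by
      rw [Finset.sum_product]
      refine Finset.sum_congr rfl fun z _ => ?_
      show ∑ y ∈ W, om z * (if |s y + v z - N| ≤ (H : ℤ) then (1 : ℝ) else 0) = _
      rw [← Finset.mul_sum, Finset.sum_boole]
      unfold cn
      congr 3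
      ext x
      simp
    rw [h2] at h1
    rw [h1]
    refine intervalIntegral.integral_congr fun θ _ => ?_
    have h3 : ∑ q ∈ Z ×ˢ W, (om q.1 : ℂ) * e (θ * ((s q.2 + v q.1 : ℤ) : ℝ)) =
        (∑ w ∈ W, e (θ * (s w : ℝ))) * ∑ z ∈ Z, (om z : ℂ) * e (θ * (v z : ℝ)) := by
      rw [Finset.sum_product, Finset.mul_sum]
      refine Finset.sum_congr rfl fun z _ => ?_
      rw [Finset.sum_mul]
      refine Finset.sum_congr rfl fun w _ => ?_
      have : e (θ * ((s w + v z : ℤ) : ℝ)) = e (θ * (s w : ℝ)) * e (θ * (v z : ℝ)) := by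
        rw [← Pool.PolyMax.e_add]
        congr 1
        push_cast
        ring
      show (om z : ℂ) * e (θ * ((s w + v z : ℤ) : ℝ)) = _
      rw [this]
      ring
    show (∑ q ∈ Z ×ˢ W, (om q.1 : ℂ) * e (θ * ((s q.2 + v q.1 : ℤ) : ℝ))) *
      e (θ * ((-N : ℤ) : ℝ)) * ker H θ = G θ * e (θ * ((-N : ℤ) : ℝ))
    rw [h3, hGdef]
    ring
  have hbes := bessel E t G hGc hco
  have hCle : ∀ θ : ℝ, ‖∑ w ∈ W, e (θ * (s w : ℝ))‖ ≤ W.card := by
    intro θ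
    refine (norm_sum_le _ _).trans (le_of_eq ?_)
    simp [Pool.PolyMax.norm_e]
  have hVle : ∀ θ : ℝ, ‖∑ z ∈ Z, (om z : ℂ) * e (θ * (v z : ℝ))‖ ≤ Om := by
    intro θ
    refine (norm_sum_le _ _).trans (le_of_eq ?_)
    refine Finset.sum_congr rfl fun z hz => ?_
    rw [norm_mul, Pool.PolyMax.norm_e, mul_one, Complex.norm_real, Real.norm_eq_abs, abs_of_nonneg (hom z hz)]
  -- pointwise bound
  have h4 : ∀ θ ∈ Set.Icc (-(1 / 2) : ℝ) (1 / 2),
      ‖G θ‖ ^ 2 ≤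
      ((2 * H + 1) * (W.card : ℝ) * Om) ^ 2 * (2 * Real.pi * H) ^ 2 *
        Set.indicator (Set.Icc (-Θ) Θ) (fun x => x ^ 2) θ +
      (2 * H + 1) ^ 2 * (4 * β ^ 2 * Om ^ 2) * ‖∑ w ∈ W, e (θ * (s w : ℝ))‖ ^ 2 := by
    intro θ hθ
    have hGn : ‖G θ‖ = ‖∑ w ∈ W, e (θ * (s w : ℝ))‖ *
        ‖∑ z ∈ Z, (om z : ℂ) * e (θ * (v z : ℝ))‖ * ‖ker H θ‖ := by
      rw [hGdef]
      simp only [norm_mul]
    obtain ⟨hk1, hk2⟩ := ker_le H θ
    have hC0 := norm_nonneg (∑ w ∈ W, e (θ * (s w : ℝ)))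
    have hV0 := norm_nonneg (∑ z ∈ Z, (om z : ℂ) * e (θ * (v z : ℝ)))
    have hK0 := norm_nonneg (ker H θ)
    by_cases hθ' : |θ| ≤ Θ
    · have hmem : θ ∈ Set.Icc (-Θ) Θ := by rw [Set.mem_Icc]; exact abs_le.1 hθ'
      rw [Set.indicator_of_mem hmem, hGn]
      have e1 : ‖∑ w ∈ W, e (θ * (s w : ℝ))‖ * ‖∑ z ∈ Z, (om z : ℂ) * e (θ * (v z : ℝ))‖ ≤
          (W.card : ℝ) * Om := mul_le_mul (hCle θ) (hVle θ) hV0 (by positivity)
      have e2 : ‖∑ w ∈ W, e (θ * (s w : ℝ))‖ * ‖∑ z ∈ Z, (om z : ℂ) * e (θ * (v z : ℝ))‖ * ‖ker H θ‖ ≤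
          ((W.card : ℝ) * Om) * ((2 * H + 1) * (2 * Real.pi * H * |θ|)) :=
        mul_le_mul e1 hk1 hK0 (by positivity)
      have e3 : 0 ≤ (2 * (H : ℝ) + 1) ^ 2 * (4 * β ^ 2 * Om ^ 2) * ‖∑ w ∈ W, e (θ * (s w : ℝ))‖ ^ 2 := by positivity
      have e4 := pow_le_pow_left₀ (by positivity) e2 2
      have e5 : (((W.card : ℝ) * Om) * ((2 * H + 1) * (2 * Real.pi * H * |θ|))) ^ 2 =
          ((2 * H + 1) * (W.card : ℝ) * Om) ^ 2 * (2 * Real.pi * H) ^ 2 * θ ^ 2 := by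
        rw [mul_pow, mul_pow, mul_pow, mul_pow, sq_abs]
        ring
      rw [e5] at e4
      linarith
    · have hge : Θ ≤ |θ| := (not_le.1 hθ').le
      have hle : |θ| ≤ 1 / 2 := abs_le.2 ⟨by linarith [hθ.1], hθ.2⟩
      have hnm : θ ∉ Set.Icc (-Θ) Θ := by
        rw [Set.mem_Icc]; exact fun h => hθ' (abs_le.2 h)
      rw [Set.indicator_of_notMem hnm, mul_zero, zero_add, hGn]
      have e1 := hb θ hge hle
      have e2 : ‖∑ w ∈ W, e (θ * (s w : ℝ))‖ * ‖∑ z ∈ Z, (om z : ℂ) * e (θ * (v z : ℝ))‖ ≤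
          ‖∑ w ∈ W, e (θ * (s w : ℝ))‖ * (β * Om) := mul_le_mul_of_nonneg_left e1 hC0
      have e3 : ‖∑ w ∈ W, e (θ * (s w : ℝ))‖ * ‖∑ z ∈ Z, (om z : ℂ) * e (θ * (v z : ℝ))‖ * ‖ker H θ‖ ≤
          (‖∑ w ∈ W, e (θ * (s w : ℝ))‖ * (β * Om)) * ((2 * H + 1) * 2) :=
        mul_le_mul e2 hk2 hK0 (by positivity)
      have e4 := pow_le_pow_left₀ (by positivity) e3 2
      have e5 : ((‖∑ w ∈ W, e (θ * (s w : ℝ))‖ * (β * Om)) * ((2 * H + 1) * 2)) ^ 2 =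
          (2 * H + 1) ^ 2 * (4 * β ^ 2 * Om ^ 2) * ‖∑ w ∈ W, e (θ * (s w : ℝ))‖ ^ 2 := by ring
      rw [e5] at e4
      exact e4
  -- integrate
  obtain ⟨hi1, hi2⟩ := int_sq Θ hΘ
  have hcontC : Continuous fun θ : ℝ => ‖∑ w ∈ W, e (θ * (s w : ℝ))‖ ^ 2 := hCc.norm.pow 2
  have hint1 : IntervalIntegrable (fun θ => ((2 * H + 1) * (W.card : ℝ) * Om) ^ 2 * (2 * Real.pi * H) ^ 2 *
        Set.indicator (Set.Icc (-Θ) Θ) (fun x => x ^ 2) θ) volume (-(1 / 2)) (1 / 2) := by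
    refine IntervalIntegrable.const_mul ?_ _
    rw [intervalIntegrable_iff_integrableOn_Ioc_of_le (by norm_num)]
    exact hi1
  have hint2 : IntervalIntegrable (fun θ => (2 * (H : ℝ) + 1) ^ 2 * (4 * β ^ 2 * Om ^ 2) *
      ‖∑ w ∈ W, e (θ * (s w : ℝ))‖ ^ 2) volume (-(1 / 2)) (1 / 2) :=
    (continuous_const.mul hcontC).intervalIntegrable _ _
  have h5 : ∫ θ in (-(1 / 2) : ℝ)..(1 / 2), ‖G θ‖ ^ 2 ≤
      ((2 * H + 1) * (W.card : ℝ) * Om) ^ 2 * (2 * Real.pi * H) ^ 2 * (2 / 3 * Θ ^ 3) +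
      (2 * H + 1) ^ 2 * (4 * β ^ 2 * Om ^ 2) * (A * (W.card : ℝ) ^ 2 / Q) := by
    refine (intervalIntegral.integral_mono_on (by norm_num) ?_ (hint1.add hint2) h4).trans ?_
    · exact (hGc.norm.pow 2).intervalIntegrable _ _
    · rw [intervalIntegral.integral_add hint1 hint2, intervalIntegral.integral_const_mul,
        intervalIntegral.integral_const_mul, sq_int]
      refine add_le_add (mul_le_mul_of_nonneg_left hi2 (by positivity))
        (mul_le_mul_of_nonneg_left ha (by positivity))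
  have h6 : (E.card : ℝ) * (c * (2 * H + 1) * (W.card : ℝ) * Om / Q) ^ 2 ≤ ∑ N ∈ E, t N ^ 2 := by
    rw [← nsmul_eq_mul]
    refine Finset.card_nsmul_le_sum _ _ _ fun N hN => ?_
    exact pow_le_pow_left₀ (by positivity) (hc N hN) 2
  have h7 := (h6.trans hbes).trans h5
  set D : ℝ := (2 * (H : ℝ) + 1) ^ 2 * (W.card : ℝ) ^ 2 * Om ^ 2 with hD
  have hDpos : 0 < D := by positivity
  have h8 : (E.card : ℝ) * (c * (2 * H + 1) * (W.card : ℝ) * Om / Q) ^ 2 =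
      D * ((E.card : ℝ) * (c / Q) ^ 2) := by
    rw [hD]
    ring
  have h9 : ((2 * H + 1) * (W.card : ℝ) * Om) ^ 2 * (2 * Real.pi * H) ^ 2 * (2 / 3 * Θ ^ 3) +
      (2 * H + 1) ^ 2 * (4 * β ^ 2 * Om ^ 2) * (A * (W.card : ℝ) ^ 2 / Q) =
      D * (8 / 3 * Real.pi ^ 2 * ((H : ℝ) ^ 2 * Θ ^ 3) + 4 * β ^ 2 * A / Q) := by
    rw [hD]
    ring
  rw [h8, h9] at h7
  have h10 := le_of_mul_le_mul_left h7 hDpos
  have hpi2 : 8 / 3 * Real.pi ^ 2 ≤ 27 := by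
    have h1 := Real.pi_lt_d2
    nlinarith
  have h11 : 8 / 3 * Real.pi ^ 2 * ((H : ℝ) ^ 2 * Θ ^ 3) ≤ 27 * ((H : ℝ) ^ 2 * Θ ^ 3) :=
    mul_le_mul_of_nonneg_right hpi2 (by positivity)
  linarith

end FWar
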