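import Pool.Agent.FWar.KPoly

/-!
# FWar.CountK: words with prescribed approximate power sums

`k = n + 1` letters. PROOF. If `B ≥ P^k`: the number of words is at most
`16 P · P^n ≤ 16 B` (`RR i P` has at most `P` elements for `i ≥ 1`). So let `1 ≤ B < P^k` and let
`a ≤ n` with `P^a ≤ B < P^(a+1)`; `m = k - a ≥ 1`. Let `C` be the constant of `lemK` for `K = k`.
Fix the last `a` letters `x_m, ..., x_n` (at most `P^a` choices; if `a = k` ... does not occur). Let
`x, y` be two solutions with the same last `a` letters. For `1 ≤ j ≤ k`: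
`|∑_{i<m} (x_i^j - y_i^j)| = |pws j x - pws j y| ≤ 2B`.
(i) `lemK` with `s = 0`, `m`, `a` (exponents `a+1..a+m = k`): `|x_0 - y_0| ≤ 2C B/P^a`. So for fixed
last letters there are at most `1 + 2C B/P^a ≤ (1 + 2C) B/P^a` values of `x_0`.
(ii) if in addition `x_0 = y_0`: `lemK` with `s = 1`, `m - 1`, `a + 1` (exponents `a+2..k`):
`|x_i - y_i| ≤ 2C B/P^(a+1) ≤ 2C` for `1 ≤ i < m`. So for fixed last letters and fixed `x_0` there are
at most `(1 + 2C)^(m-1)` solutions (each of the letters `x_1..x_(m-1)` takes at most `1 + 2C` values).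
Total: `P^a (1+2C) (B/P^a) (1+2C)^(m-1) ≤ (1+2C)^k B`.
`card_Wk_ge`: `|RR 0 P| ≥ 14 P`, `|RR i P| ≥ P/2^(2i+1) - 1 ≥ P/2^(2i+2)` for large `P`.
-/

namespace FWar

open Finset Filter Topology MWg

private theorem CountK_mem {i : ℕ} {P : ℝ} (hP : 1 ≤ P) {u : ℕ} (hu : u ∈ RR i P) :
    lo i * P ≤ (u : ℝ) ∧ (u : ℝ) ≤ hi i * P ∧ 1 ≤ u := by
  have hP0 : 0 ≤ P := by linarith
  unfold RR at hu
  unfold lo hi
  by_cases h : i = 0
  · rw [if_pos h] at hu
    rw [if_pos h, if_pos h]
    obtain ⟨h1, h2⟩ := (mem_mainI hP0).1 hu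
    refine ⟨by linarith, h2, ?_⟩
    have : (0 : ℝ) < (u : ℝ) := by linarith
    exact_mod_cast this
  · rw [if_neg h] at hu
    rw [if_neg h, if_neg h]
    rw [Finset.mem_Ioc, Nat.floor_lt (by positivity), Nat.le_floor_iff (by positivity)] at hu
    obtain ⟨h1, h2⟩ := hu
    refine ⟨by rw [one_div_mul_eq_div]; exact h1.le, by rw [one_div_mul_eq_div]; exact h2, ?_⟩
    have h3 : 0 ≤ P / 2 ^ (2 * i + 1) := by positivity
    have : (0 : ℝ) < (u : ℝ) := by linarith
    exact_mod_cast this

private theorem CountK_card_RR {i : ℕ} (hi : 1 ≤ i) {P : ℝ} (hP : 1 ≤ P) :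
    ((RR i P).card : ℝ) ≤ P := by
  unfold RR
  rw [if_neg (by omega), Nat.card_Ioc]
  have h1 : ((⌊P / 2 ^ (2 * i)⌋₊ - ⌊P / 2 ^ (2 * i + 1)⌋₊ : ℕ) : ℝ) ≤
      ((⌊P / 2 ^ (2 * i)⌋₊ : ℕ) : ℝ) := by
    exact_mod_cast Nat.sub_le _ _
  refine h1.trans ((Nat.floor_le (by positivity)).trans ?_)
  exact div_le_self (by linarith) (one_le_pow₀ (by norm_num))

private theorem CountK_card_RR_ge {i n : ℕ} (hi : i ≤ n) {P : ℝ} (hP : 2 ^ (2 * n + 2) ≤ P) :
    1 / 2 ^ (2 * i + 2) * P ≤ ((RR i P).card : ℝ) := by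
  have hP1 : 1 ≤ P := le_trans (one_le_pow₀ (by norm_num)) hP
  by_cases h : i = 0
  · subst h
    have h1 := card_mainI_ge hP1
    have h2 : RR 0 P = mainI P := by simp [RR]
    rw [h2]
    refine le_trans ?_ h1
    norm_num
    linarith
  · unfold RR
    rw [if_neg h, Nat.card_Ioc]
    have h0 : P / 2 ^ (2 * i + 1) ≤ P / 2 ^ (2 * i) := by
      apply div_le_div_of_nonneg_left (by linarith) (by positivity)
      exact pow_le_pow_right₀ (by norm_num) (by omega)
    rw [Nat.cast_sub (Nat.floor_le_floor h0)]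
    have h1 := Nat.lt_floor_add_one (P / 2 ^ (2 * i))
    have h2 := Nat.floor_le (show (0 : ℝ) ≤ P / 2 ^ (2 * i + 1) by positivity)
    have h3 : (1 : ℝ) ≤ P / 2 ^ (2 * i + 2) := by
      rw [le_div_iff₀ (by positivity), one_mul]
      refine le_trans ?_ hP
      exact pow_le_pow_right₀ (by norm_num) (by omega)
    have h4 : P / 2 ^ (2 * i) = 4 * (P / 2 ^ (2 * i + 2)) := by
      rw [pow_add]
      field_simp
      try norm_num
    have h5 : P / 2 ^ (2 * i + 1) = 2 * (P / 2 ^ (2 * i + 2)) := by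
      rw [pow_add, pow_add]
      field_simp
      try norm_num
    rw [one_div_mul_eq_div]
    linarith

/-- All letters of a word are at most `16 P`. -/
theorem Wk_le {n : ℕ} {P : ℝ} (hP : 1 ≤ P) {x : Fin (n + 1) → ℕ} (hx : x ∈ Wk n P)
    (i : Fin (n + 1)) : 1 ≤ x i ∧ (x i : ℝ) ≤ 16 * P := by
  unfold Wk at hx
  rw [Fintype.mem_piFinset] at hx
  obtain ⟨_, h2, h3⟩ := CountK_mem hP (hx i)
  refine ⟨h3, h2.trans ?_⟩
  apply mul_le_mul_of_nonneg_right _ (by linarith)
  unfold hi
  split_ifs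
  · exact le_rfl
  · have : (1 : ℝ) / 2 ^ (2 * (i : ℕ)) ≤ 1 := by
      rw [div_le_one (by positivity)]
      exact one_le_pow₀ (by norm_num)
    linarith

theorem card_Wk_le (n : ℕ) {P : ℝ} (hP : 1 ≤ P) : ((Wk n P).card : ℝ) ≤ 16 * P ^ (n + 1) := by
  unfold Wk
  rw [Fintype.card_piFinset, Nat.cast_prod, Fin.prod_univ_succ]
  have h1 : ((RR ((0 : Fin (n + 1)) : ℕ) P).card : ℝ) ≤ 16 * P := by
    have h2 : RR ((0 : Fin (n + 1)) : ℕ) P = mainI P := by simp [RR]
    rw [h2]
    exact card_mainI_le hP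
  have h3 : ∏ i : Fin n, ((RR ((i.succ : Fin (n + 1)) : ℕ) P).card : ℝ) ≤ P ^ n := by
    calc _ ≤ ∏ i : Fin n, P := by
          apply Finset.prod_le_prod
          · intro i _
            positivity
          · intro i _
            exact CountK_card_RR (by simp) hP
      _ = P ^ n := by simp
  calc _ ≤ (16 * P) * P ^ n := by
        apply mul_le_mul h1 h3
        · exact Finset.prod_nonneg fun i _ => by positivity
        · linarith
    _ = 16 * P ^ (n + 1) := by ring

theorem card_Wk_ge (n : ℕ) : ∃ c : ℝ, 0 < c ∧ ∃ P0 : ℝ, 1 ≤ P0 ∧ ∀ P : ℝ, P0 ≤ P →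
    c * P ^ (n + 1) ≤ ((Wk n P).card : ℝ) := by
  refine ⟨∏ i : Fin (n + 1), 1 / 2 ^ (2 * (i : ℕ) + 2),
    Finset.prod_pos fun i _ => by positivity, 2 ^ (2 * n + 2), one_le_pow₀ (by norm_num), ?_⟩
  intro P hP
  unfold Wk
  rw [Fintype.card_piFinset, Nat.cast_prod]
  have h1 : (∏ i : Fin (n + 1), 1 / (2 : ℝ) ^ (2 * (i : ℕ) + 2)) * P ^ (n + 1) =
      ∏ i : Fin (n + 1), (1 / (2 : ℝ) ^ (2 * (i : ℕ) + 2) * P) := by
    rw [Finset.prod_mul_distrib]
    simp
  rw [h1]
  have hP0 : (0 : ℝ) ≤ P := le_trans (by positivity) hP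
  apply Finset.prod_le_prod
  · intro i _
    positivity
  · intro i _
    exact CountK_card_RR_ge (by omega) hP

private theorem CountK_diam (A : Finset ℕ) (D : ℝ) (hD : 0 ≤ D)
    (h : ∀ u ∈ A, ∀ v ∈ A, |(u : ℝ) - v| ≤ D) : (A.card : ℝ) ≤ 1 + D := by
  rcases A.eq_empty_or_nonempty with h0 | h0
  · rw [h0]
    simp
    linarith
  · have h1 : A ⊆ Finset.Icc (A.min' h0) (A.max' h0) := by
      intro u hu
      rw [Finset.mem_Icc]
      exact ⟨Finset.min'_le _ _ hu, Finset.le_max' _ _ hu⟩
    have h2 := Finset.card_le_card h1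
    rw [Nat.card_Icc] at h2
    have h3 := h _ (Finset.max'_mem A h0) _ (Finset.min'_mem A h0)
    have h4 : A.min' h0 ≤ A.max' h0 := Finset.min'_le _ _ (Finset.max'_mem A h0)
    have h5 : (A.card : ℝ) ≤ ((A.max' h0 + 1 - A.min' h0 : ℕ) : ℝ) := by exact_mod_cast h2
    rw [Nat.cast_sub (by omega)] at h5
    push_cast at h5
    have h6 := le_abs_self ((A.max' h0 : ℝ) - (A.min' h0 : ℝ))
    linarith

private theorem CountK_box {n : ℕ} (T : Finset (Fin (n + 1) → ℕ)) (D : ℝ) (hD : 0 ≤ D)
    (h : ∀ x ∈ T, ∀ y ∈ T, ∀ i, |(x i : ℝ) - y i| ≤ D) : (T.card : ℝ) ≤ (1 + D) ^ (n + 1) := by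
  classical
  have h1 : T ⊆ Fintype.piFinset fun i => T.image (fun x => x i) := by
    intro x hx
    rw [Fintype.mem_piFinset]
    intro i
    exact Finset.mem_image_of_mem _ hx
  have h2 := Finset.card_le_card h1
  rw [Fintype.card_piFinset] at h2
  have h3 : (T.card : ℝ) ≤ ∏ i : Fin (n + 1), ((T.image (fun x => x i)).card : ℝ) := by
    exact_mod_cast h2
  refine h3.trans ?_
  calc _ ≤ ∏ i : Fin (n + 1), (1 + D) := by
        apply Finset.prod_le_prod
        · intro i _
          positivity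
        · intro i _
          apply CountK_diam _ _ hD
          intro u hu v hv
          obtain ⟨x, hx, rfl⟩ := Finset.mem_image.1 hu
          obtain ⟨y, hy, rfl⟩ := Finset.mem_image.1 hv
          exact h x hx y hy i
    _ = (1 + D) ^ (n + 1) := by simp

/-- extension of a word by zero. -/
private noncomputable def CountK_ext {n : ℕ} (x : Fin (n + 1) → ℕ) (i : ℕ) : ℝ :=
  if h : i < n + 1 then ((x ⟨i, h⟩ : ℕ) : ℝ) else 0

private theorem CountK_ext_apply {n : ℕ} (x : Fin (n + 1) → ℕ) (i : Fin (n + 1)) :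
    CountK_ext x (i : ℕ) = (x i : ℝ) := by
  unfold CountK_ext
  rw [dif_pos i.2]

private theorem CountK_diff {n : ℕ} (x y : Fin (n + 1) → ℕ) (s m j : ℕ) (hsm : s + m ≤ n + 1)
    (h : ∀ i : Fin (n + 1), ¬ (s ≤ (i : ℕ) ∧ (i : ℕ) < s + m) → x i = y i) :
    ∑ i ∈ Finset.Ico s (s + m), (CountK_ext x i ^ j - CountK_ext y i ^ j) =
      pws j x - pws j y := by
  unfold pws
  rw [← Finset.sum_sub_distrib]
  have h1 : ∑ i : Fin (n + 1), ((x i : ℝ) ^ j - (y i : ℝ) ^ j) =
      ∑ i : Fin (n + 1), (CountK_ext x (i : ℕ) ^ j - CountK_ext y (i : ℕ) ^ j) := by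
    refine Finset.sum_congr rfl fun i _ => ?_
    rw [CountK_ext_apply, CountK_ext_apply]
  rw [h1, Fin.sum_univ_eq_sum_range (fun i => CountK_ext x i ^ j - CountK_ext y i ^ j) (n + 1)]
  apply Finset.sum_subset
  · intro i hi
    rw [Finset.mem_Ico] at hi
    rw [Finset.mem_range]
    omega
  · intro i hi hni
    rw [Finset.mem_range] at hi
    rw [Finset.mem_Ico] at hni
    have h2 := h ⟨i, hi⟩ hni
    have h3 : CountK_ext x i = CountK_ext y i := by
      unfold CountK_ext
      rw [dif_pos hi, dif_pos hi, h2]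
    rw [h3, sub_self]

private theorem CountK_key {n : ℕ} {C : ℝ}
    (hC : ∀ P : ℝ, 1 ≤ P → ∀ s m a : ℕ, s + m ≤ n + 1 → a + m ≤ n + 1 →
      ∀ x y : ℕ → ℝ, (∀ i ∈ Finset.Ico s (s + m), lo i * P ≤ x i ∧ x i ≤ hi i * P) →
      (∀ i ∈ Finset.Ico s (s + m), lo i * P ≤ y i ∧ y i ≤ hi i * P) → ∀ B : ℝ, 0 ≤ B →
      (∀ j ∈ Finset.Icc (a + 1) (a + m),
        |∑ i ∈ Finset.Ico s (s + m), (x i ^ j - y i ^ j)| ≤ B) →
      ∀ i ∈ Finset.Ico s (s + m), |x i - y i| * P ^ a ≤ C * B)
    {P : ℝ} (hP : 1 ≤ P) {B : ℝ} (hB : 1 ≤ B) {β : ℕ → ℝ} {x y : Fin (n + 1) → ℕ}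
    (hx : x ∈ Wk n P) (hy : y ∈ Wk n P)
    (hx2 : ∀ j ∈ Finset.Icc 1 (n + 1), |pws j x - β j| ≤ B)
    (hy2 : ∀ j ∈ Finset.Icc 1 (n + 1), |pws j y - β j| ≤ B)
    (s m a : ℕ) (hsm : s + m ≤ n + 1) (ham : a + m ≤ n + 1)
    (h : ∀ i : Fin (n + 1), ¬ (s ≤ (i : ℕ) ∧ (i : ℕ) < s + m) → x i = y i)
    (i : Fin (n + 1)) (hi1 : s ≤ (i : ℕ)) (hi2 : (i : ℕ) < s + m) :
    |(x i : ℝ) - y i| * P ^ a ≤ C * (2 * B) := by
  have hmem : ∀ z : Fin (n + 1) → ℕ, z ∈ Wk n P → ∀ l ∈ Finset.Ico s (s + m),
      lo l * P ≤ CountK_ext z l ∧ CountK_ext z l ≤ hi l * P := by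
    intro z hz l hl
    rw [Finset.mem_Ico] at hl
    unfold Wk at hz
    rw [Fintype.mem_piFinset] at hz
    have hl' : l < n + 1 := by omega
    obtain ⟨h1, h2, _⟩ := CountK_mem hP (hz ⟨l, hl'⟩)
    unfold CountK_ext
    rw [dif_pos hl']
    exact ⟨h1, h2⟩
  have key := hC P hP s m a hsm ham (CountK_ext x) (CountK_ext y) (hmem x hx) (hmem y hy)
    (2 * B) (by linarith) ?_ (i : ℕ) (by rw [Finset.mem_Ico]; exact ⟨hi1, hi2⟩)
  · rw [CountK_ext_apply, CountK_ext_apply] at key
    exact key
  · intro j hj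
    rw [Finset.mem_Icc] at hj
    rw [CountK_diff x y s m j hsm h]
    have hj' : j ∈ Finset.Icc 1 (n + 1) := by
      rw [Finset.mem_Icc]
      omega
    have h1 := hx2 j hj'
    have h2 := hy2 j hj'
    have h3 : pws j x - pws j y = (pws j x - β j) - (pws j y - β j) := by ring
    rw [h3]
    exact (abs_sub _ _).trans (by linarith)

private theorem CountK_image {α β : Type*} [DecidableEq β] (S : Finset α) (f : α → β)
    (E : ℝ) (h : ∀ b ∈ S.image f, ((S.filter fun x => f x = b).card : ℝ) ≤ E) :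
    (S.card : ℝ) ≤ E * ((S.image f).card : ℝ) := by
  have h1 : S.card = ∑ b ∈ S.image f, (S.filter fun x => f x = b).card :=
    Finset.card_eq_sum_card_image f S
  rw [h1, Nat.cast_sum]
  calc _ ≤ ∑ b ∈ S.image f, E := Finset.sum_le_sum h
    _ = E * ((S.image f).card : ℝ) := by
        rw [Finset.sum_const, nsmul_eq_mul, mul_comm]

theorem countC (n : ℕ) : ∃ C : ℝ, 0 < C ∧ ∀ P : ℝ, 1 ≤ P → ∀ B : ℝ, 1 ≤ B → ∀ β : ℕ → ℝ,
    cn (Wk n P) (fun x => ∀ j ∈ Finset.Icc 1 (n + 1), |pws j x - β j| ≤ B) ≤ C * B := by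
  classical
  obtain ⟨C, hC0, hC⟩ := lemK (n + 1)
  refine ⟨16 + (1 + 2 * C) ^ (n + 1) * (1 + 2 * C), by positivity, ?_⟩
  intro P hP B hB β
  have hP0 : 0 < P := by linarith
  have hB0 : 0 < B := by linarith
  unfold cn
  have hgoal : ∀ S : Finset (Fin (n + 1) → ℕ),
      (∀ x ∈ S, x ∈ Wk n P ∧ ∀ j ∈ Finset.Icc 1 (n + 1), |pws j x - β j| ≤ B) →
      (S.card : ℝ) ≤ (16 + (1 + 2 * C) ^ (n + 1) * (1 + 2 * C)) * B := by
    intro S hSm
    by_cases hBP : P ^ (n + 1) ≤ B
    · have h1 : (S.card : ℝ) ≤ ((Wk n P).card : ℝ) := by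
        exact_mod_cast Finset.card_le_card (fun x hx => (hSm x hx).1)
      have h2 := card_Wk_le n hP
      have h3 : 0 ≤ (1 + 2 * C) ^ (n + 1) * (1 + 2 * C) * B := by positivity
      nlinarith
    · push Not at hBP
      -- choose the exponent
      have hex : ∃ a', B < P ^ a' := ⟨n + 1, hBP⟩
      have hfs := Nat.find_spec hex
      set a' := Nat.find hex with ha'
      have ha1 : 1 ≤ a' := by
        by_contra hcon
        have : a' = 0 := by omega
        rw [this, pow_zero] at hfs
        linarith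
      have ha2 : a' ≤ n + 1 := Nat.find_min' hex hBP
      obtain ⟨a, ha⟩ : ∃ a, a' = a + 1 := ⟨a' - 1, by omega⟩
      have hBa : P ^ a ≤ B := by
        by_contra hcon
        push Not at hcon
        have := Nat.find_min hex (m := a) (by omega)
        exact this hcon
      have hBa1 : B < P ^ (a + 1) := by
        rw [← ha]
        exact hfs
      have han : a ≤ n := by omega
      set m : ℕ := n + 1 - a with hm
      have hm1 : 1 ≤ m := by omega
      have hPa : 0 < P ^ a := by positivity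
      -- first map: the last letters
      set F : (Fin (n + 1) → ℕ) → (Fin (n + 1) → ℕ) :=
        fun x i => if m ≤ (i : ℕ) then x i else 0 with hF
      have hFeq : ∀ x y : Fin (n + 1) → ℕ, F x = F y → ∀ i : Fin (n + 1), m ≤ (i : ℕ) →
          x i = y i := by
        intro x y hxy i hi
        have := congrFun hxy i
        simp only [hF, if_pos hi] at this
        exact this
      have himg : ((S.image F).card : ℝ) ≤ P ^ a := by
        have h1 : S.image F ⊆ Fintype.piFinset fun i : Fin (n + 1) =>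
            if m ≤ (i : ℕ) then RR (i : ℕ) P else {0} := by
          intro z hz
          obtain ⟨x, hx, rfl⟩ := Finset.mem_image.1 hz
          rw [Fintype.mem_piFinset]
          intro i
          simp only [hF]
          by_cases hi : m ≤ (i : ℕ)
          · rw [if_pos hi, if_pos hi]
            have := (hSm x hx).1
            unfold Wk at this
            rw [Fintype.mem_piFinset] at this
            exact this i
          · rw [if_neg hi, if_neg hi]
            simp
        have h2 := Finset.card_le_card h1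
        rw [Fintype.card_piFinset] at h2
        have h3 : ((S.image F).card : ℝ) ≤ ∏ i : Fin (n + 1),
            (((if m ≤ (i : ℕ) then RR (i : ℕ) P else {0} : Finset ℕ)).card : ℝ) := by
          exact_mod_cast h2
        refine h3.trans ?_
        calc _ ≤ ∏ i : Fin (n + 1), (if m ≤ (i : ℕ) then P else 1) := by
              apply Finset.prod_le_prod
              · intro i _
                positivity
              · intro i _
                by_cases hi : m ≤ (i : ℕ)
                · rw [if_pos hi, if_pos hi]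
                  exact CountK_card_RR (by omega) hP
                · rw [if_neg hi, if_neg hi]
                  simp
          _ = P ^ a := by
              rw [Fin.prod_univ_eq_prod_range (fun i => if m ≤ i then P else 1) (n + 1)]
              rw [← Finset.prod_filter, Finset.prod_const]
              congr 1
              have h4 : (Finset.range (n + 1)).filter (fun i => m ≤ i) =
                  Finset.Ico m (n + 1) := by
                ext i
                simp only [Finset.mem_filter, Finset.mem_range, Finset.mem_Ico]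
                omega
              rw [h4, Nat.card_Ico]
              omega
      -- fibre of the first map
      have hfib : ∀ b ∈ S.image F, ((S.filter fun x => F x = b).card : ℝ) ≤
          (1 + 2 * C) ^ (n + 1) * (1 + 2 * C * B / P ^ a) := by
        intro b _
        set T := S.filter fun x => F x = b with hT
        have hTm : ∀ x ∈ T, x ∈ S ∧ F x = b := by
          intro x hx
          rw [hT, Finset.mem_filter] at hx
          exact hx
        set G : (Fin (n + 1) → ℕ) → ℕ := fun x => x 0 with hG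
        have hG1 : ((T.image G).card : ℝ) ≤ 1 + 2 * C * B / P ^ a := by
          apply CountK_diam _ _ (by positivity)
          intro u hu v hv
          obtain ⟨x, hx, rfl⟩ := Finset.mem_image.1 hu
          obtain ⟨y, hy, rfl⟩ := Finset.mem_image.1 hv
          obtain ⟨hxS, hxb⟩ := hTm x hx
          obtain ⟨hyS, hyb⟩ := hTm y hy
          have h1 := CountK_key hC hP hB (hSm x hxS).1 (hSm y hyS).1 (hSm x hxS).2
            (hSm y hyS).2 0 m a (by omega) (by omega) (by
              intro i hi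
              apply hFeq x y (hxb.trans hyb.symm) i
              omega) 0 (by simp) (by simp; omega)
          rw [le_div_iff₀ hPa]
          simp only [hG]
          linarith
        have hG2 : ∀ c ∈ T.image G, ((T.filter fun x => G x = c).card : ℝ) ≤
            (1 + 2 * C) ^ (n + 1) := by
          intro c _
          apply CountK_box _ _ (by positivity)
          intro x hx y hy i
          rw [Finset.mem_filter] at hx hy
          obtain ⟨hxS, hxb⟩ := hTm x hx.1
          obtain ⟨hyS, hyb⟩ := hTm y hy.1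
          have hx0 : x 0 = y 0 := hx.2.trans hy.2.symm
          have hout : ∀ i : Fin (n + 1), ¬ (1 ≤ (i : ℕ) ∧ (i : ℕ) < 1 + (m - 1)) →
              x i = y i := by
            intro i hi
            by_cases hi0 : (i : ℕ) = 0
            · have : i = 0 := Fin.ext (by simpa using hi0)
              rw [this, hx0]
            · apply hFeq x y (hxb.trans hyb.symm) i
              omega
          by_cases hi : 1 ≤ (i : ℕ) ∧ (i : ℕ) < 1 + (m - 1)
          · have h1 := CountK_key hC hP hB (hSm x hxS).1 (hSm y hyS).1 (hSm x hxS).2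
              (hSm y hyS).2 1 (m - 1) (a + 1) (by omega) (by omega) hout i hi.1 hi.2
            have hPa1 : 0 < P ^ (a + 1) := by positivity
            have h2 : |(x i : ℝ) - y i| * P ^ (a + 1) ≤ (2 * C) * P ^ (a + 1) := by
              refine h1.trans ?_
              nlinarith
            exact le_of_mul_le_mul_right h2 hPa1
          · rw [hout i hi, sub_self, abs_zero]
            positivity
        have h3 := CountK_image T G _ hG2
        refine h3.trans ?_
        exact mul_le_mul_of_nonneg_left hG1 (by positivity)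
      have h4 := CountK_image S F _ hfib
      have h5 : (1 + 2 * C * B / P ^ a) * P ^ a ≤ (1 + 2 * C) * B := by
        have : (1 + 2 * C * B / P ^ a) * P ^ a = P ^ a + 2 * C * B := by
          field_simp
        rw [this]
        linarith
      have h6 : 0 ≤ (1 + 2 * C) ^ (n + 1) * (1 + 2 * C * B / P ^ a) := by positivity
      calc (S.card : ℝ) ≤ (1 + 2 * C) ^ (n + 1) * (1 + 2 * C * B / P ^ a) *
            ((S.image F).card : ℝ) := h4
        _ ≤ (1 + 2 * C) ^ (n + 1) * (1 + 2 * C * B / P ^ a) * P ^ a :=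
            mul_le_mul_of_nonneg_left himg h6
        _ = (1 + 2 * C) ^ (n + 1) * ((1 + 2 * C * B / P ^ a) * P ^ a) := by ring
        _ ≤ (1 + 2 * C) ^ (n + 1) * ((1 + 2 * C) * B) :=
            mul_le_mul_of_nonneg_left h5 (by positivity)
        _ ≤ _ := by nlinarith
  refine hgoal _ fun x hx => ?_
  simp only [Finset.mem_filter] at hx
  exact hx

end FWar
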