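import Pool.Agent.MWg.Defs
import Pool.Agent.PolyMax.Defs

/-!
# Waring's problem for integer parts (folder FWar): definitions

Notation: `e x = exp (2 pi i x)`, `dz x` = distance to the nearest integer (both from
`Pool/Agent/PolyMax/Defs.lean`); `XX r = 2 ^ r`, `mainI P` = naturals in `(P, 16 P]`, `J1 P` =
naturals in `(P / 8, P / 4]`, `pairs W p` = number of pairs in `W × W` with `p`, `nxt`, `Good` (from
`Pool/Agent/MWg/Defs.lean`).
-/

namespace FWar

open Filter Topology MWg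

/-- Number of elements of `W` with a property. -/
noncomputable def cn {ι : Type*} (W : Finset ι) (p : ι → Prop) : ℝ :=
  open Classical in ((W.filter p).card : ℝ)

/-- The real sum of a word. -/
noncomputable def rs (f : ℕ → ℝ) (l : List ℕ) : ℝ := (l.map f).sum

/-- The sum of the integer parts. -/
noncomputable def fs (f : ℕ → ℝ) (l : List ℕ) : ℤ := (l.map fun n => ⌊f n⌋).sum

/-- Words: `q` pairs of letters `(u, v)`, `u ∈ mainI`, `v ∈ J1`, at the scales `P, nx P, nx (nx P),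
...`, followed by one single letter in `mainI (nx^[q] P)` if `s ≠ 0`. -/
noncomputable def mix (nx : ℝ → ℝ) (s : ℕ) : ℕ → ℝ → Finset (List ℕ)
  | 0, P => if s = 0 then {[]} else (mainI P).image (fun x => [x])
  | (q + 1), P => ((mainI P ×ˢ J1 P) ×ˢ mix nx s q (nx P)).image
      (fun p => p.1.1 :: p.1.2 :: p.2)

/-- Words of `mix nx s (q + 1) P` without their first letter. -/
noncomputable def tl (nx : ℝ → ℝ) (s : ℕ) (q : ℕ) (P : ℝ) : Finset (List ℕ) :=
  (J1 P ×ˢ mix nx s q (nx P)).image (fun p => p.1 :: p.2)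

/-- `f` grows like `α x ^ κ`, with increments of the order `x ^ (κ - 1)`. -/
structure Grow (κ α : ℝ) (f : ℕ → ℝ) : Prop where
  pos : 0 < α
  lim : Tendsto (fun x : ℕ => f x / (x : ℝ) ^ κ) atTop (𝓝 α)
  inc : ∃ C : ℝ, ∀ᶠ x : ℕ in atTop, 0 ≤ f (x + 1) - f x ∧
    f (x + 1) - f x ≤ C * (x : ℝ) ^ (κ - 1)

/-- `x` is not approximable by rationals better than with exponent `3`. -/
def Dioph (x : ℝ) : Prop :=
  ∃ c : ℝ, 0 < c ∧ ∀ m : ℕ, 1 ≤ m → ∀ n : ℤ, c / (m : ℝ) ^ 3 ≤ |x - (n : ℝ) / (m : ℝ)|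

/-- The generalised binomial coefficient `κ (κ - 1) ... (κ - i + 1) / i!`. -/
noncomputable def bc (κ : ℝ) (i : ℕ) : ℝ := (∏ l ∈ Finset.range i, (κ - l)) / (i.factorial : ℝ)

end FWar
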