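import Pool.Agent.FWar.Defs
import Pool.Agent.FWar.MixB
import Pool.Agent.MWg.Tools
import Pool.Agent.MWar.Dim

/-!
# FWar.DimC: from averages to the dimension of the exceptional set

PROOF. For `r ≥ r0` (all hypotheses hold) let `W x = cn (S r) (fun i => |G i x| ≤ M + 1)` on `[a,b]`
(`0` outside, if convenient), `∫_a^b W ≤ I := (XX r)^δ Y r` (`h`; measurability from continuity,
compare `Pool/Agent/FWar/AeC.lean` and `avg_cn_eq` in `Pool/Agent/FWar/AvgN.lean`),
`V = (XX r)^(2δ) Y r`, `l = (XX r)^(-Λ)`. If `x ∈ E_r := {x ∈ [a,b] : V < cn (S r) (|G i x| ≤ M)}` and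
`y ∈ [a,b]`, `|y - x| ≤ l`, then `|G i y| ≤ M + 1` whenever `|G i x| ≤ M` (`hLip`), so `V ≤ W y`. By
`Pool.Agent.MWar.cover` the set `E_r` is covered by at most
`I/(V l) + 1 = (XX r)^(Λ-δ) + 1 ≤ 2 (XX r)^(Λ-δ)` intervals of length `l`. With
`d = 1 - δ/(2Λ) ∈ (0,1)`: `2 (XX r)^(Λ-δ) l^d = 2 (XX r)^(-δ/2)`, summable in `r`. So
`Pool.Agent.MWar.dimH_limsup_le` gives the bound `d` for the dimension of the limsup set.
-/

namespace FWar

open MWg Finset MeasureTheory Filter Topology

theorem dim_of_avg {ι : Type*} {S : ℕ → Finset ι} {G : ι → ℝ → ℝ} {a b M δ Λ : ℝ} {Y : ℕ → ℝ}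
    (hab : a ≤ b) (hδ : 0 < δ) (hΛ : δ ≤ Λ) (hY : ∀ᶠ r : ℕ in atTop, 0 < Y r)
    (hG : ∀ r, ∀ i ∈ S r, ContinuousOn (G i) (Set.Icc a b))
    (hLip : ∀ᶠ r : ℕ in atTop, ∀ i ∈ S r, ∀ x ∈ Set.Icc a b, ∀ y ∈ Set.Icc a b,
      |G i x - G i y| ≤ (XX r) ^ Λ * |x - y|)
    (h : ∀ᶠ r : ℕ in atTop,
      ∑ i ∈ S r, (volume {x | x ∈ Set.Icc a b ∧ |G i x| ≤ M + 1}).toReal ≤ (XX r) ^ δ * Y r) :
    dimH {x : ℝ | x ∈ Set.Icc a b ∧ ∃ᶠ r : ℕ in atTop,
      (XX r) ^ (2 * δ) * Y r < cn (S r) (fun i => |G i x| ≤ M)} ≤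
      ENNReal.ofReal (1 - δ / (2 * Λ)) := by
  classical
  have hΛ0 : 0 < Λ := lt_of_lt_of_le hδ hΛ
  have hXX : ∀ r, 0 < XX r := fun r => by unfold XX; positivity
  have hXX1 : ∀ r, 1 ≤ XX r := fun r => by
    unfold XX
    exact one_le_pow₀ (by norm_num)
  obtain ⟨r0, hr0⟩ := eventually_atTop.1 ((hY.and hLip).and h)
  set E : ℕ → Set ℝ := fun r => {x : ℝ | x ∈ Set.Icc a b ∧
    (XX r) ^ (2 * δ) * Y r < cn (S r) (fun i => |G i x| ≤ M)} with hE
  set l : ℕ → ℝ := fun r => (XX r) ^ (-Λ) with hl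
  have hlpos : ∀ r, 0 < l r := fun r => Real.rpow_pos_of_pos (hXX r) _
  -- the covering
  have hcover : ∀ r, r0 ≤ r → ∃ T : Finset ℕ, (T.card : ℝ) ≤ 2 * (XX r) ^ (Λ - δ) ∧
      E r ⊆ ⋃ i ∈ T, Set.Icc (a + i * l r) (a + i * l r + l r) := by
    intro r hr
    obtain ⟨⟨hYr, hLr⟩, hhr⟩ := hr0 r hr
    set A : ι → Set ℝ := fun i => {x | x ∈ Set.Icc a b ∧ |G i x| ≤ M + 1} with hA
    have hAm : ∀ i ∈ S r, MeasurableSet (A i) := by
      intro i hi
      have h1 : A i = Set.Icc a b ∩ (G i) ⁻¹' (Set.Icc (-(M + 1)) (M + 1)) := by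
        ext x
        simp only [hA, Set.mem_setOf_eq, Set.mem_inter_iff, Set.mem_preimage, Set.mem_Icc, abs_le]
      rw [h1]
      exact ((hG r i hi).preimage_isClosed_of_isClosed isClosed_Icc isClosed_Icc).measurableSet
    have hAf : ∀ i, volume (A i) ≠ ⊤ := by
      intro i
      refine ne_top_of_le_ne_top (b := volume (Set.Icc a b)) ?_ (measure_mono fun x hx => hx.1)
      rw [Real.volume_Icc]
      exact ENNReal.ofReal_ne_top
    set W : ℝ → ℝ := fun x => ∑ i ∈ S r, (A i).indicator (fun _ => (1 : ℝ)) x with hW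
    have hint : ∀ i ∈ S r, Integrable ((A i).indicator (fun _ => (1 : ℝ))) volume := by
      intro i hi
      exact (integrable_const_iff_isFiniteMeasure (by norm_num : (1 : ℝ) ≠ 0) |>.2
        ⟨by simpa [lt_top_iff_ne_top] using hAf i⟩ |> fun hh =>
          (integrable_indicator_iff (hAm i hi)).2 hh)
    have hWint : Integrable W volume := integrable_finsetSum _ hint
    have hW0 : ∀ x, 0 ≤ W x := fun x =>
      Finset.sum_nonneg fun i _ => Set.indicator_nonneg (fun _ _ => by norm_num) x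
    have hWI : ∫ x in a..b, W x ≤ (XX r) ^ δ * Y r := by
      refine le_trans ?_ hhr
      rw [intervalIntegral.integral_of_le hab]
      simp only [hW]
      rw [integral_finsetSum _ (fun i hi => (hint i hi).integrableOn)]
      refine Finset.sum_le_sum fun i hi => ?_
      rw [integral_indicator (hAm i hi), setIntegral_const, smul_eq_mul, mul_one]
      refine ENNReal.toReal_mono (hAf i) ?_
      exact Measure.restrict_apply_le _ _
    have hVpos : 0 < (XX r) ^ (2 * δ) * Y r := mul_pos (Real.rpow_pos_of_pos (hXX r) _) hYr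
    obtain ⟨T, hT1, hT2⟩ := Pool.Agent.MWar.cover (E := E r) hVpos (hlpos r) hab
      hWint.intervalIntegrable hW0 hWI (fun x hx => hx.1) (by
        intro x hx y hy hxy
        refine hx.2.le.trans ?_
        have h1 : W y = (((S r).filter fun i => |G i y| ≤ M + 1).card : ℝ) := by
          simp only [hW]
          rw [Finset.card_filter]
          push_cast
          refine Finset.sum_congr rfl fun i _ => ?_
          by_cases hi : |G i y| ≤ M + 1
          · rw [if_pos hi, Set.indicator_of_mem (show y ∈ A i from ⟨hy, hi⟩)]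
          · rw [if_neg hi, Set.indicator_of_notMem (fun hm : y ∈ A i => hi hm.2)]
        rw [h1]
        unfold cn
        refine Nat.cast_le.2 (Finset.card_le_card ?_)
        intro i hi
        rw [Finset.mem_filter] at hi ⊢
        refine ⟨hi.1, ?_⟩
        have h2 := hLr i hi.1 y hy x hx.1
        have h3 : (XX r) ^ Λ * |y - x| ≤ 1 := by
          have h4 : (XX r) ^ Λ * |y - x| ≤ (XX r) ^ Λ * l r :=
            mul_le_mul_of_nonneg_left hxy (Real.rpow_nonneg (hXX r).le _)
          have h5 : (XX r) ^ Λ * l r = 1 := by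
            simp only [hl]
            rw [← Real.rpow_add (hXX r), add_neg_cancel, Real.rpow_zero]
          linarith
        have h6 : |G i y| ≤ |G i x| + |G i y - G i x| := by
          have := abs_add_le (G i x) (G i y - G i x)
          rwa [add_sub_cancel] at this
        linarith [hi.2])
    refine ⟨T, hT1.trans ?_, hT2⟩
    have h1 : (XX r) ^ δ * Y r / ((XX r) ^ (2 * δ) * Y r * l r) = (XX r) ^ (Λ - δ) := by
      have h2 : (XX r) ^ δ = (XX r) ^ (Λ - δ) * ((XX r) ^ (2 * δ) * l r) := by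
        simp only [hl]
        rw [← Real.rpow_add (hXX r), ← Real.rpow_add (hXX r)]
        congr 1
        ring
      rw [div_eq_iff (by have := hlpos r; positivity)]
      calc (XX r) ^ δ * Y r = ((XX r) ^ (Λ - δ) * ((XX r) ^ (2 * δ) * l r)) * Y r := by rw [← h2]
        _ = _ := by ring
    rw [h1]
    have h2 : 1 ≤ (XX r) ^ (Λ - δ) := Real.one_le_rpow (hXX1 r) (by linarith)
    linarith
  -- choice
  have hch : ∀ r, ∃ T : Finset ℕ, (T.card : ℝ) ≤ 2 * (XX r) ^ (Λ - δ) ∧
      (r0 ≤ r → E r ⊆ ⋃ i ∈ T, Set.Icc (a + i * l r) (a + i * l r + l r)) := by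
    intro r
    by_cases hr : r0 ≤ r
    · obtain ⟨T, h1, h2⟩ := hcover r hr
      exact ⟨T, h1, fun _ => h2⟩
    · refine ⟨∅, ?_, fun h => absurd h hr⟩
      rw [Finset.card_empty, Nat.cast_zero]
      have := hXX r
      positivity
  choose T hT1 hT2 using hch
  set d : NNReal := Real.toNNReal (1 - δ / (2 * Λ)) with hd
  have hd0 : 0 < 1 - δ / (2 * Λ) := by
    have : δ / (2 * Λ) ≤ 1 / 2 := by
      rw [div_le_div_iff₀ (by positivity) (by norm_num)]
      linarith
    linarith
  have hdc : (d : ℝ) = 1 - δ / (2 * Λ) := Real.coe_toNNReal _ hd0.le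
  set q : ℝ := (2 : ℝ) ^ (-(δ / 2)) with hq
  have hq0 : 0 < q := by rw [hq]; positivity
  have hq1 : q < 1 := by
    rw [hq]
    exact Real.rpow_lt_one_of_one_lt_of_neg (by norm_num) (by linarith)
  have hmain := Pool.Agent.MWar.dimH_limsup_le (E := E) (T := T) (a := fun r i => a + i * l r)
    (l := l) (j0 := r0) (by
      intro r s hrs
      simp only [hl]
      rw [Real.rpow_neg (hXX r).le, Real.rpow_neg (hXX s).le]
      have h1 : XX r ≤ XX s := by
        unfold XX
        exact pow_le_pow_right₀ (by norm_num) hrs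
      exact inv_anti₀ (Real.rpow_pos_of_pos (hXX r) _)
        (Real.rpow_le_rpow (hXX r).le h1 hΛ0.le))
    (by
      have h1 : Tendsto (fun r : ℕ => XX r) atTop atTop := by
        unfold XX
        exact tendsto_pow_atTop_atTop_of_one_lt (by norm_num)
      exact (tendsto_rpow_neg_atTop hΛ0).comp h1)
    (fun r hr => hT2 r hr) (d := d) (by rw [hd]; exact Real.toNNReal_pos.2 hd0)
    (by
      refine ne_top_of_le_ne_top (b := ∑' r : ℕ, ENNReal.ofReal (2 * q ^ r)) ?_
        (ENNReal.tsum_le_tsum fun r => ?_)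
      · rw [← ENNReal.ofReal_tsum_of_nonneg (fun r => by positivity)
          ((summable_geometric_of_lt_one hq0.le hq1).mul_left 2)]
        exact ENNReal.ofReal_ne_top
      · rw [ENNReal.ofReal_rpow_of_pos (hlpos r), ← ENNReal.ofReal_natCast,
          ← ENNReal.ofReal_mul (by positivity)]
        refine ENNReal.ofReal_le_ofReal ?_
        have h1 : 0 ≤ l r ^ (d : ℝ) := Real.rpow_nonneg (hlpos r).le _
        refine (mul_le_mul_of_nonneg_right (hT1 r) h1).trans (le_of_eq ?_)
        have h2 : l r ^ (d : ℝ) = (XX r) ^ (-Λ + δ / 2) := by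
          simp only [hl]
          rw [← Real.rpow_mul (hXX r).le, hdc]
          congr 1
          field_simp
          ring
        have h3 : q ^ r = (XX r) ^ (-(δ / 2)) := by
          rw [hq]
          unfold XX
          rw [← Real.rpow_natCast, ← Real.rpow_mul (by norm_num), ← Real.rpow_natCast,
            ← Real.rpow_mul (by norm_num)]
          congr 1
          ring
        rw [h2, h3, mul_assoc, ← Real.rpow_add (hXX r)]
        congr 2
        ring)
  refine le_trans (dimH_mono ?_) hmain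
  rintro x ⟨hx1, hx2⟩
  exact hx2.mono fun r hr => ⟨hx1, hr⟩

end FWar
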