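import Pool.Agent.FWar.MixE
import Pool.Agent.FWar.AvgN
import Pool.Agent.FWar.DimC
import Pool.Agent.FWar.AeE

/-!
# FWar.DimE: dimension of the set of exponents with many near coincidences

The same as `FWar.AeE` with `dim_of_avg` instead of `ae_of_avg` (adapt `Pool/Agent/FWar/AeE.lean`;
its private lemmas may be copied or made public).

`P = XX r`, `nx x = x^λ`, `λ = 1 - 1/κ1`, `W_r = mix nx s q P`, `m_r = |W_r|`.

PROOF. The exceptional set is the union over the natural numbers `M` of the sets for one `M`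
(monotone in `M`), and `dimH` of a countable union is the supremum (`dimH_iUnion`); so let `M` be one
natural number. Index set `S_r = W_r × W_r`, `G (w,w') κ = rs (x^κ) w - rs (x^κ) w'`, with derivative
bounded by `P^(κ2+η)` on `[κ1,κ2]` for large `r` (`mixE_bound`): `hLip` with `Λ = κ2 + η`.
As in the proof of `aeE` (with `M + 1` in place of `M`): for large `r`
`∑ vol {κ ∈ [κ1,κ2] : |G| ≤ M + 1} ≤ P^δ Y r`, `δ = (4q+7) η ≤ 1 ≤ Λ`, `Y r = m_r² P^(-κ1)`.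
So `dim_of_avg` bounds the dimension of
`{κ : ∃ᶠ r, P^(2δ) Y r < pairs (|G| ≤ M)}` by `1 - δ/(2Λ) ≤ 1 - η/(κ2+η)`. And for `κ ∈ [κ1,κ2]`:
`P^(2δ) m_r² P^(-κ1) ≤ P^(2δ+η) m_r² P^(-κ) ≤ P^(16(q+1)η) m_r² P^(-κ)`, so the set in question is
contained in that one.
-/

namespace FWar

open MWg Finset MeasureTheory Filter Topology

/-- The statement for one `M`. -/
theorem dimE_fixed {κ1 κ2 η : ℝ} (h1 : 1 < κ1) (h12 : κ1 ≤ κ2) (hη : 0 < η) (hκη : κ2 - κ1 ≤ η)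
    {s : ℕ} (hs : s ≤ 1) (q : ℕ) (hη1 : (4 * q + 7) * η ≤ 1)
    (hc : (1 - 1 / κ1) ^ q * (2 * κ2 - s) ≤ κ1 + η) {M : ℝ} (hM : 0 ≤ M) :
    dimH {κ : ℝ | κ ∈ Set.Icc κ1 κ2 ∧ ∃ᶠ r : ℕ in atTop,
      (XX r) ^ (16 * (q + 1) * η) *
        ((mix (fun x => x ^ (1 - 1 / κ1)) s q (XX r)).card : ℝ) ^ 2 / (XX r) ^ κ <
      pairs (mix (fun x => x ^ (1 - 1 / κ1)) s q (XX r)) (fun p =>
        |rs (fun x => (x : ℝ) ^ κ) p.1 - rs (fun x => (x : ℝ) ^ κ) p.2| ≤ M)} ≤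
      ENNReal.ofReal (1 - η / (κ2 + η)) := by
  obtain ⟨hl0, hl1⟩ := aeE_lam h1
  set W : ℕ → Finset (List ℕ) := fun r => mix (fun x => x ^ (1 - 1 / κ1)) s q (XX r) with hW
  set G : List ℕ × List ℕ → ℝ → ℝ := fun i κ =>
    rs (fun x => (x : ℝ) ^ κ) i.1 - rs (fun x => (x : ℝ) ^ κ) i.2 with hG
  set Y : ℕ → ℝ := fun r => ((W r).card : ℝ) ^ 2 * XX r ^ (-κ1) with hYdef
  have hq0 : (0 : ℝ) ≤ (q : ℝ) := Nat.cast_nonneg q
  have hδ : 0 < (4 * (q : ℝ) + 7) * η := by positivity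
  have hcard := aeE_card_pos hl0 hl1.le s q
  have hY : ∀ᶠ r : ℕ in atTop, 0 < Y r := by
    filter_upwards [hcard] with r hr
    have h3 : 0 < XX r ^ (-κ1) := Real.rpow_pos_of_pos (XX_pos r) _
    have h4 : (0 : ℝ) < ((W r).card : ℝ) := hr
    rw [hYdef]
    positivity
  have hder : ∀ r, ∀ i ∈ W r ×ˢ W r, ∀ x : ℝ, HasDerivAt (G i)
      (rs (fun z => (z : ℝ) ^ x * Real.log z) i.1 -
        rs (fun z => (z : ℝ) ^ x * Real.log z) i.2) x := by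
    intro r i hi x
    obtain ⟨hi1, hi2⟩ := Finset.mem_product.1 hi
    exact (aeE_deriv i.1 (mix_pos q (XX r) _ hi1) x).sub
      (aeE_deriv i.2 (mix_pos q (XX r) _ hi2) x)
  have hLip : ∀ᶠ r : ℕ in atTop, ∀ i ∈ W r ×ˢ W r, ∀ x ∈ Set.Icc κ1 κ2, ∀ y ∈ Set.Icc κ1 κ2,
      |G i x - G i y| ≤ (XX r) ^ (κ2 + η) * |x - y| := by
    filter_upwards [aeE_bd (κ1 := κ1) (κ2 := κ2) (η := η) h1 h12 hη hs q] with r hr i hi x hx
      y hy
    have h3 := Convex.norm_image_sub_le_of_norm_hasDerivWithin_le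
      (f := G i) (s := Set.Icc κ1 κ2) (C := XX r ^ (κ2 + η))
      (fun t ht => (hder r i hi t).hasDerivWithinAt)
      (fun t ht => by rw [Real.norm_eq_abs]; exact hr i hi t ht) (convex_Icc κ1 κ2) hy hx
    simpa [Real.norm_eq_abs] using h3
  have havg := aeE_avg h1 h12 hη hκη hs q hc (M := M + 1) (by linarith)
  have hd := dim_of_avg (S := fun r => W r ×ˢ W r) (G := G) (a := κ1) (b := κ2) (M := M)
    (δ := (4 * (q : ℝ) + 7) * η) (Λ := κ2 + η) (Y := Y) h12 hδ (by linarith) hY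
    (fun r i hi x _ => (hder r i hi x).continuousAt.continuousWithinAt) hLip havg
  refine (dimH_mono ?_).trans (hd.trans (ENNReal.ofReal_le_ofReal ?_))
  · rintro κ ⟨hκI, hκ⟩
    refine ⟨hκI, hκ.mono fun r hr => ?_⟩
    rw [pairs_eq_cn] at hr
    exact lt_of_le_of_lt (aeE_cmp hη hκη q hκI.2 _ r) hr
  · have hΛ : 0 < κ2 + η := by linarith
    have h5 : η / (κ2 + η) ≤ (4 * (q : ℝ) + 7) * η / (2 * (κ2 + η)) := by
      rw [div_le_div_iff₀ hΛ (by linarith)]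
      nlinarith [mul_pos hη hΛ, mul_nonneg hq0 (mul_pos hη hΛ).le]
    linarith

theorem dimE {κ1 κ2 η : ℝ} (h1 : 1 < κ1) (h12 : κ1 ≤ κ2) (hη : 0 < η) (hκη : κ2 - κ1 ≤ η)
    {s : ℕ} (hs : s ≤ 1) (q : ℕ) (hη1 : (4 * q + 7) * η ≤ 1)
    (hc : (1 - 1 / κ1) ^ q * (2 * κ2 - s) ≤ κ1 + η) :
    dimH {κ : ℝ | κ ∈ Set.Icc κ1 κ2 ∧ ∃ M : ℝ, ∃ᶠ r : ℕ in atTop,
      (XX r) ^ (16 * (q + 1) * η) *
        ((mix (fun x => x ^ (1 - 1 / κ1)) s q (XX r)).card : ℝ) ^ 2 / (XX r) ^ κ <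
      pairs (mix (fun x => x ^ (1 - 1 / κ1)) s q (XX r)) (fun p =>
        |rs (fun x => (x : ℝ) ^ κ) p.1 - rs (fun x => (x : ℝ) ^ κ) p.2| ≤ M)} ≤
      ENNReal.ofReal (1 - η / (κ2 + η)) := by
  set T : ℝ → Set ℝ := fun M => {κ : ℝ | κ ∈ Set.Icc κ1 κ2 ∧ ∃ᶠ r : ℕ in atTop,
      (XX r) ^ (16 * (q + 1) * η) *
        ((mix (fun x => x ^ (1 - 1 / κ1)) s q (XX r)).card : ℝ) ^ 2 / (XX r) ^ κ <
      pairs (mix (fun x => x ^ (1 - 1 / κ1)) s q (XX r)) (fun p =>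
        |rs (fun x => (x : ℝ) ^ κ) p.1 - rs (fun x => (x : ℝ) ^ κ) p.2| ≤ M)} with hT
  have h : dimH (⋃ n : ℕ, T n) ≤ ENNReal.ofReal (1 - η / (κ2 + η)) := by
    rw [dimH_iUnion]
    exact iSup_le fun n => dimE_fixed h1 h12 hη hκη hs q hη1 hc (Nat.cast_nonneg n)
  refine (dimH_mono ?_).trans h
  rintro κ ⟨hκI, M, hκ⟩
  obtain ⟨n, hn⟩ := exists_nat_ge M
  refine Set.mem_iUnion.2 ⟨n, hκI, hκ.mono fun r hr => lt_of_lt_of_le hr ?_⟩
  exact pairs_mono _ fun w _ w' _ hw => le_trans hw hn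

end FWar
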