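import Pool.Agent.FWar.MixS
import Pool.Agent.FWar.AvgN
import Pool.Agent.FWar.DimC

/-!
# FWar.DimSq (words with a general number of pairs): dimension of the set of shifts with many near coincidences

The same as `FWar.DimP` (adapt `Pool/Agent/FWar/DimP.lean`, which adapts `FWar.AeP`; its private lemmas
`half_bound`, `tau_sq`, ... may be copied or made public) for `G (w,w') b = rs ((x+b)^k) w - rs ((x+b)^k) w'`.

PROOF. Countable union over natural `T, M ≥ 1`; let `|b| ≤ T`. `P = XX r`, `W_r = mix (nxt k) 1 (k-1) P`,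
`m_r = |W_r|`. `G' = k (rs ((x+b)^(k-1)) w - rs ((x+b)^(k-1)) w')`, `|G'| ≤ L := C P^(k-1)` and
`|G''| ≤ C P^(k-2) ≤ L` (`mixS_bound` for `j = k - 1`, `k - 2`; `C ≥ 1`). `B0 = max(1, ((nxt k)^[k-1] P)^(k-1))`,
`B0² ≤ C P^(k-1)` (as in `FWar.AeP`). `hN` of `avg_nl`: if `|G| ≤ M + 1 + 2B²/L`, `|G'| ≤ 3B`,
`B0 ≤ B ≤ L`, then the two conditions of `mixS_AB` hold with `M' = (M + 1 + 2 + 3) B`; so the number of
pairs is at most `C m_r² (max M' B0)²/P^(2k-1) ≤ K B²`, `K = C' m_r²/P^(2k-1)`. `avg_nl` gives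
`∑ vol ≤ 2T K B0² + 8 I K L (M+1) (1 + 2T) ≤ P^(ε/2) m_r²/P^k` for large `r` (`I = O(r)`). `dim_of_avg` with
`δ = ε/2`, `Λ = k` (`|G'| ≤ P^k`) gives the dimension bound `1 - ε/(4k)`.
-/

namespace FWar

open MWg Finset MeasureTheory Filter Topology

private theorem DimSq_tau_sq {k q : ℕ} (hk : 2 ≤ k)
    (hq : (1 - 1 / (k : ℝ)) ^ q ≤ 1 / 2) : ∃ C : ℝ, 1 ≤ C ∧ ∀ P : ℝ, 1 ≤ P →
    (((nxt k)^[q] P) ^ (k - 1)) ^ 2 ≤ C * P ^ (k - 1) := by
  obtain ⟨C, hC, h⟩ := nxt_iter_pow_le (show 1 ≤ k by omega) q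
  refine ⟨(max C 1) ^ 2, one_le_pow₀ (le_max_right _ _), fun P hP => ?_⟩
  obtain ⟨D, hD⟩ : ∃ D, D = max C 1 := ⟨_, rfl⟩
  have hD1 : 1 ≤ D := by rw [hD]; exact le_max_right _ _
  have hCD : C ≤ D := by rw [hD]; exact le_max_left _ _
  rw [← hD]
  have h1 := h P hP
  have hy1 : 1 ≤ (nxt k)^[q] P := nxt_iter_ge_one (by omega) q hP
  generalize (nxt k)^[q] P = y at h1 hy1 ⊢
  have hkR : (2 : ℝ) ≤ k := by exact_mod_cast hk
  have h2 : P ^ ((k : ℝ) * (1 - 1 / (k : ℝ)) ^ q) ≤ P ^ ((k : ℝ) * (1 / 2)) :=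
    Real.rpow_le_rpow_of_exponent_le hP
      (mul_le_mul_of_nonneg_left hq (by linarith))
  have h3 : (P ^ ((k : ℝ) * (1 / 2))) ^ 2 = P ^ k := by
    rw [← Real.rpow_natCast, ← Real.rpow_mul (by linarith)]
    rw [show (k : ℝ) * (1 / 2) * ((2 : ℕ) : ℝ) = ((k : ℕ) : ℝ) by push_cast; ring,
      Real.rpow_natCast]
  have h4 : y ^ k ≤ D * P ^ ((k : ℝ) * (1 / 2)) := by
    refine h1.trans ?_
    refine mul_le_mul hCD h2 (Real.rpow_nonneg (by linarith) _) (by linarith)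
  have h5 : (y ^ k) ^ 2 ≤ D ^ 2 * P ^ k := by
    calc (y ^ k) ^ 2 ≤ (D * P ^ ((k : ℝ) * (1 / 2))) ^ 2 :=
          pow_le_pow_left₀ (by positivity) h4 2
      _ = D ^ 2 * P ^ k := by rw [mul_pow, h3]
  have h6 : ((y ^ (k - 1)) ^ 2) ^ k ≤ (D ^ 2 * P ^ (k - 1)) ^ k := by
    calc ((y ^ (k - 1)) ^ 2) ^ k = ((y ^ k) ^ 2) ^ (k - 1) := by
          rw [← pow_mul, ← pow_mul, ← pow_mul, ← pow_mul]
          congr 1
          ring
      _ ≤ (D ^ 2 * P ^ k) ^ (k - 1) := pow_le_pow_left₀ (by positivity) h5 _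
      _ = (D ^ 2) ^ (k - 1) * (P ^ (k - 1)) ^ k := by
          rw [mul_pow, ← pow_mul P k (k - 1), ← pow_mul P (k - 1) k, mul_comm k (k - 1)]
      _ ≤ (D ^ 2) ^ k * (P ^ (k - 1)) ^ k :=
          mul_le_mul_of_nonneg_right
            (pow_le_pow_right₀ (one_le_pow₀ hD1) (by omega)) (by positivity)
      _ = _ := by rw [mul_pow]
  exact le_of_pow_le_pow_left₀ (by omega) (by positivity) h6

private theorem DimSq_XX_rpow (r : ℕ) (δ : ℝ) : (XX r) ^ δ = ((2 : ℝ) ^ δ) ^ r := by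
  unfold XX
  rw [← Real.rpow_natCast, ← Real.rpow_natCast, ← Real.rpow_mul (by norm_num),
    ← Real.rpow_mul (by norm_num), mul_comm]

private theorem DimSq_lin_le (C : ℝ) (hC : 0 < C) {δ : ℝ} (hδ : 0 < δ) :
    ∀ᶠ r : ℕ in atTop, C * ((r : ℝ) + 1) ≤ (XX r) ^ δ := by
  have hb : (1 : ℝ) < (2 : ℝ) ^ δ := Real.one_lt_rpow (by norm_num) hδ
  have h1 := tendsto_pow_const_div_const_pow_of_one_lt 1 hb
  have h2 : ∀ᶠ n : ℕ in atTop, (n : ℝ) ^ 1 / ((2 : ℝ) ^ δ) ^ n < 1 / (2 * C) :=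
    h1.eventually_lt_const (by positivity)
  filter_upwards [h2, eventually_ge_atTop 1] with r hr hr1
  rw [DimSq_XX_rpow]
  have hr2 : (1 : ℝ) ≤ r := by exact_mod_cast hr1
  have hp : 0 < ((2 : ℝ) ^ δ) ^ r := by positivity
  rw [pow_one, div_lt_div_iff₀ hp (by positivity)] at hr
  nlinarith

private theorem DimSq_one_le_XX (r : ℕ) : 1 ≤ XX r := by
  unfold XX
  exact one_le_pow₀ (by norm_num)

private theorem DimSq_card_ev {k : ℕ} (hk : 2 ≤ k) (q : ℕ) : ∀ᶠ r : ℕ in atTop,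
    0 < ((mix (nxt k) 1 q (XX r)).card : ℝ) := by
  have h1 : ∀ᶠ r : ℕ in atTop, ∀ i ∈ Finset.range (q + 1), 16 ≤ (nxt k)^[i] (XX r) := by
    rw [Filter.eventually_all_finset]
    intro i _
    exact ((nxt_iter_tendsto hk i).comp XX_tendsto).eventually_ge_atTop 16
  filter_upwards [h1] with r hr
  exact mix_card_pos q (XX r) fun i hi => hr i (Finset.mem_range.2 (by omega))

private theorem DimSq_deriv (j : ℕ) (l : List ℕ) (b : ℝ) :
    HasDerivAt (fun b : ℝ => rs (fun x : ℕ => ((x : ℝ) + b) ^ j) l)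
      ((j : ℝ) * rs (fun x : ℕ => ((x : ℝ) + b) ^ (j - 1)) l) b := by
  induction l with
  | nil =>
    have e : (fun b : ℝ => rs (fun x : ℕ => ((x : ℝ) + b) ^ j) []) = fun _ => (0 : ℝ) := by
      funext b
      simp [rs]
    rw [e]
    have e2 : (j : ℝ) * rs (fun x : ℕ => ((x : ℝ) + b) ^ (j - 1)) [] = 0 := by simp [rs]
    rw [e2]
    exact hasDerivAt_const _ _
  | cons u l ih =>
    have e : (fun b : ℝ => rs (fun x : ℕ => ((x : ℝ) + b) ^ j) (u :: l)) =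
        fun b : ℝ => ((u : ℝ) + b) ^ j + rs (fun x : ℕ => ((x : ℝ) + b) ^ j) l := by
      funext b
      exact rs_cons _ u l
    rw [e, rs_cons, mul_add]
    have h1 : HasDerivAt (fun b : ℝ => ((u : ℝ) + b) ^ j)
        ((j : ℝ) * ((u : ℝ) + b) ^ (j - 1)) b := by
      have h2 : HasDerivAt (fun b : ℝ => (u : ℝ) + b) 1 b :=
        (hasDerivAt_id b).const_add (u : ℝ)
      have h3 := h2.fun_pow j
      simpa using h3
    exact h1.add ih

private theorem DimSq_diff (j : ℕ) (l l' : List ℕ) (b : ℝ) :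
    HasDerivAt (fun b : ℝ => rs (fun x : ℕ => ((x : ℝ) + b) ^ j) l -
      rs (fun x : ℕ => ((x : ℝ) + b) ^ j) l')
      ((j : ℝ) * (rs (fun x : ℕ => ((x : ℝ) + b) ^ (j - 1)) l -
        rs (fun x : ℕ => ((x : ℝ) + b) ^ (j - 1)) l')) b := by
  rw [mul_sub]
  exact (DimSq_deriv j l b).sub (DimSq_deriv j l' b)

/-- mean value inequality -/
private theorem DimSq_mv {g g' : ℝ → ℝ} {a b L : ℝ}
    (hg : ∀ x, HasDerivAt g (g' x) x) (hb : ∀ x ∈ Set.Icc a b, |g' x| ≤ L) :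
    ∀ x ∈ Set.Icc a b, ∀ y ∈ Set.Icc a b, |g x - g y| ≤ L * |x - y| := by
  intro x hx y hy
  have h := Convex.norm_image_sub_le_of_norm_hasDerivWithin_le (f := g) (f' := g')
    (s := Set.Icc a b) (C := L) (x := y) (y := x)
    (fun z _ => (hg z).hasDerivWithinAt) (fun z hz => by
      rw [Real.norm_eq_abs]
      exact hb z hz) (convex_Icc a b) hy hx
  rwa [Real.norm_eq_abs, Real.norm_eq_abs] at h

private theorem DimSq_avg_bound {k q : ℕ} (hk : 2 ≤ k)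
    (hq : (1 - 1 / (k : ℝ)) ^ q ≤ 1 / 2) (T : ℝ)
    (hT : 1 ≤ T) {δ : ℝ} (hδ : 0 < δ) :
    ∀ᶠ r : ℕ in atTop,
      ∑ i ∈ (mix (nxt k) 1 q (XX r)) ×ˢ (mix (nxt k) 1 q (XX r)),
        (volume {b : ℝ | b ∈ Set.Icc (-T) T ∧
          |rs (fun x : ℕ => ((x : ℝ) + b) ^ k) i.1 -
            rs (fun x : ℕ => ((x : ℝ) + b) ^ k) i.2| ≤ T}).toReal ≤
      (XX r) ^ δ * (((mix (nxt k) 1 q (XX r)).card : ℝ) ^ 2 / (XX r) ^ k) := by
  obtain ⟨C1, hC1, P1, hP1, hAB⟩ := mixS_AB hk T q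
  obtain ⟨C2, hC2, P2, hP2, hpw⟩ := mixS_bound hk T (k - 1) q
  obtain ⟨C4, hC4, P4, hP4, hpw4⟩ := mixS_bound hk T (k - 1 - 1) q
  obtain ⟨C0, hC0, hτ⟩ := DimSq_tau_sq hk hq
  have hkR : (2 : ℝ) ≤ k := by exact_mod_cast hk
  obtain ⟨CL, hCL⟩ : ∃ CL, CL = max C0 (max (2 * k * C2) (2 * k * k * C4)) := ⟨_, rfl⟩
  have hCL0 : C0 ≤ CL := by rw [hCL]; exact le_max_left _ _
  have hCL2 : 2 * k * C2 ≤ CL := by
    rw [hCL]
    exact (le_max_left _ _).trans (le_max_right _ _)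
  have hCL4 : 2 * k * k * C4 ≤ CL := by
    rw [hCL]
    exact (le_max_right _ _).trans (le_max_right _ _)
  have hCL1 : 1 ≤ CL := hC0.trans hCL0
  obtain ⟨c, hc⟩ := pow_unbounded_of_one_lt CL (show (1 : ℝ) < 2 by norm_num)
  obtain ⟨Z, hZ⟩ : ∃ Z : ℝ, Z = C1 * (T + 3) ^ 2 := ⟨_, rfl⟩
  have hZ0 : 0 < Z := by rw [hZ]; positivity
  obtain ⟨C3, hC3⟩ : ∃ C3 : ℝ, C3 = Z * (2 * T * C0 + 8 * (k + c) * CL * T * (1 + 2 * T)) :=
    ⟨_, rfl⟩
  have hC3p : 0 < C3 := by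
    rw [hC3]
    positivity
  filter_upwards [DimSq_lin_le C3 hC3p hδ, XX_tendsto.eventually_ge_atTop P1,
    XX_tendsto.eventually_ge_atTop P2, XX_tendsto.eventually_ge_atTop P4] with r hlin hr1 hr2 hr4
  have hP := DimSq_one_le_XX r
  have hXk : XX r ^ k = 2 ^ (r * k) := by
    unfold XX
    rw [← pow_mul]
  generalize XX r = P at *
  obtain ⟨m, hm⟩ : ∃ m : ℝ, m = ((mix (nxt k) 1 q P).card : ℝ) := ⟨_, rfl⟩
  have hm0 : 0 ≤ m := by rw [hm]; exact Nat.cast_nonneg _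
  have hP0 : 0 < P := by linarith
  obtain ⟨τ, hτd⟩ : ∃ τ : ℝ, τ = ((nxt k)^[q] P) ^ (k - 1) := ⟨_, rfl⟩
  have hτ2 : τ ^ 2 ≤ C0 * P ^ (k - 1) := by rw [hτd]; exact hτ P hP
  obtain ⟨B0, hB0d⟩ : ∃ B0 : ℝ, B0 = max 1 τ := ⟨_, rfl⟩
  have hB01 : 1 ≤ B0 := by rw [hB0d]; exact le_max_left _ _
  have hB0τ : τ ≤ B0 := by rw [hB0d]; exact le_max_right _ _
  have hPk : 1 ≤ P ^ (k - 1) := one_le_pow₀ hP
  have hB02 : B0 ^ 2 ≤ C0 * P ^ (k - 1) := by
    rcases le_total τ 1 with h | h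
    · rw [hB0d, max_eq_left h, one_pow]
      exact one_le_mul_of_one_le_of_one_le hC0 hPk
    · rw [hB0d, max_eq_right h]
      exact hτ2
  obtain ⟨L, hLd⟩ : ∃ L : ℝ, L = CL * P ^ (k - 1) := ⟨_, rfl⟩
  have hL0 : 0 < L := by rw [hLd]; positivity
  have hB0L : B0 ≤ L := by
    have h1 : B0 ≤ B0 ^ 2 := le_self_pow₀ hB01 two_ne_zero
    have h2 : C0 * P ^ (k - 1) ≤ CL * P ^ (k - 1) :=
      mul_le_mul_of_nonneg_right hCL0 (by positivity)
    rw [hLd]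
    linarith
  have hI : L ≤ 2 ^ (r * k + c) * B0 := by
    have h1 : P ^ (k - 1) ≤ P ^ k := pow_le_pow_right₀ hP (by omega)
    have h2 : L ≤ 2 ^ (r * k + c) := by
      rw [hLd, pow_add, ← hXk, mul_comm]
      exact mul_le_mul h1 hc.le (by linarith) (by positivity)
    have h3 : (0 : ℝ) < 2 ^ (r * k + c) := by positivity
    exact h2.trans (le_mul_of_one_le_right h3.le hB01)
  obtain ⟨K, hKd⟩ : ∃ K : ℝ, K = Z * m ^ 2 / P ^ (2 * k - 1) := ⟨_, rfl⟩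
  have hK0 : 0 ≤ K := by rw [hKd]; positivity
  have hKP : K * P ^ (k - 1) = Z * (m ^ 2 / P ^ k) := by
    have e1 : P ^ (2 * k - 1) = P ^ (k - 1) * P ^ k := by
      rw [← pow_add]
      congr 1
      omega
    rw [hKd, e1]
    field_simp
  have hbd1 : ∀ i ∈ (mix (nxt k) 1 q P) ×ˢ (mix (nxt k) 1 q P),
      ∀ b ∈ Set.Icc (-T) T, |(k : ℝ) * (rs (fun x : ℕ => ((x : ℝ) + b) ^ (k - 1)) i.1 -
        rs (fun x : ℕ => ((x : ℝ) + b) ^ (k - 1)) i.2)| ≤ L := by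
    intro i hi b hb
    have hbT : |b| ≤ T := abs_le.2 ⟨hb.1, hb.2⟩
    have h1 := hpw P hr2 b hbT i.1 (Finset.mem_product.1 hi).1
    have h2 := hpw P hr2 b hbT i.2 (Finset.mem_product.1 hi).2
    have h3 := abs_sub (rs (fun x : ℕ => ((x : ℝ) + b) ^ (k - 1)) i.1)
        (rs (fun x : ℕ => ((x : ℝ) + b) ^ (k - 1)) i.2)
    rw [abs_mul, abs_of_nonneg (by linarith : (0 : ℝ) ≤ k), hLd]
    calc (k : ℝ) * |rs (fun x : ℕ => ((x : ℝ) + b) ^ (k - 1)) i.1 -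
          rs (fun x : ℕ => ((x : ℝ) + b) ^ (k - 1)) i.2|
        ≤ k * (C2 * P ^ (k - 1) + C2 * P ^ (k - 1)) :=
          mul_le_mul_of_nonneg_left (by linarith) (by linarith)
      _ = 2 * k * C2 * P ^ (k - 1) := by ring
      _ ≤ _ := mul_le_mul_of_nonneg_right hCL2 (by positivity)
  have hbd2 : ∀ i ∈ (mix (nxt k) 1 q P) ×ˢ (mix (nxt k) 1 q P),
      ∀ b ∈ Set.Icc (-T) T, |(k : ℝ) * (((k - 1 : ℕ) : ℝ) *
        (rs (fun x : ℕ => ((x : ℝ) + b) ^ (k - 1 - 1)) i.1 -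
        rs (fun x : ℕ => ((x : ℝ) + b) ^ (k - 1 - 1)) i.2))| ≤ L := by
    intro i hi b hb
    have hbT : |b| ≤ T := abs_le.2 ⟨hb.1, hb.2⟩
    have h1 := hpw4 P hr4 b hbT i.1 (Finset.mem_product.1 hi).1
    have h2 := hpw4 P hr4 b hbT i.2 (Finset.mem_product.1 hi).2
    have h3 := abs_sub (rs (fun x : ℕ => ((x : ℝ) + b) ^ (k - 1 - 1)) i.1)
        (rs (fun x : ℕ => ((x : ℝ) + b) ^ (k - 1 - 1)) i.2)
    have hk1 : ((k - 1 : ℕ) : ℝ) ≤ k := by exact_mod_cast Nat.sub_le k 1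
    have hk10 : (0 : ℝ) ≤ ((k - 1 : ℕ) : ℝ) := Nat.cast_nonneg _
    have hPP : P ^ (k - 1 - 1) ≤ P ^ (k - 1) := pow_le_pow_right₀ hP (by omega)
    rw [abs_mul, abs_mul, abs_of_nonneg (by linarith : (0 : ℝ) ≤ k), abs_of_nonneg hk10, hLd]
    calc (k : ℝ) * (((k - 1 : ℕ) : ℝ) * |rs (fun x : ℕ => ((x : ℝ) + b) ^ (k - 1 - 1)) i.1 -
          rs (fun x : ℕ => ((x : ℝ) + b) ^ (k - 1 - 1)) i.2|)
        ≤ k * (k * (C4 * P ^ (k - 1) + C4 * P ^ (k - 1))) := by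
          refine mul_le_mul_of_nonneg_left ?_ (by linarith)
          refine mul_le_mul hk1 ?_ (abs_nonneg _) (by linarith)
          have h5 : C4 * P ^ (k - 1 - 1) ≤ C4 * P ^ (k - 1) :=
            mul_le_mul_of_nonneg_left hPP hC4.le
          linarith
      _ = 2 * k * k * C4 * P ^ (k - 1) := by ring
      _ ≤ _ := mul_le_mul_of_nonneg_right hCL4 (by positivity)
  have key := avg_nl (ι := List ℕ × List ℕ)
    (S := (mix (nxt k) 1 q P) ×ˢ (mix (nxt k) 1 q P))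
    (G := fun i b => rs (fun x : ℕ => ((x : ℝ) + b) ^ k) i.1 -
          rs (fun x : ℕ => ((x : ℝ) + b) ^ k) i.2)
    (G' := fun i b => (k : ℝ) * (rs (fun x : ℕ => ((x : ℝ) + b) ^ (k - 1)) i.1 -
          rs (fun x : ℕ => ((x : ℝ) + b) ^ (k - 1)) i.2))
    (a := -T) (b := T) (L := L) (B0 := B0) (K := K) (M := T) (I := r * k + c)
    (by linarith) (by linarith) hB01 hB0L hI hK0
    (fun i _ x _ => DimSq_diff k i.1 i.2 x)
    (fun i hi => DimSq_mv (fun x => (DimSq_diff (k - 1) i.1 i.2 x).const_mul (k : ℝ))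
      (hbd2 i hi))
    hbd1
    (by
      intro x hx B hB hBL
      have hB1 : 1 ≤ B := hB01.trans hB
      have hBpos : 0 < B := by linarith
      have hxT : |x| ≤ T := abs_le.2 ⟨hx.1, hx.2⟩
      obtain ⟨M', hM'⟩ : ∃ M' : ℝ, M' = (T + 3) * B := ⟨_, rfl⟩
      have hM'B : B ≤ M' := by
        rw [hM']
        exact le_mul_of_one_le_left hBpos.le (by linarith)
      have hM'0 : 0 ≤ M' := by linarith
      have h1 : cn ((mix (nxt k) 1 q P) ×ˢ (mix (nxt k) 1 q P))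
          (fun i => |rs (fun z : ℕ => ((z : ℝ) + x) ^ k) i.1 -
            rs (fun z : ℕ => ((z : ℝ) + x) ^ k) i.2| ≤ T + 2 * B ^ 2 / L ∧
            |(k : ℝ) * (rs (fun z : ℕ => ((z : ℝ) + x) ^ (k - 1)) i.1 -
              rs (fun z : ℕ => ((z : ℝ) + x) ^ (k - 1)) i.2)| ≤ 3 * B) ≤
          pairs (mix (nxt k) 1 q P) (fun p =>
            |rs (fun z : ℕ => ((z : ℝ) + x) ^ k) p.2 -
              rs (fun z : ℕ => ((z : ℝ) + x) ^ k) p.1| ≤ M' ∧
            |rs (fun z : ℕ => ((z : ℝ) + x) ^ (k - 1)) p.2 -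
              rs (fun z : ℕ => ((z : ℝ) + x) ^ (k - 1)) p.1| ≤ M') := by
        rw [pairs_eq_cn]
        refine cn_mono fun w _ hw => ?_
        obtain ⟨ha, hb⟩ := hw
        have h2 : 2 * B ^ 2 / L ≤ 2 * B := by
          rw [div_le_iff₀ hL0]
          have h21 : B * B ≤ B * L := mul_le_mul_of_nonneg_left hBL hBpos.le
          have h22 : 2 * B ^ 2 = 2 * (B * B) := by ring
          have h23 : 2 * B * L = 2 * (B * L) := by ring
          rw [h22, h23]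
          exact mul_le_mul_of_nonneg_left h21 (by norm_num)
        have hTB : T ≤ T * B := le_mul_of_one_le_right (by linarith only [hT]) hB1
        have hMe : (T + 3) * B = T * B + 3 * B := by ring
        rw [abs_mul, abs_of_nonneg (by linarith only [hkR] : (0 : ℝ) ≤ k)] at hb
        constructor
        · rw [abs_sub_comm, hM', hMe]
          linarith only [ha, h2, hTB, hBpos]
        · rw [abs_sub_comm, hM', hMe]
          have h6 := abs_nonneg (rs (fun z : ℕ => ((z : ℝ) + x) ^ (k - 1)) w.1 -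
              rs (fun z : ℕ => ((z : ℝ) + x) ^ (k - 1)) w.2)
          have h7 := le_mul_of_one_le_left h6 (show (1 : ℝ) ≤ k by linarith only [hkR])
          linarith only [hb, h7, hTB, hT]
      refine h1.trans ?_
      have h5 := pairs_le_of (W := mix (nxt k) 1 q P)
        (R := fun w w' => |rs (fun z : ℕ => ((z : ℝ) + x) ^ k) w' -
              rs (fun z : ℕ => ((z : ℝ) + x) ^ k) w| ≤ M' ∧
            |rs (fun z : ℕ => ((z : ℝ) + x) ^ (k - 1)) w' -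
              rs (fun z : ℕ => ((z : ℝ) + x) ^ (k - 1)) w| ≤ M')
        (B := C1 * m * M' ^ 2 / P ^ (2 * k - 1)) (by
          intro w hw
          have h6 := hAB P hr1 x hxT (rs (fun z : ℕ => ((z : ℝ) + x) ^ k) w)
            (rs (fun z : ℕ => ((z : ℝ) + x) ^ (k - 1)) w) M' hM'0
          rw [← hτd, ← hm, max_eq_left (by linarith)] at h6
          exact h6)
      refine h5.trans (le_of_eq ?_)
      rw [← hm, hKd, hM', hZ]
      ring)
  have hI0 : (((r * k + c : ℕ)) : ℝ) ≤ (k + c) * ((r : ℝ) + 1) := by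
    push_cast
    have : (0 : ℝ) ≤ r := Nat.cast_nonneg r
    have hc0 : (0 : ℝ) ≤ c := Nat.cast_nonneg c
    have h1 := mul_nonneg this hc0
    have h2 : ((k : ℝ) + c) * ((r : ℝ) + 1) = r * k + c + (k + r * c) := by ring
    rw [h2]
    linarith only [h1, hkR]
  have hY0 : 0 ≤ m ^ 2 / P ^ k := by positivity
  have e1 : (T - -T) * K * B0 ^ 2 ≤ (2 * T * C0) * (Z * (m ^ 2 / P ^ k)) := by
    rw [← hKP]
    have h1 : K * B0 ^ 2 ≤ K * (C0 * P ^ (k - 1)) := mul_le_mul_of_nonneg_left hB02 hK0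
    have h2 : (2 * T) * (K * B0 ^ 2) ≤ (2 * T) * (K * (C0 * P ^ (k - 1))) :=
      mul_le_mul_of_nonneg_left h1 (by linarith)
    linarith
  have e2 : 8 * ((r * k + c : ℕ) : ℝ) * K * L * T * (1 + (T - -T)) ≤
      (8 * (k + c) * CL * T * (1 + 2 * T)) * ((r : ℝ) + 1) * (Z * (m ^ 2 / P ^ k)) := by
    rw [← hKP, hLd]
    have h1 : 0 ≤ 8 * K * (CL * P ^ (k - 1)) * T * (1 + 2 * T) := by positivity
    have h2 := mul_le_mul_of_nonneg_right hI0 h1
    calc 8 * ((r * k + c : ℕ) : ℝ) * K * (CL * P ^ (k - 1)) * T * (1 + (T - -T))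
        = ((r * k + c : ℕ) : ℝ) * (8 * K * (CL * P ^ (k - 1)) * T * (1 + 2 * T)) := by ring
      _ ≤ (k + c) * ((r : ℝ) + 1) * (8 * K * (CL * P ^ (k - 1)) * T * (1 + 2 * T)) := h2
      _ = _ := by ring
  have e3 : (2 * T * C0) * (Z * (m ^ 2 / P ^ k)) ≤
      (2 * T * C0) * ((r : ℝ) + 1) * (Z * (m ^ 2 / P ^ k)) := by
    have h1 : 0 ≤ (2 * T * C0) * (Z * (m ^ 2 / P ^ k)) := by positivity
    have h2 : (0 : ℝ) ≤ r := Nat.cast_nonneg r
    have h3 := mul_nonneg h2 h1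
    have h4 : (2 * T * C0) * ((r : ℝ) + 1) * (Z * (m ^ 2 / P ^ k)) =
        (2 * T * C0) * (Z * (m ^ 2 / P ^ k)) + r * ((2 * T * C0) * (Z * (m ^ 2 / P ^ k))) := by
      ring
    rw [h4]
    linarith only [h3]
  rw [← hm]
  calc _ ≤ _ := key
    _ ≤ (2 * T * C0) * ((r : ℝ) + 1) * (Z * (m ^ 2 / P ^ k)) +
        (8 * (k + c) * CL * T * (1 + 2 * T)) * ((r : ℝ) + 1) * (Z * (m ^ 2 / P ^ k)) := by
        linarith
    _ = C3 * ((r : ℝ) + 1) * (m ^ 2 / P ^ k) := by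
        rw [hC3]
        ring
    _ ≤ _ := mul_le_mul_of_nonneg_right hlin hY0

theorem dimSq {k q : ℕ} (hk : 2 ≤ k) (hq : (1 - 1 / (k : ℝ)) ^ q ≤ 1 / 2) {ε : ℝ} (hε : 0 < ε) (hε1 : ε ≤ 1) :
    dimH {b : ℝ | ∃ M : ℝ, ∃ᶠ r : ℕ in atTop,
      (XX r) ^ ε * ((mix (nxt k) 1 q (XX r)).card : ℝ) ^ 2 / (XX r) ^ k <
      pairs (mix (nxt k) 1 q (XX r)) (fun p =>
        |rs (fun x => ((x : ℝ) + b) ^ k) p.1 - rs (fun x => ((x : ℝ) + b) ^ k) p.2| ≤ M)} ≤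
      ENNReal.ofReal (1 - ε / (4 * k)) := by
  have hkR : (2 : ℝ) ≤ k := by exact_mod_cast hk
  obtain ⟨E, hE⟩ : ∃ E : ℕ → Set ℝ, E = fun n : ℕ =>
      {b : ℝ | b ∈ Set.Icc (-((n : ℝ) + 1)) ((n : ℝ) + 1) ∧ ∃ᶠ r : ℕ in atTop,
      (XX r) ^ (2 * (ε / 2)) * (((mix (nxt k) 1 q (XX r)).card : ℝ) ^ 2 / (XX r) ^ k) <
      cn ((mix (nxt k) 1 q (XX r)) ×ˢ (mix (nxt k) 1 q (XX r))) (fun i =>
        |rs (fun x => ((x : ℝ) + b) ^ k) i.1 -
          rs (fun x => ((x : ℝ) + b) ^ k) i.2| ≤ (n : ℝ))} := ⟨_, rfl⟩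
  have h1 : ∀ n : ℕ, dimH (E n) ≤ ENNReal.ofReal (1 - ε / (4 * k)) := by
    intro n
    have hn : (0 : ℝ) ≤ n := Nat.cast_nonneg n
    obtain ⟨C2, hC2, P2, hP2, hpw⟩ := mixS_bound hk ((n : ℝ) + 1) (k - 1) q
    have h2 := dim_of_avg (ι := List ℕ × List ℕ)
      (S := fun r => (mix (nxt k) 1 q (XX r)) ×ˢ (mix (nxt k) 1 q (XX r)))
      (G := fun i b => rs (fun x => ((x : ℝ) + b) ^ k) i.1 -
          rs (fun x => ((x : ℝ) + b) ^ k) i.2)
      (a := -((n : ℝ) + 1)) (b := (n : ℝ) + 1) (M := (n : ℝ)) (δ := ε / 2) (Λ := (k : ℝ))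
      (Y := fun r => ((mix (nxt k) 1 q (XX r)).card : ℝ) ^ 2 / (XX r) ^ k)
      (by linarith) (by linarith) (by linarith)
      (by
        filter_upwards [DimSq_card_ev hk q] with r hr
        have := XX_pos r
        positivity)
      (by
        intro r i _ x _
        exact (DimSq_diff k i.1 i.2 x).continuousAt.continuousWithinAt)
      (by
        filter_upwards [XX_tendsto.eventually_ge_atTop P2,
          XX_tendsto.eventually_ge_atTop (2 * k * C2)] with r hr1 hr2 i hi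
        have hP := DimSq_one_le_XX r
        have hP0 := XX_pos r
        rw [Real.rpow_natCast]
        refine DimSq_mv (fun x => DimSq_diff k i.1 i.2 x) ?_
        intro b hb
        have hbT : |b| ≤ (n : ℝ) + 1 := abs_le.2 ⟨hb.1, hb.2⟩
        have h3 := hpw (XX r) hr1 b hbT i.1 (Finset.mem_product.1 hi).1
        have h4 := hpw (XX r) hr1 b hbT i.2 (Finset.mem_product.1 hi).2
        have h6 := abs_sub (rs (fun x : ℕ => ((x : ℝ) + b) ^ (k - 1)) i.1)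
          (rs (fun x : ℕ => ((x : ℝ) + b) ^ (k - 1)) i.2)
        generalize XX r = P at *
        have h7 : P ^ k = P * P ^ (k - 1) := by
          rw [← pow_succ']
          congr 1
          omega
        rw [abs_mul, abs_of_nonneg (by linarith : (0 : ℝ) ≤ k), h7]
        calc (k : ℝ) * |rs (fun x : ℕ => ((x : ℝ) + b) ^ (k - 1)) i.1 -
              rs (fun x : ℕ => ((x : ℝ) + b) ^ (k - 1)) i.2|
            ≤ k * (C2 * P ^ (k - 1) + C2 * P ^ (k - 1)) :=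
              mul_le_mul_of_nonneg_left (by linarith) (by linarith)
          _ = 2 * k * C2 * P ^ (k - 1) := by ring
          _ ≤ _ := mul_le_mul_of_nonneg_right hr2 (by positivity))
      (by
        exact DimSq_avg_bound hk hq ((n : ℝ) + 1) (by linarith) (by positivity))
    have e1 : 1 - ε / 2 / (2 * (k : ℝ)) = 1 - ε / (4 * k) := by
      have : (k : ℝ) ≠ 0 := by linarith
      field_simp
      ring
    rw [e1] at h2
    rw [hE]
    exact h2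
  have h2 : {b : ℝ | ∃ M : ℝ, ∃ᶠ r : ℕ in atTop,
      (XX r) ^ ε * ((mix (nxt k) 1 q (XX r)).card : ℝ) ^ 2 / (XX r) ^ k <
      pairs (mix (nxt k) 1 q (XX r)) (fun p =>
        |rs (fun x => ((x : ℝ) + b) ^ k) p.1 - rs (fun x => ((x : ℝ) + b) ^ k) p.2| ≤ M)} ⊆
        ⋃ n, E n := by
    rintro b ⟨M, hM⟩
    obtain ⟨n, hn⟩ := exists_nat_ge (max |b| M)
    have hn1 : |b| ≤ n := (le_max_left _ _).trans hn
    have hn2 : M ≤ n := (le_max_right _ _).trans hn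
    have h3 := abs_le.1 hn1
    rw [Set.mem_iUnion]
    refine ⟨n, ?_⟩
    rw [hE]
    refine ⟨⟨by linarith [h3.1], by linarith [h3.2]⟩, ?_⟩
    refine hM.mono fun r hr => ?_
    rw [show 2 * (ε / 2) = ε by ring, ← mul_div_assoc]
    refine hr.trans_le ?_
    rw [pairs_eq_cn]
    exact cn_mono fun w _ hw => hw.trans hn2
  refine (dimH_mono h2).trans ?_
  rw [dimH_iUnion]
  exact iSup_le h1

end FWar
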