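import Pool.Agent.FWar.Defs
import Pool.Agent.MWar.Dim

/-!
# FWar.DioD: dimension of the set of well approximable reals

PROOF. `dimH` of a countable union is the supremum (`dimH_iUnion`), the rationals have dimension `0`
(`dimH_countable`), so consider the irrational `x ∈ [-T, T]` which are not `Dioph`, `T ≥ 1` a natural
number. For such `x`, for every `c > 0` there are `m ≥ 1`, `n` with `|x - n/m| < c/m³`; since `x` is
irrational, there are infinitely many `m` for which some `n` has `|x - n/m| < 1/m³` (for the finitely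
many pairs with bounded `m` the number `m³ |x - n/m|` is bounded below by a positive constant). So `x`
is in `E_m` for infinitely many `m`, where `E_m` is the union of the intervals
`[n/m - 1/m³, n/m + 1/m³]`, `|n| ≤ (T+1) m`: at most `(2T+3) m` intervals of length `l_m = 2/m³`.
`Pool.Agent.MWar.dimH_limsup_le` with `d = 3/4`: `∑_m (2T+3) m (2/m³)^(3/4) ≤ C ∑ m^(-5/4) < ∞`.
(Use `m + 1` as the index to avoid `m = 0`.)
`dim_dioph_affine`: `t ↦ (b+t)/c` is an affine bijection of the line; `dimH` is invariant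
(for example the set is the image of `{x | ¬ Dioph x}` under the Lipschitz map `x ↦ c x - b`,
`LipschitzWith.dimH_image_le`).
-/

namespace FWar

open MeasureTheory Filter Topology

theorem diod_one {x : ℝ} (hx : Irrational x) (m : ℕ) (hm : 1 ≤ m) :
    ∃ c : ℝ, 0 < c ∧ ∀ n : ℤ, c / (m : ℝ) ^ 3 ≤ |x - (n : ℝ) / (m : ℝ)| := by
  have hm0 : (0 : ℝ) < m := by exact_mod_cast hm
  refine ⟨(m : ℝ) ^ 2 * |(m : ℝ) * x - round ((m : ℝ) * x)|, ?_, fun n => ?_⟩
  · refine mul_pos (by positivity) (abs_pos.mpr ?_)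
    have hirr : Irrational ((m : ℝ) * x) := by
      have := hx.natCast_mul (m := m) (by omega)
      exact this
    exact sub_ne_zero.mpr (fun h => hirr.ne_int _ h)
  · have h1 : |(m : ℝ) * x - round ((m : ℝ) * x)| ≤ |(m : ℝ) * x - n| := round_le _ n
    have h2 : |x - (n : ℝ) / (m : ℝ)| = |(m : ℝ) * x - n| / m := by
      rw [← abs_of_pos hm0, ← abs_div, abs_of_pos hm0]
      congr 1
      field_simp
    rw [h2, div_le_div_iff₀ (by positivity) hm0]
    have : (m : ℝ) ^ 2 * |(m : ℝ) * x - round ((m : ℝ) * x)| * m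
        = |(m : ℝ) * x - round ((m : ℝ) * x)| * (m : ℝ) ^ 3 := by ring
    rw [this]
    exact mul_le_mul_of_nonneg_right h1 (by positivity)

/-- Constants for all `m ≤ J`. -/
theorem diod_small {x : ℝ} (hx : Irrational x) (J : ℕ) :
    ∃ c : ℝ, 0 < c ∧ ∀ m : ℕ, 1 ≤ m → m ≤ J → ∀ n : ℤ,
      c / (m : ℝ) ^ 3 ≤ |x - (n : ℝ) / (m : ℝ)| := by
  induction J with
  | zero => exact ⟨1, one_pos, fun m h1 h2 => by omega⟩
  | succ J ih =>
    obtain ⟨c, hc, h⟩ := ih
    obtain ⟨c', hc', h'⟩ := diod_one hx (J + 1) (by omega)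
    refine ⟨min c c', lt_min hc hc', fun m h1 h2 n => ?_⟩
    have hm0 : (0 : ℝ) < m := by exact_mod_cast h1
    rcases Nat.lt_or_ge J m with hlt | hle
    · obtain rfl : m = J + 1 := by omega
      exact le_trans (div_le_div_of_nonneg_right (min_le_right _ _) (by positivity)) (h' n)
    · exact le_trans (div_le_div_of_nonneg_right (min_le_left _ _) (by positivity)) (h m h1 hle n)

/-- index set -/
def dT (t j : ℕ) : Finset ℕ := Finset.range (2 * (t + 1) * (j + 1) + 1)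

/-- left end points -/
noncomputable def da (t j i : ℕ) : ℝ :=
  ((i : ℝ) - ((t : ℝ) + 1) * ((j : ℝ) + 1)) / ((j : ℝ) + 1) - 1 / ((j : ℝ) + 1) ^ 3

/-- lengths -/
noncomputable def dl (j : ℕ) : ℝ := 2 / ((j : ℝ) + 1) ^ 3

theorem diod_sub {x : ℝ} (hx : Irrational x) (t : ℕ) (ht : |x| ≤ t)
    (hd : ¬ Dioph x) :
    ∃ᶠ j in atTop, x ∈ ⋃ i ∈ dT t j, Set.Icc (da t j i) (da t j i + dl j) := by
  by_contra hcon
  rw [not_frequently, eventually_atTop] at hcon
  obtain ⟨J, hJ⟩ := hcon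
  apply hd
  obtain ⟨c, hc, h⟩ := diod_small hx J
  refine ⟨min c 1, lt_min hc one_pos, fun m hm n => ?_⟩
  have hm0 : (0 : ℝ) < m := by exact_mod_cast hm
  rcases Nat.lt_or_ge J m with hlt | hle
  · refine le_trans (div_le_div_of_nonneg_right (min_le_right _ _) (by positivity)) ?_
    by_contra hlt'
    push Not at hlt'
    obtain ⟨j, rfl⟩ : ∃ j, m = j + 1 := ⟨m - 1, by omega⟩
    have hj : J ≤ j := by omega
    apply hJ j hj
    have hj1 : (1 : ℝ) ≤ ((j + 1 : ℕ) : ℝ) := by exact_mod_cast Nat.succ_le_succ (Nat.zero_le j)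
    have hle1 : 1 / ((j + 1 : ℕ) : ℝ) ^ 3 ≤ 1 := by
      rw [div_le_one (by positivity)]
      exact one_le_pow₀ hj1
    have hn1 : |(n : ℝ) / ((j + 1 : ℕ) : ℝ)| ≤ t + 1 := by
      have h1 : |(n : ℝ) / ((j + 1 : ℕ) : ℝ)| ≤ |x| + |x - (n : ℝ) / ((j + 1 : ℕ) : ℝ)| := by
        have := abs_sub_abs_le_abs_sub ((n : ℝ) / ((j + 1 : ℕ) : ℝ)) x
        rw [abs_sub_comm] at this
        linarith
      linarith
    have hn2 : |(n : ℝ)| ≤ (t + 1) * ((j + 1 : ℕ) : ℝ) := by
      rw [abs_div, abs_of_pos hm0, div_le_iff₀ hm0] at hn1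
      exact hn1
    have hn3 : |n| ≤ ((t + 1) * (j + 1) : ℕ) := by
      have : ((|n| : ℤ) : ℝ) ≤ (((t + 1) * (j + 1) : ℕ) : ℝ) := by
        push_cast
        push_cast at hn2
        exact hn2
      exact_mod_cast this
    obtain ⟨hn4, hn5⟩ := abs_le.mp hn3
    obtain ⟨i, hi⟩ : ∃ i : ℕ, (i : ℤ) = n + ((t + 1) * (j + 1) : ℕ) :=
      ⟨(n + ((t + 1) * (j + 1) : ℕ)).toNat, Int.toNat_of_nonneg (by linarith)⟩
    have hiT : i ∈ dT t j := by
      rw [dT, Finset.mem_range]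
      have : (i : ℤ) < ((2 * (t + 1) * (j + 1) + 1 : ℕ) : ℤ) := by
        rw [hi]
        push_cast
        push_cast at hn5
        linarith
      exact_mod_cast this
    have hir : (i : ℝ) = n + (t + 1) * (j + 1) := by
      have : ((i : ℤ) : ℝ) = ((n + ((t + 1) * (j + 1) : ℕ) : ℤ) : ℝ) := by rw [hi]
      push_cast at this
      exact this
    simp only [Set.mem_iUnion]
    refine ⟨i, hiT, ?_⟩
    have hj0 : (0 : ℝ) < (j : ℝ) + 1 := by positivity
    have hda : da t j i = (n : ℝ) / ((j : ℝ) + 1) - 1 / ((j : ℝ) + 1) ^ 3 := by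
      rw [da, hir]
      congr 2
      ring
    have hcast : ((j + 1 : ℕ) : ℝ) = (j : ℝ) + 1 := by push_cast; ring
    rw [hcast] at hlt'
    obtain ⟨h1, h2⟩ := abs_lt.mp hlt'
    rw [Set.mem_Icc, hda, dl]
    constructor
    · linarith
    · have : (2 : ℝ) / ((j : ℝ) + 1) ^ 3 = 1 / ((j : ℝ) + 1) ^ 3 + 1 / ((j : ℝ) + 1) ^ 3 := by
        ring
      rw [this]
      linarith
  · exact le_trans (div_le_div_of_nonneg_right (min_le_left _ _) (by positivity)) (h m hm hle n)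

theorem diod_sum (t : ℕ) :
    ∑' j, ((dT t j).card : ENNReal) * ENNReal.ofReal (dl j) ^ ((Real.toNNReal (3 / 4) : NNReal) : ℝ)
      ≠ ⊤ := by
  have hs : Summable (fun j : ℕ =>
      (2 * ((t : ℝ) + 1) + 1) * 2 * (1 / (((j + 1 : ℕ) : ℝ)) ^ (5 / 4 : ℝ))) := by
    apply Summable.mul_left
    exact (summable_nat_add_iff 1).mpr (Real.summable_one_div_nat_rpow.mpr (by norm_num))
  refine ne_top_of_le_ne_top hs.tsum_ofReal_ne_top (ENNReal.tsum_le_tsum fun j => ?_)
  have hd : ((Real.toNNReal (3 / 4) : NNReal) : ℝ) = 3 / 4 := Real.coe_toNNReal _ (by norm_num)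
  rw [hd]
  have hj0 : (0 : ℝ) < (j : ℝ) + 1 := by positivity
  have hj1 : (1 : ℝ) ≤ (j : ℝ) + 1 := by linarith [(Nat.cast_nonneg j : (0 : ℝ) ≤ j)]
  have hl0 : 0 ≤ dl j := by rw [dl]; positivity
  rw [ENNReal.ofReal_rpow_of_nonneg hl0 (by norm_num), ← ENNReal.ofReal_natCast,
    ← ENNReal.ofReal_mul (Nat.cast_nonneg _)]
  apply ENNReal.ofReal_le_ofReal
  have h1 : ((dT t j).card : ℝ) ≤ (2 * ((t : ℝ) + 1) + 1) * ((j : ℝ) + 1) := by
    rw [dT, Finset.card_range]
    push_cast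
    nlinarith
  have h2 : dl j ^ (3 / 4 : ℝ) ≤ 2 * ((j : ℝ) + 1) ^ (-(9 / 4) : ℝ) := by
    rw [dl, Real.div_rpow (by norm_num) (by positivity), ← Real.rpow_natCast,
      ← Real.rpow_mul hj0.le, Real.rpow_neg hj0.le, ← div_eq_mul_inv]
    have e1 : (((3 : ℕ) : ℝ) * (3 / 4)) = 9 / 4 := by norm_num
    rw [e1]
    apply div_le_div_of_nonneg_right _ (by positivity)
    calc (2 : ℝ) ^ (3 / 4 : ℝ) ≤ 2 ^ (1 : ℝ) :=
          Real.rpow_le_rpow_of_exponent_le (by norm_num) (by norm_num)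
      _ = 2 := Real.rpow_one 2
  calc ((dT t j).card : ℝ) * dl j ^ (3 / 4 : ℝ)
      ≤ ((2 * ((t : ℝ) + 1) + 1) * ((j : ℝ) + 1)) * (2 * ((j : ℝ) + 1) ^ (-(9 / 4) : ℝ)) := by
        apply mul_le_mul h1 h2 (Real.rpow_nonneg hl0 _) (by positivity)
    _ = (2 * ((t : ℝ) + 1) + 1) * 2 * (((j : ℝ) + 1) ^ (1 : ℝ) * ((j : ℝ) + 1) ^ (-(9 / 4) : ℝ)) := by
        rw [Real.rpow_one]; ring
    _ = (2 * ((t : ℝ) + 1) + 1) * 2 * (1 / (((j + 1 : ℕ) : ℝ)) ^ (5 / 4 : ℝ)) := by
        rw [← Real.rpow_add hj0, one_div, ← Real.rpow_neg (by positivity)]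
        push_cast
        norm_num

theorem dim_dioph : dimH {x : ℝ | ¬ Dioph x} ≤ ENNReal.ofReal (3 / 4) := by
  have hsub : {x : ℝ | ¬ Dioph x} ⊆ Set.range ((↑) : ℚ → ℝ) ∪
      ⋃ t : ℕ, {x | ∃ᶠ j in atTop, x ∈ ⋃ i ∈ dT t j, Set.Icc (da t j i) (da t j i + dl j)} := by
    intro x hx
    by_cases hr : x ∈ Set.range ((↑) : ℚ → ℝ)
    · exact Or.inl hr
    · right
      obtain ⟨t, ht⟩ := exists_nat_ge |x|
      exact Set.mem_iUnion.mpr ⟨t, diod_sub hr t ht hx⟩
  refine le_trans (dimH_mono hsub) ?_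
  rw [dimH_union, dimH_iUnion]
  refine max_le ?_ (iSup_le fun t => ?_)
  · rw [dimH_countable (Set.countable_range _)]
    exact zero_le
  · refine Pool.Agent.MWar.dimH_limsup_le (T := dT t) (a := da t) (l := dl) (j0 := 0) ?_ ?_
      (fun j _ => subset_rfl) (d := Real.toNNReal (3 / 4)) ?_ (diod_sum t)
    · intro i j hij
      rw [dl, dl]
      apply div_le_div_of_nonneg_left (by norm_num) (by positivity)
      have : (i : ℝ) ≤ j := by exact_mod_cast hij
      gcongr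
    · have h1 : Tendsto (fun j : ℕ => (2 : ℝ) / (((j + 1 : ℕ) : ℝ)) ^ 3) atTop (𝓝 0) := by
        refine (tendsto_add_atTop_iff_nat (f := fun j : ℕ => (2 : ℝ) / ((j : ℝ)) ^ 3) 1).mpr ?_
        exact tendsto_const_nhds.div_atTop
          ((tendsto_pow_atTop (by norm_num)).comp tendsto_natCast_atTop_atTop)
      refine h1.congr fun j => ?_
      rw [dl]
      push_cast
      rfl
    · rw [Real.toNNReal_pos]
      norm_num

theorem dim_dioph_affine {b c : ℝ} (hc : c ≠ 0) :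
    dimH {t : ℝ | ¬ Dioph ((b + t) / c)} ≤ ENNReal.ofReal (3 / 4) := by
  have himg : {t : ℝ | ¬ Dioph ((b + t) / c)} = (fun x : ℝ => c * x - b) '' {x : ℝ | ¬ Dioph x} := by
    ext t
    constructor
    · intro ht
      exact ⟨(b + t) / c, ht, by field_simp; ring⟩
    · rintro ⟨x, hx, rfl⟩
      have : (b + (c * x - b)) / c = x := by field_simp; ring
      simp only [Set.mem_ofPred_eq]
      rw [this]
      exact hx
  rw [himg]
  have hlip : LipschitzWith ‖c‖₊ (fun x : ℝ => c * x - b) := by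
    refine LipschitzWith.of_dist_le_mul fun x y => ?_
    rw [Real.dist_eq, Real.dist_eq]
    have : c * x - b - (c * y - b) = c * (x - y) := by ring
    rw [this, abs_mul]
    exact le_rfl
  exact le_trans (hlip.dimH_image_le _) dim_dioph

end FWar
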