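import Pool.Agent.FWar.Defs

/-!
# FWar.Dioph: almost every real is not well approximable

PROOF. Mathlib: `ae_not_liouvilleWith : ∀ᵐ x, ∀ p > 2, ¬ LiouvilleWith p x` (file
`Mathlib/NumberTheory/Transcendental/Liouville/Measure.lean`), and almost every `x` is irrational
(the rationals are countable). Let `x` be irrational and not `LiouvilleWith 3`. Then (constant `1`) for
all large `m` and all integers `n`: `x = n/m` (impossible) or `|x - n/m| ≥ 1/m³`. For each of the
finitely many other `m ≥ 1`, `inf_n |x - n/m| = dist(m x, ℤ)/m > 0`. Take `c` = the minimum of `1` and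
of the numbers `m³ dist(m x, ℤ)/m`.
-/

namespace FWar

open MeasureTheory

theorem dioph_one {x : ℝ} (hx : Irrational x) (m : ℕ) (hm : 1 ≤ m) :
    ∃ c : ℝ, 0 < c ∧ ∀ n : ℤ, c / (m : ℝ) ^ 3 ≤ |x - (n : ℝ) / (m : ℝ)| := by
  have hm0 : (0 : ℝ) < m := by exact_mod_cast hm
  refine ⟨(m : ℝ) ^ 2 * |(m : ℝ) * x - round ((m : ℝ) * x)|, ?_, fun n => ?_⟩
  · refine mul_pos (by positivity) (abs_pos.mpr ?_)
    have hirr : Irrational ((m : ℝ) * x) := by
      have := hx.natCast_mul (m := m) (by omega)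
      exact this
    exact sub_ne_zero.mpr (fun h => hirr.ne_int _ h)
  · have h1 : |(m : ℝ) * x - round ((m : ℝ) * x)| ≤ |(m : ℝ) * x - n| := round_le _ n
    have h2 : |x - (n : ℝ) / (m : ℝ)| = |(m : ℝ) * x - n| / m := by
      rw [← abs_of_pos hm0, ← abs_div, abs_of_pos hm0]
      congr 1
      field_simp
    rw [h2, div_le_div_iff₀ (by positivity) hm0]
    calc (m : ℝ) ^ 2 * |(m : ℝ) * x - round ((m : ℝ) * x)| * m
        = |(m : ℝ) * x - round ((m : ℝ) * x)| * (m : ℝ) ^ 3 := by ring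
      _ ≤ |(m : ℝ) * x - n| * (m : ℝ) ^ 3 := by gcongr

theorem dioph_fin {x : ℝ} (hx : Irrational x) (N : ℕ) :
    ∃ c : ℝ, 0 < c ∧ c ≤ 1 ∧ ∀ m : ℕ, m < N → 1 ≤ m → ∀ n : ℤ,
      c / (m : ℝ) ^ 3 ≤ |x - (n : ℝ) / (m : ℝ)| := by
  induction N with
  | zero => exact ⟨1, one_pos, le_rfl, fun m hm => absurd hm (by omega)⟩
  | succ N ih =>
    obtain ⟨c, hc, hc1, h⟩ := ih
    rcases Nat.eq_zero_or_pos N with h0 | h0
    · exact ⟨c, hc, hc1, fun m hm h1 => absurd hm (by omega)⟩
    · obtain ⟨d, hd, h'⟩ := dioph_one hx N h0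
      refine ⟨min c d, lt_min hc hd, (min_le_left _ _).trans hc1, fun m hm h1 n => ?_⟩
      rcases Nat.lt_succ_iff_lt_or_eq.mp hm with h2 | h2
      · refine le_trans ?_ (h m h2 h1 n)
        have : min c d ≤ c := min_le_left _ _
        gcongr
      · subst h2
        refine le_trans ?_ (h' n)
        have : min c d ≤ d := min_le_right _ _
        gcongr

theorem ae_dioph : ∀ᵐ x : ℝ, Dioph x := by
  have hirr : ∀ᵐ x : ℝ, Irrational x := by
    have hc : (Set.range ((↑) : ℚ → ℝ)).Countable := Set.countable_range _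
    have := hc.ae_notMem (volume : Measure ℝ)
    filter_upwards [this] with x hx using hx
  filter_upwards [hirr, ae_not_liouvilleWith] with x hx hL
  have h3 := hL 3 (by norm_num)
  unfold LiouvilleWith at h3
  push Not at h3
  have h4 := h3 1
  rw [Filter.eventually_atTop] at h4
  obtain ⟨N, hN⟩ := h4
  obtain ⟨c, hc, hc1, h⟩ := dioph_fin hx N
  refine ⟨c, hc, fun m hm n => ?_⟩
  rcases lt_or_ge m N with h5 | h5
  · exact h m h5 hm n
  · have hne : x ≠ (n : ℝ) / (m : ℝ) := by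
      intro he
      apply hx
      exact ⟨(n : ℚ) / (m : ℚ), by rw [he]; push_cast; rfl⟩
    have h6 := hN m h5 n hne
    have h7 : (m : ℝ) ^ (3 : ℝ) = (m : ℝ) ^ (3 : ℕ) := by
      rw [← Real.rpow_natCast]; norm_num
    rw [h7] at h6
    refine le_trans ?_ h6
    gcongr

/-- The same for a shifted and dilated variable. -/
theorem ae_dioph_affine {b c : ℝ} (hc : c ≠ 0) : ∀ᵐ t : ℝ, Dioph ((b + t) / c) := by
  have h := ae_dioph
  rw [ae_iff] at h ⊢
  have h1 : {t : ℝ | ¬ Dioph ((b + t) / c)} =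
      (fun t => b + t) ⁻¹' ((fun t => t * c⁻¹) ⁻¹' {x : ℝ | ¬ Dioph x}) := by
    ext t
    simp [div_eq_mul_inv]
  rw [h1, measure_preimage_add, Real.volume_preimage_mul_right (inv_ne_zero hc), h, mul_zero]

end FWar
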