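import Mathlib

/-!
# FWar.NumE: numerical inequalities for the number of letters

PROOF of `num_e`. `s = 0`: `n = 2q+1`, `κ < q + 1`, so `1 - 1/κ < q/(q+1)` and
`2κ (1-1/κ)^q < 2κ (q/(q+1))^q ≤ κ` because `(1 + 1/q)^q ≥ 2` (Bernoulli).
`s = 1`: `n = 2q+2`, `κ < q + 3/2`, so `1 - 1/κ < (2q+1)/(2q+3)` and
`(2κ-1)/κ = 2 - 1/κ = 1 + (1 - 1/κ) < 1 + (2q+1)/(2q+3) = (4q+4)/(2q+3)`, and
`((2q+3)/(2q+1))^q ≥ 1 + 2q/(2q+1) = (4q+1)/(2q+1) ≥ (4q+4)/(2q+3)` for `q ≥ 1` (the last: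
`(4q+1)(2q+3) = 8q²+14q+3 ≥ 8q²+12q+4 = (4q+4)(2q+1)`).
-/

namespace FWar

/-- If `0 ≤ x < r`, `0 < r` and `1/r ≥ 1 + d` with `(1 + q d) ≥ c`, then `x^q c < 1`. -/
theorem num_e_aux {q : ℕ} (hq : 1 ≤ q) {x r d c : ℝ} (hx0 : 0 ≤ x) (hxr : x < r)
    (hd : 0 ≤ d) (hrd : r * (1 + d) = 1) (hc0 : 0 < c) (hc : c ≤ 1 + q * d) :
    x ^ q * c < 1 := by
  have hr : 0 < r := lt_of_le_of_lt hx0 hxr
  have h1 : x ^ q < r ^ q := pow_lt_pow_left₀ hxr hx0 (by omega)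
  have hb : 1 + (q : ℝ) * d ≤ (1 + d) ^ q := one_add_mul_le_pow (by linarith) q
  calc x ^ q * c < r ^ q * c := mul_lt_mul_of_pos_right h1 hc0
    _ ≤ r ^ q * (1 + d) ^ q := by
        apply mul_le_mul_of_nonneg_left (hc.trans hb) (by positivity)
    _ = 1 := by rw [← mul_pow, hrd, one_pow]

theorem num_e {q s : ℕ} (hq : 1 ≤ q) (hs : s ≤ 1) {κ : ℝ} (h1 : (2 * q + s + 1 : ℝ) / 2 ≤ κ)
    (h2 : κ < (2 * q + s + 2 : ℝ) / 2) : (1 - 1 / κ) ^ q * (2 * κ - s) < κ := by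
  have hq1 : (1 : ℝ) ≤ q := by exact_mod_cast hq
  have hs0 : (0 : ℝ) ≤ s := Nat.cast_nonneg s
  have hκ1 : 1 < κ := by linarith
  have hκ0 : 0 < κ := by linarith
  have hx0 : 0 ≤ 1 - 1 / κ := by
    have : 1 / κ ≤ 1 := by rw [div_le_one hκ0]; linarith
    linarith
  interval_cases s
  · simp only [Nat.cast_zero, add_zero, sub_zero] at h1 h2 ⊢
    have hκ2 : κ < q + 1 := by linarith
    have hxr : 1 - 1 / κ < (q : ℝ) / (q + 1) := by
      have e : (q : ℝ) / (q + 1) = 1 - 1 / (q + 1) := by field_simp; ring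
      rw [e]
      have := one_div_lt_one_div_of_lt hκ0 hκ2
      linarith
    have := num_e_aux (q := q) (x := 1 - 1 / κ) (r := (q : ℝ) / (q + 1)) (d := 1 / q) (c := 2) hq
      hx0 hxr (by positivity) (by field_simp) (by norm_num)
      (by
        have : (q : ℝ) * (1 / q) = 1 := by field_simp
        rw [this]; norm_num)
    calc (1 - 1 / κ) ^ q * (2 * κ) = ((1 - 1 / κ) ^ q * 2) * κ := by ring
      _ < 1 * κ := mul_lt_mul_of_pos_right this hκ0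
      _ = κ := one_mul κ
  · simp only [Nat.cast_one] at h1 h2 ⊢
    have hκ2 : κ < (2 * q + 3) / 2 := by linarith
    have hxr : 1 - 1 / κ < (2 * q + 1 : ℝ) / (2 * q + 3) := by
      have e : (2 * q + 1 : ℝ) / (2 * q + 3) = 1 - 1 / ((2 * q + 3) / 2) := by field_simp; ring
      rw [e]
      have := one_div_lt_one_div_of_lt hκ0 hκ2
      linarith
    have hc0 : 0 < 1 + (1 - 1 / κ) := by linarith
    have h3 : (1 : ℝ) + (2 * q + 1) / (2 * q + 3) ≤ 1 + q * (2 / (2 * q + 1)) := by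
      have e1 : (1 : ℝ) + (2 * q + 1) / (2 * q + 3) = (4 * q + 4) / (2 * q + 3) := by
        field_simp; ring
      have e2 : (1 : ℝ) + q * (2 / (2 * q + 1)) = (4 * q + 1) / (2 * q + 1) := by
        field_simp; ring
      rw [e1, e2, div_le_div_iff₀ (by positivity) (by positivity)]
      nlinarith
    have := num_e_aux (q := q) (x := 1 - 1 / κ) (r := (2 * q + 1 : ℝ) / (2 * q + 3))
      (d := 2 / (2 * q + 1)) (c := 1 + (1 - 1 / κ)) hq
      hx0 hxr (by positivity) (by field_simp; ring) hc0 (by linarith)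
    calc (1 - 1 / κ) ^ q * (2 * κ - 1) = ((1 - 1 / κ) ^ q * (1 + (1 - 1 / κ))) * κ := by
          field_simp; ring
      _ < 1 * κ := mul_lt_mul_of_pos_right this hκ0
      _ = κ := one_mul κ

end FWar
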