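import Pool.Agent.FWar.LocE
import Pool.Agent.FWar.NumE

/-!
# FWar.FinE: integer parts of real powers

PROOF of `floor_exp_gen`. The set of the bad `κ` (those for which the hypothesis on `κ, q, s` holds
but the conclusion fails for some `α`) is locally null by `local_E`
(`MeasureTheory.measure_null_of_locally_null`).

PROOF of `floor_exp`: `n = ⌊2κ⌋₊ ≥ 3`, `n = 2q + s + 1` with `s ≤ 1`, `q ≥ 1` (`q = (n-1)/2`,
`s = (n-1) % 2`); `num_e` and `floor_exp_gen`. Number of terms `2 (2q+s+1) = 2n`.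
-/

namespace FWar

open MWg Finset MeasureTheory Filter Topology

theorem floor_exp_gen (q s : ℕ) (hs : s ≤ 1) :
    ∀ᵐ κ : ℝ, 3 / 2 ≤ κ → (1 - 1 / κ) ^ (q + 1) * (2 * κ - s) < κ →
      ExpProp κ (2 * (2 * (q + 1) + s + 1)) := by
  rw [ae_iff]
  refine measure_null_of_locally_null _ fun κs hκs => ?_
  simp only [Set.mem_ofPred_eq, Classical.not_imp] at hκs
  obtain ⟨h1, h2, -⟩ := hκs
  obtain ⟨κ1, κ2, h3, h4, h5⟩ := local_E (q := q) hs h1 h2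
  refine ⟨{κ : ℝ | ¬ (3 / 2 ≤ κ → (1 - 1 / κ) ^ (q + 1) * (2 * κ - s) < κ →
      ExpProp κ (2 * (2 * (q + 1) + s + 1)))} ∩ Set.Icc κ1 κ2,
    inter_mem_nhdsWithin _ (Icc_mem_nhds h3 h4), ?_⟩
  rw [ae_iff] at h5
  refine measure_mono_null (fun κ hκ => ?_) h5
  obtain ⟨hκ1, hκ2⟩ := hκ
  simp only [Set.mem_ofPred_eq, Classical.not_imp] at hκ1 ⊢
  exact ⟨hκ2, hκ1.1, hκ1.2.2⟩

theorem floor_exp : ∀ᵐ κ : ℝ, 3 / 2 ≤ κ → ExpProp κ (2 * ⌊2 * κ⌋₊) := by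
  have h0 := fun q : ℕ => floor_exp_gen q 0 (by norm_num)
  have h1 := fun q : ℕ => floor_exp_gen q 1 le_rfl
  rw [← ae_all_iff] at h0 h1
  filter_upwards [h0, h1] with κ h0 h1 hκ
  have hκ0 : (0 : ℝ) ≤ 2 * κ := by linarith
  have hn3 : 3 ≤ ⌊2 * κ⌋₊ := Nat.le_floor (by push_cast; linarith)
  have hf1 : ((⌊2 * κ⌋₊ : ℕ) : ℝ) ≤ 2 * κ := Nat.floor_le hκ0
  have hf2 : 2 * κ < (⌊2 * κ⌋₊ : ℕ) + 1 := Nat.lt_floor_add_one _
  set n := ⌊2 * κ⌋₊ with hn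
  obtain ⟨q, hq | hq⟩ : ∃ q : ℕ, n = 2 * (q + 1) + 0 + 1 ∨ n = 2 * (q + 1) + 1 + 1 :=
    ⟨(n - 1) / 2 - 1, by omega⟩
  · rw [hq]
    refine h0 q hκ ?_
    have h2 : (n : ℝ) = 2 * (q + 1) + 0 + 1 := by rw [hq]; push_cast; ring
    refine num_e (q := q + 1) (s := 0) (by omega) (by norm_num) ?_ ?_
    · push_cast; rw [h2] at hf1; linarith
    · push_cast; rw [h2] at hf2; linarith
  · rw [hq]
    refine h1 q hκ ?_
    have h2 : (n : ℝ) = 2 * (q + 1) + 1 + 1 := by rw [hq]; push_cast; ring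
    refine num_e (q := q + 1) (s := 1) (by omega) le_rfl ?_ ?_
    · push_cast; rw [h2] at hf1; linarith
    · push_cast; rw [h2] at hf2; linarith

end FWar
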