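import Mathlib

/-!
# FWar.NumE1: numerical inequalities for the number of letters

PROOF of `num_e1`. `s = 0`: `κ ≤ q + 3/4`, so `1 - 1/κ ≤ (q-1/4)/(q+3/4)`, and
`((q+3/4)/(q-1/4))^q = (1 + 1/(q-1/4))^q ≥ 1 + q/(q-1/4) > 2` (Bernoulli), so
`2κ (1-1/κ)^q < κ`.
`s = 1`: `κ ≤ q + 5/4`, so `1 - 1/κ ≤ (q+1/4)/(q+5/4)`,
`(2κ-1)/κ = 1 + (1 - 1/κ) ≤ (2q+3/2)/(q+5/4)`, and
`((q+5/4)/(q+1/4))^q ≥ 1 + q/(q+1/4) = (2q+1/4)/(q+1/4) > (2q+3/2)/(q+5/4)` for `q ≥ 1` (the last: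
`(2q+1/4)(q+5/4) - (2q+3/2)(q+1/4) = (3/4) q - 1/16 > 0`).

PROOF of `num_log`: `0 ≤ 1 - 1/κ < exp (-1/κ)`, so
`(1-1/κ)^(q+1) < exp (-(q+1)/κ) ≤ exp (-log 2) = 1/2`.
-/

namespace FWar

private theorem bern {A : ℝ} (hA : 0 < A) (q : ℕ) :
    (A / (A + 1)) ^ q * (1 + q * (1 / A)) ≤ 1 := by
  have h1 : (1 : ℝ) + q * (1 / A) ≤ (1 + 1 / A) ^ q := by
    have h0 : 0 ≤ 1 / A := by positivity
    exact one_add_mul_le_pow (by linarith) q
  have h2 : (A / (A + 1)) * (1 + 1 / A) = 1 := by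
    have h3 : A + 1 ≠ 0 := by positivity
    field_simp
  have h3 : (A / (A + 1)) ^ q * (1 + 1 / A) ^ q = 1 := by
    rw [← mul_pow, h2, one_pow]
  have h4 : 0 ≤ (A / (A + 1)) ^ q := by positivity
  have h5 := mul_le_mul_of_nonneg_left h1 h4
  linarith

theorem num_e1 {q s : ℕ} (hq : 1 ≤ q) (hs : s ≤ 1) {κ : ℝ}
    (h1 : (2 * q + s : ℝ) / 2 + 1 / 4 ≤ κ) (h2 : κ ≤ (2 * q + s : ℝ) / 2 + 3 / 4) :
    (1 - 1 / κ) ^ q * (2 * κ - s) < κ := by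
  have hqR : (1 : ℝ) ≤ q := by exact_mod_cast hq
  have hs2 : s = 0 ∨ s = 1 := by omega
  rcases hs2 with rfl | rfl
  · norm_num at h1 h2 ⊢
    have hκ : 1 < κ := by linarith
    have hκ0 : 0 < κ := by linarith
    have hA : (0 : ℝ) < q - 1 / 4 := by linarith
    have hr0 : 0 ≤ 1 - κ⁻¹ := by
      have : κ⁻¹ ≤ 1 := inv_le_one_of_one_le₀ hκ.le
      linarith
    have hr1 : 1 - κ⁻¹ ≤ (q - 1 / 4) / ((q - 1 / 4) + 1 : ℝ) := by
      have h3 : (q - 1 / 4) / ((q - 1 / 4) + 1 : ℝ) = 1 - ((q : ℝ) + 3 / 4)⁻¹ := by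
        have h4 : (q : ℝ) - 1 / 4 + 1 = q + 3 / 4 := by ring
        have h5 : (q : ℝ) + 3 / 4 ≠ 0 := by linarith
        rw [h4, eq_sub_iff_add_eq, ← one_div, ← add_div, div_eq_one_iff_eq h5]
        ring
      rw [h3]
      have h4 : ((q : ℝ) + 3 / 4)⁻¹ ≤ κ⁻¹ := inv_anti₀ hκ0 (by linarith)
      linarith
    have h3 := bern hA q
    have h4 : (1 - κ⁻¹) ^ q ≤ ((q - 1 / 4) / ((q - 1 / 4) + 1 : ℝ)) ^ q :=
      pow_le_pow_left₀ hr0 hr1 q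
    have h5 : (2 : ℝ) < 1 + q * (1 / (q - 1 / 4)) := by
      have : (1 : ℝ) < q * (1 / (q - 1 / 4)) := by
        rw [mul_one_div, lt_div_iff₀ hA]
        linarith
      linarith
    have h6 : 0 ≤ (1 - κ⁻¹) ^ q := by positivity
    have h7 : (1 - κ⁻¹) ^ q * (1 + q * (1 / (q - 1 / 4))) ≤ 1 := by
      have h8 : (0 : ℝ) ≤ 1 + q * (1 / (q - 1 / 4)) := by linarith
      exact (mul_le_mul_of_nonneg_right h4 h8).trans h3
    have h9 : (1 - κ⁻¹) ^ q * 2 < 1 := by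
      rcases h6.eq_or_lt with h | h
      · rw [← h]
        norm_num
      · nlinarith
    nlinarith
  · norm_num at h1 h2 ⊢
    have hκ : 1 < κ := by linarith
    have hκ0 : 0 < κ := by linarith
    have hA : (0 : ℝ) < q + 1 / 4 := by linarith
    have hr0 : 0 ≤ 1 - κ⁻¹ := by
      have : κ⁻¹ ≤ 1 := inv_le_one_of_one_le₀ hκ.le
      linarith
    obtain ⟨c, hc⟩ : ∃ c : ℝ, c = (q + 1 / 4) / ((q + 1 / 4) + 1 : ℝ) := ⟨_, rfl⟩
    have hr1 : 1 - κ⁻¹ ≤ c := by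
      have h3 : (q + 1 / 4) / ((q + 1 / 4) + 1 : ℝ) = 1 - ((q : ℝ) + 5 / 4)⁻¹ := by
        have h4 : (q : ℝ) + 1 / 4 + 1 = q + 5 / 4 := by ring
        have h5 : (q : ℝ) + 5 / 4 ≠ 0 := by linarith
        rw [h4, eq_sub_iff_add_eq, ← one_div, ← add_div, div_eq_one_iff_eq h5]
        ring
      rw [hc, h3]
      have h4 : ((q : ℝ) + 5 / 4)⁻¹ ≤ κ⁻¹ := inv_anti₀ hκ0 (by linarith)
      linarith
    have hc0 : 0 ≤ c := hr0.trans hr1
    have h3 := bern hA q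
    rw [← hc] at h3
    have h4 : (1 - κ⁻¹) ^ q ≤ c ^ q := pow_le_pow_left₀ hr0 hr1 q
    have h5 : 1 + c < 1 + q * (1 / (q + 1 / 4)) := by
      have : c < q * (1 / (q + 1 / 4)) := by
        rw [hc, mul_one_div, div_lt_div_iff₀ (by linarith) hA]
        nlinarith
      linarith
    have h6 : 0 < c ^ q := by
      have : 0 < c := by
        rw [hc]
        positivity
      positivity
    have h7 : c ^ q * (1 + c) < 1 := by
      have := mul_lt_mul_of_pos_left h5 h6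
      linarith
    have h8 : (1 - κ⁻¹) ^ q * (1 + (1 - κ⁻¹)) < 1 := by
      refine lt_of_le_of_lt ?_ h7
      exact mul_le_mul h4 (by linarith) (by linarith) h6.le
    have h9 : 2 * κ - 1 = κ * (1 + (1 - κ⁻¹)) := by
      field_simp
      ring
    rw [h9]
    nlinarith

theorem num_log {q : ℕ} {κ : ℝ} (h1 : 1 < κ) (h2 : κ * Real.log 2 ≤ (q : ℝ) + 1) :
    (1 - 1 / κ) ^ (q + 1) * (2 * κ) < κ := by
  have hκ0 : 0 < κ := by linarith
  have hr0 : 0 ≤ 1 - 1 / κ := by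
    have : 1 / κ ≤ 1 := by
      rw [div_le_one hκ0]
      exact h1.le
    linarith
  have hne : -(1 / κ) ≠ 0 := by
    have : 0 < 1 / κ := by positivity
    linarith
  have h3 : 1 - 1 / κ < Real.exp (-(1 / κ)) := by
    have := Real.add_one_lt_exp hne
    linarith
  have h4 : (1 - 1 / κ) ^ (q + 1) < Real.exp (-(1 / κ)) ^ (q + 1) :=
    pow_lt_pow_left₀ h3 hr0 (by omega)
  have h5 : Real.exp (-(1 / κ)) ^ (q + 1) ≤ 1 / 2 := by
    rw [← Real.exp_nat_mul]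
    have h6 : ((q + 1 : ℕ) : ℝ) * -(1 / κ) ≤ -Real.log 2 := by
      push_cast
      have h7 : Real.log 2 ≤ ((q : ℝ) + 1) * (1 / κ) := by
        rw [mul_one_div, le_div_iff₀ hκ0]
        linarith
      linarith
    refine (Real.exp_le_exp.2 h6).trans ?_
    rw [Real.exp_neg, Real.exp_log (by norm_num)]
    norm_num
  nlinarith

end FWar
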