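import Pool.Agent.FWar.LocE1
import Pool.Agent.FWar.NumE1

/-!
# FWar.FinE1: integer parts of real powers, dimension of the exceptional set

PROOF of `compact_E1`. For every `κs ∈ [a, b]` take the interval `(κ1, κ2)` of `local_E1`; by
compactness finitely many of them cover `[a,b]`, and the dimension of a finite union is the maximum
(`dimH_bUnion` or `dimH_union`), so it is `< 1`. (If `a > b` the set is empty, `dimH_empty`.)

PROOF of `floor_exp1`. (a) `L = ⌊2κ - 1/2⌋₊` satisfies `L ≥ 2` and `L/2 + 1/4 ≤ κ ≤ L/2 + 3/4`;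
write `L = 2q + s`, `s ≤ 1`, `q ≥ 1`. For `κ ∈ [5/4, b]` only finitely many `L` occur, for each of them
`compact_E1` applies to `[L/2 + 1/4, L/2 + 3/4]` by `num_e1`. (b) If `4 κ log 2 + 5 ≤ m` let
`q = ⌊κ log 2⌋₊`; then `κ ∈ [q/log 2, (q+1)/log 2]`, `4(q+1) + 1 ≤ m`; finitely many `q` occur, for each
`compact_E1` applies (with `s = 0`, to `[max (5/4) (q/log 2), (q+1)/log 2]`) by `num_log`.
Longer sums: `ExpP κ m → ExpP κ m'` for `m ≤ m'` (add terms `n = 1`: replace `N` by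
`N - (m'-m)⌊α⌋`). So the exceptional set is contained in a finite union of sets of dimension `< 1`.
-/

namespace FWar

open MWg Finset MeasureTheory Filter Topology

private theorem FinE1_dim {f : ℕ → Set ℝ} (n : ℕ) (h : ∀ i, dimH (f i) < 1) :
    dimH (⋃ i ∈ Finset.range n, f i) < 1 := by
  have hU := dimH_bUnion (Finset.range n).countable_toSet f
  simp only [Finset.mem_coe] at hU
  rw [hU, ← Finset.sup_eq_iSup]
  exact (Finset.sup_lt_iff one_pos).2 fun i _ => h i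

theorem expP_longer {κ : ℝ} {m m' : ℕ} (hm : m ≤ m') (h : ExpP κ m) : ExpP κ m' := by
  intro α hα
  obtain ⟨N0, hN0⟩ := h α hα
  obtain ⟨k, rfl⟩ := Nat.exists_eq_add_of_le hm
  refine ⟨N0 + k * ⌊α⌋, fun N hN => ?_⟩
  obtain ⟨l, hl, hpos, hfs⟩ := hN0 (N - k * ⌊α⌋) (by linarith)
  refine ⟨l ++ List.replicate k 1, ?_, ?_, ?_⟩
  · simp [hl]
  · intro n hn
    rw [List.mem_append] at hn
    rcases hn with hn | hn
    · exact hpos n hn
    · rw [List.mem_replicate] at hn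
      omega
  · have h1 : fs (fun x : ℕ => α * (x : ℝ) ^ κ) (l ++ List.replicate k 1) =
        fs (fun x : ℕ => α * (x : ℝ) ^ κ) l + k * ⌊α⌋ := by
      simp [fs]
    rw [h1, hfs]
    ring

theorem compact_E1 {q s : ℕ} (hs : s ≤ 1) {a b : ℝ} (ha : 1 < a)
    (h : ∀ κ ∈ Set.Icc a b, (1 - 1 / κ) ^ (q + 1) * (2 * κ - s) < κ) :
    dimH {κ : ℝ | κ ∈ Set.Icc a b ∧ 5 / 4 ≤ κ ∧ ¬ ExpP κ (2 * (2 * (q + 1) + s) + 1)} < 1 := by
  have key := (isCompact_Icc (a := a) (b := b)).induction_on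
    (p := fun t => dimH (t ∩ {κ : ℝ | 5 / 4 ≤ κ ∧ ¬ ExpP κ (2 * (2 * (q + 1) + s) + 1)}) < 1)
    (by rw [Set.empty_inter, dimH_empty]; exact one_pos)
    (fun s t hst ht => (dimH_mono (Set.inter_subset_inter_left _ hst)).trans_lt ht)
    (fun s t hs ht => by
      rw [Set.union_inter_distrib_right, dimH_union]
      exact max_lt hs ht)
    (fun κs hκs => by
      obtain ⟨κ1, κ2, h1, h2, h3⟩ := local_E1 (q := q) hs (lt_of_lt_of_le ha hκs.1) (h κs hκs)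
      refine ⟨Set.Icc κ1 κ2, mem_nhdsWithin_of_mem_nhds (Icc_mem_nhds h1 h2), ?_⟩
      refine (dimH_mono ?_).trans_lt h3
      rintro κ ⟨h4, h5, h6⟩
      exact ⟨h4, h5, h6⟩)
  refine (dimH_mono ?_).trans_lt key
  rintro κ ⟨h4, h5, h6⟩
  exact ⟨h4, h5, h6⟩

theorem floor_exp1 (b : ℝ) :
    dimH {κ : ℝ | 5 / 4 ≤ κ ∧ κ ≤ b ∧ ∃ m : ℕ,
      (2 * ⌊2 * κ - 1 / 2⌋₊ + 1 ≤ m ∨ 4 * Real.log 2 * κ + 5 ≤ (m : ℝ)) ∧ ¬ ExpP κ m} < 1 := by
  have hlog : 0 < Real.log 2 := Real.log_pos one_lt_two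
  have hA : ∀ i : ℕ, dimH {κ : ℝ | κ ∈ Set.Icc (((i : ℝ) + 2) / 2 + 1 / 4) (((i : ℝ) + 2) / 2 + 3 / 4) ∧
      5 / 4 ≤ κ ∧ ¬ ExpP κ (2 * (i + 2) + 1)} < 1 := by
    intro i
    obtain ⟨q, s, hs, hi⟩ : ∃ q s : ℕ, s ≤ 1 ∧ i = 2 * q + s := ⟨i / 2, i % 2, by omega, by omega⟩
    have hnum : 2 * (i + 2) + 1 = 2 * (2 * (q + 1) + s) + 1 := by omega
    have hcast : (i : ℝ) = 2 * q + s := by rw [hi]; push_cast; ring
    rw [hnum]
    apply compact_E1 hs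
    · have : (0 : ℝ) ≤ i := Nat.cast_nonneg i
      linarith
    · intro κ hκ
      refine num_e1 (q := q + 1) (s := s) (by omega) hs ?_ ?_
      · push_cast
        have := hκ.1
        rw [hcast] at this
        linarith
      · push_cast
        have := hκ.2
        rw [hcast] at this
        linarith
  have hB : ∀ q : ℕ, dimH {κ : ℝ | κ ∈ Set.Icc (5 / 4) (((q : ℝ) + 1) / Real.log 2) ∧
      5 / 4 ≤ κ ∧ ¬ ExpP κ (2 * (2 * (q + 1) + 0) + 1)} < 1 := by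
    intro q
    apply compact_E1 (by norm_num) (by norm_num)
    intro κ hκ
    have h1 : 1 < κ := by linarith [hκ.1]
    have h2 : κ * Real.log 2 ≤ (q : ℝ) + 1 := (le_div_iff₀ hlog).1 hκ.2
    have := num_log h1 h2
    simpa using this
  have hU := max_lt (FinE1_dim (⌊2 * b⌋₊ + 1) hA) (FinE1_dim (⌊b * Real.log 2⌋₊ + 1) hB)
  rw [← dimH_union] at hU
  refine (dimH_mono ?_).trans_lt hU
  rintro κ ⟨h1, h2, m, hm, h3⟩
  rcases hm with hm | hm
  · left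
    have hL2 : 2 ≤ ⌊2 * κ - 1 / 2⌋₊ := Nat.le_floor (by push_cast; linarith)
    have hf1 : ((⌊2 * κ - 1 / 2⌋₊ : ℕ) : ℝ) ≤ 2 * κ - 1 / 2 := Nat.floor_le (by linarith)
    have hf2 : 2 * κ - 1 / 2 < (⌊2 * κ - 1 / 2⌋₊ : ℕ) + 1 := Nat.lt_floor_add_one _
    have hf3 : ⌊2 * κ - 1 / 2⌋₊ ≤ ⌊2 * b⌋₊ := Nat.floor_le_floor (by linarith)
    obtain ⟨i, hi⟩ := Nat.exists_eq_add_of_le hL2
    have hcast : ((⌊2 * κ - 1 / 2⌋₊ : ℕ) : ℝ) = 2 + i := by rw [hi]; push_cast; ring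
    rw [hcast] at hf1 hf2
    simp only [Set.mem_iUnion, Finset.mem_range]
    refine ⟨i, by omega, ⟨by linarith, by linarith⟩, h1, fun h4 => h3 (expP_longer ?_ h4)⟩
    omega
  · right
    have h0 : 0 ≤ κ * Real.log 2 := by positivity
    have hf1 : ((⌊κ * Real.log 2⌋₊ : ℕ) : ℝ) ≤ κ * Real.log 2 := Nat.floor_le h0
    have hf2 : κ * Real.log 2 < (⌊κ * Real.log 2⌋₊ : ℕ) + 1 := Nat.lt_floor_add_one _
    have hf3 : ⌊κ * Real.log 2⌋₊ ≤ ⌊b * Real.log 2⌋₊ :=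
      Nat.floor_le_floor (mul_le_mul_of_nonneg_right h2 hlog.le)
    simp only [Set.mem_iUnion, Finset.mem_range]
    refine ⟨⌊κ * Real.log 2⌋₊, by omega, ⟨h1, (le_div_iff₀ hlog).2 hf2.le⟩, h1,
      fun h4 => h3 (expP_longer ?_ h4)⟩
    have : ((2 * (2 * (⌊κ * Real.log 2⌋₊ + 1) + 0) + 1 : ℕ) : ℝ) ≤ (m : ℝ) := by
      push_cast
      linarith
    exact_mod_cast this

end FWar
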