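import Pool.Agent.FWar.BlockE

/-!
# FWar.WeylE: exponential sums of n^κ

`P = XX r = 2^r`, `J1 P = (2^(r-3), 2^(r-2)]`; `σ'` from `blockE`, `σ := σ'/2`; `M = ⌊P^(15/16)⌋₊`.

SUM. The interval `(2^(r-3), 2^(r-2)]` has `L = 2^(r-3)` elements; divide it in
`⌊L/M⌋` consecutive blocks of length `M`, `{N, ..., N+M-1}`, `N = 2^(r-3) + 1 + jM` (so
`P/8 ≤ N ≤ P/4`), and a rest of less than `M` terms. So the sum is at most
`(L/M) P^(-σ') M + M ≤ P^(1-σ') + P^(15/16) ≤ P^(1-σ)` for large `r`.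
-/

set_option linter.all false

namespace FWar

open MWg Finset Filter Topology
open Pool.PolyMax (e dz)

private theorem block_sum (f : ℕ → ℂ) (B : ℝ) (M a : ℕ) (hf : ∀ z, ‖f z‖ ≤ 1) (k s : ℕ)
    (hB : ∀ j < k, ‖∑ m ∈ range M, f (a + 1 + j * M + m)‖ ≤ B) :
    ‖∑ i ∈ range (k * M + s), f (a + 1 + i)‖ ≤ k * B + s := by
  have h1 : ∀ k : ℕ, (∀ j < k, ‖∑ m ∈ range M, f (a + 1 + j * M + m)‖ ≤ B) →
      ‖∑ i ∈ range (k * M), f (a + 1 + i)‖ ≤ k * B := by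
    intro k
    induction k with
    | zero => intro _; simp
    | succ k ih =>
      intro h
      have e1 : (k + 1) * M = k * M + M := by ring
      rw [e1, Finset.sum_range_add]
      refine (norm_add_le _ _).trans ?_
      have e2 := ih (fun j hj => h j (by omega))
      have e3 := h k (by omega)
      have e4 : ∑ x ∈ range M, f (a + 1 + (k * M + x)) =
          ∑ m ∈ range M, f (a + 1 + k * M + m) := by
        refine Finset.sum_congr rfl fun x _ => ?_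
        congr 1
        ring
      rw [e4]
      push_cast
      linarith
  rw [Finset.sum_range_add]
  refine (norm_add_le _ _).trans ?_
  have e2 := h1 k hB
  have e3 : ‖∑ x ∈ range s, f (a + 1 + (k * M + x))‖ ≤ s := by
    refine (norm_sum_le _ _).trans ((Finset.sum_le_sum fun x _ => hf _).trans (le_of_eq ?_))
    simp
  linarith

private theorem norm_e_one (x : ℝ) : ‖e x‖ ≤ 1 := by
  unfold Pool.PolyMax.e
  have : (2 * (Real.pi : ℂ) * (x : ℂ) * Complex.I) = ((2 * Real.pi * x : ℝ) : ℂ) * Complex.I := by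
    push_cast
    ring
  rw [this, Complex.norm_exp_ofReal_mul_I]

theorem weylE (K : ℝ) : ∃ σ : ℝ, 0 < σ ∧ ∀ κ : ℝ, 1 < κ → κ ≤ K → (∀ n : ℕ, κ ≠ n) →
    ∀ α : ℝ, 0 < α →
    ∀ᶠ r : ℕ in atTop, ∀ θ : ℝ, (XX r) ^ (1 / 4 - κ) ≤ |θ| → |θ| ≤ (XX r) ^ σ →
      ‖∑ z ∈ J1 (XX r), e (θ * (α * (z : ℝ) ^ κ))‖ ≤ (XX r) ^ (1 - σ) := by
  obtain ⟨σ', hσ0, hσ1, hbl⟩ := blockE K
  refine ⟨σ' / 2, by linarith, ?_⟩
  intro κ h1 hK hκ α hα
  have hbig : ∀ᶠ r : ℕ in atTop, 2 < (XX r) ^ (σ' / 2) := by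
    have := (tendsto_rpow_atTop (show 0 < σ' / 2 by linarith)).comp XX_tendsto
    exact this.eventually_gt_atTop 2
  have hbig2 : ∀ᶠ r : ℕ in atTop, 2 < (XX r) ^ (15 / 16 : ℝ) := by
    have := (tendsto_rpow_atTop (show (0 : ℝ) < 15 / 16 by norm_num)).comp XX_tendsto
    exact this.eventually_gt_atTop 2
  filter_upwards [hbl κ h1 hK hκ α hα, hbig, hbig2] with r hr hb1 hb2 θ hθ1 hθ2
  have hP0 : 0 < XX r := XX_pos r
  have hP1 : 1 ≤ XX r := XX_ge_one r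
  obtain ⟨P, hP⟩ : ∃ P : ℝ, P = XX r := ⟨_, rfl⟩
  rw [← hP] at hr hb1 hb2 hθ1 hθ2 hP0 hP1 ⊢
  obtain ⟨M, hM⟩ : ∃ M : ℕ, M = ⌊P ^ (15 / 16 : ℝ)⌋₊ := ⟨_, rfl⟩
  have hMle : (M : ℝ) ≤ P ^ (15 / 16 : ℝ) := by
    rw [hM]; exact Nat.floor_le (by positivity)
  have hM1 : 1 ≤ M := by
    rw [hM]
    exact Nat.le_floor (by push_cast; linarith)
  obtain ⟨a, ha⟩ : ∃ a : ℕ, a = ⌊P / 8⌋₊ := ⟨_, rfl⟩
  obtain ⟨b, hb⟩ : ∃ b : ℕ, b = ⌊P / 4⌋₊ := ⟨_, rfl⟩
  have hab : a ≤ b := by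
    rw [ha, hb]
    exact Nat.floor_le_floor (by linarith)
  have hJ : ∑ z ∈ J1 P, e (θ * (α * (z : ℝ) ^ κ)) =
      ∑ i ∈ range (b - a), e (θ * (α * ((a + 1 + i : ℕ) : ℝ) ^ κ)) := by
    unfold J1
    have h0 : Finset.Ioc a b = Finset.Ico (a + 1) (b + 1) := by
      ext z
      simp only [Finset.mem_Ioc, Finset.mem_Ico]
      omega
    rw [← ha, ← hb, h0, Finset.sum_Ico_eq_sum_range]
    have h1 : b + 1 - (a + 1) = b - a := by omega
    rw [h1]
  have hL := Nat.div_add_mod (b - a) M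
  obtain ⟨k, hk⟩ : ∃ k : ℕ, k = (b - a) / M := ⟨_, rfl⟩
  obtain ⟨s, hs⟩ : ∃ s : ℕ, s = (b - a) % M := ⟨_, rfl⟩
  have hsM : s < M := by rw [hs]; exact Nat.mod_lt _ (by omega)
  rw [← hk, ← hs] at hL
  have hL' : b - a = k * M + s := by rw [← hL]; ring
  have hbP : (b : ℝ) ≤ P / 4 := by rw [hb]; exact Nat.floor_le (by linarith)
  have haP : P / 8 < a + 1 := by rw [ha]; exact Nat.lt_floor_add_one _
  have hmain := block_sum (fun z => e (θ * (α * (z : ℝ) ^ κ))) (P ^ (-σ') * (M : ℝ)) M a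
    (fun z => norm_e_one _) k s (by
      intro j hj
      have hjM : (j + 1) * M ≤ k * M := Nat.mul_le_mul_right _ hj
      have hN2 : a + 1 + j * M ≤ b := by
        have : (j + 1) * M = j * M + M := by ring
        omega
      have h3 := hr θ hθ1 hθ2 (a + 1 + j * M) (by
        push_cast
        have : (0 : ℝ) ≤ (j : ℝ) * (M : ℝ) := by positivity
        linarith) (by
        have : ((a + 1 + j * M : ℕ) : ℝ) ≤ b := by exact_mod_cast hN2
        linarith)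
      rw [← hM] at h3
      refine le_trans (le_of_eq ?_) h3
      congr 1
      refine Finset.sum_congr rfl fun m _ => ?_
      push_cast
      rfl)
  rw [hJ, hL']
  refine hmain.trans ?_
  have hkM : (k : ℝ) * M ≤ P := by
    have : k * M ≤ b := by omega
    have : ((k * M : ℕ) : ℝ) ≤ b := by exact_mod_cast this
    push_cast at this
    linarith
  have hs' : (s : ℝ) ≤ P ^ (15 / 16 : ℝ) := by
    have : (s : ℝ) ≤ M := by exact_mod_cast hsM.le
    linarith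
  have hx1 : (k : ℝ) * (P ^ (-σ') * (M : ℝ)) ≤ P ^ (1 - σ') := by
    have e1 : P ^ (1 - σ') = P ^ (-σ') * P := by
      have : (1 - σ') = -σ' + 1 := by ring
      rw [this, Real.rpow_add hP0, Real.rpow_one]
    rw [e1]
    have e2 : 0 < P ^ (-σ') := by positivity
    calc (k : ℝ) * (P ^ (-σ') * (M : ℝ)) = P ^ (-σ') * ((k : ℝ) * M) := by ring
      _ ≤ P ^ (-σ') * P := mul_le_mul_of_nonneg_left hkM e2.le
  have hx2 : P ^ (15 / 16 : ℝ) ≤ P ^ (1 - σ') :=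
    Real.rpow_le_rpow_of_exponent_le hP1 (by linarith)
  have hx3 : P ^ (1 - σ' / 2) = P ^ (1 - σ') * P ^ (σ' / 2) := by
    rw [← Real.rpow_add hP0]
    congr 1
    ring
  have hx4 : 0 < P ^ (1 - σ') := by positivity
  rw [hx3]
  nlinarith

end FWar
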