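import Pool.Agent.FWar.AeE
import Pool.Agent.FWar.WeylE
import Pool.Agent.FWar.Asm2
import Pool.Agent.FWar.NumE1

/-!
# FWar.FinE2: almost all integers as sums of few terms ⌊α n^κ⌋, for almost every exponent κ

PROOF of `local_E2`: the same as `FWar.local_E` (adapt `Pool/Agent/FWar/LocE.lean`) with
`floor_almost` instead of `floor_basis` (`16(q+2) η ≤ σ/8`; `σ` replaced by `min σ 1`), `κ ≥ 5/4`
instead of `κ ≥ 3/2`; `d = 2q + s + 1`, the number of terms is `d + 2 = 2(q+1) + s + 1`.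
PROOF of `almost_exp`: as `FWar.floor_exp_gen`, `FWar.floor_exp` in `Pool/Agent/FWar/FinE.lean`
(locally null implies null) with `num_e1`: for `κ ≥ 5/4` the number `L = ⌊2κ - 1/2⌋₊ ≥ 2` satisfies
`L/2 + 1/4 ≤ κ ≤ L/2 + 3/4`; write `L = 2(q+1) + s`, `s ≤ 1`. The number of terms is `L + 1`.
-/

set_option linter.all false

namespace FWar

open MWg Finset MeasureTheory Filter Topology

/-- All but `O(X^(1-δ))` of the positive integers up to `X` are sums of exactly `m` terms `⌊f n⌋`,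
`n ≥ 1`. -/
def AlmostAll (f : ℕ → ℝ) (m : ℕ) : Prop :=
  ∃ δ : ℝ, 0 < δ ∧ ∃ C : ℝ, ∀ X : ℕ, 1 ≤ X →
    cn (Finset.Icc 1 X) (fun N => ¬ ∃ l : List ℕ, l.length = m ∧ (∀ n ∈ l, 1 ≤ n) ∧
      fs f l = (N : ℤ)) ≤ C * (X : ℝ) ^ (1 - δ)

private lemma FinE2_rs (α κ : ℝ) (l : List ℕ) :
    rs (fun x => α * (x : ℝ) ^ κ) l = α * rs (fun x => (x : ℝ) ^ κ) l := by
  induction l with
  | nil => simp [rs]
  | cons a l ih =>
    rw [rs_cons, rs_cons, ih]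
    ring

private lemma FinE2_grow {α κ : ℝ} (hα : 0 < α) (hκ : 1 ≤ κ) :
    Grow κ α (fun x => α * (x : ℝ) ^ κ) := by
  refine ⟨hα, ?_, α * (κ * 2 ^ (κ - 1)), ?_⟩
  · refine tendsto_const_nhds.congr' ?_
    filter_upwards [eventually_ge_atTop 1] with x hx
    have hx0 : (0 : ℝ) < (x : ℝ) := by exact_mod_cast hx
    have h1 : (0 : ℝ) < (x : ℝ) ^ κ := Real.rpow_pos_of_pos hx0 κ
    field_simp
  · filter_upwards [eventually_ge_atTop 1] with x hx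
    have hx1 : (1 : ℝ) ≤ (x : ℝ) := by exact_mod_cast hx
    have hx0 : (0 : ℝ) < (x : ℝ) := by linarith
    push_cast
    set y : ℝ := (x : ℝ) + 1 with hy
    have hy0 : 0 < y := by linarith
    constructor
    · have h1 : (x : ℝ) ^ κ ≤ y ^ κ := Real.rpow_le_rpow hx0.le (by linarith) (by linarith)
      nlinarith
    · have h1 : y ^ κ - (x : ℝ) ^ κ ≤ κ * y ^ (κ - 1) := by
        have h2 := one_add_mul_self_le_rpow_one_add (s := -1 / y) (by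
          rw [le_div_iff₀ hy0]; linarith) hκ
        have h3 : (x : ℝ) = y * (1 + -1 / y) := by
          field_simp
          rw [hy]
          ring
        have h4 : (x : ℝ) ^ κ = y ^ κ * (1 + -1 / y) ^ κ := by
          conv_lhs => rw [h3]
          rw [Real.mul_rpow hy0.le]
          have : (0 : ℝ) ≤ 1 + -1 / y := by
            have : 1 + -1 / y = (x : ℝ) / y := by
              field_simp
              rw [hy]
              ring
            rw [this]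
            positivity
          exact this
        have h5 : y ^ κ = y ^ (κ - 1) * y := by
          rw [← Real.rpow_add_one hy0.ne']
          congr 1
          ring
        have h6 : 0 < y ^ (κ - 1) := Real.rpow_pos_of_pos hy0 _
        have h7 : y ^ κ * (1 + κ * (-1 / y)) ≤ (x : ℝ) ^ κ := by
          rw [h4]
          exact mul_le_mul_of_nonneg_left h2 (Real.rpow_pos_of_pos hy0 _).le
        have h8 : y ^ κ * (1 + κ * (-1 / y)) = y ^ κ - κ * y ^ (κ - 1) := by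
          rw [h5]
          field_simp
          ring
        linarith
      have h2 : y ^ (κ - 1) ≤ 2 ^ (κ - 1) * (x : ℝ) ^ (κ - 1) := by
        rw [← Real.mul_rpow (by norm_num) hx0.le]
        exact Real.rpow_le_rpow hy0.le (by linarith) (by linarith)
      calc α * y ^ κ - α * (x : ℝ) ^ κ = α * (y ^ κ - (x : ℝ) ^ κ) := by ring
        _ ≤ α * (κ * y ^ (κ - 1)) := mul_le_mul_of_nonneg_left h1 hα.le
        _ ≤ α * (κ * (2 ^ (κ - 1) * (x : ℝ) ^ (κ - 1))) := by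
            apply mul_le_mul_of_nonneg_left _ hα.le
            exact mul_le_mul_of_nonneg_left h2 (by linarith)
        _ = α * (κ * 2 ^ (κ - 1)) * (x : ℝ) ^ (κ - 1) := by ring

private lemma FinE2_choose {q : ℕ} {s κs η : ℝ} (hη : 0 < η) (h1 : 1 < κs)
    (h2 : (1 - 1 / κs) ^ (q + 1) * (2 * κs - s) < κs) :
    ∃ κ1 κ2 : ℝ, κ1 < κs ∧ κs < κ2 ∧ 1 < κ1 ∧ κ2 ≤ κs + 1 ∧ κ2 - κ1 ≤ η ∧
      (1 - 1 / κ1) ^ (q + 1) * (2 * κ2 - s) ≤ κ1 + η := by
  have hc : ContinuousAt (fun δ : ℝ => (1 - 1 / (κs - δ)) ^ (q + 1) * (2 * (κs + δ) - s) -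
      (κs - δ)) 0 := by
    have h0 : κs - 0 ≠ 0 := by
      rw [sub_zero]
      linarith
    have hA : ContinuousAt (fun δ : ℝ => κs - δ) 0 := by fun_prop
    have hB : ContinuousAt (fun δ : ℝ => 1 / (κs - δ)) 0 := by
      apply ContinuousAt.div continuousAt_const hA
      exact h0
    have hC : ContinuousAt (fun δ : ℝ => (1 - 1 / (κs - δ)) ^ (q + 1)) 0 :=
      (continuousAt_const.sub hB).pow _
    have hD : ContinuousAt (fun δ : ℝ => (2 * (κs + δ) - s)) 0 := by fun_prop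
    exact (hC.mul hD).sub hA
  have hlt : (fun δ : ℝ => (1 - 1 / (κs - δ)) ^ (q + 1) * (2 * (κs + δ) - s) -
      (κs - δ)) 0 < η := by
    simp only [sub_zero, add_zero]
    linarith
  have hev := hc.eventually (gt_mem_nhds hlt)
  rw [Metric.eventually_nhds_iff] at hev
  obtain ⟨ε, hε, hball⟩ := hev
  set δ : ℝ := min (ε / 2) (min (η / 2) (min (1 / 4) ((κs - 1) / 2))) with hδ
  have hδ0 : 0 < δ := by
    rw [hδ]
    apply lt_min (by linarith)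
    apply lt_min (by linarith)
    exact lt_min (by norm_num) (by linarith)
  have hδ1 : δ ≤ ε / 2 := min_le_left _ _
  have hδ2 : δ ≤ η / 2 := (min_le_right _ _).trans (min_le_left _ _)
  have hδ3 : δ ≤ 1 / 4 := ((min_le_right _ _).trans (min_le_right _ _)).trans (min_le_left _ _)
  have hδ4 : δ ≤ (κs - 1) / 2 :=
    ((min_le_right _ _).trans (min_le_right _ _)).trans (min_le_right _ _)
  have h3 := hball (y := δ) (by
    rw [Real.dist_eq, sub_zero, abs_of_pos hδ0]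
    linarith)
  refine ⟨κs - δ, κs + δ, by linarith, by linarith, by linarith, by linarith, by linarith, ?_⟩
  have h4 : (1 - 1 / (κs - δ)) ^ (q + 1) * (2 * (κs + δ) - s) - (κs - δ) < η := h3
  linarith

private lemma FinE2_four {κ : ℝ} (hκ : 5 / 4 ≤ κ) : (5 : ℝ) ≤ 4 ^ κ := by
  have h6 : (4 : ℝ) ^ (5 / 4 : ℝ) ≤ 4 ^ κ :=
    Real.rpow_le_rpow_of_exponent_le (by norm_num) hκ
  have h7 : (5 : ℝ) ≤ (4 : ℝ) ^ (5 / 4 : ℝ) := by
    have e1 : (5 : ℝ) = ((5 : ℝ) ^ (4 : ℝ)) ^ (1 / 4 : ℝ) := by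
      rw [← Real.rpow_mul (by norm_num)]
      norm_num
    have e2 : (4 : ℝ) ^ (5 / 4 : ℝ) = ((4 : ℝ) ^ (5 : ℝ)) ^ (1 / 4 : ℝ) := by
      rw [← Real.rpow_mul (by norm_num)]
      norm_num
    rw [e2]
    conv_lhs => rw [e1]
    apply Real.rpow_le_rpow (by positivity) _ (by norm_num)
    have e3 : (5 : ℝ) ^ (4 : ℝ) = 625 := by
      rw [show (4 : ℝ) = ((4 : ℕ) : ℝ) by norm_num, Real.rpow_natCast]
      norm_num
    have e4 : (4 : ℝ) ^ (5 : ℝ) = 1024 := by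
      rw [show (5 : ℝ) = ((5 : ℕ) : ℝ) by norm_num, Real.rpow_natCast]
      norm_num
    rw [e3, e4]
    norm_num
  linarith

private lemma FinE2_exp {q s : ℕ} (hs : s ≤ 1) {σ η κ1 κ2 κ : ℝ} (hσ : 0 < σ) (hη0 : 0 < η)
    (hησ : 16 * ((q : ℝ) + 2) * η ≤ σ / 8)
    (hc : 1 < κ1) (hκ12 : κ1 ≤ κ2) (hκ1 : κ1 ≤ κ) (hκ2 : κ ≤ κ2) (hκ : 5 / 4 ≤ κ)
    (hU : ∀ α : ℝ, 0 < α → ∀ᶠ r : ℕ in atTop, ∀ θ : ℝ, (XX r) ^ (1 / 4 - κ) ≤ |θ| →
      |θ| ≤ (XX r) ^ σ →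
      ‖∑ z ∈ J1 (XX r), Pool.PolyMax.e (θ * (α * (z : ℝ) ^ κ))‖ ≤ (XX r) ^ (1 - σ))
    (hσ1 : σ ≤ 1)
    (hae : ∀ M : ℝ, ∀ᶠ r : ℕ in atTop,
      pairs (mix (fun x => x ^ (1 - 1 / κ1)) s (q + 1) (XX r)) (fun p =>
        |rs (fun x => (x : ℝ) ^ κ) p.1 - rs (fun x => (x : ℝ) ^ κ) p.2| ≤ M) ≤
      (XX r) ^ (16 * (((q + 1 : ℕ) : ℝ) + 1) * η) *
        ((mix (fun x => x ^ (1 - 1 / κ1)) s (q + 1) (XX r)).card : ℝ) ^ 2 / (XX r) ^ κ) :
    ∀ α : ℝ, 0 < α → AlmostAll (fun x => α * (x : ℝ) ^ κ) (2 * (q + 1) + s + 1) := by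
  intro α hα
  set lam : ℝ := 1 - 1 / κ1 with hlam
  set nx : ℝ → ℝ := fun x => x ^ lam with hnx
  have hκ10 : 0 < κ1 := by linarith
  have hinv : 1 / κ1 < 1 := by
    rw [div_lt_one hκ10]
    exact hc
  have hinv0 : 0 < 1 / κ1 := by positivity
  have hlam0 : 0 < lam := by linarith
  have hlam1 : lam < 1 := by linarith
  have hnxt : Tendsto nx atTop atTop := tendsto_rpow_atTop hlam0
  have hit : ∀ i : ℕ, Tendsto (nx^[i]) atTop atTop := fun i => hnxt.iterate i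
  have hκ0 : (0 : ℝ) < κ := by linarith
  have key := floor_almost (κ := κ) (α := α) (σ := σ) (f := fun x : ℕ => α * (x : ℝ) ^ κ)
    (d := 2 * q + s + 1) (W := fun r => tl nx s q (XX r)) hκ hσ hσ1 (FinE2_grow hα (by linarith))
    (hU α hα)
    (fun r w hw => tl_len hs q _ w hw)
    (fun r w hw => tl_pos q _ w hw) ?_ ?_ ?_
  · have hm : 2 * (q + 1) + s + 1 = 2 * q + s + 1 + 2 := by ring
    rw [hm]
    exact key
  · -- nonempty
    have e1 : ∀ᶠ P : ℝ in atTop, ∀ i ∈ Finset.range (q + 1), 16 ≤ nx^[i] (nx P) := by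
      rw [Filter.eventually_all_finset]
      intro i _
      exact ((hit i).comp hnxt).eventually_ge_atTop 16
    filter_upwards [XX_tendsto.eventually e1, XX_tendsto.eventually_ge_atTop 16] with r hr1 hr2
    exact tl_nonempty q _ hr2 (fun i hi => hr1 i (Finset.mem_range.2 (by omega)))
  · -- size
    obtain ⟨C, hC, hbd⟩ := mixE_bound hc hκ12 hs q
    have e1 : ∀ᶠ r : ℕ in atTop, (20 * C) * XX r ^ (lam * κ) ≤ XX r ^ κ :=
      eventually_rpow_le (by nlinarith)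
    have e2 : ∀ᶠ r : ℕ in atTop, 16 ≤ nx (XX r) :=
      (hnxt.comp XX_tendsto).eventually_ge_atTop 16
    filter_upwards [e1, e2, XX_tendsto.eventually_ge_atTop 16] with r hr1 hr2 hr3 w hw
    set P : ℝ := XX r with hP
    have hP0 : 0 < P := by linarith
    unfold tl at hw
    obtain ⟨⟨v, w'⟩, hvw, rfl⟩ := Finset.mem_image.1 hw
    obtain ⟨hv, hw'⟩ := Finset.mem_product.1 hvw
    simp only at hv hw'
    simp only [FinE2_rs, rs_cons]
    have hb1 := (hbd (nx P) hr2 κ hκ1 hκ2 w' hw').1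
    have hnxκ : (nx P) ^ κ = P ^ (lam * κ) := by
      rw [hnx]
      simp only
      rw [← Real.rpow_mul hP0.le]
    rw [hnxκ] at hb1
    have hv1 : (v : ℝ) ≤ P / 4 := ((mem_J1 hP0.le).1 hv).2
    have hv2 : (v : ℝ) ^ κ ≤ P ^ κ / 5 := by
      have h3 : (v : ℝ) ^ κ ≤ (P / 4) ^ κ :=
        Real.rpow_le_rpow (Nat.cast_nonneg v) hv1 hκ0.le
      have h4 : (P / 4) ^ κ = P ^ κ / 4 ^ κ := Real.div_rpow hP0.le (by norm_num) κ
      have h5 : (5 : ℝ) ≤ 4 ^ κ := FinE2_four hκ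
      have h6 : 0 < P ^ κ := Real.rpow_pos_of_pos hP0 κ
      rw [h4] at h3
      refine h3.trans ?_
      gcongr
    have hv3 : 0 ≤ (v : ℝ) ^ κ := Real.rpow_nonneg (Nat.cast_nonneg v) κ
    have hPκ : 0 < P ^ κ := Real.rpow_pos_of_pos hP0 κ
    rw [← mul_add, abs_mul, abs_of_pos hα]
    have h3 : |(v : ℝ) ^ κ + rs (fun x : ℕ => (x : ℝ) ^ κ) w'| ≤ P ^ κ / 4 := by
      have h4 := abs_add_le ((v : ℝ) ^ κ) (rs (fun x : ℕ => (x : ℝ) ^ κ) w')
      rw [abs_of_nonneg hv3] at h4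
      have h5 : C * P ^ (lam * κ) ≤ P ^ κ / 20 := by linarith
      linarith
    calc α * |(v : ℝ) ^ κ + rs (fun x : ℕ => (x : ℝ) ^ κ) w'| ≤ α * (P ^ κ / 4) :=
          mul_le_mul_of_nonneg_left h3 hα.le
      _ = α * P ^ κ / 4 := by ring
  · -- pairs
    filter_upwards [hae ((((2 * q + s + 1 : ℕ) : ℝ) + 1) / α),
      XX_tendsto.eventually_ge_atTop 1] with r hr hr1
    have hexp : 16 * (((q + 1 : ℕ) : ℝ) + 1) * η ≤ σ / 8 := by
      have : (((q + 1 : ℕ) : ℝ) + 1) = (q : ℝ) + 2 := by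
        push_cast
        ring
      rw [this]
      exact hησ
    have hXκ : 0 < (XX r) ^ κ := Real.rpow_pos_of_pos (by linarith) κ
    have hr' := hr.trans (show (XX r) ^ (16 * (((q + 1 : ℕ) : ℝ) + 1) * η) *
        ((mix (fun x => x ^ lam) s (q + 1) (XX r)).card : ℝ) ^ 2 / (XX r) ^ κ ≤
        (XX r) ^ (σ / 8) *
        ((mix (fun x => x ^ lam) s (q + 1) (XX r)).card : ℝ) ^ 2 / (XX r) ^ κ by
      apply div_le_div_of_nonneg_right _ hXκ.le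
      apply mul_le_mul_of_nonneg_right _ (sq_nonneg _)
      exact Real.rpow_le_rpow_of_exponent_le hr1 hexp)
    rw [card_tl]
    refine le_trans ?_ hr'
    rw [← pairs_tl nx s q (XX r) (fun l l' =>
      |rs (fun x => (x : ℝ) ^ κ) l - rs (fun x => (x : ℝ) ^ κ) l'| ≤
        (((2 * q + s + 1 : ℕ) : ℝ) + 1) / α)]
    apply pairs_mono
    rintro ⟨u, t⟩ _ ⟨u', t'⟩ _ hp
    simp only [FinE2_rs] at hp
    simp only [rs_cons]
    rw [le_div_iff₀ hα]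
    have h3 : |(u : ℝ) ^ κ + rs (fun x : ℕ => (x : ℝ) ^ κ) t -
        ((u' : ℝ) ^ κ + rs (fun x : ℕ => (x : ℝ) ^ κ) t')| * α =
        |α * (u : ℝ) ^ κ + α * rs (fun x : ℕ => (x : ℝ) ^ κ) t -
        (α * (u' : ℝ) ^ κ + α * rs (fun x : ℕ => (x : ℝ) ^ κ) t')| := by
      have h4 : ∀ x : ℝ, |x| * α = |x * α| := fun x => by
        rw [abs_mul, abs_of_pos hα]
      rw [h4]
      congr 1
      ring
    rw [h3]
    exact hp

theorem local_E2 {q s : ℕ} (hs : s ≤ 1) {κs : ℝ} (h1 : 1 < κs)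
    (h2 : (1 - 1 / κs) ^ (q + 1) * (2 * κs - s) < κs) :
    ∃ κ1 κ2 : ℝ, κ1 < κs ∧ κs < κ2 ∧
      ∀ᵐ κ : ℝ, κ ∈ Set.Icc κ1 κ2 → 5 / 4 ≤ κ → ∀ α : ℝ, 0 < α →
        AlmostAll (fun x => α * (x : ℝ) ^ κ) (2 * (q + 1) + s + 1) := by
  obtain ⟨σ0, hσ0, hW⟩ := weylE (κs + 1)
  have hq0 : (0 : ℝ) ≤ q := Nat.cast_nonneg q
  set σ : ℝ := min σ0 1 with hσdef
  have hσ : 0 < σ := lt_min hσ0 one_pos
  have hσ1 : σ ≤ 1 := min_le_right _ _
  have hσσ : σ ≤ σ0 := min_le_left _ _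
  set η : ℝ := σ / (128 * ((q : ℝ) + 2)) with hη
  have hη0 : 0 < η := by
    rw [hη]
    positivity
  have hησ : 16 * ((q : ℝ) + 2) * η ≤ σ / 8 := by
    have h : η ≤ σ / (128 * ((q : ℝ) + 2)) := hη.le
    rw [le_div_iff₀ (by positivity)] at h
    linarith
  obtain ⟨κ1, κ2, ha, hb, hc, hd, he, hf⟩ := FinE2_choose hη0 h1 h2
  refine ⟨κ1, κ2, ha, hb, ?_⟩
  have hκ12 : κ1 ≤ κ2 := by linarith
  have hcount : ∀ᵐ κ : ℝ, κ ∉ Set.range (fun n : ℕ => (n : ℝ)) :=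
    (Set.countable_range _).ae_notMem _
  filter_upwards [hcount, aeE hc hκ12 hη0 he hs (q + 1) hf] with κ hint hae hκI hκ
  obtain ⟨hκ1, hκ2⟩ := hκI
  refine FinE2_exp hs hσ hη0 hησ hc hκ12 hκ1 hκ2 hκ ?_ hσ1 (hae ⟨hκ1, hκ2⟩)
  intro α hα
  filter_upwards [hW κ (by linarith) (by linarith) (fun n hn => hint ⟨n, hn.symm⟩) α hα,
    XX_tendsto.eventually_ge_atTop 1] with r hr hr1 θ hθ1 hθ2
  refine (hr θ hθ1 (hθ2.trans (Real.rpow_le_rpow_of_exponent_le hr1 hσσ))).trans ?_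
  exact Real.rpow_le_rpow_of_exponent_le hr1 (by linarith)

private theorem FinE2_gen (q s : ℕ) (hs : s ≤ 1) :
    ∀ᵐ κ : ℝ, 5 / 4 ≤ κ → (1 - 1 / κ) ^ (q + 1) * (2 * κ - s) < κ → ∀ α : ℝ, 0 < α →
      AlmostAll (fun x => α * (x : ℝ) ^ κ) (2 * (q + 1) + s + 1) := by
  rw [ae_iff]
  refine measure_null_of_locally_null _ fun κs hκs => ?_
  simp only [Set.mem_ofPred_eq, Classical.not_imp] at hκs
  obtain ⟨h1, h2, -⟩ := hκs
  obtain ⟨κ1, κ2, h3, h4, h5⟩ := local_E2 (q := q) hs (by linarith) h2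
  refine ⟨{κ : ℝ | ¬ (5 / 4 ≤ κ → (1 - 1 / κ) ^ (q + 1) * (2 * κ - s) < κ → ∀ α : ℝ, 0 < α →
      AlmostAll (fun x => α * (x : ℝ) ^ κ) (2 * (q + 1) + s + 1))} ∩ Set.Icc κ1 κ2,
    inter_mem_nhdsWithin _ (Icc_mem_nhds h3 h4), ?_⟩
  rw [ae_iff] at h5
  refine measure_mono_null (fun κ hκ => ?_) h5
  obtain ⟨hκ1, hκ2⟩ := hκ
  rw [Set.mem_ofPred_eq, Classical.not_imp, Classical.not_imp] at hκ1 ⊢
  exact ⟨hκ2, hκ1.1, hκ1.2.2⟩

theorem almost_exp : ∀ᵐ κ : ℝ, 5 / 4 ≤ κ → ∀ α : ℝ, 0 < α →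
    AlmostAll (fun x => α * (x : ℝ) ^ κ) (⌊2 * κ - 1 / 2⌋₊ + 1) := by
  have h0 := fun q : ℕ => FinE2_gen q 0 (by norm_num)
  have h1 := fun q : ℕ => FinE2_gen q 1 le_rfl
  rw [← ae_all_iff] at h0 h1
  filter_upwards [h0, h1] with κ h0 h1 hκ
  have hn2 : 2 ≤ ⌊2 * κ - 1 / 2⌋₊ := Nat.le_floor (by push_cast; linarith)
  have hf1 : ((⌊2 * κ - 1 / 2⌋₊ : ℕ) : ℝ) ≤ 2 * κ - 1 / 2 := Nat.floor_le (by linarith)
  have hf2 : 2 * κ - 1 / 2 < (⌊2 * κ - 1 / 2⌋₊ : ℕ) + 1 := Nat.lt_floor_add_one _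
  set n := ⌊2 * κ - 1 / 2⌋₊ with hn
  obtain ⟨q, hq | hq⟩ : ∃ q : ℕ, n = 2 * (q + 1) + 0 ∨ n = 2 * (q + 1) + 1 :=
    ⟨n / 2 - 1, by omega⟩
  · rw [hq]
    refine h0 q hκ ?_
    have h2 : (n : ℝ) = 2 * (q + 1) := by rw [hq]; push_cast; ring
    refine num_e1 (q := q + 1) (s := 0) (by omega) (by norm_num) ?_ ?_
    · push_cast; rw [h2] at hf1; linarith
    · push_cast; rw [h2] at hf2; linarith
  · rw [hq]
    refine h1 q hκ ?_
    have h2 : (n : ℝ) = 2 * (q + 1) + 1 := by rw [hq]; push_cast; ring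
    refine num_e1 (q := q + 1) (s := 1) (by omega) le_rfl ?_ ?_
    · push_cast; rw [h2] at hf1; linarith
    · push_cast; rw [h2] at hf2; linarith

end FWar
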