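import Pool.Agent.FWar.Defs
import Pool.Agent.MWg.Tools
import Pool.Agent.PolyMax.InvWeyl

/-!
# FWar.WeylP: exponential sums of polynomials with a generic coefficient

`P = XX r = 2^r`, `r ≥ 3`; `J1 P = (2^(r-3), 2^(r-2)]`; `L = |J1 P| = 2^(r-3) = P/8`.

PROOF. Let `C ≥ 1` be the constant of `Pool.PolyMax.inverse_weyl` for `D = k`, and
`σ = 1/(16 (C+1))`. Suppose that the sum has modulus `> P^(1-σ)`. Put `z = z0 + n`,
`z0 = 2^(r-3) + 1`, `n ∈ range L`; the phase is the polynomial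
`G = C θ * (C α * (X + C z0)^k + g.comp (X + C z0))` of degree `≤ k`. With `λ = P^(-σ) ≤ 1`,
`λ L ≤ P^(1-σ) ≤ |∑|`. So there is `1 ≤ q ≤ C P^(Cσ)` with `dz (q G_i) ≤ C P^(Cσ)/L^i` for `i ≥ 1`.
The coefficients: `G_k = θ α`, `G_(k-1) = θ (α k z0 + g_(k-1))` (`g` has degree `≤ k - 1`).
Below `K` denotes constants which depend on `k, C, α, g` only.
* `dz (q θ α) ≤ K P^(Cσ-k)`;
* `dz (q θ α k z0) ≤ k z0 dz (q θ α) ≤ K P^(Cσ-k+1)`, so
  `dz (q θ g_(k-1)) ≤ dz (q G_(k-1)) + dz (q θ α k z0) ≤ K P^(Cσ-k+1)`.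
Let `m = round (q θ α)`, `n = round (q θ g_(k-1))`.
* `m = 0`: `|q θ α| ≤ K P^(Cσ-k)`, so `|θ| ≤ K P^(Cσ-k) < P^(1/4-k)` for large `P` (`Cσ < 1/8`):
  contradiction.
* `m ≠ 0`: `1 ≤ |m| ≤ q |θ| α + 1 ≤ K P^((C+1)σ)`. With `x = g_(k-1)/α`:
  `q θ g_(k-1) = x (q θ α) `, so
  `|x m - n| ≤ |x| |q θ α - m| + |q θ g_(k-1) - n| ≤ K P^(Cσ-k+1) ≤ K P^(Cσ-1)`.
  By `Dioph x` (for `|m|`, replacing `n` by `± n`) `|x m - n| ≥ c/m² ≥ (c/K) P^(-2(C+1)σ)`. Since
  `Cσ - 1 + 2(C+1)σ ≤ -1 + 3/16 < 0` this is a contradiction for large `P`.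
-/

namespace FWar

open MWg Finset Filter Topology
open Pool.PolyMax (e dz)

/-- the shifted sum as a sum over an initial segment. -/
private theorem wp_sum (s : ℕ) (f : ℕ → ℂ) :
    ∑ z ∈ J1 (XX (s + 3)), f z = ∑ n ∈ range (2 ^ s), f (2 ^ s + 1 + n) := by
  have h8 : XX (s + 3) / 8 = ((2 ^ s : ℕ) : ℝ) := by
    unfold XX
    push_cast
    rw [pow_add]
    norm_num
  have h4 : XX (s + 3) / 4 = ((2 ^ (s + 1) : ℕ) : ℝ) := by
    unfold XX
    push_cast
    rw [pow_add, pow_add]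
    norm_num
    ring
  unfold J1
  rw [h8, h4, Nat.floor_natCast, Nat.floor_natCast]
  have h1 : Finset.Ioc (2 ^ s) (2 ^ (s + 1)) = Finset.Ico (2 ^ s + 1) (2 ^ (s + 1) + 1) := by
    ext z
    simp only [Finset.mem_Ioc, Finset.mem_Ico]
    omega
  rw [h1, Finset.sum_Ico_eq_sum_range]
  have h2 : 2 ^ (s + 1) + 1 - (2 ^ s + 1) = 2 ^ s := by
    rw [pow_succ]
    omega
  rw [h2]

/-- the phase polynomial. -/
private noncomputable def wpG (k : ℕ) (θ α : ℝ) (g : Polynomial ℝ) (z0 : ℕ) : Polynomial ℝ :=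
  Polynomial.C θ * (Polynomial.C α * (Polynomial.X + Polynomial.C (z0 : ℝ)) ^ k
    + g.comp (Polynomial.X + Polynomial.C (z0 : ℝ)))

private theorem wpG_eval (k : ℕ) (θ α : ℝ) (g : Polynomial ℝ) (z0 n : ℕ) :
    (wpG k θ α g z0).eval (n : ℝ)
      = θ * (α * ((z0 + n : ℕ) : ℝ) ^ k + g.eval ((z0 + n : ℕ) : ℝ)) := by
  unfold wpG
  simp only [Polynomial.eval_mul, Polynomial.eval_add, Polynomial.eval_pow, Polynomial.eval_C,
    Polynomial.eval_X, Polynomial.eval_comp]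
  push_cast
  rw [add_comm (n : ℝ) (z0 : ℝ)]

private theorem wp_comp_coeff {k : ℕ} {g : Polynomial ℝ} (hg : g.natDegree < k) (z0 : ℕ) (j : ℕ) :
    (g.comp (Polynomial.X + Polynomial.C (z0 : ℝ))).coeff j
      = ∑ i ∈ range k, g.coeff i * ((z0 : ℝ) ^ (i - j) * (i.choose j : ℝ)) := by
  rw [Polynomial.comp, Polynomial.eval₂_eq_sum,
    Polynomial.sum_over_range' g (by intro n; simp) k hg, Polynomial.finsetSum_coeff]
  refine Finset.sum_congr rfl fun i _ => ?_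
  rw [Polynomial.coeff_C_mul, Polynomial.coeff_X_add_C_pow]

private theorem wp_coeff_top {k : ℕ} (θ α : ℝ) {g : Polynomial ℝ} (hg : g.natDegree < k) (z0 : ℕ) :
    (wpG k θ α g z0).coeff k = θ * α := by
  unfold wpG
  rw [Polynomial.coeff_C_mul, Polynomial.coeff_add, Polynomial.coeff_C_mul,
    Polynomial.coeff_X_add_C_pow, wp_comp_coeff hg]
  rw [Finset.sum_eq_zero]
  · simp
  · intro i hi
    rw [Nat.choose_eq_zero_of_lt (Finset.mem_range.1 hi)]
    simp

private theorem wp_coeff_snd {k : ℕ} (hk : 2 ≤ k) (θ α : ℝ) {g : Polynomial ℝ}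
    (hg : g.natDegree < k) (z0 : ℕ) :
    (wpG k θ α g z0).coeff (k - 1) = θ * (α * (k * z0) + g.coeff (k - 1)) := by
  unfold wpG
  rw [Polynomial.coeff_C_mul, Polynomial.coeff_add, Polynomial.coeff_C_mul,
    Polynomial.coeff_X_add_C_pow, wp_comp_coeff hg]
  have h1 : k - (k - 1) = 1 := by omega
  have h2 : k.choose (k - 1) = k := by
    rw [← Nat.choose_symm (by omega : k - 1 ≤ k), h1, Nat.choose_one_right]
  rw [Finset.sum_eq_single (k - 1)]
  · rw [h1, h2, Nat.choose_self, Nat.sub_self, Nat.cast_one, pow_one, pow_zero]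
    ring
  · intro i hi hne
    rw [Nat.choose_eq_zero_of_lt (by have := Finset.mem_range.1 hi; omega)]
    simp
  · intro h
    exact absurd (Finset.mem_range.2 (by omega)) h

private theorem wpG_natDegree {k : ℕ} (θ α : ℝ) {g : Polynomial ℝ} (hg : g.natDegree < k)
    (z0 : ℕ) : (wpG k θ α g z0).natDegree ≤ k := by
  unfold wpG
  refine (Polynomial.natDegree_C_mul_le _ _).trans ?_
  refine (Polynomial.natDegree_add_le _ _).trans (max_le ?_ ?_)
  · refine (Polynomial.natDegree_C_mul_le _ _).trans ?_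
    refine (Polynomial.natDegree_pow_le).trans ?_
    rw [Polynomial.natDegree_X_add_C]
    omega
  · rw [Polynomial.natDegree_comp, Polynomial.natDegree_X_add_C]
    omega

theorem weylP {k : ℕ} (hk : 2 ≤ k) : ∃ σ : ℝ, 0 < σ ∧ ∀ (α : ℝ) (g : Polynomial ℝ), 0 < α →
    g.natDegree < k → Dioph (g.coeff (k - 1) / α) →
    ∀ᶠ r : ℕ in atTop, ∀ θ : ℝ, (XX r) ^ ((1 : ℝ) / 4 - k) ≤ |θ| → |θ| ≤ (XX r) ^ σ →
      ‖∑ z ∈ J1 (XX r), e (θ * (α * (z : ℝ) ^ k + g.eval (z : ℝ)))‖ ≤ (XX r) ^ (1 - σ) := by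
  obtain ⟨C, hC1, hC⟩ := Pool.PolyMax.inverse_weyl k
  have hCr : (1 : ℝ) ≤ C := by exact_mod_cast hC1
  refine ⟨1 / (16 * ((C : ℝ) + 1)), by positivity, ?_⟩
  set σ : ℝ := 1 / (16 * ((C : ℝ) + 1)) with hσ
  have hσ0 : 0 < σ := by rw [hσ]; positivity
  have hσC : σ * ((C : ℝ) + 1) = 1 / 16 := by
    rw [hσ]
    field_simp
  intro α g hα hg hD
  obtain ⟨c, hc, hD⟩ := hD
  set x : ℝ := g.coeff (k - 1) / α with hx
  set K1 : ℝ := ((k : ℝ) + 1) * C * 8 ^ k with hK1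
  have hK10 : 0 < K1 := by rw [hK1]; positivity
  set K2 : ℝ := (|x| + 1) * K1 * (C * α + 1) ^ 2 with hK2
  have hK20 : 0 < K2 := by rw [hK2]; positivity
  have hev1 : ∀ᶠ r : ℕ in atTop, K1 / α < (XX r) ^ ((1 : ℝ) / 8) :=
    ((tendsto_rpow_atTop (by norm_num : (0 : ℝ) < 1 / 8)).comp XX_tendsto).eventually_gt_atTop _
  have hev2 : ∀ᶠ r : ℕ in atTop, K2 / c < (XX r) ^ ((1 : ℝ) / 2) :=
    ((tendsto_rpow_atTop (by norm_num : (0 : ℝ) < 1 / 2)).comp XX_tendsto).eventually_gt_atTop _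
  filter_upwards [hev1, hev2, eventually_ge_atTop 3] with r h1 h2 h3 θ hθ1 hθ2
  obtain ⟨s, rfl⟩ : ∃ s, r = s + 3 := ⟨r - 3, by omega⟩
  by_contra hcon
  push Not at hcon
  set P : ℝ := XX (s + 3) with hP
  have hP1 : 1 ≤ P := XX_ge_one _
  have hP0 : 0 < P := by linarith
  have hPL : ((2 ^ s : ℕ) : ℝ) = P / 8 := by
    rw [hP]
    unfold XX
    push_cast
    rw [pow_add]
    norm_num
  have hP8 : 8 ≤ P := by
    have : (1 : ℝ) ≤ ((2 ^ s : ℕ) : ℝ) := by exact_mod_cast Nat.one_le_two_pow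
    rw [hPL] at this
    linarith
  set T : ℝ := P ^ σ with hT
  have hT1 : 1 ≤ T := Real.one_le_rpow hP1 hσ0.le
  have hT0 : 0 < T := by linarith
  -- the sum
  rw [hP, wp_sum, ← hP] at hcon
  set z0 : ℕ := 2 ^ s + 1 with hz0
  have hsum : ∑ n ∈ range (2 ^ s), e (θ * (α * ((z0 + n : ℕ) : ℝ) ^ k + g.eval ((z0 + n : ℕ) : ℝ)))
      = ∑ n ∈ range (2 ^ s), e ((wpG k θ α g z0).eval (n : ℝ)) :=
    Finset.sum_congr rfl fun n _ => by rw [wpG_eval]
  rw [hsum] at hcon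
  have hlam : (1 : ℝ) / P ^ (-σ) = T := by
    rw [Real.rpow_neg hP0.le, one_div, inv_inv]
  obtain ⟨q, hq1, hqC, hqd⟩ := hC (wpG k θ α g z0) (2 ^ s) (P ^ (-σ)) (wpG_natDegree θ α hg z0)
    Nat.one_le_two_pow (Real.rpow_pos_of_pos hP0 _)
    (Real.rpow_le_one_of_one_le_of_nonpos hP1 (by linarith)) (by
      refine le_trans ?_ hcon.le
      rw [hPL, sub_eq_add_neg, add_comm (1 : ℝ) (-σ), Real.rpow_add hP0, Real.rpow_one]
      have : 0 < P ^ (-σ) := Real.rpow_pos_of_pos hP0 _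
      nlinarith)
  rw [hlam] at hqC hqd
  have hq0 : (1 : ℝ) ≤ q := by exact_mod_cast hq1
  have hTC0 : 0 < T ^ C := by positivity
  -- first coefficient
  have hA : dz ((q : ℝ) * (θ * α)) ≤ C * 8 ^ k * T ^ C / P ^ k := by
    have h := hqd k (by omega)
    rw [wp_coeff_top θ α hg, hPL] at h
    refine h.trans (le_of_eq ?_)
    rw [div_pow]
    field_simp
  have hz0P : (z0 : ℝ) ≤ P := by
    rw [hz0]
    push_cast
    have : (2 : ℝ) ^ s = P / 8 := by
      rw [← hPL]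
      push_cast
      rfl
    rw [this]
    linarith
  have hB : dz ((q : ℝ) * (θ * (α * (k * z0)))) ≤ k * C * 8 ^ k * T ^ C / P ^ (k - 1) := by
    have h : (q : ℝ) * (θ * (α * (k * z0))) = ((k * z0 : ℕ) : ℝ) * ((q : ℝ) * (θ * α)) := by
      push_cast
      ring
    rw [h]
    refine (Pool.PolyMax.dz_nat_mul_le _ _).trans ?_
    push_cast
    have hPk : P ^ k = P * P ^ (k - 1) := by
      rw [← pow_succ']
      congr 1
      omega
    calc (k : ℝ) * z0 * dz ((q : ℝ) * (θ * α)) ≤ k * P * (C * 8 ^ k * T ^ C / P ^ k) := by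
          refine mul_le_mul ?_ hA (Pool.PolyMax.dz_nonneg _) (by positivity)
          exact mul_le_mul_of_nonneg_left hz0P (by positivity)
      _ = k * C * 8 ^ k * T ^ C / P ^ (k - 1) := by
          rw [hPk]
          field_simp
  have hG : dz ((q : ℝ) * (θ * (α * (k * z0) + g.coeff (k - 1)))) ≤
      C * 8 ^ k * T ^ C / P ^ (k - 1) := by
    have h := hqd (k - 1) (by omega)
    rw [wp_coeff_snd hk θ α hg, hPL] at h
    refine h.trans ?_
    rw [div_pow, div_div_eq_mul_div]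
    refine div_le_div_of_nonneg_right ?_ (by positivity)
    have h8 : (8 : ℝ) ^ (k - 1) ≤ 8 ^ k := pow_le_pow_right₀ (by norm_num) (by omega)
    calc (C : ℝ) * T ^ C * 8 ^ (k - 1) ≤ C * T ^ C * 8 ^ k :=
          mul_le_mul_of_nonneg_left h8 (by positivity)
      _ = _ := by ring
  have hE : dz ((q : ℝ) * (θ * g.coeff (k - 1))) ≤ K1 * T ^ C / P ^ (k - 1) := by
    have h : (q : ℝ) * (θ * g.coeff (k - 1)) = (q : ℝ) * (θ * (α * (k * z0) + g.coeff (k - 1)))
        - (q : ℝ) * (θ * (α * (k * z0))) := by ring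
    rw [h]
    refine (Pool.PolyMax.dz_sub_le _ _).trans ((add_le_add hG hB).trans (le_of_eq ?_))
    rw [hK1]
    ring
  have hA' : dz ((q : ℝ) * (θ * α)) ≤ K1 * T ^ C / P ^ k := by
    refine hA.trans ?_
    refine div_le_div_of_nonneg_right ?_ (by positivity)
    refine mul_le_mul_of_nonneg_right ?_ hTC0.le
    rw [hK1]
    have : (0 : ℝ) ≤ k * (C * 8 ^ k) := by positivity
    nlinarith
  obtain ⟨m, hm⟩ := Pool.PolyMax.exists_int_dz ((q : ℝ) * (θ * α))
  obtain ⟨n, hn⟩ := Pool.PolyMax.exists_int_dz ((q : ℝ) * (θ * g.coeff (k - 1)))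
  rw [← hm] at hA'
  rw [← hn] at hE
  have hTCP : T ^ C ≤ P ^ ((1 : ℝ) / 8) := by
    rw [hT, ← Real.rpow_mul_natCast hP0.le]
    refine Real.rpow_le_rpow_of_exponent_le hP1 ?_
    nlinarith
  by_cases hm0 : m = 0
  · rw [hm0] at hA'
    simp only [Int.cast_zero, sub_zero] at hA'
    rw [abs_mul, abs_mul, abs_of_pos hα, Nat.abs_cast] at hA'
    have h4 : P ^ ((1 : ℝ) / 4 - k) * P ^ k = P ^ ((1 : ℝ) / 4) := by
      rw [← Real.rpow_natCast P k, ← Real.rpow_add hP0]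
      congr 1
      ring
    have h5 : α * P ^ ((1 : ℝ) / 4) ≤ K1 * T ^ C := by
      rw [le_div_iff₀ (by positivity)] at hA'
      refine le_trans ?_ hA'
      rw [← h4]
      have h6 : P ^ ((1 : ℝ) / 4 - k) * α ≤ (q : ℝ) * (|θ| * α) := by
        have : P ^ ((1 : ℝ) / 4 - k) * α ≤ |θ| * α := mul_le_mul_of_nonneg_right hθ1 hα.le
        have h7 : 0 ≤ |θ| * α := by positivity
        nlinarith
      calc α * (P ^ ((1 : ℝ) / 4 - k) * P ^ k) = P ^ ((1 : ℝ) / 4 - k) * α * P ^ k := by ring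
        _ ≤ _ := mul_le_mul_of_nonneg_right h6 (by positivity)
    have h6 : P ^ ((1 : ℝ) / 4) = P ^ ((1 : ℝ) / 8) * P ^ ((1 : ℝ) / 8) := by
      rw [← Real.rpow_add hP0]
      norm_num
    rw [div_lt_iff₀ hα] at h1
    have h7 : 0 < P ^ ((1 : ℝ) / 8) := Real.rpow_pos_of_pos hP0 _
    have h8 : K1 * T ^ C ≤ K1 * P ^ ((1 : ℝ) / 8) := mul_le_mul_of_nonneg_left hTCP hK10.le
    have h9 : K1 * P ^ ((1 : ℝ) / 8) < P ^ ((1 : ℝ) / 8) * α * P ^ ((1 : ℝ) / 8) :=
      mul_lt_mul_of_pos_right h1 h7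
    rw [h6] at h5
    nlinarith
  · -- the main case
    have hgx : g.coeff (k - 1) = x * α := by
      rw [hx]
      field_simp
    set M : ℕ := m.natAbs with hM
    have hM1 : 1 ≤ M := Int.natAbs_pos.2 hm0
    have hMr : (M : ℝ) = |(m : ℝ)| := by
      rw [hM, Nat.cast_natAbs, Int.cast_abs]
    have hMle : (M : ℝ) ≤ (C * α + 1) * T ^ (C + 1) := by
      rw [hMr]
      have h4 : |(m : ℝ)| ≤ |(q : ℝ) * (θ * α)| + |(q : ℝ) * (θ * α) - m| := by
        have := abs_sub_abs_le_abs_sub (m : ℝ) ((q : ℝ) * (θ * α))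
        rw [abs_sub_comm (m : ℝ)] at this
        linarith
      have h5 : |(q : ℝ) * (θ * α) - m| ≤ 1 := by
        rw [hm]
        linarith [Pool.PolyMax.dz_le_half ((q : ℝ) * (θ * α))]
      have h6 : |(q : ℝ) * (θ * α)| ≤ C * T ^ C * (T * α) := by
        rw [abs_mul, abs_mul, abs_of_pos hα, Nat.abs_cast]
        refine mul_le_mul hqC ?_ (by positivity) (by positivity)
        exact mul_le_mul_of_nonneg_right hθ2 hα.le
      have h7 : (1 : ℝ) ≤ T ^ (C + 1) := one_le_pow₀ hT1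
      calc |(m : ℝ)| ≤ C * T ^ C * (T * α) + 1 := by linarith
        _ ≤ C * T ^ C * (T * α) + T ^ (C + 1) := by linarith
        _ = (C * α + 1) * T ^ (C + 1) := by
            rw [pow_succ]
            ring
    have hlow : c / (M : ℝ) ^ 2 ≤ |x * m - n| := by
      have hMpos : (0 : ℝ) < M := by exact_mod_cast hM1
      have key : |x * m - n| = M * |x - ((m.sign * n : ℤ) : ℝ) / M| := by
        have h4 : (m : ℝ) = (m.sign : ℝ) * M := by
          rw [hMr]
          have h := Int.sign_mul_abs m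
          exact_mod_cast h.symm
        have h5 : (m.sign : ℝ) * (m.sign : ℝ) = 1 := by
          have : m.sign * m.sign = 1 := by
            rcases lt_or_gt_of_ne hm0 with h | h
            · rw [Int.sign_eq_neg_one_of_neg h]
              norm_num
            · rw [Int.sign_eq_one_of_pos h]
              norm_num
          exact_mod_cast this
        have h6 : |(m.sign : ℝ)| = 1 := by
          have := congrArg Real.sqrt h5
          rw [Real.sqrt_mul_self_eq_abs, Real.sqrt_one] at this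
          exact this
        have h7 : x * m - n = (m.sign : ℝ) * (M * (x - ((m.sign * n : ℤ) : ℝ) / M)) := by
          rw [mul_sub, mul_div_cancel₀ _ hMpos.ne', h4]
          push_cast
          have : (m.sign : ℝ) * ((m.sign : ℝ) * n) = n := by rw [← mul_assoc, h5, one_mul]
          rw [mul_sub, this]
          ring
        rw [h7, abs_mul, h6, one_mul, abs_mul, abs_of_pos hMpos]
      rw [key]
      have h4 := hD M hM1 (m.sign * n)
      calc c / (M : ℝ) ^ 2 = M * (c / (M : ℝ) ^ 3) := by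
            field_simp
        _ ≤ _ := mul_le_mul_of_nonneg_left h4 hMpos.le
    have hup : |x * m - n| ≤ (|x| + 1) * K1 * T ^ C / P := by
      have h4 : x * m - n = -(x * ((q : ℝ) * (θ * α) - m))
          + ((q : ℝ) * (θ * g.coeff (k - 1)) - n) := by
        rw [hgx]
        ring
      have h5 : |x * ((q : ℝ) * (θ * α) - m)| ≤ |x| * (K1 * T ^ C / P ^ k) := by
        rw [abs_mul]
        exact mul_le_mul_of_nonneg_left hA' (abs_nonneg _)
      have hPk : P ≤ P ^ k := le_self_pow₀ hP1 (by omega)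
      have hPk1 : P ≤ P ^ (k - 1) := le_self_pow₀ hP1 (by omega)
      have h6 : K1 * T ^ C / P ^ k ≤ K1 * T ^ C / P :=
        div_le_div_of_nonneg_left (by positivity) hP0 hPk
      have h7 : K1 * T ^ C / P ^ (k - 1) ≤ K1 * T ^ C / P :=
        div_le_div_of_nonneg_left (by positivity) hP0 hPk1
      rw [h4]
      refine (abs_add_le _ _).trans ?_
      rw [abs_neg]
      calc |x * ((q : ℝ) * (θ * α) - m)| + |(q : ℝ) * (θ * g.coeff (k - 1)) - n|
          ≤ |x| * (K1 * T ^ C / P) + K1 * T ^ C / P := by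
            refine add_le_add (h5.trans ?_) (hE.trans h7)
            exact mul_le_mul_of_nonneg_left h6 (abs_nonneg _)
        _ = (|x| + 1) * K1 * T ^ C / P := by ring
    have hMpos : (0 : ℝ) < M := by exact_mod_cast hM1
    have h4 : c / (M : ℝ) ^ 2 ≤ (|x| + 1) * K1 * T ^ C / P := hlow.trans hup
    rw [div_le_div_iff₀ (by positivity) hP0] at h4
    have h5 : (M : ℝ) ^ 2 ≤ (C * α + 1) ^ 2 * T ^ (2 * (C + 1)) := by
      calc (M : ℝ) ^ 2 ≤ ((C * α + 1) * T ^ (C + 1)) ^ 2 := pow_le_pow_left₀ hMpos.le hMle 2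
        _ = _ := by rw [mul_pow, ← pow_mul, mul_comm (C + 1) 2]
    have h6 : T ^ C * T ^ (2 * (C + 1)) ≤ P ^ ((1 : ℝ) / 2) := by
      rw [← pow_add]
      refine (pow_le_pow_right₀ hT1 (by omega : C + 2 * (C + 1) ≤ 3 * (C + 1))).trans ?_
      rw [hT, ← Real.rpow_mul_natCast hP0.le]
      refine Real.rpow_le_rpow_of_exponent_le hP1 ?_
      push_cast
      nlinarith
    have h7 : c * P ≤ K2 * P ^ ((1 : ℝ) / 2) := by
      calc c * P ≤ (|x| + 1) * K1 * T ^ C * (M : ℝ) ^ 2 := h4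
        _ ≤ (|x| + 1) * K1 * T ^ C * ((C * α + 1) ^ 2 * T ^ (2 * (C + 1))) :=
            mul_le_mul_of_nonneg_left h5 (by positivity)
        _ = K2 * (T ^ C * T ^ (2 * (C + 1))) := by
            rw [hK2]
            ring
        _ ≤ _ := mul_le_mul_of_nonneg_left h6 hK20.le
    have h8 : P = P ^ ((1 : ℝ) / 2) * P ^ ((1 : ℝ) / 2) := by
      rw [← Real.rpow_add hP0]
      norm_num
    rw [div_lt_iff₀ hc] at h2
    have h9 : 0 < P ^ ((1 : ℝ) / 2) := Real.rpow_pos_of_pos hP0 _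
    have h10 : K2 * P ^ ((1 : ℝ) / 2) < P ^ ((1 : ℝ) / 2) * c * P ^ ((1 : ℝ) / 2) :=
      mul_lt_mul_of_pos_right h2 h9
    have h11 : P ^ ((1 : ℝ) / 2) * c * P ^ ((1 : ℝ) / 2) = c * P := by
      nth_rewrite 3 [h8]
      ring
    linarith

end FWar
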