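import Pool.Agent.FWar.AeK
import Pool.Agent.FWar.Asm1
import Pool.Agent.FWar.Dioph
import Pool.Agent.FWar.WeylP
import Pool.Agent.MWg.GoodF

/-!
# FWar.FinK: 2k + 1 terms for almost every polynomial of degree k

`k = n + 1`, `n ≥ 1`. PROOF. For `α > 0` and `c : Fin k → ℝ` the function is
`f x = α x^k + ∑_j c_j x^j = α hc (c/α) x`. Almost every `c` satisfies: (a) the conclusion of `aeK` at
`c/α` (the dilation `c ↦ α⁻¹ c` of `Fin k → ℝ` preserves null sets); (b) `Dioph (c_n/α)` (`c_n` the last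
coordinate; `ae_dioph_affine` with `b = 0` and the projection to the last coordinate, which is quasi
measure preserving: `MeasureTheory.Measure.quasiMeasurePreserving_eval` or
`volume_preserving_piFinSuccAbove`). Fix such a `c`.

Let `σ > 0` be the constant of `weylP` for `k`. Apply `floor_basis1` with `κ = k ≥ 2 ≥ 5/4`, this `α`,
`f`, `d = n` and `W r` = the set of the lists `[y 0, ..., y (n-1)]` (`List.ofFn y`) with
`y i ∈ RR (i+1) (XX r)`, `y : Fin n → ℕ`; then `(u, l) ↦` the word `Fin.cons u y ∈ Wk n P` is a bijection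
of `mainI P × W r` onto `Wk n P`, `f u + rs f l = ∑ i, f (x i)`.
* `Grow k α f`: `hc (c/α)` is `Good k` (`good_pow`, `good_add_pow`; compare the proof of
  `FWar.floor_poly` in `Pool/Agent/FWar/FinP.lean`).
* `hU`: `weylP` for the polynomial `g = ∑_j c_j X^j` (degree `< k`, coefficient of `X^(k-1)` is `c_n`).
* `hlen`, `hpos`, `hne`: clear (`RR (i+1) P` is nonempty for large `P`).
* `hS`: `|f v| ≤ (5/4) α v^k` for large `v` and `v ≤ P/4^i` for the `i`-th letter, so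
  `|rs f l| ≤ (5/4) α P^k ∑_{i ≥ 1} 4^(-ik) ≤ (5/4) α P^k/15 ≤ α P^k/4` (all letters tend to infinity with
  `P`).
* `hN`: `|∑ f (x i) - ∑ f (x' i)| ≤ n + 1` means `|∑ hc (c/α) (x i) - ∑ hc (c/α) (x' i)| ≤ (n+1)/α`:
  `aeK` with `M = (n+1)/α`, `ε = σ/8`.
The number of terms is `2n + 3 = 2k + 1`.
-/

namespace FWar

open MWg Finset MeasureTheory Filter Topology

private theorem FinK_good {k : ℕ} (hk : 1 ≤ k) (c : ℕ → ℝ) (n : ℕ) (hn : n ≤ k) :
    Good k (fun x => (x : ℝ) ^ k + ∑ i ∈ range n, c i * (x : ℝ) ^ i) := by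
  induction n with
  | zero => simpa using good_pow hk
  | succ n ih =>
    have h1 := good_add_pow (by omega : n < k) (ih (by omega)) (c n)
    convert h1 using 2
    rw [sum_range_succ]
    ring

private theorem FinK_hc {k : ℕ} (hk : 1 ≤ k) (c : Fin k → ℝ) : Good k (hc c) := by
  have h1 := FinK_good hk (fun i => if h : i < k then c ⟨i, h⟩ else 0) k le_rfl
  convert h1 using 1
  funext x
  unfold hc
  congr 1
  rw [Finset.sum_fin_eq_sum_range]
  refine sum_congr rfl fun i hi => ?_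
  have hi' := Finset.mem_range.1 hi
  rw [dif_pos hi', dif_pos hi']

private theorem FinK_grow {k : ℕ} (hk : 2 ≤ k) {α : ℝ} (hα : 0 < α) {h : ℕ → ℝ} (hh : Good k h) :
    Grow k α (fun x => α * h x) := by
  refine ⟨hα, ?_, ?_⟩
  · have h1 := (good_lim (by omega : 1 ≤ k) hh).const_mul α
    rw [mul_one] at h1
    refine h1.congr fun x => ?_
    rw [Real.rpow_natCast, mul_div_assoc]
  · obtain ⟨x0, hx0⟩ := good_step hk hh
    refine ⟨α * (2 * k * 2 ^ (k - 1)), ?_⟩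
    filter_upwards [eventually_ge_atTop x0, eventually_ge_atTop 1] with x hx hx1
    obtain ⟨h1, h2⟩ := hx0 x (x + 1) hx (Nat.le_succ x)
    have hx1' : (1 : ℝ) ≤ x := by exact_mod_cast hx1
    have e1 : (((x + 1 : ℕ) : ℝ) - x) = 1 := by push_cast; ring
    rw [e1, mul_one] at h1 h2
    have e2 : (x : ℝ) ^ ((k : ℝ) - 1) = (x : ℝ) ^ (k - 1) := by
      rw [← Real.rpow_natCast, Nat.cast_sub (by omega : 1 ≤ k), Nat.cast_one]
    have h3 : (((x + 1 : ℕ) : ℝ)) ^ (k - 1) ≤ (2 * (x : ℝ)) ^ (k - 1) := by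
      apply pow_le_pow_left₀ (by positivity)
      push_cast
      linarith
    rw [mul_pow] at h3
    have h4 : (0 : ℝ) ≤ (x : ℝ) ^ (k - 1) := by positivity
    refine ⟨?_, ?_⟩
    · rw [← mul_sub]
      exact mul_nonneg hα.le (by linarith)
    · rw [← mul_sub, e2, mul_assoc α]
      apply mul_le_mul_of_nonneg_left _ hα.le
      calc h (x + 1) - h x ≤ 2 * k * ((x + 1 : ℕ) : ℝ) ^ (k - 1) := h2
        _ ≤ 2 * k * (2 ^ (k - 1) * (x : ℝ) ^ (k - 1)) :=
            mul_le_mul_of_nonneg_left h3 (by positivity)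
        _ = 2 * k * 2 ^ (k - 1) * (x : ℝ) ^ (k - 1) := by ring

private theorem FinK_ae_smul {m : ℕ} {p : (Fin m → ℝ) → Prop} {α : ℝ} (hα : α ≠ 0)
    (h : ∀ᵐ s : Fin m → ℝ, p s) : ∀ᵐ t : Fin m → ℝ, p (α⁻¹ • t) := by
  have h1 : Measure.QuasiMeasurePreserving (fun t : Fin m → ℝ => α⁻¹ • t) volume volume := by
    refine ⟨measurable_const_smul _, ?_⟩
    rw [Measure.map_addHaar_smul volume (inv_ne_zero hα)]
    exact Measure.smul_absolutelyContinuous
  exact h1.ae h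

private theorem FinK_ae_eval {m : ℕ} {p : ℝ → Prop} (j : Fin m)
    (h : ∀ᵐ s : ℝ, p s) : ∀ᵐ t : Fin m → ℝ, p (t j) := by
  have h1 : Measure.QuasiMeasurePreserving (Function.eval j) (volume : Measure (Fin m → ℝ))
      (volume : Measure ℝ) := Measure.quasiMeasurePreserving_eval (fun _ => volume) j
  exact h1.ae h

private theorem FinK_pairs_image {ι ι' : Type*} [DecidableEq ι'] (W : Finset ι) {φ : ι → ι'}
    (hφ : Function.Injective φ) (p : ι' × ι' → Prop) :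
    pairs (W.image φ) p = pairs W (fun q => p (φ q.1, φ q.2)) := by
  classical
  unfold pairs
  have h1 : ((W.image φ) ×ˢ (W.image φ)).filter p =
      ((W ×ˢ W).filter (fun q => p (φ q.1, φ q.2))).image (Prod.map φ φ) := by
    ext ⟨a, b⟩
    simp only [Finset.mem_filter, Finset.mem_product, Finset.mem_image, Prod.map, Prod.mk.injEq,
      Prod.exists]
    constructor
    · rintro ⟨⟨⟨a', ha', rfl⟩, ⟨b', hb', rfl⟩⟩, hp⟩
      exact ⟨a', b', ⟨⟨ha', hb'⟩, hp⟩, rfl, rfl⟩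
    · rintro ⟨a', b', ⟨⟨ha', hb'⟩, hp⟩, rfl, rfl⟩
      exact ⟨⟨⟨a', ha', rfl⟩, ⟨b', hb', rfl⟩⟩, hp⟩
  have h2 := Finset.card_image_of_injective ((W ×ˢ W).filter (fun q => p (φ q.1, φ q.2)))
    (hφ.prodMap hφ)
  rw [← h1] at h2
  norm_cast

/-- The words without the first letter, as lists. -/
private noncomputable def FinK_W (n : ℕ) (P : ℝ) : Finset (List ℕ) :=
  (Fintype.piFinset fun i : Fin n => RR ((i : ℕ) + 1) P).image List.ofFn

private def FinK_phi (n : ℕ) (x : Fin (n + 1) → ℕ) : ℕ × List ℕ := (x 0, List.ofFn (Fin.tail x))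

private theorem FinK_phi_inj (n : ℕ) : Function.Injective (FinK_phi n) := by
  intro x y h
  unfold FinK_phi at h
  rw [Prod.mk.injEq] at h
  obtain ⟨h0, h1⟩ := h
  have h2 := List.ofFn_injective h1
  funext i
  refine Fin.cases h0 (fun j => ?_) i
  exact congrFun h2 j

private theorem FinK_image (n : ℕ) (P : ℝ) :
    mainI P ×ˢ FinK_W n P = (Wk n P).image (FinK_phi n) := by
  ext ⟨u, l⟩
  unfold FinK_W Wk FinK_phi
  simp only [Finset.mem_product, Finset.mem_image, Fintype.mem_piFinset, Prod.mk.injEq]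
  constructor
  · rintro ⟨hu, y, hy, rfl⟩
    refine ⟨Fin.cons u y, fun i => ?_, rfl, ?_⟩
    · refine Fin.cases ?_ (fun j => ?_) i
      · rw [Fin.cons_zero]
        unfold RR
        rw [if_pos (by simp)]
        exact hu
      · rw [Fin.cons_succ, Fin.val_succ]
        exact hy j
    · rw [Fin.tail_cons]
  · rintro ⟨x, hx, rfl, rfl⟩
    refine ⟨?_, Fin.tail x, fun j => ?_, rfl⟩
    · have h := hx 0
      unfold RR at h
      rwa [if_pos (by simp)] at h
    · have h := hx j.succ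
      rw [Fin.val_succ] at h
      exact h

private theorem FinK_rs (n : ℕ) (f : ℕ → ℝ) (x : Fin (n + 1) → ℕ) :
    f (FinK_phi n x).1 + rs f (FinK_phi n x).2 = ∑ i, f (x i) := by
  unfold FinK_phi rs
  rw [Fin.sum_univ_succ, List.map_ofFn, List.sum_ofFn]
  rfl

private theorem FinK_mem_RR {i : ℕ} {P : ℝ} (hP : 0 ≤ P) {v : ℕ} (hv : v ∈ RR (i + 1) P) :
    P / 2 ^ (2 * (i + 1) + 1) < v ∧ (v : ℝ) ≤ P / 2 ^ (2 * (i + 1)) := by
  unfold RR at hv
  rw [if_neg (Nat.succ_ne_zero i), Finset.mem_Ioc] at hv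
  exact ⟨(Nat.floor_lt (by positivity)).1 hv.1, (Nat.le_floor_iff (by positivity)).1 hv.2⟩

private theorem FinK_geo (n : ℕ) : ∑ i ∈ range n, (1 / 16 : ℝ) ^ (i + 1) ≤ 1 / 15 := by
  have h : ∑ i ∈ range n, (1 / 16 : ℝ) ^ (i + 1) = 1 / 15 * (1 - (1 / 16 : ℝ) ^ n) := by
    induction n with
    | zero => simp
    | succ n ih =>
      rw [sum_range_succ, ih, pow_succ]
      ring
  rw [h]
  have : (0 : ℝ) ≤ (1 / 16 : ℝ) ^ n := by positivity
  nlinarith

private theorem FinK_S {n : ℕ} (hn : 1 ≤ n) {α : ℝ} (hα : 0 < α) {h : ℕ → ℝ}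
    (hh : Good (n + 1) h) :
    ∀ᶠ r : ℕ in atTop, ∀ w ∈ FinK_W n (XX r),
      |rs (fun x => α * h x) w| ≤ α * (XX r) ^ ((n + 1 : ℕ) : ℝ) / 4 := by
  have hlim := good_lim (by omega : 1 ≤ n + 1) hh
  have h1 : ∀ᶠ x : ℕ in atTop, h x / (x : ℝ) ^ (n + 1) < 5 / 4 :=
    hlim.eventually (gt_mem_nhds (by norm_num))
  have h2 : ∀ᶠ x : ℕ in atTop, (-(5 / 4) : ℝ) < h x / (x : ℝ) ^ (n + 1) :=
    hlim.eventually (lt_mem_nhds (by norm_num))
  obtain ⟨x0, hx0⟩ := eventually_atTop.1 (h1.and h2)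
  filter_upwards [XX_tendsto.eventually_ge_atTop (((x0 : ℝ) + 1) * 2 ^ (2 * n + 1))] with r hr w hw
  have hP0 : 0 < XX r := XX_pos r
  unfold FinK_W at hw
  obtain ⟨y, hy, rfl⟩ := Finset.mem_image.1 hw
  rw [Fintype.mem_piFinset] at hy
  have hrs : rs (fun x => α * h x) (List.ofFn y) = ∑ i, α * h (y i) := by
    unfold rs
    rw [List.map_ofFn, List.sum_ofFn]
    rfl
  rw [hrs, Real.rpow_natCast]
  have hterm : ∀ i : Fin n, |α * h (y i)| ≤ 5 / 4 * α * (XX r) ^ (n + 1) * (1 / 16 : ℝ) ^ ((i : ℕ) + 1) := by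
    intro i
    obtain ⟨hlo, hhi⟩ := FinK_mem_RR hP0.le (hy i)
    have hi : (i : ℕ) + 1 ≤ n := i.2
    have hge : (x0 : ℝ) + 1 < y i := by
      refine lt_of_le_of_lt ?_ hlo
      rw [le_div_iff₀ (by positivity)]
      refine le_trans ?_ hr
      refine mul_le_mul_of_nonneg_left ?_ (by positivity)
      exact pow_le_pow_right₀ (by norm_num) (by omega)
    have hge' : x0 ≤ y i := by
      have : (x0 : ℝ) ≤ y i := by linarith
      exact_mod_cast this
    have hpos : (0 : ℝ) < y i := by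
      have := Nat.cast_nonneg (α := ℝ) x0
      linarith
    obtain ⟨h3, h4⟩ := hx0 (y i) hge'
    have hvk : (0 : ℝ) < (y i : ℝ) ^ (n + 1) := by positivity
    rw [div_lt_iff₀ hvk] at h3
    rw [lt_div_iff₀ hvk] at h4
    have h5 : |h (y i)| ≤ 5 / 4 * (y i : ℝ) ^ (n + 1) := abs_le.2 ⟨by linarith, by linarith⟩
    have h6 : (y i : ℝ) ^ (n + 1) ≤ (XX r) ^ (n + 1) * (1 / 16 : ℝ) ^ ((i : ℕ) + 1) := by
      calc (y i : ℝ) ^ (n + 1) ≤ (XX r / 2 ^ (2 * ((i : ℕ) + 1))) ^ (n + 1) :=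
            pow_le_pow_left₀ hpos.le hhi _
        _ = (XX r) ^ (n + 1) * ((1 / 4 : ℝ) ^ ((i : ℕ) + 1)) ^ (n + 1) := by
            rw [div_pow, pow_mul, div_eq_mul_inv]
            congr 1
            rw [← inv_pow, ← inv_pow]
            norm_num
        _ ≤ (XX r) ^ (n + 1) * ((1 / 4 : ℝ) ^ ((i : ℕ) + 1)) ^ 2 := by
            refine mul_le_mul_of_nonneg_left ?_ (by positivity)
            exact pow_le_pow_of_le_one (by positivity)
              (pow_le_one₀ (by norm_num) (by norm_num)) (by omega)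
        _ = (XX r) ^ (n + 1) * (1 / 16 : ℝ) ^ ((i : ℕ) + 1) := by
            rw [← pow_mul, mul_comm ((i : ℕ) + 1) 2, pow_mul]
            norm_num
    rw [abs_mul, abs_of_pos hα]
    calc α * |h (y i)| ≤ α * (5 / 4 * (y i : ℝ) ^ (n + 1)) := mul_le_mul_of_nonneg_left h5 hα.le
      _ ≤ α * (5 / 4 * ((XX r) ^ (n + 1) * (1 / 16 : ℝ) ^ ((i : ℕ) + 1))) := by
          refine mul_le_mul_of_nonneg_left ?_ hα.le
          linarith
      _ = _ := by ring
  calc |∑ i, α * h (y i)| ≤ ∑ i, |α * h (y i)| := Finset.abs_sum_le_sum_abs _ _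
    _ ≤ ∑ i : Fin n, 5 / 4 * α * (XX r) ^ (n + 1) * (1 / 16 : ℝ) ^ ((i : ℕ) + 1) :=
        Finset.sum_le_sum fun i _ => hterm i
    _ = 5 / 4 * α * (XX r) ^ (n + 1) * ∑ i ∈ range n, (1 / 16 : ℝ) ^ (i + 1) := by
        rw [← Finset.mul_sum, Fin.sum_univ_eq_sum_range (fun i => (1 / 16 : ℝ) ^ (i + 1)) n]
    _ ≤ 5 / 4 * α * (XX r) ^ (n + 1) * (1 / 15) :=
        mul_le_mul_of_nonneg_left (FinK_geo n) (by positivity)
    _ ≤ α * (XX r) ^ (n + 1) / 4 := by
        have : 0 ≤ α * (XX r) ^ (n + 1) := by positivity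
        nlinarith

private noncomputable def FinK_g {n : ℕ} (c : Fin (n + 1) → ℝ) : Polynomial ℝ :=
  ∑ j : Fin (n + 1), Polynomial.C (c j) * Polynomial.X ^ (j : ℕ)

private theorem FinK_g_eval {n : ℕ} (c : Fin (n + 1) → ℝ) (x : ℝ) :
    (FinK_g c).eval x = ∑ j : Fin (n + 1), c j * x ^ (j : ℕ) := by
  unfold FinK_g
  rw [Polynomial.eval_finsetSum]
  refine sum_congr rfl fun j _ => ?_
  simp

private theorem FinK_g_deg {n : ℕ} (c : Fin (n + 1) → ℝ) : (FinK_g c).natDegree < n + 1 := by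
  unfold FinK_g
  refine Nat.lt_succ_of_le (Polynomial.natDegree_sum_le_of_forall_le _ _ fun j _ => ?_)
  refine (Polynomial.natDegree_C_mul_X_pow_le _ _).trans ?_
  omega

private theorem FinK_g_coeff {n : ℕ} (c : Fin (n + 1) → ℝ) :
    (FinK_g c).coeff n = c (Fin.last n) := by
  unfold FinK_g
  rw [Polynomial.finsetSum_coeff, Finset.sum_eq_single (Fin.last n)]
  · simp
  · intro j _ hj
    rw [Polynomial.coeff_C_mul_X_pow, if_neg]
    intro h
    exact hj (Fin.ext (by rw [Fin.val_last]; exact h.symm))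
  · intro h
    exact absurd (Finset.mem_univ _) h

theorem floor_polyK {n : ℕ} (hn : 1 ≤ n) {α : ℝ} (hα : 0 < α) :
    ∀ᵐ c : Fin (n + 1) → ℝ, ∃ N0 : ℤ, ∀ N : ℤ, N0 ≤ N → ∃ l : List ℕ, l.length = 2 * n + 3 ∧
      (∀ m ∈ l, 1 ≤ m) ∧
      fs (fun x => α * (x : ℝ) ^ (n + 1) + ∑ j : Fin (n + 1), c j * (x : ℝ) ^ (j : ℕ)) l = N := by
  obtain ⟨σ, hσ, hW⟩ := weylP (by omega : 2 ≤ n + 1)
  have hA := FinK_ae_smul hα.ne' (aeK n)
  have hD : ∀ᵐ c : Fin (n + 1) → ℝ, Dioph ((0 + c (Fin.last n)) / α) :=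
    FinK_ae_eval (Fin.last n) (ae_dioph_affine (b := 0) hα.ne')
  filter_upwards [hA, hD] with c hcA hcD
  rw [zero_add] at hcD
  have hh := FinK_hc (by omega : 1 ≤ n + 1) (α⁻¹ • c)
  have hfeq : (fun x : ℕ => α * (x : ℝ) ^ (n + 1) + ∑ j : Fin (n + 1), c j * (x : ℝ) ^ (j : ℕ)) =
      fun x : ℕ => α * hc (α⁻¹ • c) x := by
    funext x
    unfold hc
    rw [mul_add, Finset.mul_sum]
    congr 1
    refine sum_congr rfl fun j _ => ?_
    rw [Pi.smul_apply, smul_eq_mul, ← mul_assoc, mul_inv_cancel_left₀ hα.ne']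
  rw [hfeq]
  have hkr : (2 : ℝ) ≤ ((n + 1 : ℕ) : ℝ) := by exact_mod_cast (by omega : 2 ≤ n + 1)
  refine floor_basis1 (κ := ((n + 1 : ℕ) : ℝ)) (α := α) (σ := σ)
    (f := fun x : ℕ => α * hc (α⁻¹ • c) x)
    (d := n) (W := fun r => FinK_W n (XX r))
    (by linarith) hσ (FinK_grow (by omega) hα hh) ?_ ?_ ?_ ?_ (FinK_S hn hα hh) ?_
  · -- Weyl
    have hco : (FinK_g c).coeff (n + 1 - 1) = c (Fin.last n) := by
      rw [Nat.add_sub_cancel]
      exact FinK_g_coeff c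
    have h1 := hW α (FinK_g c) hα (FinK_g_deg c) (by rw [hco]; exact hcD)
    filter_upwards [h1] with r hr θ hθ1 hθ2
    have h2 := hr θ hθ1 hθ2
    refine le_trans (le_of_eq ?_) h2
    congr 1
    refine sum_congr rfl fun z _ => ?_
    congr 2
    rw [FinK_g_eval]
    exact (congrFun hfeq z).symm
  · intro r w hw
    unfold FinK_W at hw
    obtain ⟨y, -, rfl⟩ := Finset.mem_image.1 hw
    exact List.length_ofFn
  · intro r w hw m hm
    unfold FinK_W at hw
    obtain ⟨y, hy, rfl⟩ := Finset.mem_image.1 hw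
    rw [Fintype.mem_piFinset] at hy
    rw [List.mem_ofFn] at hm
    obtain ⟨i, rfl⟩ := hm
    have h := hy i
    unfold RR at h
    rw [if_neg (Nat.succ_ne_zero _), Finset.mem_Ioc] at h
    omega
  · -- nonempty
    filter_upwards [XX_tendsto.eventually_ge_atTop (2 ^ (2 * n + 1))] with r hr
    unfold FinK_W
    refine Finset.Nonempty.image (Fintype.piFinset_nonempty.2 fun i => ?_) _
    unfold RR
    rw [if_neg (Nat.succ_ne_zero _), Finset.nonempty_Ioc]
    have hi : (i : ℕ) + 1 ≤ n := i.2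
    have h1 : 1 ≤ XX r / 2 ^ (2 * ((i : ℕ) + 1) + 1) := by
      rw [le_div_iff₀ (by positivity), one_mul]
      refine le_trans ?_ hr
      exact pow_le_pow_right₀ (by norm_num) (by omega)
    have h2 : XX r / 2 ^ (2 * ((i : ℕ) + 1)) = 2 * (XX r / 2 ^ (2 * ((i : ℕ) + 1) + 1)) := by
      rw [pow_succ]
      field_simp
    rw [h2]
    refine Nat.lt_of_succ_le ?_
    rw [Nat.succ_eq_add_one, ← Nat.floor_add_one (by positivity)]
    exact Nat.floor_le_floor (by linarith)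
  · -- coincidences
    have h1 := hcA (((n : ℝ) + 1) / α) (σ / 8) (by linarith)
    filter_upwards [h1] with r hr
    rw [FinK_image, FinK_pairs_image _ (FinK_phi_inj n),
      Finset.card_image_of_injective _ (FinK_phi_inj n), Real.rpow_natCast]
    refine le_trans (pairs_mono _ ?_) hr
    intro w _ w' _ hww
    have e1 := FinK_rs n (fun x : ℕ => α * hc (α⁻¹ • c) x) w
    have e2 := FinK_rs n (fun x : ℕ => α * hc (α⁻¹ • c) x) w'
    rw [e1, e2, ← Finset.mul_sum, ← Finset.mul_sum, ← mul_sub, abs_mul, abs_of_pos hα] at hww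
    rwa [le_div_iff₀' hα]

end FWar
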