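import Pool.Agent.FWar.AeP
import Pool.Agent.FWar.Asm
import Pool.Agent.FWar.Dioph
import Pool.Agent.FWar.WeylP

/-!
# FWar.FinP: integer parts of polynomials

PROOF. Monic part: `f0 x = x^k + g(x)/α` is `Good k` (`good_pow`, `good_add_pow` for each monomial;
the constant term does not change the increments). `pw x = x^(k-1)`. For `t` put `t' = t/α` and
`h x = f0 x + t' x^(k-1)`, `f x = α h x = α x^k + g(x) + t x^(k-1)`.

Almost every `t` satisfies: (a) the conclusion of `aeP` for `f0` at `t' = t/α` (the null set of `aeP`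
is dilated by `α ≠ 0`); (b) `Dioph ((g.coeff (k-1) + t)/α)` (`ae_dioph_affine`). Fix such a `t`.

Let `σ > 0` be the constant of `weylP`. Apply `floor_basis` with `κ = k ≥ 2 ≥ 3/2`, this `α`,
`f`, `d = 2(k-2) + 1 + 1 = 2k - 2` and `W r = tl (nxt k) 1 (k-2) (XX r)`, so that
`mainI × W r` corresponds to `mix (nxt k) 1 (k-1) (XX r)` (`card_tl`, `pairs_tl`, `k - 2 + 1 = k - 1`):
* `Grow k α f`: `f x/x^k → α` and the increments are `≥ 0` and `≤ C x^(k-1)` for large `x`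
  (`good_lim`, `good_step` for the `Good k` function `h`; real powers with natural exponents are
  powers).
* `hU`: `weylP` for the polynomial `g + C t * X^(k-1)` of degree `< k`, whose coefficient of
  `X^(k-1)` is `g.coeff (k-1) + t`.
* `hlen`, `hpos`: `tl_len`, `tl_pos` (`2(k-2) + 1 + 1 = 2k - 2`).
* `hne`: `tl_nonempty` (scales tend to infinity, `nxt_iter_tendsto`).
* `hS`: a word of `W r` is `v :: w`, `v ∈ J1 P`, `w ∈ mix (nxt k) 1 (k-2) (nxt k P)`;
  `|f v| ≤ (3/2) α (P/4)^k ≤ (3/32) α P^k` for large `P` and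
  `|rs f w| ≤ C (nxt k P)^k = C k 16^k P^(k-1) ≤ α P^k/16` for large `P` (`mix_rs_bound` for `h`, times
  `α`).
* `hN`: `(f u + rs f w) = rs f (u :: w) = α (rs f0 (u::w) + t' rs pw (u::w))` (`rs_lin`), so the
  condition `|..| ≤ d + 1` is the condition of `aeP` with `M = (d+1)/α`; take `ε = σ/4`.
The conclusion has `2(d + 2) = 4k` terms.
-/

namespace FWar

open MWg Finset MeasureTheory Filter Topology

private theorem FinP_good {k : ℕ} (hk : 2 ≤ k) (c : ℕ → ℝ) (n : ℕ) (hn : n ≤ k) :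
    Good k (fun x => (x : ℝ) ^ k + ∑ i ∈ range n, c i * (x : ℝ) ^ i) := by
  induction n with
  | zero => simpa using good_pow (by omega : 1 ≤ k)
  | succ n ih =>
    have h1 := good_add_pow (by omega : n < k) (ih (by omega)) (c n)
    convert h1 using 2
    rw [sum_range_succ]
    ring

private theorem FinP_good0 {k : ℕ} (hk : 2 ≤ k) (α : ℝ) (g : Polynomial ℝ) (hg : g.natDegree < k) :
    Good k (fun x => (x : ℝ) ^ k + g.eval (x : ℝ) / α) := by
  have h1 := FinP_good hk (fun i => g.coeff i / α) k le_rfl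
  convert h1 using 3 with x
  rw [Polynomial.eval_eq_sum_range' hg, sum_div]
  refine sum_congr rfl fun i _ => ?_
  ring

private theorem FinP_ae {p : ℝ → Prop} {α : ℝ} (hα : α ≠ 0) (h : ∀ᵐ s : ℝ, p s) :
    ∀ᵐ t : ℝ, p (t / α) := by
  have h1 : Measure.QuasiMeasurePreserving (fun t : ℝ => α⁻¹ * t) volume volume := by
    refine ⟨measurable_const_mul _, ?_⟩
    rw [Real.map_volume_mul_left (inv_ne_zero hα)]
    exact Measure.smul_absolutelyContinuous
  have h2 := h1.ae h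
  filter_upwards [h2] with t ht
  rwa [div_eq_inv_mul]

private theorem FinP_grow {k : ℕ} (hk : 2 ≤ k) {α : ℝ} (hα : 0 < α) {h : ℕ → ℝ} (hh : Good k h) :
    Grow k α (fun x => α * h x) := by
  refine ⟨hα, ?_, ?_⟩
  · have h1 := (good_lim (by omega : 1 ≤ k) hh).const_mul α
    rw [mul_one] at h1
    refine h1.congr fun x => ?_
    rw [Real.rpow_natCast, mul_div_assoc]
  · obtain ⟨x0, hx0⟩ := good_step hk hh
    refine ⟨α * (2 * k * 2 ^ (k - 1)), ?_⟩
    filter_upwards [eventually_ge_atTop x0, eventually_ge_atTop 1] with x hx hx1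
    obtain ⟨h1, h2⟩ := hx0 x (x + 1) hx (Nat.le_succ x)
    have hx1' : (1 : ℝ) ≤ x := by exact_mod_cast hx1
    have e1 : (((x + 1 : ℕ) : ℝ) - x) = 1 := by push_cast; ring
    rw [e1, mul_one] at h1 h2
    have e2 : (x : ℝ) ^ ((k : ℝ) - 1) = (x : ℝ) ^ (k - 1) := by
      rw [← Real.rpow_natCast, Nat.cast_sub (by omega : 1 ≤ k), Nat.cast_one]
    have h3 : (((x + 1 : ℕ) : ℝ)) ^ (k - 1) ≤ (2 * (x : ℝ)) ^ (k - 1) := by
      apply pow_le_pow_left₀ (by positivity)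
      push_cast
      linarith
    rw [mul_pow] at h3
    have h4 : (0 : ℝ) ≤ (x : ℝ) ^ (k - 1) := by positivity
    refine ⟨?_, ?_⟩
    · rw [← mul_sub]
      exact mul_nonneg hα.le (by linarith)
    · rw [← mul_sub, e2, mul_assoc α]
      apply mul_le_mul_of_nonneg_left _ hα.le
      calc h (x + 1) - h x ≤ 2 * k * ((x + 1 : ℕ) : ℝ) ^ (k - 1) := h2
        _ ≤ 2 * k * (2 ^ (k - 1) * (x : ℝ) ^ (k - 1)) :=
            mul_le_mul_of_nonneg_left h3 (by positivity)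
        _ = 2 * k * 2 ^ (k - 1) * (x : ℝ) ^ (k - 1) := by ring

private theorem FinP_rs_mul (c : ℝ) (h : ℕ → ℝ) (l : List ℕ) :
    rs (fun x => c * h x) l = c * rs h l := by
  induction l with
  | nil => simp [rs]
  | cons a l ih => rw [rs_cons, rs_cons, ih]; ring

private theorem FinP_S {k : ℕ} (hk : 2 ≤ k) {α : ℝ} (hα : 0 < α) {h : ℕ → ℝ} (hh : Good k h) :
    ∀ᶠ r : ℕ in atTop, ∀ w ∈ tl (nxt k) 1 (k - 2) (XX r),
      |rs (fun x => α * h x) w| ≤ α * (XX r) ^ (k : ℝ) / 4 := by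
  obtain ⟨C, hC, P0, hP0, hb⟩ := mix_rs_bound hk hh (k - 2)
  have hlim := good_lim (by omega : 1 ≤ k) hh
  have h1 : ∀ᶠ x : ℕ in atTop, h x / (x : ℝ) ^ k < 3 / 2 :=
    hlim.eventually (gt_mem_nhds (by norm_num))
  have h2 : ∀ᶠ x : ℕ in atTop, (-(3 / 2) : ℝ) < h x / (x : ℝ) ^ k :=
    hlim.eventually (lt_mem_nhds (by norm_num))
  obtain ⟨x0, hx0⟩ := eventually_atTop.1 (h1.and h2)
  have hn := (nxt_tendsto hk).comp XX_tendsto
  filter_upwards [hn.eventually_ge_atTop P0, XX_tendsto.eventually_ge_atTop (8 * (x0 : ℝ) + 8),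
    XX_tendsto.eventually_ge_atTop (16 * (C * (k * 16 ^ k)))] with r hr1 hr2 hr3 w hw
  have hP0' : 0 < XX r := XX_pos r
  unfold tl at hw
  obtain ⟨⟨v, w'⟩, hvw, rfl⟩ := Finset.mem_image.1 hw
  obtain ⟨hv, hw'⟩ := Finset.mem_product.1 hvw
  dsimp only at hv hw' ⊢
  rw [mem_J1 hP0'.le] at hv
  have hv0 : (x0 : ℝ) + 1 < v := by linarith
  have hv1 : x0 ≤ v := by
    have : (x0 : ℝ) ≤ v := by linarith
    exact_mod_cast this
  have hvpos : (0 : ℝ) < v := by
    have := Nat.cast_nonneg (α := ℝ) x0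
    linarith
  obtain ⟨h3, h4⟩ := hx0 v hv1
  have hvk : (0 : ℝ) < (v : ℝ) ^ k := by positivity
  rw [div_lt_iff₀ hvk] at h3
  rw [lt_div_iff₀ hvk] at h4
  have h5 : |h v| ≤ 3 / 2 * (v : ℝ) ^ k := abs_le.2 ⟨by linarith, by linarith⟩
  have h6 : (v : ℝ) ^ k ≤ (XX r / 4) ^ k := pow_le_pow_left₀ hvpos.le hv.2 k
  have h7 : (XX r / 4) ^ k ≤ (XX r) ^ k / 16 := by
    rw [div_pow]
    apply div_le_div_of_nonneg_left (by positivity) (by norm_num)
    calc (16 : ℝ) = 4 ^ 2 := by norm_num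
      _ ≤ 4 ^ k := pow_le_pow_right₀ (by norm_num) hk
  have h8 := hb (nxt k (XX r)) hr1 w' hw'
  rw [nxt_pow (by omega : 1 ≤ k) hP0'.le] at h8
  have h9 : C * (k * 16 ^ k * (XX r) ^ (k - 1)) ≤ (XX r) ^ k / 16 := by
    have h10 : (XX r) ^ k = XX r * (XX r) ^ (k - 1) := by
      rw [← pow_succ']
      congr 1
      omega
    have h11 : (0 : ℝ) ≤ (XX r) ^ (k - 1) := by positivity
    have h12 := mul_le_mul_of_nonneg_right hr3 h11
    rw [h10]
    linarith
  rw [FinP_rs_mul, abs_mul, abs_of_pos hα, Real.rpow_natCast, rs_cons, mul_div_assoc]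
  apply mul_le_mul_of_nonneg_left _ hα.le
  have h13 := abs_add_le (h v) (rs h w')
  have h14 : (0 : ℝ) ≤ (XX r) ^ k := by positivity
  linarith

theorem floor_poly {k : ℕ} (hk : 2 ≤ k) (α : ℝ) (hα : 0 < α) (g : Polynomial ℝ)
    (hg : g.natDegree < k) :
    ∀ᵐ t : ℝ, ∃ N0 : ℤ, ∀ N : ℤ, N0 ≤ N → ∃ l : List ℕ, l.length = 4 * k ∧ (∀ n ∈ l, 1 ≤ n) ∧
      fs (fun x => α * (x : ℝ) ^ k + g.eval (x : ℝ) + t * (x : ℝ) ^ (k - 1)) l = N := by
  obtain ⟨σ, hσ, hW⟩ := weylP hk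
  have hf0 := FinP_good0 hk α g hg
  have hA := FinP_ae hα.ne' (aeP hk hf0)
  have hD : ∀ᵐ t : ℝ, Dioph ((g.coeff (k - 1) + t) / α) := ae_dioph_affine hα.ne'
  filter_upwards [hA, hD] with t htA htD
  have hh := good_add_pow (by omega : k - 1 < k) hf0 (t / α)
  have hfeq : (fun x : ℕ => α * (x : ℝ) ^ k + g.eval (x : ℝ) + t * (x : ℝ) ^ (k - 1)) =
      fun x : ℕ => α * (((x : ℝ) ^ k + g.eval (x : ℝ) / α) + t / α * (x : ℝ) ^ (k - 1)) := by
    funext x
    field_simp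
  rw [hfeq]
  have hlin : ∀ l : List ℕ, rs (fun x => α * (((x : ℝ) ^ k + g.eval (x : ℝ) / α) +
      t / α * (x : ℝ) ^ (k - 1))) l =
      α * (rs (fun x => (x : ℝ) ^ k + g.eval (x : ℝ) / α) l +
        t / α * rs (fun x => (x : ℝ) ^ (k - 1)) l) :=
    fun l => rs_lin _ _ α (t / α) l
  have hkr : (2 : ℝ) ≤ k := by exact_mod_cast hk
  have key := floor_basis (κ := (k : ℝ)) (α := α) (σ := σ)
    (f := fun x : ℕ => α * (((x : ℝ) ^ k + g.eval (x : ℝ) / α) + t / α * (x : ℝ) ^ (k - 1)))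
    (d := 2 * (k - 2) + 1 + 1) (W := fun r => tl (nxt k) 1 (k - 2) (XX r))
    (by linarith) hσ (FinP_grow hk hα hh) ?_ (fun r => tl_len le_rfl (k - 2) (XX r))
    (fun r => tl_pos (k - 2) (XX r)) ?_ (FinP_S hk hα hh) ?_
  · obtain ⟨N0, hN0⟩ := key
    refine ⟨N0, fun N hN => ?_⟩
    obtain ⟨l, hl1, hl2, hl3⟩ := hN0 N hN
    exact ⟨l, by omega, hl2, hl3⟩
  · -- Weyl
    have hg' : (g + Polynomial.C t * Polynomial.X ^ (k - 1)).natDegree < k := by
      refine lt_of_le_of_lt (Polynomial.natDegree_add_le _ _) (max_lt hg ?_)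
      refine lt_of_le_of_lt (Polynomial.natDegree_C_mul_X_pow_le _ _) (by omega)
    have hc' : (g + Polynomial.C t * Polynomial.X ^ (k - 1)).coeff (k - 1) =
        g.coeff (k - 1) + t := by
      rw [Polynomial.coeff_add, Polynomial.coeff_C_mul_X_pow, if_pos rfl]
    have h1 := hW α _ hα hg' (by rw [hc']; exact htD)
    filter_upwards [h1] with r hr θ hθ1 hθ2
    have h2 := hr θ hθ1 hθ2
    refine le_trans (le_of_eq ?_) h2
    congr 1
    refine sum_congr rfl fun z _ => ?_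
    congr 2
    rw [Polynomial.eval_add, Polynomial.eval_mul, Polynomial.eval_C, Polynomial.eval_pow,
      Polynomial.eval_X]
    field_simp
    ring
  · -- nonempty
    have h1 : ∀ i : ℕ, ∀ᶠ r : ℕ in atTop, 16 ≤ (nxt k)^[i] (nxt k (XX r)) := by
      intro i
      have h2 := ((nxt_iter_tendsto hk i).comp (nxt_tendsto hk)).comp XX_tendsto
      exact h2.eventually_ge_atTop 16
    have h3 : ∀ᶠ r : ℕ in atTop, ∀ i ∈ Set.Iic (k - 2), 16 ≤ (nxt k)^[i] (nxt k (XX r)) := by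
      rw [eventually_all_finite (Set.finite_Iic _)]
      exact fun i _ => h1 i
    filter_upwards [h3, XX_tendsto.eventually_ge_atTop 16] with r hr hr2
    exact tl_nonempty (k - 2) (XX r) hr2 fun i hi => hr i hi
  · -- coincidences
    have h1 := htA ((((2 * (k - 2) + 1 + 1 : ℕ) : ℝ) + 1) / α) (σ / 4) (by linarith)
    filter_upwards [h1] with r hr
    have h2 := pairs_tl (nxt k) 1 (k - 2) (XX r)
      (fun l l' => |rs (fun x => α * (((x : ℝ) ^ k + g.eval (x : ℝ) / α) +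
        t / α * (x : ℝ) ^ (k - 1))) l - rs (fun x => α * (((x : ℝ) ^ k + g.eval (x : ℝ) / α) +
        t / α * (x : ℝ) ^ (k - 1))) l'| ≤ ((2 * (k - 2) + 1 + 1 : ℕ) : ℝ) + 1)
    simp only [rs_cons] at h2
    have hk1 : k - 2 + 1 = k - 1 := by omega
    rw [h2, card_tl, hk1, Real.rpow_natCast]
    refine le_trans (pairs_mono _ ?_) hr
    intro w _ w' _ hww
    dsimp only at hww ⊢
    rw [hlin, hlin, ← mul_sub, abs_mul, abs_of_pos hα] at hww
    rwa [le_div_iff₀' hα]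

end FWar
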