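import Pool.Agent.FWar.DimSq
import Pool.Agent.FWar.FinP1

/-!
# FWar.FinSq: integer parts of shifted powers, 4q + 7 terms, the exceptional shifts do not depend on the multiplier

The same as `FWar.floor_poly1` (adapt `Pool/Agent/FWar/FinP1.lean`) with `dimS` instead of `dimP`.

PROOF. `σ > 0` the constant of `weylP` for `k`, `ε := min (σ/8) 1`, `d := max (3/4) (1 - ε/(4k)) < 1`.
Let `α > 0` and let `b` be not in the exceptional set of `dimS` and `Dioph (k b)` (the exceptional `b`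
have dimension `≤ 3/4`: `dim_dioph_affine` with `b := 0`, `c := 1/k`). The function
`f x = α (x+b)^k = α x^k + g(x)` with `g = α ((X + b)^k - X^k)`, a polynomial of degree `< k` whose
coefficient of `X^(k-1)` is `α k b`, so `weylP` applies (`Dioph (α k b/α)`). `floor_basis1` with
`κ = k`, `d = 2k - 2`, `W r = tl (nxt k) 1 (k-2) (XX r)`:
* `Grow k α f`: `(x+b)^k/x^k → 1`; increments `(x+1+b)^k - (x+b)^k` between `0` and `C x^(k-1)` for large
  `x` (the function `(x+b)^k` is `Good k`: `good_pow`, `good_add_pow`, binomial theorem; then as in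
  `FWar.FinP1`).
* `hS`: a word of `W r` is `v :: w`; `|f v| ≤ (3/2) α (P/4)^k` for large `P` and
  `|rs f w| ≤ C α (nxt k P)^k ≤ α P^k/16` for large `P` (`mixS_bound`).
* `hN`: from the complement of the exceptional set of `dimS`, with `M = (d+1)/α` and
  `ε ≤ σ/8`; `pairs_tl`, `card_tl`.
-/

namespace FWar

open MWg Finset MeasureTheory Filter Topology

private theorem FinSq_good {k : ℕ} (hk : 2 ≤ k) (c : ℕ → ℝ) (n : ℕ) (hn : n ≤ k) :
    Good k (fun x => (x : ℝ) ^ k + ∑ i ∈ range n, c i * (x : ℝ) ^ i) := by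
  induction n with
  | zero => simpa using good_pow (by omega : 1 ≤ k)
  | succ n ih =>
    have h1 := good_add_pow (by omega : n < k) (ih (by omega)) (c n)
    convert h1 using 2
    rw [sum_range_succ]
    ring

private theorem FinSq_grow {k : ℕ} (hk : 2 ≤ k) {α : ℝ} (hα : 0 < α) {h : ℕ → ℝ} (hh : Good k h) :
    Grow k α (fun x => α * h x) := by
  refine ⟨hα, ?_, ?_⟩
  · have h1 := (good_lim (by omega : 1 ≤ k) hh).const_mul α
    rw [mul_one] at h1
    refine h1.congr fun x => ?_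
    rw [Real.rpow_natCast, mul_div_assoc]
  · obtain ⟨x0, hx0⟩ := good_step hk hh
    refine ⟨α * (2 * k * 2 ^ (k - 1)), ?_⟩
    filter_upwards [eventually_ge_atTop x0, eventually_ge_atTop 1] with x hx hx1
    obtain ⟨h1, h2⟩ := hx0 x (x + 1) hx (Nat.le_succ x)
    have hx1' : (1 : ℝ) ≤ x := by exact_mod_cast hx1
    have e1 : (((x + 1 : ℕ) : ℝ) - x) = 1 := by push_cast; ring
    rw [e1, mul_one] at h1 h2
    have e2 : (x : ℝ) ^ ((k : ℝ) - 1) = (x : ℝ) ^ (k - 1) := by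
      rw [← Real.rpow_natCast, Nat.cast_sub (by omega : 1 ≤ k), Nat.cast_one]
    have h3 : (((x + 1 : ℕ) : ℝ)) ^ (k - 1) ≤ (2 * (x : ℝ)) ^ (k - 1) := by
      apply pow_le_pow_left₀ (by positivity)
      push_cast
      linarith
    rw [mul_pow] at h3
    have h4 : (0 : ℝ) ≤ (x : ℝ) ^ (k - 1) := by positivity
    refine ⟨?_, ?_⟩
    · rw [← mul_sub]
      exact mul_nonneg hα.le (by linarith)
    · rw [← mul_sub, e2, mul_assoc α]
      apply mul_le_mul_of_nonneg_left _ hα.le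
      calc h (x + 1) - h x ≤ 2 * k * ((x + 1 : ℕ) : ℝ) ^ (k - 1) := h2
        _ ≤ 2 * k * (2 ^ (k - 1) * (x : ℝ) ^ (k - 1)) :=
            mul_le_mul_of_nonneg_left h3 (by positivity)
        _ = 2 * k * 2 ^ (k - 1) * (x : ℝ) ^ (k - 1) := by ring

private theorem FinSq_rs_mul (c : ℝ) (h : ℕ → ℝ) (l : List ℕ) :
    rs (fun x => c * h x) l = c * rs h l := by
  induction l with
  | nil => simp [rs]
  | cons a l ih => rw [rs_cons, rs_cons, ih]; ring

private theorem FinSq_S {k : ℕ} (q : ℕ) (hk : 2 ≤ k) {α : ℝ} (hα : 0 < α) {h : ℕ → ℝ} (hh : Good k h) :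
    ∀ᶠ r : ℕ in atTop, ∀ w ∈ tl (nxt k) 1 q (XX r),
      |rs (fun x => α * h x) w| ≤ α * (XX r) ^ (k : ℝ) / 4 := by
  obtain ⟨C, hC, P0, hP0, hb⟩ := mix_rs_bound hk hh q
  have hlim := good_lim (by omega : 1 ≤ k) hh
  have h1 : ∀ᶠ x : ℕ in atTop, h x / (x : ℝ) ^ k < 3 / 2 :=
    hlim.eventually (gt_mem_nhds (by norm_num))
  have h2 : ∀ᶠ x : ℕ in atTop, (-(3 / 2) : ℝ) < h x / (x : ℝ) ^ k :=
    hlim.eventually (lt_mem_nhds (by norm_num))
  obtain ⟨x0, hx0⟩ := eventually_atTop.1 (h1.and h2)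
  have hn := (nxt_tendsto hk).comp XX_tendsto
  filter_upwards [hn.eventually_ge_atTop P0, XX_tendsto.eventually_ge_atTop (8 * (x0 : ℝ) + 8),
    XX_tendsto.eventually_ge_atTop (16 * (C * (k * 16 ^ k)))] with r hr1 hr2 hr3 w hw
  have hP0' : 0 < XX r := XX_pos r
  unfold tl at hw
  obtain ⟨⟨v, w'⟩, hvw, rfl⟩ := Finset.mem_image.1 hw
  obtain ⟨hv, hw'⟩ := Finset.mem_product.1 hvw
  dsimp only at hv hw' ⊢
  rw [mem_J1 hP0'.le] at hv
  have hv0 : (x0 : ℝ) + 1 < v := by linarith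
  have hv1 : x0 ≤ v := by
    have : (x0 : ℝ) ≤ v := by linarith
    exact_mod_cast this
  have hvpos : (0 : ℝ) < v := by
    have := Nat.cast_nonneg (α := ℝ) x0
    linarith
  obtain ⟨h3, h4⟩ := hx0 v hv1
  have hvk : (0 : ℝ) < (v : ℝ) ^ k := by positivity
  rw [div_lt_iff₀ hvk] at h3
  rw [lt_div_iff₀ hvk] at h4
  have h5 : |h v| ≤ 3 / 2 * (v : ℝ) ^ k := abs_le.2 ⟨by linarith, by linarith⟩
  have h6 : (v : ℝ) ^ k ≤ (XX r / 4) ^ k := pow_le_pow_left₀ hvpos.le hv.2 k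
  have h7 : (XX r / 4) ^ k ≤ (XX r) ^ k / 16 := by
    rw [div_pow]
    apply div_le_div_of_nonneg_left (by positivity) (by norm_num)
    calc (16 : ℝ) = 4 ^ 2 := by norm_num
      _ ≤ 4 ^ k := pow_le_pow_right₀ (by norm_num) hk
  have h8 := hb (nxt k (XX r)) hr1 w' hw'
  rw [nxt_pow (by omega : 1 ≤ k) hP0'.le] at h8
  have h9 : C * (k * 16 ^ k * (XX r) ^ (k - 1)) ≤ (XX r) ^ k / 16 := by
    have h10 : (XX r) ^ k = XX r * (XX r) ^ (k - 1) := by
      rw [← pow_succ']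
      congr 1
      omega
    have h11 : (0 : ℝ) ≤ (XX r) ^ (k - 1) := by positivity
    have h12 := mul_le_mul_of_nonneg_right hr3 h11
    rw [h10]
    linarith
  rw [FinSq_rs_mul, abs_mul, abs_of_pos hα, Real.rpow_natCast, rs_cons, mul_div_assoc]
  apply mul_le_mul_of_nonneg_left _ hα.le
  have h13 := abs_add_le (h v) (rs h w')
  have h14 : (0 : ℝ) ≤ (XX r) ^ k := by positivity
  linarith

private theorem FinSq_union {A B : Set ℝ} {a b : ℝ} (hA : dimH A ≤ ENNReal.ofReal a)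
    (hB : dimH B ≤ ENNReal.ofReal b) : dimH (A ∪ B) ≤ ENNReal.ofReal (max a b) := by
  rw [dimH_union]
  exact max_le (hA.trans (ENNReal.ofReal_le_ofReal (le_max_left _ _)))
    (hB.trans (ENNReal.ofReal_le_ofReal (le_max_right _ _)))

private theorem FinSq_expand (k : ℕ) (b : ℝ) (x : ℝ) :
    (x + b) ^ k = x ^ k + ∑ i ∈ range k, (b ^ (k - i) * (k.choose i : ℝ)) * x ^ i := by
  rw [add_pow, sum_range_succ, add_comm]
  congr 1
  · simp
  · refine sum_congr rfl fun i _ => ?_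
    ring

private theorem FinSq_shift_good {k : ℕ} (hk : 2 ≤ k) (b : ℝ) :
    Good k (fun x => ((x : ℝ) + b) ^ k) := by
  have h := FinSq_good hk (fun i => b ^ (k - i) * (k.choose i : ℝ)) k le_rfl
  convert h using 2 with x
  exact FinSq_expand k b x

theorem floor_shift_q {k q : ℕ} (hk : 2 ≤ k) (hq : (1 - 1 / (k : ℝ)) ^ (q + 1) ≤ 1 / 2) :
    ∃ d : ℝ, d < 1 ∧ dimH {b : ℝ | ¬ ∀ α : ℝ, 0 < α →
      FloorP (fun x => α * ((x : ℝ) + b) ^ k) (4 * q + 7)} ≤ ENNReal.ofReal d := by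
  obtain ⟨σ, hσ, hW⟩ := weylP hk
  obtain ⟨ε, hεdef⟩ : ∃ ε : ℝ, ε = min (σ / 8) 1 := ⟨_, rfl⟩
  have hε : 0 < ε := by rw [hεdef]; exact lt_min (by linarith) one_pos
  have hε8 : ε ≤ σ / 8 := by rw [hεdef]; exact min_le_left _ _
  have hε1 : ε ≤ 1 := by rw [hεdef]; exact min_le_right _ _
  have hkR : (2 : ℝ) ≤ k := by exact_mod_cast hk
  refine ⟨max (3 / 4) (1 - ε / (4 * k)), max_lt (by norm_num) ?_, ?_⟩
  · have : 0 < ε / (4 * k) := by positivity
    linarith
  have hA := dimSq hk hq hε hε1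
  have hD : dimH {t : ℝ | ¬ Dioph ((0 + t) / (1 / (k : ℝ)))} ≤ ENNReal.ofReal (3 / 4) :=
    dim_dioph_affine (by positivity)
  have hsub := FinSq_union hD hA
  refine (dimH_mono ?_).trans hsub
  intro b hb
  by_contra hcon
  rw [Set.mem_union, not_or] at hcon
  obtain ⟨hD1, hA1⟩ := hcon
  have hbD : Dioph ((0 + b) / (1 / (k : ℝ))) := by
    by_contra h
    exact hD1 h
  have hbA : ∀ M : ℝ, ∀ᶠ r : ℕ in atTop,
      pairs (mix (nxt k) 1 (q + 1) (XX r)) (fun p =>
        |rs (fun x => ((x : ℝ) + b) ^ k) p.1 - rs (fun x => ((x : ℝ) + b) ^ k) p.2| ≤ M) ≤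
      (XX r) ^ (σ / 8) * ((mix (nxt k) 1 (q + 1) (XX r)).card : ℝ) ^ 2 / (XX r) ^ k := by
    intro M
    have h1 : ¬ ∃ᶠ r : ℕ in atTop,
      (XX r) ^ ε * ((mix (nxt k) 1 (q + 1) (XX r)).card : ℝ) ^ 2 / (XX r) ^ k <
      pairs (mix (nxt k) 1 (q + 1) (XX r)) (fun p =>
        |rs (fun x => ((x : ℝ) + b) ^ k) p.1 - rs (fun x => ((x : ℝ) + b) ^ k) p.2| ≤ M) :=
      fun h => hA1 ⟨M, h⟩
    rw [not_frequently] at h1
    filter_upwards [h1] with r hr
    refine (not_lt.1 hr).trans ?_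
    have hX1 : 1 ≤ XX r := by
      unfold XX
      exact one_le_pow₀ (by norm_num)
    have hX0 := XX_pos r
    have h2 : (XX r) ^ ε ≤ (XX r) ^ (σ / 8) := Real.rpow_le_rpow_of_exponent_le hX1 hε8
    have h3 : (0 : ℝ) ≤ ((mix (nxt k) 1 (q + 1) (XX r)).card : ℝ) ^ 2 := by positivity
    exact div_le_div_of_nonneg_right (mul_le_mul_of_nonneg_right h2 h3) (by positivity)
  refine hb fun α hα => ?_
  have hh := FinSq_shift_good hk b
  have key := floor_basis1 (κ := (k : ℝ)) (α := α) (σ := σ)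
    (f := fun x : ℕ => α * ((x : ℝ) + b) ^ k)
    (d := 2 * q + 1 + 1) (W := fun r => tl (nxt k) 1 q (XX r))
    (by linarith) hσ (FinSq_grow hk hα hh) ?_ (fun r => tl_len le_rfl q (XX r))
    (fun r => tl_pos q (XX r)) ?_ (FinSq_S q hk hα hh) ?_
  · obtain ⟨N0, hN0⟩ := key
    refine ⟨N0, fun N hN => ?_⟩
    obtain ⟨l, hl1, hl2, hl3⟩ := hN0 N hN
    exact ⟨l, by omega, hl2, hl3⟩
  · -- Weyl
    obtain ⟨g, hgdef⟩ : ∃ g : Polynomial ℝ, g = ∑ i ∈ range k,
      Polynomial.C (α * (b ^ (k - i) * (k.choose i : ℝ))) * Polynomial.X ^ i := ⟨_, rfl⟩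
    have hg' : g.natDegree < k := by
      have h1 : g.natDegree ≤ k - 1 := by
        rw [hgdef]
        refine Polynomial.natDegree_sum_le_of_forall_le _ _ fun i hi => ?_
        refine (Polynomial.natDegree_C_mul_X_pow_le _ _).trans ?_
        have := Finset.mem_range.1 hi
        omega
      omega
    have hc' : g.coeff (k - 1) / α = (0 + b) / (1 / (k : ℝ)) := by
      have h1 : g.coeff (k - 1) = α * (b ^ (k - (k - 1)) * (k.choose (k - 1) : ℝ)) := by
        rw [hgdef, Polynomial.finsetSum_coeff]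
        simp only [Polynomial.coeff_C_mul_X_pow]
        rw [Finset.sum_ite_eq (range k) (k - 1)
          (fun i => α * (b ^ (k - i) * (k.choose i : ℝ)))]
        rw [if_pos (Finset.mem_range.2 (by omega))]
      have h2 : k - (k - 1) = 1 := by omega
      have h3 : k.choose (k - 1) = k := by
        have h4 := Nat.choose_symm (n := k) (k := 1) (by omega)
        rw [h4, Nat.choose_one_right]
      rw [h1, h2, h3]
      field_simp
      ring
    have h1 := hW α g hα hg' (by rw [hc']; exact hbD)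
    filter_upwards [h1] with r hr θ hθ1 hθ2
    have h2 := hr θ hθ1 hθ2
    refine le_trans (le_of_eq ?_) h2
    congr 1
    refine sum_congr rfl fun z _ => ?_
    congr 2
    rw [hgdef, Polynomial.eval_finsetSum, FinSq_expand, mul_add, mul_sum]
    congr 1
    refine sum_congr rfl fun i _ => ?_
    rw [Polynomial.eval_mul, Polynomial.eval_C, Polynomial.eval_pow, Polynomial.eval_X]
    ring
  · -- nonempty
    have h1 : ∀ i : ℕ, ∀ᶠ r : ℕ in atTop, 16 ≤ (nxt k)^[i] (nxt k (XX r)) := by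
      intro i
      have h2 := ((nxt_iter_tendsto hk i).comp (nxt_tendsto hk)).comp XX_tendsto
      exact h2.eventually_ge_atTop 16
    have h3 : ∀ᶠ r : ℕ in atTop, ∀ i ∈ Set.Iic q, 16 ≤ (nxt k)^[i] (nxt k (XX r)) := by
      rw [eventually_all_finite (Set.finite_Iic _)]
      exact fun i _ => h1 i
    filter_upwards [h3, XX_tendsto.eventually_ge_atTop 16] with r hr hr2
    exact tl_nonempty q (XX r) hr2 fun i hi => hr i hi
  · -- coincidences
    have h1 := hbA ((((2 * q + 1 + 1 : ℕ) : ℝ) + 1) / α)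
    filter_upwards [h1] with r hr
    have h2 := pairs_tl (nxt k) 1 q (XX r)
      (fun l l' => |rs (fun x => α * ((x : ℝ) + b) ^ k) l -
        rs (fun x => α * ((x : ℝ) + b) ^ k) l'| ≤ ((2 * q + 1 + 1 : ℕ) : ℝ) + 1)
    simp only [rs_cons] at h2
    rw [h2, card_tl, Real.rpow_natCast]
    refine le_trans (pairs_mono _ ?_) hr
    intro w _ w' _ hww
    dsimp only at hww ⊢
    rw [FinSq_rs_mul α (fun x => ((x : ℝ) + b) ^ k), FinSq_rs_mul α (fun x => ((x : ℝ) + b) ^ k),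
      ← mul_sub, abs_mul, abs_of_pos hα] at hww
    rwa [le_div_iff₀' hα]

end FWar
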