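import Pool.Agent.FWar.Defs
import Pool.Agent.MWg.Chain
import Pool.Agent.MWg.Tools

/-!
# FWar.KDefs: letters of full size in separated ranges

`RR 0 P = (P, 16P]`, `RR i P = (P/2^(2i+1), P/2^(2i)]` for `i ≥ 1` (so `RR 1 P = J1 P`).
`Wk n P`: words of `n + 1` letters `x 0, ..., x n`, `x i ∈ RR i P`. `pws j x = ∑ (x i)^j`.
`hc c x = x^k + ∑_{j<k} c_j x^j`, the monic polynomial of degree `k` with coefficients `c`.
-/

namespace FWar

open MWg Finset Filter Topology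

/-- The range of the `i`-th letter. -/
noncomputable def RR (i : ℕ) (P : ℝ) : Finset ℕ :=
  if i = 0 then mainI P else Finset.Ioc ⌊P / 2 ^ (2 * i + 1)⌋₊ ⌊P / 2 ^ (2 * i)⌋₊

/-- Lower end of the `i`-th range, divided by `P`. -/
noncomputable def lo (i : ℕ) : ℝ := if i = 0 then 1 else 1 / 2 ^ (2 * i + 1)

/-- Upper end of the `i`-th range, divided by `P`. -/
noncomputable def hi (i : ℕ) : ℝ := if i = 0 then 16 else 1 / 2 ^ (2 * i)

/-- Words. -/
noncomputable def Wk (n : ℕ) (P : ℝ) : Finset (Fin (n + 1) → ℕ) :=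
  Fintype.piFinset fun i : Fin (n + 1) => RR (i : ℕ) P

/-- Power sums. -/
noncomputable def pws {n : ℕ} (j : ℕ) (x : Fin (n + 1) → ℕ) : ℝ := ∑ i, (x i : ℝ) ^ j

/-- The monic polynomial of degree `k` with lower coefficients `c`. -/
noncomputable def hc {k : ℕ} (c : Fin k → ℝ) (x : ℕ) : ℝ :=
  (x : ℝ) ^ k + ∑ j : Fin k, c j * (x : ℝ) ^ (j : ℕ)

end FWar
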