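import Pool.Agent.FWar.KDefs

/-!
# FWar.KPoly: power sums of separated variables

The intervals `[lo i P, hi i P]` decrease with `i` and are separated: with `τ_i = (3/4) lo i`,
`hi (i+1) ≤ (1/2) lo i < τ_i < lo i`; for `t` in one of the intervals with index `l < K`, `i < K`:
`t - τ_i P ≥ (1/4) lo i P` if `l ≤ i`, and `t - τ_i P ≤ -(1/4) lo i P` if `l ≥ i + 1`; and
`lo i ≥ 2^(-2K-1)`.

PROOF. Let `I = [s, s+m)` (indices), `σ_i = 1` if `x i ≥ y i` and `-1` otherwise, and
`G = {i : s ≤ i, i + 1 < s + m, σ_i ≠ σ_(i+1)}`, so `|G| ≤ m - 1`. Let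
`g(t) = σ_s t^a ∏_{i ∈ G} (t - τ_i P)`. For `t` in the interval `[lo l P, hi l P]`, `l ∈ I`, the sign of
the product is `(-1)^(#{i ∈ G : i < l})`, and `σ_l = σ_s (-1)^(#{i ∈ G : i < l})` (by induction on `l`);
so `σ_l g(t) ≥ (c P)^a (c P)^|G|` with `c = 2^(-2K-3)` (as `t ≥ c P`, `|t - τ_i P| ≥ c P`).
Define for a continuous function `u` the functional `Λ(u) = ∑_{l ∈ I} ∫_{y l}^{x l} u(t) dt`.
* Lower bound: `Λ(g) = ∑_l ∫_{y l}^{x l} g ≥ ∑_l |x l - y l| (c P)^(a+|G|)` (`g` has the sign `σ_l` of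
  `x l - y l` between `y l` and `x l`).
* Upper bound: for `a ≤ b`, `b + 1 ≤ a + m`: `|Λ(t^b)| = |∑_l (x l^(b+1) - y l^(b+1))|/(b+1) ≤ B`.
  Expanding the product (`Finset.prod_add` or `Finset.prod_sub`),
  `g(t) = σ_s ∑_{S ⊆ G} (∏_{i ∈ G \ S} (-τ_i P)) t^(a+|S|)`, with `a + |S| + 1 ≤ a + m`, `|τ_i| ≤ 1`,
  so `|Λ(g)| ≤ 2^|G| P^|G| B`.
Together `∑_l |x l - y l| ≤ 2^|G| c^(-a-|G|) B/P^a`; `C = 2^K c^(-2K)` works (`a, |G| ≤ K`).
(Instead of integrals one may use the primitive polynomial and the mean value theorem.)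
-/

namespace FWar

open Finset

private noncomputable def KPoly_La (I : Finset ℕ) (x y : ℕ → ℝ) (u : ℝ → ℝ) : ℝ :=
  ∑ l ∈ I, ∫ t in (y l)..(x l), u t

private theorem KPoly_upper (I : Finset ℕ) (x y : ℕ → ℝ) (P B : ℝ) (hP : 1 ≤ P) (hB : 0 ≤ B)
    (a m : ℕ) (hj : ∀ j ∈ Finset.Icc (a + 1) (a + m), |∑ i ∈ I, (x i ^ j - y i ^ j)| ≤ B)
    (τ : ℕ → ℝ) (hτ : ∀ i, |τ i| ≤ P) (G : Finset ℕ) : ∀ b, a ≤ b → b + G.card + 1 ≤ a + m →
      |KPoly_La I x y (fun t => t ^ b * ∏ i ∈ G, (t - τ i))| ≤ (2 * P) ^ G.card * B := by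
  classical
  induction G using Finset.induction_on with
  | empty =>
    intro b hb h
    have h1 : KPoly_La I x y (fun t => t ^ b * ∏ i ∈ (∅ : Finset ℕ), (t - τ i)) =
        (∑ i ∈ I, (x i ^ (b + 1) - y i ^ (b + 1))) / ((b : ℝ) + 1) := by
      rw [Finset.sum_div]
      unfold KPoly_La
      refine Finset.sum_congr rfl fun l _ => ?_
      simp [integral_pow]
    rw [h1, abs_div, Finset.card_empty, pow_zero, one_mul]
    have h2 := hj (b + 1) (by
      rw [Finset.mem_Icc]
      simp at h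
      omega)
    have h3 : (1 : ℝ) ≤ |(b : ℝ) + 1| := by
      rw [abs_of_pos (by positivity)]
      have : (0 : ℝ) ≤ b := Nat.cast_nonneg b
      linarith
    exact (div_le_self (abs_nonneg _) h3).trans h2
  | insert i G hi ih =>
    intro b hb h
    rw [Finset.card_insert_of_notMem hi] at h ⊢
    have h1 : KPoly_La I x y (fun t => t ^ b * ∏ j ∈ insert i G, (t - τ j)) =
        KPoly_La I x y (fun t => t ^ (b + 1) * ∏ j ∈ G, (t - τ j)) -
          τ i * KPoly_La I x y (fun t => t ^ b * ∏ j ∈ G, (t - τ j)) := by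
      unfold KPoly_La
      rw [Finset.mul_sum, ← Finset.sum_sub_distrib]
      refine Finset.sum_congr rfl fun l _ => ?_
      have e : (fun t : ℝ => t ^ b * ∏ j ∈ insert i G, (t - τ j)) = fun t =>
          t ^ (b + 1) * ∏ j ∈ G, (t - τ j) - τ i * (t ^ b * ∏ j ∈ G, (t - τ j)) := by
        funext t
        rw [Finset.prod_insert hi]
        ring
      rw [e, intervalIntegral.integral_sub, intervalIntegral.integral_const_mul]
      · exact Continuous.intervalIntegrable (by fun_prop) _ _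
      · exact Continuous.intervalIntegrable (by fun_prop) _ _
    have h2 := ih (b + 1) (by omega) (by omega)
    have h3 := ih b hb (by omega)
    rw [h1]
    have h4 : |τ i * KPoly_La I x y (fun t => t ^ b * ∏ j ∈ G, (t - τ j))| ≤
        P * ((2 * P) ^ G.card * B) := by
      rw [abs_mul]
      exact mul_le_mul (hτ i) h3 (abs_nonneg _) (by linarith)
    have h5 : (0 : ℝ) ≤ (2 * P) ^ G.card * B := by positivity
    calc _ ≤ |KPoly_La I x y (fun t => t ^ (b + 1) * ∏ j ∈ G, (t - τ j))| +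
          |τ i * KPoly_La I x y (fun t => t ^ b * ∏ j ∈ G, (t - τ j))| := abs_sub _ _
      _ ≤ (2 * P) ^ G.card * B + P * ((2 * P) ^ G.card * B) := add_le_add h2 h4
      _ ≤ P * ((2 * P) ^ G.card * B) + P * ((2 * P) ^ G.card * B) := by
        nlinarith
      _ = (2 * P) ^ (G.card + 1) * B := by ring

private theorem KPoly_int (x y m : ℝ) (σ : ℝ) (g : ℝ → ℝ) (hg : Continuous g)
    (hσ : σ = if y ≤ x then 1 else -1) (h : ∀ t ∈ Set.uIcc y x, m ≤ σ * g t) :
    |x - y| * m ≤ ∫ t in y..x, g t := by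
  by_cases hxy : y ≤ x
  · rw [if_pos hxy] at hσ
    subst hσ
    have h1 : ∫ t in y..x, m ≤ ∫ t in y..x, g t := by
      refine intervalIntegral.integral_mono_on hxy intervalIntegrable_const
        (hg.intervalIntegrable _ _) fun t ht => ?_
      have := h t (by rwa [Set.uIcc_of_le hxy])
      linarith
    rw [intervalIntegral.integral_const, smul_eq_mul] at h1
    rwa [abs_of_nonneg (by linarith)]
  · rw [if_neg hxy] at hσ
    subst hσ
    have hxy' : x ≤ y := le_of_not_ge hxy
    have h1 : ∫ t in x..y, m ≤ ∫ t in x..y, - g t := by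
      refine intervalIntegral.integral_mono_on hxy' intervalIntegrable_const
        (hg.neg.intervalIntegrable _ _) fun t ht => ?_
      have := h t (by rwa [Set.uIcc_comm, Set.uIcc_of_le hxy'])
      linarith
    rw [intervalIntegral.integral_const, smul_eq_mul, intervalIntegral.integral_neg] at h1
    rw [intervalIntegral.integral_symm, abs_sub_comm, abs_of_nonneg (by linarith)]
    exact h1

private theorem KPoly_sign (σ : ℕ → ℝ) (hσ : ∀ i, σ i = 1 ∨ σ i = -1) (s m l : ℕ) (hl : s ≤ l)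
    (hl' : l < s + m) :
    ∏ i ∈ (Finset.Ico s (s + m - 1)).filter (fun i => σ i ≠ σ (i + 1)),
      (if i < l then (-1 : ℝ) else 1) = σ s * σ l := by
  classical
  induction l, hl using Nat.le_induction with
  | base =>
    rw [Finset.prod_eq_one]
    · rcases hσ s with h | h <;> rw [h] <;> norm_num
    · intro i hi
      simp only [Finset.mem_filter, Finset.mem_Ico] at hi
      rw [if_neg (by omega)]
  | succ l hl ih =>
    have ih' := ih (by omega)
    have h1 : ∀ i, (if i < l + 1 then (-1 : ℝ) else 1) =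
        (if i < l then (-1 : ℝ) else 1) * (if i = l then -1 else 1) := by
      intro i
      rcases lt_trichotomy i l with h | h | h
      · rw [if_pos (by omega), if_pos h, if_neg (by omega), mul_one]
      · rw [if_pos (by omega), if_neg (by omega), if_pos h, one_mul]
      · rw [if_neg (by omega), if_neg (by omega), if_neg (by omega), mul_one]
    rw [Finset.prod_congr rfl fun i _ => h1 i, Finset.prod_mul_distrib, ih',
      Finset.prod_ite_eq' _ l]
    have h2 : l ∈ (Finset.Ico s (s + m - 1)).filter (fun i => σ i ≠ σ (i + 1)) ↔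
        σ l ≠ σ (l + 1) := by
      simp only [Finset.mem_filter, Finset.mem_Ico]
      exact ⟨fun h => h.2, fun h => ⟨⟨hl, by omega⟩, h⟩⟩
    by_cases h3 : σ l ≠ σ (l + 1)
    · rw [if_pos (h2.2 h3)]
      rcases hσ l with h4 | h4 <;> rcases hσ (l + 1) with h5 | h5 <;> rw [h4, h5] at h3 ⊢ <;>
        first
          | exact absurd rfl h3
          | ring
    · rw [if_neg (fun h => h3 (h2.1 h))]
      push Not at h3
      rw [h3, mul_one]

private theorem KPoly_lo_pos (i : ℕ) : 0 < lo i := by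
  unfold lo
  split_ifs <;> positivity

private theorem KPoly_lo_le (i : ℕ) : lo i ≤ 1 := by
  unfold lo
  split_ifs
  · exact le_rfl
  · rw [div_le_one (by positivity)]
    exact one_le_pow₀ (by norm_num)

private theorem KPoly_lo_ge (i K : ℕ) (h : i ≤ K) : 1 / 2 ^ (2 * K + 1) ≤ lo i := by
  unfold lo
  split_ifs
  · rw [div_le_one (by positivity)]
    exact one_le_pow₀ (by norm_num)
  · apply one_div_le_one_div_of_le (by positivity)
    exact pow_le_pow_right₀ (by norm_num) (by omega)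

private theorem KPoly_lo_anti {i j : ℕ} (h : i ≤ j) : lo j ≤ lo i := by
  rcases Nat.eq_zero_or_pos i with h0 | h0
  · subst h0
    exact (KPoly_lo_le j).trans (by simp [lo])
  · unfold lo
    rw [if_neg (by omega), if_neg (by omega)]
    apply one_div_le_one_div_of_le (by positivity)
    exact pow_le_pow_right₀ (by norm_num) (by omega)

private theorem KPoly_hi_le {i j : ℕ} (h : i + 1 ≤ j) : hi j ≤ 1 / 2 * lo i := by
  unfold hi lo
  rw [if_neg (by omega)]
  split_ifs with h0
  · subst h0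
    rw [mul_one]
    apply one_div_le_one_div_of_le (by positivity)
    calc (2 : ℝ) = 2 ^ 1 := (pow_one _).symm
      _ ≤ 2 ^ (2 * j) := pow_le_pow_right₀ (by norm_num) (by omega)
  · rw [one_div_mul_one_div, ← pow_succ']
    apply one_div_le_one_div_of_le (by positivity)
    exact pow_le_pow_right₀ (by norm_num) (by omega)

theorem lemK (K : ℕ) : ∃ C : ℝ, 0 < C ∧ ∀ P : ℝ, 1 ≤ P → ∀ s m a : ℕ, s + m ≤ K → a + m ≤ K →
    ∀ x y : ℕ → ℝ, (∀ i ∈ Finset.Ico s (s + m), lo i * P ≤ x i ∧ x i ≤ hi i * P) →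
    (∀ i ∈ Finset.Ico s (s + m), lo i * P ≤ y i ∧ y i ≤ hi i * P) → ∀ B : ℝ, 0 ≤ B →
    (∀ j ∈ Finset.Icc (a + 1) (a + m), |∑ i ∈ Finset.Ico s (s + m), (x i ^ j - y i ^ j)| ≤ B) →
    ∀ i ∈ Finset.Ico s (s + m), |x i - y i| * P ^ a ≤ C * B := by
  classical
  obtain ⟨c, hc⟩ : ∃ c : ℝ, c = 1 / 2 ^ (2 * K + 3) := ⟨_, rfl⟩
  have hc0 : 0 < c := by rw [hc]; positivity
  have hc1 : c ≤ 1 := by
    rw [hc, div_le_one (by positivity)]
    exact one_le_pow₀ (by norm_num)
  have hclo : ∀ i, i ≤ K → c ≤ 1 / 4 * lo i := by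
    intro i hi
    have h1 := KPoly_lo_ge i K hi
    have h2 : c = 1 / 4 * (1 / 2 ^ (2 * K + 1)) := by
      rw [hc, pow_succ, pow_succ, pow_succ _ (2 * K)]
      field_simp
      norm_num
    rw [h2]
    linarith
  refine ⟨2 ^ K * (c⁻¹) ^ K, by positivity, ?_⟩
  intro P hP s m a hsm ham x y hx hy B hB hj i0 hi0
  have hP0 : 0 < P := by linarith
  obtain ⟨σ, hσ⟩ : ∃ σ : ℕ → ℝ, σ = fun i => if y i ≤ x i then 1 else -1 := ⟨_, rfl⟩
  have hσ1 : ∀ i, σ i = 1 ∨ σ i = -1 := by
    intro i
    rw [hσ]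
    by_cases h : y i ≤ x i
    · left
      simp [h]
    · right
      simp [h]
  obtain ⟨G, hG⟩ : ∃ G : Finset ℕ,
      G = (Finset.Ico s (s + m - 1)).filter (fun i => σ i ≠ σ (i + 1)) := ⟨_, rfl⟩
  have hm : 1 ≤ m := by
    rw [Finset.mem_Ico] at hi0
    omega
  have hGc : G.card + 1 ≤ m := by
    have h1 : G.card ≤ (Finset.Ico s (s + m - 1)).card := by
      rw [hG]
      exact Finset.card_filter_le _ _
    rw [Nat.card_Ico] at h1
    omega
  obtain ⟨τ, hτ⟩ : ∃ τ : ℕ → ℝ, τ = fun i => 3 / 4 * lo i * P := ⟨_, rfl⟩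
  have hτ1 : ∀ i, |τ i| ≤ P := by
    intro i
    rw [hτ]
    have h1 := KPoly_lo_pos i
    have h2 := KPoly_lo_le i
    have h3 : 0 ≤ 3 / 4 * lo i * P := by positivity
    simp only
    rw [abs_of_nonneg h3]
    nlinarith
  have hup := KPoly_upper (Finset.Ico s (s + m)) x y P B hP hB a m hj τ hτ1 G a le_rfl (by omega)
  -- lower bound
  have hlow : ∀ l ∈ Finset.Ico s (s + m), ∀ t, lo l * P ≤ t → t ≤ hi l * P →
      (c * P) ^ a * (c * P) ^ G.card ≤ σ l * (σ s * (t ^ a * ∏ i ∈ G, (t - τ i))) := by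
    intro l hl t ht1 ht2
    rw [Finset.mem_Ico] at hl
    have h1 : ∀ i ∈ G, t - τ i = (if i < l then (-1 : ℝ) else 1) * |t - τ i| ∧
        c * P ≤ |t - τ i| := by
      intro i hiG
      rw [hG, Finset.mem_filter, Finset.mem_Ico] at hiG
      have h2 := hclo i (by omega)
      have h2' : c * P ≤ 1 / 4 * lo i * P := mul_le_mul_of_nonneg_right h2 hP0.le
      have hcP : 0 < c * P := by positivity
      by_cases h3 : i < l
      · rw [if_pos h3]
        have h4 : hi l * P ≤ 1 / 2 * lo i * P :=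
          mul_le_mul_of_nonneg_right (KPoly_hi_le h3) hP0.le
        have h5 : t - τ i ≤ -(c * P) := by
          rw [hτ]
          simp only
          linarith
        rw [abs_of_neg (by linarith)]
        exact ⟨by ring, by linarith⟩
      · rw [if_neg h3]
        have h4 : lo i * P ≤ lo l * P :=
          mul_le_mul_of_nonneg_right (KPoly_lo_anti (by omega)) hP0.le
        have h5 : c * P ≤ t - τ i := by
          rw [hτ]
          simp only
          linarith
        rw [abs_of_pos (by linarith)]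
        exact ⟨by ring, h5⟩
    have h6 : ∏ i ∈ G, (t - τ i) = (σ s * σ l) * ∏ i ∈ G, |t - τ i| := by
      rw [Finset.prod_congr rfl fun i hi => (h1 i hi).1, Finset.prod_mul_distrib]
      congr 1
      rw [hG]
      exact KPoly_sign σ hσ1 s m l hl.1 hl.2
    have h7 : σ l * (σ s * (t ^ a * ∏ i ∈ G, (t - τ i))) = t ^ a * ∏ i ∈ G, |t - τ i| := by
      rw [h6]
      have h8 : σ s * σ s = 1 := by
        rcases hσ1 s with h | h <;> rw [h] <;> norm_num
      have h9 : σ l * σ l = 1 := by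
        rcases hσ1 l with h | h <;> rw [h] <;> norm_num
      calc σ l * (σ s * (t ^ a * (σ s * σ l * ∏ i ∈ G, |t - τ i|))) =
          (σ s * σ s) * (σ l * σ l) * (t ^ a * ∏ i ∈ G, |t - τ i|) := by ring
        _ = _ := by rw [h8, h9, one_mul, one_mul]
    rw [h7]
    have h10 : c * P ≤ t := by
      have h11 := hclo l (by omega)
      have h12 : c * P ≤ 1 / 4 * lo l * P := mul_le_mul_of_nonneg_right h11 hP0.le
      have h13 : 0 < lo l * P := mul_pos (KPoly_lo_pos l) hP0
      linarith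
    apply mul_le_mul
    · exact pow_le_pow_left₀ (by positivity) h10 a
    · rw [← Finset.prod_const]
      exact Finset.prod_le_prod (fun _ _ => by positivity) fun i hi => (h1 i hi).2
    · positivity
    · have : 0 < t := lt_of_lt_of_le (by positivity) h10
      positivity
  have hcont : Continuous fun t : ℝ => σ s * (t ^ a * ∏ i ∈ G, (t - τ i)) := by fun_prop
  have hint : ∀ l ∈ Finset.Ico s (s + m), |x l - y l| * ((c * P) ^ a * (c * P) ^ G.card) ≤
      ∫ t in (y l)..(x l), σ s * (t ^ a * ∏ i ∈ G, (t - τ i)) := by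
    intro l hl
    apply KPoly_int (x l) (y l) _ (σ l) _ hcont (by rw [hσ])
    intro t ht
    have h1 := hx l hl
    have h2 := hy l hl
    rw [Set.mem_uIcc] at ht
    rcases ht with h | h
    · exact hlow l hl t (by linarith) (by linarith)
    · exact hlow l hl t (by linarith) (by linarith)
  have hsum : ∑ l ∈ Finset.Ico s (s + m), |x l - y l| * ((c * P) ^ a * (c * P) ^ G.card) ≤
      (2 * P) ^ G.card * B := by
    calc _ ≤ ∑ l ∈ Finset.Ico s (s + m),
          ∫ t in (y l)..(x l), σ s * (t ^ a * ∏ i ∈ G, (t - τ i)) := Finset.sum_le_sum hint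
      _ = σ s * KPoly_La (Finset.Ico s (s + m)) x y (fun t => t ^ a * ∏ i ∈ G, (t - τ i)) := by
        unfold KPoly_La
        rw [Finset.mul_sum]
        refine Finset.sum_congr rfl fun l _ => ?_
        rw [intervalIntegral.integral_const_mul]
      _ ≤ |KPoly_La (Finset.Ico s (s + m)) x y (fun t => t ^ a * ∏ i ∈ G, (t - τ i))| := by
        rcases hσ1 s with h | h
        · rw [h, one_mul]
          exact le_abs_self _
        · rw [h, neg_one_mul]
          exact neg_le_abs _
      _ ≤ _ := hup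
  have hone : |x i0 - y i0| * ((c * P) ^ a * (c * P) ^ G.card) ≤ (2 * P) ^ G.card * B := by
    refine le_trans ?_ hsum
    exact Finset.single_le_sum
      (f := fun l => |x l - y l| * ((c * P) ^ a * (c * P) ^ G.card))
      (fun l _ => by positivity) hi0
  -- conclusion
  have h20 : |x i0 - y i0| * P ^ a * (c ^ (a + G.card) * P ^ G.card) ≤
      (2 ^ G.card * B) * P ^ G.card := by
    calc _ = |x i0 - y i0| * ((c * P) ^ a * (c * P) ^ G.card) := by
          rw [mul_pow, mul_pow, pow_add]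
          ring
      _ ≤ (2 * P) ^ G.card * B := hone
      _ = _ := by
          rw [mul_pow]
          ring
  have h21 : |x i0 - y i0| * P ^ a * c ^ (a + G.card) ≤ 2 ^ G.card * B := by
    have h22 : 0 < P ^ G.card := by positivity
    apply le_of_mul_le_mul_right _ h22
    calc _ = |x i0 - y i0| * P ^ a * (c ^ (a + G.card) * P ^ G.card) := by ring
      _ ≤ _ := h20
  have h23 : c ^ K ≤ c ^ (a + G.card) := pow_le_pow_of_le_one hc0.le hc1 (by omega)
  have h24 : |x i0 - y i0| * P ^ a * c ^ K ≤ 2 ^ K * B := by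
    calc |x i0 - y i0| * P ^ a * c ^ K ≤ |x i0 - y i0| * P ^ a * c ^ (a + G.card) :=
          mul_le_mul_of_nonneg_left h23 (by positivity)
      _ ≤ 2 ^ G.card * B := h21
      _ ≤ 2 ^ K * B := by
          apply mul_le_mul_of_nonneg_right _ hB
          exact pow_le_pow_right₀ (by norm_num) (by omega)
  have h25 : 0 < c ^ K := by positivity
  calc |x i0 - y i0| * P ^ a = |x i0 - y i0| * P ^ a * c ^ K * (c⁻¹) ^ K := by
        rw [mul_assoc, ← mul_pow, mul_inv_cancel₀ hc0.ne', one_pow, mul_one]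
    _ ≤ 2 ^ K * B * (c⁻¹) ^ K := mul_le_mul_of_nonneg_right h24 (by positivity)
    _ = 2 ^ K * (c⁻¹) ^ K * B := by ring

end FWar
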