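import Pool.Agent.FWar.PairE

/-!
# FWar.MixE: two conditions on the words, real exponents

`nx x = x^λ`, `λ = 1 - 1/κ1 ∈ (0,1)`; scales `nx^[i] P = P^(λ^i)` (`P ≥ 1`). `κ ∈ [κ1, κ2]`,
`κ2 - κ1 ≤ η`. `pw x = x^κ`, `lg x = x^κ log x`. `m_q(P) = (mix nx s q P).card`.
`E_q(P; A, B) = B² + (P^(λ^q))^(2κ-s) + s (P^(λ^q))^κ A`. The constants `C`, and how large `P` has to be,
depend on `κ1, κ2, η, s, q` only.

`mixE_bound`: all letters of a word are `≤ 16 P` (`mix_le`), so `|x^κ| ≤ (16P)^κ ≤ 16^κ2 P^κ` and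
`|x^κ log x| ≤ 16^κ2 P^κ (log 16 + log P) ≤ C P^κ log P`; apply `mix_rs_le`.

PROOF of `mixE` by induction on `q`.
* `q = 0`, `s = 0`: the set is `{[]}`, count `≤ 1`; the right side is
  `≥ P^(4η) · 1 · P^(-2κ) · P^(2κ) ≥ 1`.
* `q = 0`, `s = 1`: words `[u]`; by `singleE` the count is `≤ 1 + 2A/P^(κ-1)`; the right side is
  `≥ |mainI P| P^(-2κ) (P^(2κ-1) + P^κ A) ≥ 14 P (P^(-1) + P^(-κ) A)`.
* Step: `P2 = P^λ`. `κ λ = κ - κ/κ1`, so `P^(κ-1-η) ≤ P2^κ ≤ P^(κ-1)` (as `1 ≤ κ/κ1 ≤ 1 + η`,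
  because `κ1 ≥ 1`) and
  `P2^(-2κ) = P^(-2κ+2κ/κ1) ≤ P^(-2κ+2+2η)`. `(P2)^(λ^q) = P^(λ^(q+1))`, so
  `E_q(P2; A, B) = E_(q+1)(P; A, B)`.
  For `w ∈ mix nx s q P2`: `|rs pw w| ≤ C P2^κ`, `|rs lg w| ≤ C P2^κ log P` (`mixE_bound`).
  By `cn_mix_succ` the count is `∑_u ∑_v #{w : |rs pw w - α'| ≤ A, |rs lg w - β'| ≤ B}` and the inner
  count is `0` unless `|u^κ + v^κ - α| ≤ L1 := A + C P2^κ` and
  `|u^κ log u + v^κ log v - β| ≤ L2 := B + C P2^κ log P`. Number of such pairs: by `pairE`.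
  - Case A: `B ≥ P2^κ`. `L1 ≤ C B`, `L2 ≤ C B log P`, and `1 ≤ P^η B/P^(κ-1)`. So there are at most
    `C log P · P^(2η) (B/P^(κ-1))²` pairs (`1 + L1/P^(κ-1) ≤ C P^η B/P^(κ-1)` and
    `1 + (L2 + L1 log P)/P^(κ-1) ≤ C P^η log P · B/P^(κ-1)`), and each inner count is at most
    `m_q(P2)`. Total `≤ C log P · P^(2η) m_q(P2) B² P² /P^(2κ)`.
  - Case B: `B < P2^κ` (so `A ≤ B < P2^κ ≤ P^(κ-1)`). At most `C log P` pairs; each inner count is by
    induction `≤ P2^(4η(q+1)) m_q(P2) P2^(-2κ) E_q(P2; A, B)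
    ≤ P^(4η(q+1)) m_q(P2) P^(-2κ+2+2η) E_(q+1)(P; A, B)`.
  In both cases the total is
  `≤ C log P · P^(2η) P^(4η(q+1)) m_q(P2) P² · P^(-2κ) E_(q+1)(P;A,B)`, and
  `m_q(P2) P² ≤ 2 m_(q+1)(P)` (`card_mix_succ`, `|mainI P| ≥ 14 P`, `|J1 P| ≥ P/16`), and
  `2 C log P ≤ P^(2η)` for large `P`.
-/

namespace FWar

open MWg Finset Filter Topology

private lemma MixE_iter {l P : ℝ} (hP : 0 ≤ P) (i : ℕ) :
    (fun x : ℝ => x ^ l)^[i] P = P ^ (l ^ i) := by
  induction i with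
  | zero => simp
  | succ i ih =>
    rw [Function.iterate_succ_apply', ih]
    show (P ^ (l ^ i)) ^ l = P ^ (l ^ (i + 1))
    rw [← Real.rpow_mul hP, pow_succ]

private lemma MixE_lam {κ1 : ℝ} (h1 : 1 < κ1) : 0 < 1 - 1 / κ1 ∧ 1 - 1 / κ1 < 1 := by
  have h2 : 1 / κ1 < 1 := by
    rw [div_lt_one (by linarith)]
    exact h1
  have h3 : 0 < 1 / κ1 := by positivity
  constructor <;> linarith

private lemma MixE_log {P : ℝ} (hP : 16 ≤ P) : 1 ≤ Real.log P := by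
  rw [Real.le_log_iff_exp_le (by linarith)]
  have := Real.exp_one_lt_d9
  linarith

private lemma MixE_cn {ι : Type*} (W : Finset ι) (p : ι → Prop) [DecidablePred p] :
    cn W p = ((W.filter p).card : ℝ) := by
  unfold cn
  congr

private lemma MixE_sum (W1 W2 : Finset ℕ) (cond : ℕ × ℕ → Prop) (M : ℝ) (F : ℕ → ℕ → ℝ)
    (h1 : ∀ u ∈ W1, ∀ v ∈ W2, cond (u, v) → F u v ≤ M)
    (h2 : ∀ u ∈ W1, ∀ v ∈ W2, ¬ cond (u, v) → F u v ≤ 0) :
    ∑ u ∈ W1, ∑ v ∈ W2, F u v ≤ cn (W1 ×ˢ W2) cond * M := by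
  classical
  rw [MixE_cn]
  calc ∑ u ∈ W1, ∑ v ∈ W2, F u v ≤ ∑ u ∈ W1, ∑ v ∈ W2, (if cond (u, v) then M else 0) := by
        refine Finset.sum_le_sum fun u hu => Finset.sum_le_sum fun v hv => ?_
        split_ifs with h
        · exact h1 u hu v hv h
        · exact h2 u hu v hv h
    _ = ∑ z ∈ W1 ×ˢ W2, (if cond z then M else 0) :=
        (Finset.sum_product W1 W2 (fun z => if cond z then M else 0)).symm
    _ = (((W1 ×ˢ W2).filter cond).card : ℝ) * M := by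
        rw [← Finset.sum_filter, Finset.sum_const, nsmul_eq_mul]

private lemma MixE_facts {κ1 κ η P : ℝ} (h1 : 1 < κ1) (hκ1 : κ1 ≤ κ) (hη : 0 < η)
    (hκη : κ - κ1 ≤ η) (hP : 1 ≤ P) :
    (P ^ (1 - 1 / κ1)) ^ κ ≤ P ^ (κ - 1) ∧
    P ^ (κ - 1) ≤ P ^ η * (P ^ (1 - 1 / κ1)) ^ κ ∧
    (P ^ (1 - 1 / κ1)) ^ (-(2 * κ)) ≤ P ^ 2 * (P ^ η) ^ 2 * P ^ (-(2 * κ)) ∧
    (P ^ (κ - 1)) ^ 2 * (P ^ 2 * P ^ (-(2 * κ))) = 1 := by
  have hP0 : 0 < P := by linarith
  have hk1 : 0 < κ1 := by linarith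
  have h2 : 1 ≤ κ / κ1 := by
    rw [le_div_iff₀ hk1]
    linarith
  have h3 : κ / κ1 ≤ 1 + η := by
    rw [div_le_iff₀ hk1]
    nlinarith
  have h4 : (1 - 1 / κ1) * κ = κ - κ / κ1 := by
    field_simp
  have h5 : (1 - 1 / κ1) * (-(2 * κ)) = -(2 * κ) + 2 * (κ / κ1) := by
    field_simp
    ring
  have hsq : ∀ x : ℝ, (P ^ x) ^ 2 = P ^ (2 * x) := by
    intro x
    rw [← Real.rpow_natCast, ← Real.rpow_mul hP0.le]
    congr 1
    push_cast
    ring
  have hP2 : P ^ 2 = P ^ (2 : ℝ) := by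
    rw [← Real.rpow_natCast]
    norm_num
  refine ⟨?_, ?_, ?_, ?_⟩
  · rw [← Real.rpow_mul hP0.le, h4]
    exact Real.rpow_le_rpow_of_exponent_le hP (by linarith)
  · rw [← Real.rpow_mul hP0.le, h4, ← Real.rpow_add hP0]
    exact Real.rpow_le_rpow_of_exponent_le hP (by linarith)
  · rw [← Real.rpow_mul hP0.le, h5, hsq, hP2, ← Real.rpow_add hP0, ← Real.rpow_add hP0]
    exact Real.rpow_le_rpow_of_exponent_le hP (by linarith)
  · rw [hsq, hP2, ← Real.rpow_add hP0, ← Real.rpow_add hP0]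
    have : 2 * (κ - 1) + (2 + -(2 * κ)) = 0 := by ring
    rw [this, Real.rpow_zero]

theorem mixE_bound {κ1 κ2 : ℝ} (h1 : 1 < κ1) (h12 : κ1 ≤ κ2) {s : ℕ} (hs : s ≤ 1) (q : ℕ) :
    ∃ C : ℝ, 0 < C ∧ ∀ P : ℝ, 16 ≤ P → ∀ κ : ℝ, κ1 ≤ κ → κ ≤ κ2 →
      ∀ w ∈ mix (fun x => x ^ (1 - 1 / κ1)) s q P,
        |rs (fun x => (x : ℝ) ^ κ) w| ≤ C * P ^ κ ∧
        |rs (fun x => (x : ℝ) ^ κ * Real.log x) w| ≤ C * (P ^ κ * Real.log P) := by
  obtain ⟨hl0, hl1⟩ := MixE_lam h1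
  have h16 : (0 : ℝ) < 16 ^ κ2 := Real.rpow_pos_of_pos (by norm_num) _
  refine ⟨(2 * q + s + 1) * (2 * 16 ^ κ2), by positivity, fun P hP κ hκ1 hκ2 w hw => ?_⟩
  have hP0 : 0 < P := by linarith
  have hlet : ∀ w ∈ mix (fun x => x ^ (1 - 1 / κ1)) s q P, ∀ n ∈ w, (n : ℝ) ≤ 16 * P := by
    refine mix_le q P P fun i _ => ?_
    rw [MixE_iter hP0.le]
    refine ⟨Real.rpow_nonneg hP0.le _, ?_⟩
    calc P ^ ((1 - 1 / κ1) ^ i) ≤ P ^ (1 : ℝ) :=
          Real.rpow_le_rpow_of_exponent_le (by linarith) (pow_le_one₀ hl0.le hl1.le)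
      _ = P := Real.rpow_one P
  have hpos := mix_pos (nx := fun x => x ^ (1 - 1 / κ1)) (s := s) q P
  have hk0 : 0 ≤ κ := by linarith
  have hPk : 0 < P ^ κ := Real.rpow_pos_of_pos hP0 _
  have hlog := MixE_log hP
  have hb : ∀ w ∈ mix (fun x => x ^ (1 - 1 / κ1)) s q P, ∀ n ∈ w,
      (n : ℝ) ^ κ ≤ 16 ^ κ2 * P ^ κ := by
    intro w hw n hn
    calc (n : ℝ) ^ κ ≤ (16 * P) ^ κ := Real.rpow_le_rpow (Nat.cast_nonneg _) (hlet w hw n hn) hk0
      _ = 16 ^ κ * P ^ κ := Real.mul_rpow (by norm_num) hP0.le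
      _ ≤ 16 ^ κ2 * P ^ κ := mul_le_mul_of_nonneg_right
          (Real.rpow_le_rpow_of_exponent_le (by norm_num) hκ2) hPk.le
  have hB1 : ∀ w ∈ mix (fun x => x ^ (1 - 1 / κ1)) s q P, ∀ n ∈ w,
      |(fun x : ℕ => (x : ℝ) ^ κ) n| ≤ 16 ^ κ2 * P ^ κ := by
    intro w hw n hn
    show |(n : ℝ) ^ κ| ≤ _
    rw [abs_of_nonneg (Real.rpow_nonneg (Nat.cast_nonneg _) _)]
    exact hb w hw n hn
  have hB2 : ∀ w ∈ mix (fun x => x ^ (1 - 1 / κ1)) s q P, ∀ n ∈ w,
      |(fun x : ℕ => (x : ℝ) ^ κ * Real.log x) n| ≤ 2 * 16 ^ κ2 * (P ^ κ * Real.log P) := by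
    intro w hw n hn
    show |(n : ℝ) ^ κ * Real.log n| ≤ _
    have hn1 : (1 : ℝ) ≤ n := by exact_mod_cast hpos w hw n hn
    have h3 : 0 ≤ (n : ℝ) ^ κ := Real.rpow_nonneg (Nat.cast_nonneg _) _
    have h4 : 0 ≤ Real.log n := Real.log_nonneg hn1
    rw [abs_of_nonneg (mul_nonneg h3 h4)]
    have h5 : Real.log n ≤ 2 * Real.log P := by
      calc Real.log n ≤ Real.log (16 * P) := Real.log_le_log (by linarith) (hlet w hw n hn)
        _ = Real.log 16 + Real.log P := Real.log_mul (by norm_num) hP0.ne'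
        _ ≤ 2 * Real.log P := by
            have := Real.log_le_log (by norm_num) hP
            linarith
    calc (n : ℝ) ^ κ * Real.log n ≤ (16 ^ κ2 * P ^ κ) * (2 * Real.log P) :=
          mul_le_mul (hb w hw n hn) h5 h4 (by positivity)
      _ = 2 * 16 ^ κ2 * (P ^ κ * Real.log P) := by ring
  have r1 := mix_rs_le hs q _ P _ hB1 w hw
  have r2 := mix_rs_le hs q _ P _ hB2 w hw
  have hq0 : (0 : ℝ) ≤ 2 * q + s := by positivity
  constructor
  · refine r1.trans ?_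
    have h6 : 0 ≤ 16 ^ κ2 * P ^ κ := by positivity
    have h7 : (0 : ℝ) ≤ (2 * q + s) * (16 ^ κ2 * P ^ κ) := mul_nonneg hq0 h6
    calc (2 * (q : ℝ) + s) * (16 ^ κ2 * P ^ κ)
        ≤ 2 * ((2 * (q : ℝ) + s) * (16 ^ κ2 * P ^ κ)) + 2 * (16 ^ κ2 * P ^ κ) := by linarith
      _ = (2 * q + s + 1) * (2 * 16 ^ κ2) * P ^ κ := by ring
  · refine r2.trans ?_
    have h6 : 0 ≤ 16 ^ κ2 * (P ^ κ * Real.log P) := by positivity
    calc (2 * (q : ℝ) + s) * (2 * 16 ^ κ2 * (P ^ κ * Real.log P))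
        ≤ (2 * (q : ℝ) + s) * (2 * 16 ^ κ2 * (P ^ κ * Real.log P)) +
            2 * (16 ^ κ2 * (P ^ κ * Real.log P)) := by linarith
      _ = (2 * q + s + 1) * (2 * 16 ^ κ2) * (P ^ κ * Real.log P) := by ring

/-- The induction step, case by case, as an inequality between numbers. -/
private lemma MixE_num {C1 C2 L T A B D K Lg W Q P m m1 E N M : ℝ} (hC1 : 0 < C1) (hC2 : 1 ≤ C2)
    (hA : 0 ≤ A) (hAB : A ≤ B) (hT : 1 ≤ T) (hD : 0 < D) (hK : 0 < K) (hLg : 1 ≤ Lg) (hW : 0 < W)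
    (hQ : 1 ≤ Q) (hP : 1 ≤ P) (hm : 0 ≤ m) (hKD : K ≤ D) (hDK : D ≤ T * K)
    (hDW : D ^ 2 * (P ^ 2 * W) = 1) (hE : B ^ 2 ≤ E) (hL : L = C2 * ((2 + C1) * (3 + 2 * C1)))
    (hN : N ≤ C2 * (1 + (A + C1 * K) / D) * (1 + ((B + C1 * (K * Lg)) + (A + C1 * K) * Lg) / D))
    (hN0 : 0 ≤ N) (hM0 : 0 ≤ M)
    (hM : (K ≤ B ∧ M ≤ m) ∨ (B < K ∧ M ≤ Q * m * (P ^ 2 * T ^ 2 * W) * E))
    (hm1 : P ^ 2 * m ≤ 2 * m1) (hLog : 2 * L * Lg ≤ T ^ 2) :
    N * M ≤ T ^ 4 * Q * m1 * W * E := by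
  have hT0 : 0 < T := by linarith
  have hLg0 : 0 < Lg := by linarith
  have hB : 0 ≤ B := hA.trans hAB
  have hL0 : 0 < L := by
    rw [hL]
    positivity
  have hE0 : 0 ≤ E := (sq_nonneg B).trans hE
  -- it suffices to bound by the intermediate expression
  have key : N * M ≤ L * Lg * T ^ 2 * Q * (P ^ 2 * m) * W * E := by
    rcases hM with ⟨hKB, hM⟩ | ⟨hBK, hM⟩
    · -- case A
      have hX1 : 1 ≤ T * B / D := by
        rw [one_le_div hD]
        exact hDK.trans (mul_le_mul_of_nonneg_left hKB hT0.le)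
      have hBX : B / D ≤ T * B / D :=
        div_le_div_of_nonneg_right (by nlinarith) hD.le
      have hX0 : 0 < T * B / D := by linarith
      set X := T * B / D with hX
      have a1 : 1 + (A + C1 * K) / D ≤ (2 + C1) * X := by
        have : (A + C1 * K) / D ≤ (1 + C1) * (B / D) := by
          rw [← mul_div_assoc]
          apply div_le_div_of_nonneg_right _ hD.le
          nlinarith
        nlinarith
      have a2 : 1 + ((B + C1 * (K * Lg)) + (A + C1 * K) * Lg) / D ≤ (3 + 2 * C1) * X * Lg := by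
        have b1 : (B + C1 * (K * Lg)) + (A + C1 * K) * Lg ≤ (2 + 2 * C1) * (B * Lg) := by
          have c1 : B ≤ B * Lg := le_mul_of_one_le_right hB hLg
          have c2 : K * Lg ≤ B * Lg := mul_le_mul_of_nonneg_right hKB hLg0.le
          have c3 : A * Lg ≤ B * Lg := mul_le_mul_of_nonneg_right hAB hLg0.le
          nlinarith
        have b2 : ((B + C1 * (K * Lg)) + (A + C1 * K) * Lg) / D ≤ (2 + 2 * C1) * (X * Lg) := by
          calc ((B + C1 * (K * Lg)) + (A + C1 * K) * Lg) / D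
              ≤ (2 + 2 * C1) * (B * Lg) / D := div_le_div_of_nonneg_right b1 hD.le
            _ = (2 + 2 * C1) * ((B / D) * Lg) := by ring
            _ ≤ (2 + 2 * C1) * (X * Lg) := by
                apply mul_le_mul_of_nonneg_left _ (by positivity)
                exact mul_le_mul_of_nonneg_right hBX hLg0.le
        have b3 : 1 ≤ X * Lg := by nlinarith
        nlinarith
      have a3 : N ≤ L * Lg * X ^ 2 := by
        refine hN.trans ?_
        have d1 : 0 ≤ 1 + (A + C1 * K) / D := by positivity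
        have d2 : 0 ≤ 1 + ((B + C1 * (K * Lg)) + (A + C1 * K) * Lg) / D := by positivity
        calc C2 * (1 + (A + C1 * K) / D) * (1 + ((B + C1 * (K * Lg)) + (A + C1 * K) * Lg) / D)
            = C2 * ((1 + (A + C1 * K) / D) *
                (1 + ((B + C1 * (K * Lg)) + (A + C1 * K) * Lg) / D)) := by ring
          _ ≤ C2 * (((2 + C1) * X) * ((3 + 2 * C1) * X * Lg)) := by
              apply mul_le_mul_of_nonneg_left _ (by linarith)
              exact mul_le_mul a1 a2 d2 (by positivity)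
          _ = L * Lg * X ^ 2 := by
              rw [hL]
              ring
      have a4 : X ^ 2 = T ^ 2 * B ^ 2 * (P ^ 2 * W) := by
        have : X ^ 2 * 1 = T ^ 2 * B ^ 2 * (P ^ 2 * W) := by
          rw [← hDW, hX]
          field_simp
        rw [mul_one] at this
        exact this
      calc N * M ≤ (L * Lg * X ^ 2) * m := mul_le_mul a3 hM hM0 (by positivity)
        _ = L * Lg * T ^ 2 * 1 * (P ^ 2 * m) * W * B ^ 2 := by
            rw [a4]
            ring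
        _ ≤ L * Lg * T ^ 2 * Q * (P ^ 2 * m) * W * E := by
            apply mul_le_mul _ hE (sq_nonneg _) (by positivity)
            apply mul_le_mul_of_nonneg_right _ hW.le
            apply mul_le_mul_of_nonneg_right _ (by positivity)
            exact mul_le_mul_of_nonneg_left hQ (by positivity)
    · -- case B
      have a1 : 1 + (A + C1 * K) / D ≤ 2 + C1 := by
        have : (A + C1 * K) / D ≤ 1 + C1 := by
          rw [div_le_iff₀ hD]
          nlinarith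
        linarith
      have a2 : 1 + ((B + C1 * (K * Lg)) + (A + C1 * K) * Lg) / D ≤ (3 + 2 * C1) * Lg := by
        have b1 : ((B + C1 * (K * Lg)) + (A + C1 * K) * Lg) / D ≤ (2 + 2 * C1) * Lg := by
          rw [div_le_iff₀ hD]
          have c0 : B ≤ D := by linarith
          have c1 : B ≤ D * Lg := by nlinarith
          have c2 : K * Lg ≤ D * Lg := mul_le_mul_of_nonneg_right hKD hLg0.le
          have c3 : A * Lg ≤ D * Lg := mul_le_mul_of_nonneg_right (by linarith) hLg0.le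
          nlinarith
        nlinarith
      have a3 : N ≤ L * Lg := by
        refine hN.trans ?_
        have d2 : 0 ≤ 1 + ((B + C1 * (K * Lg)) + (A + C1 * K) * Lg) / D := by positivity
        calc C2 * (1 + (A + C1 * K) / D) * (1 + ((B + C1 * (K * Lg)) + (A + C1 * K) * Lg) / D)
            = C2 * ((1 + (A + C1 * K) / D) *
                (1 + ((B + C1 * (K * Lg)) + (A + C1 * K) * Lg) / D)) := by ring
          _ ≤ C2 * ((2 + C1) * ((3 + 2 * C1) * Lg)) := by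
              apply mul_le_mul_of_nonneg_left _ (by linarith)
              exact mul_le_mul a1 a2 d2 (by positivity)
          _ = L * Lg := by
              rw [hL]
              ring
      calc N * M ≤ (L * Lg) * (Q * m * (P ^ 2 * T ^ 2 * W) * E) :=
            mul_le_mul a3 hM hM0 (by positivity)
        _ = L * Lg * T ^ 2 * Q * (P ^ 2 * m) * W * E := by ring
  refine key.trans ?_
  have hm10 : 0 ≤ m1 := by nlinarith [mul_nonneg (sq_nonneg P) hm]
  calc L * Lg * T ^ 2 * Q * (P ^ 2 * m) * W * E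
      ≤ L * Lg * T ^ 2 * Q * (2 * m1) * W * E := by
        apply mul_le_mul_of_nonneg_right _ hE0
        apply mul_le_mul_of_nonneg_right _ hW.le
        exact mul_le_mul_of_nonneg_left hm1 (by positivity)
    _ = (2 * L * Lg) * (T ^ 2 * Q * m1 * W * E) := by ring
    _ ≤ T ^ 2 * (T ^ 2 * Q * m1 * W * E) := by
        apply mul_le_mul_of_nonneg_right hLog (by positivity)
    _ = T ^ 4 * Q * m1 * W * E := by ring

theorem mixE {κ1 κ2 η : ℝ} (h1 : 1 < κ1) (h12 : κ1 ≤ κ2) (hη : 0 < η) (hκη : κ2 - κ1 ≤ η)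
    {s : ℕ} (hs : s ≤ 1) (q : ℕ) :
    ∃ P0 : ℝ, 16 ≤ P0 ∧ ∀ P : ℝ, P0 ≤ P → ∀ κ : ℝ, κ1 ≤ κ → κ ≤ κ2 → ∀ α β A B : ℝ,
      0 ≤ A → A ≤ B →
      cn (mix (fun x => x ^ (1 - 1 / κ1)) s q P) (fun w =>
        |rs (fun x => (x : ℝ) ^ κ) w - α| ≤ A ∧
        |rs (fun x => (x : ℝ) ^ κ * Real.log x) w - β| ≤ B) ≤
      P ^ (4 * η * (q + 1)) * ((mix (fun x => x ^ (1 - 1 / κ1)) s q P).card : ℝ) * P ^ (-(2 * κ)) *
        (B ^ 2 + (P ^ ((1 - 1 / κ1) ^ q)) ^ (2 * κ - s) + s * (P ^ ((1 - 1 / κ1) ^ q)) ^ κ * A) := by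
  obtain ⟨hl0, hl1⟩ := MixE_lam h1
  induction q with
  | zero =>
    refine ⟨16, le_rfl, fun P hP κ hκ1 hκ2 α β A B hA hAB => ?_⟩
    have hP0 : 0 < P := by linarith
    have hP1 : 1 ≤ P := by linarith
    have hT : 1 ≤ P ^ (4 * η * (((0 : ℕ) : ℝ) + 1)) :=
      Real.one_le_rpow hP1 (by positivity)
    rw [pow_zero, Real.rpow_one]
    rcases Nat.le_one_iff_eq_zero_or_eq_one.1 hs with rfl | rfl
    · have h3 := cn_le_card (mix (fun x => x ^ (1 - 1 / κ1)) 0 0 P) (fun w =>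
        |rs (fun x => (x : ℝ) ^ κ) w - α| ≤ A ∧
        |rs (fun x => (x : ℝ) ^ κ * Real.log x) w - β| ≤ B)
      refine h3.trans ?_
      rw [card_mix_zero]
      have h4 : P ^ (-(2 * κ)) * P ^ (2 * κ) = 1 := by
        rw [← Real.rpow_add hP0, neg_add_cancel, Real.rpow_zero]
      have h5 : 0 < P ^ (-(2 * κ)) := Real.rpow_pos_of_pos hP0 _
      have h6 : 1 ≤ P ^ (-(2 * κ)) * (B ^ 2 + P ^ (2 * κ - ((0 : ℕ) : ℝ)) +
          ((0 : ℕ) : ℝ) * P ^ κ * A) := by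
        have : B ^ 2 + P ^ (2 * κ - ((0 : ℕ) : ℝ)) + ((0 : ℕ) : ℝ) * P ^ κ * A =
            B ^ 2 + P ^ (2 * κ) := by
          rw [Nat.cast_zero]
          ring_nf
        rw [this, mul_add, h4]
        have := mul_nonneg h5.le (sq_nonneg B)
        linarith
      rw [Nat.cast_one, mul_one, mul_assoc]
      exact one_le_mul_of_one_le_of_one_le hT h6
    · rw [cn_mix_zero_one, card_mix_zero_one]
      have h3 : cn (mainI P) (fun x => |rs (fun x => (x : ℝ) ^ κ) [x] - α| ≤ A ∧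
          |rs (fun x => (x : ℝ) ^ κ * Real.log x) [x] - β| ≤ B) ≤
          cn (mainI P) (fun u => |(u : ℝ) ^ κ - α| ≤ A) := by
        apply cn_mono
        intro x _ hx
        have := hx.1
        simpa [rs] using this
      have h4 := singleE (κ := κ) (P := P) (α := α) (L := A) (by linarith) hP1 hA
      refine (h3.trans h4).trans ?_
      have h5 := card_mainI_ge hP1
      have hD : 0 < P ^ (κ - 1) := Real.rpow_pos_of_pos hP0 _
      have h6 : P * (P ^ (-(2 * κ)) * P ^ (2 * κ - ((1 : ℕ) : ℝ))) = 1 := by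
        rw [← Real.rpow_add hP0]
        have : -(2 * κ) + (2 * κ - ((1 : ℕ) : ℝ)) = -1 := by
          push_cast
          ring
        rw [this, Real.rpow_neg_one]
        exact mul_inv_cancel₀ hP0.ne'
      have h7 : P * (P ^ (-(2 * κ)) * P ^ κ) = 1 / P ^ (κ - 1) := by
        rw [eq_div_iff hD.ne', mul_assoc, ← Real.rpow_add hP0, ← Real.rpow_add hP0]
        have : -(2 * κ) + κ + (κ - 1) = -1 := by ring
        rw [this, Real.rpow_neg_one]
        exact mul_inv_cancel₀ hP0.ne'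
      have h8 : 0 < P ^ (-(2 * κ)) := Real.rpow_pos_of_pos hP0 _
      have h9 : 0 < P ^ (2 * κ - ((1 : ℕ) : ℝ)) := Real.rpow_pos_of_pos hP0 _
      have h10 : 0 < P ^ κ := Real.rpow_pos_of_pos hP0 _
      have h11 : 0 ≤ B ^ 2 + P ^ (2 * κ - ((1 : ℕ) : ℝ)) + ((1 : ℕ) : ℝ) * P ^ κ * A := by
        positivity
      calc 1 + 2 * A / P ^ (κ - 1) ≤ 14 * (1 + A * (1 / P ^ (κ - 1))) := by
            have : 0 ≤ A * (1 / P ^ (κ - 1)) := by positivity
            have h12 : 2 * A / P ^ (κ - 1) = 2 * (A * (1 / P ^ (κ - 1))) := by ring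
            rw [h12]
            linarith
        _ = 14 * (P * (P ^ (-(2 * κ)) * P ^ (2 * κ - ((1 : ℕ) : ℝ))) +
              A * (P * (P ^ (-(2 * κ)) * P ^ κ))) := by rw [h6, h7]
        _ = 1 * (14 * P) * P ^ (-(2 * κ)) * (0 + P ^ (2 * κ - ((1 : ℕ) : ℝ)) +
              ((1 : ℕ) : ℝ) * P ^ κ * A) := by
            rw [Nat.cast_one]
            ring
        _ ≤ P ^ (4 * η * (((0 : ℕ) : ℝ) + 1)) * ((mainI P).card : ℝ) * P ^ (-(2 * κ)) *
              (B ^ 2 + P ^ (2 * κ - ((1 : ℕ) : ℝ)) + ((1 : ℕ) : ℝ) * P ^ κ * A) := by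
            apply mul_le_mul
            · apply mul_le_mul_of_nonneg_right _ h8.le
              exact mul_le_mul hT h5 (by positivity) (by linarith)
            · have := sq_nonneg B
              linarith
            · positivity
            · positivity
  | succ q ih =>
    obtain ⟨P1, hP1, ih⟩ := ih
    obtain ⟨C1, hC1, hbd⟩ := mixE_bound h1 h12 hs q
    obtain ⟨C2, hC2, hpair⟩ := pairE κ2
    set L : ℝ := C2 * ((2 + C1) * (3 + 2 * C1)) with hL
    have hL0 : 0 < L := by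
      rw [hL]
      positivity
    have hev1 : ∀ᶠ P : ℝ in atTop, 2 * L * Real.log P ≤ P ^ (2 * η) := by
      have h3 := (isLittleO_log_rpow_atTop (r := 2 * η) (by positivity)).bound
        (c := 1 / (2 * L)) (by positivity)
      filter_upwards [h3, eventually_ge_atTop 1] with P hP hP1
      rw [Real.norm_eq_abs, Real.norm_eq_abs, abs_of_nonneg (Real.log_nonneg hP1),
        abs_of_nonneg (Real.rpow_nonneg (by linarith) _)] at hP
      calc 2 * L * Real.log P ≤ 2 * L * (1 / (2 * L) * P ^ (2 * η)) :=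
            mul_le_mul_of_nonneg_left hP (by positivity)
        _ = P ^ (2 * η) := by
            field_simp
    have hev2 : ∀ᶠ P : ℝ in atTop, P1 ≤ P ^ (1 - 1 / κ1) :=
      (tendsto_rpow_atTop hl0).eventually_ge_atTop P1
    obtain ⟨P0, hP0⟩ := eventually_atTop.1 (hev1.and hev2)
    refine ⟨max P0 16, le_max_right _ _, fun P hP κ hκ1 hκ2 α β A B hA hAB => ?_⟩
    have hP16 : 16 ≤ P := (le_max_right _ _).trans hP
    obtain ⟨hlogP, hP2⟩ := hP0 P ((le_max_left _ _).trans hP)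
    have hPpos : 0 < P := by linarith
    have hPone : 1 ≤ P := by linarith
    have hlog := MixE_log hP16
    have hB : 0 ≤ B := hA.trans hAB
    obtain ⟨f1, f2, f3, f4⟩ := MixE_facts h1 hκ1 hη (by linarith) hPone
    have hP2le : P ^ (1 - 1 / κ1) ≤ P := by
      calc P ^ (1 - 1 / κ1) ≤ P ^ (1 : ℝ) :=
            Real.rpow_le_rpow_of_exponent_le hPone hl1.le
        _ = P := Real.rpow_one P
    have hP216 : 16 ≤ P ^ (1 - 1 / κ1) := hP1.trans hP2
    have hK : 0 < (P ^ (1 - 1 / κ1)) ^ κ := Real.rpow_pos_of_pos (by linarith) _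
    have hlog2 : Real.log (P ^ (1 - 1 / κ1)) ≤ Real.log P :=
      Real.log_le_log (by linarith) hP2le
    have hT : 1 ≤ P ^ η := Real.one_le_rpow hPone hη.le
    have hQ : 1 ≤ P ^ (4 * η * ((q : ℝ) + 1)) := Real.one_le_rpow hPone (by positivity)
    have hD : 0 < P ^ (κ - 1) := Real.rpow_pos_of_pos hPpos _
    have hW : 0 < P ^ (-(2 * κ)) := Real.rpow_pos_of_pos hPpos _
    -- the exponents
    have hE1 : (P ^ (1 - 1 / κ1)) ^ ((1 - 1 / κ1) ^ q) = P ^ ((1 - 1 / κ1) ^ (q + 1)) := by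
      rw [← Real.rpow_mul hPpos.le, pow_succ']
    set E : ℝ := B ^ 2 + (P ^ ((1 - 1 / κ1) ^ (q + 1))) ^ (2 * κ - s) +
      s * (P ^ ((1 - 1 / κ1) ^ (q + 1))) ^ κ * A with hE
    have hEB : B ^ 2 ≤ E := by
      rw [hE]
      have e1 : 0 ≤ (P ^ ((1 - 1 / κ1) ^ (q + 1))) ^ (2 * κ - s) :=
        Real.rpow_nonneg (Real.rpow_nonneg hPpos.le _) _
      have e2 : 0 ≤ (s : ℝ) * (P ^ ((1 - 1 / κ1) ^ (q + 1))) ^ κ * A :=
        mul_nonneg (mul_nonneg (Nat.cast_nonneg _)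
          (Real.rpow_nonneg (Real.rpow_nonneg hPpos.le _) _)) hA
      linarith
    have hE0 : 0 ≤ E := (sq_nonneg B).trans hEB
    set m : ℝ := ((mix (fun x => x ^ (1 - 1 / κ1)) s q (P ^ (1 - 1 / κ1))).card : ℝ) with hm
    have hm0 : 0 ≤ m := Nat.cast_nonneg _
    have hm1 : P ^ 2 * m ≤ 2 * ((mix (fun x => x ^ (1 - 1 / κ1)) s (q + 1) P).card : ℝ) := by
      rw [card_mix_succ]
      push_cast
      have g1 := card_mainI_ge hPone
      have g2 := card_J1_ge hP16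
      have g3 : 14 * P * (P / 16) ≤ ((mainI P).card : ℝ) * ((J1 P).card : ℝ) :=
        mul_le_mul g1 g2 (by positivity) (Nat.cast_nonneg _)
      have g4 : P ^ 2 ≤ 2 * (((mainI P).card : ℝ) * ((J1 P).card : ℝ)) := by nlinarith
      calc P ^ 2 * m ≤ 2 * (((mainI P).card : ℝ) * ((J1 P).card : ℝ)) * m :=
            mul_le_mul_of_nonneg_right g4 hm0
        _ = 2 * (((mainI P).card : ℝ) * ((J1 P).card : ℝ) * m) := by ring
    -- the pairs of first letters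
    set L1 : ℝ := A + C1 * (P ^ (1 - 1 / κ1)) ^ κ with hL1
    set L2 : ℝ := B + C1 * ((P ^ (1 - 1 / κ1)) ^ κ * Real.log P) with hL2
    have hL10 : 0 ≤ L1 := by positivity
    have hL20 : 0 ≤ L2 := by positivity
    have hN := hpair P hP16 κ (by linarith) hκ2 α β L1 L2 hL10 hL20
    set cond : ℕ × ℕ → Prop := fun p => |(p.1 : ℝ) ^ κ + (p.2 : ℝ) ^ κ - α| ≤ L1 ∧
        |(p.1 : ℝ) ^ κ * Real.log p.1 + (p.2 : ℝ) ^ κ * Real.log p.2 - β| ≤ L2 with hcond
    have hN0 : 0 ≤ cn (mainI P ×ˢ J1 P) cond := cn_nonneg _ _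
    have hsplit : ∀ (g : ℕ → ℝ) (u v : ℕ) (w : List ℕ) (c : ℝ),
        rs g (u :: v :: w) - c = rs g w - (c - g u - g v) := by
      intro g u v w c
      rw [rs_cons, rs_cons]
      ring
    -- nothing outside
    have hout : ∀ u ∈ mainI P, ∀ v ∈ J1 P, ¬ cond (u, v) →
        cn (mix (fun x => x ^ (1 - 1 / κ1)) s q (P ^ (1 - 1 / κ1))) (fun w =>
          |rs (fun x => (x : ℝ) ^ κ) (u :: v :: w) - α| ≤ A ∧
          |rs (fun x => (x : ℝ) ^ κ * Real.log x) (u :: v :: w) - β| ≤ B) ≤ 0 := by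
      intro u _ v _ hc
      refine le_of_eq (cn_zero fun w hw hp => hc ?_)
      obtain ⟨b1, b2⟩ := hbd _ hP216 κ hκ1 hκ2 w hw
      rw [rs_cons, rs_cons, rs_cons, rs_cons] at hp
      obtain ⟨p1, p2⟩ := hp
      refine ⟨?_, ?_⟩
      · show |(u : ℝ) ^ κ + (v : ℝ) ^ κ - α| ≤ L1
        rw [hL1]
        rw [abs_le] at b1 p1 ⊢
        constructor <;> linarith [b1.1, b1.2, p1.1, p1.2]
      · show |(u : ℝ) ^ κ * Real.log u + (v : ℝ) ^ κ * Real.log v - β| ≤ L2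
        rw [hL2]
        have b3 : C1 * ((P ^ (1 - 1 / κ1)) ^ κ * Real.log (P ^ (1 - 1 / κ1))) ≤
            C1 * ((P ^ (1 - 1 / κ1)) ^ κ * Real.log P) :=
          mul_le_mul_of_nonneg_left (mul_le_mul_of_nonneg_left hlog2 hK.le) hC1.le
        rw [abs_le] at b2 p2 ⊢
        constructor <;> linarith [b2.1, b2.2, p2.1, p2.2]
    have hnum : ∀ M : ℝ, 0 ≤ M →
        (((P ^ (1 - 1 / κ1)) ^ κ ≤ B ∧ M ≤ m) ∨ (B < (P ^ (1 - 1 / κ1)) ^ κ ∧
          M ≤ P ^ (4 * η * ((q : ℝ) + 1)) * m * (P ^ 2 * (P ^ η) ^ 2 * P ^ (-(2 * κ))) * E)) →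
        cn (mainI P ×ˢ J1 P) cond * M ≤ (P ^ η) ^ 4 * P ^ (4 * η * ((q : ℝ) + 1)) *
          ((mix (fun x => x ^ (1 - 1 / κ1)) s (q + 1) P).card : ℝ) * P ^ (-(2 * κ)) * E := by
      intro M hM0 hM
      refine MixE_num hC1 hC2 hA hAB hT hD hK hlog hW hQ hPone hm0 f1 f2 f4 hEB hL hN hN0 hM0
        hM hm1 ?_
      calc 2 * L * Real.log P ≤ P ^ (2 * η) := hlogP
        _ = (P ^ η) ^ 2 := by
            rw [← Real.rpow_natCast, ← Real.rpow_mul hPpos.le]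
            congr 1
            push_cast
            ring
    have hexp : (P ^ η) ^ 4 * P ^ (4 * η * ((q : ℝ) + 1)) = P ^ (4 * η * (((q + 1 : ℕ) : ℝ) + 1)) := by
      rw [← Real.rpow_natCast, ← Real.rpow_mul hPpos.le, ← Real.rpow_add hPpos]
      congr 1
      push_cast
      ring
    rw [cn_mix_succ, ← hexp]
    by_cases hcase : (P ^ (1 - 1 / κ1)) ^ κ ≤ B
    · refine le_trans (MixE_sum (mainI P) (J1 P) cond m _ ?_ hout) (hnum m hm0 (Or.inl ⟨hcase, le_rfl⟩))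
      intro u _ v _ _
      exact cn_le_card _ _
    · push Not at hcase
      have hM0 : 0 ≤ P ^ (4 * η * ((q : ℝ) + 1)) * m * (P ^ 2 * (P ^ η) ^ 2 * P ^ (-(2 * κ))) * E := by
        positivity
      refine le_trans (MixE_sum (mainI P) (J1 P) cond _ _ ?_ hout)
        (hnum _ hM0 (Or.inr ⟨hcase, le_rfl⟩))
      intro u _ v _ _
      have hi := ih (P ^ (1 - 1 / κ1)) hP2 κ hκ1 hκ2 (α - (u : ℝ) ^ κ - (v : ℝ) ^ κ)
        (β - (u : ℝ) ^ κ * Real.log u - (v : ℝ) ^ κ * Real.log v) A B hA hAB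
      have hmono : cn (mix (fun x => x ^ (1 - 1 / κ1)) s q (P ^ (1 - 1 / κ1))) (fun w =>
          |rs (fun x => (x : ℝ) ^ κ) (u :: v :: w) - α| ≤ A ∧
          |rs (fun x => (x : ℝ) ^ κ * Real.log x) (u :: v :: w) - β| ≤ B) ≤
          cn (mix (fun x => x ^ (1 - 1 / κ1)) s q (P ^ (1 - 1 / κ1))) (fun w =>
          |rs (fun x => (x : ℝ) ^ κ) w - (α - (u : ℝ) ^ κ - (v : ℝ) ^ κ)| ≤ A ∧
          |rs (fun x => (x : ℝ) ^ κ * Real.log x) w -
            (β - (u : ℝ) ^ κ * Real.log u - (v : ℝ) ^ κ * Real.log v)| ≤ B) := by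
        apply cn_mono
        intro w _ hp
        rw [hsplit, hsplit] at hp
        exact hp
      refine hmono.trans (hi.trans ?_)
      rw [hE1]
      have q1 : (P ^ (1 - 1 / κ1)) ^ (4 * η * ((q : ℝ) + 1)) ≤ P ^ (4 * η * ((q : ℝ) + 1)) :=
        Real.rpow_le_rpow (by linarith) hP2le (by positivity)
      have q2 : 0 ≤ (P ^ (1 - 1 / κ1)) ^ (4 * η * ((q : ℝ) + 1)) :=
        Real.rpow_nonneg (by linarith) _
      have q3 : 0 ≤ (P ^ (1 - 1 / κ1)) ^ (-(2 * κ)) := Real.rpow_nonneg (by linarith) _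
      apply mul_le_mul_of_nonneg_right _ hE0
      apply mul_le_mul _ f3 q3 (by positivity)
      exact mul_le_mul_of_nonneg_right q1 hm0

end FWar
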