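import Pool.Agent.FWar.MixPA
import Pool.Agent.MWg.Pair

/-!
# FWar.MixP: two conditions on the words

`nx = nxt k`, `s = 1`, `j = k - 1 ≥ 1`, `m_q(P) = (mix (nxt k) 1 q P).card`,
`τ_q(P) = ((nxt k)^[q] P)^(k-1)`. Constants `C` depend on `k, f, q`. (Compare
`Pool/Agent/MWg/LemAB.lean`, the same induction for chains without the single letter.)

PROOF by induction on `q`.

(i) If `M ≥ P^(k-1)`: `thr = ((nxt k)^[q+1] P)^k ≤ (nxt k P)^k = k 16^k P^(k-1) ≤ k 16^k M` for large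
`P` (the iterates of `nxt k` at large arguments decrease: `nxt_le_self`), so `mix_A` gives
`≤ C m_q(P) M/P^k ≤ C m_q(P) M²/P^(2k-1)`. So let `M < P^(k-1)`.

(ii) `q = 0`: `count_up` gives `≤ 1 + 2M/P^(k-1) ≤ 3` and the right side is
`≥ C 14 P · P^(2k-2)/P^(2k-1) = 14 C`.

(iii) Step `q → q+1`, `M < P^(k-1)`: `P2 = nxt k P`, `P2^k = k 16^k P^(k-1)`, `τ_(q+1)(P) = τ_q(P2)`,
`P2^(k-1) ≥ P^(k-2)` (since `P2 ≥ P^((k-1)/k)` and `(k-1)²/k ≥ k - 2`). For `w ∈ mix (nxt k) 1 q P2`: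
`|rs f w| ≤ C_v P2^k`, `|rs (x^(k-1)) w| ≤ C_v P2^(k-1)` (`mix_rs_bound`, `mix_pw_bound`).
By `cn_mix_succ` the count is `∑_u ∑_v #{w : |rs f w - α'| ≤ M, |rs (x^(k-1)) w - β'| ≤ M}`,
`α' = α - f u - f v`, `β' = β - u^(k-1) - v^(k-1)`, and the inner count is `0` unless
`|f u + f v - α| ≤ L1 := M + C_v P2^k` and `|u^(k-1) + v^(k-1) - β| ≤ L2 := M + C_v P2^(k-1)`.
`L1 ≤ C P^(k-1)`. By `lemPair` (`j = k - 1`, `j - 1 = k - 2`) the number of such pairs `(u,v)` is at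
most `C (1 + L1/P^(k-1)) (1 + L1/P^(k-1) + L2/P^(k-2)) ≤ C (1 + L2/P^(k-2))`.
 * Case A: `M ≥ P2^(k-1)`. At most `C M/P^(k-2)` pairs (`M ≥ P2^(k-1) ≥ P^(k-2)`); each inner count is
   at most (`mix_A` for the first condition only) `C m_q(P2) max(M, thr_q(P2))/P2^k` with
   `thr_q(P2) = ((nxt k)^[q+1] P2)^k ≤ (nxt k P2)^k = k 16^k P2^(k-1) ≤ k 16^k M`. Total
   `≤ C (M/P^(k-2)) m_q(P2) M/P^(k-1) = C m_q(P2) M²/P^(2k-3)`.
 * Case B: `M < P2^(k-1)`. At most `C (1 + P2^(k-1)/P^(k-2)) ≤ C P2^(k-1)/P^(k-2)` pairs; each inner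
   count is by induction `≤ C m_q(P2) max(M, τ)²/P2^(2k-1)`, `τ = τ_q(P2)`. Total
   `≤ C m_q(P2) max(M,τ)²/(P^(k-2) P2^k) ≤ C m_q(P2) max(M,τ)²/P^(2k-3)`.
 Finally `m_(q+1)(P) = |mainI P| |J1 P| m_q(P2) ≥ 14 P (P/16) m_q(P2)`, so
 `m_q(P2)/P^(2k-3) ≤ 2 m_(q+1)(P)/P^(2k-1)`.
-/

namespace FWar

open MWg Finset Filter Topology

private theorem nxt_iter_le {k : ℕ} (hk : 2 ≤ k) (q : ℕ) :
    ∃ P0 : ℝ, ∀ P, P0 ≤ P → (nxt k)^[q] P ≤ P := by
  have hk1 : 1 ≤ k := by omega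
  induction q with
  | zero => exact ⟨0, fun P _ => by simp⟩
  | succ q ih =>
    obtain ⟨P0, h0⟩ := ih
    obtain ⟨P1, h1⟩ := Filter.eventually_atTop.1 ((nxt_tendsto hk).eventually_ge_atTop P0)
    refine ⟨max P1 ((k : ℝ) * 16 ^ k), fun P hP => ?_⟩
    rw [Function.iterate_succ_apply]
    exact (h0 _ (h1 P (le_trans (le_max_left _ _) hP))).trans
      (nxt_le_self hk1 (le_trans (le_max_right _ _) hP))

/-- The threshold of `mix_A` is at most `k 16^k M` if `M ≥ P^(k-1)`. -/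
private theorem thr_le {k : ℕ} (hk : 2 ≤ k) (q : ℕ) :
    ∃ P0 : ℝ, ∀ P, P0 ≤ P → ∀ M : ℝ, P ^ (k - 1) ≤ M →
      max M (((nxt k)^[q + 1] P) ^ k) ≤ (k : ℝ) * 16 ^ k * M := by
  have hk1 : 1 ≤ k := by omega
  obtain ⟨P0, h0⟩ := nxt_iter_le hk q
  obtain ⟨P1, h1⟩ := Filter.eventually_atTop.1 ((nxt_tendsto hk).eventually_ge_atTop P0)
  refine ⟨max P1 1, fun P hP M hM => ?_⟩
  have hP1 : 1 ≤ P := le_trans (le_max_right _ _) hP
  have hM0 : 0 ≤ M := le_trans (by positivity) hM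
  have hD := nxt_const_ge_one hk1
  refine max_le ?_ ?_
  · nlinarith
  · rw [Function.iterate_succ_apply]
    have h2 := h0 _ (h1 P (le_trans (le_max_left _ _) hP))
    have h3 : 0 ≤ (nxt k)^[q] (nxt k P) :=
      le_trans zero_le_one (nxt_iter_ge_one hk1 q (nxt_ge_one hk1 hP1))
    calc ((nxt k)^[q] (nxt k P)) ^ k ≤ (nxt k P) ^ k := pow_le_pow_left₀ h3 h2 k
      _ = (k : ℝ) * 16 ^ k * P ^ (k - 1) := nxt_pow hk1 (by linarith)
      _ ≤ (k : ℝ) * 16 ^ k * M := mul_le_mul_of_nonneg_left hM (by positivity)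

private theorem pow_ge {k j : ℕ} (hj : 1 ≤ j) (hjk : j < k) {P : ℝ} (hP : 1 ≤ P) :
    P ^ (j - 1) ≤ (nxt k P) ^ j := by
  have hk1 : 1 ≤ k := by omega
  have hP0 : (0 : ℝ) ≤ P := by linarith
  have hn0 : 0 ≤ nxt k P := nxt_nonneg hP0
  have h1 : P ^ (k - 1) ≤ nxt k P ^ k := by
    rw [nxt_pow hk1 hP0]
    have := nxt_const_ge_one hk1
    have h4 : 0 ≤ P ^ (k - 1) := by positivity
    nlinarith
  have h2 : (P ^ (j - 1)) ^ k ≤ ((nxt k P) ^ j) ^ k := by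
    calc (P ^ (j - 1)) ^ k = P ^ ((j - 1) * k) := by rw [← pow_mul]
      _ ≤ P ^ ((k - 1) * j) := by
          apply pow_le_pow_right₀ hP
          obtain ⟨a, rfl⟩ : ∃ a, j = a + 1 := ⟨j - 1, by omega⟩
          obtain ⟨b, rfl⟩ : ∃ b, k = b + 1 := ⟨k - 1, by omega⟩
          simp only [Nat.add_sub_cancel]
          nlinarith
      _ = (P ^ (k - 1)) ^ j := by rw [← pow_mul]
      _ ≤ (nxt k P ^ k) ^ j := pow_le_pow_left₀ (by positivity) h1 j
      _ = ((nxt k P) ^ j) ^ k := by rw [← pow_mul, ← pow_mul, Nat.mul_comm]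
  exact (pow_le_pow_iff_left₀ (by positivity) (by positivity) (by omega)).1 h2

/-- Sum of the inner counts: bounded by the number of good pairs times a uniform bound. -/
private theorem mixAB_sum {k j : ℕ} {f : ℕ → ℝ} {q : ℕ} {P α β M Cv Cw B N : ℝ}
    (hv : ∀ w ∈ mix (nxt k) 1 q (nxt k P), |rs f w| ≤ Cv * (nxt k P) ^ k)
    (hw : ∀ w ∈ mix (nxt k) 1 q (nxt k P),
      |rs (fun x => (x : ℝ) ^ j) w| ≤ Cw * (nxt k P) ^ j)
    (hB0 : 0 ≤ B)
    (hB : ∀ α' β' : ℝ, cn (mix (nxt k) 1 q (nxt k P)) (fun w => |rs f w - α'| ≤ M ∧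
        |rs (fun x => (x : ℝ) ^ j) w - β'| ≤ M) ≤ B)
    (hN : ((open Classical in ((mainI P ×ˢ J1 P).filter fun p =>
        |f p.1 + f p.2 - α| ≤ M + Cv * (nxt k P) ^ k ∧
          |(p.1 : ℝ) ^ j + (p.2 : ℝ) ^ j - β| ≤ M + Cw * (nxt k P) ^ j).card : ℕ) : ℝ) ≤ N) :
    cn (mix (nxt k) 1 (q + 1) P) (fun w => |rs f w - α| ≤ M ∧
        |rs (fun x => (x : ℝ) ^ j) w - β| ≤ M) ≤ N * B := by
  classical
  rw [cn_mix_succ, ← Finset.sum_product']
  have hstep : ∀ p ∈ mainI P ×ˢ J1 P,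
      cn (mix (nxt k) 1 q (nxt k P)) (fun w => |rs f (p.1 :: p.2 :: w) - α| ≤ M ∧
        |rs (fun x => (x : ℝ) ^ j) (p.1 :: p.2 :: w) - β| ≤ M) ≤
      if (|f p.1 + f p.2 - α| ≤ M + Cv * (nxt k P) ^ k ∧
          |(p.1 : ℝ) ^ j + (p.2 : ℝ) ^ j - β| ≤ M + Cw * (nxt k P) ^ j) then B else 0 := by
    intro p _
    split_ifs with hc
    · refine le_trans (cn_mono ?_) (hB (α - f p.1 - f p.2) (β - (p.1 : ℝ) ^ j - (p.2 : ℝ) ^ j))
      intro w _ h
      rw [rs_cons, rs_cons, rs_cons, rs_cons] at h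
      refine ⟨?_, ?_⟩
      · have e : rs f w - (α - f p.1 - f p.2) = f p.1 + (f p.2 + rs f w) - α := by ring
        rw [e]; exact h.1
      · have e : rs (fun x => (x : ℝ) ^ j) w -
            (β - (p.1 : ℝ) ^ j - (p.2 : ℝ) ^ j) = (p.1 : ℝ) ^ j + ((p.2 : ℝ) ^ j +
            rs (fun x => (x : ℝ) ^ j) w) - β := by ring
        rw [e]; exact h.2
    · rw [cn_zero]
      intro w hwm h
      rw [rs_cons, rs_cons, rs_cons, rs_cons] at h
      apply hc
      have h1 := hv w hwm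
      have h2 := hw w hwm
      have h3 := h.1
      have h4 := h.2
      rw [abs_le] at h1 h2 h3 h4
      constructor
      · rw [abs_le]; constructor <;> linarith [h1.1, h1.2, h3.1, h3.2]
      · rw [abs_le]; constructor <;> linarith [h2.1, h2.2, h4.1, h4.2]
  refine le_trans (Finset.sum_le_sum hstep) ?_
  rw [← Finset.sum_filter, Finset.sum_const, nsmul_eq_mul]
  refine mul_le_mul_of_nonneg_right (le_trans (le_of_eq ?_) hN) hB0
  congr!

theorem mix_AB {k : ℕ} (hk : 2 ≤ k) {f : ℕ → ℝ} (hf : Good k f) (q : ℕ) :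
    ∃ C : ℝ, 0 < C ∧ ∃ P0 : ℝ, 1 ≤ P0 ∧ ∀ P, P0 ≤ P → ∀ α β M : ℝ, 0 ≤ M →
      cn (mix (nxt k) 1 q P) (fun w => |rs f w - α| ≤ M ∧
        |rs (fun x => (x : ℝ) ^ (k - 1)) w - β| ≤ M) ≤
        C * ((mix (nxt k) 1 q P).card : ℝ) * (max M (((nxt k)^[q] P) ^ (k - 1))) ^ 2 /
          P ^ (2 * k - 1) := by
  have hk1 : 1 ≤ k := by omega
  have hj : 1 ≤ k - 1 := by omega
  have hjk : k - 1 < k := by omega
  have hD1 := nxt_const_ge_one hk1
  -- the case of large `M`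
  have big : ∀ q : ℕ, ∃ C : ℝ, 0 < C ∧ ∃ P0 : ℝ, 1 ≤ P0 ∧ ∀ P, P0 ≤ P → ∀ α β M : ℝ,
      P ^ (k - 1) ≤ M →
      cn (mix (nxt k) 1 q P) (fun w => |rs f w - α| ≤ M ∧
        |rs (fun x => (x : ℝ) ^ (k - 1)) w - β| ≤ M) ≤
        C * ((mix (nxt k) 1 q P).card : ℝ) * (max M (((nxt k)^[q] P) ^ (k - 1))) ^ 2 /
          P ^ (2 * k - 1) := by
    intro q
    obtain ⟨CA, hCA, PA, hPA, hA⟩ := mix_A hk hf q
    obtain ⟨PT, hT⟩ := thr_le hk q
    refine ⟨CA * ((k : ℝ) * 16 ^ k), by positivity, max PA PT, le_max_of_le_left hPA, ?_⟩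
    intro P hP α β M hM
    have hPA' : PA ≤ P := (le_max_left _ _).trans hP
    have hPT' : PT ≤ P := (le_max_right _ _).trans hP
    have hP1 : 1 ≤ P := hPA.trans hPA'
    have hP0 : 0 < P := by linarith
    have hM0 : 0 ≤ M := le_trans (by positivity) hM
    have h1 := hA P hPA' α M hM0
    have h2 := hT P hPT' M hM
    have hm : 0 ≤ ((mix (nxt k) 1 q P).card : ℝ) := Nat.cast_nonneg _
    refine (cn_mono (fun w _ h => h.1)).trans (h1.trans ?_)
    have e1 : P ^ (2 * k - 1) = P ^ (k - 1) * P ^ k := by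
      rw [← pow_add]; congr 1; omega
    have h3 : M * P ^ (k - 1) ≤ (max M (((nxt k)^[q] P) ^ (k - 1))) ^ 2 := by
      have h4 : M ≤ max M (((nxt k)^[q] P) ^ (k - 1)) := le_max_left _ _
      have h5 : M * P ^ (k - 1) ≤ M * M := mul_le_mul_of_nonneg_left hM hM0
      nlinarith
    rw [div_le_div_iff₀ (by positivity) (by positivity), e1]
    have h6 : max M (((nxt k)^[q + 1] P) ^ k) * P ^ (k - 1) ≤
        (k : ℝ) * 16 ^ k * (max M (((nxt k)^[q] P) ^ (k - 1))) ^ 2 := by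
      calc max M (((nxt k)^[q + 1] P) ^ k) * P ^ (k - 1)
          ≤ ((k : ℝ) * 16 ^ k * M) * P ^ (k - 1) := mul_le_mul_of_nonneg_right h2 (by positivity)
        _ = (k : ℝ) * 16 ^ k * (M * P ^ (k - 1)) := by ring
        _ ≤ _ := mul_le_mul_of_nonneg_left h3 (by positivity)
    calc CA * ((mix (nxt k) 1 q P).card : ℝ) * max M (((nxt k)^[q + 1] P) ^ k) *
          (P ^ (k - 1) * P ^ k)
        = (CA * ((mix (nxt k) 1 q P).card : ℝ) * P ^ k) *
          (max M (((nxt k)^[q + 1] P) ^ k) * P ^ (k - 1)) := by ring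
      _ ≤ (CA * ((mix (nxt k) 1 q P).card : ℝ) * P ^ k) *
          ((k : ℝ) * 16 ^ k * (max M (((nxt k)^[q] P) ^ (k - 1))) ^ 2) :=
        mul_le_mul_of_nonneg_left h6 (by positivity)
      _ = _ := by ring
  -- it suffices to treat small `M`
  suffices small : ∃ C : ℝ, 0 < C ∧ ∃ P0 : ℝ, 1 ≤ P0 ∧ ∀ P, P0 ≤ P → ∀ α β M : ℝ, 0 ≤ M →
      M < P ^ (k - 1) →
      cn (mix (nxt k) 1 q P) (fun w => |rs f w - α| ≤ M ∧
        |rs (fun x => (x : ℝ) ^ (k - 1)) w - β| ≤ M) ≤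
        C * ((mix (nxt k) 1 q P).card : ℝ) * (max M (((nxt k)^[q] P) ^ (k - 1))) ^ 2 /
          P ^ (2 * k - 1) by
    obtain ⟨C1, hC1, P1, hP1, h1⟩ := big q
    obtain ⟨C2, hC2, P2, hP2, h2⟩ := small
    refine ⟨C1 + C2, by positivity, max P1 P2, le_max_of_le_left hP1, ?_⟩
    intro P hP α β M hM
    have hP1' : P1 ≤ P := (le_max_left _ _).trans hP
    have hP2' : P2 ≤ P := (le_max_right _ _).trans hP
    have hP0 : 0 < P := by linarith
    have hm : 0 ≤ ((mix (nxt k) 1 q P).card : ℝ) := Nat.cast_nonneg _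
    rcases le_or_gt (P ^ (k - 1)) M with hc | hc
    · refine (h1 P hP1' α β M hc).trans ?_
      gcongr
      linarith
    · refine (h2 P hP2' α β M hM hc).trans ?_
      gcongr
      linarith
  induction q with
  | zero =>
    obtain ⟨P1, hP1, hcnt⟩ := count_up hk hf
    refine ⟨1, one_pos, P1, hP1, ?_⟩
    intro P hP α β M hM hMP
    have hPone : 1 ≤ P := hP1.trans hP
    have hP0 : 0 < P := by linarith
    rw [cn_mix_zero_one, card_mix_zero_one]
    have h1 : cn (mainI P) (fun x => |rs f [x] - α| ≤ M ∧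
        |rs (fun x => (x : ℝ) ^ (k - 1)) [x] - β| ≤ M) ≤ 1 + 2 * M / P ^ (k - 1) := by
      refine (cn_mono (p' := fun x => |f x - α| ≤ M) ?_).trans (hcnt P hP α M hM)
      intro x _ h
      have := h.1
      rw [rs_cons] at this
      simpa [rs] using this
    refine h1.trans ?_
    simp only [Function.iterate_zero, id_eq]
    have h2 : M / P ^ (k - 1) ≤ 1 := by
      rw [div_le_one (by positivity)]
      exact hMP.le
    have h3 : max M (P ^ (k - 1)) = P ^ (k - 1) := max_eq_right hMP.le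
    rw [h3]
    have h4 := card_mainI_ge hPone
    have e1 : P ^ (2 * k - 1) = P * (P ^ (k - 1)) ^ 2 := by
      rw [← pow_mul, ← pow_succ']
      congr 1
      omega
    have h5 : (14 : ℝ) ≤ 1 * ((mainI P).card : ℝ) * (P ^ (k - 1)) ^ 2 / P ^ (2 * k - 1) := by
      rw [e1, le_div_iff₀ (by positivity)]
      have h6 : 0 ≤ (P ^ (k - 1)) ^ 2 := by positivity
      nlinarith
    have h7 : 2 * M / P ^ (k - 1) = 2 * (M / P ^ (k - 1)) := by ring
    rw [h7]
    linarith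
  | succ q ih =>
    -- the full statement for `q`
    have full : ∃ C : ℝ, 0 < C ∧ ∃ P0 : ℝ, 1 ≤ P0 ∧ ∀ P, P0 ≤ P → ∀ α β M : ℝ, 0 ≤ M →
        M < P ^ (k - 1) →
        cn (mix (nxt k) 1 q P) (fun w => |rs f w - α| ≤ M ∧
          |rs (fun x => (x : ℝ) ^ (k - 1)) w - β| ≤ M) ≤
          C * ((mix (nxt k) 1 q P).card : ℝ) * (max M (((nxt k)^[q] P) ^ (k - 1))) ^ 2 /
            P ^ (2 * k - 1) := ih
    obtain ⟨C1, hC1, P1, hP1, ihq⟩ := full
    obtain ⟨CA, hCA, PA, hPA, hA⟩ := mix_A hk hf q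
    obtain ⟨PT, hT⟩ := thr_le hk q
    obtain ⟨Cp, hCp, Pp, hPp, hp⟩ := lemPair hj hjk hf
    obtain ⟨Cv, hCv, Pv, hPv, hv⟩ := mix_rs_bound hk hf q
    obtain ⟨Cw, hCw, Pw, hPw, hw⟩ := mix_pw_bound hk (k - 1) q
    obtain ⟨Pn, hPn⟩ := (Filter.eventually_atTop.mp (Filter.tendsto_atTop.mp (nxt_tendsto hk)
      (max (max P1 (max PA PT)) (max Pv Pw))))
    set a : ℝ := 1 + Cv * ((k : ℝ) * 16 ^ k) with ha
    have ha0 : 0 < a := by positivity
    set K : ℝ := Cp * (1 + a) * (2 + a + Cw) with hK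
    have hK0 : 0 < K := by positivity
    set D : ℝ := (k : ℝ) * 16 ^ k with hD
    have hD0 : 0 < D := by positivity
    refine ⟨2 * K * (CA * D + C1), by positivity, max (max Pn Pp) 16,
      le_trans (by norm_num) (le_max_right _ _), ?_⟩
    intro P hP α β M hM0 hMk
    have hPPn : Pn ≤ P := le_trans (le_trans (le_max_left _ _) (le_max_left _ _)) hP
    have hPPp : Pp ≤ P := le_trans (le_trans (le_max_right _ _) (le_max_left _ _)) hP
    have hP16 : 16 ≤ P := le_trans (le_max_right _ _) hP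
    have hPone : 1 ≤ P := by linarith
    have hPpos : 0 < P := by linarith
    rw [Function.iterate_succ_apply]
    set P2 : ℝ := nxt k P with hP2
    have hb := hPn P hPPn
    have hP2P1 : P1 ≤ P2 := le_trans (le_trans (le_max_left _ _) (le_max_left _ _)) hb
    have hP2PA : PA ≤ P2 := le_trans (le_trans (le_trans (le_max_left _ _) (le_max_right _ _))
      (le_max_left _ _)) hb
    have hP2PT : PT ≤ P2 := le_trans (le_trans (le_trans (le_max_right _ _) (le_max_right _ _))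
      (le_max_left _ _)) hb
    have hP2Pv : Pv ≤ P2 := le_trans (le_trans (le_max_left _ _) (le_max_right _ _)) hb
    have hP2Pw : Pw ≤ P2 := le_trans (le_trans (le_max_right _ _) (le_max_right _ _)) hb
    have hP2one : 1 ≤ P2 := le_trans hP1 hP2P1
    have hP2pos : 0 < P2 := by linarith
    have hP2k : P2 ^ k = (k : ℝ) * 16 ^ k * P ^ (k - 1) := nxt_pow hk1 hPpos.le
    have hP2kge : P ^ (k - 1) ≤ P2 ^ k := by
      rw [hP2k]
      have h4 : 0 ≤ P ^ (k - 1) := by positivity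
      nlinarith
    have hP2j : P ^ (k - 1 - 1) ≤ P2 ^ (k - 1) := pow_ge hj hjk hPone
    set Mx : ℝ := max M (((nxt k)^[q] P2) ^ (k - 1)) with hMx
    have hMMx : M ≤ Mx := le_max_left _ _
    have hMx0 : 0 ≤ Mx := hM0.trans hMMx
    have hPk0 : 0 < P ^ (k - 1) := by positivity
    have hPj0 : 0 < P ^ (k - 1 - 1) := by positivity
    have hT2 : 0 ≤ ((mix (nxt k) 1 q P2).card : ℝ) := Nat.cast_nonneg _
    have hT1 : 0 ≤ ((mix (nxt k) 1 (q + 1) P).card : ℝ) := Nat.cast_nonneg _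
    -- the size of the pair count
    have hL1 : (M + Cv * P2 ^ k) / P ^ (k - 1) ≤ a := by
      rw [div_le_iff₀ hPk0, hP2k, ha]
      nlinarith
    have hL1' : 0 ≤ M + Cv * P2 ^ k := by positivity
    have hL2' : 0 ≤ M + Cw * P2 ^ (k - 1) := by positivity
    have hcard := hp P hPPp α β (M + Cv * P2 ^ k) (M + Cw * P2 ^ (k - 1)) hL1' hL2'
    -- a common reduction
    have key : ∀ Y : ℝ, P ^ (k - 1 - 1) ≤ Y → M + Cw * P2 ^ (k - 1) ≤ (1 + Cw) * Y →
        Cp * (1 + (M + Cv * P2 ^ k) / P ^ (k - 1)) *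
          (1 + (M + Cv * P2 ^ k) / P ^ (k - 1) + (M + Cw * P2 ^ (k - 1)) / P ^ (k - 1 - 1)) ≤
          K * (Y / P ^ (k - 1 - 1)) := by
      intro Y hY1 hY2
      have hy1 : 1 ≤ Y / P ^ (k - 1 - 1) := by rw [le_div_iff₀ hPj0]; linarith
      have hy2 : (M + Cw * P2 ^ (k - 1)) / P ^ (k - 1 - 1) ≤ (1 + Cw) * (Y / P ^ (k - 1 - 1)) := by
        rw [← mul_div_assoc]
        exact div_le_div_of_nonneg_right hY2 hPj0.le
      have hz : 0 ≤ (M + Cv * P2 ^ k) / P ^ (k - 1) := by positivity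
      have hz2 : 0 ≤ (M + Cw * P2 ^ (k - 1)) / P ^ (k - 1 - 1) := by positivity
      calc Cp * (1 + (M + Cv * P2 ^ k) / P ^ (k - 1)) *
          (1 + (M + Cv * P2 ^ k) / P ^ (k - 1) + (M + Cw * P2 ^ (k - 1)) / P ^ (k - 1 - 1))
          ≤ Cp * (1 + a) * (1 + a + (1 + Cw) * (Y / P ^ (k - 1 - 1))) := by
            gcongr
        _ ≤ Cp * (1 + a) * ((1 + a) * (Y / P ^ (k - 1 - 1)) + (1 + Cw) * (Y / P ^ (k - 1 - 1))) := by
            gcongr
            nlinarith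
        _ = K * (Y / P ^ (k - 1 - 1)) := by rw [hK]; ring
    have htot : P ^ 2 * ((mix (nxt k) 1 q P2).card : ℝ) ≤
        2 * ((mix (nxt k) 1 (q + 1) P).card : ℝ) := by
      rw [card_mix_succ]
      push_cast
      have e1 := card_mainI_ge hPone
      have e2 := card_J1_ge hP16
      have e3 : P ^ 2 ≤ 2 * (((mainI P).card : ℝ) * ((J1 P).card : ℝ)) := by
        have e4 : (14 * P) * (P / 16) ≤ ((mainI P).card : ℝ) * ((J1 P).card : ℝ) :=
          mul_le_mul e1 e2 (by positivity) (by positivity)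
        nlinarith
      calc P ^ 2 * ((mix (nxt k) 1 q P2).card : ℝ)
          ≤ 2 * (((mainI P).card : ℝ) * ((J1 P).card : ℝ)) *
            ((mix (nxt k) 1 q P2).card : ℝ) := mul_le_mul_of_nonneg_right e3 hT2
        _ = _ := by ring
    have hfin : ∀ C' : ℝ, 0 ≤ C' → K * C' * (((mix (nxt k) 1 q P2).card : ℝ) * Mx ^ 2 /
        (P ^ (k - 1 - 1) * P ^ (k - 1))) ≤
        2 * K * C' * ((mix (nxt k) 1 (q + 1) P).card : ℝ) * Mx ^ 2 / P ^ (2 * k - 1) := by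
      intro C' hC'
      have e5 : P ^ (2 * k - 1) = P ^ 2 * (P ^ (k - 1 - 1) * P ^ (k - 1)) := by
        rw [← pow_add, ← pow_add]; congr 1; omega
      have e6 : ((mix (nxt k) 1 q P2).card : ℝ) * Mx ^ 2 / (P ^ (k - 1 - 1) * P ^ (k - 1)) =
          (P ^ 2 * ((mix (nxt k) 1 q P2).card : ℝ)) * (Mx ^ 2 / P ^ (2 * k - 1)) := by
        rw [e5]; field_simp
      rw [e6]
      have e7 : 0 ≤ Mx ^ 2 / P ^ (2 * k - 1) := by positivity
      calc K * C' * ((P ^ 2 * ((mix (nxt k) 1 q P2).card : ℝ)) * (Mx ^ 2 / P ^ (2 * k - 1)))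
          ≤ K * C' * ((2 * ((mix (nxt k) 1 (q + 1) P).card : ℝ)) * (Mx ^ 2 / P ^ (2 * k - 1))) := by
            gcongr
        _ = _ := by ring
    rcases le_or_gt (P2 ^ (k - 1)) M with hc | hc
    · -- case A
      have hB : ∀ α' β' : ℝ, cn (mix (nxt k) 1 q (nxt k P)) (fun w => |rs f w - α'| ≤ M ∧
          |rs (fun x => (x : ℝ) ^ (k - 1)) w - β'| ≤ M) ≤
          CA * ((mix (nxt k) 1 q P2).card : ℝ) * (D * M) / P2 ^ k := by
        intro α' β'
        refine le_trans (cn_mono (fun w _ h => h.1)) ((hA P2 hP2PA α' M hM0).trans ?_)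
        have h3 := hT P2 hP2PT M hc
        gcongr
      have hN := le_trans hcard (key M (le_trans hP2j hc) (by nlinarith))
      refine le_trans (mixAB_sum (Cv := Cv) (Cw := Cw) (hv P2 hP2Pv) (hw P2 hP2Pw)
        (by positivity) hB hN) ?_
      calc K * (M / P ^ (k - 1 - 1)) * (CA * ((mix (nxt k) 1 q P2).card : ℝ) * (D * M) / P2 ^ k)
          ≤ K * (M / P ^ (k - 1 - 1)) *
            (CA * ((mix (nxt k) 1 q P2).card : ℝ) * (D * M) / P ^ (k - 1)) := by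
            gcongr
        _ = K * (CA * D) * (((mix (nxt k) 1 q P2).card : ℝ) * M ^ 2 /
            (P ^ (k - 1 - 1) * P ^ (k - 1))) := by
            field_simp
        _ ≤ K * (CA * D) * (((mix (nxt k) 1 q P2).card : ℝ) * Mx ^ 2 /
            (P ^ (k - 1 - 1) * P ^ (k - 1))) := by
            gcongr
        _ ≤ 2 * K * (CA * D) * ((mix (nxt k) 1 (q + 1) P).card : ℝ) * Mx ^ 2 /
            P ^ (2 * k - 1) := hfin (CA * D) (by positivity)
        _ ≤ 2 * K * (CA * D + C1) * ((mix (nxt k) 1 (q + 1) P).card : ℝ) * Mx ^ 2 /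
            P ^ (2 * k - 1) := by
            gcongr
            linarith
    · -- case B
      have hB : ∀ α' β' : ℝ, cn (mix (nxt k) 1 q (nxt k P)) (fun w => |rs f w - α'| ≤ M ∧
          |rs (fun x => (x : ℝ) ^ (k - 1)) w - β'| ≤ M) ≤
          C1 * ((mix (nxt k) 1 q P2).card : ℝ) * Mx ^ 2 / P2 ^ (2 * k - 1) := by
        intro α' β'
        exact ihq P2 hP2P1 α' β' M hM0 hc
      have hN := le_trans hcard (key (P2 ^ (k - 1)) hP2j (by nlinarith))
      refine le_trans (mixAB_sum (Cv := Cv) (Cw := Cw) (hv P2 hP2Pv) (hw P2 hP2Pw)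
        (by positivity) hB hN) ?_
      have e8 : P2 ^ (2 * k - 1) = P2 ^ (k - 1) * P2 ^ k := by
        rw [← pow_add]; congr 1; omega
      calc K * (P2 ^ (k - 1) / P ^ (k - 1 - 1)) *
            (C1 * ((mix (nxt k) 1 q P2).card : ℝ) * Mx ^ 2 / P2 ^ (2 * k - 1))
          = K * C1 * ((mix (nxt k) 1 q P2).card : ℝ) * Mx ^ 2 / (P ^ (k - 1 - 1) * P2 ^ k) := by
            rw [e8]; field_simp
        _ ≤ K * C1 * ((mix (nxt k) 1 q P2).card : ℝ) * Mx ^ 2 /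
            (P ^ (k - 1 - 1) * P ^ (k - 1)) := by
            gcongr
        _ = K * C1 * (((mix (nxt k) 1 q P2).card : ℝ) * Mx ^ 2 /
            (P ^ (k - 1 - 1) * P ^ (k - 1))) := by
            ring
        _ ≤ 2 * K * C1 * ((mix (nxt k) 1 (q + 1) P).card : ℝ) * Mx ^ 2 /
            P ^ (2 * k - 1) := hfin C1 hC1.le
        _ ≤ 2 * K * (CA * D + C1) * ((mix (nxt k) 1 (q + 1) P).card : ℝ) * Mx ^ 2 /
            P ^ (2 * k - 1) := by
            gcongr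
            have : 0 ≤ CA * D := by positivity
            linarith

end FWar
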