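import Pool.Agent.FWar.MixB
import Pool.Agent.MWg.Count

/-!
# FWar.MixPA: one condition on the words (diminishing ranges)

`nx = nxt k` (`(nxt k P)^k = k 16^k P^(k-1)`, `nxt_pow`), one single last letter (`s = 1`).
`thr_q(P) = ((nxt k)^[q+1] P)^k`. Write `m_q(P) = (mix (nxt k) 1 q P).card`.

`mix_rs_bound`: for large `P` all scales `(nxt k)^[i] P`, `i ≤ q`, are in `[0, P]` (`nxt_le_self`,
`nxt_iter_tendsto`), so all letters are `≤ 16 P` (`mix_le`); `|f x| ≤ 2 x^k` for `x ≥ x0` (from
`good_lim`), and `|f x| ≤ c0` for `x < x0`; so `|f x| ≤ 2 · 16^k P^k` for all letters if `P` is large;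
apply `mix_rs_le`.

PROOF of `mix_A` by induction on `q`.
`q = 0`: words `[u]`, `u ∈ mainI P`: by `count_up` the count is at most `1 + 2M/P^(k-1)`; as
`thr_0(P) = k 16^k P^(k-1) ≥ P^(k-1)` this is `≤ 3 max(M, thr)/P^(k-1)` and
`m_0(P) = |mainI P| ≥ 14 P`.
Step: `P2 = nxt k P`, `P2^k = k 16^k P^(k-1) ≥ P^(k-1)`, `thr_(q+1)(P) = thr_q(P2)`. Let `C_v` be the
constant of `mix_rs_bound` for `q`, so `|rs f w| ≤ C_v P2^k` for `w ∈ mix (nxt k) 1 q P2`. By
`cn_mix_succ` the count is `∑_u ∑_v #{w : |f u + f v + rs f w - α| ≤ M}`.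
* `M ≥ P2^k`: for fixed `v`, `w` the number of `u` is at most `1 + 2M/P^(k-1) ≤ 3M/P^(k-1)`
  (`count_up`; exchange the sums); total `≤ |J1 P| m_q(P2) 3M/P^(k-1)`.
* `M < P2^k`: for fixed `v` the inner count vanishes unless
  `|f u - (α - f v)| ≤ M + C_v P2^k ≤ (1 + C_v) P2^k`, which by `count_up` leaves at most
  `1 + 2(1+C_v) P2^k/P^(k-1) ≤ C'` values of `u`; each inner count is, by induction,
  `≤ C m_q(P2) max(M, thr)/P2^k ≤ C m_q(P2) max(M,thr)/P^(k-1)`. Total
  `≤ |J1 P| C' C m_q(P2) max(M,thr)/P^(k-1)`.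
In both cases `m_(q+1)(P) = |mainI P| |J1 P| m_q(P2) ≥ 14 P |J1 P| m_q(P2)` gives the bound.
-/

namespace FWar

open MWg Finset Filter Topology

private theorem scales {k : ℕ} (hk : 2 ≤ k) (q : ℕ) : ∃ P0 : ℝ, 1 ≤ P0 ∧ ∀ P, P0 ≤ P →
    ∀ i ≤ q, 0 ≤ (nxt k)^[i] P ∧ (nxt k)^[i] P ≤ P := by
  induction q with
  | zero =>
    refine ⟨1, le_rfl, fun P hP i hi => ?_⟩
    have h0 : i = 0 := by omega
    rw [h0, Function.iterate_zero, id]
    exact ⟨by linarith, le_rfl⟩
  | succ q ih =>
    obtain ⟨P0, hP0, ih⟩ := ih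
    obtain ⟨P1, h1⟩ := eventually_atTop.1
      ((nxt_iter_tendsto hk q).eventually_ge_atTop ((k : ℝ) * 16 ^ k))
    refine ⟨max P0 P1, hP0.trans (le_max_left _ _), fun P hP i hi => ?_⟩
    have hPP0 : P0 ≤ P := (le_max_left _ _).trans hP
    have hPP1 : P1 ≤ P := (le_max_right _ _).trans hP
    rcases Nat.lt_or_ge q i with h | h
    · have hi' : i = q + 1 := by omega
      rw [hi', Function.iterate_succ_apply']
      have h2 := ih P hPP0 q le_rfl
      exact ⟨nxt_nonneg h2.1, (nxt_le_self (by omega) (h1 P hPP1)).trans h2.2⟩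
    · exact ih P hPP0 i h

theorem mix_rs_bound {k : ℕ} (hk : 2 ≤ k) {f : ℕ → ℝ} (hf : Good k f) (q : ℕ) :
    ∃ C : ℝ, 0 < C ∧ ∃ P0 : ℝ, 1 ≤ P0 ∧ ∀ P, P0 ≤ P → ∀ w ∈ mix (nxt k) 1 q P,
      |rs f w| ≤ C * P ^ k := by
  obtain ⟨P0, hP0, hsc⟩ := scales hk q
  have hlim := good_lim (by omega : 1 ≤ k) hf
  obtain ⟨x0, hx0⟩ := eventually_atTop.1
    ((hlim.eventually (gt_mem_nhds (show (1 : ℝ) < 2 by norm_num))).and
      (hlim.eventually (lt_mem_nhds (show (-2 : ℝ) < 1 by norm_num))))
  obtain ⟨c0, hc0⟩ : ∃ c0 : ℝ, c0 = ∑ x ∈ Finset.range (x0 + 1), |f x| := ⟨_, rfl⟩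
  have hc00 : 0 ≤ c0 := by
    rw [hc0]
    exact Finset.sum_nonneg fun x _ => abs_nonneg _
  have hall : ∀ x : ℕ, |f x| ≤ c0 + 2 * (x : ℝ) ^ k := by
    intro x
    rcases Nat.lt_or_ge x (x0 + 1) with h | h
    · have h1 : |f x| ≤ c0 := by
        rw [hc0]
        exact Finset.single_le_sum (f := fun x => |f x|) (fun x _ => abs_nonneg _)
          (Finset.mem_range.2 h)
      have h2 : (0 : ℝ) ≤ 2 * (x : ℝ) ^ k := by positivity
      linarith
    · have h1 := hx0 x (by omega)
      have hx : (0 : ℝ) < (x : ℝ) ^ k := by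
        have : 0 < x := by omega
        positivity
      have h2 := h1.1
      have h3 := h1.2
      rw [div_lt_iff₀ hx] at h2
      rw [lt_div_iff₀ hx] at h3
      have h4 : |f x| ≤ 2 * (x : ℝ) ^ k := by
        rw [abs_le]
        constructor
        · linarith
        · linarith
      linarith
  refine ⟨(2 * (q : ℝ) + 1) * (c0 + 2 * 16 ^ k), by positivity, P0, hP0, fun P hP w hw => ?_⟩
  have hP1 : 1 ≤ P := hP0.trans hP
  have hB : ∀ w ∈ mix (nxt k) 1 q P, ∀ n ∈ w, |f n| ≤ (c0 + 2 * 16 ^ k) * P ^ k := by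
    intro w hw n hn
    have h1 := mix_le q P P (hsc P hP) w hw n hn
    have h2 : (n : ℝ) ^ k ≤ 16 ^ k * P ^ k := by
      rw [← mul_pow]
      exact pow_le_pow_left₀ (Nat.cast_nonneg _) h1 _
    have h3 : (1 : ℝ) ≤ P ^ k := one_le_pow₀ hP1
    have h4 := hall n
    nlinarith
  have h5 := mix_rs_le (le_refl 1) q f P ((c0 + 2 * 16 ^ k) * P ^ k) hB w hw
  push_cast at h5
  rw [mul_assoc]
  exact h5

/-- The same for `x^j`, `j ≤ k`. -/
theorem mix_pw_bound {k : ℕ} (hk : 2 ≤ k) (j : ℕ) (q : ℕ) :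
    ∃ C : ℝ, 0 < C ∧ ∃ P0 : ℝ, 1 ≤ P0 ∧ ∀ P, P0 ≤ P → ∀ w ∈ mix (nxt k) 1 q P,
      |rs (fun x => (x : ℝ) ^ j) w| ≤ C * P ^ j := by
  obtain ⟨P0, hP0, hsc⟩ := scales hk q
  refine ⟨(2 * (q : ℝ) + 1) * 16 ^ j, by positivity, P0, hP0, fun P hP w hw => ?_⟩
  have hB : ∀ w ∈ mix (nxt k) 1 q P, ∀ n ∈ w, |(fun x : ℕ => (x : ℝ) ^ j) n| ≤ 16 ^ j * P ^ j := by
    intro w hw n hn
    have h1 := mix_le q P P (hsc P hP) w hw n hn
    show |(n : ℝ) ^ j| ≤ 16 ^ j * P ^ j
    rw [abs_of_nonneg (by positivity), ← mul_pow]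
    exact pow_le_pow_left₀ (Nat.cast_nonneg _) h1 _
  have h5 := mix_rs_le (le_refl 1) q (fun x : ℕ => (x : ℝ) ^ j) P (16 ^ j * P ^ j) hB w hw
  push_cast at h5
  rw [mul_assoc]
  exact h5

private theorem cn_card {ι : Type*} (W : Finset ι) (p : ι → Prop) [DecidablePred p] :
    cn W p = ((W.filter p).card : ℝ) := by
  unfold cn
  congr

theorem mix_A {k : ℕ} (hk : 2 ≤ k) {f : ℕ → ℝ} (hf : Good k f) (q : ℕ) :
    ∃ C : ℝ, 0 < C ∧ ∃ P0 : ℝ, 1 ≤ P0 ∧ ∀ P, P0 ≤ P → ∀ α M : ℝ, 0 ≤ M →
      cn (mix (nxt k) 1 q P) (fun w => |rs f w - α| ≤ M) ≤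
        C * ((mix (nxt k) 1 q P).card : ℝ) * max M (((nxt k)^[q + 1] P) ^ k) / P ^ k := by
  classical
  have hk1 : 1 ≤ k := by omega
  obtain ⟨Pu, hPu, hup⟩ := count_up hk hf
  induction q with
  | zero =>
    refine ⟨1, one_pos, Pu, hPu, fun P hP α M hM => ?_⟩
    have hP1 : 1 ≤ P := hPu.trans hP
    have hPpos : 0 < P := by linarith
    have hPn1 : 0 < P ^ (k - 1) := by positivity
    have hPn : P ^ k = P * P ^ (k - 1) := by
      rw [← pow_succ']
      congr 1
      omega
    have hthr : P ^ (k - 1) ≤ ((nxt k)^[0 + 1] P) ^ k := by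
      rw [Function.iterate_succ_apply, Function.iterate_zero, id, nxt_pow hk1 hPpos.le]
      exact le_mul_of_one_le_left hPn1.le (nxt_const_ge_one hk1)
    set Mx := max M (((nxt k)^[0 + 1] P) ^ k) with hMx
    have hMx1 : M ≤ Mx := le_max_left _ _
    have hMx2 : P ^ (k - 1) ≤ Mx := hthr.trans (le_max_right _ _)
    have hMx0 : 0 ≤ Mx := hM.trans hMx1
    rw [cn_mix_zero_one, card_mix_zero_one]
    have e1 : cn (mainI P) (fun x => |rs f [x] - α| ≤ M) ≤ 1 + 2 * M / P ^ (k - 1) := by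
      rw [cn_card]
      refine le_trans (le_of_eq ?_) (hup P hP α M hM)
      have : ∀ x : ℕ, rs f [x] = f x := fun x => by simp [rs]
      simp only [this]
    refine e1.trans ?_
    have hmain := card_mainI_ge hP1
    have e2 : 1 + 2 * M / P ^ (k - 1) ≤ 3 * Mx / P ^ (k - 1) := by
      rw [le_div_iff₀ hPn1, add_mul, div_mul_cancel₀ _ hPn1.ne']
      linarith
    refine e2.trans ?_
    have e3 : 3 * Mx / P ^ (k - 1) = 1 * (3 * P) * Mx / P ^ k := by
      rw [hPn]
      field_simp
    rw [e3]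
    apply div_le_div_of_nonneg_right _ (by positivity)
    apply mul_le_mul_of_nonneg_right _ hMx0
    linarith
  | succ q ih =>
    obtain ⟨C, hC, P0, hP0, ih⟩ := ih
    obtain ⟨Cv, hCv, Pv, hPv, hval⟩ := mix_rs_bound hk hf q
    obtain ⟨P1, h1⟩ := eventually_atTop.1 ((nxt_tendsto hk).eventually_ge_atTop (max P0 Pv))
    set C3 : ℝ := 1 + 2 * (1 + Cv) * (k * 16 ^ k) with hC3
    have hC3pos : 0 < C3 := by positivity
    refine ⟨max 1 (C3 * C), lt_of_lt_of_le one_pos (le_max_left _ _), max Pu P1,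
      hPu.trans (le_max_left _ _), fun P hP α M hM0 => ?_⟩
    have hPPu : Pu ≤ P := (le_max_left _ _).trans hP
    have hPP1 : P1 ≤ P := (le_max_right _ _).trans hP
    have hP1 : 1 ≤ P := hPu.trans hPPu
    have hPpos : 0 < P := by linarith
    have hP2P0 : P0 ≤ nxt k P := (le_max_left _ _).trans (h1 P hPP1)
    have hP2Pv : Pv ≤ nxt k P := (le_max_right _ _).trans (h1 P hPP1)
    have hP2n := nxt_pow hk1 hPpos.le
    have hP21 := nxt_ge_one hk1 hP1
    rw [Function.iterate_succ_apply]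
    set P2 := nxt k P with hP2
    have hP2pos : 0 < P2 := by linarith
    set Mx := max M (((nxt k)^[q + 1] P2) ^ k) with hMx
    have hMx1 : M ≤ Mx := le_max_left _ _
    have hMx0 : 0 ≤ Mx := hM0.trans hMx1
    have hPn1 : 0 < P ^ (k - 1) := by positivity
    have hPn : P ^ k = P * P ^ (k - 1) := by
      rw [← pow_succ']
      congr 1
      omega
    have hcon := nxt_const_ge_one hk1
    have hge : P ^ (k - 1) ≤ P2 ^ k := by
      rw [hP2n]
      exact le_mul_of_one_le_left hPn1.le hcon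
    set T2 : ℝ := ((mix (nxt k) 1 q P2).card : ℝ) with hT2
    have hT0 : 0 ≤ T2 := Nat.cast_nonneg _
    have hJ0 : (0 : ℝ) ≤ ((J1 P).card : ℝ) := Nat.cast_nonneg _
    have hmain := card_mainI_ge hP1
    have hcard : ((mix (nxt k) 1 (q + 1) P).card : ℝ) =
        ((mainI P).card : ℝ) * ((J1 P).card : ℝ) * T2 := by
      rw [card_mix_succ]
      push_cast
      rfl
    have hcard0 : (0 : ℝ) ≤ ((mix (nxt k) 1 (q + 1) P).card : ℝ) := Nat.cast_nonneg _
    -- the final comparison
    have hfin : ∀ K : ℝ, 0 ≤ K → ((J1 P).card : ℝ) * (K * T2 * Mx / P ^ (k - 1)) ≤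
        K / 3 * ((mix (nxt k) 1 (q + 1) P).card : ℝ) * Mx / P ^ k := by
      intro K hK
      rw [hcard, hPn]
      have h2 : ((J1 P).card : ℝ) * (K * T2 * Mx / P ^ (k - 1)) =
          K / 3 * ((3 * P) * ((J1 P).card : ℝ) * T2) * Mx / (P * P ^ (k - 1)) := by
        field_simp
      rw [h2]
      apply div_le_div_of_nonneg_right _ (by positivity)
      apply mul_le_mul_of_nonneg_right _ hMx0
      apply mul_le_mul_of_nonneg_left _ (by linarith)
      apply mul_le_mul_of_nonneg_right _ hT0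
      apply mul_le_mul_of_nonneg_right _ hJ0
      linarith
    have hmono : ∀ K : ℝ, K ≤ max 1 (C3 * C) →
        K * ((mix (nxt k) 1 (q + 1) P).card : ℝ) * Mx / P ^ k ≤
        max 1 (C3 * C) * ((mix (nxt k) 1 (q + 1) P).card : ℝ) * Mx / P ^ k := by
      intro K hK
      apply div_le_div_of_nonneg_right _ (by positivity)
      apply mul_le_mul_of_nonneg_right _ hMx0
      exact mul_le_mul_of_nonneg_right hK hcard0
    rcases le_or_gt (P2 ^ k) M with hcase | hcase
    · -- large `M`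
      have e1 : cn (mix (nxt k) 1 (q + 1) P) (fun w => |rs f w - α| ≤ M) =
          ∑ v ∈ J1 P, ∑ w ∈ mix (nxt k) 1 q P2,
            ((((mainI P).filter fun u => |f u - (α - f v - rs f w)| ≤ M).card : ℕ) : ℝ) := by
        rw [cn_mix_succ, Finset.sum_comm]
        refine Finset.sum_congr rfl fun v _ => ?_
        have e2 : ∀ u ∈ mainI P,
            cn (mix (nxt k) 1 q (nxt k P)) (fun w => |rs f (u :: v :: w) - α| ≤ M) =
            ∑ w ∈ mix (nxt k) 1 q P2, (if |f u - (α - f v - rs f w)| ≤ M then (1 : ℝ) else 0) := by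
          intro u _
          rw [cn_card, Finset.card_filter]
          push_cast
          refine Finset.sum_congr rfl fun w _ => ?_
          have e3 : rs f (u :: v :: w) - α = f u - (α - f v - rs f w) := by
            rw [rs_cons, rs_cons]
            ring
          rw [e3]
        rw [Finset.sum_congr rfl e2, Finset.sum_comm]
        refine Finset.sum_congr rfl fun w _ => ?_
        rw [Finset.card_filter]
        push_cast
        rfl
      have e4 : ∀ v ∈ J1 P, ∑ w ∈ mix (nxt k) 1 q P2,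
            ((((mainI P).filter fun u => |f u - (α - f v - rs f w)| ≤ M).card : ℕ) : ℝ) ≤
            3 * T2 * Mx / P ^ (k - 1) := by
        intro v _
        have e5 : ∀ w ∈ mix (nxt k) 1 q P2,
            ((((mainI P).filter fun u => |f u - (α - f v - rs f w)| ≤ M).card : ℕ) : ℝ) ≤
            3 * Mx / P ^ (k - 1) := by
          intro w _
          have e6 := hup P hPPu (α - f v - rs f w) M hM0
          have e8 : 1 + 2 * M / P ^ (k - 1) ≤ 3 * Mx / P ^ (k - 1) := by
            rw [le_div_iff₀ hPn1, add_mul, div_mul_cancel₀ _ hPn1.ne']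
            linarith
          refine le_trans (le_of_eq ?_) (e6.trans e8)
          congr!
        refine (Finset.sum_le_sum e5).trans (le_of_eq ?_)
        rw [Finset.sum_const, nsmul_eq_mul]
        rw [← hT2]
        ring
      rw [e1]
      refine (Finset.sum_le_sum e4).trans ?_
      rw [Finset.sum_const, nsmul_eq_mul]
      refine le_trans (hfin 3 (by norm_num)) ?_
      exact hmono (3 / 3) (by
        rw [div_self (by norm_num : (3 : ℝ) ≠ 0)]
        exact le_max_left _ _)
    · -- small `M`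
      rw [cn_mix_succ, Finset.sum_comm, ← hP2]
      have e4 : ∀ v ∈ J1 P, ∑ u ∈ mainI P,
          cn (mix (nxt k) 1 q P2) (fun w => |rs f (u :: v :: w) - α| ≤ M) ≤
            (C3 * C) * T2 * Mx / P ^ (k - 1) := by
        intro v _
        have hB0 : 0 ≤ C * T2 * Mx / P2 ^ k := by positivity
        have e5 : ∀ u ∈ mainI P, cn (mix (nxt k) 1 q P2) (fun w => |rs f (u :: v :: w) - α| ≤ M) ≤
            (if |f u - (α - f v)| ≤ (1 + Cv) * P2 ^ k then (1 : ℝ) else 0) *
              (C * T2 * Mx / P2 ^ k) := by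
          intro u _
          split_ifs with hif
          · rw [one_mul]
            refine le_trans (cn_mono ?_) (ih P2 hP2P0 (α - f u - f v) M hM0)
            intro w _ hw
            rw [rs_cons, rs_cons] at hw
            have e3 : rs f w - (α - f u - f v) = f u + (f v + rs f w) - α := by
              ring
            rw [e3]
            exact hw
          · rw [zero_mul]
            have e6 : cn (mix (nxt k) 1 q P2) (fun w => |rs f (u :: v :: w) - α| ≤ M) = 0 := by
              apply cn_zero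
              intro w hw hle
              apply hif
              have e7 := hval P2 hP2Pv w hw
              rw [rs_cons, rs_cons] at hle
              have e8 : f u - (α - f v) = (f u + (f v + rs f w) - α) - rs f w := by ring
              rw [e8]
              refine (abs_sub _ _).trans ?_
              linarith
            exact e6.le
        refine (Finset.sum_le_sum e5).trans ?_
        rw [← Finset.sum_mul]
        have e9 : (∑ u ∈ mainI P, (if |f u - (α - f v)| ≤ (1 + Cv) * P2 ^ k then (1 : ℝ) else 0)) ≤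
            C3 := by
          have e10 := hup P hPPu (α - f v) ((1 + Cv) * P2 ^ k) (by positivity)
          have e11 : 1 + 2 * ((1 + Cv) * P2 ^ k) / P ^ (k - 1) = C3 := by
            rw [hC3, hP2n]
            field_simp
          rw [e11] at e10
          refine le_trans (le_of_eq ?_) e10
          rw [Finset.card_filter]
          push_cast
          refine Finset.sum_congr rfl fun u _ => ?_
          congr!
        calc (∑ u ∈ mainI P, (if |f u - (α - f v)| ≤ (1 + Cv) * P2 ^ k then (1 : ℝ) else 0)) *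
              (C * T2 * Mx / P2 ^ k) ≤ C3 * (C * T2 * Mx / P2 ^ k) :=
              mul_le_mul_of_nonneg_right e9 hB0
          _ ≤ C3 * (C * T2 * Mx / P ^ (k - 1)) := by
              apply mul_le_mul_of_nonneg_left _ hC3pos.le
              apply div_le_div_of_nonneg_left (by positivity) hPn1 hge
          _ = (C3 * C) * T2 * Mx / P ^ (k - 1) := by ring
      refine (Finset.sum_le_sum e4).trans ?_
      rw [Finset.sum_const, nsmul_eq_mul]
      refine (hfin (C3 * C) (by positivity)).trans (hmono _ ?_)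
      refine le_trans ?_ (le_max_right _ _)
      have : 0 < C3 * C := by positivity
      linarith

end FWar
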