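import Pool.Agent.FWar.PairS

/-!
# FWar.MixS: conditions on the words, shifted powers (uniform in the shift)

The same as `FWar.MixPA` and `FWar.MixP` (adapt `Pool/Agent/FWar/MixPA.lean`,
`Pool/Agent/FWar/MixP.lean`) with `f x = (x + b)^k` and `(x + b)^(k-1)` in place of `x^(k-1)`; all
constants are uniform for `|b| ≤ T`, `P ≥ P0(T)`. Replace `count_up` by `singleS` and `lemPair` by
`pairS`. See the headers of those files for the proofs.

`mixS_bound`: all letters are between `1` and `16 P` (`mix_le`), so `|x + b| ≤ 16 P + T ≤ 17 P` for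
`P ≥ T`; apply `mix_rs_le`.
-/

namespace FWar

open MWg Finset Filter Topology

private theorem ms_cn_card {ι : Type*} (W : Finset ι) (p : ι → Prop) [DecidablePred p] :
    cn W p = ((W.filter p).card : ℝ) := by
  unfold cn
  congr

private theorem ms_scales {k : ℕ} (hk : 2 ≤ k) (q : ℕ) : ∃ P0 : ℝ, 1 ≤ P0 ∧ ∀ P, P0 ≤ P →
    ∀ i ≤ q, 0 ≤ (nxt k)^[i] P ∧ (nxt k)^[i] P ≤ P := by
  induction q with
  | zero =>
    refine ⟨1, le_rfl, fun P hP i hi => ?_⟩
    have h0 : i = 0 := by omega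
    rw [h0, Function.iterate_zero, id]
    exact ⟨by linarith, le_rfl⟩
  | succ q ih =>
    obtain ⟨P0, hP0, ih⟩ := ih
    obtain ⟨P1, h1⟩ := eventually_atTop.1
      ((nxt_iter_tendsto hk q).eventually_ge_atTop ((k : ℝ) * 16 ^ k))
    refine ⟨max P0 P1, hP0.trans (le_max_left _ _), fun P hP i hi => ?_⟩
    have hPP0 : P0 ≤ P := (le_max_left _ _).trans hP
    have hPP1 : P1 ≤ P := (le_max_right _ _).trans hP
    rcases Nat.lt_or_ge q i with h | h
    · have hi' : i = q + 1 := by omega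
      rw [hi', Function.iterate_succ_apply']
      have h2 := ih P hPP0 q le_rfl
      exact ⟨nxt_nonneg h2.1, (nxt_le_self (by omega) (h1 P hPP1)).trans h2.2⟩
    · exact ih P hPP0 i h

private theorem ms_nxt_iter_le {k : ℕ} (hk : 2 ≤ k) (q : ℕ) :
    ∃ P0 : ℝ, ∀ P, P0 ≤ P → (nxt k)^[q] P ≤ P := by
  obtain ⟨P0, _, h⟩ := ms_scales hk q
  exact ⟨P0, fun P hP => (h P hP q le_rfl).2⟩

private theorem ms_thr_le {k : ℕ} (hk : 2 ≤ k) (q : ℕ) :
    ∃ P0 : ℝ, ∀ P, P0 ≤ P → ∀ M : ℝ, P ^ (k - 1) ≤ M →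
      max M (((nxt k)^[q + 1] P) ^ k) ≤ (k : ℝ) * 16 ^ k * M := by
  have hk1 : 1 ≤ k := by omega
  obtain ⟨P0, h0⟩ := ms_nxt_iter_le hk q
  obtain ⟨P1, h1⟩ := Filter.eventually_atTop.1 ((nxt_tendsto hk).eventually_ge_atTop P0)
  refine ⟨max P1 1, fun P hP M hM => ?_⟩
  have hP1 : 1 ≤ P := le_trans (le_max_right _ _) hP
  have hM0 : 0 ≤ M := le_trans (by positivity) hM
  have hD := nxt_const_ge_one hk1
  refine max_le ?_ ?_
  · nlinarith
  · rw [Function.iterate_succ_apply]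
    have h2 := h0 _ (h1 P (le_trans (le_max_left _ _) hP))
    have h3 : 0 ≤ (nxt k)^[q] (nxt k P) :=
      le_trans zero_le_one (nxt_iter_ge_one hk1 q (nxt_ge_one hk1 hP1))
    calc ((nxt k)^[q] (nxt k P)) ^ k ≤ (nxt k P) ^ k := pow_le_pow_left₀ h3 h2 k
      _ = (k : ℝ) * 16 ^ k * P ^ (k - 1) := nxt_pow hk1 (by linarith)
      _ ≤ (k : ℝ) * 16 ^ k * M := mul_le_mul_of_nonneg_left hM (by positivity)

private theorem ms_pow_ge {k j : ℕ} (hj : 1 ≤ j) (hjk : j < k) {P : ℝ} (hP : 1 ≤ P) :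
    P ^ (j - 1) ≤ (nxt k P) ^ j := by
  have hk1 : 1 ≤ k := by omega
  have hP0 : (0 : ℝ) ≤ P := by linarith
  have hn0 : 0 ≤ nxt k P := nxt_nonneg hP0
  have h1 : P ^ (k - 1) ≤ nxt k P ^ k := by
    rw [nxt_pow hk1 hP0]
    have := nxt_const_ge_one hk1
    have h4 : 0 ≤ P ^ (k - 1) := by positivity
    nlinarith
  have h2 : (P ^ (j - 1)) ^ k ≤ ((nxt k P) ^ j) ^ k := by
    calc (P ^ (j - 1)) ^ k = P ^ ((j - 1) * k) := by rw [← pow_mul]
      _ ≤ P ^ ((k - 1) * j) := by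
          apply pow_le_pow_right₀ hP
          obtain ⟨a, rfl⟩ : ∃ a, j = a + 1 := ⟨j - 1, by omega⟩
          obtain ⟨b, rfl⟩ : ∃ b, k = b + 1 := ⟨k - 1, by omega⟩
          simp only [Nat.add_sub_cancel]
          nlinarith
      _ = (P ^ (k - 1)) ^ j := by rw [← pow_mul]
      _ ≤ (nxt k P ^ k) ^ j := pow_le_pow_left₀ (by positivity) h1 j
      _ = ((nxt k P) ^ j) ^ k := by rw [← pow_mul, ← pow_mul, Nat.mul_comm]
  exact (pow_le_pow_iff_left₀ (by positivity) (by positivity) (by omega)).1 h2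

theorem mixS_bound {k : ℕ} (hk : 2 ≤ k) (T : ℝ) (j q : ℕ) :
    ∃ C : ℝ, 0 < C ∧ ∃ P0 : ℝ, 16 ≤ P0 ∧ ∀ P : ℝ, P0 ≤ P → ∀ b : ℝ, |b| ≤ T →
      ∀ w ∈ mix (nxt k) 1 q P, |rs (fun x => ((x : ℝ) + b) ^ j) w| ≤ C * P ^ j := by
  obtain ⟨P0, hP0, hsc⟩ := ms_scales hk q
  refine ⟨(2 * (q : ℝ) + 1) * 17 ^ j, by positivity, max 16 (max P0 T), le_max_left _ _, ?_⟩
  intro P hP b hb w hw
  have hP16 : 16 ≤ P := (le_max_left _ _).trans hP
  have hPP0 : P0 ≤ P := (le_max_left _ _).trans ((le_max_right _ _).trans hP)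
  have hPT : T ≤ P := (le_max_right _ _).trans ((le_max_right _ _).trans hP)
  have hB : ∀ w ∈ mix (nxt k) 1 q P, ∀ n ∈ w,
      |(fun x : ℕ => ((x : ℝ) + b) ^ j) n| ≤ 17 ^ j * P ^ j := by
    intro w hw n hn
    have h1 := mix_le q P P (hsc P hPP0) w hw n hn
    show |((n : ℝ) + b) ^ j| ≤ 17 ^ j * P ^ j
    rw [abs_pow, ← mul_pow]
    refine pow_le_pow_left₀ (abs_nonneg _) ?_ _
    have h2 := abs_le.1 hb
    have h3 : (0 : ℝ) ≤ n := Nat.cast_nonneg _
    rw [abs_le]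
    constructor <;> linarith [h2.1, h2.2]
  have h5 := mix_rs_le (le_refl 1) q (fun x : ℕ => ((x : ℝ) + b) ^ j) P (17 ^ j * P ^ j) hB w hw
  push_cast at h5
  rw [mul_assoc]
  exact h5

/-- `mix_A` for a family of functions, uniformly. -/
private theorem ms_famA {k : ℕ} (hk : 2 ≤ k) {ι : Type} (F : ι → ℕ → ℝ)
    (hup : ∃ C : ℝ, 0 < C ∧ ∃ P0 : ℝ, 16 ≤ P0 ∧ ∀ P, P0 ≤ P → ∀ i : ι, ∀ α L : ℝ, 0 ≤ L →
      cn (mainI P) (fun u => |F i u - α| ≤ L) ≤ 1 + C * L / P ^ (k - 1))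
    (hbd : ∀ q : ℕ, ∃ C : ℝ, 0 < C ∧ ∃ P0 : ℝ, 16 ≤ P0 ∧ ∀ P, P0 ≤ P → ∀ i : ι,
      ∀ w ∈ mix (nxt k) 1 q P, |rs (F i) w| ≤ C * P ^ k) (q : ℕ) :
    ∃ C : ℝ, 0 < C ∧ ∃ P0 : ℝ, 16 ≤ P0 ∧ ∀ P, P0 ≤ P → ∀ i : ι, ∀ α M : ℝ, 0 ≤ M →
      cn (mix (nxt k) 1 q P) (fun w => |rs (F i) w - α| ≤ M) ≤
        C * ((mix (nxt k) 1 q P).card : ℝ) * max M (((nxt k)^[q + 1] P) ^ k) / P ^ k := by
  classical
  have hk1 : 1 ≤ k := by omega
  obtain ⟨C1, hC1, Pu, hPu, hup⟩ := hup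
  induction q with
  | zero =>
    refine ⟨1 + C1, by positivity, Pu, hPu, fun P hP i α M hM => ?_⟩
    have hP1 : 1 ≤ P := by linarith
    have hPpos : 0 < P := by linarith
    have hPn1 : 0 < P ^ (k - 1) := by positivity
    have hPn : P ^ k = P * P ^ (k - 1) := by
      rw [← pow_succ']
      congr 1
      omega
    have hthr : P ^ (k - 1) ≤ ((nxt k)^[0 + 1] P) ^ k := by
      rw [Function.iterate_succ_apply, Function.iterate_zero, id, nxt_pow hk1 hPpos.le]
      exact le_mul_of_one_le_left hPn1.le (nxt_const_ge_one hk1)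
    set Mx := max M (((nxt k)^[0 + 1] P) ^ k) with hMx
    have hMx1 : M ≤ Mx := le_max_left _ _
    have hMx2 : P ^ (k - 1) ≤ Mx := hthr.trans (le_max_right _ _)
    have hMx0 : 0 ≤ Mx := hM.trans hMx1
    rw [cn_mix_zero_one, card_mix_zero_one]
    have e1 : cn (mainI P) (fun x => |rs (F i) [x] - α| ≤ M) ≤ 1 + C1 * M / P ^ (k - 1) := by
      refine le_trans (le_of_eq ?_) (hup P hP i α M hM)
      have : ∀ x : ℕ, rs (F i) [x] = F i x := fun x => by simp [rs]
      simp only [this]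
    refine e1.trans ?_
    have hmain := card_mainI_ge hP1
    have e2 : 1 + C1 * M / P ^ (k - 1) ≤ (1 + C1) * Mx / P ^ (k - 1) := by
      rw [le_div_iff₀ hPn1, add_mul, div_mul_cancel₀ _ hPn1.ne']
      have : C1 * M ≤ C1 * Mx := mul_le_mul_of_nonneg_left hMx1 hC1.le
      linarith
    refine e2.trans ?_
    have e3 : (1 + C1) * Mx / P ^ (k - 1) = (1 + C1) * P * Mx / P ^ k := by
      rw [hPn]
      field_simp
    rw [e3]
    apply div_le_div_of_nonneg_right _ (by positivity)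
    apply mul_le_mul_of_nonneg_right _ hMx0
    apply mul_le_mul_of_nonneg_left _ (by positivity)
    linarith
  | succ q ih =>
    obtain ⟨C, hC, P0, hP0, ih⟩ := ih
    obtain ⟨Cv, hCv, Pv, hPv, hval⟩ := hbd q
    obtain ⟨P1, h1⟩ := eventually_atTop.1 ((nxt_tendsto hk).eventually_ge_atTop (max P0 Pv))
    set C3 : ℝ := 1 + C1 * (1 + Cv) * (k * 16 ^ k) with hC3
    have hC3pos : 0 < C3 := by positivity
    refine ⟨max (1 + C1) (C3 * C), lt_of_lt_of_le (by positivity) (le_max_left _ _), max Pu P1,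
      hPu.trans (le_max_left _ _), fun P hP i α M hM0 => ?_⟩
    have hPPu : Pu ≤ P := (le_max_left _ _).trans hP
    have hPP1 : P1 ≤ P := (le_max_right _ _).trans hP
    have hP1 : 1 ≤ P := by linarith
    have hPpos : 0 < P := by linarith
    have hP2P0 : P0 ≤ nxt k P := (le_max_left _ _).trans (h1 P hPP1)
    have hP2Pv : Pv ≤ nxt k P := (le_max_right _ _).trans (h1 P hPP1)
    have hP2n := nxt_pow hk1 hPpos.le
    have hP21 := nxt_ge_one hk1 hP1
    rw [Function.iterate_succ_apply]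
    set P2 := nxt k P with hP2
    have hP2pos : 0 < P2 := by linarith
    set Mx := max M (((nxt k)^[q + 1] P2) ^ k) with hMx
    have hMx1 : M ≤ Mx := le_max_left _ _
    have hMx0 : 0 ≤ Mx := hM0.trans hMx1
    have hPn1 : 0 < P ^ (k - 1) := by positivity
    have hPn : P ^ k = P * P ^ (k - 1) := by
      rw [← pow_succ']
      congr 1
      omega
    have hcon := nxt_const_ge_one hk1
    have hge : P ^ (k - 1) ≤ P2 ^ k := by
      rw [hP2n]
      exact le_mul_of_one_le_left hPn1.le hcon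
    set T2 : ℝ := ((mix (nxt k) 1 q P2).card : ℝ) with hT2
    have hT0 : 0 ≤ T2 := Nat.cast_nonneg _
    have hJ0 : (0 : ℝ) ≤ ((J1 P).card : ℝ) := Nat.cast_nonneg _
    have hmain := card_mainI_ge hP1
    have hcard : ((mix (nxt k) 1 (q + 1) P).card : ℝ) =
        ((mainI P).card : ℝ) * ((J1 P).card : ℝ) * T2 := by
      rw [card_mix_succ]
      push_cast
      rfl
    have hcard0 : (0 : ℝ) ≤ ((mix (nxt k) 1 (q + 1) P).card : ℝ) := Nat.cast_nonneg _
    -- the final comparison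
    have hfin : ∀ K : ℝ, 0 ≤ K → ((J1 P).card : ℝ) * (K * T2 * Mx / P ^ (k - 1)) ≤
        K * ((mix (nxt k) 1 (q + 1) P).card : ℝ) * Mx / P ^ k := by
      intro K hK
      rw [hcard, hPn]
      have h2 : ((J1 P).card : ℝ) * (K * T2 * Mx / P ^ (k - 1)) =
          K * (P * ((J1 P).card : ℝ) * T2) * Mx / (P * P ^ (k - 1)) := by
        field_simp
      rw [h2]
      apply div_le_div_of_nonneg_right _ (by positivity)
      apply mul_le_mul_of_nonneg_right _ hMx0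
      apply mul_le_mul_of_nonneg_left _ hK
      apply mul_le_mul_of_nonneg_right _ hT0
      apply mul_le_mul_of_nonneg_right _ hJ0
      linarith
    have hmono : ∀ K : ℝ, K ≤ max (1 + C1) (C3 * C) →
        K * ((mix (nxt k) 1 (q + 1) P).card : ℝ) * Mx / P ^ k ≤
        max (1 + C1) (C3 * C) * ((mix (nxt k) 1 (q + 1) P).card : ℝ) * Mx / P ^ k := by
      intro K hK
      apply div_le_div_of_nonneg_right _ (by positivity)
      apply mul_le_mul_of_nonneg_right _ hMx0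
      exact mul_le_mul_of_nonneg_right hK hcard0
    rcases le_or_gt (P2 ^ k) M with hcase | hcase
    · -- large `M`
      have hPM : P ^ (k - 1) ≤ Mx := hge.trans (hcase.trans hMx1)
      have e1 : cn (mix (nxt k) 1 (q + 1) P) (fun w => |rs (F i) w - α| ≤ M) =
          ∑ v ∈ J1 P, ∑ w ∈ mix (nxt k) 1 q P2,
            cn (mainI P) (fun u => |F i u - (α - F i v - rs (F i) w)| ≤ M) := by
        rw [cn_mix_succ, Finset.sum_comm]
        refine Finset.sum_congr rfl fun v _ => ?_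
        have e2 : ∀ u ∈ mainI P,
            cn (mix (nxt k) 1 q (nxt k P)) (fun w => |rs (F i) (u :: v :: w) - α| ≤ M) =
            ∑ w ∈ mix (nxt k) 1 q P2,
              (if |F i u - (α - F i v - rs (F i) w)| ≤ M then (1 : ℝ) else 0) := by
          intro u _
          rw [ms_cn_card, Finset.card_filter]
          push_cast
          refine Finset.sum_congr rfl fun w _ => ?_
          have e3 : rs (F i) (u :: v :: w) - α = F i u - (α - F i v - rs (F i) w) := by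
            rw [rs_cons, rs_cons]
            ring
          rw [e3]
        rw [Finset.sum_congr rfl e2, Finset.sum_comm]
        refine Finset.sum_congr rfl fun w _ => ?_
        rw [ms_cn_card, Finset.card_filter]
        push_cast
        rfl
      have e4 : ∀ v ∈ J1 P, ∑ w ∈ mix (nxt k) 1 q P2,
            cn (mainI P) (fun u => |F i u - (α - F i v - rs (F i) w)| ≤ M) ≤
            (1 + C1) * T2 * Mx / P ^ (k - 1) := by
        intro v _
        have e5 : ∀ w ∈ mix (nxt k) 1 q P2,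
            cn (mainI P) (fun u => |F i u - (α - F i v - rs (F i) w)| ≤ M) ≤
            (1 + C1) * Mx / P ^ (k - 1) := by
          intro w _
          have e6 := hup P hPPu i (α - F i v - rs (F i) w) M hM0
          have e8 : 1 + C1 * M / P ^ (k - 1) ≤ (1 + C1) * Mx / P ^ (k - 1) := by
            rw [le_div_iff₀ hPn1, add_mul, div_mul_cancel₀ _ hPn1.ne']
            have : C1 * M ≤ C1 * Mx := mul_le_mul_of_nonneg_left hMx1 hC1.le
            linarith
          exact e6.trans e8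
        refine (Finset.sum_le_sum e5).trans (le_of_eq ?_)
        rw [Finset.sum_const, nsmul_eq_mul]
        rw [← hT2]
        ring
      rw [e1]
      refine (Finset.sum_le_sum e4).trans ?_
      rw [Finset.sum_const, nsmul_eq_mul]
      refine le_trans (hfin (1 + C1) (by positivity)) ?_
      exact hmono (1 + C1) (le_max_left _ _)
    · -- small `M`
      rw [cn_mix_succ, Finset.sum_comm, ← hP2]
      have e4 : ∀ v ∈ J1 P, ∑ u ∈ mainI P,
          cn (mix (nxt k) 1 q P2) (fun w => |rs (F i) (u :: v :: w) - α| ≤ M) ≤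
            (C3 * C) * T2 * Mx / P ^ (k - 1) := by
        intro v _
        have hB0 : 0 ≤ C * T2 * Mx / P2 ^ k := by positivity
        have e5 : ∀ u ∈ mainI P,
            cn (mix (nxt k) 1 q P2) (fun w => |rs (F i) (u :: v :: w) - α| ≤ M) ≤
            (if |F i u - (α - F i v)| ≤ (1 + Cv) * P2 ^ k then (1 : ℝ) else 0) *
              (C * T2 * Mx / P2 ^ k) := by
          intro u _
          split_ifs with hif
          · rw [one_mul]
            refine le_trans (cn_mono ?_) (ih P2 hP2P0 i (α - F i u - F i v) M hM0)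
            intro w _ hw
            rw [rs_cons, rs_cons] at hw
            have e3 : rs (F i) w - (α - F i u - F i v) = F i u + (F i v + rs (F i) w) - α := by
              ring
            rw [e3]
            exact hw
          · rw [zero_mul]
            have e6 : cn (mix (nxt k) 1 q P2) (fun w => |rs (F i) (u :: v :: w) - α| ≤ M) = 0 := by
              apply cn_zero
              intro w hw hle
              apply hif
              have e7 := hval P2 hP2Pv i w hw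
              rw [rs_cons, rs_cons] at hle
              have e8 : F i u - (α - F i v) = (F i u + (F i v + rs (F i) w) - α) - rs (F i) w := by
                ring
              rw [e8]
              refine (abs_sub _ _).trans ?_
              linarith
            exact e6.le
        refine (Finset.sum_le_sum e5).trans ?_
        rw [← Finset.sum_mul]
        have e9 : (∑ u ∈ mainI P,
            (if |F i u - (α - F i v)| ≤ (1 + Cv) * P2 ^ k then (1 : ℝ) else 0)) ≤ C3 := by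
          have e10 := hup P hPPu i (α - F i v) ((1 + Cv) * P2 ^ k) (by positivity)
          have e11 : 1 + C1 * ((1 + Cv) * P2 ^ k) / P ^ (k - 1) = C3 := by
            rw [hC3, hP2n]
            field_simp
          rw [e11] at e10
          refine le_trans (le_of_eq ?_) e10
          rw [ms_cn_card, Finset.card_filter]
          push_cast
          rfl
        calc (∑ u ∈ mainI P, (if |F i u - (α - F i v)| ≤ (1 + Cv) * P2 ^ k then (1 : ℝ) else 0)) *
              (C * T2 * Mx / P2 ^ k) ≤ C3 * (C * T2 * Mx / P2 ^ k) :=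
              mul_le_mul_of_nonneg_right e9 hB0
          _ ≤ C3 * (C * T2 * Mx / P ^ (k - 1)) := by
              apply mul_le_mul_of_nonneg_left _ hC3pos.le
              apply div_le_div_of_nonneg_left (by positivity) hPn1 hge
          _ = (C3 * C) * T2 * Mx / P ^ (k - 1) := by ring
      refine (Finset.sum_le_sum e4).trans ?_
      rw [Finset.sum_const, nsmul_eq_mul]
      exact (hfin (C3 * C) (by positivity)).trans (hmono _ (le_max_right _ _))

theorem mixS_A {k : ℕ} (hk : 2 ≤ k) (T : ℝ) (q : ℕ) :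
    ∃ C : ℝ, 0 < C ∧ ∃ P0 : ℝ, 16 ≤ P0 ∧ ∀ P : ℝ, P0 ≤ P → ∀ b : ℝ, |b| ≤ T →
      ∀ α M : ℝ, 0 ≤ M →
      cn (mix (nxt k) 1 q P) (fun w => |rs (fun x => ((x : ℝ) + b) ^ k) w - α| ≤ M) ≤
        C * ((mix (nxt k) 1 q P).card : ℝ) * max M (((nxt k)^[q + 1] P) ^ k) / P ^ k := by
  obtain ⟨C, hC, P0, hP0, h⟩ := ms_famA hk (ι := {b : ℝ // |b| ≤ T})
    (fun b x => ((x : ℝ) + b.1) ^ k)
    (by
      obtain ⟨C, hC, P0, hP0, h⟩ := singleS hk T
      exact ⟨C, hC, P0, hP0, fun P hP b => h P hP b.1 b.2⟩)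
    (by
      intro q
      obtain ⟨C, hC, P0, hP0, h⟩ := mixS_bound hk T k q
      exact ⟨C, hC, P0, hP0, fun P hP b => h P hP b.1 b.2⟩) q
  exact ⟨C, hC, P0, hP0, fun P hP b hb => h P hP ⟨b, hb⟩⟩

/-- Sum of the inner counts: bounded by the number of good pairs times a uniform bound. -/
private theorem ms_sum {k j : ℕ} {f g : ℕ → ℝ} {q : ℕ} {P α β M Cv Cw B N : ℝ}
    (hv : ∀ w ∈ mix (nxt k) 1 q (nxt k P), |rs f w| ≤ Cv * (nxt k P) ^ k)
    (hw : ∀ w ∈ mix (nxt k) 1 q (nxt k P), |rs g w| ≤ Cw * (nxt k P) ^ j)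
    (hB0 : 0 ≤ B)
    (hB : ∀ α' β' : ℝ, cn (mix (nxt k) 1 q (nxt k P)) (fun w => |rs f w - α'| ≤ M ∧
        |rs g w - β'| ≤ M) ≤ B)
    (hN : cn (mainI P ×ˢ J1 P) (fun p =>
        |f p.1 + f p.2 - α| ≤ M + Cv * (nxt k P) ^ k ∧
          |g p.1 + g p.2 - β| ≤ M + Cw * (nxt k P) ^ j) ≤ N) :
    cn (mix (nxt k) 1 (q + 1) P) (fun w => |rs f w - α| ≤ M ∧ |rs g w - β| ≤ M) ≤ N * B := by
  classical
  rw [cn_mix_succ, ← Finset.sum_product']
  have hstep : ∀ p ∈ mainI P ×ˢ J1 P,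
      cn (mix (nxt k) 1 q (nxt k P)) (fun w => |rs f (p.1 :: p.2 :: w) - α| ≤ M ∧
        |rs g (p.1 :: p.2 :: w) - β| ≤ M) ≤
      if (|f p.1 + f p.2 - α| ≤ M + Cv * (nxt k P) ^ k ∧
          |g p.1 + g p.2 - β| ≤ M + Cw * (nxt k P) ^ j) then B else 0 := by
    intro p _
    split_ifs with hc
    · refine le_trans (cn_mono ?_) (hB (α - f p.1 - f p.2) (β - g p.1 - g p.2))
      intro w _ h
      rw [rs_cons, rs_cons, rs_cons, rs_cons] at h
      refine ⟨?_, ?_⟩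
      · have e : rs f w - (α - f p.1 - f p.2) = f p.1 + (f p.2 + rs f w) - α := by ring
        rw [e]; exact h.1
      · have e : rs g w - (β - g p.1 - g p.2) = g p.1 + (g p.2 + rs g w) - β := by ring
        rw [e]; exact h.2
    · rw [cn_zero]
      intro w hwm h
      rw [rs_cons, rs_cons, rs_cons, rs_cons] at h
      apply hc
      have h1 := hv w hwm
      have h2 := hw w hwm
      have h3 := h.1
      have h4 := h.2
      rw [abs_le] at h1 h2 h3 h4
      constructor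
      · rw [abs_le]; constructor <;> linarith [h1.1, h1.2, h3.1, h3.2]
      · rw [abs_le]; constructor <;> linarith [h2.1, h2.2, h4.1, h4.2]
  refine le_trans (Finset.sum_le_sum hstep) ?_
  rw [← Finset.sum_filter, Finset.sum_const, nsmul_eq_mul]
  refine mul_le_mul_of_nonneg_right (le_trans (le_of_eq ?_) hN) hB0
  rw [ms_cn_card]

/-- `mix_AB` for families of functions, uniformly. -/
private theorem ms_famAB {k : ℕ} (hk : 2 ≤ k) {ι : Type} (F G : ι → ℕ → ℝ)
    (hup : ∃ C : ℝ, 0 < C ∧ ∃ P0 : ℝ, 16 ≤ P0 ∧ ∀ P, P0 ≤ P → ∀ i : ι, ∀ α L : ℝ, 0 ≤ L →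
      cn (mainI P) (fun u => |F i u - α| ≤ L) ≤ 1 + C * L / P ^ (k - 1))
    (hpair : ∃ C : ℝ, 0 < C ∧ ∃ P0 : ℝ, 16 ≤ P0 ∧ ∀ P : ℝ, P0 ≤ P → ∀ i : ι,
      ∀ α β L1 L2 : ℝ, 0 ≤ L1 → 0 ≤ L2 →
      cn (mainI P ×ˢ J1 P) (fun p => |F i p.1 + F i p.2 - α| ≤ L1 ∧
        |G i p.1 + G i p.2 - β| ≤ L2) ≤
      C * (1 + L1 / P ^ (k - 1)) * (1 + L1 / P ^ (k - 1) + L2 / P ^ (k - 1 - 1)))
    (hbd : ∀ q : ℕ, ∃ C : ℝ, 0 < C ∧ ∃ P0 : ℝ, 16 ≤ P0 ∧ ∀ P, P0 ≤ P → ∀ i : ι,
      ∀ w ∈ mix (nxt k) 1 q P, |rs (F i) w| ≤ C * P ^ k)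
    (hbd' : ∀ q : ℕ, ∃ C : ℝ, 0 < C ∧ ∃ P0 : ℝ, 16 ≤ P0 ∧ ∀ P, P0 ≤ P → ∀ i : ι,
      ∀ w ∈ mix (nxt k) 1 q P, |rs (G i) w| ≤ C * P ^ (k - 1)) (q : ℕ) :
    ∃ C : ℝ, 0 < C ∧ ∃ P0 : ℝ, 16 ≤ P0 ∧ ∀ P, P0 ≤ P → ∀ i : ι, ∀ α β M : ℝ, 0 ≤ M →
      cn (mix (nxt k) 1 q P) (fun w => |rs (F i) w - α| ≤ M ∧ |rs (G i) w - β| ≤ M) ≤
        C * ((mix (nxt k) 1 q P).card : ℝ) * (max M (((nxt k)^[q] P) ^ (k - 1))) ^ 2 /
          P ^ (2 * k - 1) := by
  have hk1 : 1 ≤ k := by omega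
  have hj : 1 ≤ k - 1 := by omega
  have hjk : k - 1 < k := by omega
  have hD1 := nxt_const_ge_one hk1
  -- the case of large `M`
  have big : ∀ q : ℕ, ∃ C : ℝ, 0 < C ∧ ∃ P0 : ℝ, 16 ≤ P0 ∧ ∀ P, P0 ≤ P → ∀ i : ι, ∀ α β M : ℝ,
      P ^ (k - 1) ≤ M →
      cn (mix (nxt k) 1 q P) (fun w => |rs (F i) w - α| ≤ M ∧
        |rs (G i) w - β| ≤ M) ≤
        C * ((mix (nxt k) 1 q P).card : ℝ) * (max M (((nxt k)^[q] P) ^ (k - 1))) ^ 2 /
          P ^ (2 * k - 1) := by
    intro q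
    obtain ⟨CA, hCA, PA, hPA, hA⟩ := ms_famA hk F hup hbd q
    obtain ⟨PT, hT⟩ := ms_thr_le hk q
    refine ⟨CA * ((k : ℝ) * 16 ^ k), by positivity, max PA PT, le_max_of_le_left hPA, ?_⟩
    intro P hP i α β M hM
    have hPA' : PA ≤ P := (le_max_left _ _).trans hP
    have hPT' : PT ≤ P := (le_max_right _ _).trans hP
    have hP1 : 1 ≤ P := by linarith
    have hP0 : 0 < P := by linarith
    have hM0 : 0 ≤ M := le_trans (by positivity) hM
    have h1 := hA P hPA' i α M hM0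
    have h2 := hT P hPT' M hM
    have hm : 0 ≤ ((mix (nxt k) 1 q P).card : ℝ) := Nat.cast_nonneg _
    refine (cn_mono (fun w _ h => h.1)).trans (h1.trans ?_)
    have e1 : P ^ (2 * k - 1) = P ^ (k - 1) * P ^ k := by
      rw [← pow_add]; congr 1; omega
    have h3 : M * P ^ (k - 1) ≤ (max M (((nxt k)^[q] P) ^ (k - 1))) ^ 2 := by
      have h4 : M ≤ max M (((nxt k)^[q] P) ^ (k - 1)) := le_max_left _ _
      have h5 : M * P ^ (k - 1) ≤ M * M := mul_le_mul_of_nonneg_left hM hM0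
      nlinarith
    rw [div_le_div_iff₀ (by positivity) (by positivity), e1]
    have h6 : max M (((nxt k)^[q + 1] P) ^ k) * P ^ (k - 1) ≤
        (k : ℝ) * 16 ^ k * (max M (((nxt k)^[q] P) ^ (k - 1))) ^ 2 := by
      calc max M (((nxt k)^[q + 1] P) ^ k) * P ^ (k - 1)
          ≤ ((k : ℝ) * 16 ^ k * M) * P ^ (k - 1) := mul_le_mul_of_nonneg_right h2 (by positivity)
        _ = (k : ℝ) * 16 ^ k * (M * P ^ (k - 1)) := by ring
        _ ≤ _ := mul_le_mul_of_nonneg_left h3 (by positivity)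
    calc CA * ((mix (nxt k) 1 q P).card : ℝ) * max M (((nxt k)^[q + 1] P) ^ k) *
          (P ^ (k - 1) * P ^ k)
        = (CA * ((mix (nxt k) 1 q P).card : ℝ) * P ^ k) *
          (max M (((nxt k)^[q + 1] P) ^ k) * P ^ (k - 1)) := by ring
      _ ≤ (CA * ((mix (nxt k) 1 q P).card : ℝ) * P ^ k) *
          ((k : ℝ) * 16 ^ k * (max M (((nxt k)^[q] P) ^ (k - 1))) ^ 2) :=
        mul_le_mul_of_nonneg_left h6 (by positivity)
      _ = _ := by ring
  -- it suffices to treat small `M`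
  suffices small : ∃ C : ℝ, 0 < C ∧ ∃ P0 : ℝ, 16 ≤ P0 ∧ ∀ P, P0 ≤ P → ∀ i : ι, ∀ α β M : ℝ, 0 ≤ M →
      M < P ^ (k - 1) →
      cn (mix (nxt k) 1 q P) (fun w => |rs (F i) w - α| ≤ M ∧
        |rs (G i) w - β| ≤ M) ≤
        C * ((mix (nxt k) 1 q P).card : ℝ) * (max M (((nxt k)^[q] P) ^ (k - 1))) ^ 2 /
          P ^ (2 * k - 1) by
    obtain ⟨C1, hC1, P1, hP1, h1⟩ := big q
    obtain ⟨C2, hC2, P2, hP2, h2⟩ := small
    refine ⟨C1 + C2, by positivity, max P1 P2, le_max_of_le_left hP1, ?_⟩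
    intro P hP i α β M hM
    have hP1' : P1 ≤ P := (le_max_left _ _).trans hP
    have hP2' : P2 ≤ P := (le_max_right _ _).trans hP
    have hP0 : 0 < P := by linarith
    have hm : 0 ≤ ((mix (nxt k) 1 q P).card : ℝ) := Nat.cast_nonneg _
    rcases le_or_gt (P ^ (k - 1)) M with hc | hc
    · refine (h1 P hP1' i α β M hc).trans ?_
      gcongr
      linarith
    · refine (h2 P hP2' i α β M hM hc).trans ?_
      gcongr
      linarith
  induction q with
  | zero =>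
    obtain ⟨C1, hC1, P1, hP1, hcnt⟩ := hup
    refine ⟨1 + C1, by positivity, P1, hP1, ?_⟩
    intro P hP i α β M hM hMP
    have hPone : 1 ≤ P := by linarith
    have hP0 : 0 < P := by linarith
    rw [cn_mix_zero_one, card_mix_zero_one]
    have h1 : cn (mainI P) (fun x => |rs (F i) [x] - α| ≤ M ∧
        |rs (G i) [x] - β| ≤ M) ≤ 1 + C1 * M / P ^ (k - 1) := by
      refine (cn_mono (p' := fun x => |F i x - α| ≤ M) ?_).trans (hcnt P hP i α M hM)
      intro x _ h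
      have := h.1
      rw [rs_cons] at this
      simpa [rs] using this
    refine h1.trans ?_
    simp only [Function.iterate_zero, id_eq]
    have h2 : M / P ^ (k - 1) ≤ 1 := by
      rw [div_le_one (by positivity)]
      exact hMP.le
    have h3 : max M (P ^ (k - 1)) = P ^ (k - 1) := max_eq_right hMP.le
    rw [h3]
    have h4 := card_mainI_ge hPone
    have e1 : P ^ (2 * k - 1) = P * (P ^ (k - 1)) ^ 2 := by
      rw [← pow_mul, ← pow_succ']
      congr 1
      omega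
    have h5 : (1 : ℝ) ≤ ((mainI P).card : ℝ) * (P ^ (k - 1)) ^ 2 / P ^ (2 * k - 1) := by
      rw [e1, le_div_iff₀ (by positivity)]
      have h6 : 0 ≤ (P ^ (k - 1)) ^ 2 := by positivity
      have h6' : P ≤ ((mainI P).card : ℝ) := by linarith
      rw [one_mul]
      exact mul_le_mul_of_nonneg_right h6' h6
    have h7 : C1 * M / P ^ (k - 1) = C1 * (M / P ^ (k - 1)) := by ring
    have h8 : (1 + C1) * ((mainI P).card : ℝ) * (P ^ (k - 1)) ^ 2 / P ^ (2 * k - 1) =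
        (1 + C1) * (((mainI P).card : ℝ) * (P ^ (k - 1)) ^ 2 / P ^ (2 * k - 1)) := by ring
    rw [h7, h8]
    have h9 : C1 * (M / P ^ (k - 1)) ≤ C1 * 1 := mul_le_mul_of_nonneg_left h2 hC1.le
    have h10 : (1 + C1) * 1 ≤
        (1 + C1) * (((mainI P).card : ℝ) * (P ^ (k - 1)) ^ 2 / P ^ (2 * k - 1)) :=
      mul_le_mul_of_nonneg_left h5 (by positivity)
    linarith
  | succ q ih =>
    -- the full statement for `q`
    have full : ∃ C : ℝ, 0 < C ∧ ∃ P0 : ℝ, 16 ≤ P0 ∧ ∀ P, P0 ≤ P → ∀ i : ι, ∀ α β M : ℝ, 0 ≤ M →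
        M < P ^ (k - 1) →
        cn (mix (nxt k) 1 q P) (fun w => |rs (F i) w - α| ≤ M ∧
          |rs (G i) w - β| ≤ M) ≤
          C * ((mix (nxt k) 1 q P).card : ℝ) * (max M (((nxt k)^[q] P) ^ (k - 1))) ^ 2 /
            P ^ (2 * k - 1) := ih
    obtain ⟨C1, hC1, P1, hP1, ihq⟩ := full
    obtain ⟨CA, hCA, PA, hPA, hA⟩ := ms_famA hk F hup hbd q
    obtain ⟨PT, hT⟩ := ms_thr_le hk q
    obtain ⟨Cp, hCp, Pp, hPp, hp⟩ := hpair
    obtain ⟨Cv, hCv, Pv, hPv, hv⟩ := hbd q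
    obtain ⟨Cw, hCw, Pw, hPw, hw⟩ := hbd' q
    obtain ⟨Pn, hPn⟩ := (Filter.eventually_atTop.mp (Filter.tendsto_atTop.mp (nxt_tendsto hk)
      (max (max P1 (max PA PT)) (max Pv Pw))))
    set a : ℝ := 1 + Cv * ((k : ℝ) * 16 ^ k) with ha
    have ha0 : 0 < a := by positivity
    set K : ℝ := Cp * (1 + a) * (2 + a + Cw) with hK
    have hK0 : 0 < K := by positivity
    set D : ℝ := (k : ℝ) * 16 ^ k with hD
    have hD0 : 0 < D := by positivity
    refine ⟨2 * K * (CA * D + C1), by positivity, max (max Pn Pp) 16,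
      le_max_right _ _, ?_⟩
    intro P hP i α β M hM0 hMk
    have hPPn : Pn ≤ P := le_trans (le_trans (le_max_left _ _) (le_max_left _ _)) hP
    have hPPp : Pp ≤ P := le_trans (le_trans (le_max_right _ _) (le_max_left _ _)) hP
    have hP16 : 16 ≤ P := le_trans (le_max_right _ _) hP
    have hPone : 1 ≤ P := by linarith
    have hPpos : 0 < P := by linarith
    rw [Function.iterate_succ_apply]
    set P2 : ℝ := nxt k P with hP2
    have hb := hPn P hPPn
    have hP2P1 : P1 ≤ P2 := le_trans (le_trans (le_max_left _ _) (le_max_left _ _)) hb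
    have hP2PA : PA ≤ P2 := le_trans (le_trans (le_trans (le_max_left _ _) (le_max_right _ _))
      (le_max_left _ _)) hb
    have hP2PT : PT ≤ P2 := le_trans (le_trans (le_trans (le_max_right _ _) (le_max_right _ _))
      (le_max_left _ _)) hb
    have hP2Pv : Pv ≤ P2 := le_trans (le_trans (le_max_left _ _) (le_max_right _ _)) hb
    have hP2Pw : Pw ≤ P2 := le_trans (le_trans (le_max_right _ _) (le_max_right _ _)) hb
    have hP2one : 1 ≤ P2 := by linarith
    have hP2pos : 0 < P2 := by linarith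
    have hP2k : P2 ^ k = (k : ℝ) * 16 ^ k * P ^ (k - 1) := nxt_pow hk1 hPpos.le
    have hP2kge : P ^ (k - 1) ≤ P2 ^ k := by
      rw [hP2k]
      have h4 : 0 ≤ P ^ (k - 1) := by positivity
      nlinarith
    have hP2j : P ^ (k - 1 - 1) ≤ P2 ^ (k - 1) := ms_pow_ge hj hjk hPone
    set Mx : ℝ := max M (((nxt k)^[q] P2) ^ (k - 1)) with hMx
    have hMMx : M ≤ Mx := le_max_left _ _
    have hMx0 : 0 ≤ Mx := hM0.trans hMMx
    have hPk0 : 0 < P ^ (k - 1) := by positivity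
    have hPj0 : 0 < P ^ (k - 1 - 1) := by positivity
    have hT2 : 0 ≤ ((mix (nxt k) 1 q P2).card : ℝ) := Nat.cast_nonneg _
    have hT1 : 0 ≤ ((mix (nxt k) 1 (q + 1) P).card : ℝ) := Nat.cast_nonneg _
    -- the size of the pair count
    have hL1 : (M + Cv * P2 ^ k) / P ^ (k - 1) ≤ a := by
      rw [div_le_iff₀ hPk0, hP2k, ha]
      nlinarith
    have hL1' : 0 ≤ M + Cv * P2 ^ k := by positivity
    have hL2' : 0 ≤ M + Cw * P2 ^ (k - 1) := by positivity
    have hcard := hp P hPPp i α β (M + Cv * P2 ^ k) (M + Cw * P2 ^ (k - 1)) hL1' hL2'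
    -- a common reduction
    have key : ∀ Y : ℝ, P ^ (k - 1 - 1) ≤ Y → M + Cw * P2 ^ (k - 1) ≤ (1 + Cw) * Y →
        Cp * (1 + (M + Cv * P2 ^ k) / P ^ (k - 1)) *
          (1 + (M + Cv * P2 ^ k) / P ^ (k - 1) + (M + Cw * P2 ^ (k - 1)) / P ^ (k - 1 - 1)) ≤
          K * (Y / P ^ (k - 1 - 1)) := by
      intro Y hY1 hY2
      have hy1 : 1 ≤ Y / P ^ (k - 1 - 1) := by rw [le_div_iff₀ hPj0]; linarith
      have hy2 : (M + Cw * P2 ^ (k - 1)) / P ^ (k - 1 - 1) ≤ (1 + Cw) * (Y / P ^ (k - 1 - 1)) := by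
        rw [← mul_div_assoc]
        exact div_le_div_of_nonneg_right hY2 hPj0.le
      have hz : 0 ≤ (M + Cv * P2 ^ k) / P ^ (k - 1) := by positivity
      have hz2 : 0 ≤ (M + Cw * P2 ^ (k - 1)) / P ^ (k - 1 - 1) := by positivity
      calc Cp * (1 + (M + Cv * P2 ^ k) / P ^ (k - 1)) *
          (1 + (M + Cv * P2 ^ k) / P ^ (k - 1) + (M + Cw * P2 ^ (k - 1)) / P ^ (k - 1 - 1))
          ≤ Cp * (1 + a) * (1 + a + (1 + Cw) * (Y / P ^ (k - 1 - 1))) := by
            gcongr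
        _ ≤ Cp * (1 + a) * ((1 + a) * (Y / P ^ (k - 1 - 1)) + (1 + Cw) * (Y / P ^ (k - 1 - 1))) := by
            gcongr
            nlinarith
        _ = K * (Y / P ^ (k - 1 - 1)) := by rw [hK]; ring
    have htot : P ^ 2 * ((mix (nxt k) 1 q P2).card : ℝ) ≤
        2 * ((mix (nxt k) 1 (q + 1) P).card : ℝ) := by
      rw [card_mix_succ]
      push_cast
      have e1 := card_mainI_ge hPone
      have e2 := card_J1_ge hP16
      have e3 : P ^ 2 ≤ 2 * (((mainI P).card : ℝ) * ((J1 P).card : ℝ)) := by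
        have e4 : (14 * P) * (P / 16) ≤ ((mainI P).card : ℝ) * ((J1 P).card : ℝ) :=
          mul_le_mul e1 e2 (by positivity) (by positivity)
        nlinarith
      calc P ^ 2 * ((mix (nxt k) 1 q P2).card : ℝ)
          ≤ 2 * (((mainI P).card : ℝ) * ((J1 P).card : ℝ)) *
            ((mix (nxt k) 1 q P2).card : ℝ) := mul_le_mul_of_nonneg_right e3 hT2
        _ = _ := by ring
    have hfin : ∀ C' : ℝ, 0 ≤ C' → K * C' * (((mix (nxt k) 1 q P2).card : ℝ) * Mx ^ 2 /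
        (P ^ (k - 1 - 1) * P ^ (k - 1))) ≤
        2 * K * C' * ((mix (nxt k) 1 (q + 1) P).card : ℝ) * Mx ^ 2 / P ^ (2 * k - 1) := by
      intro C' hC'
      have e5 : P ^ (2 * k - 1) = P ^ 2 * (P ^ (k - 1 - 1) * P ^ (k - 1)) := by
        rw [← pow_add, ← pow_add]; congr 1; omega
      have e6 : ((mix (nxt k) 1 q P2).card : ℝ) * Mx ^ 2 / (P ^ (k - 1 - 1) * P ^ (k - 1)) =
          (P ^ 2 * ((mix (nxt k) 1 q P2).card : ℝ)) * (Mx ^ 2 / P ^ (2 * k - 1)) := by
        rw [e5]; field_simp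
      rw [e6]
      have e7 : 0 ≤ Mx ^ 2 / P ^ (2 * k - 1) := by positivity
      calc K * C' * ((P ^ 2 * ((mix (nxt k) 1 q P2).card : ℝ)) * (Mx ^ 2 / P ^ (2 * k - 1)))
          ≤ K * C' * ((2 * ((mix (nxt k) 1 (q + 1) P).card : ℝ)) * (Mx ^ 2 / P ^ (2 * k - 1))) := by
            gcongr
        _ = _ := by ring
    rcases le_or_gt (P2 ^ (k - 1)) M with hc | hc
    · -- case A
      have hB : ∀ α' β' : ℝ, cn (mix (nxt k) 1 q (nxt k P)) (fun w => |rs (F i) w - α'| ≤ M ∧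
          |rs (G i) w - β'| ≤ M) ≤
          CA * ((mix (nxt k) 1 q P2).card : ℝ) * (D * M) / P2 ^ k := by
        intro α' β'
        refine le_trans (cn_mono (fun w _ h => h.1)) ((hA P2 hP2PA i α' M hM0).trans ?_)
        have h3 := hT P2 hP2PT M hc
        gcongr
      have hN := le_trans hcard (key M (le_trans hP2j hc) (by nlinarith))
      refine le_trans (ms_sum (Cv := Cv) (Cw := Cw) (hv P2 hP2Pv i) (hw P2 hP2Pw i)
        (by positivity) hB hN) ?_
      calc K * (M / P ^ (k - 1 - 1)) * (CA * ((mix (nxt k) 1 q P2).card : ℝ) * (D * M) / P2 ^ k)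
          ≤ K * (M / P ^ (k - 1 - 1)) *
            (CA * ((mix (nxt k) 1 q P2).card : ℝ) * (D * M) / P ^ (k - 1)) := by
            gcongr
        _ = K * (CA * D) * (((mix (nxt k) 1 q P2).card : ℝ) * M ^ 2 /
            (P ^ (k - 1 - 1) * P ^ (k - 1))) := by
            field_simp
        _ ≤ K * (CA * D) * (((mix (nxt k) 1 q P2).card : ℝ) * Mx ^ 2 /
            (P ^ (k - 1 - 1) * P ^ (k - 1))) := by
            gcongr
        _ ≤ 2 * K * (CA * D) * ((mix (nxt k) 1 (q + 1) P).card : ℝ) * Mx ^ 2 /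
            P ^ (2 * k - 1) := hfin (CA * D) (by positivity)
        _ ≤ 2 * K * (CA * D + C1) * ((mix (nxt k) 1 (q + 1) P).card : ℝ) * Mx ^ 2 /
            P ^ (2 * k - 1) := by
            gcongr
            linarith
    · -- case B
      have hB : ∀ α' β' : ℝ, cn (mix (nxt k) 1 q (nxt k P)) (fun w => |rs (F i) w - α'| ≤ M ∧
          |rs (G i) w - β'| ≤ M) ≤
          C1 * ((mix (nxt k) 1 q P2).card : ℝ) * Mx ^ 2 / P2 ^ (2 * k - 1) := by
        intro α' β'
        exact ihq P2 hP2P1 i α' β' M hM0 hc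
      have hN := le_trans hcard (key (P2 ^ (k - 1)) hP2j (by nlinarith))
      refine le_trans (ms_sum (Cv := Cv) (Cw := Cw) (hv P2 hP2Pv i) (hw P2 hP2Pw i)
        (by positivity) hB hN) ?_
      have e8 : P2 ^ (2 * k - 1) = P2 ^ (k - 1) * P2 ^ k := by
        rw [← pow_add]; congr 1; omega
      calc K * (P2 ^ (k - 1) / P ^ (k - 1 - 1)) *
            (C1 * ((mix (nxt k) 1 q P2).card : ℝ) * Mx ^ 2 / P2 ^ (2 * k - 1))
          = K * C1 * ((mix (nxt k) 1 q P2).card : ℝ) * Mx ^ 2 / (P ^ (k - 1 - 1) * P2 ^ k) := by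
            rw [e8]; field_simp
        _ ≤ K * C1 * ((mix (nxt k) 1 q P2).card : ℝ) * Mx ^ 2 /
            (P ^ (k - 1 - 1) * P ^ (k - 1)) := by
            gcongr
        _ = K * C1 * (((mix (nxt k) 1 q P2).card : ℝ) * Mx ^ 2 /
            (P ^ (k - 1 - 1) * P ^ (k - 1))) := by
            ring
        _ ≤ 2 * K * C1 * ((mix (nxt k) 1 (q + 1) P).card : ℝ) * Mx ^ 2 /
            P ^ (2 * k - 1) := hfin C1 hC1.le
        _ ≤ 2 * K * (CA * D + C1) * ((mix (nxt k) 1 (q + 1) P).card : ℝ) * Mx ^ 2 /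
            P ^ (2 * k - 1) := by
            gcongr
            have : 0 ≤ CA * D := by positivity
            linarith

theorem mixS_AB {k : ℕ} (hk : 2 ≤ k) (T : ℝ) (q : ℕ) :
    ∃ C : ℝ, 0 < C ∧ ∃ P0 : ℝ, 16 ≤ P0 ∧ ∀ P : ℝ, P0 ≤ P → ∀ b : ℝ, |b| ≤ T →
      ∀ α β M : ℝ, 0 ≤ M →
      cn (mix (nxt k) 1 q P) (fun w => |rs (fun x => ((x : ℝ) + b) ^ k) w - α| ≤ M ∧
        |rs (fun x => ((x : ℝ) + b) ^ (k - 1)) w - β| ≤ M) ≤
        C * ((mix (nxt k) 1 q P).card : ℝ) * (max M (((nxt k)^[q] P) ^ (k - 1))) ^ 2 /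
          P ^ (2 * k - 1) := by
  obtain ⟨C, hC, P0, hP0, h⟩ := ms_famAB hk (ι := {b : ℝ // |b| ≤ T})
    (fun b x => ((x : ℝ) + b.1) ^ k) (fun b x => ((x : ℝ) + b.1) ^ (k - 1))
    (by
      obtain ⟨C, hC, P0, hP0, h⟩ := singleS hk T
      exact ⟨C, hC, P0, hP0, fun P hP b => h P hP b.1 b.2⟩)
    (by
      obtain ⟨C, hC, P0, hP0, h⟩ := pairS hk T
      exact ⟨C, hC, P0, hP0, fun P hP b => h P hP b.1 b.2⟩)
    (by
      intro q
      obtain ⟨C, hC, P0, hP0, h⟩ := mixS_bound hk T k q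
      exact ⟨C, hC, P0, hP0, fun P hP b => h P hP b.1 b.2⟩)
    (by
      intro q
      obtain ⟨C, hC, P0, hP0, h⟩ := mixS_bound hk T (k - 1) q
      exact ⟨C, hC, P0, hP0, fun P hP b => h P hP b.1 b.2⟩) q
  exact ⟨C, hC, P0, hP0, fun P hP b hb => h P hP ⟨b, hb⟩⟩

end FWar
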