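import Pool.Agent.FWar.MixB

/-!
# FWar.PairE: one letter and one pair of letters, real exponent

PROOF of `singleE`: if `u' < u` are two elements of the set then
`P^(κ-1) (u - u') ≤ u^κ - u'^κ ≤ 2L` (mean value theorem, `κ ≥ 1`, `u' > P`), so they lie in an interval
of length `2L/P^(κ-1)`, which contains at most `1 + 2L/P^(κ-1)` integers.
`singleE_J1`: the same with `v > P/8`, so `(P/8)^(κ-1) (v - v') ≤ 2L`, `8^(κ-1) ≤ 8^κ`.

PROOF of `pairE`. Write `φ(x) = x log x/κ`, so that `u^κ log u = φ(u^κ)`. Let `(u,v)`, `(u',v')` be two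
elements of the set, `u > u'`. Put `x = u^κ`, `x' = u'^κ`, `y = v^κ`, `y' = v'^κ`. Then
`|(x - x') + (y - y')| ≤ 2 L1`, `|(φ x - φ x') + (φ y - φ y')| ≤ 2 L2`. By the mean value theorem
`φ x - φ x' = (x - x')(log ξ + 1)/κ` with `ξ ≥ x' ≥ P^κ`, and
`φ y - φ y' = (y - y')(log η + 1)/κ` with `1 ≤ η ≤ max(y,y') ≤ (P/4)^κ`. Subtract `(log η + 1)/κ` times
the first inequality from the second:
`(x - x')(log ξ - log η)/κ ≤ 2 L2 + 2 L1 (log η + 1)/κ ≤ 2 L2 + 2 L1 (log P + 1)`,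
and `(log ξ - log η)/κ ≥ log P - log (P/4) = log 4 ≥ 1`. With `κ ≥ 1`, `P^(κ-1)(u-u') ≤ x - x'` and
`log P ≥ 1`: `u - u' ≤ (2 L2 + 4 L1 log P)/P^(κ-1)`. So the first components lie in an interval of this
length: at most `1 + (2 L2 + 4 L1 log P)/P^(κ-1)` values of `u`. For each `u` the `v ∈ J1 P` satisfy
`|v^κ - (α - u^κ)| ≤ L1`: at most `1 + 2 · 8^κ L1/P^(κ-1)` by `singleE_J1`.
So `C = 4 · 2 · 8^κ2` works (`κ ≤ κ2`).
-/

namespace FWar

open MWg Finset Filter Topology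

private theorem cn_eq' {ι : Type*} (W : Finset ι) (p : ι → Prop) [DecidablePred p] :
    cn W p = ((W.filter p).card : ℝ) := by
  unfold cn
  congr

/-- a set of naturals of small diameter. -/
private theorem card_diam {S : Finset ℕ} {D : ℝ} (hD : 0 ≤ D)
    (h : ∀ u ∈ S, ∀ u' ∈ S, u' < u → (u : ℝ) - u' ≤ D) : (S.card : ℝ) ≤ 1 + D := by
  rcases S.eq_empty_or_nonempty with rfl | hne
  · simp only [Finset.card_empty, Nat.cast_zero]
    linarith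
  · have hmin := S.min'_mem hne
    have hsub : S ⊆ Finset.Icc (S.min' hne) (S.min' hne + ⌊D⌋₊) := by
      intro u hu
      have h1 := S.min'_le u hu
      refine Finset.mem_Icc.2 ⟨h1, ?_⟩
      rcases Nat.eq_or_lt_of_le h1 with h2 | h2
      · omega
      · have h3 := h u hu _ hmin h2
        have h4 : ((u - S.min' hne : ℕ) : ℝ) ≤ D := by
          rw [Nat.cast_sub h1]
          exact h3
        have h5 := Nat.le_floor h4
        omega
    have h6 := Finset.card_le_card hsub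
    rw [Nat.card_Icc] at h6
    have h7 : S.card ≤ ⌊D⌋₊ + 1 := by omega
    have h8 := Nat.floor_le hD
    have h9 : (S.card : ℝ) ≤ (⌊D⌋₊ : ℝ) + 1 := by exact_mod_cast h7
    linarith

private theorem cn_diam {W : Finset ℕ} {p : ℕ → Prop} {D : ℝ} (hD : 0 ≤ D)
    (h : ∀ u ∈ W, ∀ u' ∈ W, p u → p u' → u' < u → (u : ℝ) - u' ≤ D) : cn W p ≤ 1 + D := by
  classical
  rw [cn_eq']
  refine card_diam hD ?_
  intro u hu u' hu' hlt
  have h1 := Finset.mem_filter.1 hu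
  have h2 := Finset.mem_filter.1 hu'
  exact h u h1.1 u' h2.1 h1.2 h2.2 hlt

private theorem rpow_diff {κ a b c : ℝ} (hκ : 1 ≤ κ) (hc : 0 < c) (hca : c ≤ a) (hab : a ≤ b) :
    c ^ (κ - 1) * (b - a) ≤ b ^ κ - a ^ κ := by
  have ha : 0 < a := lt_of_lt_of_le hc hca
  have hb : 0 < b := lt_of_lt_of_le ha hab
  have h1 : a ^ κ = a ^ (κ - 1) * a := by
    rw [← Real.rpow_add_one ha.ne']
    congr 1
    ring
  have h2 : b ^ κ = b ^ (κ - 1) * b := by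
    rw [← Real.rpow_add_one hb.ne']
    congr 1
    ring
  have h3 : a ^ (κ - 1) ≤ b ^ (κ - 1) := Real.rpow_le_rpow ha.le hab (by linarith)
  have h4 : c ^ (κ - 1) ≤ a ^ (κ - 1) := Real.rpow_le_rpow hc.le hca (by linarith)
  have h5 : a ^ (κ - 1) * b ≤ b ^ (κ - 1) * b := mul_le_mul_of_nonneg_right h3 hb.le
  have h6 : c ^ (κ - 1) * (b - a) ≤ a ^ (κ - 1) * (b - a) :=
    mul_le_mul_of_nonneg_right h4 (by linarith)
  rw [h1, h2]
  nlinarith

theorem singleE {κ P α L : ℝ} (hκ : 1 ≤ κ) (hP : 1 ≤ P) (hL : 0 ≤ L) :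
    cn (mainI P) (fun u => |(u : ℝ) ^ κ - α| ≤ L) ≤ 1 + 2 * L / P ^ (κ - 1) := by
  have hP0 : 0 < P := by linarith
  have hpow : 0 < P ^ (κ - 1) := Real.rpow_pos_of_pos hP0 _
  refine cn_diam (by positivity) ?_
  intro u hu u' hu' h h' hlt
  have h1 := (mem_mainI hP0.le).1 hu'
  have h2 : (u' : ℝ) ≤ u := by exact_mod_cast hlt.le
  have h3 := rpow_diff hκ hP0 h1.1.le h2
  have h4 := abs_le.1 h
  have h5 := abs_le.1 h'
  rw [le_div_iff₀ hpow]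
  linarith [mul_comm ((u : ℝ) - u') (P ^ (κ - 1))]

theorem singleE_J1 {κ P α L : ℝ} (hκ : 1 ≤ κ) (hP : 16 ≤ P) (hL : 0 ≤ L) :
    cn (J1 P) (fun v => |(v : ℝ) ^ κ - α| ≤ L) ≤ 1 + 2 * 8 ^ κ * L / P ^ (κ - 1) := by
  have hP0 : 0 < P := by linarith
  have hpow : 0 < P ^ (κ - 1) := Real.rpow_pos_of_pos hP0 _
  have h8 : (0 : ℝ) < 8 ^ κ := Real.rpow_pos_of_pos (by norm_num) _
  refine cn_diam (by positivity) ?_
  intro u hu u' hu' h h' hlt
  have h1 := (mem_J1 hP0.le).1 hu'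
  have h2 : (u' : ℝ) ≤ u := by exact_mod_cast hlt.le
  have h3 := rpow_diff hκ (show 0 < P / 8 by linarith) h1.1.le h2
  have h4 := abs_le.1 h
  have h5 := abs_le.1 h'
  have h6 : (P / 8) ^ (κ - 1) = P ^ (κ - 1) / 8 ^ (κ - 1) := Real.div_rpow hP0.le (by norm_num) _
  have h7 : (0 : ℝ) < 8 ^ (κ - 1) := Real.rpow_pos_of_pos (by norm_num) _
  have h9 : (8 : ℝ) ^ (κ - 1) ≤ 8 ^ κ := Real.rpow_le_rpow_of_exponent_le (by norm_num) (by linarith)
  rw [h6, div_mul_eq_mul_div, div_le_iff₀ h7] at h3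
  rw [le_div_iff₀ hpow]
  have h10 : ((u : ℝ) ^ κ - (u' : ℝ) ^ κ) * 8 ^ (κ - 1) ≤ 2 * L * 8 ^ (κ - 1) :=
    mul_le_mul_of_nonneg_right (by linarith) h7.le
  have h11 : 2 * L * 8 ^ (κ - 1) ≤ 2 * L * 8 ^ κ := mul_le_mul_of_nonneg_left h9 (by linarith)
  linarith [mul_comm ((u : ℝ) - u') (P ^ (κ - 1))]

/-- lower bound for the increment of `a ^ κ log a`. -/
private theorem inc_lower {κ a b : ℝ} (hκ : 1 ≤ κ) (ha : 0 < a) (hab : a ≤ b) :
    (b ^ κ - a ^ κ) * (Real.log a + 1 / κ) ≤ b ^ κ * Real.log b - a ^ κ * Real.log a := by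
  have hb : 0 < b := lt_of_lt_of_le ha hab
  have hκ0 : 0 < κ := by linarith
  have hx : 0 < b ^ κ := Real.rpow_pos_of_pos hb _
  have hx' : 0 < a ^ κ := Real.rpow_pos_of_pos ha _
  have h1 : Real.log (a ^ κ / b ^ κ) ≤ a ^ κ / b ^ κ - 1 := Real.log_le_sub_one_of_pos (by positivity)
  rw [Real.log_div hx'.ne' hx.ne', Real.log_rpow ha, Real.log_rpow hb] at h1
  have h2 : b ^ κ * (κ * Real.log a - κ * Real.log b) ≤ a ^ κ - b ^ κ := by
    have := mul_le_mul_of_nonneg_left h1 hx.le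
    rw [mul_sub (b ^ κ) (a ^ κ / b ^ κ) 1, mul_div_cancel₀ _ hx.ne', mul_one] at this
    exact this
  have h3 : (b ^ κ - a ^ κ) / κ ≤ b ^ κ * (Real.log b - Real.log a) := by
    rw [div_le_iff₀ hκ0]
    nlinarith
  have h4 : (b ^ κ - a ^ κ) * (1 / κ) = (b ^ κ - a ^ κ) / κ := by ring
  nlinarith

/-- upper bound for the increment of `a ^ κ log a`. -/
private theorem inc_upper {κ a b : ℝ} (hκ : 1 ≤ κ) (ha : 0 < a) (hab : a ≤ b) :
    b ^ κ * Real.log b - a ^ κ * Real.log a ≤ (b ^ κ - a ^ κ) * (Real.log b + 1 / κ) := by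
  have hb : 0 < b := lt_of_lt_of_le ha hab
  have hκ0 : 0 < κ := by linarith
  have hx : 0 < b ^ κ := Real.rpow_pos_of_pos hb _
  have hx' : 0 < a ^ κ := Real.rpow_pos_of_pos ha _
  have h1 : Real.log (b ^ κ / a ^ κ) ≤ b ^ κ / a ^ κ - 1 := Real.log_le_sub_one_of_pos (by positivity)
  rw [Real.log_div hx.ne' hx'.ne', Real.log_rpow ha, Real.log_rpow hb] at h1
  have h2 : a ^ κ * (κ * Real.log b - κ * Real.log a) ≤ b ^ κ - a ^ κ := by
    have := mul_le_mul_of_nonneg_left h1 hx'.le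
    rw [mul_sub (a ^ κ) (b ^ κ / a ^ κ) 1, mul_div_cancel₀ _ hx'.ne', mul_one] at this
    exact this
  have h3 : a ^ κ * (Real.log b - Real.log a) ≤ (b ^ κ - a ^ κ) / κ := by
    rw [le_div_iff₀ hκ0]
    nlinarith
  have h4 : (b ^ κ - a ^ κ) * (1 / κ) = (b ^ κ - a ^ κ) / κ := by ring
  nlinarith

private theorem log16 {P : ℝ} (hP : 16 ≤ P) : 2 ≤ Real.log P := by
  have h1 : Real.log 16 ≤ Real.log P := Real.log_le_log (by norm_num) hP
  have h2 : Real.log 16 = 4 * Real.log 2 := by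
    rw [show (16 : ℝ) = 2 ^ (4 : ℕ) by norm_num, Real.log_pow]
    norm_num
  have h3 := Real.log_two_gt_d9
  linarith

private theorem log4 : 1 ≤ Real.log 4 := by
  have h2 : Real.log 4 = 2 * Real.log 2 := by
    rw [show (4 : ℝ) = 2 ^ (2 : ℕ) by norm_num, Real.log_pow]
    norm_num
  have h3 := Real.log_two_gt_d9
  linarith

private theorem first_diff {κ P α β L1 L2 : ℝ} (hκ : 1 ≤ κ) (hP : 16 ≤ P) (hL1 : 0 ≤ L1) (hL2 : 0 ≤ L2)
    {u u' v v' : ℝ} (hu' : P ≤ u') (hu : u' ≤ u) (hv : P / 8 ≤ v) (hv' : P / 8 ≤ v') (hv1 : v ≤ P / 4)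
    (hv1' : v' ≤ P / 4)
    (h1 : |u ^ κ + v ^ κ - α| ≤ L1) (h1' : |u' ^ κ + v' ^ κ - α| ≤ L1)
    (h2 : |u ^ κ * Real.log u + v ^ κ * Real.log v - β| ≤ L2)
    (h2' : |u' ^ κ * Real.log u' + v' ^ κ * Real.log v' - β| ≤ L2) :
    u - u' ≤ (2 * L2 + 4 * L1 * Real.log P) / P ^ (κ - 1) := by
  have hP0 : 0 < P := by linarith
  have hpow : 0 < P ^ (κ - 1) := Real.rpow_pos_of_pos hP0 _
  have hκ0 : 0 < κ := by linarith
  have hk1 : 1 / κ ≤ 1 := by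
    rw [div_le_one hκ0]; exact hκ
  have hk0 : 0 < 1 / κ := by positivity
  have hlog := log16 hP
  have hl4 := log4
  have hs := rpow_diff hκ hP0 hu' hu
  rw [le_div_iff₀ hpow]
  suffices h : u ^ κ - u' ^ κ ≤ 2 * L2 + 4 * L1 * Real.log P by
    linarith [mul_comm (u - u') (P ^ (κ - 1))]
  have hs0 : 0 ≤ u ^ κ - u' ^ κ := by
    refine le_trans ?_ hs
    exact mul_nonneg hpow.le (by linarith)
  have h3 := inc_lower hκ (show 0 < u' by linarith) hu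
  have h4 : Real.log P ≤ Real.log u' := Real.log_le_log hP0 hu'
  have h5 : (u ^ κ - u' ^ κ) * (Real.log P + 1 / κ) ≤ (u ^ κ - u' ^ κ) * (Real.log u' + 1 / κ) :=
    mul_le_mul_of_nonneg_left (by linarith) hs0
  have a1 := abs_le.1 h1
  have a1' := abs_le.1 h1'
  have a2 := abs_le.1 h2
  have a2' := abs_le.1 h2'
  have hL1P : 0 ≤ L1 * Real.log P := mul_nonneg hL1 (by linarith)
  rcases le_total v' v with hvv | hvv
  · have h6 := inc_lower hκ (show 0 < v' by linarith) hvv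
    have h7 : 0 ≤ (v ^ κ - v' ^ κ) * (Real.log v' + 1 / κ) := by
      refine mul_nonneg ?_ ?_
      · have := Real.rpow_le_rpow (show 0 ≤ v' by linarith) hvv hκ0.le
        linarith
      · have : 0 ≤ Real.log v' := Real.log_nonneg (by linarith)
        linarith
    have h8 : (u ^ κ - u' ^ κ) * (Real.log P + 1 / κ) ≤ 2 * L2 := by linarith
    have h9 : (u ^ κ - u' ^ κ) * 1 ≤ (u ^ κ - u' ^ κ) * (Real.log P + 1 / κ) :=
      mul_le_mul_of_nonneg_left (by linarith) hs0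
    linarith
  · have h6 := inc_upper hκ (show 0 < v by linarith) hvv
    have h7 : Real.log v' ≤ Real.log P - Real.log 4 := by
      rw [← Real.log_div hP0.ne' (by norm_num)]
      exact Real.log_le_log (by linarith) hv1'
    have hr : 0 ≤ v' ^ κ - v ^ κ := by
      have := Real.rpow_le_rpow (show 0 ≤ v by linarith) hvv hκ0.le
      linarith
    have hlv : 0 ≤ Real.log v' := Real.log_nonneg (by linarith)
    have h8 : (v' ^ κ - v ^ κ) * (Real.log v' + 1 / κ) ≤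
        (u ^ κ - u' ^ κ + 2 * L1) * (Real.log v' + 1 / κ) :=
      mul_le_mul_of_nonneg_right (by linarith) (by linarith)
    have h9 : (u ^ κ - u' ^ κ + 2 * L1) * (Real.log v' + 1 / κ) ≤
        (u ^ κ - u' ^ κ + 2 * L1) * (Real.log P - Real.log 4 + 1 / κ) :=
      mul_le_mul_of_nonneg_left (by linarith) (by linarith)
    have h10 : (u ^ κ - u' ^ κ) * (Real.log P + 1 / κ) ≤
        2 * L2 + (u ^ κ - u' ^ κ + 2 * L1) * (Real.log P - Real.log 4 + 1 / κ) := by linarith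
    have h11 : (u ^ κ - u' ^ κ) * Real.log 4 ≤ 2 * L2 + 2 * L1 * (Real.log P - Real.log 4 + 1 / κ) := by
      nlinarith
    have h12 : 2 * L1 * (Real.log P - Real.log 4 + 1 / κ) ≤ 2 * L1 * (2 * Real.log P) :=
      mul_le_mul_of_nonneg_left (by linarith) (by linarith)
    have h13 : (u ^ κ - u' ^ κ) * 1 ≤ (u ^ κ - u' ^ κ) * Real.log 4 :=
      mul_le_mul_of_nonneg_left hl4 hs0
    linarith

theorem pairE (κ2 : ℝ) : ∃ C : ℝ, 1 ≤ C ∧ ∀ P : ℝ, 16 ≤ P → ∀ κ : ℝ, 1 ≤ κ → κ ≤ κ2 →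
    ∀ α β L1 L2 : ℝ, 0 ≤ L1 → 0 ≤ L2 →
      cn (mainI P ×ˢ J1 P) (fun p => |(p.1 : ℝ) ^ κ + (p.2 : ℝ) ^ κ - α| ≤ L1 ∧
        |(p.1 : ℝ) ^ κ * Real.log p.1 + (p.2 : ℝ) ^ κ * Real.log p.2 - β| ≤ L2) ≤
      C * (1 + L1 / P ^ (κ - 1)) * (1 + (L2 + L1 * Real.log P) / P ^ (κ - 1)) := by
  classical
  have hE1 : (1 : ℝ) ≤ 8 ^ |κ2| := Real.one_le_rpow (by norm_num) (abs_nonneg _)
  refine ⟨8 * 8 ^ |κ2|, by linarith, ?_⟩
  intro P hP κ hκ hκ2 α β L1 L2 hL1 hL2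
  have hP0 : 0 < P := by linarith
  have hpow : 0 < P ^ (κ - 1) := Real.rpow_pos_of_pos hP0 _
  have hlog := log16 hP
  have hL1P : 0 ≤ L1 * Real.log P := mul_nonneg hL1 (by linarith)
  have hE : (8 : ℝ) ^ κ ≤ 8 ^ |κ2| :=
    Real.rpow_le_rpow_of_exponent_le (by norm_num) (le_trans hκ2 (le_abs_self _))
  have h8 : (0 : ℝ) < 8 ^ κ := Real.rpow_pos_of_pos (by norm_num) _
  set S : Finset (ℕ × ℕ) := (mainI P ×ˢ J1 P).filter (fun p => |(p.1 : ℝ) ^ κ + (p.2 : ℝ) ^ κ - α| ≤ L1 ∧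
        |(p.1 : ℝ) ^ κ * Real.log p.1 + (p.2 : ℝ) ^ κ * Real.log p.2 - β| ≤ L2) with hS
  have hcn : cn (mainI P ×ˢ J1 P) (fun p => |(p.1 : ℝ) ^ κ + (p.2 : ℝ) ^ κ - α| ≤ L1 ∧
        |(p.1 : ℝ) ^ κ * Real.log p.1 + (p.2 : ℝ) ^ κ * Real.log p.2 - β| ≤ L2) = (S.card : ℝ) := by
    rw [cn_eq']
  rw [hcn]
  have hSm : ∀ p ∈ S, (p.1 ∈ mainI P ∧ p.2 ∈ J1 P) ∧ |(p.1 : ℝ) ^ κ + (p.2 : ℝ) ^ κ - α| ≤ L1 ∧
        |(p.1 : ℝ) ^ κ * Real.log p.1 + (p.2 : ℝ) ^ κ * Real.log p.2 - β| ≤ L2 := by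
    intro p hp
    have h1 := Finset.mem_filter.1 hp
    exact ⟨Finset.mem_product.1 h1.1, h1.2⟩
  set D : ℝ := (2 * L2 + 4 * L1 * Real.log P) / P ^ (κ - 1) with hD
  have hD0 : 0 ≤ D := by
    rw [hD]
    refine div_nonneg ?_ hpow.le
    nlinarith
  set B : ℝ := 1 + 2 * 8 ^ κ * L1 / P ^ (κ - 1) with hB
  have hB0 : 0 ≤ B := by positivity
  have hF : ((S.image Prod.fst).card : ℝ) ≤ 1 + D := by
    refine card_diam hD0 ?_
    intro u hu u' hu' hlt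
    obtain ⟨p, hp, rfl⟩ := Finset.mem_image.1 hu
    obtain ⟨p', hp', rfl⟩ := Finset.mem_image.1 hu'
    obtain ⟨⟨m1, m2⟩, m3, m4⟩ := hSm p hp
    obtain ⟨⟨m1', m2'⟩, m3', m4'⟩ := hSm p' hp'
    have n1' := (mem_mainI hP0.le).1 m1'
    have n2 := (mem_J1 hP0.le).1 m2
    have n2' := (mem_J1 hP0.le).1 m2'
    exact first_diff hκ hP hL1 hL2 n1'.1.le (by exact_mod_cast hlt.le) n2.1.le n2'.1.le n2.2 n2'.2
      m3 m3' m4 m4'
  have hfib : ∀ u ∈ S.image Prod.fst, (((S.filter fun p => p.1 = u).card : ℕ) : ℝ) ≤ B := by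
    intro u _
    have h1 := singleE_J1 (α := α - (u : ℝ) ^ κ) hκ hP hL1
    rw [cn_eq'] at h1
    refine le_trans ?_ h1
    have h2 : (S.filter fun p => p.1 = u).card ≤
        ((J1 P).filter fun v : ℕ => |(v : ℝ) ^ κ - (α - (u : ℝ) ^ κ)| ≤ L1).card := by
      refine Finset.card_le_card_of_injOn Prod.snd ?_ ?_
      · intro p hp
        have h3 := Finset.mem_filter.1 (Finset.mem_coe.1 hp)
        obtain ⟨⟨m1, m2⟩, m3, m4⟩ := hSm p h3.1
        refine Finset.mem_coe.2 (Finset.mem_filter.2 ⟨m2, ?_⟩)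
        rw [← h3.2]
        have : (p.2 : ℝ) ^ κ - (α - (p.1 : ℝ) ^ κ) = (p.1 : ℝ) ^ κ + (p.2 : ℝ) ^ κ - α := by ring
        rw [this]
        exact m3
      · intro p hp p' hp' hpp
        have h3 := (Finset.mem_filter.1 (Finset.mem_coe.1 hp)).2
        have h4 := (Finset.mem_filter.1 (Finset.mem_coe.1 hp')).2
        exact Prod.ext (by rw [h3, h4]) hpp
    exact_mod_cast h2
  have hcard : (S.card : ℝ) ≤ (1 + D) * B := by
    have h1 : S.card = ∑ u ∈ S.image Prod.fst, (S.filter fun p => p.1 = u).card :=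
      Finset.card_eq_sum_card_image Prod.fst S
    have h2 : (S.card : ℝ) = ∑ u ∈ S.image Prod.fst, (((S.filter fun p => p.1 = u).card : ℕ) : ℝ) := by
      rw [h1]
      push_cast
      rfl
    rw [h2]
    calc ∑ u ∈ S.image Prod.fst, (((S.filter fun p => p.1 = u).card : ℕ) : ℝ)
        ≤ ∑ u ∈ S.image Prod.fst, B := Finset.sum_le_sum hfib
      _ = ((S.image Prod.fst).card : ℝ) * B := by rw [Finset.sum_const, nsmul_eq_mul]
      _ ≤ (1 + D) * B := mul_le_mul_of_nonneg_right hF hB0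
  have hX : 0 ≤ (L2 + L1 * Real.log P) / P ^ (κ - 1) := by positivity
  have hY : 0 ≤ L1 / P ^ (κ - 1) := by positivity
  have hD1 : 1 + D ≤ 4 * (1 + (L2 + L1 * Real.log P) / P ^ (κ - 1)) := by
    have : D = (4 * (L2 + L1 * Real.log P) - 2 * L2) / P ^ (κ - 1) := by
      rw [hD]; congr 1; ring
    rw [this, sub_div, mul_div_assoc]
    have h1 : 0 ≤ 2 * L2 / P ^ (κ - 1) := by positivity
    linarith
  have hB1 : B ≤ 2 * 8 ^ |κ2| * (1 + L1 / P ^ (κ - 1)) := by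
    have : B = 1 + 2 * 8 ^ κ * (L1 / P ^ (κ - 1)) := by
      rw [hB]; congr 1; ring
    rw [this]
    have h1 : 2 * 8 ^ κ * (L1 / P ^ (κ - 1)) ≤ 2 * 8 ^ |κ2| * (L1 / P ^ (κ - 1)) :=
      mul_le_mul_of_nonneg_right (by linarith) hY
    linarith
  calc (S.card : ℝ) ≤ (1 + D) * B := hcard
    _ ≤ (4 * (1 + (L2 + L1 * Real.log P) / P ^ (κ - 1))) * (2 * 8 ^ |κ2| * (1 + L1 / P ^ (κ - 1))) :=
        mul_le_mul hD1 hB1 hB0 (by positivity)
    _ = 8 * 8 ^ |κ2| * (1 + L1 / P ^ (κ - 1)) * (1 + (L2 + L1 * Real.log P) / P ^ (κ - 1)) := by ring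

end FWar
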