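import Pool.Agent.FWar.MixB

/-!
# FWar.PairS: one letter and one pair of letters, shifted powers (uniform in the shift)

`k ≥ 2`, `j = k - 1 ≥ 1`, `|b| ≤ T`, `P ≥ P0` with `T ≤ P0/64`, `16 ≤ P0`. (Compare
`Pool/Agent/MWg/Pair.lean` and `Pool/Agent/FWar/PairE.lean`.)
For `u ∈ mainI P`: `(31/32) P ≤ u + b ≤ 17 P`; for `v ∈ J1 P`: `P/16 ≤ v + b ≤ (17/64) P`.

`singleS`, `singleS_J1`: if `u' < u` are two elements of the set, `c P ≤ u' + b` (`c = 1/2` resp. `1/16`),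
then `(c P)^(k-1) (u - u') ≤ (u+b)^k - (u'+b)^k ≤ 2L`, so they lie in an interval of length
`2L/(cP)^(k-1)`.

PROOF of `pairS`. Let `(u,v)`, `(u',v')` be two solutions, `u > u'`; `x = u+b`, `x' = u'+b`, `z = v+b`,
`z' = v'+b`. For reals `0 < y' < y`:
`(k/j) y' (y^j - y'^j) ≤ y^k - y'^k ≤ (k/j) y (y^j - y'^j)` (with `k = j+1`; the two private lemmas
`pr_low`, `pr_up` of `Pool/Agent/MWg/Pair.lean` with `m = 1`) and `y^j - y'^j ≥ j y'^(j-1) (y-y')`.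
Put `A_u = (x^k - x'^k)/(u-u')`, `B_u = (x^j - x'^j)/(u-u')`:
`A_u ≥ (31/32)(k/j) P B_u`, `B_u ≥ (P/2)^(j-1)`. If `v ≠ v'`, `A_v`, `B_v` similarly (both positive),
`A_v ≤ (17/64)(k/j) P B_v`. From `|A_u (u-u') + A_v (v-v')| ≤ 2 L1`, `|B_u (u-u') + B_v (v-v')| ≤ 2 L2`
and `(A_u B_v - A_v B_u)(u-u') = B_v (A_u(u-u') + A_v(v-v')) - A_v (B_u(u-u') + B_v(v-v'))`:
`(45/64)(k/j) P B_u B_v (u-u') ≤ 2 L1 B_v + 2 L2 (17/64)(k/j) P B_v`, so
`u - u' ≤ C (L1/P^j + L2/P^(j-1))`. If `v = v'`: `A_u (u-u') ≤ 2 L1`, `A_u ≥ (P/2)^(k-1)`. So the first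
components take at most `1 + C (L1/P^(k-1) + L2/P^(k-2))` values, and for each `u` there are at most
`1 + C L1/P^(k-1)` values of `v` (`singleS_J1`).
-/

namespace FWar

open MWg Finset Filter Topology

private theorem ps_am (n : ℕ) {x y : ℝ} (hx : 0 ≤ x) (hy : 0 ≤ y) :
    0 ≤ (n : ℝ) * x ^ (n + 1) + y ^ (n + 1) - (n + 1) * (x ^ n * y) := by
  induction n with
  | zero => simp
  | succ n ih =>
    have h1 : ((n + 1 : ℕ) : ℝ) * x ^ (n + 1 + 1) + y ^ (n + 1 + 1) -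
        (((n + 1 : ℕ) : ℝ) + 1) * (x ^ (n + 1) * y) =
        y * ((n : ℝ) * x ^ (n + 1) + y ^ (n + 1) - (n + 1) * (x ^ n * y)) +
          ((n : ℝ) + 1) * x ^ n * (x - y) ^ 2 := by
      push_cast
      ring
    rw [h1]
    have h2 := mul_nonneg hy ih
    have h3 : 0 ≤ ((n : ℝ) + 1) * x ^ n * (x - y) ^ 2 := by positivity
    linarith

private theorem ps_low (j : ℕ) (hj : 1 ≤ j) (m : ℕ) {x y : ℝ} (hy : 0 ≤ y) (hxy : y ≤ x) :
    ((j + m : ℕ) : ℝ) * (y ^ m * (x ^ j - y ^ j)) ≤ (j : ℝ) * (x ^ (j + m) - y ^ (j + m)) := by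
  have hx : 0 ≤ x := hy.trans hxy
  induction m with
  | zero => simp
  | succ m ih =>
    have h1 := ps_am (j + m) hx hy
    have hn : (0 : ℝ) < ((j + m : ℕ) : ℝ) := by
      have : 0 < j + m := by omega
      exact_mod_cast this
    set n : ℕ := j + m with hnm
    have h2 : ((n : ℝ) + 1) * (y * (x ^ n - y ^ n)) ≤ n * (x ^ (n + 1) - y ^ (n + 1)) := by
      have : (n : ℝ) * (x ^ (n + 1) - y ^ (n + 1)) - ((n : ℝ) + 1) * (y * (x ^ n - y ^ n)) =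
          (n : ℝ) * x ^ (n + 1) + y ^ (n + 1) - (n + 1) * (x ^ n * y) := by ring
      linarith
    have h3 : (n : ℝ) * ((n + 1) * (y ^ (m + 1) * (x ^ j - y ^ j))) ≤
        n * (j * (x ^ (n + 1) - y ^ (n + 1))) := by
      have h4 := mul_le_mul_of_nonneg_left ih (by positivity : 0 ≤ ((n : ℝ) + 1) * y)
      have h5 := mul_le_mul_of_nonneg_left h2 (Nat.cast_nonneg j : (0 : ℝ) ≤ (j : ℝ))
      calc (n : ℝ) * ((n + 1) * (y ^ (m + 1) * (x ^ j - y ^ j)))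
          = ((n : ℝ) + 1) * y * (n * (y ^ m * (x ^ j - y ^ j))) := by ring
        _ ≤ ((n : ℝ) + 1) * y * (j * (x ^ n - y ^ n)) := h4
        _ = (j : ℝ) * (((n : ℝ) + 1) * (y * (x ^ n - y ^ n))) := by ring
        _ ≤ (j : ℝ) * (n * (x ^ (n + 1) - y ^ (n + 1))) := h5
        _ = _ := by ring
    have h6 := le_of_mul_le_mul_left h3 hn
    have h7 : j + (m + 1) = n + 1 := by omega
    rw [h7]
    push_cast
    exact h6

private theorem ps_up (j : ℕ) (hj : 1 ≤ j) (m : ℕ) {x y : ℝ} (hy : 0 ≤ y) (hxy : y ≤ x) :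
    (j : ℝ) * (x ^ (j + m) - y ^ (j + m)) ≤ ((j + m : ℕ) : ℝ) * (x ^ m * (x ^ j - y ^ j)) := by
  have hx : 0 ≤ x := hy.trans hxy
  induction m with
  | zero => simp
  | succ m ih =>
    have h1 := ps_am (j + m) hy hx
    have hn : (0 : ℝ) < ((j + m : ℕ) : ℝ) := by
      have : 0 < j + m := by omega
      exact_mod_cast this
    set n : ℕ := j + m with hnm
    have h2 : (n : ℝ) * (x ^ (n + 1) - y ^ (n + 1)) ≤ ((n : ℝ) + 1) * (x * (x ^ n - y ^ n)) := by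
      have : ((n : ℝ) + 1) * (x * (x ^ n - y ^ n)) - (n : ℝ) * (x ^ (n + 1) - y ^ (n + 1)) =
          (n : ℝ) * y ^ (n + 1) + x ^ (n + 1) - (n + 1) * (y ^ n * x) := by ring
      linarith
    have h3 : (n : ℝ) * (j * (x ^ (n + 1) - y ^ (n + 1))) ≤
        (n : ℝ) * ((n + 1) * (x ^ (m + 1) * (x ^ j - y ^ j))) := by
      have h4 := mul_le_mul_of_nonneg_left ih (by positivity : 0 ≤ ((n : ℝ) + 1) * x)
      have h5 := mul_le_mul_of_nonneg_left h2 (Nat.cast_nonneg j : (0 : ℝ) ≤ (j : ℝ))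
      calc (n : ℝ) * (j * (x ^ (n + 1) - y ^ (n + 1)))
          = (j : ℝ) * (n * (x ^ (n + 1) - y ^ (n + 1))) := by ring
        _ ≤ (j : ℝ) * (((n : ℝ) + 1) * (x * (x ^ n - y ^ n))) := h5
        _ = ((n : ℝ) + 1) * x * (j * (x ^ n - y ^ n)) := by ring
        _ ≤ ((n : ℝ) + 1) * x * (n * (x ^ m * (x ^ j - y ^ j))) := h4
        _ = _ := by ring
    have h6 := le_of_mul_le_mul_left h3 hn
    have h7 : j + (m + 1) = n + 1 := by omega
    rw [h7]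
    push_cast
    exact h6

private theorem ps_cn_eq' {ι : Type*} (W : Finset ι) (p : ι → Prop) [DecidablePred p] :
    cn W p = ((W.filter p).card : ℝ) := by
  unfold cn
  congr

/-- a set of naturals of small diameter. -/
private theorem ps_card_diam {S : Finset ℕ} {D : ℝ} (hD : 0 ≤ D)
    (h : ∀ u ∈ S, ∀ u' ∈ S, u' < u → (u : ℝ) - u' ≤ D) : (S.card : ℝ) ≤ 1 + D := by
  rcases S.eq_empty_or_nonempty with rfl | hne
  · simp only [Finset.card_empty, Nat.cast_zero]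
    linarith
  · have hmin := S.min'_mem hne
    have hsub : S ⊆ Finset.Icc (S.min' hne) (S.min' hne + ⌊D⌋₊) := by
      intro u hu
      have h1 := S.min'_le u hu
      refine Finset.mem_Icc.2 ⟨h1, ?_⟩
      rcases Nat.eq_or_lt_of_le h1 with h2 | h2
      · omega
      · have h3 := h u hu _ hmin h2
        have h4 : ((u - S.min' hne : ℕ) : ℝ) ≤ D := by
          rw [Nat.cast_sub h1]
          exact h3
        have h5 := Nat.le_floor h4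
        omega
    have h6 := Finset.card_le_card hsub
    rw [Nat.card_Icc] at h6
    have h7 : S.card ≤ ⌊D⌋₊ + 1 := by omega
    have h8 := Nat.floor_le hD
    have h9 : (S.card : ℝ) ≤ (⌊D⌋₊ : ℝ) + 1 := by exact_mod_cast h7
    linarith

private theorem ps_cn_diam {W : Finset ℕ} {p : ℕ → Prop} {D : ℝ} (hD : 0 ≤ D)
    (h : ∀ u ∈ W, ∀ u' ∈ W, p u → p u' → u' < u → (u : ℝ) - u' ≤ D) : cn W p ≤ 1 + D := by
  classical
  rw [ps_cn_eq']
  refine ps_card_diam hD ?_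
  intro u hu u' hu' hlt
  have h1 := Finset.mem_filter.1 hu
  have h2 := Finset.mem_filter.1 hu'
  exact h u h1.1 u' h2.1 h1.2 h2.2 hlt


/-- lower bound for the increment of a power -/
private theorem ps_inc {n : ℕ} (hn : 1 ≤ n) {c x y : ℝ} (hc : 0 ≤ c) (hcy : c ≤ y) (hxy : y ≤ x) :
    c ^ (n - 1) * (x - y) ≤ x ^ n - y ^ n := by
  have hy : 0 ≤ y := hc.trans hcy
  have a3 := ps_low 1 le_rfl (n - 1) (x := x) (y := y) hy hxy
  have e1 : 1 + (n - 1) = n := by omega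
  rw [e1, pow_one, pow_one, Nat.cast_one, one_mul] at a3
  have hn1 : (1 : ℝ) ≤ n := by exact_mod_cast hn
  have h1 : c ^ (n - 1) * (x - y) ≤ y ^ (n - 1) * (x - y) :=
    mul_le_mul_of_nonneg_right (pow_le_pow_left₀ hc hcy _) (by linarith)
  have h2 : 0 ≤ y ^ (n - 1) * (x - y) := mul_nonneg (pow_nonneg hy _) (by linarith)
  nlinarith

private theorem ps_single {k : ℕ} (hk : 1 ≤ k) {W : Finset ℕ} {c b α L : ℝ} (hc : 0 < c)
    (hL : 0 ≤ L) (hW : ∀ u ∈ W, c ≤ (u : ℝ) + b) :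
    cn W (fun u => |((u : ℝ) + b) ^ k - α| ≤ L) ≤ 1 + 2 * L / c ^ (k - 1) := by
  have hpow : 0 < c ^ (k - 1) := pow_pos hc _
  refine ps_cn_diam (by positivity) ?_
  intro u hu u' hu' h h' hlt
  have h2 : (u' : ℝ) ≤ u := by exact_mod_cast hlt.le
  have h3 := ps_inc hk hc.le (hW u' hu') (show (u' : ℝ) + b ≤ (u : ℝ) + b by linarith)
  have h4 := abs_le.1 h
  have h5 := abs_le.1 h'
  rw [le_div_iff₀ hpow]
  have h6 : (u : ℝ) + b - ((u' : ℝ) + b) = (u : ℝ) - u' := by ring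
  rw [h6] at h3
  linarith [mul_comm ((u : ℝ) - u') (c ^ (k - 1))]

private theorem ps_bounds {T P b : ℝ} (hP : max 16 (64 * T) ≤ P) (hb : |b| ≤ T) :
    16 ≤ P ∧ -(P / 64) ≤ b ∧ b ≤ P / 64 := by
  have h1 : 16 ≤ P := (le_max_left _ _).trans hP
  have h2 : 64 * T ≤ P := (le_max_right _ _).trans hP
  have h3 := abs_le.1 hb
  exact ⟨h1, by linarith [h3.1], by linarith [h3.2]⟩

/-- the key inequality -/
private theorem ps_key {k : ℕ} (hk : 2 ≤ k) {P b α β L1 L2 u u' v v' : ℝ} (hP : 16 ≤ P)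
    (hb1 : -(P / 64) ≤ b) (hb2 : b ≤ P / 64) (hL2 : 0 ≤ L2) (hL1 : 0 ≤ L1)
    (hu' : P ≤ u') (huu : u' ≤ u) (hv : P / 8 ≤ v) (hv' : P / 8 ≤ v') (hv1 : v ≤ P / 4)
    (hv1' : v' ≤ P / 4)
    (h1 : |(u + b) ^ k + (v + b) ^ k - α| ≤ L1) (h2 : |(u' + b) ^ k + (v' + b) ^ k - α| ≤ L1)
    (h3 : |(u + b) ^ (k - 1) + (v + b) ^ (k - 1) - β| ≤ L2)
    (h4 : |(u' + b) ^ (k - 1) + (v' + b) ^ (k - 1) - β| ≤ L2) :
    u - u' ≤ 3 * 2 ^ (k - 2) * (L1 / P ^ (k - 1) + L2 / P ^ (k - 2)) := by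
  have hP0 : 0 < P := by linarith
  have hPk : 0 < P ^ (k - 1) := pow_pos hP0 _
  have hPj : 0 < P ^ (k - 2) := pow_pos hP0 _
  obtain ⟨j, hj, rfl⟩ : ∃ j, 1 ≤ j ∧ k = j + 1 := ⟨k - 1, by omega, by omega⟩
  have e1 : j + 1 - 1 = j := by omega
  have e2 : j + 1 - 2 = j - 1 := by omega
  rw [e1] at h3 h4 hPk ⊢
  rw [e2] at hPj ⊢
  have hj1 : (1 : ℝ) ≤ j := by exact_mod_cast hj
  have hj0 : (0 : ℝ) < j := by linarith
  have hkc : ((j + 1 : ℕ) : ℝ) = (j : ℝ) + 1 := by push_cast; ring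
  have hPkj : P ^ j = P * P ^ (j - 1) := by
    rw [← pow_succ']
    congr 1
    omega
  -- big letters
  have a2 := ps_low j hj 1 (x := u + b) (y := u' + b) (by linarith) (by linarith)
  have b2 := ps_inc hj (c := P / 2) (x := u + b) (y := u' + b) (by linarith) (by linarith)
    (by linarith)
  rw [pow_one, hkc] at a2
  have hd : u + b - (u' + b) = u - u' := by ring
  rw [hd] at b2
  -- small letters
  have small : ∀ z z' : ℝ, P / 8 ≤ z' → z' ≤ z → z ≤ P / 4 →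
      j * |(z + b) ^ (j + 1) - (z' + b) ^ (j + 1)| ≤
        17 / 64 * (((j : ℝ) + 1) * (P * |(z + b) ^ j - (z' + b) ^ j|)) := by
    intro z z' hz1 hz2 hz3
    have c1 := ps_up j hj 1 (x := z + b) (y := z' + b) (by linarith) (by linarith)
    rw [pow_one, hkc] at c1
    have c2 : 0 ≤ (z + b) ^ (j + 1) - (z' + b) ^ (j + 1) := by
      rw [sub_nonneg]
      exact pow_le_pow_left₀ (by linarith) (by linarith) _
    have c3 : 0 ≤ (z + b) ^ j - (z' + b) ^ j := by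
      rw [sub_nonneg]
      exact pow_le_pow_left₀ (by linarith) (by linarith) _
    rw [abs_of_nonneg c2, abs_of_nonneg c3]
    refine c1.trans ?_
    have c4 : (z + b) * ((z + b) ^ j - (z' + b) ^ j) ≤
        17 / 64 * P * ((z + b) ^ j - (z' + b) ^ j) :=
      mul_le_mul_of_nonneg_right (by linarith) c3
    have c5 := mul_le_mul_of_nonneg_left c4 (by linarith : (0 : ℝ) ≤ (j : ℝ) + 1)
    linarith
  have small' : j * |(v + b) ^ (j + 1) - (v' + b) ^ (j + 1)| ≤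
        17 / 64 * (((j : ℝ) + 1) * (P * |(v + b) ^ j - (v' + b) ^ j|)) := by
    rcases le_total v' v with h | h
    · exact small v v' hv' h hv1
    · have := small v' v hv h hv1'
      rwa [abs_sub_comm ((v' + b) ^ (j + 1)), abs_sub_comm ((v' + b) ^ j)] at this
  have hGu0 : 0 ≤ (u + b) ^ j - (u' + b) ^ j := by
    rw [sub_nonneg]
    exact pow_le_pow_left₀ (by linarith) (by linarith) _
  obtain ⟨Ku, hKu⟩ : ∃ Ku, Ku = (u + b) ^ (j + 1) - (u' + b) ^ (j + 1) := ⟨_, rfl⟩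
  obtain ⟨Gu, hGu⟩ : ∃ Gu, Gu = (u + b) ^ j - (u' + b) ^ j := ⟨_, rfl⟩
  obtain ⟨Kv, hKv⟩ : ∃ Kv, Kv = (v + b) ^ (j + 1) - (v' + b) ^ (j + 1) := ⟨_, rfl⟩
  obtain ⟨Gv, hGv⟩ : ∃ Gv, Gv = (v + b) ^ j - (v' + b) ^ j := ⟨_, rfl⟩
  rw [← hKu, ← hGu] at a2
  rw [← hGu] at b2 hGu0
  rw [← hKv, ← hGv] at small'
  have g1 : |Ku + Kv| ≤ 2 * L1 := by
    have : Ku + Kv = ((u + b) ^ (j + 1) + (v + b) ^ (j + 1) - α) -
        ((u' + b) ^ (j + 1) + (v' + b) ^ (j + 1) - α) := by rw [hKu, hKv]; ring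
    rw [this]
    refine (abs_sub _ _).trans ?_
    linarith
  have g2 : |Gu + Gv| ≤ 2 * L2 := by
    have : Gu + Gv = ((u + b) ^ j + (v + b) ^ j - β) -
        ((u' + b) ^ j + (v' + b) ^ j - β) := by rw [hGu, hGv]; ring
    rw [this]
    refine (abs_sub _ _).trans ?_
    linarith
  have g3 : Ku ≤ 2 * L1 + |Kv| := by
    have e1 := (abs_le.1 g1).2
    have e2 := neg_abs_le Kv
    linarith
  have g4 : |Gv| ≤ Gu + 2 * L2 := by
    have e1 := abs_le.1 g2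
    rw [abs_le]
    constructor <;> linarith [e1.1, e1.2]
  have hx' : 31 / 32 * P ≤ u' + b := by linarith
  have g0 : ((j : ℝ) + 1) * (31 / 32 * P * Gu) ≤ j * Ku := by
    refine le_trans ?_ a2
    refine mul_le_mul_of_nonneg_left ?_ (by linarith)
    exact mul_le_mul_of_nonneg_right hx' hGu0
  have g5 : (j : ℝ) * Ku ≤ j * (2 * L1) + j * |Kv| := by
    have := mul_le_mul_of_nonneg_left g3 hj0.le
    linarith
  have g6 : ((j : ℝ) + 1) * (P * |Gv|) ≤ ((j : ℝ) + 1) * (P * (Gu + 2 * L2)) :=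
    mul_le_mul_of_nonneg_left (mul_le_mul_of_nonneg_left g4 hP0.le) (by linarith)
  have g7 : ((j : ℝ) + 1) * (45 / 64 * (P * Gu)) ≤
      ((j : ℝ) + 1) * (2 * L1 + 17 / 32 * (P * L2)) := by
    have e3 : (j : ℝ) * (2 * L1) ≤ ((j : ℝ) + 1) * (2 * L1) :=
      mul_le_mul_of_nonneg_right (by linarith) (by linarith)
    linarith
  have g8 : 45 / 64 * (P * Gu) ≤ 2 * L1 + 17 / 32 * (P * L2) :=
    le_of_mul_le_mul_left g7 (by linarith)
  have g9 : P * ((P / 2) ^ (j - 1) * (u - u')) ≤ P * Gu := mul_le_mul_of_nonneg_left b2 hP0.le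
  have hPL : 0 ≤ P * L2 := mul_nonneg hP0.le hL2
  have g10 : P * ((P / 2) ^ (j - 1) * (u - u')) ≤ 3 * (L1 + P * L2) := by linarith
  have h2p : (0 : ℝ) < 2 ^ (j - 1) := by positivity
  have g11 : P ^ j * (u - u') = 2 ^ (j - 1) * (P * ((P / 2) ^ (j - 1) * (u - u'))) := by
    rw [hPkj, div_pow]
    field_simp
  have g12 : P ^ j * (u - u') ≤ 2 ^ (j - 1) * (3 * (L1 + P * L2)) := by
    rw [g11]
    exact mul_le_mul_of_nonneg_left g10 h2p.le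
  have g13 : P ^ j * (3 * 2 ^ (j - 1) * (L1 / P ^ j + L2 / P ^ (j - 1))) =
      2 ^ (j - 1) * (3 * (L1 + P * L2)) := by
    have e3 : P ^ j * (L1 / P ^ j) = L1 := mul_div_cancel₀ _ hPk.ne'
    have e4 : P ^ j * (L2 / P ^ (j - 1)) = P * L2 := by
      rw [hPkj]
      field_simp
    calc P ^ j * (3 * 2 ^ (j - 1) * (L1 / P ^ j + L2 / P ^ (j - 1)))
        = 3 * 2 ^ (j - 1) * (P ^ j * (L1 / P ^ j) + P ^ j * (L2 / P ^ (j - 1))) := by ring
      _ = 2 ^ (j - 1) * (3 * (L1 + P * L2)) := by rw [e3, e4]; ring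
  rw [← g13] at g12
  exact le_of_mul_le_mul_left g12 hPk

theorem singleS {k : ℕ} (hk : 2 ≤ k) (T : ℝ) : ∃ C : ℝ, 0 < C ∧ ∃ P0 : ℝ, 16 ≤ P0 ∧
    ∀ P : ℝ, P0 ≤ P → ∀ b : ℝ, |b| ≤ T → ∀ α L : ℝ, 0 ≤ L →
      cn (mainI P) (fun u => |((u : ℝ) + b) ^ k - α| ≤ L) ≤ 1 + C * L / P ^ (k - 1) := by
  refine ⟨2 * 2 ^ (k - 1), by positivity, max 16 (64 * T), le_max_left _ _, ?_⟩
  intro P hP b hb α L hL
  obtain ⟨hP16, hb1, hb2⟩ := ps_bounds hP hb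
  have hP0 : 0 < P := by linarith
  have h1 := ps_single (W := mainI P) (c := P / 2) (b := b) (α := α) (L := L)
    (show 1 ≤ k by omega) (by linarith) hL (by
      intro u hu
      have := (mem_mainI hP0.le).1 hu
      linarith [this.1])
  refine h1.trans (le_of_eq ?_)
  have hPk : P ^ (k - 1) ≠ 0 := (pow_pos hP0 _).ne'
  rw [div_pow]
  field_simp

theorem singleS_J1 {k : ℕ} (hk : 2 ≤ k) (T : ℝ) : ∃ C : ℝ, 0 < C ∧ ∃ P0 : ℝ, 16 ≤ P0 ∧
    ∀ P : ℝ, P0 ≤ P → ∀ b : ℝ, |b| ≤ T → ∀ α L : ℝ, 0 ≤ L →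
      cn (J1 P) (fun v => |((v : ℝ) + b) ^ k - α| ≤ L) ≤ 1 + C * L / P ^ (k - 1) := by
  refine ⟨2 * 16 ^ (k - 1), by positivity, max 16 (64 * T), le_max_left _ _, ?_⟩
  intro P hP b hb α L hL
  obtain ⟨hP16, hb1, hb2⟩ := ps_bounds hP hb
  have hP0 : 0 < P := by linarith
  have h1 := ps_single (W := J1 P) (c := P / 16) (b := b) (α := α) (L := L)
    (show 1 ≤ k by omega) (by linarith) hL (by
      intro u hu
      have := (mem_J1 hP0.le).1 hu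
      linarith [this.1])
  refine h1.trans (le_of_eq ?_)
  have hPk : P ^ (k - 1) ≠ 0 := (pow_pos hP0 _).ne'
  rw [div_pow]
  field_simp

theorem pairS {k : ℕ} (hk : 2 ≤ k) (T : ℝ) : ∃ C : ℝ, 0 < C ∧ ∃ P0 : ℝ, 16 ≤ P0 ∧
    ∀ P : ℝ, P0 ≤ P → ∀ b : ℝ, |b| ≤ T → ∀ α β L1 L2 : ℝ, 0 ≤ L1 → 0 ≤ L2 →
      cn (mainI P ×ˢ J1 P) (fun p => |((p.1 : ℝ) + b) ^ k + ((p.2 : ℝ) + b) ^ k - α| ≤ L1 ∧
        |((p.1 : ℝ) + b) ^ (k - 1) + ((p.2 : ℝ) + b) ^ (k - 1) - β| ≤ L2) ≤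
      C * (1 + L1 / P ^ (k - 1)) * (1 + L1 / P ^ (k - 1) + L2 / P ^ (k - 2)) := by
  classical
  obtain ⟨C1, hC1, P1, hP1, hcnt⟩ := singleS_J1 hk T
  refine ⟨3 * 2 ^ (k - 2) * (1 + C1), by positivity, max P1 (max 16 (64 * T)),
    (le_max_left _ _).trans (le_max_right _ _), ?_⟩
  intro P hP b hb α β L1 L2 hL1 hL2
  have hPP1 : P1 ≤ P := (le_max_left _ _).trans hP
  obtain ⟨hP16, hb1, hb2⟩ := ps_bounds ((le_max_right _ _).trans hP) hb
  have hP0 : 0 < P := by linarith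
  have hPk : 0 < P ^ (k - 1) := pow_pos hP0 _
  have hPj : 0 < P ^ (k - 2) := pow_pos hP0 _
  have hX : 0 ≤ L1 / P ^ (k - 1) := by positivity
  have hY : 0 ≤ L2 / P ^ (k - 2) := by positivity
  have hcnt' := hcnt P hPP1 b hb
  set S : Finset (ℕ × ℕ) := (mainI P ×ˢ J1 P).filter
    (fun p => |((p.1 : ℝ) + b) ^ k + ((p.2 : ℝ) + b) ^ k - α| ≤ L1 ∧
      |((p.1 : ℝ) + b) ^ (k - 1) + ((p.2 : ℝ) + b) ^ (k - 1) - β| ≤ L2) with hS
  have hcn : cn (mainI P ×ˢ J1 P) (fun p => |((p.1 : ℝ) + b) ^ k + ((p.2 : ℝ) + b) ^ k - α| ≤ L1 ∧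
      |((p.1 : ℝ) + b) ^ (k - 1) + ((p.2 : ℝ) + b) ^ (k - 1) - β| ≤ L2) = (S.card : ℝ) := by
    rw [ps_cn_eq']
  rw [hcn]
  have hSm : ∀ p ∈ S, (p.1 ∈ mainI P ∧ p.2 ∈ J1 P) ∧
      |((p.1 : ℝ) + b) ^ k + ((p.2 : ℝ) + b) ^ k - α| ≤ L1 ∧
      |((p.1 : ℝ) + b) ^ (k - 1) + ((p.2 : ℝ) + b) ^ (k - 1) - β| ≤ L2 := by
    intro p hp
    have h1 := Finset.mem_filter.1 hp
    exact ⟨Finset.mem_product.1 h1.1, h1.2⟩
  have h2p : (1 : ℝ) ≤ 2 ^ (k - 2) := one_le_pow₀ (by norm_num)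
  obtain ⟨D, hD⟩ : ∃ D, D = 3 * 2 ^ (k - 2) * (L1 / P ^ (k - 1) + L2 / P ^ (k - 2)) := ⟨_, rfl⟩
  have hD0 : 0 ≤ D := by
    rw [hD]
    positivity
  obtain ⟨B, hB⟩ : ∃ B, B = 1 + C1 * L1 / P ^ (k - 1) := ⟨_, rfl⟩
  have hB0 : 0 ≤ B := by
    rw [hB]
    positivity
  have hF : ((S.image Prod.fst).card : ℝ) ≤ 1 + D := by
    refine ps_card_diam hD0 ?_
    intro u hu u' hu' hlt
    obtain ⟨p, hp, rfl⟩ := Finset.mem_image.1 hu
    obtain ⟨p', hp', rfl⟩ := Finset.mem_image.1 hu'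
    obtain ⟨⟨m1, m2⟩, m3, m4⟩ := hSm p hp
    obtain ⟨⟨m1', m2'⟩, m3', m4'⟩ := hSm p' hp'
    have n1' := (mem_mainI hP0.le).1 m1'
    have n2 := (mem_J1 hP0.le).1 m2
    have n2' := (mem_J1 hP0.le).1 m2'
    rw [hD]
    exact ps_key hk hP16 hb1 hb2 hL2 hL1 n1'.1.le (by exact_mod_cast hlt.le) n2.1.le n2'.1.le
      n2.2 n2'.2 m3 m3' m4 m4'
  have hfib : ∀ u ∈ S.image Prod.fst, (((S.filter fun p => p.1 = u).card : ℕ) : ℝ) ≤ B := by
    intro u _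
    have h1 := hcnt' (α - ((u : ℝ) + b) ^ k) L1 hL1
    rw [ps_cn_eq'] at h1
    rw [hB]
    refine le_trans ?_ h1
    have h2 : (S.filter fun p => p.1 = u).card ≤
        ((J1 P).filter fun v : ℕ => |((v : ℝ) + b) ^ k - (α - ((u : ℝ) + b) ^ k)| ≤ L1).card := by
      refine Finset.card_le_card_of_injOn Prod.snd ?_ ?_
      · intro p hp
        have h3 := Finset.mem_filter.1 (Finset.mem_coe.1 hp)
        obtain ⟨⟨m1, m2⟩, m3, m4⟩ := hSm p h3.1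
        refine Finset.mem_coe.2 (Finset.mem_filter.2 ⟨m2, ?_⟩)
        rw [← h3.2]
        have : ((p.2 : ℝ) + b) ^ k - (α - ((p.1 : ℝ) + b) ^ k) =
          ((p.1 : ℝ) + b) ^ k + ((p.2 : ℝ) + b) ^ k - α := by ring
        rw [this]
        exact m3
      · intro p hp p' hp' hpp
        have h3 := (Finset.mem_filter.1 (Finset.mem_coe.1 hp)).2
        have h4 := (Finset.mem_filter.1 (Finset.mem_coe.1 hp')).2
        exact Prod.ext (by rw [h3, h4]) hpp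
    exact_mod_cast h2
  have hcard : (S.card : ℝ) ≤ (1 + D) * B := by
    have h1 : S.card = ∑ u ∈ S.image Prod.fst, (S.filter fun p => p.1 = u).card :=
      Finset.card_eq_sum_card_image Prod.fst S
    have h2 : (S.card : ℝ) = ∑ u ∈ S.image Prod.fst, (((S.filter fun p => p.1 = u).card : ℕ) : ℝ) := by
      rw [h1]
      push_cast
      rfl
    rw [h2]
    calc ∑ u ∈ S.image Prod.fst, (((S.filter fun p => p.1 = u).card : ℕ) : ℝ)
        ≤ ∑ u ∈ S.image Prod.fst, B := Finset.sum_le_sum hfib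
      _ = ((S.image Prod.fst).card : ℝ) * B := by rw [Finset.sum_const, nsmul_eq_mul]
      _ ≤ (1 + D) * B := mul_le_mul_of_nonneg_right hF hB0
  have hD1 : 1 + D ≤ 3 * 2 ^ (k - 2) * (1 + L1 / P ^ (k - 1) + L2 / P ^ (k - 2)) := by
    rw [hD]
    have : (3 : ℝ) * 2 ^ (k - 2) * (1 + L1 / P ^ (k - 1) + L2 / P ^ (k - 2)) =
      3 * 2 ^ (k - 2) + 3 * 2 ^ (k - 2) * (L1 / P ^ (k - 1) + L2 / P ^ (k - 2)) := by ring
    rw [this]
    linarith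
  have hB1 : B ≤ (1 + C1) * (1 + L1 / P ^ (k - 1)) := by
    have h1 : B = 1 + C1 * (L1 / P ^ (k - 1)) := by
      rw [hB]
      ring
    rw [h1]
    nlinarith
  calc (S.card : ℝ) ≤ (1 + D) * B := hcard
    _ ≤ (3 * 2 ^ (k - 2) * (1 + L1 / P ^ (k - 1) + L2 / P ^ (k - 2))) *
        ((1 + C1) * (1 + L1 / P ^ (k - 1))) :=
        mul_le_mul hD1 hB1 hB0 (by positivity)
    _ = _ := by ring

end FWar
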