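import Pool.Agent.FWar.MixB
import Pool.Agent.MWg.Tools

/-!
# FWar.ResA: from lists to tuples, longer sums, approximation of reals
-/

namespace FWar

open MWg MeasureTheory Filter Topology

theorem fs_append (f : ℕ → ℝ) (l l' : List ℕ) : fs f (l ++ l') = fs f l + fs f l' := by
  simp [fs]

theorem fs_replicate (f : ℕ → ℝ) (j : ℕ) : fs f (List.replicate j 1) = j * ⌊f 1⌋ := by
  simp [fs]

/-- Longer sums: add terms with `n = 1`. -/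
theorem floor_longer {f : ℕ → ℝ} {m m' : ℕ} (hm : m ≤ m')
    (h : ∃ N0 : ℤ, ∀ N : ℤ, N0 ≤ N → ∃ l : List ℕ, l.length = m ∧ (∀ n ∈ l, 1 ≤ n) ∧
      fs f l = N) :
    ∃ N0 : ℤ, ∀ N : ℤ, N0 ≤ N → ∃ l : List ℕ, l.length = m' ∧ (∀ n ∈ l, 1 ≤ n) ∧
      fs f l = N := by
  obtain ⟨N0, h⟩ := h
  refine ⟨N0 + ((m' - m : ℕ) : ℤ) * ⌊f 1⌋, fun N hN => ?_⟩
  obtain ⟨l, h1, h2, h3⟩ := h (N - ((m' - m : ℕ) : ℤ) * ⌊f 1⌋) (by linarith)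
  refine ⟨l ++ List.replicate (m' - m) 1, ?_, ?_, ?_⟩
  · simp [h1, hm]
  · intro n hn
    rcases List.mem_append.1 hn with h | h
    · exact h2 n h
    · rw [List.eq_of_mem_replicate h]
  · rw [fs_append, fs_replicate, h3]
    ring

/-- Lists to tuples. -/
theorem floor_fin {f : ℕ → ℝ} {m : ℕ}
    (h : ∃ N0 : ℤ, ∀ N : ℤ, N0 ≤ N → ∃ l : List ℕ, l.length = m ∧ (∀ n ∈ l, 1 ≤ n) ∧
      fs f l = N) :
    ∃ N0 : ℤ, ∀ N : ℤ, N0 ≤ N → ∃ n : Fin m → ℕ, (∀ i, 1 ≤ n i) ∧ ∑ i, ⌊f (n i)⌋ = N := by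
  obtain ⟨N0, h⟩ := h
  refine ⟨N0, fun N hN => ?_⟩
  obtain ⟨l, h1, h2, h3⟩ := h N hN
  subst h1
  refine ⟨fun i => l.get i, fun i => h2 _ (List.get_mem l i), ?_⟩
  rw [← h3]
  have h4 : l.map (fun n => ⌊f n⌋) = List.ofFn fun i : Fin l.length => ⌊f (l.get i)⌋ := by
    rw [← Function.comp_def (fun n => ⌊f n⌋) l.get, ← List.map_ofFn, List.ofFn_get]
  rw [fs, h4, List.sum_ofFn]

/-- Approximation of reals by sums of values of `f` from the integer parts of `A f`. -/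
theorem floor_approx {f : ℕ → ℝ} {m : ℕ} {ε A : ℝ} (hA : 0 < A) (hε : ((m : ℝ) + 1) / A < ε)
    (h : ∃ N0 : ℤ, ∀ N : ℤ, N0 ≤ N → ∃ n : Fin m → ℕ, (∀ i, 1 ≤ n i) ∧
      ∑ i, ⌊A * f (n i)⌋ = N) :
    ∃ Y : ℝ, ∀ y : ℝ, Y ≤ y → ∃ n : Fin m → ℕ, (∀ i, 1 ≤ n i) ∧ |∑ i, f (n i) - y| < ε := by
  obtain ⟨N0, h⟩ := h
  refine ⟨(N0 : ℝ) / A, fun y hy => ?_⟩
  have h1 : (N0 : ℝ) ≤ A * y := by
    rw [div_le_iff₀ hA] at hy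
    linarith
  obtain ⟨n, h2, h3⟩ := h ⌊A * y⌋ (Int.le_floor.2 h1)
  refine ⟨n, h2, lt_of_le_of_lt ?_ hε⟩
  have h4 : ((∑ i, ⌊A * f (n i)⌋ : ℤ) : ℝ) ≤ ∑ i, A * f (n i) := by
    push_cast
    exact Finset.sum_le_sum fun i _ => Int.floor_le _
  have h5 : ∑ i, A * f (n i) ≤ ((∑ i, ⌊A * f (n i)⌋ : ℤ) : ℝ) + m := by
    push_cast
    have : ∑ i : Fin m, A * f (n i) ≤ ∑ i : Fin m, ((⌊A * f (n i)⌋ : ℝ) + 1) :=
      Finset.sum_le_sum fun i _ => (Int.lt_floor_add_one _).le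
    rw [Finset.sum_add_distrib] at this
    simpa using this
  rw [h3] at h4 h5
  have h6 : (⌊A * y⌋ : ℝ) ≤ A * y := Int.floor_le _
  have h7 : A * y < (⌊A * y⌋ : ℝ) + 1 := Int.lt_floor_add_one _
  rw [← Finset.mul_sum] at h4 h5
  have h8 : |A * (∑ i, f (n i)) - A * y| ≤ (m : ℝ) + 1 := by
    have hm : (0 : ℝ) ≤ m := Nat.cast_nonneg m
    rw [abs_le]
    constructor <;> linarith
  rw [← mul_sub, abs_mul, abs_of_pos hA] at h8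
  rw [le_div_iff₀ hA]
  linarith

/-- Every large integer is a sum of `m` terms `⌊f n⌋`, and the sums of `m` values `f n` approximate all
large reals (`n ≥ 1`). -/
def Rep (f : ℕ → ℝ) (m : ℕ) : Prop :=
  (∃ N0 : ℤ, ∀ N : ℤ, N0 ≤ N → ∃ n : Fin m → ℕ, (∀ i, 1 ≤ n i) ∧ ∑ i, ⌊f (n i)⌋ = N) ∧
  (∀ ε : ℝ, 0 < ε → ∃ Y : ℝ, ∀ y : ℝ, Y ≤ y → ∃ n : Fin m → ℕ, (∀ i, 1 ≤ n i) ∧
    |∑ i, f (n i) - y| < ε)

theorem rep_of {f : ℕ → ℝ} {m : ℕ}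
    (h : ∀ A : ℕ, 1 ≤ A → ∃ N0 : ℤ, ∀ N : ℤ, N0 ≤ N → ∃ l : List ℕ, l.length = m ∧
      (∀ n ∈ l, 1 ≤ n) ∧ fs (fun x => (A : ℝ) * f x) l = N) : Rep f m := by
  refine ⟨?_, fun ε hε => ?_⟩
  · have h1 := h 1 le_rfl
    simp only [Nat.cast_one, one_mul] at h1
    exact floor_fin h1
  · obtain ⟨A, hA⟩ := exists_nat_gt (((m : ℝ) + 1) / ε)
    have hA0 : (0 : ℝ) < A := lt_of_le_of_lt (by positivity) hA
    have hA1 : 1 ≤ A := by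
      have : 0 < A := by exact_mod_cast hA0
      omega
    refine floor_approx hA0 ?_ (floor_fin (h A hA1))
    rw [div_lt_iff₀ hA0]
    rw [div_lt_iff₀ hε] at hA
    linarith

end FWar
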