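import Pool.Agent.FWar.FinE1
import Pool.Agent.FWar.ResA

/-!
# FWar.ResE1: final form for exponents
-/

namespace FWar

open MWg MeasureTheory Filter Topology
open scoped ENNReal NNReal

theorem expP_rep {κ : ℝ} {m : ℕ} (h : ExpP κ m) {α : ℝ} (hα : 0 < α) :
    Rep (fun x => α * (x : ℝ) ^ κ) m := by
  apply rep_of
  intro A hA
  have hA0 : (0 : ℝ) < A := by
    have : 0 < A := hA
    exact_mod_cast this
  obtain ⟨N0, h1⟩ := h (A * α) (by positivity)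
  refine ⟨N0, fun N hN => ?_⟩
  obtain ⟨l, h2, h3, h4⟩ := h1 N hN
  refine ⟨l, h2, h3, ?_⟩
  rw [← h4]
  congr 1
  funext x
  ring

theorem floor_le_four {κ : ℝ} (hκ : 5 / 4 ≤ κ) : 2 * ⌊2 * κ - 1 / 2⌋₊ + 1 ≤ ⌊4 * κ⌋₊ := by
  apply Nat.le_floor
  push_cast
  have h1 : (⌊2 * κ - 1 / 2⌋₊ : ℝ) ≤ 2 * κ - 1 / 2 := Nat.floor_le (by linarith)
  linarith

/-- The dimension statement. -/
theorem res_dim (b : ℝ) : dimH {κ : ℝ | 5 / 4 ≤ κ ∧ κ ≤ b ∧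
    ¬ ∀ m : ℕ, (⌊4 * κ⌋₊ ≤ m ∨ 4 * Real.log 2 * κ + 5 ≤ (m : ℝ)) →
      ∀ α : ℝ, 0 < α → Rep (fun x => α * (x : ℝ) ^ κ) m} < 1 := by
  refine lt_of_le_of_lt (dimH_mono ?_) (floor_exp1 b)
  rintro κ ⟨h1, h2, h3⟩
  refine ⟨h1, h2, ?_⟩
  by_contra h4
  apply h3
  intro m hm α hα
  apply expP_rep _ hα
  by_contra h5
  refine h4 ⟨m, ?_, h5⟩
  rcases hm with hm | hm
  · exact Or.inl ((floor_le_four h1).trans hm)
  · exact Or.inr hm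

theorem null_of_dimH {s : Set ℝ} (h : dimH s < 1) : volume s = 0 := by
  have h1 : dimH s < ((1 : ℝ≥0) : ℝ≥0∞) := by simpa using h
  have h2 := hausdorffMeasure_of_dimH_lt h1
  rw [NNReal.coe_one, MeasureTheory.hausdorffMeasure_real] at h2
  exact h2

theorem res_ae : ∀ᵐ κ : ℝ, 5 / 4 ≤ κ →
    ∀ m : ℕ, (⌊4 * κ⌋₊ ≤ m ∨ 4 * Real.log 2 * κ + 5 ≤ (m : ℝ)) →
      ∀ α : ℝ, 0 < α → Rep (fun x => α * (x : ℝ) ^ κ) m := by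
  have h1 : ∀ᵐ κ : ℝ, ∀ b : ℕ, ¬ (5 / 4 ≤ κ ∧ κ ≤ b ∧
      ¬ ∀ m : ℕ, (⌊4 * κ⌋₊ ≤ m ∨ 4 * Real.log 2 * κ + 5 ≤ (m : ℝ)) →
        ∀ α : ℝ, 0 < α → Rep (fun x => α * (x : ℝ) ^ κ) m) := by
    rw [ae_all_iff]
    intro b
    rw [ae_iff]
    simp only [not_not]
    exact null_of_dimH (res_dim b)
  filter_upwards [h1] with κ hκ h54
  obtain ⟨b, hb⟩ := exists_nat_ge κ
  by_contra h3
  exact hκ b ⟨h54, hb, h3⟩

end FWar
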