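import Pool.Agent.FWar.FinK
import Pool.Agent.FWar.ResA

/-!
# FWar.ResK: final form for polynomials, 2k + 1 terms
-/

namespace FWar

open MWg MeasureTheory Filter Topology

theorem ae_smul' {m : ℕ} {p : (Fin m → ℝ) → Prop} {a : ℝ} (ha : a ≠ 0)
    (h : ∀ᵐ s : Fin m → ℝ, p s) : ∀ᵐ t : Fin m → ℝ, p (a • t) := by
  have h1 : Measure.QuasiMeasurePreserving (fun t : Fin m → ℝ => a • t) volume volume := by
    refine ⟨measurable_const_smul _, ?_⟩
    rw [Measure.map_addHaar_smul volume ha]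
    exact Measure.smul_absolutelyContinuous
  exact h1.ae h

theorem res_polyK {k : ℕ} (hk : 2 ≤ k) {α : ℝ} (hα : 0 < α) :
    ∀ᵐ c : Fin k → ℝ, ∀ m : ℕ, 2 * k + 1 ≤ m →
      Rep (fun x => α * (x : ℝ) ^ k + ∑ j : Fin k, c j * (x : ℝ) ^ (j : ℕ)) m := by
  obtain ⟨n, rfl⟩ : ∃ n, k = n + 1 := ⟨k - 1, by omega⟩
  have hn : 1 ≤ n := by omega
  have h1 : ∀ᵐ c : Fin (n + 1) → ℝ, ∀ A : ℕ, 1 ≤ A → ∃ N0 : ℤ, ∀ N : ℤ, N0 ≤ N →
      ∃ l : List ℕ, l.length = 2 * n + 3 ∧ (∀ m ∈ l, 1 ≤ m) ∧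
      fs (fun x => (A : ℝ) * (α * (x : ℝ) ^ (n + 1) +
        ∑ j : Fin (n + 1), c j * (x : ℝ) ^ (j : ℕ))) l = N := by
    rw [ae_all_iff]
    intro A
    by_cases hA : 1 ≤ A
    · have hA0 : (0 : ℝ) < A := by
        have : 0 < A := hA
        exact_mod_cast this
      filter_upwards [ae_smul' hA0.ne' (floor_polyK hn (mul_pos hA0 hα))] with c hc _
      obtain ⟨N0, h⟩ := hc
      refine ⟨N0, fun N hN => ?_⟩
      obtain ⟨l, h2, h3, h4⟩ := h N hN
      refine ⟨l, h2, h3, ?_⟩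
      rw [← h4]
      congr 1
      funext x
      rw [mul_add, Finset.mul_sum]
      simp only [Pi.smul_apply, smul_eq_mul, mul_assoc]
    · exact Filter.Eventually.of_forall fun c h => absurd h hA
  filter_upwards [h1] with c hc m hm
  apply rep_of
  intro A hA
  exact floor_longer (by omega) (hc A hA)

end FWar
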