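import Pool.Agent.FWar.FinK2
import Pool.Agent.FWar.FinE2
import Pool.Agent.FWar.ResA

/-!
# FWar.ResM: almost all integers, final form
-/

namespace FWar

open MWg MeasureTheory Filter Topology

/-- All but `O(X^(1-δ))` of the positive integers up to `X` are sums of exactly `m` terms `⌊f n⌋`,
`n ≥ 1`. -/
def AlmostRep (f : ℕ → ℝ) (m : ℕ) : Prop :=
  ∃ δ C : ℝ, 0 < δ ∧ ∀ X : ℕ, 1 ≤ X →
    ({N : ℕ | 1 ≤ N ∧ N ≤ X ∧ ¬ ∃ n : Fin m → ℕ, (∀ i, 1 ≤ n i) ∧ ∑ i, ⌊f (n i)⌋ = (N : ℤ)}.ncard : ℝ)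
      ≤ C * (X : ℝ) ^ (1 - δ)

theorem almostRep_of {f : ℕ → ℝ} {m m' : ℕ} (hm : m ≤ m') (h : AlmostAll f m) :
    AlmostRep f m' := by
  classical
  obtain ⟨δ, hδ, C, h⟩ := h
  set s : ℤ := ((m' - m : ℕ) : ℤ) * ⌊f 1⌋ with hs
  set S : ℕ := s.natAbs with hS
  refine ⟨min δ 1, (2 * S + 1) + max C 0 * ((S : ℝ) + 1), lt_min hδ one_pos, fun X hX => ?_⟩
  have hX1 : (1 : ℝ) ≤ X := by exact_mod_cast hX
  set E : Finset ℕ := (Finset.Icc 1 (X + S)).filter (fun N => ¬ ∃ l : List ℕ, l.length = m ∧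
    (∀ n ∈ l, 1 ≤ n) ∧ fs f l = (N : ℤ)) with hE
  have hEc : (E.card : ℝ) ≤ C * ((X + S : ℕ) : ℝ) ^ (1 - δ) := by
    have := h (X + S) (by omega)
    rw [cn] at this
    convert this using 2
    rw [hE]
    congr!
  set G : Finset ℕ := Finset.range (S + 1) ∪ E.image (fun M : ℕ => ((M : ℤ) + s).toNat) with hG
  have hsub : {N : ℕ | 1 ≤ N ∧ N ≤ X ∧ ¬ ∃ n : Fin m' → ℕ, (∀ i, 1 ≤ n i) ∧
      ∑ i, ⌊f (n i)⌋ = (N : ℤ)} ⊆ (G : Set ℕ) := by
    rintro N ⟨h1, h2, h3⟩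
    rw [hG, Finset.mem_coe, Finset.mem_union]
    by_cases hN : N ≤ S
    · left
      rw [Finset.mem_range]
      omega
    · right
      have hN1 : (1 : ℤ) ≤ (N : ℤ) - s := by omega
      rw [Finset.mem_image]
      refine ⟨((N : ℤ) - s).toNat, ?_, ?_⟩
      · rw [hE, Finset.mem_filter, Finset.mem_Icc]
        refine ⟨⟨by omega, by omega⟩, ?_⟩
        rintro ⟨l, hl1, hl2, hl3⟩
        apply h3
        rw [Int.toNat_of_nonneg (by omega)] at hl3
        set l' := l ++ List.replicate (m' - m) 1 with hl'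
        have e1 : l'.length = m' := by simp [hl', hl1, hm]
        have e2 : ∀ n ∈ l', 1 ≤ n := by
          intro n hn
          rcases List.mem_append.1 hn with h | h
          · exact hl2 n h
          · rw [List.eq_of_mem_replicate h]
        have e3 : fs f l' = (N : ℤ) := by
          rw [hl', fs_append, fs_replicate, hl3, ← hs]
          ring
        clear_value l'
        subst e1
        refine ⟨fun i => l'.get i, fun i => e2 _ (List.get_mem l' i), ?_⟩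
        rw [← e3]
        have h4 : l'.map (fun n => ⌊f n⌋) = List.ofFn fun i : Fin l'.length => ⌊f (l'.get i)⌋ := by
          rw [← Function.comp_def (fun n => ⌊f n⌋) l'.get, ← List.map_ofFn, List.ofFn_get]
        rw [fs, h4, List.sum_ofFn]
      · rw [Int.toNat_of_nonneg (by omega)]
        omega
  have hcard : ({N : ℕ | 1 ≤ N ∧ N ≤ X ∧ ¬ ∃ n : Fin m' → ℕ, (∀ i, 1 ≤ n i) ∧
      ∑ i, ⌊f (n i)⌋ = (N : ℤ)}.ncard : ℝ) ≤ (S + 1) + E.card := by
    have h1 := Set.ncard_le_ncard hsub (Finset.finite_toSet G)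
    rw [Set.ncard_coe_finset] at h1
    have h2 : G.card ≤ (S + 1) + E.card := by
      refine (Finset.card_union_le _ _).trans ?_
      rw [Finset.card_range]
      exact Nat.add_le_add_left Finset.card_image_le _
    exact_mod_cast h1.trans h2
  have hmin : (1 : ℝ) ≤ (X : ℝ) ^ (1 - min δ 1) :=
    Real.one_le_rpow hX1 (by linarith [min_le_right δ 1])
  have hXS : ((X + S : ℕ) : ℝ) ^ (1 - δ) ≤ ((S : ℝ) + 1) * (X : ℝ) ^ (1 - min δ 1) := by
    have hS0 : (0 : ℝ) ≤ S := Nat.cast_nonneg S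
    have h1 : ((X + S : ℕ) : ℝ) ^ (1 - δ) ≤ ((X + S : ℕ) : ℝ) ^ (1 - min δ 1) := by
      apply Real.rpow_le_rpow_of_exponent_le
      · push_cast; linarith
      · linarith [min_le_left δ 1]
    have h2 : ((X + S : ℕ) : ℝ) ≤ ((S : ℝ) + 1) * X := by
      push_cast
      nlinarith
    have h3 : ((X + S : ℕ) : ℝ) ^ (1 - min δ 1) ≤ (((S : ℝ) + 1) * X) ^ (1 - min δ 1) :=
      Real.rpow_le_rpow (by positivity) h2 (by linarith [min_le_right δ 1])
    rw [Real.mul_rpow (by positivity) (by positivity)] at h3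
    refine h1.trans (h3.trans ?_)
    apply mul_le_mul_of_nonneg_right _ (by positivity)
    calc ((S : ℝ) + 1) ^ (1 - min δ 1) ≤ ((S : ℝ) + 1) ^ (1 : ℝ) := by
          apply Real.rpow_le_rpow_of_exponent_le (by linarith)
          have : 0 ≤ min δ 1 := le_min hδ.le zero_le_one
          linarith
      _ = (S : ℝ) + 1 := Real.rpow_one _
  have hC : C * ((X + S : ℕ) : ℝ) ^ (1 - δ) ≤
      max C 0 * (((S : ℝ) + 1) * (X : ℝ) ^ (1 - min δ 1)) := by
    have h1 : C * ((X + S : ℕ) : ℝ) ^ (1 - δ) ≤ max C 0 * ((X + S : ℕ) : ℝ) ^ (1 - δ) :=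
      mul_le_mul_of_nonneg_right (le_max_left _ _) (by positivity)
    exact h1.trans (mul_le_mul_of_nonneg_left hXS (le_max_right _ _))
  have hS0 : (0 : ℝ) ≤ S := Nat.cast_nonneg S
  calc _ ≤ ((S : ℝ) + 1) + E.card := hcard
    _ ≤ (2 * S + 1) * (X : ℝ) ^ (1 - min δ 1) +
        max C 0 * (((S : ℝ) + 1) * (X : ℝ) ^ (1 - min δ 1)) := by
      apply add_le_add _ (hEc.trans hC)
      nlinarith
    _ = _ := by ring

theorem res_almost {k : ℕ} (hk : 2 ≤ k) {α : ℝ} (hα : 0 < α) :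
    ∀ᵐ c : Fin k → ℝ, ∀ m : ℕ, k + 1 ≤ m →
      AlmostRep (fun x => α * (x : ℝ) ^ k + ∑ j : Fin k, c j * (x : ℝ) ^ (j : ℕ)) m := by
  obtain ⟨n, rfl⟩ : ∃ n, k = n + 1 := ⟨k - 1, by omega⟩
  filter_upwards [almost_polyK (by omega : 1 ≤ n) hα] with c hc m hm
  exact almostRep_of hm hc

theorem res_almost_exp : ∀ᵐ κ : ℝ, 5 / 4 ≤ κ → ∀ α : ℝ, 0 < α → ∀ m : ℕ,
    ⌊2 * κ - 1 / 2⌋₊ + 1 ≤ m → AlmostRep (fun x => α * (x : ℝ) ^ κ) m := by
  filter_upwards [almost_exp] with κ h hκ α hα m hm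
  exact almostRep_of hm (h hκ α hα)

end FWar
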