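import Pool.Agent.FWar.FinP1
import Pool.Agent.FWar.ResA
import Pool.Agent.FWar.ResE1
import Pool.Agent.MWg.Tools

/-!
# FWar.ResP: from one generic coefficient to almost every coefficient vector
-/

namespace FWar

open MWg MeasureTheory Filter Topology

/-- The polynomial with leading coefficient `α` and lower coefficients `c`, times `A`. -/
noncomputable def pol {k : ℕ} (A : ℕ) (α : ℝ) (c : Fin k → ℝ) (x : ℕ) : ℝ :=
  A * (α * (x : ℝ) ^ k + ∑ m : Fin k, c m * (x : ℝ) ^ (m : ℕ))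

theorem measurable_fs_pol (k A : ℕ) (α : ℝ) (l : List ℕ) :
    Measurable fun c : Fin k → ℝ => fs (pol A α c) l := by
  induction l with
  | nil => simp [fs]
  | cons a l ih =>
    have : (fun c : Fin k → ℝ => fs (pol A α c) (a :: l)) =
        fun c => ⌊pol A α c a⌋ + fs (pol A α c) l := by
      funext c
      simp [fs]
    rw [this]
    refine Measurable.add ?_ ih
    apply Int.measurable_floor.comp
    unfold pol
    fun_prop

theorem measurableSet_floorP (k s A : ℕ) (α : ℝ) :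
    MeasurableSet {c : Fin k → ℝ | FloorP (pol A α c) s} := by
  have h2 : {c : Fin k → ℝ | FloorP (pol A α c) s} =
      ⋃ N0 : ℤ, ⋂ N : ℤ, ⋂ _ : N0 ≤ N, ⋃ l : List ℕ, ⋃ _ : l.length = s ∧ ∀ n ∈ l, 1 ≤ n,
        {c : Fin k → ℝ | fs (pol A α c) l = N} := by
    ext c
    simp [FloorP, and_assoc]
  rw [h2]
  refine MeasurableSet.iUnion fun N0 => MeasurableSet.iInter fun N => MeasurableSet.iInter fun _ =>
    MeasurableSet.iUnion fun l => MeasurableSet.iUnion fun _ => ?_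
  exact measurable_fs_pol k A α l (measurableSet_singleton N)

theorem ae_floorP (k s A : ℕ) (α : ℝ)
    (H : ∀ c : Fin k → ℝ, ∀ᵐ t : ℝ, FloorP (pol A α (Fin.snoc (α := fun _ => ℝ) c t)) s) :
    ∀ᵐ c : Fin (k + 1) → ℝ, FloorP (pol A α c) s := by
  have hm := measurableSet_floorP (k + 1) s A α
  have mp := volume_preserving_piFinSuccAbove (fun _ : Fin (k + 1) => ℝ) (Fin.last k)
  set e := MeasurableEquiv.piFinSuccAbove (fun _ : Fin (k + 1) => ℝ) (Fin.last k) with he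
  have key : ∀ᵐ p : ℝ × (Fin k → ℝ), FloorP (pol A α (e.symm p)) s := by
    have hs : MeasurableSet {p : ℝ × (Fin k → ℝ) | ¬ FloorP (pol A α (e.symm p)) s} :=
      (e.symm.measurable hm.compl)
    rw [ae_iff]
    have hsw : (volume : Measure (ℝ × (Fin k → ℝ))) {p | ¬ FloorP (pol A α (e.symm p)) s} =
        ((volume : Measure (Fin k → ℝ)).prod (volume : Measure ℝ))
          (Prod.swap ⁻¹' {p : ℝ × (Fin k → ℝ) | ¬ FloorP (pol A α (e.symm p)) s}) := by
      have h3 := Measure.measurePreserving_swap (μ := (volume : Measure (Fin k → ℝ)))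
        (ν := (volume : Measure ℝ))
      rw [h3.measure_preimage hs.nullMeasurableSet]
      rfl
    rw [hsw, Measure.measure_prod_null (measurable_swap hs)]
    refine Filter.Eventually.of_forall fun c => ?_
    have := H c
    rw [ae_iff] at this
    change (volume : Measure ℝ) (Prod.mk c ⁻¹'
      (Prod.swap ⁻¹' {p : ℝ × (Fin k → ℝ) | ¬ FloorP (pol A α (e.symm p)) s})) = 0
    convert this using 2
    ext t
    have h5 : e.symm (t, c) = Fin.snoc (α := fun _ => ℝ) c t := by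
      have : e.symm (t, c) = (Fin.last k).insertNth (α := fun _ => ℝ) t c := rfl
      rw [this, Fin.insertNth_last']
    change ¬ FloorP (pol A α (e.symm (t, c))) s ↔ ¬ FloorP (pol A α (Fin.snoc c t)) s
    rw [h5]
  have h4 := mp.quasiMeasurePreserving.ae key
  filter_upwards [h4] with c hc
  simpa using hc

theorem dim_scale (A : ℕ) (hA : 1 ≤ A) (E : Set ℝ) :
    dimH {t : ℝ | (A : ℝ) * t ∈ E} ≤ dimH E := by
  have hA0 : (0 : ℝ) < A := by
    have : 0 < A := hA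
    exact_mod_cast this
  have h1 : {t : ℝ | (A : ℝ) * t ∈ E} = (fun t : ℝ => (A : ℝ)⁻¹ * t) '' E := by
    ext t
    simp only [Set.mem_ofPred_eq, Set.mem_image]
    constructor
    · intro h
      refine ⟨A * t, h, ?_⟩
      field_simp
    · rintro ⟨x, hx, rfl⟩
      have : (A : ℝ) * ((A : ℝ)⁻¹ * x) = x := by field_simp
      rwa [this]
  rw [h1]
  have h2 : LipschitzWith (Real.toNNReal ((A : ℝ)⁻¹)) (fun t : ℝ => (A : ℝ)⁻¹ * t) := by
    apply LipschitzWith.of_dist_le_mul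
    intro x y
    rw [Real.dist_eq, Real.dist_eq, ← mul_sub, abs_mul, Real.coe_toNNReal _ (by positivity),
      abs_of_pos (by positivity : (0 : ℝ) < (A : ℝ)⁻¹)]
  exact h2.dimH_image_le E

theorem dim_allA {k : ℕ} (hk : 2 ≤ k) : ∃ d : ℝ, d < 1 ∧ ∀ (α : ℝ) (g : Polynomial ℝ), 0 < α →
    g.natDegree < k →
    dimH {t : ℝ | ¬ ∀ A : ℕ, 1 ≤ A → FloorP (fun x => (A : ℝ) * (α * (x : ℝ) ^ k + g.eval (x : ℝ) +
      t * (x : ℝ) ^ (k - 1))) (4 * k - 1)} ≤ ENNReal.ofReal d := by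
  obtain ⟨d, hd, h⟩ := floor_poly1 hk
  refine ⟨d, hd, fun α g hα hg => ?_⟩
  have h1 : {t : ℝ | ¬ ∀ A : ℕ, 1 ≤ A → FloorP (fun x => (A : ℝ) * (α * (x : ℝ) ^ k +
      g.eval (x : ℝ) + t * (x : ℝ) ^ (k - 1))) (4 * k - 1)} ⊆ ⋃ A : ℕ,
      {t : ℝ | ((A + 1 : ℕ) : ℝ) * t ∈ {t' : ℝ | ¬ FloorP (fun x => ((A + 1 : ℕ) * α) * (x : ℝ) ^ k +
        (Polynomial.C ((A + 1 : ℕ) : ℝ) * g).eval (x : ℝ) + t' * (x : ℝ) ^ (k - 1)) (4 * k - 1)}} := by
    intro t ht
    simp only [Set.mem_ofPred_eq, not_forall] at ht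
    obtain ⟨A, hA, h2⟩ := ht
    rw [Set.mem_iUnion]
    refine ⟨A - 1, ?_⟩
    simp only [Set.mem_ofPred_eq]
    have h3 : A - 1 + 1 = A := by omega
    rw [h3]
    have h4 : (fun x : ℕ => ((A : ℝ) * α) * (x : ℝ) ^ k +
        (Polynomial.C (A : ℝ) * g).eval (x : ℝ) + (A : ℝ) * t * (x : ℝ) ^ (k - 1)) =
        fun x : ℕ => (A : ℝ) * (α * (x : ℝ) ^ k + g.eval (x : ℝ) + t * (x : ℝ) ^ (k - 1)) := by
      funext x
      simp only [Polynomial.eval_mul, Polynomial.eval_C]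
      ring
    rw [h4]
    exact h2
  refine (dimH_mono h1).trans ?_
  rw [dimH_iUnion]
  refine iSup_le fun A => ?_
  refine (dim_scale (A + 1) (by omega) _).trans ?_
  refine h _ _ (by positivity) ?_
  exact lt_of_le_of_lt (Polynomial.natDegree_C_mul_le _ _) hg

theorem res_poly_dim {k : ℕ} (hk : 2 ≤ k) : ∃ d : ℝ, d < 1 ∧ ∀ (α : ℝ) (g : Polynomial ℝ), 0 < α →
    g.natDegree < k →
    dimH {t : ℝ | ¬ ∀ m : ℕ, 4 * k - 1 ≤ m → Rep (fun x => α * (x : ℝ) ^ k + g.eval (x : ℝ) +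
      t * (x : ℝ) ^ (k - 1)) m} ≤ ENNReal.ofReal d := by
  obtain ⟨d, hd, h⟩ := dim_allA hk
  refine ⟨d, hd, fun α g hα hg => (dimH_mono ?_).trans (h α g hα hg)⟩
  intro t ht
  simp only [Set.mem_ofPred_eq] at ht ⊢
  intro h1
  apply ht
  intro m hm
  apply rep_of
  intro A hA
  exact floor_longer hm (h1 A hA)

theorem res_poly_ae {k : ℕ} (hk : 2 ≤ k) {α : ℝ} (hα : 0 < α) :
    ∀ᵐ c : Fin k → ℝ, ∀ m : ℕ, 4 * k - 1 ≤ m →
      Rep (fun x => α * (x : ℝ) ^ k + ∑ j : Fin k, c j * (x : ℝ) ^ (j : ℕ)) m := by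
  obtain ⟨n, rfl⟩ : ∃ n, k = n + 1 := ⟨k - 1, by omega⟩
  have h1 : ∀ A : ℕ, 1 ≤ A → ∀ᵐ c : Fin (n + 1) → ℝ, FloorP (pol A α c) (4 * (n + 1) - 1) := by
    intro A hA
    apply ae_floorP
    intro c
    obtain ⟨d, hd, h⟩ := dim_allA hk
    set g : Polynomial ℝ := ∑ m : Fin n, Polynomial.C (c m) * Polynomial.X ^ (m : ℕ) with hg
    have hgd : g.natDegree < n + 1 := by
      have : g.natDegree ≤ n := by
        apply Polynomial.natDegree_sum_le_of_forall_le
        intro m _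
        refine (Polynomial.natDegree_C_mul_X_pow_le _ _).trans m.2.le
      omega
    have h2 := h α g hα hgd
    have h3 : volume {t : ℝ | ¬ ∀ A : ℕ, 1 ≤ A → FloorP (fun x => (A : ℝ) * (α * (x : ℝ) ^ (n + 1) +
        g.eval (x : ℝ) + t * (x : ℝ) ^ (n + 1 - 1))) (4 * (n + 1) - 1)} = 0 := by
      apply null_of_dimH
      refine lt_of_le_of_lt h2 ?_
      rw [← ENNReal.ofReal_one]
      exact (ENNReal.ofReal_lt_ofReal_iff one_pos).2 hd
    rw [ae_iff]
    refine measure_mono_null ?_ h3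
    intro t ht
    simp only [Set.mem_ofPred_eq] at ht ⊢
    intro h4
    apply ht
    convert h4 A hA using 1
    funext x
    simp only [pol, Fin.sum_univ_castSucc, Fin.snoc_castSucc, Fin.snoc_last, Fin.val_castSucc,
      Fin.val_last, hg, Polynomial.eval_finsetSum, Polynomial.eval_mul, Polynomial.eval_C,
      Polynomial.eval_pow, Polynomial.eval_X, Nat.add_sub_cancel]
    ring
  have h2 : ∀ᵐ c : Fin (n + 1) → ℝ, ∀ A : ℕ, 1 ≤ A → FloorP (pol A α c) (4 * (n + 1) - 1) := by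
    rw [ae_all_iff]
    intro A
    by_cases hA : 1 ≤ A
    · filter_upwards [h1 A hA] with c hc _
      exact hc
    · exact Filter.Eventually.of_forall fun c h => absurd h hA
  filter_upwards [h2] with c hc m hm
  apply rep_of
  intro A hA
  exact floor_longer hm (hc A hA)

end FWar
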