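import Pool.Agent.FWar.FinSq
import Pool.Agent.FWar.ResA
import Pool.Agent.FWar.ResE1

/-!
# FWar.ResS: final form for shifted powers
-/

namespace FWar

open MWg MeasureTheory Filter Topology

theorem ResS_half_bound {k : ℕ} (hk : 2 ≤ k) : (1 - 1 / (k : ℝ)) ^ (k - 1) ≤ 1 / 2 := by
  have hkR : (2 : ℝ) ≤ k := by exact_mod_cast hk
  have hk1 : ((k - 1 : ℕ) : ℝ) = (k : ℝ) - 1 := by
    rw [Nat.cast_sub (by omega)]
    norm_num
  have hpos : (0 : ℝ) < (k : ℝ) - 1 := by linarith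
  have h0 : 0 ≤ 1 / ((k : ℝ) - 1) := by positivity
  have h1 : (1 : ℝ) + ((k - 1 : ℕ) : ℝ) * (1 / ((k : ℝ) - 1)) ≤
      (1 + 1 / ((k : ℝ) - 1)) ^ (k - 1) :=
    one_add_mul_le_pow (by linarith) _
  rw [hk1, mul_one_div, div_self hpos.ne'] at h1
  have h2 : (1 - 1 / (k : ℝ)) * (1 + 1 / ((k : ℝ) - 1)) = 1 := by
    have hk0 : (k : ℝ) ≠ 0 := by linarith
    have hk2 : (k : ℝ) - 1 ≠ 0 := hpos.ne'
    field_simp
    ring
  have h3 : (1 - 1 / (k : ℝ)) ^ (k - 1) * (1 + 1 / ((k : ℝ) - 1)) ^ (k - 1) = 1 := by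
    rw [← mul_pow, h2, one_pow]
  have h4 : 0 ≤ (1 - 1 / (k : ℝ)) ^ (k - 1) := by
    apply pow_nonneg
    have : 1 / (k : ℝ) ≤ 1 := by
      rw [div_le_one (by linarith)]
      linarith
    linarith
  have h5 := mul_le_mul_of_nonneg_left h1 h4
  linarith

theorem ResS_log_bound {k : ℕ} (hk : 2 ≤ k) :
    ∃ q : ℕ, (1 - 1 / (k : ℝ)) ^ (q + 1) ≤ 1 / 2 ∧ ((4 * q + 7 : ℕ) : ℝ) < 4 * Real.log 2 * k + 7 := by
  have hkR : (2 : ℝ) ≤ k := by exact_mod_cast hk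
  have hl : 0 < Real.log 2 := Real.log_pos (by norm_num)
  obtain ⟨n, hn⟩ : ∃ n : ℕ, n = ⌈(k : ℝ) * Real.log 2⌉₊ := ⟨_, rfl⟩
  have h1 : (k : ℝ) * Real.log 2 ≤ n := by rw [hn]; exact Nat.le_ceil _
  have h2 : (n : ℝ) < (k : ℝ) * Real.log 2 + 1 := by
    rw [hn]; exact Nat.ceil_lt_add_one (by positivity)
  have hn1 : 1 ≤ n := by
    have : (0 : ℝ) < n := lt_of_lt_of_le (by positivity) h1
    exact_mod_cast this
  refine ⟨n - 1, ?_, ?_⟩
  · have h3 : n - 1 + 1 = n := by omega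
    rw [h3]
    have h4 : 1 - 1 / (k : ℝ) ≤ Real.exp (-(1 / (k : ℝ))) := by
      have := Real.add_one_le_exp (-(1 / (k : ℝ)))
      linarith
    have h5 : 0 ≤ 1 - 1 / (k : ℝ) := by
      have : 1 / (k : ℝ) ≤ 1 := by
        rw [div_le_one (by linarith)]
        linarith
      linarith
    calc (1 - 1 / (k : ℝ)) ^ n ≤ (Real.exp (-(1 / (k : ℝ)))) ^ n := pow_le_pow_left₀ h5 h4 n
      _ = Real.exp (-(n / k)) := by
          rw [← Real.exp_nat_mul]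
          congr 1
          ring
      _ ≤ Real.exp (-Real.log 2) := by
          apply Real.exp_le_exp.2
          have : Real.log 2 ≤ n / k := by
            rw [le_div_iff₀ (by linarith)]
            linarith
          linarith
      _ = 1 / 2 := by
          rw [Real.exp_neg, Real.exp_log (by norm_num)]
          norm_num
  · have h3 : ((4 * (n - 1) + 7 : ℕ) : ℝ) = 4 * n + 3 := by
      have : 4 * (n - 1) + 7 = 4 * n + 3 := by omega
      rw [this]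
      push_cast
      ring
    rw [h3]
    linarith

theorem res_shift_dim {k : ℕ} (hk : 2 ≤ k) : ∃ d : ℝ, d < 1 ∧
    dimH {b : ℝ | ¬ ∀ m : ℕ, (4 * k - 1 ≤ m ∨ 4 * Real.log 2 * k + 7 ≤ (m : ℝ)) →
      ∀ α : ℝ, 0 < α → Rep (fun x => α * ((x : ℝ) + b) ^ k) m} ≤ ENNReal.ofReal d := by
  obtain ⟨q, hq, hq7⟩ := ResS_log_bound hk
  have hq1 : (1 - 1 / (k : ℝ)) ^ (k - 2 + 1) ≤ 1 / 2 := by
    have : k - 2 + 1 = k - 1 := by omega
    rw [this]
    exact ResS_half_bound hk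
  obtain ⟨d1, hd1, h1⟩ := floor_shift_q hk hq1
  obtain ⟨d2, hd2, h2⟩ := floor_shift_q hk hq
  refine ⟨max d1 d2, max_lt hd1 hd2, ?_⟩
  have hsub : {b : ℝ | ¬ ∀ m : ℕ, (4 * k - 1 ≤ m ∨ 4 * Real.log 2 * k + 7 ≤ (m : ℝ)) →
      ∀ α : ℝ, 0 < α → Rep (fun x => α * ((x : ℝ) + b) ^ k) m} ⊆
      {b : ℝ | ¬ ∀ α : ℝ, 0 < α → FloorP (fun x => α * ((x : ℝ) + b) ^ k) (4 * (k - 2) + 7)} ∪
      {b : ℝ | ¬ ∀ α : ℝ, 0 < α → FloorP (fun x => α * ((x : ℝ) + b) ^ k) (4 * q + 7)} := by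
    intro b hb
    rw [Set.mem_union]
    by_contra hcon
    rw [not_or] at hcon
    obtain ⟨ha, hc⟩ := hcon
    simp only [Set.mem_ofPred_eq, not_not] at ha hc
    refine hb ?_
    intro m hm α hα
    apply rep_of
    intro A hA
    have hA0 : (0 : ℝ) < A := by
      have : 0 < A := hA
      exact_mod_cast this
    have e1 : (fun x : ℕ => (A : ℝ) * (α * ((x : ℝ) + b) ^ k)) =
        fun x : ℕ => (A * α) * ((x : ℝ) + b) ^ k := by
      funext x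
      ring
    rw [e1]
    rcases hm with hm | hm
    · exact floor_longer (by omega) (ha (A * α) (by positivity))
    · refine floor_longer ?_ (hc (A * α) (by positivity))
      have : ((4 * q + 7 : ℕ) : ℝ) < (m : ℝ) := lt_of_lt_of_le hq7 hm
      exact_mod_cast this.le
  refine (dimH_mono hsub).trans ?_
  rw [dimH_union]
  exact max_le (h1.trans (ENNReal.ofReal_le_ofReal (le_max_left _ _)))
    (h2.trans (ENNReal.ofReal_le_ofReal (le_max_right _ _)))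

theorem res_shift_ae {k : ℕ} (hk : 2 ≤ k) :
    ∀ᵐ b : ℝ, ∀ m : ℕ, (4 * k - 1 ≤ m ∨ 4 * Real.log 2 * k + 7 ≤ (m : ℝ)) →
      ∀ α : ℝ, 0 < α → Rep (fun x => α * ((x : ℝ) + b) ^ k) m := by
  obtain ⟨d, hd, h⟩ := res_shift_dim hk
  rw [ae_iff]
  apply null_of_dimH
  refine lt_of_le_of_lt h ?_
  rw [← ENNReal.ofReal_one]
  exact (ENNReal.ofReal_lt_ofReal_iff one_pos).2 hd

end FWar
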