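import Pool.Agent.FWar.Defs

/-!
# FWar.TayE: Taylor expansion of x^κ on blocks

`bc κ i = κ (κ-1) ... (κ-i+1)/i!`.

PROOF of `tayE`. The `i`-th derivative of `x ↦ x^κ` at `x > 0` is
`(∏_{l<i} (κ - l)) x^(κ-i) = i! (bc κ i) x^(κ-i)` (induction; Mathlib: `Real.hasDerivAt_rpow_const`,
maybe `iteratedDeriv` lemmas for `rpow`). Taylor's theorem with Lagrange remainder
(`taylor_mean_remainder_lagrange`, or prove the bound by induction on `D` from the mean value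
inequality / integration) at `N` with increment `x ∈ [0, M]`: the remainder is
`bc κ (D+1) ξ^(κ-D-1) x^(D+1)` with `N ≤ ξ ≤ N + M ≤ 2N`, and
`ξ^(κ-D-1) ≤ 2^|κ-D-1| N^(κ-D-1)`. So `C = |bc κ (D+1)| 2^|κ-D-1| + 1`.

`bc_ne`: no factor `κ - l` vanishes.
-/

namespace FWar

open Finset

private lemma bc_zero (κ : ℝ) : bc κ 0 = 1 := by
  unfold bc
  simp

private lemma bc_succ_mul (κ : ℝ) (i : ℕ) :
    bc κ (i + 1) * ((i : ℝ) + 1) = κ * bc (κ - 1) i := by
  unfold bc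
  rw [Finset.prod_range_succ']
  have h1 : ∀ l ∈ Finset.range i, κ - ((l + 1 : ℕ) : ℝ) = κ - 1 - (l : ℝ) := by
    intro l _
    push_cast
    ring
  rw [Finset.prod_congr rfl h1, Nat.factorial_succ]
  have h2 : ((i.factorial : ℕ) : ℝ) ≠ 0 := by
    exact_mod_cast Nat.factorial_ne_zero i
  have h3 : ((i : ℝ) + 1) ≠ 0 := by positivity
  push_cast
  field_simp
  ring

private lemma base_bound (κ N x : ℝ) (hN : 1 ≤ N) (hx : 0 ≤ x) (hxN : x ≤ N) :
    |(N + x) ^ κ| ≤ (2 : ℝ) ^ |κ| * N ^ κ := by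
  have hN0 : 0 < N := by linarith
  have hNx : 0 < N + x := by linarith
  rw [abs_of_pos (Real.rpow_pos_of_pos hNx κ)]
  have h1 : (N + x) = N * ((N + x) / N) := by field_simp
  have h2 : 1 ≤ (N + x) / N := by
    rw [le_div_iff₀ hN0]
    linarith
  have h3 : (N + x) / N ≤ 2 := by
    rw [div_le_iff₀ hN0]
    linarith
  calc (N + x) ^ κ = (N * ((N + x) / N)) ^ κ := by rw [← h1]
    _ = N ^ κ * ((N + x) / N) ^ κ := by
        rw [Real.mul_rpow hN0.le (by linarith)]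
    _ ≤ N ^ κ * (2 : ℝ) ^ |κ| := by
        apply mul_le_mul_of_nonneg_left _ (Real.rpow_pos_of_pos hN0 κ).le
        calc ((N + x) / N) ^ κ ≤ ((N + x) / N) ^ |κ| :=
              Real.rpow_le_rpow_of_exponent_le h2 (le_abs_self κ)
          _ ≤ (2 : ℝ) ^ |κ| := Real.rpow_le_rpow (by linarith) h3 (abs_nonneg κ)
    _ = (2 : ℝ) ^ |κ| * N ^ κ := mul_comm _ _

private lemma tay_aux (D : ℕ) : ∀ κ : ℝ, ∃ C : ℝ, 0 < C ∧ ∀ N M : ℝ, 1 ≤ N → 0 ≤ M → M ≤ N →
    ∀ x : ℝ, 0 ≤ x → x ≤ M →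
      |(N + x) ^ κ - ∑ i ∈ range D, bc κ i * N ^ (κ - (i : ℝ)) * x ^ i| ≤
        C * N ^ (κ - (D : ℝ)) * M ^ D := by
  induction D with
  | zero =>
    intro κ
    refine ⟨(2 : ℝ) ^ |κ|, by positivity, fun N M hN hM hMN x hx hxM => ?_⟩
    have := base_bound κ N x hN hx (hxM.trans hMN)
    simpa using this
  | succ D ih =>
    intro κ
    obtain ⟨C, hC, hb⟩ := ih (κ - 1)
    refine ⟨|κ| * C + 1, by positivity, fun N M hN hM hMN x hx hxM => ?_⟩
    have hN0 : 0 < N := by linarith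
    set f : ℝ → ℝ := fun y => (N + y) ^ κ - ∑ i ∈ range (D + 1), bc κ i * N ^ (κ - (i : ℝ)) * y ^ i
      with hf
    set f' : ℝ → ℝ := fun y => κ * ((N + y) ^ (κ - 1) -
      ∑ i ∈ range D, bc (κ - 1) i * N ^ (κ - 1 - (i : ℝ)) * y ^ i) with hf'
    have hder : ∀ y ∈ Set.Icc (0 : ℝ) M, HasDerivWithinAt f (f' y) (Set.Icc 0 M) y := by
      intro y hy
      have hNy : N + y ≠ 0 := by linarith [hy.1]
      have d1 : HasDerivAt (fun y : ℝ => (N + y) ^ κ) (1 * κ * (N + y) ^ (κ - 1)) y :=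
        ((hasDerivAt_id y).const_add N).rpow_const (Or.inl hNy)
      have d2 : HasDerivAt (fun y : ℝ => ∑ i ∈ range (D + 1), bc κ i * N ^ (κ - (i : ℝ)) * y ^ i)
          (∑ i ∈ range (D + 1), bc κ i * N ^ (κ - (i : ℝ)) * ((i : ℝ) * y ^ (i - 1))) y := by
        apply HasDerivAt.fun_sum
        intro i _
        exact (hasDerivAt_pow i y).const_mul _
      have d3 := (d1.sub d2).hasDerivWithinAt (s := Set.Icc (0 : ℝ) M)
      have e0 : f' y = 1 * κ * (N + y) ^ (κ - 1) -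
          ∑ i ∈ range (D + 1), bc κ i * N ^ (κ - (i : ℝ)) * ((i : ℝ) * y ^ (i - 1)) := by
        rw [hf', Finset.sum_range_succ']
        simp only [Nat.cast_zero, zero_mul, mul_zero, add_zero]
        rw [one_mul, mul_sub, Finset.mul_sum]
        congr 1
        apply Finset.sum_congr rfl
        intro i _
        have e1 : κ - 1 - (i : ℝ) = κ - ((i + 1 : ℕ) : ℝ) := by push_cast; ring
        have e2 := bc_succ_mul κ i
        rw [e1]
        simp only [Nat.add_sub_cancel]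
        push_cast
        linear_combination (-(N ^ (κ - ((i : ℝ) + 1)) * y ^ i)) * e2
      rw [e0]
      exact d3
    have hbound : ∀ y ∈ Set.Ico (0 : ℝ) M, ‖f' y‖ ≤ |κ| * (C * N ^ (κ - 1 - (D : ℝ)) * M ^ D) := by
      intro y hy
      rw [hf', Real.norm_eq_abs, abs_mul]
      exact mul_le_mul_of_nonneg_left (hb N M hN hM hMN y hy.1 hy.2.le) (abs_nonneg κ)
    have h1 := norm_image_sub_le_of_norm_deriv_le_segment' hder hbound x ⟨hx, hxM⟩
    have hf0 : f 0 = 0 := by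
      rw [hf]
      simp only [add_zero]
      rw [Finset.sum_range_succ', bc_zero]
      simp
    rw [hf0, sub_zero, sub_zero, Real.norm_eq_abs] at h1
    have hP : 0 < N ^ (κ - 1 - (D : ℝ)) := Real.rpow_pos_of_pos hN0 _
    calc |f x| ≤ |κ| * (C * N ^ (κ - 1 - (D : ℝ)) * M ^ D) * x := h1
      _ ≤ |κ| * (C * N ^ (κ - 1 - (D : ℝ)) * M ^ D) * M := by
          apply mul_le_mul_of_nonneg_left hxM
          positivity
      _ ≤ (|κ| * C + 1) * N ^ (κ - ((D + 1 : ℕ) : ℝ)) * M ^ (D + 1) := by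
          have e1 : κ - ((D + 1 : ℕ) : ℝ) = κ - 1 - (D : ℝ) := by push_cast; ring
          rw [e1, pow_succ]
          have : 0 ≤ N ^ (κ - 1 - (D : ℝ)) * (M ^ D * M) := by positivity
          nlinarith

theorem tayE (κ : ℝ) (D : ℕ) : ∃ C : ℝ, 0 < C ∧ ∀ N M : ℝ, 1 ≤ N → 0 ≤ M → M ≤ N →
    ∀ x : ℝ, 0 ≤ x → x ≤ M →
      |(N + x) ^ κ - ∑ i ∈ range (D + 1), bc κ i * N ^ (κ - (i : ℝ)) * x ^ i| ≤
        C * N ^ (κ - (D : ℝ) - 1) * M ^ (D + 1) := by
  obtain ⟨C, hC, h⟩ := tay_aux (D + 1) κ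
  refine ⟨C, hC, fun N M hN hM hMN x hx hxM => ?_⟩
  have h1 := h N M hN hM hMN x hx hxM
  have e1 : κ - ((D + 1 : ℕ) : ℝ) = κ - (D : ℝ) - 1 := by push_cast; ring
  rw [e1] at h1
  exact h1

theorem bc_ne {κ : ℝ} (h : ∀ n : ℕ, κ ≠ n) (i : ℕ) : bc κ i ≠ 0 := by
  unfold bc
  apply div_ne_zero
  · rw [Finset.prod_ne_zero_iff]
    intro l _
    exact sub_ne_zero.2 (h l)
  · exact_mod_cast Nat.factorial_ne_zero i

end FWar
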